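import Pool.Agent.K4H95.LQ.Spec3

/-!
# Piece P2
-/

set_option autoImplicit false

namespace Pool.Agent.K4H95.LQ

open Filter Topology

noncomputable section

namespace PP2

theorem Gm_pos : 0 < Gm 1 := by
  unfold Gm
  have hsum : Summable fun p : Nat.Primes => 1 / (((p : ℕ) : ℝ) * (((p : ℕ) : ℝ) + 1)) := by
    have h1 : Summable fun n : ℕ => 1 / ((n : ℝ) * ((n : ℝ) + 1)) := by
      refine Summable.of_nonneg_of_le (fun n => by positivity) (fun n => ?_)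
        (Real.summable_one_div_nat_pow.2 (by norm_num : 1 < 2))
      rcases Nat.eq_zero_or_pos n with rfl | hn
      · simp
      · have : (0 : ℝ) < n := by exact_mod_cast hn
        refine one_div_le_one_div_of_le (by positivity) ?_
        nlinarith
    exact h1.comp_injective Nat.Primes.coe_nat_injective
  have h1 : Summable fun p : Nat.Primes => (if (p : ℕ) = 2 then (0 : ℝ) else
      -(1 / (((p : ℕ) : ℝ) * (((p : ℕ) : ℝ) + 1)))) := by
    refine Summable.of_norm_bounded hsum fun p => ?_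
    split_ifs
    · rw [norm_zero]; positivity
    · rw [norm_neg, Real.norm_of_nonneg (by positivity)]
  have h2 := Real.rexp_tsum_eq_tprod (f := fun p : Nat.Primes => 1 + (if (p : ℕ) = 2 then (0 : ℝ) else
      -(1 / (((p : ℕ) : ℝ) * (((p : ℕ) : ℝ) + 1))))) (fun p => ?_) (Real.summable_log_one_add_of_summable h1)
  · refine mul_pos (by norm_num) ?_
    have h3 : (fun p : Nat.Primes => if (p : ℕ) = 2 then (1 : ℝ) else
        if (p : ℕ) ∣ 1 then ((p : ℕ) : ℝ) / (((p : ℕ) : ℝ) + 1) else 1 - 1 / (((p : ℕ) : ℝ) * (((p : ℕ) : ℝ) + 1))) =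
        fun p : Nat.Primes => 1 + (if (p : ℕ) = 2 then (0 : ℝ) else
      -(1 / (((p : ℕ) : ℝ) * (((p : ℕ) : ℝ) + 1)))) := by
      funext p
      have hp := p.2
      have h4 : ¬ (p : ℕ) ∣ 1 := by
        intro h
        exact hp.one_lt.ne' (Nat.dvd_one.1 h)
      rw [if_neg h4]
      split_ifs <;> ring
    rw [h3, ← h2]
    exact Real.exp_pos _
  · have hp := p.2.two_le
    have h5 : (2 : ℝ) ≤ ((p : ℕ) : ℝ) := by exact_mod_cast hp
    show 0 < 1 + (if (p : ℕ) = 2 then (0 : ℝ) else -(1 / (((p : ℕ) : ℝ) * (((p : ℕ) : ℝ) + 1))))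
    split_ifs
    · norm_num
    · have : 1 / (((p : ℕ) : ℝ) * (((p : ℕ) : ℝ) + 1)) < 1 := by
        rw [div_lt_one (by positivity)]
        nlinarith
      linarith

theorem pim_ge (p : ℕ) (hp : 3 ≤ p) (x : ℝ) : 1 / (2 * (p : ℝ)) ≤ pim p x := by
  have h3 : (3 : ℝ) ≤ p := by exact_mod_cast hp
  unfold pim
  split_ifs
  · exact one_div_le_one_div_of_le (by linarith) (by linarith)
  · rw [div_le_div_iff₀ (by linarith) (by linarith)]
    nlinarith

theorem lam_ge (p : ℕ) (hp : 3 ≤ p) (x : ℝ) (hx : x = 0 ∨ x = 1 ∨ x = -1) : 1 / (5 * (p : ℝ)) ≤ lam p x := by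
  have h3 : (3 : ℝ) ≤ p := by exact_mod_cast hp
  have hs : (17 / 10 : ℝ) ≤ √(p : ℝ) := by
    refine Real.le_sqrt_of_sq_le ?_
    norm_num
    linarith
  have hs2 : √(p : ℝ) * √(p : ℝ) = p := Real.mul_self_sqrt (by linarith)
  have hsi : 1 / √(p : ℝ) ≤ 3 / 5 := by
    rw [div_le_div_iff₀ (by linarith) (by norm_num)]
    linarith
  have hpi : 1 / (p : ℝ) = 1 / √(p : ℝ) * (1 / √(p : ℝ)) := by
    rw [div_mul_div_comm, hs2, one_mul]
  have hsp : 0 < 1 / √(p : ℝ) := by positivity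
  have hq : 2 / 5 ≤ (1 - 1 / (p : ℝ)) / (1 - x / √(p : ℝ)) := by
    have hx1 : x / √(p : ℝ) ≤ 1 / √(p : ℝ) := by
      refine div_le_div_of_nonneg_right ?_ (by positivity)
      rcases hx with rfl | rfl | rfl <;> norm_num
    have hx2 : -(1 / √(p : ℝ)) ≤ x / √(p : ℝ) := by
      rw [← neg_div]
      refine div_le_div_of_nonneg_right ?_ (by positivity)
      rcases hx with rfl | rfl | rfl <;> norm_num
    rw [le_div_iff₀ (by linarith), hpi]
    nlinarith
  have hpim := pim_ge p hp x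
  have hpos : 0 < 1 / (2 * (p : ℝ)) := by positivity
  have h4 : 1 / (5 * (p : ℝ)) ≤ pim p x * (1 - 1 / (p : ℝ)) / (1 - x / √(p : ℝ)) := by
    rw [mul_div_assoc]
    have h5 : 1 / (5 * (p : ℝ)) = 1 / (2 * (p : ℝ)) * (2 / 5) := by
      field_simp
    rw [h5]
    exact mul_le_mul hpim hq (by norm_num) (by linarith)
  have h6 : 0 < 1 - 1 / ((p : ℝ) * ((p : ℝ) + 1)) := by
    have : 1 / ((p : ℝ) * ((p : ℝ) + 1)) < 1 := by
      rw [div_lt_one (by positivity)]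
      nlinarith
    linarith
  have h7 : 1 - 1 / ((p : ℝ) * ((p : ℝ) + 1)) ≤ 1 := by
    have : 0 < 1 / ((p : ℝ) * ((p : ℝ) + 1)) := by positivity
    linarith
  have h8 : 0 < 1 / (5 * (p : ℝ)) := by positivity
  unfold lam
  rw [le_div_iff₀ h6]
  nlinarith

theorem card_le (Y : ℕ) (S : Finset ℕ) (h : OP S) (hY : ∀ p ∈ S, p ≤ Y) : S.card ≤ Y := by
  have : S ⊆ Finset.Icc 1 Y := fun p hp => Finset.mem_Icc.2 ⟨(h p hp).1.pos, hY p hp⟩
  have := Finset.card_le_card this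
  simpa using this

theorem prod_le (Y : ℕ) (S : Finset ℕ) (h : OP S) (hY : ∀ p ∈ S, p ≤ Y) : ∏ p ∈ S, p ≤ 4 ^ Y := by
  refine le_trans ?_ (primorial_le_four_pow Y)
  unfold primorial
  refine Finset.prod_le_prod_of_subset_of_one_le' ?_ ?_
  · intro p hp
    rw [Finset.mem_filter, Finset.mem_range]
    exact ⟨Nat.lt_succ_of_le (hY p hp), (h p hp).1⟩
  · intro p hp _
    exact (Finset.mem_filter.1 hp).2.pos

theorem prod_ge (Y : ℕ) (S : Finset ℕ) (h : OP S) (hY : ∀ p ∈ S, p ≤ Y) (b : ℕ) (hb : 1 ≤ b) (hb5 : b ≤ 5) :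
    (1 / 32 : ℝ) ^ Y ≤ ∏ p ∈ S, 1 / ((b : ℝ) * p) := by
  have hb0 : (0 : ℝ) < b := by exact_mod_cast hb
  have hp : ∀ p ∈ S, (0 : ℝ) < p := fun p hp => by exact_mod_cast (h p hp).1.pos
  rw [Finset.prod_div_distrib, Finset.prod_const_one, one_div_pow]
  have hpp : (0 : ℝ) < ∏ p ∈ S, (b : ℝ) * p := Finset.prod_pos fun p hp' => mul_pos hb0 (hp p hp')
  refine one_div_le_one_div_of_le hpp ?_
  rw [Finset.prod_mul_distrib, Finset.prod_const]
  have h1 : (b : ℝ) ^ S.card ≤ 5 ^ Y := by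
    calc (b : ℝ) ^ S.card ≤ (b : ℝ) ^ Y := pow_le_pow_right₀ (by exact_mod_cast hb) (card_le Y S h hY)
      _ ≤ 5 ^ Y := pow_le_pow_left₀ hb0.le (by exact_mod_cast hb5) Y
  have h2 : (∏ p ∈ S, (p : ℝ)) ≤ 4 ^ Y := by
    have := (Nat.cast_le (α := ℝ)).2 (prod_le Y S h hY)
    push_cast at this
    exact this
  have h3 : (0 : ℝ) ≤ ∏ p ∈ S, (p : ℝ) := Finset.prod_nonneg fun p hp' => (hp p hp').le
  calc (b : ℝ) ^ S.card * ∏ p ∈ S, (p : ℝ) ≤ 5 ^ Y * 4 ^ Y := mul_le_mul h1 h2 h3 (by positivity)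
    _ = (20 : ℝ) ^ Y := by rw [← mul_pow]; norm_num
    _ ≤ 32 ^ Y := pow_le_pow_left₀ (by norm_num) (by norm_num) Y

theorem three_le {S : Finset ℕ} (h : OP S) {p : ℕ} (hp : p ∈ S) : 3 ≤ p := by
  obtain ⟨h1, h2⟩ := h p hp
  have := h1.two_le
  omega

end PP2

theorem p2s : StP2 := by
  refine ⟨Gm 1, PP2.Gm_pos, fun Y S a hS ha hY => ⟨?_, ?_, ?_, ?_⟩⟩
  · unfold UL
    refine mul_le_mul_of_nonneg_left ?_ PP2.Gm_pos.le
    refine (PP2.prod_ge Y S hS hY 5 (by norm_num) le_rfl).trans ?_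
    refine Finset.prod_le_prod (fun p _ => by positivity) fun p hp => ?_
    have := PP2.lam_ge p (PP2.three_le hS hp) (a p) (ha p)
    exact_mod_cast this
  · refine (PP2.prod_ge Y S hS hY 2 (by norm_num) (by norm_num)).trans ?_
    refine Finset.prod_le_prod (fun p _ => by positivity) fun p hp => ?_
    have := PP2.pim_ge p (PP2.three_le hS hp) (a p)
    exact_mod_cast this
  · exact pow_le_pow_right₀ (by norm_num) (PP2.card_le Y S hS hY)
  · have h1 := PP2.prod_le Y S hS hY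
    have h2 : ∏ p ∈ S, p ^ 2 ≤ 16 ^ Y := by
      rw [Finset.prod_pow]
      calc (∏ p ∈ S, p) ^ 2 ≤ (4 ^ Y) ^ 2 := Nat.pow_le_pow_left h1 2
        _ = 16 ^ Y := by rw [← pow_mul, mul_comm, pow_mul]; norm_num
    exact_mod_cast h2

end

end Pool.Agent.K4H95.LQ
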