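import Pool.Agent.K4H95.LQ.Qs

/-!
# The twisted first moment over a family: bound and limit
-/

set_option autoImplicit false

namespace Pool.Agent.K4H95.LQ

open Finset Filter Topology Pool.Agent.H306R2.RG Pool.Agent.H306R2.RZ

noncomputable section

/-- the first moment twisted by the value at `m` -/
def SX (φ : FD) (m X : ℕ) : ℝ := ∑ d ∈ FF φ X, LLg φ d (1 / 2) * jo φ d m

variable {φ : FD}

lemma q_facts : 0 < 1 / √(2:ℝ) ∧ 1 / √(2:ℝ) < 1 ∧ (1 - 1 / √(2:ℝ))⁻¹ ≤ 4 := by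
  have h0 : (0:ℝ) < √2 := by positivity
  have h1 : (4 / 3 : ℝ) ≤ √2 := by
    apply Real.le_sqrt_of_sq_le
    norm_num
  have h2 : 1 / √(2:ℝ) ≤ 3 / 4 := by
    rw [div_le_div_iff₀ h0 (by norm_num)]
    linarith
  refine ⟨by positivity, by linarith, ?_⟩
  rw [inv_le_comm₀ (by linarith) (by norm_num)]
  linarith

lemma eta_q (hφ : Fam φ) : |φ.η / √2| ≤ 1 / √(2:ℝ) := by
  rw [abs_div, abs_of_nonneg (Real.sqrt_nonneg _)]
  have := eta_le hφ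
  gcongr

lemma eta_pow (hφ : Fam φ) (j : ℕ) : |(φ.η / √2) ^ j| ≤ (1 / √(2:ℝ)) ^ j := by
  rw [abs_pow]
  exact pow_le_pow_left₀ (abs_nonneg _) (eta_q hφ) j

lemma geo : HasSum (fun j : ℕ => (1 / √(2:ℝ)) ^ j) (1 - 1 / √(2:ℝ))⁻¹ :=
  hasSum_geometric_of_lt_one q_facts.1.le q_facts.2.1

/-- summability of the double series -/
lemma dbl (hφ : Fam φ) {d : ℕ} (hd : 1 ≤ d) (m : ℕ) :
    Summable fun x : ℕ × ℕ => (φ.η / √2) ^ x.1 * (jo φ d ((x.2 + 1) * m) / √((x.2 : ℝ) + 1) *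
      WW φ (x.1 * Real.log 2) (x.2 + 1) d) := by
  obtain ⟨C, hC, h⟩ := WW_pow hφ
  have h1 : Summable fun n : ℕ => C * (d : ℝ) ^ (15 / 32 : ℝ) * ((n : ℝ) + 1) ^ (-(23 / 16) : ℝ) :=
    (sp (a := -(23 / 16)) (by norm_num)).mul_left _
  have h2 := Summable.mul_of_nonneg geo.summable h1 (fun j => by positivity) (fun n => by positivity)
  refine Summable.of_norm_bounded h2 fun x => ?_
  obtain ⟨j, n⟩ := x
  simp only
  have hn : (0:ℝ) < (n : ℝ) + 1 := by positivity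
  have hj : (0:ℝ) ≤ j * Real.log 2 := by positivity
  have h3 := h (j * Real.log 2) (n + 1) d hj (by omega) hd
  have h4 := WW_nonneg φ (j * Real.log 2) (n + 1) d
  rw [Real.norm_eq_abs, abs_mul, abs_mul, abs_div, abs_of_nonneg h4, abs_of_nonneg (Real.sqrt_nonneg _)]
  have h5 := jo_abs φ d ((n + 1) * m)
  have h6 := eta_pow hφ j
  have h7 : |jo φ d ((n + 1) * m)| / √((n : ℝ) + 1) * WW φ (j * Real.log 2) (n + 1) d ≤
      C * (d : ℝ) ^ (15 / 32 : ℝ) * ((n : ℝ) + 1) ^ (-(23 / 16) : ℝ) := by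
    calc _ ≤ 1 / √((n : ℝ) + 1) * (C * (d : ℝ) ^ (15 / 32 : ℝ) * ((n + 1 : ℕ) : ℝ) ^ (-(15 / 16) : ℝ)) := by gcongr
      _ = C * (d : ℝ) ^ (15 / 32 : ℝ) * (((n : ℝ) + 1) ^ (-(15 / 16) : ℝ) * ((n : ℝ) + 1) ^ (-(1 / 2) : ℝ)) := by
          rw [one_div, Real.sqrt_eq_rpow, ← Real.rpow_neg hn.le]
          push_cast
          ring
      _ = _ := by
          rw [← Real.rpow_add hn]
          norm_num
  exact mul_le_mul h6 h7 (by positivity) (by positivity)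

lemma LL_eq (hφ : Fam φ) {d : ℕ} (hd : 1 ≤ d) (hA : φ.A d) (hs : Squarefree d) (m : ℕ) :
    LLg φ d (1 / 2) * jo φ d m = 2 * ∑' j : ℕ, (φ.η / √2) ^ j *
      ∑' n : ℕ, jo φ d ((n + 1) * m) / √((n : ℝ) + 1) * WW φ (j * Real.log 2) (n + 1) d := by
  have h1 := dbl hφ hd m
  have h2 : ∑' j : ℕ, (φ.η / √2) ^ j *
      ∑' n : ℕ, jo φ d ((n + 1) * m) / √((n : ℝ) + 1) * WW φ (j * Real.log 2) (n + 1) d =
      ∑' (n : ℕ) (j : ℕ), (φ.η / √2) ^ j * (jo φ d ((n + 1) * m) / √((n : ℝ) + 1) * WW φ (j * Real.log 2) (n + 1) d) := by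
    have h3 := Summable.tsum_comm (f := fun (j n : ℕ) => (φ.η / √2) ^ j * (jo φ d ((n + 1) * m) / √((n : ℝ) + 1) *
      WW φ (j * Real.log 2) (n + 1) d)) h1
    rw [h3]
    refine tsum_congr fun j => ?_
    rw [tsum_mul_left]
  rw [h2, afe0 hφ hA hs, mul_assoc, ← tsum_mul_right]
  congr 1
  refine tsum_congr fun n => ?_
  rw [mul_assoc, mul_comm (∑' j : ℕ, _) (jo φ d m), ← mul_assoc, ← tsum_mul_left]
  refine tsum_congr fun j => ?_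
  have e1 : WW φ (j * Real.log 2) (n + 1) d =
      Psi φ (Real.log ((φ.r : ℝ) * d) / 2 - Real.log ((n : ℝ) + 1) - j * Real.log 2) := by
    unfold WW
    push_cast
    congr 1
    ring
  rw [e1, jo_mul]
  ring

lemma in_sum (hφ : Fam φ) {d : ℕ} (hd : 1 ≤ d) (m : ℕ) : Summable fun j : ℕ => (φ.η / √2) ^ j *
      ∑' n : ℕ, jo φ d ((n + 1) * m) / √((n : ℝ) + 1) * WW φ (j * Real.log 2) (n + 1) d := by
  have h1 := (dbl hφ hd m).prod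
  refine h1.congr fun j => ?_
  show ∑' n : ℕ, (φ.η / √2) ^ j * (jo φ d ((n + 1) * m) / √((n : ℝ) + 1) * WW φ (j * Real.log 2) (n + 1) d) = _
  rw [tsum_mul_left]

theorem SX_eq (hφ : Fam φ) (m X : ℕ) : SX φ m X = 2 * ∑' j : ℕ, (φ.η / √2) ^ j * QQ φ (j * Real.log 2) m X := by
  unfold SX QQ
  have h1 : ∀ j : ℕ, (φ.η / √2) ^ j * ∑ d ∈ FF φ X, ∑' n : ℕ, jo φ d ((n + 1) * m) / √((n : ℝ) + 1) *
      WW φ (j * Real.log 2) (n + 1) d = ∑ d ∈ FF φ X, (φ.η / √2) ^ j * ∑' n : ℕ, jo φ d ((n + 1) * m) / √((n : ℝ) + 1) *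
      WW φ (j * Real.log 2) (n + 1) d := fun j => mul_sum _ _ _
  rw [tsum_congr h1, Summable.tsum_finsetSum (fun d hd => in_sum hφ (mem_FF.1 hd).1.1 m), mul_sum]
  refine sum_congr rfl fun d hd => ?_
  obtain ⟨h2, h3, h4⟩ := mem_FF.1 hd
  exact LL_eq hφ h2.1 h3 h4 m

lemma QQ_sum (hφ : Fam φ) (m X : ℕ) : Summable fun j : ℕ => (φ.η / √2) ^ j * QQ φ (j * Real.log 2) m X := by
  refine (summable_sum (s := FF φ X) fun d hd => in_sum hφ (mem_FF.1 hd).1.1 m).congr fun j => ?_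
  unfold QQ
  rw [mul_sum]

/-- the main term of the twisted first moment -/
def MX (φ : FD) (m X : ℕ) : ℝ := 2 * ∑' j : ℕ, (φ.η / √2) ^ j * MM φ (j * Real.log 2) m X

theorem SX_MX (hP : StP) (hφ : Fam φ) : ∃ K : ℝ, 0 ≤ K ∧ ∀ m X : ℕ, 1 ≤ m → 1 ≤ X →
    |SX φ m X - MX φ m X| ≤ K * (m : ℝ) ^ (3 / 8 : ℝ) * ((X : ℝ) ^ (31 / 32 : ℝ) * (1 + Real.log X)) := by
  obtain ⟨K, hK, h⟩ := Q_M hP hφ
  refine ⟨8 * K, by positivity, fun m X hm hX => ?_⟩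
  have hXr : (1:ℝ) ≤ X := by exact_mod_cast hX
  have hlX : 0 ≤ Real.log X := Real.log_nonneg hXr
  set E : ℝ := K * (m : ℝ) ^ (3 / 8 : ℝ) * ((X : ℝ) ^ (31 / 32 : ℝ) * (1 + Real.log X)) with hE
  have hE0 : 0 ≤ E := by positivity
  have hb : ∀ j : ℕ, ‖(φ.η / √2) ^ j * (QQ φ (j * Real.log 2) m X - MM φ (j * Real.log 2) m X)‖ ≤
      E * (1 / √(2:ℝ)) ^ j := by
    intro j
    rw [Real.norm_eq_abs, abs_mul, mul_comm E]
    exact mul_le_mul (eta_pow hφ j) (h _ m X (by positivity) hm hX) (abs_nonneg _) (by positivity)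
  have hd : Summable fun j : ℕ => (φ.η / √2) ^ j * (QQ φ (j * Real.log 2) m X - MM φ (j * Real.log 2) m X) :=
    Summable.of_norm_bounded (geo.summable.mul_left E) hb
  have hM : Summable fun j : ℕ => (φ.η / √2) ^ j * MM φ (j * Real.log 2) m X :=
    ((QQ_sum hφ m X).sub hd).congr fun j => by ring
  unfold MX
  rw [SX_eq hφ, ← mul_sub, ← Summable.tsum_sub (QQ_sum hφ m X) hM, abs_mul, abs_of_pos (by norm_num : (0:ℝ) < 2)]
  have h1 : |∑' j : ℕ, ((φ.η / √2) ^ j * QQ φ (j * Real.log 2) m X - (φ.η / √2) ^ j * MM φ (j * Real.log 2) m X)| ≤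
      E * (1 - 1 / √(2:ℝ))⁻¹ := by
    rw [← Real.norm_eq_abs]
    refine tsum_of_norm_bounded (geo.mul_left E) fun j => ?_
    rw [← mul_sub]
    exact hb j
  have h2 := q_facts.2.2
  have h3 : E * (1 - 1 / √(2:ℝ))⁻¹ ≤ E * 4 := mul_le_mul_of_nonneg_left h2 hE0
  have h4 : 8 * K * (m : ℝ) ^ (3 / 8 : ℝ) * ((X : ℝ) ^ (31 / 32 : ℝ) * (1 + Real.log X)) = 8 * E := by
    rw [hE]; ring
  rw [h4]
  linarith

theorem MX_eq (hB : StB) {m₀ m₁ : ℕ} (h0 : Squarefree m₀) (hm : Odd (m₀ * m₁ ^ 2)) (X : ℕ) :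
    MX φ (m₀ * m₁ ^ 2) X = 2 * (φ.δ * (8 / Real.pi ^ 2)) / √(m₀ : ℝ) * ∑' j : ℕ, (φ.η / √2) ^ j *
      ∑ d ∈ Icc 1 X, Hm (Psi φ) (m₀ * m₁ ^ 2) (Real.log ((φ.r : ℝ) * d) / 2 - Real.log m₀ - j * Real.log 2) := by
  unfold MX
  have key : ∀ j : ℕ, (φ.η / √2) ^ j * MM φ (j * Real.log 2) (m₀ * m₁ ^ 2) X =
      φ.δ * (8 / Real.pi ^ 2) / √(m₀ : ℝ) * ((φ.η / √2) ^ j *
      ∑ d ∈ Icc 1 X, Hm (Psi φ) (m₀ * m₁ ^ 2) (Real.log ((φ.r : ℝ) * d) / 2 - Real.log m₀ - j * Real.log 2)) := by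
    intro j
    rw [MM_eq hB h0 hm]
    have e1 : ∑ d ∈ Icc 1 X, Hm (Psi φ) (m₀ * m₁ ^ 2) (Real.log ((φ.r : ℝ) * d) / 2 - j * Real.log 2 - Real.log m₀) =
        ∑ d ∈ Icc 1 X, Hm (Psi φ) (m₀ * m₁ ^ 2) (Real.log ((φ.r : ℝ) * d) / 2 - Real.log m₀ - j * Real.log 2) := by
      refine sum_congr rfl fun d _ => ?_
      congr 1
      ring
    rw [e1]
    ring
  rw [tsum_congr key, tsum_mul_left]
  ring

/-! ### the decomposition of `m` -/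

lemma cs_eq {m₀ m₁ : ℕ} (h0 : Squarefree m₀) (h1 : m₁ ≠ 0) : cs (m₀ * m₁ ^ 2) = m₀ * m₁ := by
  have hm0 : m₀ ≠ 0 := h0.ne_zero
  have h12 : m₁ ^ 2 ≠ 0 := pow_ne_zero 2 h1
  have e1 : (m₀ * m₁ ^ 2).primeFactors = (m₀ * m₁).primeFactors := by
    rw [Nat.primeFactors_mul hm0 h12, Nat.primeFactors_pow _ (by norm_num), Nat.primeFactors_mul hm0 h1]
  have e2 : (m₀ * m₁ : ℕ) = ∏ p ∈ (m₀ * m₁).primeFactors, p ^ (m₀ * m₁).factorization p :=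
    (Nat.prod_factorization_pow_eq_self (Nat.mul_ne_zero hm0 h1)).symm
  unfold cs
  rw [e1, ← Nat.cast_mul]
  conv_rhs => rw [e2]
  push_cast
  refine prod_congr rfl fun p _ => ?_
  congr 1
  rw [Nat.factorization_mul hm0 h12, Nat.factorization_pow, Nat.factorization_mul hm0 h1]
  simp only [Finsupp.add_apply, Finsupp.smul_apply, smul_eq_mul]
  have h3 : m₀.factorization p ≤ 1 := h0.natFactorization_le_one p
  omega

lemma dec {m : ℕ} (hm : Odd m) : ∃ m₀ m₁ : ℕ, Squarefree m₀ ∧ m = m₀ * m₁ ^ 2 ∧ m₁ ≠ 0 ∧ 1 ≤ m₀ := by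
  obtain ⟨a, b, h1, h2⟩ := Nat.sq_mul_squarefree m
  refine ⟨a, b, h2, by rw [← h1]; ring, ?_, Nat.pos_of_ne_zero h2.ne_zero⟩
  rintro rfl
  rw [← h1] at hm
  simp at hm

/-! ### bound and limit -/

lemma log_two_bd {X : ℕ} (hX : 2 ≤ X) : 0 < Real.log X ∧ 1 + Real.log X ≤ 3 * Real.log X := by
  have h1 : (2:ℝ) ≤ X := by exact_mod_cast hX
  have h2 : Real.log 2 ≤ Real.log X := Real.log_le_log (by norm_num) h1
  have h3 := Real.log_two_gt_d9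
  constructor <;> linarith

theorem SX_bd (hP : StP) (hB : StB) (hC : StC) (hφ : Fam φ) : ∃ K : ℝ, 0 ≤ K ∧ ∀ m X : ℕ, Odd m → 2 ≤ X →
    |SX φ m X| ≤ K * (m : ℝ) ^ (3 / 8 : ℝ) * (X * Real.log X) := by
  obtain ⟨K₁, hK₁, h1⟩ := SX_MX hP hφ
  obtain ⟨-, ⟨C₁, hC₁, hH⟩, -⟩ := hB (Psi φ) (Psi_cut φ)
  obtain ⟨C₂, hC₂, h2⟩ := hC φ.r C₁ (r_one hφ) hC₁
  set D : ℝ := φ.δ * (8 / Real.pi ^ 2) with hD
  have hD0 : 0 ≤ D := by have := delta_nonneg hφ; positivity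
  refine ⟨3 * K₁ + 2 * D * C₂, by positivity, fun m X hm hX => ?_⟩
  obtain ⟨m₀, m₁, h0, hmm, hm1, hm0⟩ := dec hm
  have hX1 : (1:ℝ) ≤ X := by exact_mod_cast (by omega : 1 ≤ X)
  obtain ⟨hl, hl2⟩ := log_two_bd hX
  have hmr : (1:ℝ) ≤ m := by exact_mod_cast hm.pos
  have hm38 : (1:ℝ) ≤ (m:ℝ) ^ (3 / 8 : ℝ) := Real.one_le_rpow hmr (by norm_num)
  have hm0r : (1:ℝ) ≤ m₀ := by exact_mod_cast hm0
  have h3 := h1 m X hm.pos (by omega)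
  have h4 : |MX φ m X| ≤ 2 * D * C₂ * (X * Real.log X) := by
    rw [hmm] at hm ⊢
    rw [MX_eq hB h0 hm, abs_mul, ← hD]
    have h5 := (h2 (Hm (Psi φ) (m₀ * m₁ ^ 2)) φ.η (Real.log m₀) (eta_le hφ) (hH _)).1 (Real.log_nonneg hm0r) X hX
    have h6 : |2 * D / √(m₀ : ℝ)| ≤ 2 * D := by
      rw [abs_of_nonneg (by positivity)]
      exact div_le_self (by positivity) (Real.one_le_sqrt.2 hm0r)
    calc _ ≤ 2 * D * (C₂ * (X * Real.log X)) := mul_le_mul h6 h5 (abs_nonneg _) (by positivity)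
      _ = _ := by ring
  have h7 : K₁ * (m : ℝ) ^ (3 / 8 : ℝ) * ((X : ℝ) ^ (31 / 32 : ℝ) * (1 + Real.log X)) ≤
      3 * K₁ * (m : ℝ) ^ (3 / 8 : ℝ) * (X * Real.log X) := by
    have h8 : (X : ℝ) ^ (31 / 32 : ℝ) ≤ X := by
      have := Real.rpow_le_rpow_of_exponent_le hX1 (by norm_num : (31 / 32 : ℝ) ≤ 1)
      rwa [Real.rpow_one] at this
    calc _ ≤ K₁ * (m : ℝ) ^ (3 / 8 : ℝ) * (X * (3 * Real.log X)) := by gcongr
      _ = _ := by ring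
  have h9 : 2 * D * C₂ * (X * Real.log X) ≤ 2 * D * C₂ * (m : ℝ) ^ (3 / 8 : ℝ) * (X * Real.log X) := by
    have : 2 * D * C₂ * 1 * (X * Real.log X) ≤ 2 * D * C₂ * (m : ℝ) ^ (3 / 8 : ℝ) * (X * Real.log X) := by gcongr
    linarith
  have e1 : SX φ m X = (SX φ m X - MX φ m X) + MX φ m X := by ring
  rw [e1]
  refine (abs_add_le _ _).trans ?_
  have e2 : (3 * K₁ + 2 * D * C₂) * (m : ℝ) ^ (3 / 8 : ℝ) * (X * Real.log X) =
      3 * K₁ * (m : ℝ) ^ (3 / 8 : ℝ) * (X * Real.log X) + 2 * D * C₂ * (m : ℝ) ^ (3 / 8 : ℝ) * (X * Real.log X) := by ring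
  rw [e2]
  linarith

lemma err_lim : Tendsto (fun X : ℕ => ((X : ℝ) ^ (31 / 32 : ℝ) * (1 + Real.log X)) / (X * Real.log X)) atTop (𝓝 0) := by
  have h1 : Tendsto (fun X : ℕ => 3 * (X : ℝ) ^ (-(1 / 32) : ℝ)) atTop (𝓝 (3 * 0)) :=
    ((tendsto_rpow_neg_atTop (by norm_num : (0:ℝ) < 1 / 32)).comp tendsto_natCast_atTop_atTop).const_mul 3
  rw [mul_zero] at h1
  refine squeeze_zero' ?_ ?_ h1
  · filter_upwards [eventually_ge_atTop 2] with X hX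
    have hX1 : (0:ℝ) < X := by exact_mod_cast (by omega : 0 < X)
    obtain ⟨hl, hl2⟩ := log_two_bd hX
    positivity
  · filter_upwards [eventually_ge_atTop 2] with X hX
    have hX1 : (0:ℝ) < X := by exact_mod_cast (by omega : 0 < X)
    obtain ⟨hl, hl2⟩ := log_two_bd hX
    rw [div_le_iff₀ (by positivity)]
    calc (X : ℝ) ^ (31 / 32 : ℝ) * (1 + Real.log X) ≤ (X : ℝ) ^ (31 / 32 : ℝ) * (3 * Real.log X) := by gcongr
      _ = 3 * ((X : ℝ) ^ (-(1 / 32) : ℝ) * X) * Real.log X := by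
        have : (X : ℝ) ^ (-(1 / 32) : ℝ) * X = (X : ℝ) ^ (31 / 32 : ℝ) := by
          conv_lhs => rw [← Real.rpow_one (X:ℝ), ← Real.rpow_mul hX1.le, ← Real.rpow_add hX1]
          norm_num
        rw [this]
        ring
      _ = _ := by ring

theorem SX_lim (hP : StP) (hB : StB) (hC : StC) (hφ : Fam φ) {m : ℕ} (hm : Odd m) :
    Tendsto (fun X : ℕ => SX φ m X / (X * Real.log X)) atTop
      (𝓝 (φ.δ * (8 / Real.pi ^ 2) / (2 * (1 - φ.η / √2)) * (√(m : ℝ) / cs m * Gm m))) := by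
  obtain ⟨K₁, hK₁, h1⟩ := SX_MX hP hφ
  obtain ⟨-, ⟨C₁, hC₁, hH⟩, hlim⟩ := hB (Psi φ) (Psi_cut φ)
  obtain ⟨C₂, hC₂, h2⟩ := hC φ.r C₁ (r_one hφ) hC₁
  set D : ℝ := φ.δ * (8 / Real.pi ^ 2) with hD
  obtain ⟨m₀, m₁, h0, hmm, hm1, hm0⟩ := dec hm
  have hm0r : (0:ℝ) < m₀ := by exact_mod_cast hm0
  have hm1r : (0:ℝ) < m₁ := by exact_mod_cast Nat.pos_of_ne_zero hm1
  have h3 : Tendsto (fun X : ℕ => MX φ m X / (X * Real.log X)) atTop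
      (𝓝 (2 * D / √(m₀ : ℝ) * (Gm m / 2 / (2 * (1 - φ.η / √2))))) := by
    have h4 := ((h2 (Hm (Psi φ) m) φ.η (Real.log m₀) (eta_le hφ) (hH _)).2 (Gm m / 2) (hlim m hm)).const_mul
      (2 * D / √(m₀ : ℝ))
    refine h4.congr fun X => ?_
    have h5 := MX_eq (φ := φ) hB h0 (hmm ▸ hm) X
    rw [← hmm, ← hD] at h5
    rw [h5]
    ring
  have h4 : Tendsto (fun X : ℕ => (SX φ m X - MX φ m X) / (X * Real.log X)) atTop (𝓝 0) := by
    have h5 := err_lim.const_mul (K₁ * (m : ℝ) ^ (3 / 8 : ℝ))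
    rw [mul_zero] at h5
    refine squeeze_zero_norm' ?_ h5
    filter_upwards [eventually_ge_atTop 2] with X hX
    have hX1 : (0:ℝ) < X := by exact_mod_cast (by omega : 0 < X)
    obtain ⟨hl, hl2⟩ := log_two_bd hX
    rw [norm_div, Real.norm_eq_abs, Real.norm_eq_abs, abs_of_pos (by positivity : 0 < (X:ℝ) * Real.log X), ← mul_div_assoc]
    have := h1 m X hm.pos (by omega)
    gcongr
  have h5 := h4.add h3
  rw [zero_add] at h5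
  have e1 : 2 * D / √(m₀ : ℝ) * (Gm m / 2 / (2 * (1 - φ.η / √2))) = D / (2 * (1 - φ.η / √2)) * (√(m : ℝ) / cs m * Gm m) := by
    have e2 : √(m : ℝ) / cs m = 1 / √(m₀ : ℝ) := by
      have e3 : cs m = m₀ * m₁ := by rw [hmm]; exact cs_eq h0 hm1
      have e4 : √(m : ℝ) = √(m₀ : ℝ) * m₁ := by
        rw [hmm]
        push_cast
        rw [Real.sqrt_mul hm0r.le, Real.sqrt_sq hm1r.le]
      have e5 : √(m₀ : ℝ) * √(m₀ : ℝ) = m₀ := Real.mul_self_sqrt hm0r.le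
      have e6 : 0 < √(m₀ : ℝ) := Real.sqrt_pos.2 hm0r
      rw [e3, e4, div_eq_div_iff (by positivity) e6.ne']
      calc √(m₀ : ℝ) * m₁ * √(m₀ : ℝ) = (√(m₀ : ℝ) * √(m₀ : ℝ)) * m₁ := by ring
        _ = _ := by rw [e5]; ring
    rw [e2]
    ring
  rw [e1] at h5
  refine h5.congr fun X => ?_
  ring

end

end Pool.Agent.K4H95.LQ
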