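import Pool.Agent.K4H95.LQ.Spec3
import Pool.Agent.K4H95.LQ.Sx

/-!
# The first moment with prescribed values: the error terms
-/

set_option autoImplicit false

namespace Pool.Agent.K4H95.LQ

open Finset Filter Topology Pool.Agent.H306R2.RG Pool.Agent.H306R2.RZ

noncomputable section

/-- the size of the error caused by the pattern -/
def ES (S : Finset ℕ) : ℝ := 2 ^ S.card * ((∏ p ∈ S, p ^ 2 : ℕ) : ℝ) ^ (3 / 8 : ℝ)

/-- the weighted sum of the characters with the pattern -/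
def TI (φ : FD) (S : Finset ℕ) (a : ℕ → ℝ) (c : ℝ) (n X : ℕ) : ℝ :=
  ∑ d ∈ FF φ X, ind φ S a d * jo φ d n * WW φ c n d

lemma ind_abs (φ : FD) (S : Finset ℕ) (a : ℕ → ℝ) (d : ℕ) : |ind φ S a d| ≤ 1 := by
  unfold ind
  split_ifs <;> simp

theorem TI_bd (h2 : StR2) {φ : FD} (hφ : Fam φ) : ∃ K : ℝ, 0 ≤ K ∧ ∀ (S : Finset ℕ) (a : ℕ → ℝ), OP S → Pat a →
    ∀ (c : ℝ) (n X : ℕ), 0 ≤ c → 1 ≤ n → 1 ≤ X →
    |TI φ S a c n X - φ.δ * (8 / Real.pi ^ 2) * rho S a n * ∑ d ∈ Icc 1 X, WW φ c n d| ≤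
      K * (ES S * (n : ℝ) ^ (3 / 8 : ℝ)) * (√X * (1 + Real.log X)) * WW φ 0 n X := by
  classical
  obtain ⟨K, hK, h⟩ := h2 φ hφ
  refine ⟨2 * K, by positivity, fun S a hS ha c n X hc hn hX => ?_⟩
  have hXr : (1:ℝ) ≤ X := by exact_mod_cast hX
  have hlX : 0 ≤ Real.log X := Real.log_nonneg hXr
  set μ : ℝ := φ.δ * (8 / Real.pi ^ 2) * rho S a n with hμ
  set b : ℕ → ℝ := fun d => (if φ.A d ∧ Squarefree d then ind φ S a d * jo φ d n else 0) - μ with hb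
  have hE1 : 2 ^ S.card * ((n * ∏ p ∈ S, p ^ 2 : ℕ) : ℝ) ^ (3 / 8 : ℝ) = ES S * (n : ℝ) ^ (3 / 8 : ℝ) := by
    unfold ES
    push_cast
    rw [Real.mul_rpow (Nat.cast_nonneg _) (by positivity)]
    ring
  have hES : 0 ≤ ES S := by unfold ES; positivity
  set E : ℝ := K * (ES S * (n : ℝ) ^ (3 / 8 : ℝ)) * (√X * (1 + Real.log X)) with hE
  have hE0 : 0 ≤ E := by positivity
  have hB : ∀ x, 1 ≤ x → x ≤ X → |∑ d ∈ Icc 1 x, b d| ≤ E := by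
    intro x hx hxX
    have h1 := h S a hS ha n x hn hx
    rw [hE1] at h1
    have e1 : ∑ d ∈ Icc 1 x, b d = ∑ d ∈ FF φ x, ind φ S a d * jo φ d n - φ.δ * (8 / Real.pi ^ 2) * rho S a n * x := by
      rw [hb, sum_sub_distrib, sum_const, nsmul_eq_mul, Nat.card_Icc, Nat.add_sub_cancel, ← hμ]
      unfold FF
      rw [sum_filter]
      ring
    rw [e1]
    refine h1.trans ?_
    rw [hE]
    have hxr : (1:ℝ) ≤ x := by exact_mod_cast hx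
    have hxX' : (x:ℝ) ≤ X := by exact_mod_cast hxX
    have h2 : Real.log x ≤ Real.log X := Real.log_le_log (by linarith) hxX'
    have h3 : 0 ≤ Real.log x := Real.log_nonneg hxr
    gcongr
  have h1 := abel_bd hE0 hB (WW_mono hφ c n) (WW_nonneg φ c n) hX
  have e2 : TI φ S a c n X - μ * ∑ d ∈ Icc 1 X, WW φ c n d = ∑ d ∈ Icc 1 X, b d * WW φ c n d := by
    unfold TI FF
    rw [sum_filter, mul_sum, ← sum_sub_distrib]
    refine sum_congr rfl fun d _ => ?_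
    rw [hb]
    simp only
    split_ifs <;> ring
  rw [e2]
  refine h1.trans ?_
  have h2 : WW φ c n X ≤ WW φ 0 n X := by
    apply Psi_mono
    linarith
  calc 2 * E * WW φ c n X ≤ 2 * E * WW φ 0 n X := by gcongr
    _ = _ := by rw [hE]; ring

/-- the sum over the family, one shift -/
def QI (φ : FD) (S : Finset ℕ) (a : ℕ → ℝ) (c : ℝ) (X : ℕ) : ℝ :=
  ∑ d ∈ FF φ X, ind φ S a d * ∑' n : ℕ, jo φ d (n + 1) / √((n : ℝ) + 1) * WW φ c (n + 1) d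

variable {φ : FD}

lemma jW_sum1 (hφ : Fam φ) {c : ℝ} (hc : 0 ≤ c) {d : ℕ} (hd : 1 ≤ d) :
    Summable fun n : ℕ => jo φ d (n + 1) / √((n : ℝ) + 1) * WW φ c (n + 1) d := by
  have h := jW_sum hφ hc hd 1
  simpa only [mul_one] using h

lemma iW_sum (hφ : Fam φ) (S : Finset ℕ) (a : ℕ → ℝ) {c : ℝ} (hc : 0 ≤ c) {d : ℕ} (hd : 1 ≤ d) :
    Summable fun n : ℕ => ind φ S a d * jo φ d (n + 1) * WW φ c (n + 1) d / √((n : ℝ) + 1) := by
  refine ((jW_sum1 hφ hc hd).mul_left (ind φ S a d)).congr fun n => ?_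
  ring

lemma QI_eq (hφ : Fam φ) (S : Finset ℕ) (a : ℕ → ℝ) {c : ℝ} (hc : 0 ≤ c) (X : ℕ) :
    QI φ S a c X = ∑' n : ℕ, TI φ S a c (n + 1) X / √((n : ℝ) + 1) := by
  have h1 : ∀ n : ℕ, TI φ S a c (n + 1) X / √((n : ℝ) + 1) =
      ∑ d ∈ FF φ X, ind φ S a d * jo φ d (n + 1) * WW φ c (n + 1) d / √((n : ℝ) + 1) := fun n => by
    unfold TI
    rw [sum_div]
  rw [tsum_congr h1, Summable.tsum_finsetSum (fun d hd => iW_sum hφ S a hc (mem_FF.1 hd).1.1)]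
  unfold QI
  refine sum_congr rfl fun d _ => ?_
  rw [← tsum_mul_left]
  exact tsum_congr fun n => by ring

lemma TI_sum (hφ : Fam φ) (S : Finset ℕ) (a : ℕ → ℝ) {c : ℝ} (hc : 0 ≤ c) (X : ℕ) :
    Summable fun n : ℕ => TI φ S a c (n + 1) X / √((n : ℝ) + 1) := by
  refine (summable_sum (s := FF φ X) fun d hd => iW_sum hφ S a hc (mem_FF.1 hd).1.1).congr fun n => ?_
  unfold TI
  rw [sum_div]

/-- the main term -/
def MI (φ : FD) (S : Finset ℕ) (a : ℕ → ℝ) (c : ℝ) (X : ℕ) : ℝ :=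
  φ.δ * (8 / Real.pi ^ 2) * ∑ d ∈ Icc 1 X, CS (Psi φ) S a (Real.log ((φ.r : ℝ) * d) / 2 - c)

lemma CW (φ : FD) (c : ℝ) (n d : ℕ) : WW φ c (n + 1) d = Psi φ (Real.log ((φ.r : ℝ) * d) / 2 - c - Real.log ((n : ℝ) + 1)) := by
  unfold WW
  push_cast
  rfl

lemma MI_eq (h3 : StI3) {S : Finset ℕ} {a : ℕ → ℝ} (hS : OP S) (ha : Pat a) (c : ℝ) (X : ℕ) :
    (Summable fun n : ℕ => φ.δ * (8 / Real.pi ^ 2) * rho S a (n + 1) * (∑ d ∈ Icc 1 X, WW φ c (n + 1) d) / √((n : ℝ) + 1)) ∧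
    MI φ S a c X = ∑' n : ℕ, φ.δ * (8 / Real.pi ^ 2) * rho S a (n + 1) * (∑ d ∈ Icc 1 X, WW φ c (n + 1) d) / √((n : ℝ) + 1) := by
  have hs := (h3 (Psi φ) (Psi_cut φ) S a hS ha).1
  have e1 : ∀ n : ℕ, φ.δ * (8 / Real.pi ^ 2) * rho S a (n + 1) * (∑ d ∈ Icc 1 X, WW φ c (n + 1) d) / √((n : ℝ) + 1) =
      ∑ d ∈ Icc 1 X, φ.δ * (8 / Real.pi ^ 2) * (rho S a (n + 1) / √((n : ℝ) + 1) *
        Psi φ (Real.log ((φ.r : ℝ) * d) / 2 - c - Real.log ((n : ℝ) + 1))) := by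
    intro n
    rw [← mul_sum, ← mul_sum]
    have e2 : ∑ d ∈ Icc 1 X, WW φ c (n + 1) d = ∑ d ∈ Icc 1 X, Psi φ (Real.log ((φ.r : ℝ) * d) / 2 - c - Real.log ((n : ℝ) + 1)) :=
      sum_congr rfl fun d _ => CW φ c n d
    rw [e2]
    ring
  constructor
  · exact (summable_sum (s := Icc 1 X) fun d _ => (hs _).mul_left _).congr fun n => (e1 n).symm
  · rw [tsum_congr e1, Summable.tsum_finsetSum (fun d _ => (hs _).mul_left _)]
    unfold MI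
    rw [mul_sum]
    refine sum_congr rfl fun d _ => ?_
    rw [tsum_mul_left]
    rfl

theorem QI_MI (h2 : StR2) (h3 : StI3) (hφ : Fam φ) : ∃ K : ℝ, 0 ≤ K ∧ ∀ (S : Finset ℕ) (a : ℕ → ℝ), OP S → Pat a →
    ∀ (c : ℝ) (X : ℕ), 0 ≤ c → 1 ≤ X →
    |QI φ S a c X - MI φ S a c X| ≤ K * ES S * ((X : ℝ) ^ (31 / 32 : ℝ) * (1 + Real.log X)) := by
  obtain ⟨K, hK, h⟩ := TI_bd h2 hφ
  obtain ⟨C, hC, hW⟩ := WW_pow hφ
  have hs := sp (a := -(17 / 16)) (by norm_num)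
  set T : ℝ := ∑' n : ℕ, ((n : ℝ) + 1) ^ (-(17 / 16) : ℝ) with hT
  have hT0 : 0 ≤ T := tsum_nonneg fun n => by positivity
  refine ⟨K * C * T, by positivity, fun S a hS ha c X hc hX => ?_⟩
  have hES : 0 ≤ ES S := by unfold ES; positivity
  have hXr : (1:ℝ) ≤ X := by exact_mod_cast hX
  have hX0 : (0:ℝ) < X := by linarith
  have hlX : 0 ≤ Real.log X := Real.log_nonneg hXr
  obtain ⟨hm1, hm2⟩ := MI_eq (φ := φ) h3 hS ha c X
  rw [QI_eq hφ S a hc, hm2, ← Summable.tsum_sub (TI_sum hφ S a hc X) hm1, ← Real.norm_eq_abs]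
  set D : ℝ := K * C * ES S * ((X : ℝ) ^ (31 / 32 : ℝ) * (1 + Real.log X)) with hD
  have h1 : HasSum (fun n : ℕ => D * ((n : ℝ) + 1) ^ (-(17 / 16) : ℝ)) (D * T) := hs.hasSum.mul_left D
  have h2' : D * T = K * C * T * ES S * ((X : ℝ) ^ (31 / 32 : ℝ) * (1 + Real.log X)) := by
    rw [hD]
    ring
  rw [← h2']
  refine tsum_of_norm_bounded h1 fun n => ?_
  have hn : (0:ℝ) < (n : ℝ) + 1 := by positivity
  have h3 := h S a hS ha c (n + 1) X hc (by omega) hX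
  have h4 := hW 0 (n + 1) X le_rfl (by omega) hX
  rw [← sub_div, norm_div, Real.norm_eq_abs, Real.norm_eq_abs, abs_of_nonneg (Real.sqrt_nonneg _)]
  push_cast at h3 h4
  have h5 : |TI φ S a c (n + 1) X - φ.δ * (8 / Real.pi ^ 2) * rho S a (n + 1) * ∑ d ∈ Icc 1 X, WW φ c (n + 1) d| ≤
      K * (ES S * ((n : ℝ) + 1) ^ (3 / 8 : ℝ)) * (√X * (1 + Real.log X)) *
        (C * (X : ℝ) ^ (15 / 32 : ℝ) * ((n : ℝ) + 1) ^ (-(15 / 16) : ℝ)) := by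
    refine h3.trans ?_
    gcongr
  rw [div_eq_mul_inv, Real.sqrt_eq_rpow ((n : ℝ) + 1), ← Real.rpow_neg hn.le]
  calc _ ≤ K * (ES S * ((n : ℝ) + 1) ^ (3 / 8 : ℝ)) * (√X * (1 + Real.log X)) *
        (C * (X : ℝ) ^ (15 / 32 : ℝ) * ((n : ℝ) + 1) ^ (-(15 / 16) : ℝ)) * ((n : ℝ) + 1) ^ (-(1 / 2) : ℝ) := by gcongr
    _ = K * C * ES S * ((√X * (X : ℝ) ^ (15 / 32 : ℝ)) * (1 + Real.log X)) *
        (((n : ℝ) + 1) ^ (3 / 8 : ℝ) * ((n : ℝ) + 1) ^ (-(15 / 16) : ℝ) * ((n : ℝ) + 1) ^ (-(1 / 2) : ℝ)) := by ring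
    _ = _ := by
      rw [Real.sqrt_eq_rpow, ← Real.rpow_add hX0, ← Real.rpow_add hn, ← Real.rpow_add hn, hD]
      norm_num

/-- the first moment with prescribed values -/
def SI (φ : FD) (S : Finset ℕ) (a : ℕ → ℝ) (X : ℕ) : ℝ := ∑ d ∈ FF φ X, ind φ S a d * LLg φ d (1 / 2)

lemma LL_eq1 (hφ : Fam φ) {d : ℕ} (hd : 1 ≤ d) (hA : φ.A d) (hs : Squarefree d) :
    LLg φ d (1 / 2) = 2 * ∑' j : ℕ, (φ.η / √2) ^ j *
      ∑' n : ℕ, jo φ d (n + 1) / √((n : ℝ) + 1) * WW φ (j * Real.log 2) (n + 1) d := by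
  have h := LL_eq hφ hd hA hs 1
  simpa only [mul_one, jo_one] using h

lemma in_sum1 (hφ : Fam φ) {d : ℕ} (hd : 1 ≤ d) : Summable fun j : ℕ => (φ.η / √2) ^ j *
      ∑' n : ℕ, jo φ d (n + 1) / √((n : ℝ) + 1) * WW φ (j * Real.log 2) (n + 1) d := by
  have h := in_sum hφ hd 1
  simpa only [mul_one] using h

theorem SI_eq (hφ : Fam φ) (S : Finset ℕ) (a : ℕ → ℝ) (X : ℕ) :
    SI φ S a X = 2 * ∑' j : ℕ, (φ.η / √2) ^ j * QI φ S a (j * Real.log 2) X := by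
  unfold SI QI
  have h1 : ∀ j : ℕ, (φ.η / √2) ^ j * ∑ d ∈ FF φ X, ind φ S a d * ∑' n : ℕ, jo φ d (n + 1) / √((n : ℝ) + 1) *
      WW φ (j * Real.log 2) (n + 1) d = ∑ d ∈ FF φ X, ind φ S a d * ((φ.η / √2) ^ j * ∑' n : ℕ, jo φ d (n + 1) /
      √((n : ℝ) + 1) * WW φ (j * Real.log 2) (n + 1) d) := fun j => by
    rw [mul_sum]
    exact sum_congr rfl fun d _ => by ring
  rw [tsum_congr h1, Summable.tsum_finsetSum (fun d hd => (in_sum1 hφ (mem_FF.1 hd).1.1).mul_left _), mul_sum]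
  refine sum_congr rfl fun d hd => ?_
  obtain ⟨h2, h3, h4⟩ := mem_FF.1 hd
  rw [LL_eq1 hφ h2.1 h3 h4, tsum_mul_left]
  ring

lemma QI_sum (hφ : Fam φ) (S : Finset ℕ) (a : ℕ → ℝ) (X : ℕ) :
    Summable fun j : ℕ => (φ.η / √2) ^ j * QI φ S a (j * Real.log 2) X := by
  refine (summable_sum (s := FF φ X) fun d hd => (in_sum1 hφ (mem_FF.1 hd).1.1).mul_left (ind φ S a d)).congr fun j => ?_
  unfold QI
  rw [mul_sum]
  exact sum_congr rfl fun d _ => by ring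

/-- **the error terms** -/
theorem SI_MI (h2 : StR2) (h3 : StI3) (hφ : Fam φ) : ∃ K : ℝ, 0 ≤ K ∧ ∀ (S : Finset ℕ) (a : ℕ → ℝ), OP S → Pat a →
    ∀ X : ℕ, 1 ≤ X →
    |SI φ S a X - 2 * (φ.δ * (8 / Real.pi ^ 2)) * ∑' j : ℕ, (φ.η / √2) ^ j *
      ∑ d ∈ Icc 1 X, CS (Psi φ) S a (Real.log ((φ.r : ℝ) * d) / 2 - j * Real.log 2)| ≤
      K * ES S * ((X : ℝ) ^ (31 / 32 : ℝ) * (1 + Real.log X)) := by
  obtain ⟨K, hK, h⟩ := QI_MI h2 h3 hφ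
  refine ⟨8 * K, by positivity, fun S a hS ha X hX => ?_⟩
  have hES : 0 ≤ ES S := by unfold ES; positivity
  have hXr : (1:ℝ) ≤ X := by exact_mod_cast hX
  have hlX : 0 ≤ Real.log X := Real.log_nonneg hXr
  set E : ℝ := K * ES S * ((X : ℝ) ^ (31 / 32 : ℝ) * (1 + Real.log X)) with hE
  have hE0 : 0 ≤ E := by positivity
  have hb : ∀ j : ℕ, ‖(φ.η / √2) ^ j * (QI φ S a (j * Real.log 2) X - MI φ S a (j * Real.log 2) X)‖ ≤
      E * (1 / √(2:ℝ)) ^ j := by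
    intro j
    rw [Real.norm_eq_abs, abs_mul, mul_comm E]
    exact mul_le_mul (eta_pow hφ j) (h S a hS ha _ X (by positivity) hX) (abs_nonneg _) (by positivity)
  have hd : Summable fun j : ℕ => (φ.η / √2) ^ j * (QI φ S a (j * Real.log 2) X - MI φ S a (j * Real.log 2) X) :=
    Summable.of_norm_bounded (geo.summable.mul_left E) hb
  have hM : Summable fun j : ℕ => (φ.η / √2) ^ j * MI φ S a (j * Real.log 2) X :=
    ((QI_sum hφ S a X).sub hd).congr fun j => by ring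
  have e0 : 2 * (φ.δ * (8 / Real.pi ^ 2)) * ∑' j : ℕ, (φ.η / √2) ^ j *
      ∑ d ∈ Icc 1 X, CS (Psi φ) S a (Real.log ((φ.r : ℝ) * d) / 2 - j * Real.log 2) =
      2 * ∑' j : ℕ, (φ.η / √2) ^ j * MI φ S a (j * Real.log 2) X := by
    rw [mul_assoc, ← tsum_mul_left]
    congr 1
    refine tsum_congr fun j => ?_
    unfold MI
    ring
  rw [e0, SI_eq hφ, ← mul_sub, ← Summable.tsum_sub (QI_sum hφ S a X) hM, abs_mul, abs_of_pos (by norm_num : (0:ℝ) < 2)]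
  have h1 : |∑' j : ℕ, ((φ.η / √2) ^ j * QI φ S a (j * Real.log 2) X - (φ.η / √2) ^ j * MI φ S a (j * Real.log 2) X)| ≤
      E * (1 - 1 / √(2:ℝ))⁻¹ := by
    rw [← Real.norm_eq_abs]
    refine tsum_of_norm_bounded (geo.mul_left E) fun j => ?_
    rw [← mul_sub]
    exact hb j
  have h2 := q_facts.2.2
  have h3 : E * (1 - 1 / √(2:ℝ))⁻¹ ≤ E * 4 := mul_le_mul_of_nonneg_left h2 hE0
  have h4 : 8 * K * ES S * ((X : ℝ) ^ (31 / 32 : ℝ) * (1 + Real.log X)) = 8 * E := by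
    rw [hE]; ring
  rw [h4]
  linarith

end

end Pool.Agent.K4H95.LQ
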