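import Pool.Agent.K4H95.LQ.Qs

/-!
# Definitions and statements: the first moment with prescribed values at all primes up to `Y`, uniformly
-/

set_option autoImplicit false

namespace Pool.Agent.K4H95.LQ

open Filter Topology Pool.Agent.H306R2.RG Pool.Agent.H306R2.RZ

noncomputable section

/-- the density of the value `x` at `p` -/
def pim (p : ℕ) (x : ℝ) : ℝ := if x = 0 then 1 / ((p : ℝ) + 1) else (p : ℝ) / (2 * ((p : ℝ) + 1))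

/-- a pattern of values -/
def Pat (a : ℕ → ℝ) : Prop := ∀ p, a p = 0 ∨ a p = 1 ∨ a p = -1

/-- a finite set of odd primes -/
def OP (S : Finset ℕ) : Prop := ∀ p ∈ S, p.Prime ∧ p ≠ 2

open Classical in
/-- the mean value of `jo φ d N` over the `d` with `jo φ d p = a p` for `p ∈ S` (times the density of these) -/
def rho (S : Finset ℕ) (a : ℕ → ℝ) (N : ℕ) : ℝ :=
  if Odd N ∧ ∀ p, p.Prime → p ∉ S → Even (N.factorization p) then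
    (∏ p ∈ S, pim p (a p) * a p ^ (N.factorization p)) * ∏ p ∈ N.primeFactors \ S, (p : ℝ) / ((p : ℝ) + 1)
  else 0

open Classical in
/-- the indicator of the pattern -/
def ind (φ : FD) (S : Finset ℕ) (a : ℕ → ℝ) (d : ℕ) : ℝ := if ∀ p ∈ S, jo φ d p = a p then 1 else 0

/-- R1: `rho` is determined by a recursion. Local check at `p`, `v = v_p(N)`: `(1/2)(p/(p+1))` for `v` even and `a (1/2)(p/(p+1))`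
for `v` odd; if `a p = 0`: `1 - p/(p+1) = 1/(p+1)` for `v = 0`, `0` for `v > 0`. -/
def StR1 : Prop := ∀ (S : Finset ℕ) (a : ℕ → ℝ), OP S → Pat a → ∀ N : ℕ, N ≠ 0 →
  (rho ∅ a N = if Odd N ∧ IsSquare N then gg N else 0) ∧
  ∀ p : ℕ, p.Prime → p ≠ 2 → p ∉ S →
    (a p ≠ 0 → rho (insert p S) a N = 1 / 2 * (rho S a (p ^ 2 * N) + a p * rho S a (p * N))) ∧
    (a p = 0 → rho (insert p S) a N = rho S a N - rho S a (p ^ 2 * N))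

/-- R2. Proof: induction on `S` from `fam_sum` (Fs.lean) with `StR1`, using for `x = jo φ d p ∈ {0, 1, -1}`:
`1_{x = a} = (x² + a x)/2` if `a = ±1`, `1_{x = 0} = 1 - x²`, and `jo_mul` (Qs.lean). -/
def StR2 : Prop := ∀ φ : FD, Fam φ → ∃ K : ℝ, 0 ≤ K ∧ ∀ (S : Finset ℕ) (a : ℕ → ℝ), OP S → Pat a →
  ∀ m x : ℕ, 1 ≤ m → 1 ≤ x →
    |∑ d ∈ FF φ x, ind φ S a d * jo φ d m - φ.δ * (8 / Real.pi ^ 2) * rho S a m * x| ≤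
      K * (2 ^ S.card * ((m * ∏ p ∈ S, p ^ 2 : ℕ) : ℝ) ^ (3 / 8 : ℝ)) * (√x * (1 + Real.log x))

/-- `Σ_k Ψ(z - 2 log k) / k` -/
def La (Ψ : ℝ → ℝ) (z : ℝ) : ℝ := ∑' k : ℕ, Ψ (z - 2 * Real.log ((k : ℝ) + 1)) / ((k : ℝ) + 1)

/-- I1. Proof for `z ≥ 0` (for `z ≤ 0` both sides are trivial): `b_k = Ψ(z - 2 log k)` decreases; with
`H_k = Σ_{j ≤ k} 1/j = log k + γ + ε_k`, `|ε_k| ≤ 1/k`, the sum is `Σ H_k (b_k - b_{k+1})`;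
`Σ (b_k - b_{k+1}) k^{-1/2} ≤ C Σ_{k ≥ 2} (1 - b_k) k^{-3/2} ≤ C e^{-z/8} Σ k^{-5/4}` as
`1 - b_k ≤ min(1, C e^{-z/4} k^{1/2}) ≤ C e^{-z/8} k^{1/4}`; and `Σ_{k ≥ 2} b_k log(k/(k-1))` is compared with
`∫_1^∞ Ψ(z - 2 log t) dt/t = (1/2) ∫_{-∞}^z Ψ = z/2 + c + (1/2) ∫_z^∞ (1 - Ψ)`. -/
def StI1 : Prop := ∀ Ψ : ℝ → ℝ, Cut Ψ → (∃ C : ℝ, ∀ z, 1 - Ψ z ≤ C * Real.exp (-z / 4)) →
  ∃ c₀ C : ℝ, 0 ≤ C ∧ ∀ z, |La Ψ z - (z / 2 + c₀)| ≤ C * Real.exp (-z / 8)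

/-- I1b. Proof: `1 - ro t ≤ exp ((1 - t)/4)` and `∫ e^{-πv} v^{ex - 1/8} dv < ∞` (`int_gam`; definitions and similar proofs
in Psi.lean, e.g. `Psi_decay`). -/
def StI1b : Prop := ∀ φ : FD, ∃ C : ℝ, ∀ z, 1 - Psi φ z ≤ C * Real.exp (-z / 4)

/-- I2. Proof: `gg k 1_{k odd} = Σ_{a ∣ k} h a` (see `B.lean`, namespace `PB`), so `Hm Ψ 1 z = Σ_a h a / a * La Ψ (z - 2 log a)`;
`Σ |h a| a^{-1} a^{1/4} < ∞`, `Σ h a / a = Gm 1`. -/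
def StI2 : Prop := ∀ Ψ : ℝ → ℝ, Cut Ψ →
  (∃ c₀ C : ℝ, 0 ≤ C ∧ ∀ z, |La Ψ z - (z / 2 + c₀)| ≤ C * Real.exp (-z / 8)) →
  ∃ V₀ E₀ : ℝ, 0 ≤ E₀ ∧ ∀ z, |Hm Ψ 1 z - (Gm 1 * (z / 2) + V₀)| ≤ E₀ * Real.exp (-z / 8)

/-- `Σ_n rho S a n n^{-1/2} Ψ(z - log n)` -/
def CS (Ψ : ℝ → ℝ) (S : Finset ℕ) (a : ℕ → ℝ) (z : ℝ) : ℝ :=
  ∑' n : ℕ, rho S a (n + 1) / √((n : ℝ) + 1) * Ψ (z - Real.log ((n : ℝ) + 1))

/-- I3. Proof of the last part: coefficients: `c_{S ∪ p}(n) - [p² ∣ n] c_{S ∪ p}(n/p²) / (p(p+1)) =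
pim (c_S(n) + [p ∣ n] a p^{-1/2} c_S(n/p))`, `c_S(n) = rho S a n / √n` (if `a p = 0`: `pim (c_S(n) - [p² ∣ n] c_S(n/p²)/p)`),
checked on `v_p(n)`; `Σ_n [q ∣ n] c(n/q) Ψ(z - log n) = Σ_n c(n) Ψ(z - log q - log n)`. -/
def StI3 : Prop := ∀ Ψ : ℝ → ℝ, Cut Ψ → ∀ (S : Finset ℕ) (a : ℕ → ℝ), OP S → Pat a →
  (∀ z, Summable fun n : ℕ => rho S a (n + 1) / √((n : ℝ) + 1) * Ψ (z - Real.log ((n : ℝ) + 1))) ∧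
  (∃ B : ℝ, ∀ z, |CS Ψ S a z| ≤ B * Real.exp z) ∧
  (∀ z, CS Ψ ∅ a z = Hm Ψ 1 z) ∧
  ∀ p : ℕ, p.Prime → p ≠ 2 → p ∉ S → ∀ z,
    CS Ψ (insert p S) a z - 1 / ((p : ℝ) * ((p : ℝ) + 1)) * CS Ψ (insert p S) a (z - 2 * Real.log p) =
      pim p (a p) * (if a p = 0 then CS Ψ S a z - 1 / (p : ℝ) * CS Ψ S a (z - 2 * Real.log p)
        else CS Ψ S a z + a p / √(p : ℝ) * CS Ψ S a (z - Real.log p))

/-- the local factor -/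
def lam (p : ℕ) (x : ℝ) : ℝ :=
  pim p x * (1 - 1 / (p : ℝ)) / (1 - x / √(p : ℝ)) / (1 - 1 / ((p : ℝ) * ((p : ℝ) + 1)))

/-- I4. Proof: with `y = 1/(p(p+1))`, `F z = Σ_j y^j R(z - 2 j log p)`, `R` the right side (`y^J F(z - 2 J log p) → 0`);
insert the asymptotics of `G`. -/
def StI4 : Prop := ∀ (p : ℕ) (x : ℝ), p.Prime → p ≠ 2 → (x = 0 ∨ x = 1 ∨ x = -1) → ∀ (F G : ℝ → ℝ) (U V E B : ℝ), 0 ≤ E →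
  (∀ z, |F z| ≤ B * Real.exp z) →
  (∀ z, F z - 1 / ((p : ℝ) * ((p : ℝ) + 1)) * F (z - 2 * Real.log p) =
      pim p x * (if x = 0 then G z - 1 / (p : ℝ) * G (z - 2 * Real.log p) else G z + x / √(p : ℝ) * G (z - Real.log p))) →
  (∀ z, |G z - (U * (z / 2) + V)| ≤ E * Real.exp (-z / 8)) →
  ∃ V' : ℝ, |V' - lam p x * V| ≤ 3 * lam p x * |U| * (Real.log p / √(p : ℝ)) ∧
    ∀ z, |F z - (lam p x * U * (z / 2) + V')| ≤ 2 * E * Real.exp (-z / 8)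

/-- I6. Elementary: `Σ_{d ≤ X} log (r d) = X log X + O(X)`, `Σ_{d ≤ X} d^{-1/16} ≤ 2 X^{15/16}`, sums over `j` geometric. -/
def StI6 : Prop := ∀ r : ℝ, 1 ≤ r → ∃ K : ℝ, 0 ≤ K ∧ ∀ (F : ℝ → ℝ) (U V E η : ℝ), |η| ≤ 1 → 0 ≤ E →
  (∀ z, |F z - (U * (z / 2) + V)| ≤ E * Real.exp (-z / 8)) → ∀ X : ℕ, 2 ≤ X →
    (∀ d ∈ Finset.Icc 1 X, Summable fun j : ℕ => (η / √2) ^ j * F (Real.log (r * d) / 2 - j * Real.log 2)) ∧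
    |∑' j : ℕ, (η / √2) ^ j * ∑ d ∈ Finset.Icc 1 X, F (Real.log (r * d) / 2 - j * Real.log 2) -
      U / (4 * (1 - η / √2)) * (X * Real.log X)| ≤ K * (X * (|U| + |V|) + E * (X : ℝ) ^ (15 / 16 : ℝ))

/-- P1. Chebyshev and partial summation (`Chebyshev.theta_le_log4_mul_x` or `primorial_le_four_pow`). -/
def StP1 : Prop := ∃ C : ℝ, 0 ≤ C ∧ ∀ (Y : ℕ) (S : Finset ℕ), (∀ p ∈ S, p.Prime ∧ p ≤ Y) →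
  ∑ p ∈ S, Real.log p / √(p : ℝ) ≤ C * √(Y : ℝ)

/-- the leading coefficient -/
def UL (S : Finset ℕ) (a : ℕ → ℝ) : ℝ := Gm 1 * ∏ p ∈ S, lam p (a p)

/-- P2. Proof: `pim ≥ 1/(p+1) ≥ 1/(2p)`, `∏_{p ≤ Y} p ≤ 4^Y`, `(1 - 1/p)/(1 - x/√p) ≥ 1 - 1/√p ≥ 2/5`; `Gm 1 > 0`
(`Gm_hasProd`-type statements in A2.lean). -/
def StP2 : Prop := ∃ c : ℝ, 0 < c ∧ ∀ (Y : ℕ) (S : Finset ℕ) (a : ℕ → ℝ), OP S → Pat a → (∀ p ∈ S, p ≤ Y) →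
  c * (1 / 32) ^ Y ≤ UL S a ∧ (1 / 32) ^ Y ≤ ∏ p ∈ S, pim p (a p) ∧ (2 : ℝ) ^ S.card ≤ 2 ^ Y ∧
  ((∏ p ∈ S, p ^ 2 : ℕ) : ℝ) ≤ 16 ^ Y

end

end Pool.Agent.K4H95.LQ
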