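import Pool.Agent.K4H95.LQ.B
import Pool.Agent.K4H95.LQ.Spec3

/-!
# The logarithmic mean of `1 / k` with a cut-off, with an error term
-/

set_option autoImplicit false

namespace Pool.Agent.K4H95.LQ

open Filter Topology

noncomputable section

namespace I1

open PB

variable {Ψ : ℝ → ℝ}

theorem dec8 (h : Cut Ψ) (hC : ∃ C : ℝ, ∀ z, 1 - Ψ z ≤ C * Real.exp (-z / 4)) :
    ∃ A : ℝ, 0 ≤ A ∧ ∀ z, 1 - Ψ z ≤ A * Real.exp (-z / 8) := by
  obtain ⟨C, hC⟩ := hC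
  refine ⟨√(max C 0), Real.sqrt_nonneg _, fun z => ?_⟩
  have h0 : 0 ≤ 1 - Ψ z := sub_nonneg.2 (h.le z)
  have h1 : 1 - Ψ z ≤ 1 := by have := h.nonneg z; linarith
  have h2 : (1 - Ψ z) ^ 2 ≤ (√(max C 0) * Real.exp (-z / 8)) ^ 2 := by
    rw [mul_pow, Real.sq_sqrt (le_max_right _ _), ← Real.exp_nat_mul]
    have h3 : ((2 : ℕ) : ℝ) * (-z / 8) = -z / 4 := by push_cast; ring
    rw [h3]
    have h4 : (1 - Ψ z) ^ 2 ≤ 1 - Ψ z := by nlinarith
    have h5 : C * Real.exp (-z / 4) ≤ max C 0 * Real.exp (-z / 4) :=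
      mul_le_mul_of_nonneg_right (le_max_left _ _) (Real.exp_pos _).le
    linarith [hC z]
  exact (sq_le_sq₀ h0 (mul_nonneg (Real.sqrt_nonneg _) (Real.exp_pos _).le)).1 h2

theorem int1 (h : Cut Ψ) {A : ℝ} (hA : ∀ z, 1 - Ψ z ≤ A * Real.exp (-z / 8)) (v : ℝ) :
    MeasureTheory.IntegrableOn (fun t => 1 - Ψ t) (Set.Ioi v) := by
  have h1 : MeasureTheory.IntegrableOn (fun t : ℝ => A * Real.exp ((-1 / 8) * t)) (Set.Ioi v) :=
    (integrableOn_exp_mul_Ioi (by norm_num : (-1 / 8 : ℝ) < 0) v).const_mul A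
  refine MeasureTheory.Integrable.mono' h1
    (h.mono.measurable.const_sub 1).aestronglyMeasurable ?_
  filter_upwards with t
  rw [Real.norm_of_nonneg (sub_nonneg.2 (h.le t))]
  refine (hA t).trans (le_of_eq ?_)
  congr 2
  ring

/-- the integral of the cut-off, with error term -/
theorem PP_asymp (h : Cut Ψ) {A : ℝ} (hA : ∀ z, 1 - Ψ z ≤ A * Real.exp (-z / 8)) :
    ∃ c : ℝ, ∀ z, |PP Ψ z - (z + c)| ≤ 8 * A * Real.exp (-z / 8) := by
  let R : ℝ → ℝ := fun v => ∫ t in Set.Ioi v, (1 - Ψ t)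
  have hR0 : ∀ v, 0 ≤ R v := fun v =>
    MeasureTheory.setIntegral_nonneg measurableSet_Ioi fun t _ => sub_nonneg.2 (h.le t)
  have hR1 : ∀ v, R v ≤ 8 * A * Real.exp (-v / 8) := by
    intro v
    have h1 : MeasureTheory.IntegrableOn (fun t : ℝ => A * Real.exp ((-1 / 8) * t)) (Set.Ioi v) :=
      (integrableOn_exp_mul_Ioi (by norm_num : (-1 / 8 : ℝ) < 0) v).const_mul A
    have h2 := MeasureTheory.setIntegral_mono_on (int1 h hA v) h1 measurableSet_Ioi fun t _ => by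
      refine (hA t).trans (le_of_eq ?_)
      congr 2
      ring
    rw [MeasureTheory.integral_const_mul,
      integral_exp_mul_Ioi (by norm_num : (-1 / 8 : ℝ) < 0)] at h2
    refine h2.trans (le_of_eq ?_)
    have : (-1 / 8 : ℝ) * v = -v / 8 := by ring
    rw [this]
    ring
  have key : ∀ w v, w ≤ v → PP Ψ v - v - R v = PP Ψ w - w - R w := by
    intro w v hwv
    have h1 : PP Ψ v - PP Ψ w = ∫ t in w..v, Ψ t :=
      intervalIntegral.integral_Iic_sub_Iic (h.intB w) (h.intB v)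
    have h2 : R w - R v = ∫ t in w..v, (1 - Ψ t) :=
      intervalIntegral.integral_Ioi_sub_Ioi (int1 h hA w) hwv
    have hi : IntervalIntegrable Ψ MeasureTheory.volume w v := h.mono.intervalIntegrable
    rw [intervalIntegral.integral_sub intervalIntegrable_const hi,
      intervalIntegral.integral_const, smul_eq_mul, mul_one] at h2
    linarith
  refine ⟨PP Ψ 0 - R 0, fun z => ?_⟩
  have h1 : PP Ψ z - z - R z = PP Ψ 0 - 0 - R 0 := by
    rcases le_total 0 z with hz | hz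
    · exact key 0 z hz
    · exact (key z 0 hz).symm
  have h2 : PP Ψ z - (z + (PP Ψ 0 - R 0)) = R z := by linarith
  rw [h2, abs_of_nonneg (hR0 z)]
  exact hR1 z

/-- `log ((k + 2) / (k + 1))` -/
def Lk (k : ℕ) : ℝ := Real.log ((k : ℝ) + 2) - Real.log ((k : ℝ) + 1)

theorem Lk_le (k : ℕ) : Lk k ≤ 1 / ((k : ℝ) + 1) := by
  have hk : (0 : ℝ) < k + 1 := by positivity
  have hk' : (0 : ℝ) < k + 2 := by positivity
  unfold Lk
  rw [← Real.log_div hk'.ne' hk.ne']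
  refine (Real.log_le_sub_one_of_pos (div_pos hk' hk)).trans (le_of_eq ?_)
  field_simp
  ring

theorem le_Lk (k : ℕ) : 1 / ((k : ℝ) + 2) ≤ Lk k := by
  have hk : (0 : ℝ) < k + 1 := by positivity
  have hk' : (0 : ℝ) < k + 2 := by positivity
  have h1 : Real.log ((k : ℝ) + 1) - Real.log ((k : ℝ) + 2) ≤ - (1 / ((k : ℝ) + 2)) := by
    rw [← Real.log_div hk.ne' hk'.ne']
    refine (Real.log_le_sub_one_of_pos (div_pos hk hk')).trans (le_of_eq ?_)
    field_simp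
    ring
  unfold Lk
  linarith

theorem Lk_nonneg (k : ℕ) : 0 ≤ Lk k := le_trans (by positivity) (le_Lk k)

/-- `1 / (k + 1) - log ((k + 2) / (k + 1))` -/
def gk (k : ℕ) : ℝ := 1 / ((k : ℝ) + 1) - Lk k

theorem gk_nonneg (k : ℕ) : 0 ≤ gk k := sub_nonneg.2 (Lk_le k)

theorem gk_le (k : ℕ) : gk k ≤ 1 / (((k : ℝ) + 1) * ((k : ℝ) + 2)) := by
  have h1 := le_Lk k
  have h2 : 1 / (((k : ℝ) + 1) * ((k : ℝ) + 2)) = 1 / ((k : ℝ) + 1) - 1 / ((k : ℝ) + 2) := by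
    field_simp
    ring
  unfold gk
  linarith

/-- `(k + 2)^{1/4} / ((k + 1) (k + 2))` -/
def sk (k : ℕ) : ℝ := Real.exp (Real.log ((k : ℝ) + 2) / 4) / (((k : ℝ) + 1) * ((k : ℝ) + 2))

theorem sk_nonneg (k : ℕ) : 0 ≤ sk k := by unfold sk; positivity

theorem one_le_sk (k : ℕ) : 1 / (((k : ℝ) + 1) * ((k : ℝ) + 2)) ≤ sk k := by
  unfold sk
  refine div_le_div_of_nonneg_right ?_ (by positivity)
  rw [Real.one_le_exp_iff]
  have : 0 ≤ Real.log ((k : ℝ) + 2) := Real.log_nonneg (by linarith [(Nat.cast_nonneg k : (0 : ℝ) ≤ k)])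
  positivity

theorem sk_summable : Summable sk := by
  have h1 : Summable fun k : ℕ => ((k : ℝ) + 1) ^ (-(7 / 4) : ℝ) := by
    have h2 : Summable fun k : ℕ => (k : ℝ) ^ (-(7 / 4) : ℝ) :=
      Real.summable_nat_rpow.2 (by norm_num)
    have h3 := (summable_nat_add_iff 1).2 h2
    refine h3.congr fun k => ?_
    push_cast
    rfl
  refine Summable.of_nonneg_of_le sk_nonneg (fun k => ?_) h1
  have hk : (0 : ℝ) < k + 1 := by positivity
  have hk' : (0 : ℝ) < k + 2 := by positivity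
  have h2 : Real.exp (Real.log ((k : ℝ) + 2) / 4) / ((k : ℝ) + 2) = ((k : ℝ) + 2) ^ (-(3 / 4) : ℝ) := by
    rw [Real.rpow_def_of_pos hk', div_eq_iff hk'.ne']
    conv_rhs => rw [← Real.exp_log hk', Real.log_exp, ← Real.exp_add]
    congr 1
    ring
  have h3 : ((k : ℝ) + 2) ^ (-(3 / 4) : ℝ) ≤ ((k : ℝ) + 1) ^ (-(3 / 4) : ℝ) :=
    Real.rpow_le_rpow_of_nonpos hk (by linarith) (by norm_num)
  have h4 : ((k : ℝ) + 1) ^ (-(7 / 4) : ℝ) = ((k : ℝ) + 1) ^ (-(3 / 4) : ℝ) / ((k : ℝ) + 1) := by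
    rw [← Real.rpow_sub_one hk.ne']
    norm_num
  have h5 : sk k = Real.exp (Real.log ((k : ℝ) + 2) / 4) / ((k : ℝ) + 2) / ((k : ℝ) + 1) := by
    unfold sk
    field_simp
  rw [h5, h2, h4]
  exact div_le_div_of_nonneg_right h3 hk.le

theorem gk_summable : Summable gk :=
  Summable.of_nonneg_of_le gk_nonneg (fun k => (gk_le k).trans (one_le_sk k)) sk_summable

/-- `1 - Ψ(z - 2 log (k + 1))` -/
def be (Ψ : ℝ → ℝ) (z : ℝ) (k : ℕ) : ℝ := 1 - Ψ (z - 2 * Real.log ((k : ℝ) + 1))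

/-- the error term of index `k` -/
def rk (Ψ : ℝ → ℝ) (z : ℝ) (k : ℕ) : ℝ :=
  be Ψ z k / (((k : ℝ) + 1) * ((k : ℝ) + 2)) + (be Ψ z (k + 1) - be Ψ z k) / ((k : ℝ) + 1)

theorem be_nonneg (h : Cut Ψ) (z : ℝ) (k : ℕ) : 0 ≤ be Ψ z k := sub_nonneg.2 (h.le _)

theorem be_mono (h : Cut Ψ) (z : ℝ) (k : ℕ) : be Ψ z k ≤ be Ψ z (k + 1) := by
  unfold be
  have h1 : Real.log ((k : ℝ) + 1) ≤ Real.log (((k + 1 : ℕ) : ℝ) + 1) :=
    Real.log_le_log (by positivity) (by push_cast; linarith)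
  have := h.mono (a := z - 2 * Real.log (((k + 1 : ℕ) : ℝ) + 1)) (b := z - 2 * Real.log ((k : ℝ) + 1))
    (by linarith)
  linarith

theorem rk_nonneg (h : Cut Ψ) (z : ℝ) (k : ℕ) : 0 ≤ rk Ψ z k :=
  add_nonneg (div_nonneg (be_nonneg h z k) (by positivity))
    (div_nonneg (sub_nonneg.2 (be_mono h z k)) (by positivity))

theorem be_le {A : ℝ} (hA : ∀ z, 1 - Ψ z ≤ A * Real.exp (-z / 8)) (z : ℝ)
    (k : ℕ) : be Ψ z k ≤ A * Real.exp (-z / 8) * Real.exp (Real.log ((k : ℝ) + 1) / 4) := by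
  refine (hA _).trans (le_of_eq ?_)
  rw [mul_assoc, ← Real.exp_add]
  congr 2
  ring

theorem rk_sum (h : Cut Ψ) {A : ℝ} (hA0 : 0 ≤ A) (hA : ∀ z, 1 - Ψ z ≤ A * Real.exp (-z / 8)) (z : ℝ)
    (N : ℕ) : ∑ k ∈ Finset.range N, rk Ψ z k ≤ A * Real.exp (-z / 8) * (1 + 2 * ∑' k, sk k) := by
  have h1 : ∀ N : ℕ, ∑ k ∈ Finset.range N, rk Ψ z k ≤
      be Ψ z N / ((N : ℝ) + 1) + 2 * (A * Real.exp (-z / 8)) * ∑ k ∈ Finset.range N, sk k := by
    intro N
    induction N with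
    | zero =>
      simp only [Finset.range_zero, Finset.sum_empty, mul_zero, add_zero]
      exact div_nonneg (be_nonneg h z 0) (by positivity)
    | succ N ih =>
      rw [Finset.sum_range_succ, Finset.sum_range_succ]
      have hk : (0 : ℝ) < (N : ℝ) + 1 := by positivity
      have hk' : (0 : ℝ) < (N : ℝ) + 2 := by positivity
      have e1 : rk Ψ z N = be Ψ z (N + 1) / ((N : ℝ) + 2) - be Ψ z N / ((N : ℝ) + 1) +
          (be Ψ z N + be Ψ z (N + 1)) / (((N : ℝ) + 1) * ((N : ℝ) + 2)) := by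
        unfold rk
        field_simp
        ring
      have e2 : (be Ψ z N + be Ψ z (N + 1)) / (((N : ℝ) + 1) * ((N : ℝ) + 2)) ≤
          2 * (A * Real.exp (-z / 8)) * sk N := by
        have e3 : be Ψ z N + be Ψ z (N + 1) ≤ 2 * (A * Real.exp (-z / 8)) *
            Real.exp (Real.log ((N : ℝ) + 2) / 4) := by
          have e4 := be_le hA z (N + 1)
          have e5 := be_mono h z N
          have e6 : (((N + 1 : ℕ) : ℝ) + 1) = (N : ℝ) + 2 := by push_cast; ring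
          rw [e6] at e4
          linarith
        unfold sk
        rw [← mul_div_assoc]
        exact div_le_div_of_nonneg_right e3 (by positivity)
      have e6 : (((N + 1 : ℕ) : ℝ) + 1) = (N : ℝ) + 2 := by push_cast; ring
      rw [e6, e1]
      linarith
  refine (h1 N).trans ?_
  have hE : 0 ≤ A * Real.exp (-z / 8) := mul_nonneg hA0 (Real.exp_pos _).le
  have h2 : be Ψ z N / ((N : ℝ) + 1) ≤ A * Real.exp (-z / 8) := by
    rw [div_le_iff₀ (by positivity)]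
    refine (be_le hA z N).trans (mul_le_mul_of_nonneg_left ?_ hE)
    have hN : (0 : ℝ) < (N : ℝ) + 1 := by positivity
    have h3 : 0 ≤ Real.log ((N : ℝ) + 1) := Real.log_nonneg (by linarith [(Nat.cast_nonneg N : (0 : ℝ) ≤ N)])
    calc Real.exp (Real.log ((N : ℝ) + 1) / 4) ≤ Real.exp (Real.log ((N : ℝ) + 1)) :=
          Real.exp_le_exp.2 (by linarith)
      _ = (N : ℝ) + 1 := Real.exp_log hN
  have h3 : ∑ k ∈ Finset.range N, sk k ≤ ∑' k, sk k :=
    sk_summable.sum_le_tsum _ fun k _ => sk_nonneg k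
  nlinarith [mul_le_mul_of_nonneg_left h3 hE]

/-- the integral part -/
def Ik (Ψ : ℝ → ℝ) (z : ℝ) (k : ℕ) : ℝ :=
  (PP Ψ (z - 2 * Real.log ((k : ℝ) + 1)) - PP Ψ (z - 2 * Real.log (((k + 1 : ℕ) : ℝ) + 1))) / 2

theorem Ik_nonneg (h : Cut Ψ) (z : ℝ) (k : ℕ) : 0 ≤ Ik Ψ z k := by
  have h1 : Real.log ((k : ℝ) + 1) ≤ Real.log (((k + 1 : ℕ) : ℝ) + 1) :=
    Real.log_le_log (by positivity) (by push_cast; linarith)
  have := PP_mono h (a := z - 2 * Real.log (((k + 1 : ℕ) : ℝ) + 1))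
    (b := z - 2 * Real.log ((k : ℝ) + 1)) (by linarith)
  unfold Ik
  linarith

theorem Ik_hasSum (h : Cut Ψ) (z : ℝ) : HasSum (Ik Ψ z) (PP Ψ z / 2) := by
  rw [hasSum_iff_tendsto_nat_of_nonneg (Ik_nonneg h z)]
  have h1 : ∀ N : ℕ, ∑ k ∈ Finset.range N, Ik Ψ z k =
      (PP Ψ z - PP Ψ (z - 2 * Real.log ((N : ℝ) + 1))) / 2 := by
    intro N
    unfold Ik
    rw [← Finset.sum_div, Finset.sum_range_sub' (fun k : ℕ => PP Ψ (z - 2 * Real.log ((k : ℝ) + 1)))]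
    simp
  simp only [h1]
  have h2 : Tendsto (fun N : ℕ => (PP Ψ z - PP Ψ (z - 2 * Real.log ((N : ℝ) + 1))) / 2) atTop
      (𝓝 ((PP Ψ z - 0) / 2)) := by
    refine Tendsto.div_const (Tendsto.const_sub _ ((PP_bot h).comp ?_)) 2
    have h3 : Tendsto (fun K : ℕ => 2 * Real.log ((K : ℝ) + 1)) atTop atTop := by
      refine Tendsto.const_mul_atTop (by norm_num) (Real.tendsto_log_atTop.comp ?_)
      exact tendsto_atTop_add_const_right _ _ tendsto_natCast_atTop_atTop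
    have h4 := tendsto_atBot_add_const_left atTop z (tendsto_neg_atTop_atBot.comp h3)
    refine h4.congr fun K => ?_
    simp [sub_eq_add_neg]
  rwa [sub_zero] at h2

/-- the difference of the sum and the integral -/
def ek (Ψ : ℝ → ℝ) (z : ℝ) (k : ℕ) : ℝ :=
  Ψ (z - 2 * Real.log ((k : ℝ) + 1)) / ((k : ℝ) + 1) - Ik Ψ z k

theorem ek_le (h : Cut Ψ) (z : ℝ) (k : ℕ) : |ek Ψ z k - gk k| ≤ rk Ψ z k := by
  have hk : (0 : ℝ) < (k : ℝ) + 1 := by positivity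
  have e6 : (((k + 1 : ℕ) : ℝ) + 1) = (k : ℝ) + 2 := by push_cast; ring
  have h1 : z - 2 * Real.log ((k : ℝ) + 2) ≤ z - 2 * Real.log ((k : ℝ) + 1) := by
    have : Real.log ((k : ℝ) + 1) ≤ Real.log ((k : ℝ) + 2) :=
      Real.log_le_log hk (by linarith)
    linarith
  obtain ⟨h2, h3⟩ := h.subB h1
  have h4 : z - 2 * Real.log ((k : ℝ) + 1) - (z - 2 * Real.log ((k : ℝ) + 2)) = 2 * Lk k := by
    unfold Lk; ring
  rw [h4] at h2 h3
  have hI : Ik Ψ z k = (PP Ψ (z - 2 * Real.log ((k : ℝ) + 1)) -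
      PP Ψ (z - 2 * Real.log ((k : ℝ) + 2))) / 2 := by
    unfold Ik; rw [e6]
  have hb : be Ψ z k = 1 - Ψ (z - 2 * Real.log ((k : ℝ) + 1)) := rfl
  have hb' : be Ψ z (k + 1) = 1 - Ψ (z - 2 * Real.log ((k : ℝ) + 2)) := by
    unfold be; rw [e6]
  have hbn := be_nonneg h z k
  have hbm := be_mono h z k
  have hg0 := gk_nonneg k
  have hg1 := gk_le k
  have hL0 := Lk_nonneg k
  have hL1 := Lk_le k
  have hek : ek Ψ z k - gk k = (Lk k * (1 - be Ψ z k) - Ik Ψ z k) - be Ψ z k * gk k := by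
    unfold ek gk
    rw [hb]
    ring
  have h5 : 0 ≤ Lk k * (1 - be Ψ z k) - Ik Ψ z k := by
    rw [hI, hb]; linarith
  have h6 : Lk k * (1 - be Ψ z k) - Ik Ψ z k ≤ (be Ψ z (k + 1) - be Ψ z k) / ((k : ℝ) + 1) := by
    have h7 : Lk k * (1 - be Ψ z k) - Ik Ψ z k ≤ (be Ψ z (k + 1) - be Ψ z k) * Lk k := by
      rw [hI, hb, hb']; linarith
    have h8 : (be Ψ z (k + 1) - be Ψ z k) * Lk k ≤ (be Ψ z (k + 1) - be Ψ z k) * (1 / ((k : ℝ) + 1)) :=
      mul_le_mul_of_nonneg_left hL1 (sub_nonneg.2 hbm)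
    rw [mul_one_div] at h8
    exact h7.trans h8
  have h9 : be Ψ z k * gk k ≤ be Ψ z k / (((k : ℝ) + 1) * ((k : ℝ) + 2)) := by
    have := mul_le_mul_of_nonneg_left hg1 hbn
    rwa [mul_one_div] at this
  have h10 : 0 ≤ be Ψ z k * gk k := mul_nonneg hbn hg0
  have h11 : 0 ≤ be Ψ z k / (((k : ℝ) + 1) * ((k : ℝ) + 2)) := div_nonneg hbn (by positivity)
  have h12 : 0 ≤ (be Ψ z (k + 1) - be Ψ z k) / ((k : ℝ) + 1) :=
    div_nonneg (sub_nonneg.2 hbm) (by positivity)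
  rw [hek, abs_le]
  unfold rk
  constructor <;> linarith

end I1

open I1 PB in
theorem i1 : StI1 := by
  intro Ψ h hC
  obtain ⟨A, hA0, hA⟩ := dec8 h hC
  obtain ⟨c, hc⟩ := PP_asymp h hA
  set S : ℝ := ∑' k, sk k with hS
  have hS0 : 0 ≤ S := tsum_nonneg sk_nonneg
  refine ⟨(∑' k, gk k) + c / 2, A * (1 + 2 * S) + 4 * A, by positivity, fun z => ?_⟩
  have hrs : Summable (rk Ψ z) := summable_of_sum_range_le (rk_nonneg h z) (rk_sum h hA0 hA z)
  have hr : ∑' k, rk Ψ z k ≤ A * Real.exp (-z / 8) * (1 + 2 * S) :=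
    Real.tsum_le_of_sum_range_le (rk_nonneg h z) (rk_sum h hA0 hA z)
  have hd : Summable fun k => ek Ψ z k - gk k :=
    Summable.of_norm_bounded hrs fun k => by
      rw [Real.norm_eq_abs]; exact ek_le h z k
  have hdn : |∑' k, (ek Ψ z k - gk k)| ≤ ∑' k, rk Ψ z k := by
    have h1 := tsum_of_norm_bounded hrs.hasSum (f := fun k => ek Ψ z k - gk k) fun k => by
      rw [Real.norm_eq_abs]; exact ek_le h z k
    rwa [Real.norm_eq_abs] at h1
  have hLa : La Ψ z = PP Ψ z / 2 + ((∑' k, (ek Ψ z k - gk k)) + ∑' k, gk k) := by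
    have h1 := (Ik_hasSum h z).add (hd.hasSum.add gk_summable.hasSum)
    unfold La
    refine HasSum.tsum_eq (h1.congr_fun ?_)
    intro k
    unfold ek
    ring
  have h2 : La Ψ z - (z / 2 + ((∑' k, gk k) + c / 2)) =
      (PP Ψ z - (z + c)) / 2 + ∑' k, (ek Ψ z k - gk k) := by
    rw [hLa]; ring
  rw [h2]
  refine (abs_add_le _ _).trans ?_
  rw [abs_div, abs_of_pos (by norm_num : (0 : ℝ) < 2)]
  have h3 := hc z
  have h4 := hdn.trans hr
  nlinarith [Real.exp_pos (-z / 8)]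

end

end Pool.Agent.K4H95.LQ
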