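import Pool.Agent.H423R2.RGL.CGF

/-!
# The approximate functional equation at the central point
-/

set_option autoImplicit false

namespace Pool.Agent.K4H95.LQ

open Filter Topology MeasureTheory
open Pool.Agent.H306R2.RZ Pool.Agent.H306R2.RG

noncomputable section

/-- the smooth step -/
def ro (t : ℝ) : ℝ := Real.smoothTransition ((t + 1) / 2)

lemma ro_mono : Monotone ro := fun a b h => Real.smoothTransition.monotone (by linarith)

lemma ro_nonneg (t : ℝ) : 0 ≤ ro t := Real.smoothTransition.nonneg _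

lemma ro_le (t : ℝ) : ro t ≤ 1 := Real.smoothTransition.le_one _

lemma ro_cont : Continuous ro := Real.smoothTransition.continuous.comp (by fun_prop)

lemma ro_zero {t : ℝ} (h : t ≤ -1) : ro t = 0 := Real.smoothTransition.zero_of_nonpos (by linarith)

lemma ro_one {t : ℝ} (h : 1 ≤ t) : ro t = 1 := Real.smoothTransition.one_of_one_le (by linarith)

lemma ro_RH : RH 1 ro where
  smooth := by
    have h : ContDiff ℝ ((⊤ : ℕ∞) : WithTop ℕ∞) (fun t : ℝ => (t + 1) / 2) := by fun_prop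
    exact Real.smoothTransition.contDiff.comp h
  zero := fun t h => ro_zero h
  sym := by
    intro t
    unfold ro Real.smoothTransition
    have e1 : 1 - (t + 1) / 2 = (-t + 1) / 2 := by ring
    have e2 : 1 - (-t + 1) / 2 = (t + 1) / 2 := by ring
    rw [e1, e2, add_comm (expNegInvGlue ((-t + 1) / 2)), ← add_div, div_self]
    have := Real.smoothTransition.pos_denom ((t + 1) / 2)
    rw [e1] at this
    exact this.ne'
  nonneg := ro_nonneg
  le_one := ro_le

variable (φ : FD)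

/-- the exponent is larger than `-1` -/
lemma ex_gt : -1 < φ.ex := by
  unfold FD.ex
  have : (0:ℝ) ≤ (φ.a : ℝ) := Nat.cast_nonneg _
  linarith

lemma int_gam {s : ℝ} (hs : -1 < s) : IntegrableOn (fun v : ℝ => Real.exp (-(Real.pi * v)) * v ^ s) (Set.Ioi 0) ∧
    0 < ∫ v in Set.Ioi (0 : ℝ), Real.exp (-(Real.pi * v)) * v ^ s := by
  have h1 : IntegrableOn (fun v : ℝ => v ^ s * Real.exp (-Real.pi * v)) (Set.Ioi 0) := by
    have := integrableOn_rpow_mul_exp_neg_mul_rpow (p := 1) hs one_pos Real.pi_pos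
    simpa using this
  have e1 : (fun v : ℝ => Real.exp (-(Real.pi * v)) * v ^ s) = fun v : ℝ => v ^ s * Real.exp (-Real.pi * v) := by
    funext v
    rw [mul_comm, neg_mul]
  refine ⟨by rw [e1]; exact h1, ?_⟩
  rw [e1]
  have h2 : ∫ v in Set.Ioi (0:ℝ), v ^ s * Real.exp (-Real.pi * v) =
      ∫ v in Set.Ioi (0:ℝ), v ^ ((s + 1) - 1) * Real.exp (-(Real.pi * v)) := by
    refine setIntegral_congr_fun measurableSet_Ioi fun v _ => ?_
    simp only [add_sub_cancel_right, neg_mul]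
  rw [h2, Real.integral_rpow_mul_exp_neg_mul_Ioi (by linarith) Real.pi_pos]
  have := Real.Gamma_pos_of_pos (show 0 < s + 1 by linarith)
  have := Real.pi_pos
  positivity

lemma g0_pos : 0 < g0g φ := (int_gam (ex_gt φ)).2

/-- the weight of the approximate functional equation, as a function of `log (√(conductor) / n)` -/
def Psi (z : ℝ) : ℝ :=
  (∫ v in Set.Ioi (0 : ℝ), Real.exp (-(Real.pi * v)) * v ^ φ.ex * ro (z + Real.log v / 2)) / g0g φ

lemma int_psi (z : ℝ) : IntegrableOn (fun v : ℝ => Real.exp (-(Real.pi * v)) * v ^ φ.ex * ro (z + Real.log v / 2))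
    (Set.Ioi 0) := by
  refine Integrable.mul_bdd (c := 1) (int_gam (ex_gt φ)).1 ?_ (Eventually.of_forall fun v => ?_)
  · exact ro_cont.comp_aestronglyMeasurable ((Real.measurable_log.div_const 2).const_add z).aestronglyMeasurable
  · rw [Real.norm_eq_abs, abs_of_nonneg (ro_nonneg _)]
    exact ro_le _

lemma w_nonneg {v : ℝ} (hv : 0 < v) : 0 ≤ Real.exp (-(Real.pi * v)) * v ^ φ.ex := by positivity

lemma Psi_nonneg (z : ℝ) : 0 ≤ Psi φ z := by
  unfold Psi
  refine div_nonneg (setIntegral_nonneg measurableSet_Ioi fun v hv => ?_) (g0_pos φ).le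
  exact mul_nonneg (w_nonneg φ hv) (ro_nonneg _)

lemma Psi_le (z : ℝ) : Psi φ z ≤ 1 := by
  unfold Psi
  rw [div_le_one (g0_pos φ)]
  refine setIntegral_mono_on (int_psi φ z) (int_gam (ex_gt φ)).1 measurableSet_Ioi fun v hv => ?_
  exact mul_le_of_le_one_right (w_nonneg φ hv) (ro_le _)

lemma Psi_mono : Monotone (Psi φ) := by
  intro a b h
  unfold Psi
  refine div_le_div_of_nonneg_right ?_ (g0_pos φ).le
  refine setIntegral_mono_on (int_psi φ a) (int_psi φ b) measurableSet_Ioi fun v hv => ?_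
  exact mul_le_mul_of_nonneg_left (ro_mono (by linarith)) (w_nonneg φ hv)

/-- decay -/
lemma Psi_decay : ∃ C : ℝ, 0 < C ∧ ∀ z : ℝ, Psi φ z ≤ C * Real.exp (2 * z) := by
  have h1 := int_gam (s := φ.ex + 1) (by linarith [ex_gt φ])
  refine ⟨Real.exp 2 * (∫ v in Set.Ioi (0 : ℝ), Real.exp (-(Real.pi * v)) * v ^ (φ.ex + 1)) / g0g φ,
    div_pos (mul_pos (Real.exp_pos _) h1.2) (g0_pos φ), fun z => ?_⟩
  unfold Psi
  rw [div_mul_eq_mul_div]
  refine div_le_div_of_nonneg_right ?_ (g0_pos φ).le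
  have e1 : Real.exp 2 * (∫ v in Set.Ioi (0 : ℝ), Real.exp (-(Real.pi * v)) * v ^ (φ.ex + 1)) * Real.exp (2 * z) =
      ∫ v in Set.Ioi (0 : ℝ), Real.exp (2 * (1 + z)) * (Real.exp (-(Real.pi * v)) * v ^ (φ.ex + 1)) := by
    rw [integral_const_mul, show 2 * (1 + z) = 2 + 2 * z by ring, Real.exp_add]
    ring
  rw [e1]
  refine setIntegral_mono_on (int_psi φ z) (h1.1.const_mul _) measurableSet_Ioi fun v hv => ?_
  have hv0 : (0:ℝ) < v := hv
  have h3 : Real.exp (2 * (1 + z)) * (Real.exp (-(Real.pi * v)) * v ^ (φ.ex + 1)) =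
      Real.exp (-(Real.pi * v)) * v ^ φ.ex * (Real.exp (2 * (1 + z)) * v) := by
    rw [Real.rpow_add_one hv0.ne']
    ring
  rw [h3]
  refine mul_le_mul_of_nonneg_left ?_ (w_nonneg φ hv0)
  by_cases h : z + Real.log v / 2 ≤ -1
  · rw [ro_zero h]
    positivity
  · refine (ro_le _).trans ?_
    push Not at h
    have h4 : 0 ≤ 2 * (1 + z) + Real.log v := by linarith
    calc (1:ℝ) = Real.exp 0 := Real.exp_zero.symm
      _ ≤ Real.exp (2 * (1 + z) + Real.log v) := Real.exp_le_exp.2 h4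
      _ = _ := by rw [Real.exp_add, Real.exp_log hv0]

/-- the limit at infinity -/
lemma Psi_lim : Tendsto (Psi φ) atTop (𝓝 1) := by
  have h1 : Tendsto (fun z : ℝ => ∫ v in Set.Ioi (0 : ℝ), Real.exp (-(Real.pi * v)) * v ^ φ.ex * ro (z + Real.log v / 2))
      atTop (𝓝 (∫ v in Set.Ioi (0 : ℝ), Real.exp (-(Real.pi * v)) * v ^ φ.ex * 1)) := by
    refine tendsto_integral_filter_of_dominated_convergence (fun v : ℝ => Real.exp (-(Real.pi * v)) * v ^ φ.ex)
      (Eventually.of_forall fun z => (int_psi φ z).aestronglyMeasurable) (Eventually.of_forall fun z => ?_)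
      (int_gam (ex_gt φ)).1 ?_
    · filter_upwards [ae_restrict_mem measurableSet_Ioi] with v hv
      rw [norm_mul, Real.norm_of_nonneg (w_nonneg φ hv), Real.norm_of_nonneg (ro_nonneg _)]
      exact mul_le_of_le_one_right (w_nonneg φ hv) (ro_le _)
    · filter_upwards with v
      refine Tendsto.const_mul _ ?_
      refine tendsto_const_nhds.congr' ?_
      filter_upwards [eventually_ge_atTop (1 - Real.log v / 2)] with z hz
      rw [ro_one (by linarith)]
  have h2 := h1.div_const (g0g φ)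
  simp only [mul_one] at h2
  have e1 : (∫ v in Set.Ioi (0 : ℝ), Real.exp (-(Real.pi * v)) * v ^ φ.ex) / g0g φ = 1 := div_self (g0_pos φ).ne'
  rw [e1] at h2
  exact h2

/-- **the approximate functional equation** -/
theorem afe0 {φ : FD} (hφ : Fam φ) {d : ℕ} (hd : φ.A d) (hs : Squarefree d) :
    LLg φ d (1 / 2) = 2 * ∑' n : ℕ, jo φ d (n + 1) / Real.sqrt ((n : ℝ) + 1) *
      ∑' j : ℕ, (φ.η / Real.sqrt 2) ^ j *
        Psi φ (Real.log ((φ.r : ℝ) * d) / 2 - Real.log ((n : ℝ) + 1) - j * Real.log 2) := by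
  have hC := LnkC.CGF φ hφ
  have h1 := hC.afe d hd hs 1 one_pos ro ro_RH 1 one_pos 0 le_rfl
  have hd0 : 0 < d := hC.dpos d hd
  have hd0' : (0:ℝ) < d := by exact_mod_cast hd0
  have hr : 0 < φ.r := by
    obtain ⟨ε, hε, h | h | h | h⟩ := hφ <;> rw [h] <;> simp [F8, F4, F1]
  have hr' : (0:ℝ) < φ.r := by exact_mod_cast hr
  have hg := g0_pos φ
  have e1 : Kdg φ 1 d 0 = 1 := by
    unfold Kdg
    have e2 : gm (1 / 2 + (φ.a : ℝ) + 0 / 1) = g0g φ := by
      unfold gm g0g
      have e3 : ∫ v in Set.Ioi (0:ℝ), Real.exp (-(Real.pi * v)) * v ^ φ.ex =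
          ∫ v in Set.Ioi (0:ℝ), v ^ ((φ.ex + 1) - 1) * Real.exp (-(Real.pi * v)) := by
        refine setIntegral_congr_fun measurableSet_Ioi fun v _ => ?_
        simp only [add_sub_cancel_right]
        ring
      rw [e3, Real.integral_rpow_mul_exp_neg_mul_Ioi (by linarith [ex_gt φ]) Real.pi_pos]
      have e4 : φ.ex + 1 = (1 / 2 + (φ.a : ℝ)) / 2 := by
        unfold FD.ex
        ring
      rw [e4]
      have e5 : (1 / 2 + (φ.a : ℝ) + 0 / 1) / 2 = (1 / 2 + (φ.a : ℝ)) / 2 := by ring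
      have e6 : (1 / Real.pi) ^ ((1 / 2 + (φ.a : ℝ)) / 2) = Real.pi ^ (-((1 / 2 + (φ.a : ℝ)) / 2)) := by
        rw [one_div Real.pi, Real.inv_rpow Real.pi_pos.le, Real.rpow_neg Real.pi_pos.le]
      rw [e5, e6]
    rw [e2]
    simp [hg.ne']
  rw [e1, one_mul, zero_div, add_zero] at h1
  rw [← h1]
  unfold Nfg
  rw [← tsum_mul_left]
  refine tsum_congr fun n => ?_
  have e6 : KGg φ 1 (beg φ 1 d) (Ph ro 0) (Real.log ((n : ℝ) + 1) / 1) = 2 * ∑' j : ℕ, (φ.η / Real.sqrt 2) ^ j *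
        Psi φ (Real.log ((φ.r : ℝ) * d) / 2 - Real.log ((n : ℝ) + 1) - j * Real.log 2) := by
    unfold KGg
    rw [← tsum_mul_left]
    refine tsum_congr fun j => ?_
    have e7 : KWg φ 1 (beg φ 1 d) (Ph ro 0) (Real.log ((n : ℝ) + 1) / 1 + j * (Real.log 2 / 1)) =
        2 * Psi φ (Real.log ((φ.r : ℝ) * d) / 2 - Real.log ((n : ℝ) + 1) - j * Real.log 2) := by
      have e9 : ∫ v in Set.Ioi (0:ℝ), Real.exp (-(Real.pi * v)) * v ^ φ.ex * Ph ro 0
          (TV 1 (beg φ 1 d) v - (Real.log ((n : ℝ) + 1) / 1 + j * (Real.log 2 / 1))) =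
          ∫ v in Set.Ioi (0:ℝ), 2 * (Real.exp (-(Real.pi * v)) * v ^ φ.ex *
            ro (Real.log ((φ.r : ℝ) * d) / 2 - Real.log ((n : ℝ) + 1) - j * Real.log 2 + Real.log v / 2)) := by
        refine setIntegral_congr_fun measurableSet_Ioi fun v hv => ?_
        have hv0 : (0:ℝ) < v := hv
        have e8 : TV 1 (beg φ 1 d) v - (Real.log ((n : ℝ) + 1) / 1 + j * (Real.log 2 / 1)) =
            Real.log ((φ.r : ℝ) * d) / 2 - Real.log ((n : ℝ) + 1) - j * Real.log 2 + Real.log v / 2 := by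
          unfold TV beg
          rw [Real.log_mul (by norm_num) hv0.ne', Real.log_div (mul_pos hr' hd0').ne' (by norm_num)]
          ring
        rw [e8]
        unfold Ph
        simp only [zero_div, neg_zero, Real.exp_zero, zero_mul, Real.cosh_zero]
        ring
      unfold KWg Psi
      rw [e9, integral_const_mul]
      ring
    rw [e7]
    ring
  rw [e6]
  ring

end

end Pool.Agent.K4H95.LQ
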