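import Pool.Agent.K4H95.LQ.Spec3
import Pool.Agent.K4H95.LQ.Psi

/-!
# Piece I1b: the tail of the kernel of the approximate functional equation
-/

set_option autoImplicit false

namespace Pool.Agent.K4H95.LQ

open Filter Topology MeasureTheory
open Pool.Agent.H306R2.RZ Pool.Agent.H306R2.RG

noncomputable section

namespace PI1b

lemma ro_tail (t : ℝ) : 1 - ro t ≤ Real.exp ((1 - t) / 4) := by
  by_cases h : 1 ≤ t
  · rw [ro_one h, sub_self]
    exact (Real.exp_pos _).le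
  · push Not at h
    have h1 : 1 ≤ Real.exp ((1 - t) / 4) := Real.one_le_exp (by linarith)
    linarith [ro_nonneg t]

lemma ex_gt' (φ : FD) : -1 < φ.ex - 1 / 8 := by
  unfold FD.ex
  have : (0:ℝ) ≤ (φ.a : ℝ) := Nat.cast_nonneg _
  linarith

end PI1b

/-- **piece I1b** -/
theorem i1b : StI1b := by
  intro φ
  have h1 := int_gam (PI1b.ex_gt' φ)
  refine ⟨Real.exp (1 / 4) * (∫ v in Set.Ioi (0 : ℝ), Real.exp (-(Real.pi * v)) * v ^ (φ.ex - 1 / 8)) / g0g φ,
    fun z => ?_⟩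
  have hg := g0_pos φ
  have e0 : 1 - Psi φ z = (∫ v in Set.Ioi (0 : ℝ), Real.exp (-(Real.pi * v)) * v ^ φ.ex *
      (1 - ro (z + Real.log v / 2))) / g0g φ := by
    unfold Psi
    rw [eq_div_iff hg.ne', sub_mul, one_mul, div_mul_cancel₀ _ hg.ne']
    have e1 : g0g φ = ∫ v in Set.Ioi (0 : ℝ), Real.exp (-(Real.pi * v)) * v ^ φ.ex := rfl
    rw [e1, ← integral_sub (int_gam (ex_gt φ)).1 (int_psi φ z)]
    refine setIntegral_congr_fun measurableSet_Ioi fun v _ => ?_
    ring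
  rw [e0, div_mul_eq_mul_div]
  refine div_le_div_of_nonneg_right ?_ hg.le
  have e1 : Real.exp (1 / 4) * (∫ v in Set.Ioi (0 : ℝ), Real.exp (-(Real.pi * v)) * v ^ (φ.ex - 1 / 8)) *
      Real.exp (-z / 4) =
      ∫ v in Set.Ioi (0 : ℝ), Real.exp ((1 - z) / 4) * (Real.exp (-(Real.pi * v)) * v ^ (φ.ex - 1 / 8)) := by
    rw [integral_const_mul, show (1 - z) / 4 = 1 / 4 + -z / 4 by ring, Real.exp_add]
    ring
  rw [e1]
  have hint : IntegrableOn (fun v : ℝ => Real.exp (-(Real.pi * v)) * v ^ φ.ex *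
      (1 - ro (z + Real.log v / 2))) (Set.Ioi 0) := by
    have h2 := (int_gam (ex_gt φ)).1.sub (int_psi φ z)
    refine h2.congr_fun (fun v _ => ?_) measurableSet_Ioi
    simp only [Pi.sub_apply]
    ring
  refine setIntegral_mono_on hint (h1.1.const_mul _) measurableSet_Ioi fun v hv => ?_
  have hv0 : (0:ℝ) < v := hv
  have h3 : Real.exp ((1 - z) / 4) * (Real.exp (-(Real.pi * v)) * v ^ (φ.ex - 1 / 8)) =
      Real.exp (-(Real.pi * v)) * v ^ φ.ex * Real.exp ((1 - (z + Real.log v / 2)) / 4) := by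
    have e2 : v ^ (φ.ex - 1 / 8) = v ^ φ.ex * Real.exp (-Real.log v / 8) := by
      rw [sub_eq_add_neg, Real.rpow_add hv0, Real.rpow_def_of_pos hv0 (-(1 / 8))]
      congr 2
      ring
    rw [e2, show (1 - (z + Real.log v / 2)) / 4 = (1 - z) / 4 + -Real.log v / 8 by ring, Real.exp_add]
    ring
  rw [h3]
  exact mul_le_mul_of_nonneg_left (PI1b.ro_tail _) (w_nonneg φ hv0)

end

end Pool.Agent.K4H95.LQ
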