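import Pool.Agent.K4H95.LQ.Spec

/-!
# The logarithmic mean of `gg (m k) / k` over odd `k`, with a cut-off
-/

set_option autoImplicit false

namespace Pool.Agent.K4H95.LQ

open Filter Topology

noncomputable section

namespace PB

theorem gg_nonneg (N : ℕ) : 0 ≤ gg N :=
  Finset.prod_nonneg fun p _ => by positivity

theorem gg_le (N : ℕ) : gg N ≤ 1 :=
  Finset.prod_le_one (fun p _ => by positivity) fun p _ => by
    rw [div_le_one (by positivity)]; linarith

variable {Ψ : ℝ → ℝ}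

/-- the integral of the cut-off -/
def PP (Ψ : ℝ → ℝ) (v : ℝ) : ℝ := ∫ t in Set.Iic v, Ψ t

theorem _root_.Pool.Agent.K4H95.LQ.Cut.intB (h : Cut Ψ) (v : ℝ) : MeasureTheory.IntegrableOn Ψ (Set.Iic v) := by
  obtain ⟨C, hC⟩ := h.decay
  have h1 : MeasureTheory.IntegrableOn (fun t : ℝ => C * Real.exp (2 * t)) (Set.Iic v) :=
    (integrableOn_exp_mul_Iic (by norm_num : (0 : ℝ) < 2) v).const_mul C
  refine MeasureTheory.Integrable.mono' h1 h.mono.measurable.aestronglyMeasurable ?_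
  filter_upwards with t
  rw [Real.norm_of_nonneg (h.nonneg t)]
  exact hC t

theorem _root_.Pool.Agent.K4H95.LQ.Cut.subB (h : Cut Ψ) {v w : ℝ} (hvw : w ≤ v) :
    (v - w) * Ψ w ≤ PP Ψ v - PP Ψ w ∧ PP Ψ v - PP Ψ w ≤ (v - w) * Ψ v := by
  have h1 : PP Ψ v - PP Ψ w = ∫ t in w..v, Ψ t :=
    intervalIntegral.integral_Iic_sub_Iic (h.intB w) (h.intB v)
  rw [h1]
  have hi : IntervalIntegrable Ψ MeasureTheory.volume w v := h.mono.intervalIntegrable
  constructor
  · have := intervalIntegral.integral_mono_on (f := fun _ => Ψ w) (g := Ψ) hvw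
      intervalIntegrable_const hi fun t ht => h.mono ht.1
    rwa [intervalIntegral.integral_const, smul_eq_mul] at this
  · have := intervalIntegral.integral_mono_on (f := Ψ) (g := fun _ => Ψ v) hvw
      hi intervalIntegrable_const fun t ht => h.mono ht.2
    rwa [intervalIntegral.integral_const, smul_eq_mul] at this

theorem PP_nonneg (h : Cut Ψ) (v : ℝ) : 0 ≤ PP Ψ v :=
  MeasureTheory.setIntegral_nonneg measurableSet_Iic fun t _ => h.nonneg t

theorem PP_mono (h : Cut Ψ) : Monotone (PP Ψ) := by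
  intro w v hvw
  have := (h.subB hvw).1
  have h2 := mul_nonneg (sub_nonneg.2 hvw) (h.nonneg w)
  linarith

theorem PP_bot (h : Cut Ψ) : Tendsto (PP Ψ) atBot (𝓝 0) := by
  obtain ⟨C, hC⟩ := h.decay
  have h2 : ∀ v, PP Ψ v ≤ C * (Real.exp (2 * v) / 2) := by
    intro v
    have h1 : MeasureTheory.IntegrableOn (fun t : ℝ => C * Real.exp (2 * t)) (Set.Iic v) :=
      (integrableOn_exp_mul_Iic (by norm_num : (0 : ℝ) < 2) v).const_mul C
    have := MeasureTheory.setIntegral_mono_on (h.intB v) h1 measurableSet_Iic fun t _ => hC t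
    rw [MeasureTheory.integral_const_mul, integral_exp_mul_Iic (by norm_num : (0 : ℝ) < 2)] at this
    exact this
  refine squeeze_zero (PP_nonneg h) h2 ?_
  have h3 : Tendsto (fun v : ℝ => Real.exp (2 * v)) atBot (𝓝 0) :=
    Real.tendsto_exp_atBot.comp (tendsto_id.const_mul_atBot (by norm_num : (0 : ℝ) < 2))
  simpa using (h3.div_const 2).const_mul C

theorem PP_le (h : Cut Ψ) (z : ℝ) : PP Ψ z ≤ PP Ψ 0 + max z 0 := by
  rcases le_total z 0 with hz | hz
  · rw [max_eq_right hz]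
    have := PP_mono h hz
    linarith
  · rw [max_eq_left hz]
    have := (h.subB hz).2
    have h2 : (z - 0) * Ψ z ≤ z := by
      have := mul_le_mul_of_nonneg_left (h.le z) hz
      simpa using this
    linarith

theorem PP_lim (h : Cut Ψ) : Tendsto (fun z => PP Ψ z / z) atTop (𝓝 1) := by
  rw [tendsto_order]
  constructor
  · intro a ha
    obtain ⟨b, hab, hb1⟩ := exists_between ha
    have h1 : ∀ᶠ A in atTop, b < Ψ A := (tendsto_order.1 h.lim).1 b hb1
    obtain ⟨A, hA, hA0⟩ := (h1.and (eventually_ge_atTop 0)).exists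
    have h2 : Tendsto (fun z : ℝ => (z - A) * Ψ A / z) atTop (𝓝 (Ψ A)) := by
      have h3 : Tendsto (fun z : ℝ => (1 - A * z⁻¹) * Ψ A) atTop (𝓝 ((1 - A * 0) * Ψ A)) :=
        ((tendsto_inv_atTop_zero.const_mul A).const_sub 1).mul_const _
      simp only [mul_zero, sub_zero, one_mul] at h3
      refine h3.congr' ?_
      filter_upwards [eventually_gt_atTop 0] with z hz
      field_simp
    filter_upwards [(tendsto_order.1 h2).1 a (hab.trans hA), eventually_gt_atTop A] with z h4 h5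
    refine h4.trans_le ?_
    have hz : 0 < z := hA0.trans_lt h5
    refine div_le_div_of_nonneg_right ?_ hz.le
    have := (h.subB h5.le).1
    have h6 := PP_nonneg h A
    linarith
  · intro a ha
    have h2 : Tendsto (fun z : ℝ => (PP Ψ 0 + z) / z) atTop (𝓝 1) := by
      have h3 : Tendsto (fun z : ℝ => PP Ψ 0 * z⁻¹ + 1) atTop (𝓝 (PP Ψ 0 * 0 + 1)) :=
        (tendsto_inv_atTop_zero.const_mul _).add_const 1
      simp only [mul_zero, zero_add] at h3
      refine h3.congr' ?_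
      filter_upwards [eventually_gt_atTop 0] with z hz
      field_simp
    filter_upwards [(tendsto_order.1 h2).2 a ha, eventually_gt_atTop 0] with z h4 h5
    refine lt_of_le_of_lt ?_ h4
    refine div_le_div_of_nonneg_right ?_ h5.le
    have := PP_le h z
    rwa [max_eq_left h5.le] at this

/-- the terms over odd numbers, all weights one -/
def ff (Ψ : ℝ → ℝ) (z : ℝ) (k : ℕ) : ℝ := 1 / (2 * k + 1 : ℝ) * Ψ (z - 2 * Real.log (2 * k + 1 : ℝ))

theorem ff_nonneg (h : Cut Ψ) (z : ℝ) (k : ℕ) : 0 ≤ ff Ψ z k :=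
  mul_nonneg (by positivity) (h.nonneg _)

theorem ff_lower (h : Cut Ψ) (z : ℝ) (k : ℕ) :
    PP Ψ (z - 2 * Real.log (2 * k + 1 : ℝ)) - PP Ψ (z - 2 * Real.log (2 * (k + 1 : ℕ) + 1 : ℝ)) ≤ 4 * ff Ψ z k := by
  have hk : (0 : ℝ) < 2 * k + 1 := by positivity
  have hk' : (0 : ℝ) < 2 * (k + 1 : ℕ) + 1 := by positivity
  have h0 : Real.log (2 * (k + 1 : ℕ) + 1 : ℝ) - Real.log (2 * k + 1 : ℝ) ≤ 2 / (2 * k + 1) := by
    rw [← Real.log_div hk'.ne' hk.ne']
    have := Real.log_le_sub_one_of_pos (div_pos hk' hk)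
    refine this.trans (le_of_eq ?_)
    push_cast
    field_simp
    ring
  have h00 : Real.log (2 * k + 1 : ℝ) ≤ Real.log (2 * (k + 1 : ℕ) + 1 : ℝ) :=
    Real.log_le_log hk (by push_cast; linarith)
  have h1 := (h.subB (v := z - 2 * Real.log (2 * k + 1 : ℝ)) (w := z - 2 * Real.log (2 * (k + 1 : ℕ) + 1 : ℝ))
    (by linarith)).2
  refine h1.trans ?_
  have h2 : z - 2 * Real.log (2 * k + 1 : ℝ) - (z - 2 * Real.log (2 * (k + 1 : ℕ) + 1 : ℝ)) ≤ 4 * (1 / (2 * k + 1 : ℝ)) := by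
    have : 4 * (1 / (2 * k + 1 : ℝ)) = 2 * (2 / (2 * k + 1)) := by ring
    rw [this]; linarith
  have := mul_le_mul_of_nonneg_right h2 (h.nonneg (z - 2 * Real.log (2 * k + 1 : ℝ)))
  unfold ff
  linarith

theorem ff_upper (h : Cut Ψ) (z : ℝ) (k : ℕ) :
    4 * ff Ψ z (k + 1) ≤
      PP Ψ (z - 2 * Real.log (2 * k + 1 : ℝ)) - PP Ψ (z - 2 * Real.log (2 * (k + 1 : ℕ) + 1 : ℝ)) := by
  have hk : (0 : ℝ) < 2 * k + 1 := by positivity
  have hk' : (0 : ℝ) < 2 * (k + 1 : ℕ) + 1 := by positivity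
  have h0 : 2 / (2 * (k + 1 : ℕ) + 1) ≤ Real.log (2 * (k + 1 : ℕ) + 1 : ℝ) - Real.log (2 * k + 1 : ℝ) := by
    have h1 : Real.log (2 * k + 1 : ℝ) - Real.log (2 * (k + 1 : ℕ) + 1 : ℝ) ≤ - (2 / (2 * (k + 1 : ℕ) + 1)) := by
      rw [← Real.log_div hk.ne' hk'.ne']
      have := Real.log_le_sub_one_of_pos (div_pos hk hk')
      refine this.trans (le_of_eq ?_)
      push_cast
      field_simp
      ring
    linarith
  have h00 : Real.log (2 * k + 1 : ℝ) ≤ Real.log (2 * (k + 1 : ℕ) + 1 : ℝ) :=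
    Real.log_le_log hk (by push_cast; linarith)
  have h1 := (h.subB (v := z - 2 * Real.log (2 * k + 1 : ℝ)) (w := z - 2 * Real.log (2 * (k + 1 : ℕ) + 1 : ℝ))
    (by linarith)).1
  refine le_trans ?_ h1
  have h2 : 4 * (1 / (2 * (k + 1 : ℕ) + 1 : ℝ)) ≤ z - 2 * Real.log (2 * k + 1 : ℝ) - (z - 2 * Real.log (2 * (k + 1 : ℕ) + 1 : ℝ)) := by
    have : 4 * (1 / (2 * (k + 1 : ℕ) + 1 : ℝ)) = 2 * (2 / (2 * (k + 1 : ℕ) + 1)) := by ring
    rw [this]; linarith
  have := mul_le_mul_of_nonneg_right h2 (h.nonneg (z - 2 * Real.log (2 * (k + 1 : ℕ) + 1 : ℝ)))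
  unfold ff
  linarith

theorem ff_part (h : Cut Ψ) (z : ℝ) (K : ℕ) :
    PP Ψ z - PP Ψ (z - 2 * Real.log (2 * K + 1 : ℝ)) ≤ 4 * ∑ k ∈ Finset.range K, ff Ψ z k ∧
    4 * ∑ k ∈ Finset.range K, ff Ψ z (k + 1) ≤ PP Ψ z := by
  have h0 : PP Ψ z = PP Ψ (z - 2 * Real.log (2 * (0 : ℕ) + 1 : ℝ)) := by simp
  have h1 := Finset.sum_range_sub' (fun k : ℕ => PP Ψ (z - 2 * Real.log (2 * k + 1 : ℝ))) K
  constructor
  · rw [Finset.mul_sum, h0]
    exact h1 ▸ Finset.sum_le_sum fun k _ => ff_lower h z k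
  · rw [Finset.mul_sum]
    have h2 : ∑ k ∈ Finset.range K, 4 * ff Ψ z (k + 1) ≤ _ := Finset.sum_le_sum fun k _ => ff_upper h z k
    refine h2.trans ?_
    rw [h1, ← h0]
    have := PP_nonneg h (z - 2 * Real.log (2 * K + 1 : ℝ))
    linarith

theorem ff_summable (h : Cut Ψ) (z : ℝ) : Summable (ff Ψ z) := by
  rw [← summable_nat_add_iff 1]
  refine summable_of_sum_range_le (c := PP Ψ z / 4) (fun k => ff_nonneg h z _) fun K => ?_
  have := (ff_part h z K).2
  linarith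

/-- the sum over odd numbers, all weights one -/
def LL (Ψ : ℝ → ℝ) (z : ℝ) : ℝ := ∑' k : ℕ, ff Ψ z k

theorem LL_nonneg (h : Cut Ψ) (z : ℝ) : 0 ≤ LL Ψ z := tsum_nonneg (ff_nonneg h z)

theorem LL_lower (h : Cut Ψ) (z : ℝ) : PP Ψ z / 4 ≤ LL Ψ z := by
  have h1 : Tendsto (fun K : ℕ => ∑ k ∈ Finset.range K, ff Ψ z k) atTop (𝓝 (LL Ψ z)) :=
    (ff_summable h z).hasSum.tendsto_sum_nat
  have h2 : Tendsto (fun K : ℕ => (PP Ψ z - PP Ψ (z - 2 * Real.log (2 * K + 1 : ℝ))) / 4) atTop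
      (𝓝 ((PP Ψ z - 0) / 4)) := by
    refine Tendsto.div_const (Tendsto.const_sub _ ((PP_bot h).comp ?_)) 4
    have h3 : Tendsto (fun K : ℕ => 2 * Real.log (2 * K + 1 : ℝ)) atTop atTop := by
      refine Tendsto.const_mul_atTop (by norm_num) (Real.tendsto_log_atTop.comp ?_)
      exact tendsto_atTop_add_const_right _ _
        (tendsto_natCast_atTop_atTop.const_mul_atTop (by norm_num : (0 : ℝ) < 2))
    have h4 := tendsto_atBot_add_const_left atTop z (tendsto_neg_atTop_atBot.comp h3)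
    refine h4.congr fun K => ?_
    simp [sub_eq_add_neg]
  rw [sub_zero] at h2
  refine le_of_tendsto_of_tendsto' h2 h1 fun K => ?_
  have := (ff_part h z K).1
  linarith

theorem LL_upper (h : Cut Ψ) (z : ℝ) : LL Ψ z ≤ 1 + PP Ψ z / 4 := by
  have h1 : LL Ψ z = ff Ψ z 0 + ∑' k : ℕ, ff Ψ z (k + 1) := (ff_summable h z).tsum_eq_zero_add
  have h2 : ∑' k : ℕ, ff Ψ z (k + 1) ≤ PP Ψ z / 4 := by
    refine Real.tsum_le_of_sum_range_le (fun k => ff_nonneg h z _) fun K => ?_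
    have := (ff_part h z K).2
    linarith
  have h3 : ff Ψ z 0 ≤ 1 := by
    unfold ff
    simpa using h.le z
  linarith

theorem LL_bound (h : Cut Ψ) (z : ℝ) : LL Ψ z ≤ (1 + PP Ψ 0) * (1 + max z 0) := by
  have h1 := LL_upper h z
  have h2 := PP_le h z
  have h3 := PP_nonneg h 0
  have h4 : 0 ≤ max z 0 := le_max_right _ _
  nlinarith [mul_nonneg h3 h4]

theorem LL_lim (h : Cut Ψ) : Tendsto (fun z => LL Ψ z / z) atTop (𝓝 (1 / 4)) := by
  have h1 : Tendsto (fun z => PP Ψ z / z / 4) atTop (𝓝 (1 / 4)) := (PP_lim h).div_const 4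
  have h2 : Tendsto (fun z : ℝ => z⁻¹ + PP Ψ z / z / 4) atTop (𝓝 (0 + 1 / 4)) := tendsto_inv_atTop_zero.add h1
  rw [zero_add] at h2
  refine tendsto_of_tendsto_of_tendsto_of_le_of_le' h1 h2 ?_ ?_
  · filter_upwards [eventually_gt_atTop 0] with z hz
    have := div_le_div_of_nonneg_right (LL_lower h z) hz.le
    refine le_trans (le_of_eq ?_) this
    ring
  · filter_upwards [eventually_gt_atTop 0] with z hz
    have := div_le_div_of_nonneg_right (LL_upper h z) hz.le
    refine this.trans (le_of_eq ?_)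
    ring

theorem term_eq (m : ℕ) (z : ℝ) (k : ℕ) :
    gg (m * (2 * k + 1)) / (2 * k + 1 : ℝ) * Ψ (z - 2 * Real.log (2 * k + 1 : ℝ)) = gg (m * (2 * k + 1)) * ff Ψ z k := by
  unfold ff
  ring

theorem part1 (h : Cut Ψ) (m : ℕ) (z : ℝ) : Summable fun k : ℕ =>
    gg (m * (2 * k + 1)) / (2 * k + 1 : ℝ) * Ψ (z - 2 * Real.log (2 * k + 1 : ℝ)) := by
  refine Summable.of_nonneg_of_le (fun k => ?_) (fun k => ?_) (ff_summable h z)
  · rw [term_eq]; exact mul_nonneg (gg_nonneg _) (ff_nonneg h z k)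
  · rw [term_eq]; exact mul_le_of_le_one_left (ff_nonneg h z k) (gg_le _)

theorem part2 (h : Cut Ψ) (m : ℕ) (z : ℝ) : 0 ≤ Hm Ψ m z ∧ Hm Ψ m z ≤ (1 + PP Ψ 0) * (1 + max z 0) := by
  constructor
  · exact tsum_nonneg fun k => by rw [term_eq]; exact mul_nonneg (gg_nonneg _) (ff_nonneg h z k)
  · refine le_trans ?_ (LL_bound h z)
    refine (part1 h m z).tsum_le_tsum (fun k => ?_) (ff_summable h z)
    rw [term_eq]; exact mul_le_of_le_one_left (ff_nonneg h z k) (gg_le _)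

/-- the correcting factor at a prime -/
def hp (m p : ℕ) : ℝ := if p = 2 ∨ p ∣ m then 0 else -(1 / ((p : ℝ) + 1))

open Classical in
/-- the correcting function -/
def hh (m a : ℕ) : ℝ := if Squarefree a then ∏ p ∈ a.primeFactors, hp m p else 0

theorem hh_zero (m : ℕ) : hh m 0 = 0 := by
  unfold hh
  rw [if_neg not_squarefree_zero]

theorem hh_one (m : ℕ) : hh m 1 = 1 := by
  unfold hh
  rw [if_pos squarefree_one]
  simp

theorem hh_mul (m : ℕ) {a b : ℕ} (hab : Nat.Coprime a b) : hh m (a * b) = hh m a * hh m b := by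
  unfold hh
  by_cases ha : Squarefree a
  · by_cases hb : Squarefree b
    · rw [if_pos ha, if_pos hb, if_pos ((Nat.squarefree_mul hab).2 ⟨ha, hb⟩), hab.primeFactors_mul,
        Finset.prod_union hab.disjoint_primeFactors]
    · rw [if_neg hb, if_neg fun h => hb ((Nat.squarefree_mul hab).1 h).2, mul_zero]
  · rw [if_neg ha, if_neg fun h => ha ((Nat.squarefree_mul hab).1 h).1, zero_mul]

theorem hh_even (m : ℕ) {a : ℕ} (ha : ¬ Odd a) : hh m a = 0 := by
  unfold hh
  split_ifs with h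
  · refine Finset.prod_eq_zero (i := 2) ?_ (by simp [hp])
    rw [Nat.mem_primeFactors]
    refine ⟨Nat.prime_two, (Nat.not_odd_iff_even.1 ha).two_dvd, ?_⟩
    rintro rfl
    exact not_squarefree_zero h
  · rfl

theorem hp_abs (m p : ℕ) (h : p ≠ 0) : |hp m p| ≤ 1 / p := by
  have h0 : (0 : ℝ) < p := by exact_mod_cast Nat.pos_of_ne_zero h
  unfold hp
  split_ifs
  · simp
  · rw [abs_neg, abs_of_nonneg (by positivity)]
    exact one_div_le_one_div_of_le h0 (by linarith)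

theorem hh_abs (m a : ℕ) : |hh m a| ≤ 1 / a := by
  unfold hh
  split_ifs with h
  · rw [Finset.abs_prod]
    have h1 : ∏ p ∈ a.primeFactors, |hp m p| ≤ ∏ p ∈ a.primeFactors, (1 / p : ℝ) :=
      Finset.prod_le_prod (fun p _ => abs_nonneg _) fun p hp' => hp_abs m p (Nat.prime_of_mem_primeFactors hp').ne_zero
    refine h1.trans (le_of_eq ?_)
    have h2 := Nat.prod_primeFactors_of_squarefree h
    rw [Finset.prod_div_distrib, Finset.prod_const_one]
    congr 1
    rw [← Nat.cast_prod, h2]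
  · simp

theorem hh_sum (m : ℕ) : Summable fun a : ℕ => |hh m a| / a := by
  refine Summable.of_nonneg_of_le (fun a => by positivity) (fun a => ?_)
    (Real.summable_one_div_nat_pow.2 (by norm_num : 1 < 2))
  rcases Nat.eq_zero_or_pos a with rfl | ha
  · simp
  · have h0 : (0 : ℝ) < a := by exact_mod_cast ha
    calc |hh m a| / a ≤ (1 / a) / a := div_le_div_of_nonneg_right (hh_abs m a) h0.le
      _ = 1 / (a : ℝ) ^ 2 := by rw [div_div, sq]

theorem sqf_prod (t : Finset ℕ) (ht : ∀ p ∈ t, p.Prime) : Squarefree (∏ p ∈ t, p) := by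
  classical
  induction t using Finset.induction_on with
  | empty => simp
  | insert a s ha ih =>
    rw [Finset.prod_insert ha]
    have h1 : Nat.Coprime a (∏ p ∈ s, p) := Nat.Coprime.prod_right fun p hp =>
      (Nat.coprime_primes (ht a (Finset.mem_insert_self _ _)) (ht p (Finset.mem_insert_of_mem hp))).2
        (by rintro rfl; exact ha hp)
    rw [Nat.squarefree_mul h1]
    exact ⟨(ht a (Finset.mem_insert_self _ _)).prime.squarefree,
      ih fun p hp => ht p (Finset.mem_insert_of_mem hp)⟩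

theorem sum_hh (m : ℕ) {k : ℕ} (hk : k ≠ 0) : ∑ a ∈ k.divisors, hh m a = ∏ p ∈ k.primeFactors, (1 + hp m p) := by
  classical
  rw [Finset.prod_one_add]
  symm
  have hpr : ∀ t ∈ k.primeFactors.powerset, ∀ p ∈ t, p.Prime := fun t ht p hp =>
    Nat.prime_of_mem_primeFactors (Finset.mem_powerset.1 ht hp)
  refine Finset.sum_of_injOn (fun t => ∏ p ∈ t, p) ?_ ?_ ?_ ?_
  · intro t ht s hs hts
    have h1 := Nat.primeFactors_prod (hpr t ht)
    have h2 := Nat.primeFactors_prod (hpr s hs)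
    rw [← h1, ← h2]
    exact congrArg Nat.primeFactors hts
  · intro t ht
    simp only [Finset.mem_coe, Nat.mem_divisors]
    refine ⟨?_, hk⟩
    have h1 : ∏ p ∈ t, p ∣ ∏ p ∈ k.primeFactors, p := Finset.prod_dvd_prod_of_subset _ _ _ (Finset.mem_powerset.1 ht)
    exact h1.trans (Nat.prod_primeFactors_dvd k)
  · intro a ha hna
    unfold hh
    rw [if_neg]
    intro hsq
    apply hna
    refine ⟨a.primeFactors, ?_, Nat.prod_primeFactors_of_squarefree hsq⟩
    rw [Finset.mem_coe, Finset.mem_powerset]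
    exact Nat.primeFactors_mono (Nat.dvd_of_mem_divisors ha) hk
  · intro t ht
    unfold hh
    rw [if_pos (sqf_prod t (hpr t ht)), Nat.primeFactors_prod (hpr t ht)]

theorem gg_mul {m k : ℕ} (hm : Odd m) (hk : Odd k) : gg (m * k) = gg m * ∑ a ∈ k.divisors, hh m a := by
  classical
  have hm0 : m ≠ 0 := by rintro rfl; simp at hm
  have hk0 : k ≠ 0 := by rintro rfl; simp at hk
  rw [sum_hh m hk0]
  unfold gg
  rw [Nat.primeFactors_mul hm0 hk0, ← Finset.union_sdiff_self_eq_union, Finset.prod_union Finset.disjoint_sdiff]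
  congr 1
  rw [← Finset.prod_subset (s₁ := k.primeFactors \ m.primeFactors) Finset.sdiff_subset]
  · refine Finset.prod_congr rfl fun p hp' => ?_
    rw [Finset.mem_sdiff, Nat.mem_primeFactors, Nat.mem_primeFactors] at hp'
    obtain ⟨⟨hp1, hp2, _⟩, hp3⟩ := hp'
    unfold hp
    rw [if_neg]
    · field_simp
      ring
    · rintro (rfl | h)
      · exact (Nat.not_even_iff_odd.2 hk) (even_iff_two_dvd.2 hp2)
      · exact hp3 ⟨hp1, h, hm0⟩
  · intro p hp1 hp2
    rw [Finset.mem_sdiff, not_and, not_not] at hp2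
    unfold hp
    rw [if_pos (Or.inr (Nat.dvd_of_mem_primeFactors (hp2 hp1))), add_zero]

/-- the terms over odd multiples of `a` -/
def DD (Ψ : ℝ → ℝ) (z : ℝ) (a k : ℕ) : ℝ := if a ∣ 2 * k + 1 then ff Ψ z k else 0

theorem DD_nonneg (h : Cut Ψ) (z : ℝ) (a k : ℕ) : 0 ≤ DD Ψ z a k := by
  unfold DD
  split_ifs
  exacts [ff_nonneg h z k, le_rfl]

theorem DD_hasSum (h : Cut Ψ) (z : ℝ) {a : ℕ} (ha : Odd a) :
    HasSum (DD Ψ z a) (1 / a * LL Ψ (z - 2 * Real.log a)) := by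
  obtain ⟨i, rfl⟩ := ha
  have hinj : Function.Injective fun j : ℕ => 2 * i * j + i + j := by
    intro j j' hj
    have hj : 2 * i * j + i + j = 2 * i * j' + i + j' := hj
    have h2 : (2 * i + 1) * j = (2 * i + 1) * j' := by
      rw [add_mul, one_mul, add_mul, one_mul]; omega
    exact Nat.eq_of_mul_eq_mul_left (by omega) h2
  have hsup : ∀ k ∉ Set.range (fun j : ℕ => 2 * i * j + i + j), DD Ψ z (2 * i + 1) k = 0 := by
    intro k hk
    unfold DD
    rw [if_neg]
    rintro ⟨b, hb⟩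
    apply hk
    have hodd : Odd ((2 * i + 1) * b) := by rw [← hb]; exact odd_two_mul_add_one k
    obtain ⟨j, rfl⟩ := (Nat.odd_mul.1 hodd).2
    refine ⟨j, ?_⟩
    show 2 * i * j + i + j = k
    have h5 : (2 * i + 1) * (2 * j + 1) = 2 * (2 * i * j + i + j) + 1 := by ring
    rw [h5] at hb
    omega
  rw [← hinj.hasSum_iff hsup]
  have h1 := (ff_summable h (z - 2 * Real.log ((2 * i + 1 : ℕ) : ℝ))).hasSum.mul_left (1 / ((2 * i + 1 : ℕ) : ℝ))
  refine h1.congr_fun ?_
  intro j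
  have hdv : (2 * i + 1) ∣ 2 * (2 * i * j + i + j) + 1 := ⟨2 * j + 1, by ring⟩
  show DD Ψ z (2 * i + 1) (2 * i * j + i + j) = _
  unfold DD ff
  rw [if_pos hdv]
  have h2 : (2 * ((2 * i * j + i + j : ℕ) : ℝ) + 1) = ((2 * i + 1 : ℕ) : ℝ) * (2 * (j : ℝ) + 1) := by
    push_cast; ring
  have h3 : ((2 * i + 1 : ℕ) : ℝ) ≠ 0 := by exact_mod_cast (by omega : 2 * i + 1 ≠ 0)
  have h4 : (2 * (j : ℝ) + 1) ≠ 0 := by positivity
  have h5 : z - 2 * (Real.log ((2 * i + 1 : ℕ) : ℝ) + Real.log (2 * (j : ℝ) + 1)) =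
      z - 2 * Real.log ((2 * i + 1 : ℕ) : ℝ) - 2 * Real.log (2 * (j : ℝ) + 1) := by ring
  rw [h2, Real.log_mul h3 h4, h5, ← one_div_mul_one_div, mul_assoc]

theorem Hm_eq (h : Cut Ψ) {m : ℕ} (hm : Odd m) (z : ℝ) :
    Hm Ψ m z = gg m * ∑' a : ℕ, hh m a / a * LL Ψ (z - 2 * Real.log a) := by
  have hrow : ∀ a : ℕ, HasSum (fun k => hh m a * DD Ψ z a k) (hh m a / a * LL Ψ (z - 2 * Real.log a)) := by
    intro a
    by_cases ha : Odd a
    · have := (DD_hasSum h z ha).mul_left (hh m a)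
      rwa [← mul_assoc, mul_one_div] at this
    · simp [hh_even m ha, hasSum_zero]
  have hrow' : ∀ a : ℕ, HasSum (fun k => |hh m a| * DD Ψ z a k) (|hh m a| / a * LL Ψ (z - 2 * Real.log a)) := by
    intro a
    by_cases ha : Odd a
    · have := (DD_hasSum h z ha).mul_left |hh m a|
      rwa [← mul_assoc, mul_one_div] at this
    · simp [hh_even m ha, hasSum_zero]
  have hC : ∀ a : ℕ, LL Ψ (z - 2 * Real.log a) ≤ (1 + PP Ψ 0) * (1 + max z 0) := by
    intro a
    refine (LL_bound h _).trans ?_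
    have h1 : z - 2 * Real.log a ≤ z := by
      have := Real.log_natCast_nonneg a
      linarith
    have h2 := PP_nonneg h 0
    have h3 := max_le_max_right 0 h1
    exact mul_le_mul_of_nonneg_left (by linarith) (by linarith)
  have hs : Summable fun q : ℕ × ℕ => hh m q.1 * DD Ψ z q.1 q.2 := by
    apply Summable.of_norm
    have h1 : (fun q : ℕ × ℕ => ‖hh m q.1 * DD Ψ z q.1 q.2‖) = fun q : ℕ × ℕ => |hh m q.1| * DD Ψ z q.1 q.2 := by
      funext q
      rw [norm_mul, Real.norm_eq_abs, Real.norm_of_nonneg (DD_nonneg h z _ _)]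
    rw [h1, summable_prod_of_nonneg (fun q => mul_nonneg (abs_nonneg _) (DD_nonneg h z _ _))]
    refine ⟨fun a => (hrow' a).summable, ?_⟩
    have h2 : (fun a : ℕ => ∑' k : ℕ, |hh m a| * DD Ψ z a k) = fun a : ℕ => |hh m a| / a * LL Ψ (z - 2 * Real.log a) := by
      funext a
      exact (hrow' a).tsum_eq
    show Summable fun a : ℕ => ∑' k : ℕ, |hh m a| * DD Ψ z a k
    rw [h2]
    refine Summable.of_nonneg_of_le (fun a => mul_nonneg (by positivity) (LL_nonneg h _)) (fun a => ?_)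
      ((hh_sum m).mul_right ((1 + PP Ψ 0) * (1 + max z 0)))
    exact mul_le_mul_of_nonneg_left (hC a) (by positivity)
  have h1 : ∑' a : ℕ, hh m a / a * LL Ψ (z - 2 * Real.log a) = ∑' a : ℕ, ∑' k : ℕ, hh m a * DD Ψ z a k :=
    tsum_congr fun a => (hrow a).tsum_eq.symm
  have hc : ∑' k : ℕ, ∑' a : ℕ, hh m a * DD Ψ z a k = ∑' a : ℕ, ∑' k : ℕ, hh m a * DD Ψ z a k :=
    Summable.tsum_comm (f := fun a k : ℕ => hh m a * DD Ψ z a k) hs
  rw [h1, ← hc, ← tsum_mul_left]
  unfold Hm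
  refine tsum_congr fun k => ?_
  rw [term_eq, gg_mul hm (odd_two_mul_add_one k), mul_assoc, Finset.sum_mul]
  congr 1
  rw [tsum_eq_sum (s := (2 * k + 1).divisors)]
  · refine Finset.sum_congr rfl fun a ha => ?_
    unfold DD
    rw [if_pos (Nat.dvd_of_mem_divisors ha)]
  · intro a ha
    unfold DD
    rw [if_neg, mul_zero]
    intro hd
    exact ha (Nat.mem_divisors.2 ⟨hd, by omega⟩)

theorem LL_shift (h : Cut Ψ) (c : ℝ) : Tendsto (fun z => LL Ψ (z - c) / z) atTop (𝓝 (1 / 4)) := by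
  have h1 : Tendsto (fun z : ℝ => LL Ψ (z - c) / (z - c)) atTop (𝓝 (1 / 4)) :=
    (LL_lim h).comp (tendsto_atTop_add_const_right _ (-c) tendsto_id)
  have h2 : Tendsto (fun z : ℝ => 1 - c * z⁻¹) atTop (𝓝 (1 - c * 0)) :=
    (tendsto_inv_atTop_zero.const_mul c).const_sub 1
  have h3 := h1.mul h2
  rw [mul_zero, sub_zero, mul_one] at h3
  refine h3.congr' ?_
  filter_upwards [eventually_gt_atTop 0, eventually_gt_atTop c] with z hz hz'
  have : z - c ≠ 0 := by linarith [sub_pos.2 hz']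
  field_simp

theorem lim1 (h : Cut Ψ) {m : ℕ} (hm : Odd m) :
    Tendsto (fun z : ℝ => Hm Ψ m z / z) atTop (𝓝 (gg m * ∑' a : ℕ, hh m a / a * (1 / 4))) := by
  have h1 : Tendsto (fun z : ℝ => ∑' a : ℕ, hh m a / a * (LL Ψ (z - 2 * Real.log a) / z)) atTop
      (𝓝 (∑' a : ℕ, hh m a / a * (1 / 4))) := by
    refine tendsto_tsum_of_dominated_convergence (bound := fun a : ℕ => |hh m a| / a * ((1 + PP Ψ 0) * 2))
      ((hh_sum m).mul_right _) (fun a => (LL_shift h _).const_mul _) ?_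
    filter_upwards [eventually_ge_atTop 1] with z hz a
    have hz0 : (0 : ℝ) < z := by linarith
    rw [norm_mul, norm_div, Real.norm_eq_abs, Real.norm_natCast, Real.norm_of_nonneg (div_nonneg (LL_nonneg h _) hz0.le)]
    refine mul_le_mul_of_nonneg_left ?_ (by positivity)
    rw [div_le_iff₀ hz0]
    refine (LL_bound h _).trans ?_
    have h1 : z - 2 * Real.log a ≤ z := by
      have := Real.log_natCast_nonneg a
      linarith
    have h2 := PP_nonneg h 0
    have h3 := max_le_max_right 0 h1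
    rw [max_eq_left hz0.le] at h3
    rw [mul_assoc]
    exact mul_le_mul_of_nonneg_left (by linarith) (by linarith)
  refine (h1.const_mul (gg m)).congr fun z => ?_
  rw [Hm_eq h hm, mul_div_assoc]
  congr 1
  rw [← tsum_div_const]
  refine tsum_congr fun a => ?_
  rw [mul_div_assoc]

theorem hh_prod (m : ℕ) : HasProd (fun p : Nat.Primes => 1 + hp m p / (p : ℕ)) (∑' a : ℕ, hh m a / a) := by
  have h1 := EulerProduct.eulerProduct_hasProd (f := fun a : ℕ => hh m a / a) (by simp [hh_one])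
    (fun {a b} hab => by
      show hh m (a * b) / ((a * b : ℕ) : ℝ) = hh m a / a * (hh m b / b)
      rw [hh_mul m hab, Nat.cast_mul, div_mul_div_comm])
    (by
      refine (hh_sum m).congr fun a => ?_
      rw [norm_div, Real.norm_eq_abs, Real.norm_natCast])
    (by simp)
  refine h1.congr_fun ?_
  intro p
  have hp1 := p.2
  show 1 + hp m p / (p : ℕ) = ∑' e : ℕ, hh m ((p : ℕ) ^ e) / (((p : ℕ) ^ e : ℕ) : ℝ)
  rw [tsum_eq_sum (s := Finset.range 2)]
  · rw [Finset.sum_range_succ, Finset.sum_range_one, pow_zero, pow_one, hh_one]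
    congr 1
    · simp
    · unfold hh
      rw [if_pos hp1.prime.squarefree, hp1.primeFactors, Finset.prod_singleton]
  · intro e he
    rw [Finset.mem_range, not_lt] at he
    unfold hh
    rw [if_neg, zero_div]
    intro hsq
    have := ((Nat.squarefree_pow_iff hp1.one_lt.ne' (by omega)).1 hsq).2
    omega

theorem Gm_eq {m : ℕ} (hm : Odd m) : Gm m / 2 = gg m * ∑' a : ℕ, hh m a / a * (1 / 4) := by
  have hm0 : m ≠ 0 := by rintro rfl; simp at hm
  have h1 : HasProd (fun p : Nat.Primes => if (p : ℕ) ∈ m.primeFactors then ((p : ℕ) : ℝ) / (((p : ℕ) : ℝ) + 1) else 1)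
      (gg m) := by
    have h2 : HasProd (fun n : ℕ => if n ∈ m.primeFactors then (n : ℝ) / ((n : ℝ) + 1) else 1)
        (∏ n ∈ m.primeFactors, if n ∈ m.primeFactors then (n : ℝ) / ((n : ℝ) + 1) else 1) :=
      hasProd_prod_of_ne_finset_one fun n hn => if_neg hn
    rw [Finset.prod_congr rfl fun n hn => if_pos hn] at h2
    have h3 := (Function.Injective.hasProd_iff (f := fun n : ℕ => if n ∈ m.primeFactors then (n : ℝ) / ((n : ℝ) + 1) else 1)
      (g := fun p : Nat.Primes => (p : ℕ)) Nat.Primes.coe_nat_injective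
      (fun n hn => if_neg fun h => hn ⟨⟨n, Nat.prime_of_mem_primeFactors h⟩, rfl⟩)
      (a := ∏ i ∈ m.primeFactors, (i : ℝ) / ((i : ℝ) + 1))).2 h2
    exact h3
  have h2 := (h1.mul (hh_prod m)).tprod_eq
  unfold Gm
  rw [tsum_mul_right, show gg m * ((∑' a : ℕ, hh m a / a) * (1 / 4)) = gg m * (∑' a : ℕ, hh m a / a) / 4 by ring, ← h2]
  have h3 : (fun p : Nat.Primes => if (p : ℕ) = 2 then (1 : ℝ) else
      if (p : ℕ) ∣ m then ((p : ℕ) : ℝ) / (((p : ℕ) : ℝ) + 1) else 1 - 1 / (((p : ℕ) : ℝ) * (((p : ℕ) : ℝ) + 1))) =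
      fun p : Nat.Primes => (if (p : ℕ) ∈ m.primeFactors then ((p : ℕ) : ℝ) / (((p : ℕ) : ℝ) + 1) else 1) *
        (1 + hp m p / (p : ℕ)) := by
    funext p
    have hp1 := p.2
    have hp0 : ((p : ℕ) : ℝ) ≠ 0 := by exact_mod_cast hp1.ne_zero
    unfold hp
    by_cases h4 : (p : ℕ) = 2
    · have h5 : ¬ (p : ℕ) ∣ m := by
        rw [h4]
        intro h
        exact (Nat.not_even_iff_odd.2 hm) (even_iff_two_dvd.2 h)
      rw [if_pos h4, if_neg fun h => h5 (Nat.dvd_of_mem_primeFactors h), if_pos (Or.inl h4)]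
      simp
    · by_cases h5 : (p : ℕ) ∣ m
      · rw [if_neg h4, if_pos h5, if_pos (Nat.mem_primeFactors.2 ⟨hp1, h5, hm0⟩), if_pos (Or.inr h5)]
        simp
      · rw [if_neg h4, if_neg h5, if_neg fun h => h5 (Nat.dvd_of_mem_primeFactors h), if_neg (by tauto), one_mul]
        field_simp
        ring
  rw [h3]
  ring

end PB

theorem b : StB := fun _ h =>
  ⟨PB.part1 h, ⟨_, by have := PB.PP_nonneg h 0; linarith, PB.part2 h⟩, fun _ hm => by rw [PB.Gm_eq hm]; exact PB.lim1 h hm⟩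


end

end Pool.Agent.K4H95.LQ
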