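import Pool.Agent.K4H95.LQ.Spec3
import Pool.Agent.K4H95.LQ.B

/-!
# Piece I2: the mean value with an error term
-/

set_option autoImplicit false

namespace Pool.Agent.K4H95.LQ

open Filter Topology

noncomputable section

namespace PI2

open PB

variable {Ψ : ℝ → ℝ}

theorem La_summable (h : Cut Ψ) (z : ℝ) :
    Summable fun k : ℕ => Ψ (z - 2 * Real.log ((k : ℝ) + 1)) / ((k : ℝ) + 1) := by
  obtain ⟨C, hC⟩ := h.decay
  have h1 : Summable fun k : ℕ => |C| * Real.exp (2 * z) * (1 / (((k + 1 : ℕ) : ℝ)) ^ 2) :=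
    (((summable_nat_add_iff 1).2 (Real.summable_one_div_nat_pow.2 (by norm_num : 1 < 2)))).mul_left _
  refine Summable.of_nonneg_of_le (fun k => div_nonneg (h.nonneg _) (by positivity)) (fun k => ?_) h1
  have hk : (1 : ℝ) ≤ (k : ℝ) + 1 := by
    have : (0 : ℝ) ≤ k := by positivity
    linarith
  have hk0 : (0 : ℝ) < (k : ℝ) + 1 := by linarith
  have h2 : Real.exp (2 * (z - 2 * Real.log ((k : ℝ) + 1))) ≤ Real.exp (2 * z) * (1 / ((k : ℝ) + 1) ^ 2) := by
    have h3 : Real.exp (2 * (z - 2 * Real.log ((k : ℝ) + 1))) =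
        Real.exp (2 * z) * (1 / ((k : ℝ) + 1) ^ 4) := by
      have h4 : Real.exp (4 * Real.log ((k : ℝ) + 1)) = ((k : ℝ) + 1) ^ 4 := by
        rw [show (4 : ℝ) * Real.log ((k : ℝ) + 1) = ((4 : ℕ) : ℝ) * Real.log ((k : ℝ) + 1) by norm_num,
          Real.exp_nat_mul, Real.exp_log hk0]
      rw [show 2 * (z - 2 * Real.log ((k : ℝ) + 1)) = 2 * z - 4 * Real.log ((k : ℝ) + 1) by ring, Real.exp_sub, h4]
      ring
    rw [h3]
    refine mul_le_mul_of_nonneg_left ?_ (Real.exp_pos _).le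
    exact one_div_le_one_div_of_le (by positivity) (pow_le_pow_right₀ hk (by norm_num))
  have h5 : Ψ (z - 2 * Real.log ((k : ℝ) + 1)) ≤ |C| * (Real.exp (2 * z) * (1 / ((k : ℝ) + 1) ^ 2)) :=
    ((hC _).trans (mul_le_mul_of_nonneg_right (le_abs_self C) (Real.exp_pos _).le)).trans
      (mul_le_mul_of_nonneg_left h2 (abs_nonneg C))
  have h6 : Ψ (z - 2 * Real.log ((k : ℝ) + 1)) / ((k : ℝ) + 1) ≤ Ψ (z - 2 * Real.log ((k : ℝ) + 1)) :=
    div_le_self (h.nonneg _) hk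
  push_cast
  linarith

theorem La_split (h : Cut Ψ) (z : ℝ) : La Ψ z = LL Ψ z + 1 / 2 * La Ψ (z - 2 * Real.log 2) := by
  have he : (fun k : ℕ => Ψ (z - 2 * Real.log (((2 * k : ℕ) : ℝ) + 1)) / (((2 * k : ℕ) : ℝ) + 1)) = ff Ψ z := by
    funext k
    unfold ff
    push_cast
    ring
  have ho : (fun k : ℕ => Ψ (z - 2 * Real.log (((2 * k + 1 : ℕ) : ℝ) + 1)) / (((2 * k + 1 : ℕ) : ℝ) + 1)) =
      fun k : ℕ => 1 / 2 * (Ψ (z - 2 * Real.log 2 - 2 * Real.log ((k : ℝ) + 1)) / ((k : ℝ) + 1)) := by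
    funext k
    have hk0 : (0 : ℝ) < (k : ℝ) + 1 := by positivity
    have h1 : (((2 * k + 1 : ℕ) : ℝ) + 1) = 2 * ((k : ℝ) + 1) := by push_cast; ring
    rw [h1, Real.log_mul (by norm_num) hk0.ne',
      show z - 2 * (Real.log 2 + Real.log ((k : ℝ) + 1)) = z - 2 * Real.log 2 - 2 * Real.log ((k : ℝ) + 1) by ring]
    field_simp
  have hse : Summable fun k : ℕ => Ψ (z - 2 * Real.log (((2 * k : ℕ) : ℝ) + 1)) / (((2 * k : ℕ) : ℝ) + 1) := by
    rw [he]; exact ff_summable h z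
  have hso : Summable fun k : ℕ => Ψ (z - 2 * Real.log (((2 * k + 1 : ℕ) : ℝ) + 1)) / (((2 * k + 1 : ℕ) : ℝ) + 1) := by
    rw [ho]; exact (La_summable h _).mul_left _
  have h1 := tsum_even_add_odd (f := fun k : ℕ => Ψ (z - 2 * Real.log ((k : ℝ) + 1)) / ((k : ℝ) + 1)) hse hso
  unfold La LL
  rw [← h1, he, ho, tsum_mul_left]

theorem LL_asymp (h : Cut Ψ) {c₀ C : ℝ} (hC : 0 ≤ C) (hL : ∀ z, |La Ψ z - (z / 2 + c₀)| ≤ C * Real.exp (-z / 8)) (z : ℝ) :
    |LL Ψ z - (z / 4 + (c₀ / 2 + Real.log 2 / 2))| ≤ 2 * C * Real.exp (-z / 8) := by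
  have h1 := La_split h z
  have h2 := abs_le.1 (hL z)
  have h3 := abs_le.1 (hL (z - 2 * Real.log 2))
  have h4 : Real.exp (-(z - 2 * Real.log 2) / 8) ≤ 2 * Real.exp (-z / 8) := by
    have h5 : Real.exp (-(z - 2 * Real.log 2) / 8) = Real.exp (-z / 8) * Real.exp (Real.log 2 / 4) := by
      rw [← Real.exp_add]; congr 1; ring
    have h6 : Real.exp (Real.log 2 / 4) ≤ 2 := by
      have h7 : Real.log 2 / 4 ≤ Real.log 2 := by
        have := Real.log_pos (by norm_num : (1 : ℝ) < 2)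
        linarith
      calc Real.exp (Real.log 2 / 4) ≤ Real.exp (Real.log 2) := Real.exp_le_exp.2 h7
        _ = 2 := Real.exp_log (by norm_num)
    rw [h5]
    nlinarith [Real.exp_pos (-z / 8)]
  have h8 : C * Real.exp (-(z - 2 * Real.log 2) / 8) ≤ C * (2 * Real.exp (-z / 8)) :=
    mul_le_mul_of_nonneg_left h4 hC
  rw [abs_le]
  constructor <;> nlinarith [h2.1, h2.2, h3.1, h3.2]

theorem S1 : Summable fun a : ℕ => |hh 1 a| / a * (a : ℝ) ^ (1 / 4 : ℝ) := by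
  refine Summable.of_nonneg_of_le (fun a => by positivity) (fun a => ?_)
    (Real.summable_nat_rpow.2 (by norm_num : (-(7 / 4) : ℝ) < -1))
  rcases Nat.eq_zero_or_pos a with rfl | ha
  · simp
  · have h0 : (0 : ℝ) < a := by exact_mod_cast ha
    have h1 : |hh 1 a| / a ≤ (a : ℝ) ^ (-2 : ℝ) := by
      calc |hh 1 a| / a ≤ (1 / a) / a := div_le_div_of_nonneg_right (hh_abs 1 a) h0.le
        _ = (a : ℝ) ^ (-2 : ℝ) := by
          rw [Real.rpow_neg h0.le, div_div, ← sq, one_div, ← Real.rpow_natCast]; norm_num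
    calc |hh 1 a| / a * (a : ℝ) ^ (1 / 4 : ℝ) ≤ (a : ℝ) ^ (-2 : ℝ) * (a : ℝ) ^ (1 / 4 : ℝ) :=
          mul_le_mul_of_nonneg_right h1 (by positivity)
      _ = (a : ℝ) ^ (-(7 / 4) : ℝ) := by rw [← Real.rpow_add h0]; norm_num

theorem S0 : Summable fun a : ℕ => hh 1 a / a := by
  refine Summable.of_norm ((hh_sum 1).congr fun a => ?_)
  rw [norm_div, Real.norm_eq_abs, Real.norm_natCast]

theorem S2 : Summable fun a : ℕ => hh 1 a / a * Real.log a := by
  refine Summable.of_norm_bounded (S1.mul_left 4) fun a => ?_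
  rw [norm_mul, norm_div, Real.norm_eq_abs, Real.norm_natCast, Real.norm_of_nonneg (Real.log_natCast_nonneg a)]
  have h1 := Real.log_le_rpow_div (Nat.cast_nonneg a : (0 : ℝ) ≤ a) (by norm_num : (0 : ℝ) < 1 / 4)
  have h2 : (0 : ℝ) ≤ |hh 1 a| / a := by positivity
  have h3 := mul_le_mul_of_nonneg_left h1 h2
  refine h3.trans (le_of_eq ?_)
  ring

end PI2

open PB PI2 in
theorem i2 : StI2 := by
  rintro Ψ h ⟨c₀, C, hC, hL⟩
  set d₀ : ℝ := c₀ / 2 + Real.log 2 / 2 with hd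
  refine ⟨∑' a : ℕ, (d₀ * (hh 1 a / a) - 1 / 2 * (hh 1 a / a * Real.log a)),
    2 * C * ∑' a : ℕ, |hh 1 a| / a * (a : ℝ) ^ (1 / 4 : ℝ), ?_, fun z => ?_⟩
  · exact mul_nonneg (by positivity) (tsum_nonneg fun a => by positivity)
  · have hg : gg 1 = 1 := by unfold gg; simp
    have h1 := Hm_eq h odd_one z
    have h2 := Gm_eq odd_one
    rw [hg, one_mul] at h1 h2
    have h3 : Gm 1 * (z / 2) = ∑' a : ℕ, z / 4 * (hh 1 a / a) := by
      have : Gm 1 * (z / 2) = z * (Gm 1 / 2) := by ring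
      rw [this, h2, ← tsum_mul_left]
      exact tsum_congr fun a => by ring
    have hsA : Summable fun a : ℕ => z / 4 * (hh 1 a / a) := S0.mul_left _
    have hsB : Summable fun a : ℕ => d₀ * (hh 1 a / a) - 1 / 2 * (hh 1 a / a * Real.log a) :=
      (S0.mul_left _).sub (S2.mul_left _)
    have hbd : ∀ a : ℕ, ‖hh 1 a / a * LL Ψ (z - 2 * Real.log a) -
        (z / 4 * (hh 1 a / a) + (d₀ * (hh 1 a / a) - 1 / 2 * (hh 1 a / a * Real.log a)))‖ ≤
        2 * C * Real.exp (-z / 8) * (|hh 1 a| / a * (a : ℝ) ^ (1 / 4 : ℝ)) := by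
      intro a
      have h4 : hh 1 a / a * LL Ψ (z - 2 * Real.log a) -
        (z / 4 * (hh 1 a / a) + (d₀ * (hh 1 a / a) - 1 / 2 * (hh 1 a / a * Real.log a))) =
        hh 1 a / a * (LL Ψ (z - 2 * Real.log a) - ((z - 2 * Real.log a) / 4 + d₀)) := by ring
      rw [h4, norm_mul, norm_div, Real.norm_eq_abs, Real.norm_natCast, Real.norm_eq_abs]
      rcases Nat.eq_zero_or_pos a with rfl | ha
      · simp
      · have h0 : (0 : ℝ) < a := by exact_mod_cast ha
        have h5 := LL_asymp h hC hL (z - 2 * Real.log a)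
        have h6 : Real.exp (-(z - 2 * Real.log a) / 8) = Real.exp (-z / 8) * (a : ℝ) ^ (1 / 4 : ℝ) := by
          rw [Real.rpow_def_of_pos h0, ← Real.exp_add]; congr 1; ring
        rw [h6] at h5
        have h7 : (0 : ℝ) ≤ |hh 1 a| / a := by positivity
        have h8 := mul_le_mul_of_nonneg_left h5 h7
        refine h8.trans (le_of_eq ?_)
        ring
    have hsD : Summable fun a : ℕ => hh 1 a / a * LL Ψ (z - 2 * Real.log a) -
        (z / 4 * (hh 1 a / a) + (d₀ * (hh 1 a / a) - 1 / 2 * (hh 1 a / a * Real.log a))) :=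
      Summable.of_norm_bounded (S1.mul_left _) hbd
    have hsC : Summable fun a : ℕ => hh 1 a / a * LL Ψ (z - 2 * Real.log a) := by
      have := hsD.add (hsA.add hsB)
      refine this.congr fun a => ?_
      ring
    have h9 : Hm Ψ 1 z - (Gm 1 * (z / 2) + ∑' a : ℕ, (d₀ * (hh 1 a / a) - 1 / 2 * (hh 1 a / a * Real.log a))) =
        ∑' a : ℕ, (hh 1 a / a * LL Ψ (z - 2 * Real.log a) -
        (z / 4 * (hh 1 a / a) + (d₀ * (hh 1 a / a) - 1 / 2 * (hh 1 a / a * Real.log a)))) := by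
      rw [hsC.tsum_sub (hsA.add hsB), hsA.tsum_add hsB, h1, h3]
    rw [h9]
    have h10 := tsum_of_norm_bounded (S1.mul_left (2 * C * Real.exp (-z / 8))).hasSum hbd
    rw [Real.norm_eq_abs, tsum_mul_left] at h10
    refine h10.trans (le_of_eq ?_)
    ring

end

end Pool.Agent.K4H95.LQ
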