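import Pool.Agent.K4H95.LQ.Spec3

/-!
# Piece I3: the sums `CS`: convergence, the base case and the functional equation
-/

set_option autoImplicit false

namespace Pool.Agent.K4H95.LQ

open Filter Topology Pool.Agent.H306R2.RG Pool.Agent.H306R2.RZ

noncomputable section

namespace I3

lemma pim_nonneg (p : ℕ) (x : ℝ) : 0 ≤ pim p x := by
  unfold pim
  split_ifs <;> positivity

lemma pim_le (p : ℕ) (x : ℝ) : pim p x ≤ 1 := by
  have h : (0:ℝ) ≤ p := Nat.cast_nonneg p
  unfold pim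
  split_ifs
  · rw [div_le_one (by positivity)]
    linarith
  · rw [div_le_one (by positivity)]
    linarith

lemma rho_abs (S : Finset ℕ) (a : ℕ → ℝ) (ha : Pat a) (N : ℕ) : |rho S a N| ≤ 1 := by
  unfold rho
  split_ifs
  · rw [abs_mul, Finset.abs_prod, Finset.abs_prod]
    refine mul_le_one₀ ?_ (Finset.prod_nonneg fun _ _ => abs_nonneg _) ?_
    · refine Finset.prod_le_one (fun _ _ => abs_nonneg _) fun p _ => ?_
      rw [abs_mul, abs_pow, abs_of_nonneg (pim_nonneg _ _)]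
      refine mul_le_one₀ (pim_le _ _) (by positivity) (pow_le_one₀ (abs_nonneg _) ?_)
      rcases ha p with h | h | h <;> rw [h] <;> simp
    · refine Finset.prod_le_one (fun _ _ => abs_nonneg _) fun p _ => ?_
      rw [abs_of_nonneg (by positivity), div_le_one (by positivity)]
      linarith
  · simp

lemma cut_exp {Ψ : ℝ → ℝ} (h : Cut Ψ) : ∃ C : ℝ, 0 ≤ C ∧ ∀ z, Ψ z ≤ C * Real.exp z := by
  obtain ⟨C, hC⟩ := h.decay
  refine ⟨max C 1, by positivity, fun z => ?_⟩
  rcases le_total z 0 with hz | hz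
  · refine (hC z).trans ?_
    have h1 : Real.exp (2 * z) ≤ Real.exp z := Real.exp_le_exp.2 (by linarith)
    calc C * Real.exp (2 * z) ≤ max C 1 * Real.exp (2 * z) := by
          gcongr
          exact le_max_left _ _
      _ ≤ _ := by gcongr
  · refine (h.le z).trans ?_
    have h1 : 1 ≤ Real.exp z := Real.one_le_exp hz
    have h2 : (1:ℝ) ≤ max C 1 := le_max_right _ _
    nlinarith

lemma term_le {Ψ : ℝ → ℝ} (h : Cut Ψ) {C : ℝ} (hC : 0 ≤ C) (hb : ∀ z, Ψ z ≤ C * Real.exp z) (S : Finset ℕ)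
    (a : ℕ → ℝ) (ha : Pat a) (z : ℝ) (n : ℕ) :
    |rho S a (n + 1) / √((n : ℝ) + 1) * Ψ (z - Real.log ((n : ℝ) + 1))| ≤
      C * Real.exp z * ((n : ℝ) + 1) ^ (-(3 / 2) : ℝ) := by
  have hn : (0:ℝ) < (n : ℝ) + 1 := by positivity
  have h1 : Ψ (z - Real.log ((n : ℝ) + 1)) ≤ C * Real.exp z * ((n : ℝ) + 1) ^ (-1 : ℝ) := by
    refine (hb _).trans (le_of_eq ?_)
    rw [Real.exp_sub, Real.exp_log hn, Real.rpow_neg_one]
    ring
  rw [abs_mul, abs_div, abs_of_nonneg (h.nonneg _), abs_of_nonneg (Real.sqrt_nonneg _)]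
  have h2 : |rho S a (n + 1)| / √((n : ℝ) + 1) ≤ ((n : ℝ) + 1) ^ (-(1 / 2) : ℝ) := by
    rw [Real.rpow_neg hn.le, ← Real.sqrt_eq_rpow, div_eq_mul_inv]
    have h3 := rho_abs S a ha (n + 1)
    have h4 : 0 ≤ (√((n : ℝ) + 1))⁻¹ := by positivity
    nlinarith
  calc _ ≤ ((n : ℝ) + 1) ^ (-(1 / 2) : ℝ) * (C * Real.exp z * ((n : ℝ) + 1) ^ (-1 : ℝ)) :=
        mul_le_mul h2 h1 (h.nonneg _) (by positivity)
    _ = C * Real.exp z * (((n : ℝ) + 1) ^ (-(1 / 2) : ℝ) * ((n : ℝ) + 1) ^ (-1 : ℝ)) := by ring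
    _ = _ := by
      rw [← Real.rpow_add hn]
      norm_num

lemma cs_sum {Ψ : ℝ → ℝ} (h : Cut Ψ) (S : Finset ℕ) (a : ℕ → ℝ) (ha : Pat a) (z : ℝ) :
    Summable fun n : ℕ => rho S a (n + 1) / √((n : ℝ) + 1) * Ψ (z - Real.log ((n : ℝ) + 1)) := by
  obtain ⟨C, hC, hb⟩ := cut_exp h
  refine Summable.of_norm_bounded ((sp (a := -(3 / 2)) (by norm_num)).mul_left (C * Real.exp z)) fun n => ?_
  rw [Real.norm_eq_abs]
  exact term_le h hC hb S a ha z n

lemma cs_bd {Ψ : ℝ → ℝ} (h : Cut Ψ) (S : Finset ℕ) (a : ℕ → ℝ) (ha : Pat a) :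
    ∃ B : ℝ, ∀ z, |CS Ψ S a z| ≤ B * Real.exp z := by
  obtain ⟨C, hC, hb⟩ := cut_exp h
  refine ⟨C * ∑' n : ℕ, ((n : ℝ) + 1) ^ (-(3 / 2) : ℝ), fun z => ?_⟩
  have h1 : HasSum (fun n : ℕ => C * Real.exp z * ((n : ℝ) + 1) ^ (-(3 / 2) : ℝ))
      (C * Real.exp z * ∑' n : ℕ, ((n : ℝ) + 1) ^ (-(3 / 2) : ℝ)) :=
    (sp (a := -(3 / 2)) (by norm_num)).hasSum.mul_left _
  have h2 := tsum_of_norm_bounded h1 fun n => by
    rw [Real.norm_eq_abs]
    exact term_le h hC hb S a ha z n
  rw [Real.norm_eq_abs] at h2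
  unfold CS
  refine h2.trans (le_of_eq ?_)
  ring

/-! ### the base case -/

lemma even_fact {N : ℕ} (hN : N ≠ 0) : (∀ p, p.Prime → Even (N.factorization p)) ↔ IsSquare N := by
  constructor
  · intro h
    refine ⟨N.factorization.prod fun p k => p ^ (k / 2), ?_⟩
    conv_lhs => rw [← Nat.prod_factorization_pow_eq_self hN]
    unfold Finsupp.prod
    rw [← Finset.prod_mul_distrib]
    refine Finset.prod_congr rfl fun p hp => ?_
    have hpp : p.Prime := Nat.prime_of_mem_primeFactors (by simpa using hp)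
    obtain ⟨k, hk⟩ := h p hpp
    rw [hk, ← pow_add]
    congr 1
    omega
  · rintro ⟨t, rfl⟩ p _
    have ht : t ≠ 0 := by
      rintro rfl
      simp at hN
    rw [Nat.factorization_mul ht ht]
    exact ⟨t.factorization p, rfl⟩

lemma rho_empty (a : ℕ → ℝ) {N : ℕ} (hN : N ≠ 0) :
    open Classical in rho ∅ a N = if Odd N ∧ IsSquare N then gg N else 0 := by
  classical
  have h : (∀ p, p.Prime → p ∉ (∅ : Finset ℕ) → Even (N.factorization p)) ↔ IsSquare N := by
    rw [← even_fact hN]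
    simp
  unfold rho gg
  by_cases h1 : Odd N ∧ IsSquare N
  · rw [if_pos h1, if_pos ⟨h1.1, h.2 h1.2⟩]
    simp
  · rw [if_neg h1, if_neg (fun h2 => h1 ⟨h2.1, h.1 h2.2⟩)]

lemma cs_empty (Ψ : ℝ → ℝ) (a : ℕ → ℝ) (z : ℝ) : CS Ψ ∅ a z = Hm Ψ 1 z := by
  classical
  have h1 := reidx (m₀ := 1) (m₁ := 1) squarefree_one (by decide)
    (fun N : ℕ => gg N / √(N : ℝ) * Ψ (z - Real.log (N : ℝ)))
  unfold CS Hm
  have e1 : ∀ n : ℕ, rho ∅ a (n + 1) / √((n : ℝ) + 1) * Ψ (z - Real.log ((n : ℝ) + 1)) =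
      if Odd ((n + 1) * (1 * 1 ^ 2)) ∧ IsSquare ((n + 1) * (1 * 1 ^ 2)) then
        gg (n + 1) / √(((n + 1 : ℕ) : ℝ)) * Ψ (z - Real.log ((n + 1 : ℕ) : ℝ)) else 0 := by
    intro n
    rw [rho_empty a (by omega)]
    simp only [one_pow, mul_one]
    push_cast
    split_ifs
    · rfl
    · simp
  rw [tsum_congr e1]
  refine h1.trans (tsum_congr fun i => ?_)
  have hi : (0:ℝ) < 2 * (i:ℝ) + 1 := by positivity
  have g1 : gg (1 * (2 * i + 1) ^ 2) = gg (1 * (2 * i + 1)) := by
    unfold gg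
    rw [one_mul, one_mul, Nat.primeFactors_pow _ (by norm_num)]
  rw [g1]
  push_cast
  simp only [one_mul]
  rw [Real.sqrt_sq hi.le, Real.log_pow]
  push_cast
  rfl

/-! ### the local factor of the coefficients -/

section loc

variable {S : Finset ℕ} {a : ℕ → ℝ} {p M : ℕ}

lemma fact_ne {q v : ℕ} (hp : p.Prime) (hM : M ≠ 0) (hq : q ≠ p) :
    (p ^ v * M).factorization q = M.factorization q := by
  rw [Nat.factorization_mul (pow_ne_zero v hp.ne_zero) hM, hp.factorization_pow]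
  simp [Finsupp.single_apply, Ne.symm hq]

lemma fact_eq {v : ℕ} (hp : p.Prime) (hM : M ≠ 0) (hpM : ¬ p ∣ M) : (p ^ v * M).factorization p = v := by
  rw [Nat.factorization_mul (pow_ne_zero v hp.ne_zero) hM, hp.factorization_pow]
  simp [Nat.factorization_eq_zero_of_not_dvd hpM]

lemma odd_iff {v : ℕ} (hp : p.Prime) (hp2 : p ≠ 2) : Odd (p ^ v * M) ↔ Odd M := by
  rw [Nat.odd_mul]
  exact ⟨fun h => h.2, fun h => ⟨(hp.odd_of_ne_two hp2).pow, h⟩⟩

lemma pf_eq {v : ℕ} (hp : p.Prime) (hM : M ≠ 0) :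
    (p ^ v * M).primeFactors = (if v = 0 then ∅ else {p}) ∪ M.primeFactors := by
  rw [Nat.primeFactors_mul (pow_ne_zero v hp.ne_zero) hM]
  split_ifs with h
  · rw [h, pow_zero, Nat.primeFactors_one]
  · rw [Nat.primeFactors_prime_pow h hp]

lemma rho_in {v : ℕ} (hS : p ∉ S) (hp : p.Prime) (hp2 : p ≠ 2) (hM : M ≠ 0) (hpM : ¬ p ∣ M) :
    rho (insert p S) a (p ^ v * M) = pim p (a p) * a p ^ v * rho S a M := by
  classical
  have hc : (Odd (p ^ v * M) ∧ ∀ q, q.Prime → q ∉ insert p S → Even ((p ^ v * M).factorization q)) ↔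
      (Odd M ∧ ∀ q, q.Prime → q ∉ S → Even (M.factorization q)) := by
    rw [odd_iff hp hp2]
    refine and_congr_right fun _ => forall_congr' fun q => imp_congr_right fun _ => ?_
    by_cases hqp : q = p
    · subst hqp
      simp [hS, Nat.factorization_eq_zero_of_not_dvd hpM]
    · rw [fact_ne hp hM hqp, Finset.mem_insert]
      simp [hqp]
  unfold rho
  by_cases h : Odd M ∧ ∀ q, q.Prime → q ∉ S → Even (M.factorization q)
  · rw [if_pos (hc.2 h), if_pos h, Finset.prod_insert hS, fact_eq hp hM hpM]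
    have e1 : ∏ q ∈ S, pim q (a q) * a q ^ (p ^ v * M).factorization q = ∏ q ∈ S, pim q (a q) * a q ^ M.factorization q := by
      refine Finset.prod_congr rfl fun q hq => ?_
      rw [fact_ne hp hM (by rintro rfl; exact hS hq)]
    have e2 : (p ^ v * M).primeFactors \ insert p S = M.primeFactors \ S := by
      rw [pf_eq hp hM]
      ext q
      simp only [Finset.mem_sdiff, Finset.mem_union, Finset.mem_insert]
      have : q = p → q ∉ M.primeFactors := by
        rintro rfl hq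
        exact hpM (Nat.dvd_of_mem_primeFactors hq)
      split_ifs
      · simp only [Finset.notMem_empty, false_or]
        tauto
      · simp only [Finset.mem_singleton]
        tauto
    rw [e1, e2]
    ring
  · rw [if_neg (fun h2 => h (hc.1 h2)), if_neg h, mul_zero]

lemma rho_out {v : ℕ} (hS : p ∉ S) (hp : p.Prime) (hp2 : p ≠ 2) (hM : M ≠ 0) (hpM : ¬ p ∣ M) :
    rho S a (p ^ v * M) = (if Even v then (if v = 0 then 1 else (p : ℝ) / ((p : ℝ) + 1)) else 0) * rho S a M := by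
  classical
  have hc : (Odd (p ^ v * M) ∧ ∀ q, q.Prime → q ∉ S → Even ((p ^ v * M).factorization q)) ↔
      (Even v ∧ (Odd M ∧ ∀ q, q.Prime → q ∉ S → Even (M.factorization q))) := by
    rw [odd_iff hp hp2]
    constructor
    · rintro ⟨h1, h2⟩
      refine ⟨?_, h1, fun q hq hqS => ?_⟩
      · have := h2 p hp hS
        rwa [fact_eq hp hM hpM] at this
      · by_cases hqp : q = p
        · subst hqp
          simp [Nat.factorization_eq_zero_of_not_dvd hpM]
        · have := h2 q hq hqS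
          rwa [fact_ne hp hM hqp] at this
    · rintro ⟨h0, h1, h2⟩
      refine ⟨h1, fun q hq hqS => ?_⟩
      by_cases hqp : q = p
      · subst hqp
        rwa [fact_eq hp hM hpM]
      · rw [fact_ne hp hM hqp]
        exact h2 q hq hqS
  unfold rho
  by_cases hv : Even v
  · rw [if_pos hv]
    by_cases h : Odd M ∧ ∀ q, q.Prime → q ∉ S → Even (M.factorization q)
    · rw [if_pos (hc.2 ⟨hv, h⟩), if_pos h]
      have e1 : ∏ q ∈ S, pim q (a q) * a q ^ (p ^ v * M).factorization q = ∏ q ∈ S, pim q (a q) * a q ^ M.factorization q := by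
        refine Finset.prod_congr rfl fun q hq => ?_
        rw [fact_ne hp hM (by rintro rfl; exact hS hq)]
      have e2 : ∏ q ∈ (p ^ v * M).primeFactors \ S, (q : ℝ) / ((q : ℝ) + 1) =
          (if v = 0 then 1 else (p : ℝ) / ((p : ℝ) + 1)) * ∏ q ∈ M.primeFactors \ S, (q : ℝ) / ((q : ℝ) + 1) := by
        rw [pf_eq hp hM]
        split_ifs with h0
        · simp
        · have : (({p} : Finset ℕ) ∪ M.primeFactors) \ S = insert p (M.primeFactors \ S) := by
            ext q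
            simp only [Finset.mem_sdiff, Finset.mem_union, Finset.mem_insert, Finset.mem_singleton]
            have : q = p → q ∉ S := by
              rintro rfl
              exact hS
            tauto
          rw [this, Finset.prod_insert]
          intro hcon
          exact hpM (Nat.dvd_of_mem_primeFactors (Finset.mem_sdiff.1 hcon).1)
      rw [e1, e2]
      ring
    · rw [if_neg (fun h2 => h (hc.1 h2).2), if_neg h, mul_zero]
  · rw [if_neg hv, if_neg (fun h2 => hv (hc.1 h2).1), zero_mul]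

/-- the coefficients -/
def cc (S : Finset ℕ) (a : ℕ → ℝ) (n : ℕ) : ℝ := rho S a n / √(n : ℝ)

/-- dilation -/
def dil (q : ℕ) (c : ℕ → ℝ) (n : ℕ) : ℝ := if q ∣ n then c (n / q) else 0

lemma dil_mul {q n : ℕ} (hq : 0 < q) (c : ℕ → ℝ) : dil q c (q * n) = c n := by
  unfold dil
  rw [if_pos (Dvd.intro n rfl), Nat.mul_div_cancel_left n hq]

lemma dil_not {q n : ℕ} (h : ¬ q ∣ n) (c : ℕ → ℝ) : dil q c n = 0 := by
  unfold dil
  rw [if_neg h]

lemma sqrt_pm (v : ℕ) : √((p ^ v * M : ℕ) : ℝ) = √(p : ℝ) ^ v * √(M : ℝ) := by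
  push_cast
  rw [Real.sqrt_mul (by positivity)]
  congr 1
  rw [Real.sqrt_eq_iff_mul_self_eq (by positivity) (by positivity), ← mul_pow, Real.mul_self_sqrt (Nat.cast_nonneg p)]

lemma coef (hS : p ∉ S) (hp : p.Prime) (hp2 : p ≠ 2) (ha : a p = 0 ∨ a p = 1 ∨ a p = -1) {n : ℕ} (hn : n ≠ 0) :
    cc (insert p S) a n - 1 / ((p : ℝ) * ((p : ℝ) + 1)) * dil (p ^ 2) (cc (insert p S) a) n =
      pim p (a p) * (if a p = 0 then cc S a n - 1 / (p : ℝ) * dil (p ^ 2) (cc S a) n
        else cc S a n + a p / √(p : ℝ) * dil p (cc S a) n) := by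
  obtain ⟨v, M, hpM, rfl⟩ := Nat.exists_eq_pow_mul_and_not_dvd hn p hp.ne_one
  have hM : M ≠ 0 := by
    rintro rfl
    simp at hn
  have hp0 : (0:ℝ) < p := by exact_mod_cast hp.pos
  have hs : 0 < √(p : ℝ) := Real.sqrt_pos.2 hp0
  have hss : √(p : ℝ) ^ 2 = p := Real.sq_sqrt hp0.le
  have hin : ∀ v, cc (insert p S) a (p ^ v * M) = pim p (a p) * a p ^ v / √(p : ℝ) ^ v * (rho S a M / √(M : ℝ)) := by
    intro v
    unfold cc
    rw [rho_in hS hp hp2 hM hpM, sqrt_pm]
    ring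
  have hout : ∀ v, cc S a (p ^ v * M) = (if Even v then (if v = 0 then 1 else (p : ℝ) / ((p : ℝ) + 1)) else 0) /
      √(p : ℝ) ^ v * (rho S a M / √(M : ℝ)) := by
    intro v
    unfold cc
    rw [rho_out hS hp hp2 hM hpM, sqrt_pm]
    ring
  set R := rho S a M / √(M : ℝ) with hR
  set s := √(p : ℝ) with hsd
  rcases v with _ | _ | w
  · have h1 : ¬ p ^ 2 ∣ p ^ 0 * M := by
      intro h
      rw [pow_zero, one_mul] at h
      exact hpM ((dvd_pow_self p (by norm_num)).trans h)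
    have h2 : ¬ p ∣ p ^ 0 * M := by
      rwa [pow_zero, one_mul]
    rw [dil_not h1, dil_not h1, dil_not h2, hin, hout]
    simp
  · have h1 : ¬ p ^ 2 ∣ p ^ (0 + 1) * M := by
      intro h
      rw [zero_add, pow_one, pow_two] at h
      exact hpM (Nat.dvd_of_mul_dvd_mul_left hp.pos h)
    have h2 : p ^ (0 + 1) * M = p * (p ^ 0 * M) := by ring
    rw [dil_not h1, dil_not h1, hin, hout, h2, dil_mul hp.pos, hout]
    rcases ha with h | h | h <;> rw [h] <;> simp <;> ring
  · have h1 : p ^ (w + 1 + 1) * M = p ^ 2 * (p ^ w * M) := by ring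
    have h2 : p ^ (w + 1 + 1) * M = p * (p ^ (w + 1) * M) := by ring
    have e1 : ∀ c : ℕ → ℝ, dil (p ^ 2) c (p ^ (w + 1 + 1) * M) = c (p ^ w * M) := by
      intro c
      rw [h1, dil_mul (pow_pos hp.pos 2)]
    have e2 : ∀ c : ℕ → ℝ, dil p c (p ^ (w + 1 + 1) * M) = c (p ^ (w + 1) * M) := by
      intro c
      rw [h2, dil_mul hp.pos]
    rw [e1, e1, e2, hin, hin, hout, hout, hout]
    have hp1 : (p : ℝ) + 1 ≠ 0 := by positivity
    have hps : (p : ℝ) = s ^ 2 := hss.symm
    have hev : Even (w + 1 + 1) ↔ Even w := by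
      rw [Nat.even_add_one, Nat.even_add_one, not_not]
    have hod : Even (w + 1) ↔ ¬ Even w := Nat.even_add_one
    rw [hps] at hp1 ⊢
    rcases ha with h | h | h
    · rw [if_pos h, h]
      rcases Nat.eq_zero_or_pos w with hw | hw
      · subst hw
        simp
        field_simp
        ring
      · rw [zero_pow (by omega), zero_pow hw.ne']
        by_cases hw2 : Even w
        · rw [if_pos (hev.2 hw2), if_pos hw2, if_neg (by omega), if_neg hw.ne']
          field_simp
          ring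
        · rw [if_neg (fun hh => hw2 (hev.1 hh)), if_neg hw2]
          simp
    · rw [if_neg (by rw [h]; norm_num), h]
      by_cases hw2 : Even w
      · rw [if_pos (hev.2 hw2), if_neg (by omega), if_neg (fun hh => (hod.1 hh) hw2)]
        simp only [one_pow]
        field_simp
        ring
      · rw [if_neg (fun hh => hw2 (hev.1 hh)), if_pos (hod.2 hw2), if_neg (by omega)]
        simp only [one_pow]
        field_simp
        ring
    · rw [if_neg (by rw [h]; norm_num), h]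
      by_cases hw2 : Even w
      · rw [if_pos (hev.2 hw2), if_neg (by omega), if_neg (fun hh => (hod.1 hh) hw2)]
        rw [(hev.2 hw2).neg_one_pow, hw2.neg_one_pow]
        field_simp
        ring
      · rw [if_neg (fun hh => hw2 (hev.1 hh)), if_pos (hod.2 hw2), if_neg (by omega)]
        have ho : Odd w := Nat.not_even_iff_odd.1 hw2
        have ho2 : Odd (w + 1 + 1) := Nat.not_even_iff_odd.1 (fun hh => hw2 (hev.1 hh))
        rw [ho.neg_one_pow, ho2.neg_one_pow]
        field_simp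
        ring

end loc

lemma cc_hasSum {Ψ : ℝ → ℝ} (h : Cut Ψ) (S : Finset ℕ) (a : ℕ → ℝ) (ha : Pat a) (z : ℝ) :
    HasSum (fun n : ℕ => cc S a (n + 1) * Ψ (z - Real.log ((n : ℝ) + 1))) (CS Ψ S a z) := by
  have h1 := (cs_sum h S a ha z).hasSum
  refine h1.congr_fun ?_
  intro n
  unfold cc
  push_cast
  rfl

lemma dil_hasSum {c : ℕ → ℝ} {Ψ : ℝ → ℝ} {z s : ℝ} {q : ℕ} (hq : 0 < q)
    (h : HasSum (fun n : ℕ => c (n + 1) * Ψ (z - Real.log q - Real.log ((n : ℝ) + 1))) s) :
    HasSum (fun n : ℕ => dil q c (n + 1) * Ψ (z - Real.log ((n : ℝ) + 1))) s := by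
  have hq' : (0:ℝ) < q := by exact_mod_cast hq
  set g : ℕ → ℕ := fun n => q * (n + 1) - 1 with hg
  have hg1 : ∀ n, g n + 1 = q * (n + 1) := by
    intro n
    have : 0 < q * (n + 1) := by positivity
    rw [hg]
    simp only
    omega
  have hinj : Function.Injective g := by
    intro i j hij
    have h2 : q * (i + 1) = q * (j + 1) := by rw [← hg1 i, ← hg1 j, hij]
    have h3 := Nat.eq_of_mul_eq_mul_left hq h2
    omega
  refine (hinj.hasSum_iff ?_).1 ?_
  · intro x hx
    rw [dil_not, zero_mul]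
    rintro ⟨k, hk⟩
    apply hx
    have hk0 : k ≠ 0 := by
      rintro rfl
      simp at hk
    refine ⟨k - 1, ?_⟩
    have h3 : k - 1 + 1 = k := by omega
    have h4 := hg1 (k - 1)
    rw [h3, ← hk] at h4
    omega
  · convert h using 2 with n
    simp only [Function.comp_apply]
    have e1 : ((g n : ℕ) : ℝ) + 1 = q * ((n : ℝ) + 1) := by
      have := hg1 n
      exact_mod_cast this
    rw [hg1, dil_mul hq, e1, Real.log_mul hq'.ne' (by positivity)]
    congr 2
    ring

end I3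

open I3 in
theorem i3 : StI3 := by
  intro Ψ hΨ S a hS ha
  refine ⟨fun z => cs_sum hΨ S a ha z, cs_bd hΨ S a ha, fun z => cs_empty Ψ a z, ?_⟩
  intro p hp hp2 hpS z
  have hp0 : (0:ℝ) < p := by exact_mod_cast hp.pos
  have hlog : Real.log ((p ^ 2 : ℕ) : ℝ) = 2 * Real.log p := by
    push_cast
    rw [Real.log_pow]
    push_cast
    rfl
  have h1 := cc_hasSum hΨ (insert p S) a ha z
  have h2 := dil_hasSum (c := cc (insert p S) a) (Ψ := Ψ) (z := z) (pow_pos hp.pos 2) (by
    rw [hlog]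
    exact cc_hasSum hΨ (insert p S) a ha (z - 2 * Real.log p))
  have h3 := cc_hasSum hΨ S a ha z
  have h4 := dil_hasSum (c := cc S a) (Ψ := Ψ) (z := z) (pow_pos hp.pos 2) (by
    rw [hlog]
    exact cc_hasSum hΨ S a ha (z - 2 * Real.log p))
  have h5 := dil_hasSum (c := cc S a) (Ψ := Ψ) (z := z) hp.pos (cc_hasSum hΨ S a ha (z - Real.log p))
  have hL := h1.sub (h2.mul_left (1 / ((p : ℝ) * ((p : ℝ) + 1))))
  refine hL.unique ?_
  by_cases h0 : a p = 0
  · rw [if_pos h0]
    refine ((h3.sub (h4.mul_left (1 / (p : ℝ)))).mul_left (pim p (a p))).congr_fun fun n => ?_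
    have := coef hpS hp hp2 (ha p) (n := n + 1) (by omega)
    rw [if_pos h0] at this
    linear_combination (Ψ (z - Real.log ((n : ℝ) + 1))) * this
  · rw [if_neg h0]
    refine ((h3.add (h5.mul_left (a p / √(p : ℝ)))).mul_left (pim p (a p))).congr_fun fun n => ?_
    have := coef hpS hp hp2 (ha p) (n := n + 1) (by omega)
    rw [if_neg h0] at this
    linear_combination (Ψ (z - Real.log ((n : ℝ) + 1))) * this

end

end Pool.Agent.K4H95.LQ
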