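import Pool.Agent.K4H95.LQ.Spec3

set_option autoImplicit false

/-! Piece I4. -/

namespace Pool.Agent.K4H95.LQ

open Filter Topology

noncomputable section

namespace I4

lemma rec_bd {e : ℝ → ℝ} {y t C q : ℝ} (hy : 0 ≤ y) (hq : q = y * Real.exp (t / 8)) (hq1 : q < 1)
    (hr : ∀ z, |e z - y * e (z - t)| ≤ C * Real.exp (-z / 8))
    (hl : ∀ z, Tendsto (fun J : ℕ => y ^ J * |e (z - J * t)|) atTop (𝓝 0)) (z : ℝ) :
    |e z| ≤ C / (1 - q) * Real.exp (-z / 8) := by
  have hq' : 0 < 1 - q := by linarith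
  have hq0 : 0 ≤ q := by rw [hq]; positivity
  have key : ∀ J : ℕ, |e z| ≤ C / (1 - q) * Real.exp (-z / 8) * (1 - q ^ J) + y ^ J * |e (z - J * t)| := by
    intro J
    induction J with
    | zero => simp
    | succ J ih =>
      have h1 := hr (z - J * t)
      have h2 : |e (z - J * t)| ≤ C * Real.exp (-(z - J * t) / 8) + y * |e (z - J * t - t)| := by
        have h3 := abs_sub_abs_le_abs_sub (e (z - J * t)) (y * e (z - J * t - t))
        rw [abs_mul, abs_of_nonneg hy] at h3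
        linarith
      have h4 : Real.exp (-(z - J * t) / 8) = Real.exp (-z / 8) * Real.exp (t / 8) ^ J := by
        rw [← Real.exp_nat_mul, ← Real.exp_add]
        congr 1
        ring
      have h5 : y ^ J * |e (z - J * t)| ≤
          C * Real.exp (-z / 8) * q ^ J + y ^ (J + 1) * |e (z - (J + 1 : ℕ) * t)| := by
        have h6 := mul_le_mul_of_nonneg_left h2 (pow_nonneg hy J)
        rw [h4] at h6
        have e1 : z - (J + 1 : ℕ) * t = z - J * t - t := by push_cast; ring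
        rw [e1, hq, mul_pow]
        calc y ^ J * |e (z - J * t)| ≤ _ := h6
          _ = _ := by ring
      have h7 : C / (1 - q) * Real.exp (-z / 8) * (1 - q ^ J) + C * Real.exp (-z / 8) * q ^ J =
          C / (1 - q) * Real.exp (-z / 8) * (1 - q ^ (J + 1)) := by
        field_simp
        ring
      linarith
  have hlim : Tendsto (fun J : ℕ => C / (1 - q) * Real.exp (-z / 8) * (1 - q ^ J) + y ^ J * |e (z - J * t)|) atTop
      (𝓝 (C / (1 - q) * Real.exp (-z / 8) * (1 - 0) + 0)) :=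
    ((tendsto_const_nhds.sub (tendsto_pow_atTop_nhds_zero_of_lt_one hq0 hq1)).const_mul _).add (hl z)
  have := ge_of_tendsto' hlim key
  simpa using this

lemma lim_aux {e : ℝ → ℝ} {y t a b B : ℝ} (hy : 0 ≤ y) (hy1 : y < 1) (ht : 0 ≤ t)
    (he : ∀ z, |e z| ≤ B * Real.exp z + (a * |z| + b)) (ha : 0 ≤ a) (hb : 0 ≤ b) (hB : 0 ≤ B) (z : ℝ) :
    Tendsto (fun J : ℕ => y ^ J * |e (z - J * t)|) atTop (𝓝 0) := by
  have h1 : Tendsto (fun J : ℕ => (B * Real.exp z + a * |z| + b) * y ^ J + a * t * ((J : ℝ) * y ^ J)) atTop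
      (𝓝 ((B * Real.exp z + a * |z| + b) * 0 + a * t * 0)) :=
    ((tendsto_pow_atTop_nhds_zero_of_lt_one hy hy1).const_mul _).add
      ((tendsto_self_mul_const_pow_of_lt_one hy hy1).const_mul _)
  rw [mul_zero, mul_zero, add_zero] at h1
  refine squeeze_zero (fun J => by positivity) (fun J => ?_) h1
  have h2 := he (z - J * t)
  have h3 : Real.exp (z - J * t) ≤ Real.exp z := Real.exp_le_exp.2 (by
    have : 0 ≤ (J : ℝ) * t := by positivity
    linarith)
  have h4 : |z - J * t| ≤ |z| + J * t := by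
    refine (abs_sub _ _).trans ?_
    rw [abs_of_nonneg (by positivity : 0 ≤ (J : ℝ) * t)]
  have h5 : |e (z - J * t)| ≤ B * Real.exp z + (a * (|z| + J * t) + b) := by
    refine h2.trans ?_
    gcongr
  calc y ^ J * |e (z - J * t)| ≤ y ^ J * (B * Real.exp z + (a * (|z| + J * t) + b)) := by gcongr
    _ = _ := by ring

/-- the common end of the three cases -/
lemma fin {P ℓ y π κ D lm : ℝ} (hP : 3 ≤ P) (hℓ : ℓ = Real.log P) (hy : y = 1 / (P * (P + 1)))
    (hπ0 : 0 ≤ π) (hπ : π ≤ 1 / 2) (hκ : 0 < κ) (hlm : lm = π * κ / (1 - y))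
    (hD : |D| ≤ κ * (5 / 2) / √P) {F R : ℝ → ℝ} {U V E B : ℝ} (hE : 0 ≤ E)
    (hF : ∀ z, |F z| ≤ B * Real.exp z) (hrec : ∀ z, F z - y * F (z - 2 * ℓ) = R z)
    (hR : ∀ z, |R z - π * (κ * (U * (z / 2) + V) + D * U * ℓ)| ≤ π * (2 * E) * Real.exp (-z / 8)) :
    ∃ V' : ℝ, |V' - lm * V| ≤ 3 * lm * |U| * (ℓ / √P) ∧
      ∀ z, |F z - (lm * U * (z / 2) + V')| ≤ 2 * E * Real.exp (-z / 8) := by
  have hP0 : 0 < P := by linarith
  have hℓ0 : 0 < ℓ := by rw [hℓ]; exact Real.log_pos (by linarith)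
  have hPP : 0 < P * (P + 1) := by positivity
  have hy0 : 0 < y := by rw [hy]; positivity
  have hyP : y * (P + 1) * P = 1 := by rw [hy]; field_simp
  have hy12 : y ≤ 1 / 12 := by
    rw [hy]
    refine one_div_le_one_div_of_le (by norm_num) ?_
    nlinarith
  have h1y : 0 < 1 - y := by linarith
  have hs0 : 0 < √P := Real.sqrt_pos.2 hP0
  have hss : √P * √P = P := Real.mul_self_sqrt hP0.le
  have hs1 : 1 ≤ √P := by
    rw [Real.one_le_sqrt]; linarith
  have hlm0 : 0 ≤ lm := by rw [hlm]; positivity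
  have hlm1 : lm * (1 - y) = π * κ := by rw [hlm]; field_simp
  set V' : ℝ := lm * V + (π * D * U * ℓ - y * lm * U * ℓ) / (1 - y) with hV'
  have hV1 : (1 - y) * V' = π * κ * V + π * D * U * ℓ - y * lm * U * ℓ := by
    rw [hV', mul_add, mul_div_cancel₀ _ h1y.ne', ← hlm1]
    ring
  refine ⟨V', ?_, fun z => ?_⟩
  · have e1 : V' - lm * V = (π * D * U * ℓ - y * lm * U * ℓ) / (1 - y) := by rw [hV']; ring
    rw [e1, abs_div, abs_of_pos h1y, div_le_iff₀ h1y]
    have a1 : |π * D * U * ℓ - y * lm * U * ℓ| ≤ π * |D| * |U| * ℓ + y * lm * |U| * ℓ := by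
      refine (abs_sub _ _).trans ?_
      rw [abs_mul, abs_mul, abs_mul, abs_mul, abs_mul, abs_mul, abs_of_nonneg hπ0, abs_of_pos hℓ0, abs_of_pos hy0,
        abs_of_nonneg hlm0]
    have a2 : π * |D| * |U| * ℓ ≤ lm * (1 - y) * (5 / 2) / √P * |U| * ℓ := by
      have : π * |D| ≤ lm * (1 - y) * (5 / 2) / √P := by
        calc π * |D| ≤ π * (κ * (5 / 2) / √P) := by gcongr
          _ = π * κ * (5 / 2) / √P := by ring
          _ = lm * (1 - y) * (5 / 2) / √P := by rw [hlm1]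
      gcongr
    have a3 : y ≤ (1 - y) * (1 / 2) / √P := by
      rw [le_div_iff₀ hs0]
      have b1 : √P ≤ P := by nlinarith
      have b2 : y * P ≤ 1 / 4 := by
        have : y * P * (P + 1) = 1 := by linarith
        nlinarith [mul_pos hy0 hP0]
      nlinarith
    have a4 : y * lm * |U| * ℓ ≤ (1 - y) * (1 / 2) / √P * lm * |U| * ℓ := by gcongr
    calc |π * D * U * ℓ - y * lm * U * ℓ| ≤ lm * (1 - y) * (5 / 2) / √P * |U| * ℓ +
          (1 - y) * (1 / 2) / √P * lm * |U| * ℓ := by linarith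
      _ = 3 * lm * |U| * (ℓ / √P) * (1 - y) := by ring
  · have hq : y * Real.exp (2 * ℓ / 8) ≤ 1 / 4 := by
      have c1 : Real.exp (2 * ℓ / 8) ≤ P := by
        rw [← Real.exp_log hP0, ← hℓ]
        refine Real.exp_le_exp.2 ?_
        linarith
      have : y * P * (P + 1) = 1 := by linarith
      have h2 : y * P ≤ 1 / 4 := by nlinarith [mul_pos hy0 hP0]
      calc y * Real.exp (2 * ℓ / 8) ≤ y * P := by gcongr
        _ ≤ 1 / 4 := h2
    have hr : ∀ z, |(F z - (lm * U * (z / 2) + V')) - y * (F (z - 2 * ℓ) - (lm * U * ((z - 2 * ℓ) / 2) + V'))| ≤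
        E * Real.exp (-z / 8) := by
      intro z
      have e1 : (F z - (lm * U * (z / 2) + V')) - y * (F (z - 2 * ℓ) - (lm * U * ((z - 2 * ℓ) / 2) + V')) =
          R z - π * (κ * (U * (z / 2) + V) + D * U * ℓ) := by
        rw [← hrec z]
        linear_combination (-(U * (z / 2))) * hlm1 - hV1
      rw [e1]
      refine (hR z).trans ?_
      have : π * (2 * E) ≤ E := by nlinarith
      gcongr
    have hl := lim_aux (e := fun z => F z - (lm * U * (z / 2) + V')) (y := y) (t := 2 * ℓ) (a := |lm * U / 2|)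
      (b := |V'|) (B := |B|) hy0.le (by linarith) (by positivity) (fun z => by
        refine (abs_sub _ _).trans ?_
        have d1 : |F z| ≤ |B| * Real.exp z := (hF z).trans (by
          have := Real.exp_pos z
          have := le_abs_self B
          gcongr)
        have d2 : |lm * U * (z / 2) + V'| ≤ |lm * U / 2| * |z| + |V'| := by
          refine (abs_add_le _ _).trans ?_
          rw [show lm * U * (z / 2) = lm * U / 2 * z by ring, abs_mul]
        linarith) (abs_nonneg _) (abs_nonneg _) (abs_nonneg _)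
    have h := rec_bd (e := fun z => F z - (lm * U * (z / 2) + V')) hy0.le rfl (lt_of_le_of_lt hq (by norm_num)) hr hl z
    refine h.trans ?_
    have g1 : E / (1 - y * Real.exp (2 * ℓ / 8)) ≤ 2 * E := by
      rw [div_le_iff₀ (by linarith)]
      nlinarith
    gcongr

end I4

theorem i4 : StI4 := by
  intro p x hp hp2 hx F G U V E B hE hF hrec hG
  have hp3 : 3 ≤ p := by
    have := hp.two_le
    omega
  have hP : (3:ℝ) ≤ p := by exact_mod_cast hp3
  have hP0 : (0:ℝ) < p := by linarith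
  obtain ⟨ℓ, hℓ⟩ : ∃ ℓ, ℓ = Real.log (p : ℝ) := ⟨_, rfl⟩
  have hℓ0 : 0 < ℓ := by rw [hℓ]; exact Real.log_pos (by linarith)
  have hs0 : 0 < √(p : ℝ) := Real.sqrt_pos.2 hP0
  have hss : √(p : ℝ) * √(p : ℝ) = p := Real.mul_self_sqrt hP0.le
  have hs17 : (17 / 10 : ℝ) ≤ √(p : ℝ) := by
    refine Real.le_sqrt_of_sq_le ?_
    nlinarith
  have hexp : Real.exp ℓ = p := by rw [hℓ]; exact Real.exp_log hP0
  have hexs : Real.exp (ℓ / 2) = √(p : ℝ) := by
    rw [← hexp]
    refine (Real.sqrt_eq_iff_mul_self_eq (Real.exp_pos _).le (Real.exp_pos _).le).2 ?_ |>.symm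
    rw [← Real.exp_add]
    congr 1
    ring
  simp only [← hℓ] at hrec ⊢
  have hg : ∀ z w c : ℝ, 0 ≤ w → c * Real.exp (w / 8) ≤ 1 → 0 ≤ c →
      c * |G (z - w) - (U * ((z - w) / 2) + V)| ≤ E * Real.exp (-z / 8) := by
    intro z w c hw hc hc0
    calc c * |G (z - w) - (U * ((z - w) / 2) + V)| ≤ c * (E * Real.exp (-(z - w) / 8)) := by
          gcongr; exact hG _
      _ = c * Real.exp (w / 8) * (E * Real.exp (-z / 8)) := by
          rw [show -(z - w) / 8 = w / 8 + -z / 8 by ring, Real.exp_add]; ring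
      _ ≤ 1 * (E * Real.exp (-z / 8)) := by
          have := Real.exp_pos (-z / 8)
          gcongr
      _ = _ := one_mul _
  by_cases hx0 : x = 0
  · subst hx0
    refine I4.fin (D := 1 / (p:ℝ)) (κ := 1 - 1 / (p:ℝ)) (π := 1 / ((p:ℝ) + 1)) hP hℓ rfl (by positivity) ?_ ?_ ?_ ?_
      hE hF hrec fun z => ?_
    · rw [div_le_div_iff₀ (by positivity) (by norm_num)]; linarith
    · have : 1 / (p:ℝ) ≤ 1 / 3 := one_div_le_one_div_of_le (by norm_num) hP
      linarith
    · unfold lam pim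
      rw [if_pos rfl, zero_div, sub_zero, div_one]
    · rw [abs_of_pos (by positivity), le_div_iff₀ hs0]
      have h1 : 1 / (p:ℝ) ≤ 1 / 3 := one_div_le_one_div_of_le (by norm_num) hP
      have h2 : 1 / (p:ℝ) * √(p:ℝ) ≤ 1 := by
        rw [one_div, inv_mul_le_iff₀ hP0]
        nlinarith
      nlinarith
    · have e1 : pim p 0 = 1 / ((p:ℝ) + 1) := by unfold pim; rw [if_pos rfl]
      rw [if_pos rfl, e1, ← mul_sub, abs_mul, abs_of_pos (by positivity : (0:ℝ) < 1 / ((p:ℝ) + 1)),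
        mul_assoc (1 / ((p:ℝ) + 1)) (2 * E)]
      refine mul_le_mul_of_nonneg_left ?_ (by positivity)
      have h1 := hg z 0 1 (le_refl (0:ℝ)) (by simp) (by norm_num)
      have h2 := hg z (2 * ℓ) (1 / (p:ℝ)) (by positivity) (by
        rw [one_div, inv_mul_le_iff₀ hP0, mul_one, ← hexp]
        exact Real.exp_le_exp.2 (by linarith)) (by positivity)
      rw [sub_zero, one_mul] at h1
      have e2 : G z - 1 / (p:ℝ) * G (z - 2 * ℓ) - ((1 - 1 / (p:ℝ)) * (U * (z / 2) + V) + 1 / (p:ℝ) * U * ℓ) =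
          (G z - (U * (z / 2) + V)) - 1 / (p:ℝ) * (G (z - 2 * ℓ) - (U * ((z - 2 * ℓ) / 2) + V)) := by ring
      rw [e2]
      refine (abs_sub _ _).trans ?_
      rw [abs_mul, abs_of_pos (by positivity : (0:ℝ) < 1 / (p:ℝ))]
      linarith
  · have hx1 : x = 1 ∨ x = -1 := by tauto
    have hxx : x * x = 1 := by rcases hx1 with h | h <;> rw [h] <;> norm_num
    have hxa : |x| = 1 := by rcases hx1 with h | h <;> rw [h] <;> norm_num
    have hxl : -1 ≤ x := by rcases hx1 with h | h <;> rw [h] <;> norm_num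
    have hxu : x ≤ 1 := by rcases hx1 with h | h <;> rw [h] <;> norm_num
    have e1 : pim p x = (p:ℝ) / (2 * ((p:ℝ) + 1)) := by unfold pim; rw [if_neg hx0]
    have hinv : 1 / √(p:ℝ) ≤ 10 / 17 := by
      rw [div_le_div_iff₀ hs0 (by norm_num)]; linarith
    have hinv0 : 0 < 1 / √(p:ℝ) := by positivity
    have hxs : |x / √(p:ℝ)| ≤ 10 / 17 := by
      rw [abs_div, hxa, abs_of_pos hs0]; exact hinv
    obtain ⟨hxs1, hxs2⟩ := abs_le.1 hxs
    refine I4.fin (D := -(x / (2 * √(p:ℝ)))) (κ := 1 + x / √(p:ℝ)) (π := (p:ℝ) / (2 * ((p:ℝ) + 1))) hP hℓ rfl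
      (by positivity) ?_ ?_ ?_ ?_ hE hF hrec fun z => ?_
    · rw [div_le_div_iff₀ (by positivity) (by norm_num)]; linarith
    · linarith
    · unfold lam
      rw [e1]
      have h1 : (1 - 1 / (p:ℝ)) = (1 + x / √(p:ℝ)) * (1 - x / √(p:ℝ)) := by
        have : (1 + x / √(p:ℝ)) * (1 - x / √(p:ℝ)) = 1 - (x * x) / (√(p:ℝ) * √(p:ℝ)) := by
          field_simp
          ring
        rw [this, hxx, hss]
      have h2 : 1 - x / √(p:ℝ) ≠ 0 := by linarith
      rw [h1, ← mul_assoc, mul_div_cancel_right₀ _ h2]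
    · rw [abs_neg, abs_div, hxa, abs_of_pos (by positivity), le_div_iff₀ hs0]
      have : 1 / (2 * √(p:ℝ)) * √(p:ℝ) = 1 / 2 := by field_simp
      rw [this]
      linarith
    · rw [if_neg hx0, e1, ← mul_sub, abs_mul, abs_of_pos (by positivity : (0:ℝ) < (p:ℝ) / (2 * ((p:ℝ) + 1))),
        mul_assoc ((p:ℝ) / (2 * ((p:ℝ) + 1))) (2 * E)]
      refine mul_le_mul_of_nonneg_left ?_ (by positivity)
      have h1 := hg z 0 1 (le_refl (0:ℝ)) (by simp) (by norm_num)
      have h2 := hg z ℓ (1 / √(p:ℝ)) hℓ0.le (by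
        rw [one_div, inv_mul_le_iff₀ hs0, mul_one, ← hexs]
        exact Real.exp_le_exp.2 (by linarith)) (by positivity)
      rw [sub_zero, one_mul] at h1
      have e2 : G z + x / √(p:ℝ) * G (z - ℓ) - ((1 + x / √(p:ℝ)) * (U * (z / 2) + V) + -(x / (2 * √(p:ℝ))) * U * ℓ) =
          (G z - (U * (z / 2) + V)) + x / √(p:ℝ) * (G (z - ℓ) - (U * ((z - ℓ) / 2) + V)) := by
        field_simp
        ring
      rw [e2]
      refine (abs_add_le _ _).trans ?_
      rw [abs_mul, abs_div, hxa, abs_of_pos hs0]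
      linarith

end

end Pool.Agent.K4H95.LQ
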