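import Pool.Agent.K4H95.LQ.Spec3

/-!
# Piece P1
-/

set_option autoImplicit false

namespace Pool.Agent.K4H95.LQ

open Filter Topology

noncomputable section

namespace PP1

theorem sum_log_le (Y : ℕ) (S : Finset ℕ) (hS : ∀ p ∈ S, p.Prime ∧ p ≤ Y) :
    ∑ p ∈ S, Real.log p ≤ Real.log 4 * Y := by
  have h1 := Chebyshev.theta_le_log4_mul_x (x := (Y : ℝ)) (by positivity)
  refine le_trans ?_ h1
  unfold Chebyshev.theta
  rw [Nat.floor_natCast]
  refine Finset.sum_le_sum_of_subset_of_nonneg ?_ ?_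
  · intro p hp
    obtain ⟨h2, h3⟩ := hS p hp
    rw [Finset.mem_filter, Finset.mem_Ioc]
    exact ⟨⟨h2.pos, h3⟩, h2⟩
  · intro p _ _
    exact Real.log_natCast_nonneg p

theorem main (Y : ℕ) : ∀ S : Finset ℕ, (∀ p ∈ S, p.Prime ∧ p ≤ Y) →
    ∑ p ∈ S, Real.log p / √(p : ℝ) ≤ 8 * √(Y : ℝ) := by
  induction Y using Nat.strong_induction_on with
  | _ Y ih =>
    intro S hS
    rcases Nat.eq_zero_or_pos Y with hY | hY
    · subst hY
      have : S = ∅ := by
        rw [Finset.eq_empty_iff_forall_notMem]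
        intro p hp
        obtain ⟨h1, h2⟩ := hS p hp
        have := h1.pos
        omega
      subst this
      simp
    · have hY0 : (0 : ℝ) < Y := by exact_mod_cast hY
      have hsY : 0 < √(Y : ℝ) := Real.sqrt_pos.2 hY0
      rw [← Finset.sum_filter_add_sum_filter_not S (fun p => p ≤ Y / 2)]
      have h1 : ∑ p ∈ S with p ≤ Y / 2, Real.log p / √(p : ℝ) ≤ 8 * √((Y / 2 : ℕ) : ℝ) := by
        refine ih (Y / 2) (by omega) _ fun p hp => ?_
        rw [Finset.mem_filter] at hp
        exact ⟨(hS p hp.1).1, hp.2⟩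
      have h1b : √((Y / 2 : ℕ) : ℝ) ≤ √(Y : ℝ) * (71 / 100) := by
        have h2 : ((Y / 2 : ℕ) : ℝ) ≤ (Y : ℝ) / 2 := by
          have := @Nat.cast_div_le ℝ _ _ _ Y 2
          simpa using this
        rw [Real.sqrt_le_left (by positivity), mul_pow, Real.sq_sqrt hY0.le]
        linarith
      have h2 : ∑ p ∈ S with ¬ p ≤ Y / 2, Real.log p / √(p : ℝ) ≤
          ∑ p ∈ S with ¬ p ≤ Y / 2, Real.log p * ((3 / 2) / √(Y : ℝ)) := by
        refine Finset.sum_le_sum fun p hp => ?_
        rw [Finset.mem_filter] at hp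
        obtain ⟨h3, h4⟩ := hp
        have h5 : (Y : ℝ) ≤ 2 * p := by
          have : Y ≤ 2 * p := by omega
          exact_mod_cast this
        have hp0 : (0 : ℝ) < p := by linarith
        rw [div_eq_mul_one_div]
        refine mul_le_mul_of_nonneg_left ?_ (Real.log_natCast_nonneg p)
        rw [div_le_div_iff₀ (Real.sqrt_pos.2 hp0) hsY, one_mul]
        rw [Real.sqrt_le_left (by positivity), mul_pow, Real.sq_sqrt hp0.le]
        linarith
      have h3 : ∑ p ∈ S with ¬ p ≤ Y / 2, Real.log p * ((3 / 2) / √(Y : ℝ)) ≤ (7 / 5 * Y) * ((3 / 2) / √(Y : ℝ)) := by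
        rw [← Finset.sum_mul]
        refine mul_le_mul_of_nonneg_right ?_ (by positivity)
        have h4 := sum_log_le Y (S.filter fun p => ¬ p ≤ Y / 2) fun p hp => hS p (Finset.mem_filter.1 hp).1
        refine h4.trans (mul_le_mul_of_nonneg_right ?_ hY0.le)
        have h5 : Real.log 4 = 2 * Real.log 2 := by
          rw [show (4 : ℝ) = 2 ^ 2 by norm_num, Real.log_pow]; norm_num
        have := Real.log_two_lt_d9
        rw [h5]; linarith
      have h6 : (7 / 5 * Y) * ((3 / 2) / √(Y : ℝ)) = 21 / 10 * √(Y : ℝ) := by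
        have : (Y : ℝ) = √(Y : ℝ) * √(Y : ℝ) := (Real.mul_self_sqrt hY0.le).symm
        field_simp
        nlinarith [this]
      nlinarith [h1, h1b, h2, h3, h6, hsY]

end PP1

theorem p1 : StP1 := ⟨8, by norm_num, fun Y S hS => PP1.main Y S hS⟩

end

end Pool.Agent.K4H95.LQ
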