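import Pool.Agent.K4H95.LQ.Spec3

/-!
# Piece I6
-/

set_option autoImplicit false

namespace Pool.Agent.K4H95.LQ

open Filter Topology

noncomputable section

namespace I6

theorem sum_Icc (f : ℕ → ℝ) (X : ℕ) : ∑ d ∈ Finset.Icc 1 X, f d = ∑ i ∈ Finset.range X, f (i + 1) := by
  induction X with
  | zero => simp
  | succ n ih => rw [Finset.sum_Icc_succ_top (by omega), ih, Finset.sum_range_succ]

theorem sum_log (X : ℕ) : ∑ i ∈ Finset.range X, Real.log ((i + 1 : ℕ) : ℝ) = Real.log (X.factorial) := by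
  induction X with
  | zero => simp
  | succ n ih =>
    rw [Finset.sum_range_succ, ih, Nat.factorial_succ, Nat.cast_mul, Real.log_mul, add_comm]
    · positivity
    · positivity

theorem log_fact_le (X : ℕ) : Real.log (X.factorial) ≤ X * Real.log X := by
  rw [← sum_log]
  calc ∑ i ∈ Finset.range X, Real.log ((i + 1 : ℕ) : ℝ) ≤ ∑ i ∈ Finset.range X, Real.log X := by
        refine Finset.sum_le_sum fun i hi => ?_
        have := Finset.mem_range.1 hi
        exact Real.log_le_log (by positivity) (by exact_mod_cast this)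
    _ = _ := by simp

theorem le_log_fact (X : ℕ) (hX : 1 ≤ X) : X * Real.log X - X ≤ Real.log (X.factorial) := by
  have h := Real.pow_div_factorial_le_exp (X : ℝ) (by positivity) X
  have hX0 : (0 : ℝ) < X := by exact_mod_cast hX
  have h2 := Real.log_le_log (by positivity) h
  rw [Real.log_exp, Real.log_div (by positivity) (by positivity), Real.log_pow] at h2
  linarith

/-- `Σ_{d ≤ X} d^{-1/16} ≤ 2 X^{15/16}` -/
theorem sum_rpow (X : ℕ) (hX : 1 ≤ X) :
    ∑ d ∈ Finset.Icc 1 X, (d : ℝ) ^ (-(1 / 16) : ℝ) ≤ 2 * (X : ℝ) ^ (15 / 16 : ℝ) := by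
  induction X, hX using Nat.le_induction with
  | base => norm_num
  | succ n hn ih =>
    rw [Finset.sum_Icc_succ_top (by omega)]
    refine (add_le_add_left ih _).trans ?_
    have hn0 : (0 : ℝ) < n := by exact_mod_cast hn
    have h1 : (n : ℝ) ^ (15 / 16 : ℝ) = n * (n : ℝ) ^ (-(1 / 16) : ℝ) := by
      rw [← Real.rpow_one_add' hn0.le (by norm_num)]
      norm_num
    have h2 : ((n + 1 : ℕ) : ℝ) ^ (15 / 16 : ℝ) =
        ((n + 1 : ℕ) : ℝ) * ((n + 1 : ℕ) : ℝ) ^ (-(1 / 16) : ℝ) := by
      rw [← Real.rpow_one_add' (by positivity) (by norm_num)]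
      norm_num
    rw [h1, h2]
    have h3 : (n : ℝ) ^ (-(1 / 16) : ℝ) =
        (1 + 1 / (n : ℝ)) ^ (1 / 16 : ℝ) * ((n + 1 : ℕ) : ℝ) ^ (-(1 / 16) : ℝ) := by
      have h4 : ((n + 1 : ℕ) : ℝ) = (1 + 1 / (n : ℝ)) * n := by
        push_cast
        field_simp
      rw [h4, Real.mul_rpow (by positivity) hn0.le, ← mul_assoc, ← Real.rpow_add (by positivity)]
      norm_num
    have h5 : (1 + 1 / (n : ℝ)) ^ (1 / 16 : ℝ) ≤ 1 + 1 / 16 * (1 / (n : ℝ)) :=
      _root_.rpow_one_add_le_one_add_mul_self (by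
        have : 0 ≤ 1 / (n : ℝ) := by positivity
        linarith) (by norm_num) (by norm_num)
    rw [h3]
    have h6 : 0 ≤ ((n + 1 : ℕ) : ℝ) ^ (-(1 / 16) : ℝ) := by positivity
    have h7 : 2 * (n * (1 + 1 / (n : ℝ)) ^ (1 / 16 : ℝ)) + 1 ≤ 2 * ((n + 1 : ℕ) : ℝ) := by
      have : (n : ℝ) * (1 + 1 / (n : ℝ)) ^ (1 / 16 : ℝ) ≤ n * (1 + 1 / 16 * (1 / (n : ℝ))) :=
        mul_le_mul_of_nonneg_left h5 hn0.le
      have h8 : (n : ℝ) * (1 + 1 / 16 * (1 / (n : ℝ))) = n + 1 / 16 := by field_simp
      push_cast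
      linarith
    nlinarith

/-- the eighth root of two -/
def w : ℝ := Real.exp (Real.log 2 / 8)

theorem w_pos : 0 < w := Real.exp_pos _

theorem w_pow8 : w ^ 8 = 2 := by
  rw [w, ← Real.exp_nat_mul]
  push_cast
  rw [mul_div_cancel₀ _ (by norm_num : (8 : ℝ) ≠ 0), Real.exp_log (by norm_num)]

theorem w_div : w / √2 ≤ 4 / 5 := by
  have h1 : (w / √2) ^ 8 ≤ (4 / 5) ^ 8 := by
    rw [div_pow, w_pow8]
    have : (√2 : ℝ) ^ 8 = 16 := by
      rw [show (8 : ℕ) = 2 * 4 by norm_num, pow_mul, Real.sq_sqrt (by norm_num)]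
      norm_num
    rw [this]
    norm_num
  exact le_of_pow_le_pow_left₀ (by norm_num) (by norm_num) h1

/-- the sum over `j` -/
theorem geo {q a b c : ℝ} (hq : |q| ≤ 1 / √2) {G : ℕ → ℝ} (hG : ∀ j : ℕ, |G j - (a - b * j)| ≤ c * w ^ j) :
    (Summable fun j : ℕ => q ^ j * G j) ∧
      |∑' j : ℕ, q ^ j * G j - (a / (1 - q) - b * (q / (1 - q) ^ 2))| ≤ 5 * c := by
  have h2 : (1 : ℝ) < √2 := by
    rw [Real.lt_sqrt (by norm_num)]
    norm_num
  have hq1 : ‖q‖ < 1 := by
    rw [Real.norm_eq_abs]
    refine hq.trans_lt ?_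
    rw [div_lt_one (by positivity)]
    exact h2
  have hc : 0 ≤ c := by
    have := (abs_nonneg _).trans (hG 0)
    simpa using this
  have hm : HasSum (fun j : ℕ => q ^ j * (a - b * j)) (a / (1 - q) - b * (q / (1 - q) ^ 2)) := by
    have h3 := (hasSum_geometric_of_norm_lt_one hq1).mul_left a
    have h4 := (hasSum_coe_mul_geometric_of_norm_lt_one hq1).mul_left b
    have h5 := h3.sub h4
    rw [← div_eq_mul_inv] at h5
    refine h5.congr_fun ?_ |> fun h => h
    intro j
    ring
  have hg : HasSum (fun j : ℕ => c * (4 / 5 : ℝ) ^ j) (5 * c) := by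
    have h3 := (hasSum_geometric_of_lt_one (r := (4 / 5 : ℝ)) (by norm_num) (by norm_num)).mul_left c
    have h4 : c * (1 - 4 / 5 : ℝ)⁻¹ = 5 * c := by norm_num; ring
    rwa [h4] at h3
  have he : ∀ j : ℕ, ‖q ^ j * (G j - (a - b * j))‖ ≤ c * (4 / 5 : ℝ) ^ j := by
    intro j
    rw [norm_mul, norm_pow, Real.norm_eq_abs, Real.norm_eq_abs]
    calc |q| ^ j * |G j - (a - b * j)| ≤ (1 / √2) ^ j * (c * w ^ j) :=
          mul_le_mul (pow_le_pow_left₀ (abs_nonneg _) hq j) (hG j) (abs_nonneg _) (by positivity)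
      _ = c * (w / √2) ^ j := by
          rw [div_pow, div_pow, one_pow]
          ring
      _ ≤ c * (4 / 5) ^ j := mul_le_mul_of_nonneg_left
          (pow_le_pow_left₀ (div_nonneg w_pos.le (by positivity)) w_div j) hc
  have hs : Summable fun j : ℕ => q ^ j * (G j - (a - b * j)) :=
    Summable.of_norm_bounded hg.summable he
  have hfun : (fun j : ℕ => q ^ j * G j) =
      fun j : ℕ => q ^ j * (a - b * j) + q ^ j * (G j - (a - b * j)) := by
    funext j
    ring
  constructor
  · rw [hfun]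
    exact hm.summable.add hs
  · rw [hfun, hm.summable.tsum_add hs, hm.tsum_eq, add_sub_cancel_left]
    exact tsum_of_norm_bounded hg he

end I6

theorem i6 : StI6 := by
  intro r hr
  have hlr : 0 ≤ Real.log r := Real.log_nonneg hr
  refine ⟨Real.log r + 30, by positivity, ?_⟩
  intro F U V E η hη hE hF X hX
  set q : ℝ := η / √2 with hqdef
  have h2 : (1 : ℝ) < √2 := by
    rw [Real.lt_sqrt (by norm_num)]
    norm_num
  have hq : |q| ≤ 1 / √2 := by
    rw [hqdef, abs_div, abs_of_pos (by positivity : (0 : ℝ) < √2)]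
    exact div_le_div_of_nonneg_right hη (by positivity)
  -- pointwise
  have hpt : ∀ d : ℕ, 1 ≤ d → ∀ j : ℕ, |F (Real.log (r * d) / 2 - j * Real.log 2) -
      ((U / 4 * (Real.log r + Real.log d) + V) - (U / 2 * Real.log 2) * j)| ≤
        E * (d : ℝ) ^ (-(1 / 16) : ℝ) * I6.w ^ j := by
    intro d hd j
    have hd0 : (0 : ℝ) < d := by exact_mod_cast hd
    have h3 := hF (Real.log (r * d) / 2 - j * Real.log 2)
    have h4 : U * ((Real.log (r * d) / 2 - j * Real.log 2) / 2) + V =
        (U / 4 * (Real.log r + Real.log d) + V) - (U / 2 * Real.log 2) * j := by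
      rw [Real.log_mul (by positivity) (by positivity)]
      ring
    rw [h4] at h3
    refine h3.trans ?_
    rw [mul_assoc]
    refine mul_le_mul_of_nonneg_left ?_ hE
    rw [Real.rpow_def_of_pos hd0, I6.w, ← Real.exp_nat_mul, ← Real.exp_add, Real.exp_le_exp,
      Real.log_mul (by positivity) (by positivity)]
    have : 0 ≤ Real.log r := hlr
    linarith
  constructor
  · intro d hd
    exact (I6.geo hq (hpt d (Finset.mem_Icc.1 hd).1)).1
  · have hX0 : (0 : ℝ) < X := by positivity
    set A : ℝ := U / 4 * (X * Real.log r + Real.log (X.factorial)) + V * X with hA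
    set B : ℝ := U / 2 * Real.log 2 * X with hB
    have hS : ∀ j : ℕ, |∑ d ∈ Finset.Icc 1 X, F (Real.log (r * d) / 2 - j * Real.log 2) - (A - B * j)| ≤
        (E * (2 * (X : ℝ) ^ (15 / 16 : ℝ))) * I6.w ^ j := by
      intro j
      have h3 : A - B * j = ∑ d ∈ Finset.Icc 1 X,
          ((U / 4 * (Real.log r + Real.log d) + V) - (U / 2 * Real.log 2) * j) := by
        rw [Finset.sum_sub_distrib, Finset.sum_add_distrib, ← Finset.mul_sum, Finset.sum_add_distrib,
          I6.sum_Icc (fun d => Real.log d), I6.sum_log]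
        simp only [Finset.sum_const, Nat.card_Icc, nsmul_eq_mul, Nat.add_sub_cancel]
        rw [hA, hB]
        ring
      rw [h3, ← Finset.sum_sub_distrib]
      refine (Finset.abs_sum_le_sum_abs _ _).trans ?_
      refine (Finset.sum_le_sum fun d hd => hpt d (Finset.mem_Icc.1 hd).1 j).trans ?_
      rw [← Finset.sum_mul, ← Finset.mul_sum]
      exact mul_le_mul_of_nonneg_right (mul_le_mul_of_nonneg_left (I6.sum_rpow X (by omega)) hE)
        (pow_nonneg I6.w_pos.le _)
    have h3 := (I6.geo hq hS).2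
    have hq34 : |q| ≤ 3 / 4 := by
      refine hq.trans ?_
      rw [div_le_iff₀ (by positivity)]
      have : (4 / 3 : ℝ) ≤ √2 := by
        rw [Real.le_sqrt (by norm_num) (by norm_num)]
        norm_num
      linarith
    have hq14 : 1 / 4 ≤ 1 - q := by
      have := (abs_le.1 hq34).2
      linarith
    have hq0 : 0 < 1 - q := by linarith
    have hinv : 1 / (1 - q) ≤ 4 := by
      rw [div_le_iff₀ hq0]
      linarith
    have h5 : |A / (1 - q) - B * (q / (1 - q) ^ 2) - U / (4 * (1 - q)) * (X * Real.log X)| ≤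
        (Real.log r + 20) * (X * (|U| + |V|)) := by
      have h6 : A / (1 - q) - B * (q / (1 - q) ^ 2) - U / (4 * (1 - q)) * (X * Real.log X) =
          (1 / (1 - q)) * (U / 4 * (X * Real.log r + (Real.log (X.factorial) - X * Real.log X)) + V * X) -
            (1 / (1 - q)) ^ 2 * (U / 2 * Real.log 2 * X * q) := by
        rw [hA, hB]
        field_simp
        ring
      have h7 : |Real.log (X.factorial) - X * Real.log X| ≤ X := by
        rw [abs_le]
        have := I6.log_fact_le X
        have := I6.le_log_fact X (by omega)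
        constructor <;> linarith
      have h8 : |U / 4 * (X * Real.log r + (Real.log (X.factorial) - X * Real.log X)) + V * X| ≤
          |U| / 4 * (X * Real.log r + X) + |V| * X := by
        refine (abs_add_le _ _).trans (add_le_add ?_ ?_)
        · rw [abs_mul, abs_div, abs_of_pos (by norm_num : (0 : ℝ) < 4)]
          refine mul_le_mul_of_nonneg_left ((abs_add_le _ _).trans (add_le_add ?_ h7)) (by positivity)
          rw [abs_of_nonneg (by positivity)]
        · rw [abs_mul, abs_of_pos hX0]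
      have hl2 : Real.log 2 ≤ 1 := by
        have := Real.log_two_lt_d9
        linarith
      have hl20 : 0 ≤ Real.log 2 := Real.log_nonneg (by norm_num)
      have h9 : |U / 2 * Real.log 2 * X * q| ≤ |U| / 2 * X := by
        rw [abs_mul, abs_mul, abs_mul, abs_div, abs_of_pos hX0, abs_of_nonneg hl20,
          abs_of_pos (by norm_num : (0 : ℝ) < 2)]
        have hU : 0 ≤ |U| / 2 * X := by positivity
        calc |U| / 2 * Real.log 2 * X * |q| = (|U| / 2 * X) * (Real.log 2 * |q|) := by ring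
          _ ≤ (|U| / 2 * X) * 1 := by
              refine mul_le_mul_of_nonneg_left ?_ hU
              have := abs_nonneg q
              nlinarith
          _ = _ := mul_one _
      rw [h6]
      have hi0 : 0 ≤ 1 / (1 - q) := by positivity
      have h10 : |(1 / (1 - q)) * (U / 4 * (X * Real.log r + (Real.log (X.factorial) - X * Real.log X)) + V * X) -
            (1 / (1 - q)) ^ 2 * (U / 2 * Real.log 2 * X * q)| ≤
          4 * (|U| / 4 * (X * Real.log r + X) + |V| * X) + 4 ^ 2 * (|U| / 2 * X) := by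
        refine (abs_sub _ _).trans (add_le_add ?_ ?_)
        · rw [abs_mul, abs_of_nonneg hi0]
          exact mul_le_mul hinv h8 (abs_nonneg _) (by norm_num)
        · rw [abs_mul, abs_of_nonneg (by positivity)]
          exact mul_le_mul (pow_le_pow_left₀ hi0 hinv 2) h9 (abs_nonneg _) (by norm_num)
      refine h10.trans ?_
      have hU := abs_nonneg U
      have hV := abs_nonneg V
      have e1 : 0 ≤ Real.log r * (X * |V|) := by positivity
      have e2 : 0 ≤ X * |V| := by positivity
      have e3 : 0 ≤ X * |U| := by positivity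
      nlinarith
    have h11 : |∑' j : ℕ, q ^ j * ∑ d ∈ Finset.Icc 1 X, F (Real.log (r * d) / 2 - j * Real.log 2) -
        U / (4 * (1 - q)) * (X * Real.log X)| ≤ 5 * (E * (2 * (X : ℝ) ^ (15 / 16 : ℝ))) +
          (Real.log r + 20) * (X * (|U| + |V|)) := by
      refine (abs_sub_le _ (A / (1 - q) - B * (q / (1 - q) ^ 2)) _).trans (add_le_add h3 h5)
    refine h11.trans ?_
    have e1 : 0 ≤ E * (X : ℝ) ^ (15 / 16 : ℝ) := by positivity
    have e2 : 0 ≤ X * (|U| + |V|) := by positivity
    nlinarith [mul_nonneg hlr e1]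

end

end Pool.Agent.K4H95.LQ
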