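import Pool.Agent.K4H95.LQ.Spec3

/-!
# Piece R1: the recursion for the arithmetic weight `rho` (helper75)
-/

set_option autoImplicit false

namespace Pool.Agent.K4H95.LQ

namespace R1x

/-- the condition in `rho` -/
def CN (S : Finset ℕ) (N : ℕ) : Prop := Odd N ∧ ∀ p, p.Prime → p ∉ S → Even (N.factorization p)

theorem rho_pos {S : Finset ℕ} {a : ℕ → ℝ} {N : ℕ} (h : CN S N) :
    rho S a N = (∏ p ∈ S, pim p (a p) * a p ^ (N.factorization p)) * ∏ p ∈ N.primeFactors \ S, (p : ℝ) / ((p : ℝ) + 1) := by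
  unfold rho
  exact if_pos h

theorem rho_neg {S : Finset ℕ} {a : ℕ → ℝ} {N : ℕ} (h : ¬ CN S N) : rho S a N = 0 := by
  unfold rho
  exact if_neg h

theorem fact_mul {p N : ℕ} (hp : p.Prime) (hN : N ≠ 0) (e q : ℕ) :
    (p ^ e * N).factorization q = (if q = p then e else 0) + N.factorization q := by
  rw [Nat.factorization_mul (pow_ne_zero _ hp.ne_zero) hN, hp.factorization_pow, Finsupp.add_apply, Finsupp.single_apply]
  congr 1
  by_cases h : p = q
  · rw [if_pos h, if_pos h.symm]
  · rw [if_neg h, if_neg (fun h' => h h'.symm)]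

theorem CN_mul {S : Finset ℕ} {p N : ℕ} (hp : p.Prime) (hp2 : p ≠ 2) (hpS : p ∉ S) (hN : N ≠ 0) (e : ℕ) :
    CN S (p ^ e * N) ↔ CN (insert p S) N ∧ Even (N.factorization p + e) := by
  unfold CN
  have hodd : Odd (p ^ e * N) ↔ Odd N := by
    rw [Nat.odd_mul]
    exact ⟨fun h => h.2, fun h => ⟨(hp.odd_of_ne_two hp2).pow, h⟩⟩
  rw [hodd]
  constructor
  · rintro ⟨h1, h2⟩
    refine ⟨⟨h1, fun q hq hqS => ?_⟩, ?_⟩
    · rw [Finset.mem_insert, not_or] at hqS
      have h3 := h2 q hq hqS.2
      rw [fact_mul hp hN, if_neg hqS.1, zero_add] at h3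
      exact h3
    · have h3 := h2 p hp hpS
      rw [fact_mul hp hN, if_pos rfl, add_comm] at h3
      exact h3
  · rintro ⟨⟨h1, h2⟩, h3⟩
    refine ⟨h1, fun q hq hqS => ?_⟩
    rw [fact_mul hp hN]
    by_cases h : q = p
    · subst h
      rw [if_pos rfl, add_comm]
      exact h3
    · rw [if_neg h, zero_add]
      exact h2 q hq (by rw [Finset.mem_insert, not_or]; exact ⟨h, hqS⟩)

/-- the product over `S` -/
noncomputable def PA (S : Finset ℕ) (a : ℕ → ℝ) (N : ℕ) : ℝ := ∏ p ∈ S, pim p (a p) * a p ^ (N.factorization p)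

/-- the product over the other prime factors -/
noncomputable def PB (S : Finset ℕ) (N : ℕ) : ℝ := ∏ p ∈ N.primeFactors \ S, (p : ℝ) / ((p : ℝ) + 1)

theorem PA_mul {S : Finset ℕ} (a : ℕ → ℝ) {p N : ℕ} (hp : p.Prime) (hpS : p ∉ S) (hN : N ≠ 0) (e : ℕ) :
    PA S a (p ^ e * N) = PA S a N := by
  unfold PA
  apply Finset.prod_congr rfl
  intro q hq
  have h : q ≠ p := fun h => hpS (h ▸ hq)
  rw [fact_mul hp hN, if_neg h, zero_add]

theorem PB_aux {S : Finset ℕ} {p : ℕ} (hpS : p ∉ S) (F : Finset ℕ) (hpF : p ∈ F) :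
    ∏ q ∈ F \ S, (q : ℝ) / ((q : ℝ) + 1) = (p : ℝ) / ((p : ℝ) + 1) * ∏ q ∈ F \ insert p S, (q : ℝ) / ((q : ℝ) + 1) := by
  have h1 : F \ S = insert p (F \ insert p S) := by
    ext q
    simp only [Finset.mem_sdiff, Finset.mem_insert, not_or]
    constructor
    · rintro ⟨h1, h2⟩
      by_cases h : q = p
      · left; exact h
      · right; exact ⟨h1, h, h2⟩
    · rintro (h | ⟨h1, h2, h3⟩)
      · rw [h]; exact ⟨hpF, hpS⟩
      · exact ⟨h1, h3⟩
  rw [h1, Finset.prod_insert]
  simp

theorem PB_mul {S : Finset ℕ} {p N : ℕ} (hp : p.Prime) (hpS : p ∉ S) (hN : N ≠ 0) {e : ℕ} (he : e ≠ 0) :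
    PB S (p ^ e * N) = (p : ℝ) / ((p : ℝ) + 1) * PB (insert p S) N := by
  unfold PB
  have h1 : (p ^ e * N).primeFactors = insert p N.primeFactors := by
    rw [Nat.primeFactors_mul (pow_ne_zero _ hp.ne_zero) hN, Nat.primeFactors_prime_pow he hp]
    rfl
  rw [h1, PB_aux hpS _ (Finset.mem_insert_self _ _)]
  congr 1
  apply Finset.prod_congr _ fun _ _ => rfl
  ext q
  simp only [Finset.mem_sdiff, Finset.mem_insert, not_or]
  constructor
  · rintro ⟨h1 | h1, h2, h3⟩
    · exact absurd h1 h2
    · exact ⟨h1, h2, h3⟩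
  · rintro ⟨h1, h2, h3⟩
    exact ⟨Or.inr h1, h2, h3⟩

theorem PB_self {S : Finset ℕ} {p N : ℕ} (hp : p.Prime) (hpS : p ∉ S) (hN : N ≠ 0) :
    PB S N = if N.factorization p = 0 then PB (insert p S) N else (p : ℝ) / ((p : ℝ) + 1) * PB (insert p S) N := by
  unfold PB
  by_cases h : N.factorization p = 0
  · rw [if_pos h]
    apply Finset.prod_congr _ fun _ _ => rfl
    have hpn : p ∉ N.primeFactors := by
      rw [← Nat.support_factorization, Finsupp.notMem_support_iff]
      exact h
    ext q
    simp only [Finset.mem_sdiff, Finset.mem_insert, not_or]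
    constructor
    · rintro ⟨h1, h2⟩
      exact ⟨h1, fun h' => hpn (h' ▸ h1), h2⟩
    · rintro ⟨h1, h2, h3⟩
      exact ⟨h1, h3⟩
  · rw [if_neg h]
    apply PB_aux hpS
    rw [← Nat.support_factorization, Finsupp.mem_support_iff]
    exact h

theorem rho_mul {S : Finset ℕ} (a : ℕ → ℝ) {p N : ℕ} (hp : p.Prime) (hpS : p ∉ S) (hN : N ≠ 0) {e : ℕ} (he : e ≠ 0)
    (h : CN S (p ^ e * N)) :
    rho S a (p ^ e * N) = PA S a N * ((p : ℝ) / ((p : ℝ) + 1) * PB (insert p S) N) := by
  rw [rho_pos h]
  change PA S a (p ^ e * N) * PB S (p ^ e * N) = _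
  rw [PA_mul a hp hpS hN, PB_mul hp hpS hN he]

theorem rho_ins {S : Finset ℕ} (a : ℕ → ℝ) {p N : ℕ} (hpS : p ∉ S) (h : CN (insert p S) N) :
    rho (insert p S) a N = pim p (a p) * a p ^ (N.factorization p) * PA S a N * PB (insert p S) N := by
  rw [rho_pos h, Finset.prod_insert hpS]
  rfl

theorem sq_iff {N : ℕ} (hN : N ≠ 0) : (∀ p, p.Prime → Even (N.factorization p)) ↔ IsSquare N := by
  constructor
  · intro h
    refine ⟨N.factorization.prod fun p e => p ^ (e / 2), ?_⟩
    conv_lhs => rw [← Nat.prod_factorization_pow_eq_self hN]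
    rw [← Finsupp.prod_mul]
    apply Finsupp.prod_congr
    intro p hp
    have hpp : p.Prime := Nat.prime_of_mem_primeFactors (by rwa [Nat.support_factorization] at hp)
    obtain ⟨k, hk⟩ := h p hpp
    rw [hk, ← pow_add]
    congr 1
    omega
  · rintro ⟨m, rfl⟩ p _
    have hm : m ≠ 0 := by
      rintro rfl
      exact hN rfl
    rw [Nat.factorization_mul hm hm, Finsupp.add_apply]
    exact ⟨_, rfl⟩

theorem r1 : StR1 := by
  intro S a hS ha N hN
  refine ⟨?_, ?_⟩
  · have hc : CN ∅ N ↔ (Odd N ∧ IsSquare N) := by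
      unfold CN
      rw [← sq_iff hN]
      constructor
      · rintro ⟨h1, h2⟩
        exact ⟨h1, fun p hp => h2 p hp (by simp)⟩
      · rintro ⟨h1, h2⟩
        exact ⟨h1, fun p hp _ => h2 p hp⟩
    by_cases h : Odd N ∧ IsSquare N
    · rw [if_pos h, rho_pos (hc.2 h)]
      simp [gg]
    · rw [if_neg h, rho_neg (fun h' => h (hc.1 h'))]
  · intro p hp hp2 hpS
    have hp0 : (p : ℝ) + 1 ≠ 0 := by positivity
    have hc2 := CN_mul (S := S) hp hp2 hpS hN 2
    have hc1 := CN_mul (S := S) hp hp2 hpS hN 1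
    have hc0 := CN_mul (S := S) hp hp2 hpS hN 0
    rw [pow_one] at hc1
    rw [pow_zero, one_mul, add_zero] at hc0
    have hr1 : CN S (p * N) → rho S a (p * N) = PA S a N * ((p : ℝ) / ((p : ℝ) + 1) * PB (insert p S) N) := by
      intro h
      have := rho_mul (S := S) a hp hpS hN (e := 1) one_ne_zero (by rwa [pow_one])
      rwa [pow_one] at this
    by_cases hP : CN (insert p S) N
    · rcases Nat.even_or_odd (N.factorization p) with hv | hv
      · have h2 : CN S (p ^ 2 * N) := hc2.2 ⟨hP, hv.add (by decide)⟩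
        have h1 : ¬ CN S (p * N) := fun h => by
          have := (hc1.1 h).2
          rw [Nat.even_add_one] at this
          exact this hv
        have h0 : CN S N := hc0.2 ⟨hP, hv⟩
        constructor
        · intro hap
          have hpow : a p ^ (N.factorization p) = 1 := by
            rcases ha p with h | h | h
            · exact absurd h hap
            · rw [h, one_pow]
            · rw [h, hv.neg_one_pow]
          rw [rho_ins a hpS hP, rho_mul a hp hpS hN two_ne_zero h2, rho_neg h1, hpow]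
          unfold pim
          rw [if_neg hap]
          field_simp
          ring
        · intro hap
          rw [rho_ins a hpS hP, rho_mul a hp hpS hN two_ne_zero h2, rho_pos h0]
          change _ = PA S a N * PB S N - _
          rw [PB_self hp hpS hN]
          unfold pim
          rw [if_pos hap, hap]
          by_cases hv0 : N.factorization p = 0
          · rw [if_pos hv0, hv0, pow_zero]
            field_simp
            ring
          · rw [if_neg hv0, zero_pow hv0]
            ring
      · have h2 : ¬ CN S (p ^ 2 * N) := fun h => by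
          have h3 := (hc2.1 h).2
          rw [Nat.even_add] at h3
          exact (Nat.not_even_iff_odd.2 hv) (h3.2 (by decide))
        have h1 : CN S (p * N) := hc1.2 ⟨hP, hv.add_one⟩
        have h0 : ¬ CN S N := fun h => (Nat.not_even_iff_odd.2 hv) (hc0.1 h).2
        constructor
        · intro hap
          have hpow : a p ^ (N.factorization p) = a p := by
            rcases ha p with h | h | h
            · exact absurd h hap
            · rw [h, one_pow]
            · rw [h, hv.neg_one_pow]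
          rw [rho_ins a hpS hP, rho_neg h2, hr1 h1, hpow]
          unfold pim
          rw [if_neg hap]
          field_simp
          ring
        · intro hap
          rw [rho_ins a hpS hP, rho_neg h2, rho_neg h0, hap, zero_pow (Nat.ne_of_gt hv.pos)]
          ring
    · have h2 : ¬ CN S (p ^ 2 * N) := fun h => hP (hc2.1 h).1
      have h1 : ¬ CN S (p * N) := fun h => hP (hc1.1 h).1
      have h0 : ¬ CN S N := fun h => hP (hc0.1 h).1
      rw [rho_neg hP, rho_neg h2, rho_neg h1, rho_neg h0]
      constructor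
      · intro _
        ring
      · intro _
        ring

end R1x

theorem r1 : StR1 := R1x.r1

end Pool.Agent.K4H95.LQ
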