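import Pool.Agent.K4H95.LQ.Sqf

/-!
# Sums of Jacobi symbols over the squarefree numbers of a class modulo 8: square moduli
-/

set_option autoImplicit false

namespace Pool.Agent.K4H95.LQ

open Finset

noncomputable section

lemma cnt_mod {r : ℕ} (hr : 0 < r) (v y : ℕ) :
    |(((Icc 1 y).filter (fun x => x ≡ v [MOD r])).card : ℝ) - y / r| ≤ 1 := by
  have h1 := Nat.Ioc_filter_modEq_card 0 y hr v
  have e0 : Icc 1 y = Ioc 0 y := by
    ext z
    simp [mem_Icc, mem_Ioc, Nat.succ_le_iff]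
  rw [e0]
  have hrQ : (0:ℚ) < r := by exact_mod_cast hr
  set A : ℚ := ((y : ℚ) - v) / r with hA
  set B : ℚ := (((0:ℕ) : ℚ) - v) / r with hB
  have hAB : A - B = y / r := by
    rw [hA, hB]
    push_cast
    field_simp
    ring
  have h2 : (((Ioc 0 y).filter (fun x => x ≡ v [MOD r])).card : ℚ) = ((max (⌊A⌋ - ⌊B⌋) 0 : ℤ) : ℚ) := by
    rw [← h1]
    push_cast
    rfl
  have hBA : B ≤ A := by
    have : 0 ≤ (y:ℚ) / r := by positivity
    linarith
  have hfl : ⌊B⌋ ≤ ⌊A⌋ := Int.floor_le_floor hBA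
  rw [max_eq_left (by omega)] at h2
  push_cast at h2
  have a1 := Int.floor_le A
  have a2 := Int.lt_floor_add_one A
  have b1 := Int.floor_le B
  have b2 := Int.lt_floor_add_one B
  have h3 : |(((Ioc 0 y).filter (fun x => x ≡ v [MOD r])).card : ℚ) - y / r| ≤ 1 := by
    rw [h2, ← hAB, abs_le]
    constructor <;> linarith
  have h4 : ((|(((Ioc 0 y).filter (fun x => x ≡ v [MOD r])).card : ℚ) - y / r| : ℚ) : ℝ) ≤ ((1:ℚ) : ℝ) := by
    exact_mod_cast h3
  push_cast at h4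
  exact h4

/-- numbers of a class modulo `8` divisible by an odd number -/
lemma cnt_dvd {c e : ℕ} (hc8 : c < 8) (he : Odd e) (y : ℕ) :
    |(((Icc 1 y).filter (fun b => b % 8 = c ∧ e ∣ b)).card : ℝ) - y / (8 * e)| ≤ 1 := by
  have hcop : Nat.Coprime 8 e := by
    have : Nat.Coprime 2 e := (Nat.coprime_two_left).2 he
    exact Nat.Coprime.pow_left 3 this
  obtain ⟨v, hv1, hv2⟩ := Nat.chineseRemainder hcop c 0
  have he0 : 0 < e := he.pos
  have h1 := cnt_mod (r := 8 * e) (by omega) v y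
  have e1 : (Icc 1 y).filter (fun b => b % 8 = c ∧ e ∣ b) = (Icc 1 y).filter (fun x => x ≡ v [MOD 8 * e]) := by
    refine Finset.filter_congr fun b _ => ?_
    rw [← Nat.modEq_and_modEq_iff_modEq_mul hcop]
    constructor
    · rintro ⟨h2, h3⟩
      refine ⟨?_, ?_⟩
      · refine Nat.ModEq.trans ?_ hv1.symm
        unfold Nat.ModEq
        rw [h2, Nat.mod_eq_of_lt hc8]
      · exact ((Nat.modEq_zero_iff_dvd).2 h3).trans hv2.symm
    · rintro ⟨h2, h3⟩
      refine ⟨?_, ?_⟩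
      · have := h2.trans hv1
        unfold Nat.ModEq at this
        rw [Nat.mod_eq_of_lt hc8] at this
        exact this
      · exact (Nat.modEq_zero_iff_dvd).1 (h3.trans hv2)
  rw [e1]
  push_cast at h1
  exact h1

/-- `∑_{e ∣ M} μ(e)/e` -/
def P1 (M : ℕ) : ℝ := ∑ e ∈ M.divisors, ((ArithmeticFunction.moebius e : ℤ) : ℝ) / e

lemma coprime_ind {M b : ℕ} (hM : M ≠ 0) (hb : b ≠ 0) : (if b.Coprime M then (1:ℝ) else 0) =
    ∑ e ∈ M.divisors, if e ∣ b then ((ArithmeticFunction.moebius e : ℤ) : ℝ) else 0 := by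
  have h1 : (∑ d ∈ (Nat.gcd b M).divisors, (ArithmeticFunction.moebius d : ℤ)) = if Nat.gcd b M = 1 then 1 else 0 := by
    have := congrArg (fun f => f (Nat.gcd b M)) ArithmeticFunction.moebius_mul_coe_zeta
    simp only [ArithmeticFunction.coe_mul_zeta_apply, ArithmeticFunction.one_apply] at this
    exact this
  have h2 : (∑ d ∈ (Nat.gcd b M).divisors, ((ArithmeticFunction.moebius d : ℤ) : ℝ)) = if Nat.gcd b M = 1 then 1 else 0 := by
    have := congrArg (fun z : ℤ => (z : ℝ)) h1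
    push_cast at this
    exact this
  have h3 : (Nat.gcd b M).divisors = M.divisors.filter (fun e => e ∣ b) := by
    ext e
    simp only [Nat.mem_divisors, mem_filter, Nat.dvd_gcd_iff, ne_eq, Nat.gcd_eq_zero_iff]
    constructor
    · rintro ⟨⟨h3, h4⟩, _⟩
      exact ⟨⟨h4, hM⟩, h3⟩
    · rintro ⟨⟨h3, _⟩, h4⟩
      exact ⟨⟨h4, h3⟩, fun h => hb h.1⟩
  rw [h3, sum_filter] at h2
  rw [h2]

lemma jr_square (b M : ℕ) (hM : M ≠ 0) : jr b (M ^ 2) = if b.Coprime M then 1 else 0 := by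
  have : NeZero M := ⟨hM⟩
  unfold jr
  rw [jacobiSym.pow_right]
  split_ifs with h
  · have h1 : (b : ℤ).gcd M = 1 := by rwa [Int.gcd_natCast_natCast]
    have h2 := jacobiSym.sq_one h1
    rw [h2]
    norm_num
  · have h1 : jacobiSym (b : ℤ) M = 0 := by
      rw [jacobiSym.eq_zero_iff_not_coprime, Int.gcd_natCast_natCast]
      exact h
    rw [h1]
    norm_num

/-- the sum over a class for a square modulus -/
lemma US_sq {c : ℕ} (hc8 : c < 8) {M : ℕ} (hM : Odd M) (y : ℕ) :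
    |US c (M ^ 2) y - y / 8 * P1 M| ≤ M.divisors.card := by
  have hM0 : M ≠ 0 := by rintro rfl; exact absurd hM (by decide)
  have h1 : US c (M ^ 2) y = ∑ e ∈ M.divisors, ((ArithmeticFunction.moebius e : ℤ) : ℝ) *
      (((Icc 1 y).filter (fun b => b % 8 = c ∧ e ∣ b)).card : ℝ) := by
    unfold US
    have h2 : ∀ b ∈ (Icc 1 y).filter (fun b => b % 8 = c), jr b (M ^ 2) =
        ∑ e ∈ M.divisors, if e ∣ b then ((ArithmeticFunction.moebius e : ℤ) : ℝ) else 0 := by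
      intro b hb
      rw [mem_filter, mem_Icc] at hb
      rw [jr_square b M hM0, coprime_ind hM0 (by omega)]
    rw [sum_congr rfl h2, sum_comm]
    refine sum_congr rfl fun e _ => ?_
    rw [← sum_filter, sum_const, nsmul_eq_mul, Finset.filter_filter]
    ring
  have h3 : y / 8 * P1 M = ∑ e ∈ M.divisors, ((ArithmeticFunction.moebius e : ℤ) : ℝ) * ((y : ℝ) / (8 * e)) := by
    unfold P1
    rw [mul_sum]
    refine sum_congr rfl fun e he => ?_
    have he0 : (e:ℝ) ≠ 0 := by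
      have := Nat.pos_of_mem_divisors he
      exact_mod_cast this.ne'
    field_simp
  rw [h1, h3, ← sum_sub_distrib]
  refine (abs_sum_le_sum_abs _ _).trans ?_
  have h4 : ∀ e ∈ M.divisors, |((ArithmeticFunction.moebius e : ℤ) : ℝ) *
      (((Icc 1 y).filter (fun b => b % 8 = c ∧ e ∣ b)).card : ℝ) - ((ArithmeticFunction.moebius e : ℤ) : ℝ) * ((y : ℝ) / (8 * e))| ≤ 1 := by
    intro e he
    rw [← mul_sub, abs_mul]
    have h5 : Odd e := hM.of_dvd_nat (Nat.dvd_of_mem_divisors he)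
    calc _ ≤ 1 * 1 := mul_le_mul (mu_abs e) (cnt_dvd hc8 h5 y) (abs_nonneg _) zero_le_one
      _ = 1 := one_mul 1
  refine (sum_le_sum h4).trans ?_
  simp

lemma P1_abs {M : ℕ} : |P1 M| ≤ M.divisors.card := by
  unfold P1
  refine (abs_sum_le_sum_abs _ _).trans ?_
  have h4 : ∀ e ∈ M.divisors, |((ArithmeticFunction.moebius e : ℤ) : ℝ) / e| ≤ 1 := by
    intro e he
    have he1 : (1:ℝ) ≤ e := by
      have := Nat.pos_of_mem_divisors he
      exact_mod_cast this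
    rw [abs_div, abs_of_pos (by linarith : (0:ℝ) < e), div_le_one (by linarith)]
    exact (mu_abs e).trans he1
  refine (sum_le_sum h4).trans ?_
  simp

/-- the sieve series -/
def p2 (M a : ℕ) : ℝ := if a.Coprime (2 * M) then ((ArithmeticFunction.moebius a : ℤ) : ℝ) / (a : ℝ) ^ 2 else 0

def P2 (M : ℕ) : ℝ := ∑' a : ℕ, p2 M a

lemma p2_abs (M a : ℕ) : |p2 M a| ≤ 1 / (a : ℝ) ^ 2 := by
  unfold p2
  split_ifs
  · rw [abs_div, abs_of_nonneg (by positivity : (0:ℝ) ≤ (a:ℝ) ^ 2)]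
    exact div_le_div_of_nonneg_right (mu_abs a) (by positivity)
  · rw [abs_zero]
    positivity

lemma p2_sum (M : ℕ) : Summable (p2 M) :=
  Summable.of_norm_bounded (Real.summable_one_div_nat_pow.mpr one_lt_two) fun a => p2_abs M a

lemma P2_tail (M R : ℕ) : |P2 M - ∑ a ∈ Icc 1 R, p2 M a| ≤ 2 / ((R : ℝ) + 1) := by
  have h0 : p2 M 0 = 0 := by
    unfold p2
    simp
  have h1 : ∑ a ∈ Icc 1 R, p2 M a = ∑ a ∈ range (R + 1), p2 M a := by
    rw [Finset.range_eq_Ico, Finset.sum_eq_sum_Ico_succ_bot (by omega), h0, zero_add]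
    refine sum_congr ?_ fun _ _ => rfl
    ext z
    simp [mem_Icc, mem_Ico, Nat.lt_succ_iff]
  have h2 := (p2_sum M).sum_add_tsum_nat_add (R + 1)
  have h3 : P2 M - ∑ a ∈ Icc 1 R, p2 M a = ∑' i : ℕ, p2 M (i + (R + 1)) := by
    rw [h1]
    unfold P2
    rw [← h2]
    ring
  rw [h3]
  have h4 : ∀ n : ℕ, ∑ i ∈ range n, |p2 M (i + (R + 1))| ≤ 2 / ((R : ℝ) + 1) := by
    intro n
    have h5 : ∑ i ∈ range n, |p2 M (i + (R + 1))| ≤ ∑ i ∈ Ioo R (R + 1 + n), (((i : ℕ) : ℝ) ^ 2)⁻¹ := by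
      have h6 : Ioo R (R + 1 + n) = Ico (R + 1) (R + 1 + n) := by
        ext z
        simp [mem_Ioo, mem_Ico, Nat.succ_le_iff]
      rw [h6, Finset.sum_Ico_eq_sum_range]
      rw [show R + 1 + n - (R + 1) = n by omega]
      refine sum_le_sum fun i _ => ?_
      refine (p2_abs M _).trans (le_of_eq ?_)
      rw [one_div, add_comm i]
    exact h5.trans (sum_Ioo_inv_sq_le _ _)
  have h7 : Summable fun i : ℕ => |p2 M (i + (R + 1))| :=
    summable_of_sum_range_le (fun _ => abs_nonneg _) h4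
  have h8 : ‖∑' i : ℕ, p2 M (i + (R + 1))‖ ≤ ∑' i : ℕ, |p2 M (i + (R + 1))| := norm_tsum_le_tsum_norm h7
  exact h8.trans (Real.tsum_le_of_sum_range_le (fun _ => abs_nonneg _) h4)

/-- **squares** -/
theorem SS_sq {c : ℕ} (hc : c % 2 = 1) (hc8 : c < 8) {M : ℕ} (hM : Odd M) (x : ℕ) :
    |SS c (M ^ 2) x - x / 8 * (P1 M * P2 M)| ≤ 3 * M.divisors.card * Real.sqrt x := by
  have hM0 : M ≠ 0 := by rintro rfl; exact absurd hM (by decide)
  set τ : ℝ := (M.divisors.card : ℝ) with hτ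
  have hτ0 : 0 ≤ τ := Nat.cast_nonneg _
  set R : ℕ := Nat.sqrt x with hR
  have hRx : (R:ℝ) ≤ Real.sqrt x := Real.nat_sqrt_le_real_sqrt
  have hRx2 : Real.sqrt x ≤ (R:ℝ) + 1 := (Real.real_sqrt_lt_nat_sqrt_succ).le
  have hRR : R ≤ x := Nat.sqrt_le_self x
  have h1 : SS c (M ^ 2) x = ∑ a ∈ Icc 1 R, (if a.Coprime (2 * M) then ((ArithmeticFunction.moebius a : ℤ) : ℝ) *
      US c (M ^ 2) (x / a ^ 2) else 0) := by
    rw [SS_eq hc]
    symm
    have h2 : ∀ a ∈ Icc 1 R, (if a.Coprime (2 * M) then ((ArithmeticFunction.moebius a : ℤ) : ℝ) *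
        US c (M ^ 2) (x / a ^ 2) else 0) = (if a % 2 = 1 then ((ArithmeticFunction.moebius a : ℤ) : ℝ) * jr (a ^ 2) (M ^ 2) *
        US c (M ^ 2) (x / a ^ 2) else 0) := by
      intro a _
      rw [jr_sq a _ (pow_ne_zero 2 hM0)]
      have e1 : a.Coprime (2 * M) ↔ a % 2 = 1 ∧ a.Coprime (M ^ 2) := by
        rw [Nat.coprime_mul_iff_right, Nat.coprime_two_right, Nat.odd_iff, Nat.coprime_pow_right_iff (by norm_num)]
      by_cases h3 : a % 2 = 1
      · by_cases h4 : a.Coprime (M ^ 2)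
        · rw [if_pos (e1.2 ⟨h3, h4⟩), if_pos h3, if_pos h4, mul_one]
        · rw [if_neg (fun h => h4 (e1.1 h).2), if_pos h3, if_neg h4]
          ring
      · rw [if_neg (fun h => h3 (e1.1 h).1), if_neg h3]
    rw [sum_congr rfl h2]
    refine sum_subset (Icc_subset_Icc_right hRR) fun a ha ha' => ?_
    rw [mem_Icc] at ha
    have h3 : x < a ^ 2 := by
      rw [mem_Icc] at ha'
      have : R < a := by omega
      rw [hR] at this
      rw [pow_two]
      exact Nat.sqrt_lt.1 this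
    rw [Nat.div_eq_of_lt h3]
    have h4 : US c (M ^ 2) 0 = 0 := by
      unfold US
      simp
    rw [h4]
    split_ifs <;> simp
  have h2 : |SS c (M ^ 2) x - x / 8 * P1 M * ∑ a ∈ Icc 1 R, p2 M a| ≤ 2 * τ * R := by
    rw [h1, mul_sum, ← sum_sub_distrib]
    refine (abs_sum_le_sum_abs _ _).trans ?_
    have h3 : ∀ a ∈ Icc 1 R, |(if a.Coprime (2 * M) then ((ArithmeticFunction.moebius a : ℤ) : ℝ) *
        US c (M ^ 2) (x / a ^ 2) else 0) - x / 8 * P1 M * p2 M a| ≤ 2 * τ := by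
      intro a ha
      rw [mem_Icc] at ha
      have ha1 : (1:ℝ) ≤ a := by exact_mod_cast ha.1
      unfold p2
      split_ifs
      · have e1 : ((ArithmeticFunction.moebius a : ℤ) : ℝ) * US c (M ^ 2) (x / a ^ 2) -
            x / 8 * P1 M * (((ArithmeticFunction.moebius a : ℤ) : ℝ) / (a:ℝ) ^ 2) =
            ((ArithmeticFunction.moebius a : ℤ) : ℝ) * ((US c (M ^ 2) (x / a ^ 2) - ((x / a ^ 2 : ℕ) : ℝ) / 8 * P1 M) +
              (((x / a ^ 2 : ℕ) : ℝ) - (x:ℝ) / (a:ℝ) ^ 2) / 8 * P1 M) := by ring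
        rw [e1, abs_mul]
        have b1 := US_sq (c := c) hc8 hM (x / a ^ 2)
        have b2 : |((x / a ^ 2 : ℕ) : ℝ) - (x:ℝ) / (a:ℝ) ^ 2| ≤ 1 := by
          have c1 : ((x / a ^ 2 : ℕ) : ℝ) ≤ (x:ℝ) / (a:ℝ) ^ 2 := by
            have := @Nat.cast_div_le ℝ _ _ _ x (a ^ 2)
            push_cast at this
            exact this
          have c2 : (x:ℝ) / (a:ℝ) ^ 2 < ((x / a ^ 2 : ℕ) : ℝ) + 1 := by
            have := Nat.lt_div_mul_add (a := x) (b := a ^ 2) (Nat.pow_pos (by have := ha.1; omega))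
            have h9 : (x:ℝ) < ((x / a ^ 2 : ℕ) : ℝ) * (a:ℝ) ^ 2 + (a:ℝ) ^ 2 := by exact_mod_cast this
            rw [div_lt_iff₀ (by positivity)]
            linarith
          rw [abs_le]
          constructor <;> linarith
        have b3 : |(((x / a ^ 2 : ℕ) : ℝ) - (x:ℝ) / (a:ℝ) ^ 2) / 8 * P1 M| ≤ τ := by
          rw [abs_mul, abs_div, abs_of_pos (by norm_num : (0:ℝ) < 8)]
          have := P1_abs (M := M)
          calc _ ≤ 1 / 8 * τ := by gcongr
            _ ≤ τ := by linarith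
        calc _ ≤ 1 * (τ + τ) := mul_le_mul (mu_abs a) ((abs_add_le _ _).trans (add_le_add b1 b3)) (abs_nonneg _) zero_le_one
          _ = _ := by ring
      · rw [mul_zero, sub_zero, abs_zero]
        positivity
    refine (sum_le_sum h3).trans ?_
    rw [sum_const, nsmul_eq_mul, Nat.card_Icc]
    apply le_of_eq
    push_cast [Nat.add_sub_cancel]
    ring
  have h3 := P2_tail M R
  have h4 : |x / 8 * P1 M * (P2 M - ∑ a ∈ Icc 1 R, p2 M a)| ≤ τ * Real.sqrt x := by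
    rw [abs_mul, abs_mul, abs_of_nonneg (by positivity : (0:ℝ) ≤ (x:ℝ) / 8)]
    have hs : Real.sqrt x * Real.sqrt x = x := Real.mul_self_sqrt (Nat.cast_nonneg _)
    have hs0 := Real.sqrt_nonneg (x:ℝ)
    have h5 : (x:ℝ) / 8 * |P1 M| * |P2 M - ∑ a ∈ Icc 1 R, p2 M a| ≤ (x:ℝ) / 8 * τ * (2 / ((R:ℝ) + 1)) := by
      gcongr
      exact P1_abs
    refine h5.trans ?_
    have hR1 : (0:ℝ) < (R:ℝ) + 1 := by positivity
    rw [mul_div_assoc', div_le_iff₀ hR1]
    calc (x:ℝ) / 8 * τ * 2 = τ * (Real.sqrt x * Real.sqrt x) / 4 := by rw [hs]; ring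
      _ ≤ τ * (Real.sqrt x * ((R:ℝ) + 1)) := by
        have : Real.sqrt x * Real.sqrt x ≤ Real.sqrt x * ((R:ℝ) + 1) := mul_le_mul_of_nonneg_left hRx2 hs0
        have h7 : 0 ≤ Real.sqrt x * Real.sqrt x := by positivity
        have h8 : τ * (Real.sqrt x * Real.sqrt x) ≤ τ * (Real.sqrt x * ((R:ℝ) + 1)) := mul_le_mul_of_nonneg_left this hτ0
        have h9 : 0 ≤ τ * (Real.sqrt x * Real.sqrt x) := by positivity
        linarith
      _ = _ := by ring
  have e1 : SS c (M ^ 2) x - x / 8 * (P1 M * P2 M) = (SS c (M ^ 2) x - x / 8 * P1 M * ∑ a ∈ Icc 1 R, p2 M a) -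
      x / 8 * P1 M * (P2 M - ∑ a ∈ Icc 1 R, p2 M a) := by ring
  rw [e1]
  refine (abs_sub _ _).trans ((add_le_add h2 h4).trans ?_)
  have : 2 * τ * R ≤ 2 * τ * Real.sqrt x := mul_le_mul_of_nonneg_left hRx (by positivity)
  linarith

end

end Pool.Agent.K4H95.LQ
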