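import Pool.Agent.K4H95.LQ.Spec
import Pool.Agent.K4H95.LQ.Sq2

/-!
# Character sums over a family
-/

set_option autoImplicit false

namespace Pool.Agent.K4H95.LQ

open Finset Pool.Agent.H306R2.RG Pool.Agent.H306R2.RZ

noncomputable section

/-- from `Pool.Agent.H730R2.AA.Euler` -/
theorem card_divisors_le (k : ℕ) : k.divisors.card ≤ 2 * Nat.sqrt k := by
  classical
  rcases Nat.eq_zero_or_pos k with rfl | hk
  · simp
  have h1 : k.divisors ⊆ (Finset.Icc 1 (Nat.sqrt k)) ∪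
      (Finset.Icc 1 (Nat.sqrt k)).image (fun d => k / d) := by
    intro d hd
    have hdk := Nat.dvd_of_mem_divisors hd
    have hd0 := Nat.pos_of_mem_divisors hd
    rw [Finset.mem_union]
    by_cases h : d ≤ Nat.sqrt k
    · left; rw [Finset.mem_Icc]; exact ⟨hd0, h⟩
    · right
      rw [Finset.mem_image]
      refine ⟨k / d, ?_, Nat.div_div_self hdk hk.ne'⟩
      rw [Finset.mem_Icc]
      constructor
      · exact Nat.div_pos (Nat.le_of_dvd hk hdk) hd0
      · by_contra hcon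
        push Not at h hcon
        have h2 : d * (k / d) = k := Nat.mul_div_cancel' hdk
        have h3 := Nat.lt_succ_sqrt k
        have h4 : (Nat.sqrt k + 1) * (Nat.sqrt k + 1) ≤ d * (k / d) := Nat.mul_le_mul h hcon
        rw [h2] at h4
        exact absurd h3 (not_lt.mpr h4)
  calc k.divisors.card ≤ ((Finset.Icc 1 (Nat.sqrt k)) ∪
      (Finset.Icc 1 (Nat.sqrt k)).image (fun d => k / d)).card := Finset.card_le_card h1
    _ ≤ (Finset.Icc 1 (Nat.sqrt k)).card +
      ((Finset.Icc 1 (Nat.sqrt k)).image (fun d => k / d)).card := Finset.card_union_le _ _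
    _ ≤ Nat.sqrt k + Nat.sqrt k := by
        apply add_le_add
        · simp
        · exact Finset.card_image_le.trans (by simp)
    _ = 2 * Nat.sqrt k := by ring

lemma card_div_le (k : ℕ) : ((k.divisors.card : ℕ) : ℝ) ≤ 2 * √(k : ℝ) := by
  have h1 : ((k.divisors.card : ℕ) : ℝ) ≤ 2 * (Nat.sqrt k : ℝ) := by exact_mod_cast card_divisors_le k
  have h2 : (Nat.sqrt k : ℝ) ≤ √(k : ℝ) := Real.nat_sqrt_le_real_sqrt
  linarith

lemma sum_classes (Cl : Finset ℕ) (f : ℕ → ℝ) (x : ℕ) :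
    ∑ c ∈ Cl, ∑ d ∈ (Icc 1 x).filter (fun d => d % 8 = c ∧ Squarefree d), f d =
      ∑ d ∈ (Icc 1 x).filter (fun d => d % 8 ∈ Cl ∧ Squarefree d), f d := by
  simp only [sum_filter]
  rw [sum_comm]
  refine sum_congr rfl fun d _ => ?_
  by_cases h : Squarefree d
  · simp only [h, and_true]
    rw [sum_ite_eq]
  · simp [h]

lemma sq_sf {d : ℕ} (h : Squarefree d) (h2 : IsSquare d) : d = 1 := by
  obtain ⟨a, rfl⟩ := h2
  have := h a dvd_rfl
  rw [Nat.isUnit_iff] at this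
  rw [this]

open Classical in
lemma fam_classes {φ : FD} (hφ : Fam φ) : ∃ (Cl : Finset ℕ) (κ : ℝ), (∀ c ∈ Cl, c % 2 = 1 ∧ c < 8) ∧
    (Cl.card : ℝ) = 8 * φ.δ ∧ |κ| ≤ 1 ∧ ∀ (f : ℕ → ℝ) (x : ℕ), 1 ≤ x →
      ∑ d ∈ (Icc 1 x).filter (fun d => φ.A d ∧ Squarefree d), f d =
        ∑ c ∈ Cl, ∑ d ∈ (Icc 1 x).filter (fun d => d % 8 = c ∧ Squarefree d), f d - κ * f 1 := by
  have key : ∀ (A : ℕ → Prop) (Cl : Finset ℕ), (∀ d, Squarefree d → (A d ↔ d % 8 ∈ Cl)) → ∀ (f : ℕ → ℝ) (x : ℕ), 1 ≤ x →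
      ∑ d ∈ (Icc 1 x).filter (fun d => A d ∧ Squarefree d), f d =
        ∑ c ∈ Cl, ∑ d ∈ (Icc 1 x).filter (fun d => d % 8 = c ∧ Squarefree d), f d - 0 * f 1 := by
    intro A Cl h f x _
    rw [sum_classes, zero_mul, sub_zero]
    refine sum_congr ?_ fun _ _ => rfl
    ext d
    simp only [mem_filter]
    constructor
    · rintro ⟨h1, h2, h3⟩
      exact ⟨h1, (h d h3).1 h2, h3⟩
    · rintro ⟨h1, h2, h3⟩
      exact ⟨h1, (h d h3).2 h2, h3⟩
  obtain ⟨ε, hε, hφ⟩ := hφ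
  rcases hφ with rfl | rfl | rfl | rfl
  · refine ⟨{1, 3, 5, 7}, 0, by decide, ?_, by simp, key _ _ fun d _ => ?_⟩
    · simp [F8]; norm_num
    · show Odd d ↔ _
      rw [Nat.odd_iff]
      simp only [mem_insert, mem_singleton]
      omega
  · rcases hε with rfl | rfl
    · refine ⟨{3, 7}, 0, by decide, ?_, by simp, key _ _ fun d _ => ?_⟩
      · simp [F4]; norm_num
      · show ((1 : ℤ) * (d : ℤ)) % 4 = 3 ↔ _
        simp only [mem_insert, mem_singleton]
        omega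
    · refine ⟨{1, 5}, 0, by decide, ?_, by simp, key _ _ fun d _ => ?_⟩
      · simp [F4]; norm_num
      · show ((-1 : ℤ) * (d : ℤ)) % 4 = 3 ↔ _
        simp only [mem_insert, mem_singleton]
        omega
  · rcases hε with rfl | rfl
    · refine ⟨{1}, 1, by decide, ?_, by simp, fun f x hx => ?_⟩
      · simp [F1]
      · rw [sum_classes]
        have h1 : (Icc 1 x).filter (fun d => d % 8 ∈ ({1} : Finset ℕ) ∧ Squarefree d) =
            insert 1 ((Icc 1 x).filter (fun d => (F1 1 1).A d ∧ Squarefree d)) := by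
          ext d
          simp only [mem_filter, mem_insert, mem_Icc, mem_singleton]
          constructor
          · rintro ⟨h1, h2, h3⟩
            by_cases h4 : d = 1
            · exact Or.inl h4
            · refine Or.inr ⟨h1, ⟨?_, ?_⟩, h3⟩
              · show ((1 : ℤ) * (d : ℤ)) % 8 = 1
                omega
              · show ¬ IsSquare ((1 : ℤ) * (d : ℤ))
                rw [one_mul]
                intro h5
                exact h4 (sq_sf h3 (Int.isSquare_natCast_iff.1 h5))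
          · rintro (h | ⟨h1, ⟨h2, _⟩, h3⟩)
            · subst h
              exact ⟨⟨le_rfl, hx⟩, by norm_num, squarefree_one⟩
            · have h2' : ((1 : ℤ) * (d : ℤ)) % 8 = 1 := h2
              exact ⟨h1, by omega, h3⟩
        rw [h1, sum_insert]
        · ring
        · simp only [mem_filter, mem_Icc, not_and]
          rintro _ ⟨_, h3⟩
          exact absurd (show IsSquare ((1 : ℤ) * ((1 : ℕ) : ℤ)) from ⟨1, by norm_num⟩) h3
    · refine ⟨{7}, 0, by decide, ?_, by simp, key _ _ fun d hd => ?_⟩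
      · simp [F1]
      · show (((-1 : ℤ) * (d : ℤ)) % 8 = 1 ∧ ¬ IsSquare ((-1 : ℤ) * (d : ℤ))) ↔ _
        simp only [mem_singleton]
        constructor
        · rintro ⟨h, _⟩
          omega
        · intro h
          refine ⟨by omega, ?_⟩
          rintro ⟨y, hy⟩
          have h1 : 0 ≤ y * y := mul_self_nonneg y
          have : 0 < d := Nat.pos_of_ne_zero hd.ne_zero
          omega
  · rcases hε with rfl | rfl
    · refine ⟨{5}, 0, by decide, ?_, by simp, key _ _ fun d hd => ?_⟩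
      · simp [F1]
      · show (((1 : ℤ) * (d : ℤ)) % 8 = 5 ∧ ¬ IsSquare ((1 : ℤ) * (d : ℤ))) ↔ _
        simp only [mem_singleton]
        constructor
        · rintro ⟨h, _⟩
          omega
        · intro h
          refine ⟨by omega, ?_⟩
          rw [one_mul]
          intro h5
          have := sq_sf hd (Int.isSquare_natCast_iff.1 h5)
          omega
    · refine ⟨{3}, 0, by decide, ?_, by simp, key _ _ fun d hd => ?_⟩
      · simp [F1]
      · show (((-1 : ℤ) * (d : ℤ)) % 8 = 5 ∧ ¬ IsSquare ((-1 : ℤ) * (d : ℤ))) ↔ _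
        simp only [mem_singleton]
        constructor
        · rintro ⟨h, _⟩
          omega
        · intro h
          refine ⟨by omega, ?_⟩
          rintro ⟨y, hy⟩
          have h1 : 0 ≤ y * y := mul_self_nonneg y
          have : 0 < d := Nat.pos_of_ne_zero hd.ne_zero
          omega

lemma fam_e {φ : FD} (hφ : Fam φ) : φ.e = 1 ∨ φ.e = -1 ∨ φ.e = 2 ∨ φ.e = -2 := by
  obtain ⟨ε, hε, hφ⟩ := hφ
  rcases hφ with rfl | rfl | rfl | rfl <;> rcases hε with rfl | rfl <;> simp [F8, F4, F1]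

lemma jo_odd (φ : FD) (d : ℕ) {N : ℕ} (hN : Odd N) : jo φ d N = js φ.e N * jr d N := by
  unfold jo js jr
  rw [if_pos hN, jacobiSym.mul_left]
  push_cast
  rfl

lemma js_e_sq {φ : FD} (hφ : Fam φ) {M : ℕ} (hM : Odd M) : js φ.e (M ^ 2) = 1 := by
  have : NeZero M := ⟨by rintro rfl; simp at hM⟩
  unfold js
  rw [jacobiSym.pow_right]
  have h1 : φ.e.gcd M = 1 := by
    have h2 : Nat.Coprime 2 M := Nat.coprime_two_left.2 hM
    rw [Int.gcd_def, Int.natAbs_natCast]
    rcases fam_e hφ with h | h | h | h <;> rw [h] <;> simp [h2]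
  rw [jacobiSym.sq_one h1]
  norm_num

lemma js_abs (k : ℤ) (n : ℕ) : |js k n| ≤ 1 := Pool.Agent.H568.SP.jac_abs_le _ _

lemma gg_sq (M : ℕ) : gg (M ^ 2) = gg M := by
  unfold gg
  rw [Nat.primeFactors_pow M (by norm_num)]

lemma one_log_le {N : ℕ} (hN : 1 ≤ N) : 1 + Real.log N ≤ 9 * (N : ℝ) ^ (1 / 8 : ℝ) := by
  have h1 : (1:ℝ) ≤ N := by exact_mod_cast hN
  have h2 := Real.log_le_rpow_div (x := N) (by positivity) (ε := 1 / 8) (by norm_num)
  have h3 : (1:ℝ) ≤ (N : ℝ) ^ (1 / 8 : ℝ) := Real.one_le_rpow h1 (by norm_num)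
  have h4 : (N : ℝ) ^ (1 / 8 : ℝ) / (1 / 8) = 8 * (N : ℝ) ^ (1 / 8 : ℝ) := by ring
  rw [h4] at h2
  linarith

open Classical in
/-- the sum of the characters of the family at `N` -/
def sN (φ : FD) (N x : ℕ) : ℝ := ∑ d ∈ (Icc 1 x).filter (fun d => φ.A d ∧ Squarefree d), jo φ d N

theorem fam_sum (hP : StP) {φ : FD} (hφ : Fam φ) : ∃ K : ℝ, 0 ≤ K ∧ ∀ N : ℕ, Odd N → ∀ x : ℕ, 1 ≤ x →
    |sN φ N x - (if IsSquare N then φ.δ * (8 / Real.pi ^ 2) * gg N else 0) * x| ≤
      K * (N : ℝ) ^ (3 / 8 : ℝ) * (√x * (1 + Real.log x)) := by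
  classical
  obtain ⟨Cl, κ, hCl, hcard, hκ, hsum⟩ := fam_classes hφ
  refine ⟨(Cl.card : ℝ) * 60 + 1, by positivity, fun N hN x hx => ?_⟩
  have hN1 : 1 ≤ N := hN.pos
  have hNr : (1:ℝ) ≤ N := by exact_mod_cast hN1
  have hxr : (1:ℝ) ≤ x := by exact_mod_cast hx
  have hsx : 1 ≤ √(x:ℝ) := Real.one_le_sqrt.2 hxr
  have hlx : 0 ≤ Real.log x := Real.log_nonneg hxr
  have hE1 : (1:ℝ) ≤ √(x:ℝ) * (1 + Real.log x) := by nlinarith
  have hN38 : (1:ℝ) ≤ (N:ℝ) ^ (3 / 8 : ℝ) := Real.one_le_rpow hNr (by norm_num)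
  set E : ℝ := √(x:ℝ) * (1 + Real.log x) with hE
  set Q : ℝ := (N:ℝ) ^ (3 / 8 : ℝ) with hQ
  have h0 : sN φ N x = js φ.e N * ∑ c ∈ Cl, SS c N x - κ * jo φ 1 N := by
    unfold sN
    rw [hsum _ x hx]
    congr 1
    rw [mul_sum]
    refine sum_congr rfl fun c _ => ?_
    unfold SS
    rw [mul_sum]
    exact sum_congr rfl fun d _ => jo_odd φ d hN
  have h1 : |κ * jo φ 1 N| ≤ Q * E := by
    rw [abs_mul]
    have h2 : |jo φ 1 N| ≤ 1 := by
      rw [jo_odd φ 1 hN, abs_mul]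
      exact mul_le_one₀ (js_abs _ _) (abs_nonneg _) (jr_abs _ _)
    have h3 : |κ| * |jo φ 1 N| ≤ 1 * 1 := mul_le_mul hκ h2 (abs_nonneg _) zero_le_one
    nlinarith
  by_cases hsq : IsSquare N
  · rw [if_pos hsq]
    obtain ⟨M, hM⟩ := hsq
    have hM2 : N = M ^ 2 := by rw [hM, pow_two]
    have hMo : Odd M := by
      rw [hM2] at hN
      exact (Nat.odd_pow_iff (by norm_num)).1 hN
    have hM1 : (1:ℝ) ≤ M := by exact_mod_cast hMo.pos
    have h2 : js φ.e N = 1 := by rw [hM2]; exact js_e_sq hφ hMo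
    rw [h0, h2, one_mul]
    have h3 : P1 M * P2 M = 8 / Real.pi ^ 2 * gg M := hP M hMo
    have h4 : gg N = gg M := by rw [hM2, gg_sq]
    have e1 : ∑ c ∈ Cl, SS c N x - κ * jo φ 1 N - φ.δ * (8 / Real.pi ^ 2) * gg N * x =
        ∑ c ∈ Cl, (SS c (M ^ 2) x - x / 8 * (P1 M * P2 M)) - κ * jo φ 1 N := by
      rw [sum_sub_distrib, sum_const, nsmul_eq_mul, hcard, h3, h4, hM2]
      ring
    rw [e1]
    refine (abs_sub _ _).trans ?_
    have h5 : |∑ c ∈ Cl, (SS c (M ^ 2) x - x / 8 * (P1 M * P2 M))| ≤ (Cl.card : ℝ) * 60 * (Q * E) := by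
      refine (abs_sum_le_sum_abs _ _).trans ?_
      have h6 : ∀ c ∈ Cl, |SS c (M ^ 2) x - x / 8 * (P1 M * P2 M)| ≤ 60 * (Q * E) := by
        intro c hc
        refine (SS_sq (hCl c hc).1 (hCl c hc).2 hMo x).trans ?_
        have h7 := card_div_le M
        have h8 : √(M:ℝ) ≤ Q := by
          rw [hQ, hM2, Real.sqrt_eq_rpow]
          push_cast
          rw [← Real.rpow_natCast, ← Real.rpow_mul (by positivity)]
          exact Real.rpow_le_rpow_of_exponent_le hM1 (by norm_num)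
        have h9 : ((M.divisors.card : ℕ) : ℝ) ≤ 2 * Q := h7.trans (by linarith)
        have h10 : √(x:ℝ) ≤ E := by
          rw [hE]
          nlinarith
        calc 3 * ((M.divisors.card : ℕ) : ℝ) * √(x:ℝ) ≤ 3 * (2 * Q) * E := by gcongr
          _ ≤ 60 * (Q * E) := by
            have : 0 ≤ Q * E := by positivity
            nlinarith
      refine (sum_le_sum h6).trans ?_
      rw [sum_const, nsmul_eq_mul, mul_assoc]
    linarith
  · rw [if_neg hsq, zero_mul, sub_zero, h0]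
    refine (abs_sub _ _).trans ?_
    have h5 : |js φ.e N * ∑ c ∈ Cl, SS c N x| ≤ (Cl.card : ℝ) * 60 * (Q * E) := by
      rw [abs_mul]
      have h6 : ∀ c ∈ Cl, |SS c N x| ≤ 60 * (Q * E) := by
        intro c hc
        refine (SS_nonsq (hCl c hc).1 (hCl c hc).2 hN hsq hx).trans ?_
        have h7 : √(8 * √(N:ℝ) * (1 + Real.log N)) ≤ 9 * Q := by
          rw [Real.sqrt_le_left (by positivity)]
          have h8 := one_log_le hN1
          have h9 : √(N:ℝ) = (N:ℝ) ^ (1 / 2 : ℝ) := Real.sqrt_eq_rpow _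
          have h10 : (N:ℝ) ^ (1 / 2 : ℝ) * (N:ℝ) ^ (1 / 8 : ℝ) ≤ Q ^ 2 := by
            rw [hQ, ← Real.rpow_add (by positivity), ← Real.rpow_natCast, ← Real.rpow_mul (by positivity)]
            exact Real.rpow_le_rpow_of_exponent_le hNr (by norm_num)
          calc 8 * √(N:ℝ) * (1 + Real.log N) ≤ 8 * √(N:ℝ) * (9 * (N:ℝ) ^ (1 / 8 : ℝ)) := by gcongr
            _ = 72 * ((N:ℝ) ^ (1 / 2 : ℝ) * (N:ℝ) ^ (1 / 8 : ℝ)) := by rw [h9]; ring
            _ ≤ 72 * Q ^ 2 := by gcongr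
            _ ≤ (9 * Q) ^ 2 := by nlinarith [sq_nonneg Q]
        calc _ ≤ 9 * Q * √(x:ℝ) * (1 + Real.log x) := by gcongr
          _ = 9 * (Q * E) := by rw [hE]; ring
          _ ≤ 60 * (Q * E) := by
            have : 0 ≤ Q * E := by positivity
            linarith
      have h11 : |∑ c ∈ Cl, SS c N x| ≤ (Cl.card : ℝ) * 60 * (Q * E) := by
        refine (abs_sum_le_sum_abs _ _).trans ((sum_le_sum h6).trans ?_)
        rw [sum_const, nsmul_eq_mul, mul_assoc]
      calc _ ≤ 1 * ((Cl.card : ℝ) * 60 * (Q * E)) := mul_le_mul (js_abs _ _) h11 (abs_nonneg _) zero_le_one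
        _ = _ := one_mul _
    linarith

end

end Pool.Agent.K4H95.LQ
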