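import Pool.Agent.K4H95.LQ.Spec3
import Pool.Agent.K4H95.LQ.Fs

/-!
# R2: the first moment over the members of the family with prescribed values at the primes of a finite set
-/

set_option autoImplicit false

namespace Pool.Agent.K4H95.LQ

open Filter Topology Pool.Agent.H306R2.RG Pool.Agent.H306R2.RZ

noncomputable section

namespace R2

lemma jo_vals (φ : FD) (d p : ℕ) : jo φ d p = 0 ∨ jo φ d p = 1 ∨ jo φ d p = -1 := by
  unfold jo js
  split_ifs
  · rcases jacobiSym.trichotomy (φ.e * (d : ℤ)) p with h | h | h <;> rw [h] <;> simp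
  · exact Or.inl rfl

lemma ind_insert (φ : FD) {S : Finset ℕ} {p : ℕ} (a : ℕ → ℝ) (d : ℕ) :
    ind φ (insert p S) a d = ind φ S a d * (if jo φ d p = a p then 1 else 0) := by
  classical
  unfold ind
  by_cases h1 : jo φ d p = a p
  · by_cases h2 : ∀ q ∈ S, jo φ d q = a q
    · rw [if_pos h1, if_pos h2, if_pos, mul_one]
      intro q hq
      rcases Finset.mem_insert.1 hq with rfl | hq
      · exact h1
      · exact h2 q hq
    · rw [if_neg h2, if_neg, zero_mul]
      exact fun h => h2 fun q hq => h q (Finset.mem_insert_of_mem hq)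
  · rw [if_neg h1, if_neg, mul_zero]
    exact fun h => h1 (h p (Finset.mem_insert_self p S))

/-- the sum -/
def G (φ : FD) (S : Finset ℕ) (a : ℕ → ℝ) (m x : ℕ) : ℝ := ∑ d ∈ FF φ x, ind φ S a d * jo φ d m

lemma G_ne (φ : FD) {S : Finset ℕ} {p : ℕ} {a : ℕ → ℝ} (ha : a p = 1 ∨ a p = -1) (m x : ℕ) :
    G φ (insert p S) a m x = 1 / 2 * (G φ S a (p ^ 2 * m) x + a p * G φ S a (p * m) x) := by
  unfold G
  rw [Finset.mul_sum (a := a p), ← Finset.sum_add_distrib, Finset.mul_sum]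
  refine Finset.sum_congr rfl fun d _ => ?_
  rw [ind_insert, jo_mul, jo_mul, pow_two, jo_mul]
  rcases ha with ha | ha <;> rcases jo_vals φ d p with h | h | h <;> rw [ha, h] <;> norm_num <;> ring

lemma G_zero (φ : FD) {S : Finset ℕ} {p : ℕ} {a : ℕ → ℝ} (ha : a p = 0) (m x : ℕ) :
    G φ (insert p S) a m x = G φ S a m x - G φ S a (p ^ 2 * m) x := by
  unfold G
  rw [← Finset.sum_sub_distrib]
  refine Finset.sum_congr rfl fun d _ => ?_
  rw [ind_insert, jo_mul, pow_two, jo_mul]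
  rcases jo_vals φ d p with h | h | h <;> rw [ha, h] <;> norm_num

/-- the bound -/
def Bnd (S : Finset ℕ) (m : ℕ) : ℝ := 2 ^ S.card * ((m * ∏ p ∈ S, p ^ 2 : ℕ) : ℝ) ^ (3 / 8 : ℝ)

lemma Bnd_mono {S : Finset ℕ} {m n : ℕ} (h : m ≤ n) : Bnd S m ≤ Bnd S n := by
  unfold Bnd
  gcongr

lemma Bnd_insert {S : Finset ℕ} {p : ℕ} (hp : p ∉ S) (m : ℕ) :
    Bnd (insert p S) m = 2 * Bnd S (p ^ 2 * m) := by
  unfold Bnd
  rw [Finset.card_insert_of_notMem hp, Finset.prod_insert hp, pow_succ]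
  have h1 : m * (p ^ 2 * ∏ q ∈ S, q ^ 2) = p ^ 2 * m * ∏ q ∈ S, q ^ 2 := by ring
  rw [h1]
  ring

end R2

open R2 in
theorem r2 (h1 : StR1) (hP : StP) : StR2 := by
  intro φ hφ
  obtain ⟨K, hK, hbase⟩ := fam_sum hP hφ
  refine ⟨K, hK, ?_⟩
  intro S a hS ha
  -- the statement with the auxiliary definitions
  suffices h : ∀ m x : ℕ, 1 ≤ m → 1 ≤ x →
      |G φ S a m x - φ.δ * (8 / Real.pi ^ 2) * rho S a m * x| ≤
        K * Bnd S m * (√x * (1 + Real.log x)) from h
  induction S using Finset.induction_on with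
  | empty =>
    intro m x hm hx
    have hx1 : (1 : ℝ) ≤ x := by exact_mod_cast hx
    have hE : 0 ≤ √(x : ℝ) * (1 + Real.log x) :=
      mul_nonneg (Real.sqrt_nonneg _) (by linarith [Real.log_nonneg hx1])
    have hr := (h1 ∅ a hS ha m (by omega)).1
    have hB : Bnd ∅ m = (m : ℝ) ^ (3 / 8 : ℝ) := by simp [Bnd]
    have hG : G φ ∅ a m x = ∑ d ∈ FF φ x, jo φ d m := by
      unfold G
      refine Finset.sum_congr rfl fun d _ => ?_
      simp [ind]
    by_cases hodd : Odd m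
    · have h2 := hbase m hodd x hx
      have h3 : sN φ m x = ∑ d ∈ FF φ x, jo φ d m := rfl
      rw [hG, hB, hr, ← h3]
      by_cases hsq : IsSquare m
      · rw [if_pos ⟨hodd, hsq⟩]
        rw [if_pos hsq] at h2
        rw [mul_assoc] at h2 ⊢
        exact h2
      · rw [if_neg (fun h => hsq h.2)]
        rw [if_neg hsq] at h2
        rw [mul_zero]
        rw [mul_assoc] at h2 ⊢
        exact h2
    · rw [hG, hB, hr, if_neg (fun h => hodd h.1)]
      have h4 : ∑ d ∈ FF φ x, jo φ d m = 0 :=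
        Finset.sum_eq_zero fun d _ => by unfold jo; rw [if_neg hodd]
      rw [h4]
      simp only [mul_zero, zero_mul, sub_zero, abs_zero]
      positivity
  | insert p S hp ih =>
    intro m x hm hx
    have hx1 : (1 : ℝ) ≤ x := by exact_mod_cast hx
    have hE : 0 ≤ √(x : ℝ) * (1 + Real.log x) :=
      mul_nonneg (Real.sqrt_nonneg _) (by linarith [Real.log_nonneg hx1])
    have hS' : OP S := fun q hq => hS q (Finset.mem_insert_of_mem hq)
    obtain ⟨hpp, hp2⟩ := hS p (Finset.mem_insert_self p S)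
    have hp1 : 1 ≤ p := hpp.one_lt.le
    have ih' := ih hS'
    obtain ⟨hr1, hr2⟩ := (h1 S a hS' ha m (by omega)).2 p hpp hp2 hp
    have hm2 : 1 ≤ p ^ 2 * m := Nat.mul_pos (pow_pos (by omega) 2) (by omega)
    have hm1 : 1 ≤ p * m := Nat.mul_pos (by omega) (by omega)
    have hle1 : p * m ≤ p ^ 2 * m := Nat.mul_le_mul_right _ (by nlinarith)
    have hle0 : m ≤ p ^ 2 * m := Nat.le_mul_of_pos_left _ (pow_pos (by omega) 2)
    have e2 := ih' (p ^ 2 * m) x hm2 hx
    have e1 := ih' (p * m) x hm1 hx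
    have e0 := ih' m x hm hx
    rw [Bnd_insert hp]
    set E := √(x : ℝ) * (1 + Real.log x) with hEd
    set δ := φ.δ * (8 / Real.pi ^ 2) with hδ
    have b1 : K * Bnd S (p * m) * E ≤ K * Bnd S (p ^ 2 * m) * E := by
      have := Bnd_mono (S := S) hle1
      gcongr
    have b0 : K * Bnd S m * E ≤ K * Bnd S (p ^ 2 * m) * E := by
      have := Bnd_mono (S := S) hle0
      gcongr
    have b2 : 0 ≤ K * Bnd S (p ^ 2 * m) * E := (abs_nonneg _).trans e2
    rcases ha p with h0 | h0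
    · rw [G_zero φ h0, hr2 h0]
      rw [abs_le] at e2 e0 ⊢
      constructor <;> nlinarith [e2.1, e2.2, e0.1, e0.2]
    · have hne : a p ≠ 0 := by rcases h0 with h | h <;> rw [h] <;> norm_num
      rw [G_ne φ h0, hr1 hne]
      rw [abs_le] at e2 e1 ⊢
      rcases h0 with h | h <;> rw [h] <;> constructor <;> nlinarith [e2.1, e2.2, e1.1, e1.2]

end

end Pool.Agent.K4H95.LQ
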