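import Pool.Agent.K4H95.LQ.Spec

/-!
# Piece A1: the Dirichlet series of a power of the Euler product (helper75)
-/

set_option autoImplicit false

namespace Pool.Agent.K4H95.LQ

open Filter Topology Pool.Agent.X278.AV

namespace A1x

theorem be_zero (x : ℝ) : be x 0 = 1 := by
  unfold be
  exact Ring.choose_zero_right _

theorem be_fact (x : ℝ) (j : ℕ) : (j.factorial : ℝ) * be x j = (ascPochhammer ℝ j).eval x := by
  unfold be
  rw [← Ring.multichoose_eq]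
  have := Ring.factorial_nsmul_multichoose_eq_ascPochhammer x j
  rw [nsmul_eq_mul] at this
  rw [this, Polynomial.ascPochhammer_smeval_eq_eval]

theorem be_succ (x : ℝ) (j : ℕ) : ((j : ℝ) + 1) * be x (j + 1) = (x + j) * be x j := by
  have h1 := be_fact x j
  have h2 := be_fact x (j + 1)
  rw [ascPochhammer_succ_eval, ← h1, Nat.factorial_succ] at h2
  push_cast at h2
  have h3 : (j.factorial : ℝ) ≠ 0 := by positivity
  apply mul_left_cancel₀ h3
  linarith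

theorem be_abs (x : ℝ) (j : ℕ) : |be x j| ≤ be |x| j := by
  induction j with
  | zero => simp [be_zero]
  | succ j ih =>
    have h1 := be_succ x j
    have h2 := be_succ |x| j
    have h3 : (0:ℝ) < (j:ℝ) + 1 := by positivity
    have h4 : ((j : ℝ) + 1) * |be x (j + 1)| = |x + j| * |be x j| := by
      rw [← abs_mul, ← h1, abs_mul, abs_of_pos h3]
    have h5 : |x + j| ≤ |x| + j := by
      refine (abs_add_le _ _).trans ?_
      rw [abs_of_nonneg (Nat.cast_nonneg j : (0:ℝ) ≤ (j:ℝ))]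
    have h6 : |x + j| * |be x j| ≤ (|x| + j) * be |x| j :=
      mul_le_mul h5 ih (abs_nonneg _) (by positivity)
    rw [← h4, ← h2] at h6
    exact le_of_mul_le_mul_left h6 h3

theorem be_sum (x : ℝ) {t : ℝ} (ht : |t| < 1) : HasSum (fun j : ℕ => be x j * t ^ j) ((1 - t) ^ (-x)) := by
  have h := (Real.one_div_one_sub_rpow_hasFPowerSeriesOnBall_zero x).hasSum (y := t) (by
    simp [enorm_eq_nnnorm]
    rw [← NNReal.coe_lt_coe]
    simpa using ht)
  have h1 : (1 - t) ^ (-x) = 1 / (1 - (0 + t)) ^ x := by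
    rw [zero_add, Real.rpow_neg (by linarith [(abs_lt.1 ht).2]), one_div]
  rw [h1]
  have h2 : (fun j : ℕ => be x j * t ^ j) = fun n : ℕ =>
      (FormalMultilinearSeries.ofScalars ℝ (fun n : ℕ => Ring.choose (x + n - 1) n) n) fun _ => t := by
    funext j
    rw [FormalMultilinearSeries.ofScalars_apply_eq, smul_eq_mul]
    rfl
  rw [h2]
  exact h

theorem bm_zero (x : ℕ → ℝ) : bm x 0 = 0 := by
  unfold bm
  rw [if_pos rfl]

theorem bm_one (x : ℕ → ℝ) : bm x 1 = 1 := by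
  unfold bm
  rw [if_neg one_ne_zero, Nat.primeFactors_one, Finset.prod_empty]

theorem bm_mul (x : ℕ → ℝ) {m n : ℕ} (h : Nat.Coprime m n) : bm x (m * n) = bm x m * bm x n := by
  by_cases hm : m = 0
  · subst hm
    rw [zero_mul, bm_zero, zero_mul]
  by_cases hn : n = 0
  · subst hn
    rw [mul_zero, bm_zero, mul_zero]
  unfold bm
  rw [if_neg hm, if_neg hn, if_neg (mul_ne_zero hm hn), h.primeFactors_mul,
    Finset.prod_union h.disjoint_primeFactors]
  congr 1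
  · apply Finset.prod_congr rfl
    intro p hp
    rw [Nat.factorization_eq_of_coprime_left h (by simpa using hp)]
  · apply Finset.prod_congr rfl
    intro p hp
    rw [Nat.factorization_eq_of_coprime_right h (by simpa using hp)]

theorem bm_pow (x : ℕ → ℝ) {p : ℕ} (hp : p.Prime) (e : ℕ) : bm x (p ^ e) = be (x p) e := by
  rcases Nat.eq_zero_or_pos e with h | h
  · subst h
    rw [pow_zero, bm_one, be_zero]
  · unfold bm
    rw [if_neg (pow_ne_zero _ hp.ne_zero), Nat.primeFactors_pow _ h.ne', hp.primeFactors, Finset.prod_singleton,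
      hp.factorization_pow, Finsupp.single_eq_same]

/-- a nonnegative multiplicative function with bounded Euler factors is summable -/
theorem mult_summable {F : ℕ → ℝ} (h0 : ∀ m, 0 ≤ F m) (hF0 : F 0 = 0) (hF1 : F 1 = 1)
    (hmul : ∀ {m n : ℕ}, Nat.Coprime m n → F (m * n) = F m * F n)
    (hs : ∀ p : ℕ, p.Prime → Summable fun e : ℕ => F (p ^ e))
    (c : Nat.Primes → ℝ) (hc0 : ∀ p, 0 ≤ c p) (hc : Summable c)
    (hb : ∀ p : Nat.Primes, ∑' e : ℕ, F ((p : ℕ) ^ e) ≤ Real.exp (c p)) : Summable F := by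
  refine summable_of_sum_le h0 (c := Real.exp (∑' p, c p)) fun u => ?_
  obtain ⟨N, hN⟩ : ∃ N : ℕ, ∀ m ∈ u, m < N := ⟨u.sup id + 1, fun m hm => Nat.lt_succ_of_le (Finset.le_sup (f := id) hm)⟩
  have h1 := (EulerProduct.summable_and_hasSum_smoothNumbers_prod_primesBelow_tsum (f := F) hF1 hmul
    (fun {p} hp => by
      have := hs p hp
      simpa [Real.norm_eq_abs, abs_of_nonneg (h0 _)] using this) N).2
  have h2 : HasSum (Set.indicator (N.smoothNumbers : Set ℕ) F) (∏ p ∈ N.primesBelow, ∑' n : ℕ, F (p ^ n)) :=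
    hasSum_subtype_iff_indicator.1 h1
  have h3 : ∑ m ∈ u, F m = ∑ m ∈ u, Set.indicator (N.smoothNumbers : Set ℕ) F m := by
    apply Finset.sum_congr rfl
    intro m hm
    rcases Nat.eq_zero_or_pos m with h | h
    · subst h
      by_cases h' : (0 : ℕ) ∈ N.smoothNumbers
      · rw [Set.indicator_of_mem h']
      · rw [Set.indicator_of_notMem h', hF0]
    · rw [Set.indicator_of_mem (Nat.mem_smoothNumbers_of_lt h (hN m hm))]
  rw [h3]
  refine (sum_le_hasSum u (fun m _ => Set.indicator_nonneg (fun m _ => h0 m) m) h2).trans ?_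
  obtain ⟨U, hU⟩ : ∃ U : Finset Nat.Primes, ∏ p ∈ N.primesBelow, ∑' n : ℕ, F (p ^ n) =
      ∏ p ∈ U, ∑' n : ℕ, F ((p : ℕ) ^ n) := by
    refine ⟨N.primesBelow.subtype Nat.Prime, ?_⟩
    refine Eq.trans ?_ (Finset.prod_subtype_eq_prod_filter (p := Nat.Prime) (s := N.primesBelow) (fun p : ℕ => ∑' n : ℕ, F (p ^ n))).symm
    apply Finset.prod_congr _ fun _ _ => rfl
    ext p
    simp only [Finset.mem_filter]
    exact ⟨fun h => ⟨h, Nat.prime_of_mem_primesBelow h⟩, fun h => h.1⟩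
  rw [hU]
  refine (Finset.prod_le_prod (fun p _ => tsum_nonneg fun e => h0 _) (fun p _ => hb p)).trans ?_
  rw [← Real.exp_sum]
  apply Real.exp_le_exp.2
  exact hc.sum_le_tsum _ (fun p _ => hc0 p)

/-- `-log (1 - t) ≤ t / (1 - t₀)` for `0 ≤ t ≤ t₀ < 1` -/
theorem log_bd {t t₀ : ℝ} (h0 : 0 ≤ t) (h1 : t ≤ t₀) (h2 : t₀ < 1) : -Real.log (1 - t) ≤ t / (1 - t₀) := by
  have h3 : 0 < 1 - t := by linarith
  have h4 := Real.one_sub_inv_le_log_of_pos h3
  have h5 : t / (1 - t) ≤ t / (1 - t₀) := div_le_div_of_nonneg_left h0 (by linarith) (by linarith)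
  have h6 : t / (1 - t) = (1 - t)⁻¹ - 1 := by field_simp; ring
  linarith

theorem two_le (p : Nat.Primes) : (2 : ℝ) ≤ ((p : ℕ) : ℝ) := by exact_mod_cast p.2.two_le

/-- `p^{-1/8} ≤ 2^{-1/8}` -/
theorem t_bd (p : Nat.Primes) : ((p : ℕ) : ℝ) ^ (-(1 / 8) : ℝ) ≤ (2 : ℝ) ^ (-(1 / 8) : ℝ) :=
  Real.rpow_le_rpow_of_nonpos (by norm_num) (two_le p) (by norm_num)

theorem t0_lt : (2 : ℝ) ^ (-(1 / 8) : ℝ) < 1 :=
  Real.rpow_lt_one_of_one_lt_of_neg (by norm_num) (by norm_num)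

theorem t_pos (p : Nat.Primes) : 0 < ((p : ℕ) : ℝ) ^ (-(1 / 8) : ℝ) :=
  Real.rpow_pos_of_pos (by linarith [two_le p]) _

theorem summ (x : ℕ → ℝ) (hx : Summable fun p : Nat.Primes => |x p| * ((p : ℕ) : ℝ) ^ (-(1 / 8) : ℝ)) :
    Summable fun m : ℕ => |bm x m| * (m : ℝ) ^ (-(1 / 8) : ℝ) := by
  set C : ℝ := (1 - (2 : ℝ) ^ (-(1 / 8) : ℝ))⁻¹ with hC
  have hC0 : 0 < C := inv_pos.2 (by linarith [t0_lt])
  have hpow : ∀ (p : ℕ) (hp : p.Prime) (e : ℕ), |bm x (p ^ e)| * ((p ^ e : ℕ) : ℝ) ^ (-(1 / 8) : ℝ) =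
      |be (x p) e| * ((p : ℝ) ^ (-(1 / 8) : ℝ)) ^ e := by
    intro p hp e
    rw [bm_pow x hp]
    congr 1
    push_cast
    rw [← Real.rpow_natCast, ← Real.rpow_natCast, ← Real.rpow_mul (by positivity), ← Real.rpow_mul (by positivity),
      mul_comm]
  have hdom : ∀ (p : ℕ) (hp : p.Prime), HasSum (fun e : ℕ => be |x p| e * ((p : ℝ) ^ (-(1 / 8) : ℝ)) ^ e)
      ((1 - (p : ℝ) ^ (-(1 / 8) : ℝ)) ^ (-|x p|)) := by
    intro p hp
    apply be_sum
    have h1 := t_pos ⟨p, hp⟩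
    have h2 := t_bd ⟨p, hp⟩
    have h3 := t0_lt
    rw [abs_of_pos h1]
    exact h2.trans_lt h3
  have hle : ∀ (p : ℕ) (hp : p.Prime) (e : ℕ), |bm x (p ^ e)| * ((p ^ e : ℕ) : ℝ) ^ (-(1 / 8) : ℝ) ≤
      be |x p| e * ((p : ℝ) ^ (-(1 / 8) : ℝ)) ^ e := by
    intro p hp e
    rw [hpow p hp e]
    exact mul_le_mul_of_nonneg_right (be_abs _ _) (by positivity)
  have hs : ∀ p : ℕ, p.Prime → Summable fun e : ℕ => |bm x (p ^ e)| * ((p ^ e : ℕ) : ℝ) ^ (-(1 / 8) : ℝ) := by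
    intro p hp
    exact Summable.of_nonneg_of_le (fun e => by positivity) (hle p hp) (hdom p hp).summable
  refine mult_summable (F := fun m : ℕ => |bm x m| * (m : ℝ) ^ (-(1 / 8) : ℝ)) (fun m => by positivity)
    (by rw [bm_zero]; simp) (by rw [bm_one]; simp) ?_ hs
    (fun p => |x p| * ((p : ℕ) : ℝ) ^ (-(1 / 8) : ℝ) * C) (fun p => by positivity) (hx.mul_right C) ?_
  · intro m n h
    rw [bm_mul x h, abs_mul, Nat.cast_mul, Real.mul_rpow (by positivity) (by positivity)]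
    ring
  · intro p
    have h1 : ∑' e : ℕ, |bm x ((p : ℕ) ^ e)| * (((p : ℕ) ^ e : ℕ) : ℝ) ^ (-(1 / 8) : ℝ) ≤
        ∑' e : ℕ, be |x p| e * (((p : ℕ) : ℝ) ^ (-(1 / 8) : ℝ)) ^ e :=
      (hs p p.2).tsum_le_tsum (hle p p.2) (hdom p p.2).summable
    refine h1.trans ?_
    rw [(hdom p p.2).tsum_eq]
    have h2 : 0 < 1 - ((p : ℕ) : ℝ) ^ (-(1 / 8) : ℝ) := by linarith [t_bd p, t0_lt]
    rw [Real.rpow_def_of_pos h2]
    apply Real.exp_le_exp.2
    have h3 := log_bd (t_pos p).le (t_bd p) t0_lt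
    have h5 : ((p : ℕ) : ℝ) ^ (-(1 / 8) : ℝ) / (1 - (2 : ℝ) ^ (-(1 / 8) : ℝ)) = ((p : ℕ) : ℝ) ^ (-(1 / 8) : ℝ) * C := by
      rw [hC]
      exact div_eq_mul_inv _ _
    have h4 : |x p| * -Real.log (1 - ((p : ℕ) : ℝ) ^ (-(1 / 8) : ℝ)) ≤ |x p| * (((p : ℕ) : ℝ) ^ (-(1 / 8) : ℝ) * C) :=
      mul_le_mul_of_nonneg_left (h3.trans h5.le) (abs_nonneg (x p))
    calc Real.log (1 - ((p : ℕ) : ℝ) ^ (-(1 / 8) : ℝ)) * -|x p| =
        |x p| * -Real.log (1 - ((p : ℕ) : ℝ) ^ (-(1 / 8) : ℝ)) := by ring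
      _ ≤ _ := h4
      _ = _ := by ring

theorem a1 : StA1 := by
  intro x hx
  refine ⟨summ x hx, ?_⟩
  intro ψ hψ1 hψm hψb
  have hsum : Summable fun m : ℕ => ‖bm x m * ψ m / √m‖ := by
    refine Summable.of_nonneg_of_le (fun m => norm_nonneg _) (fun m => ?_) (summ x hx)
    rw [Real.norm_eq_abs, abs_div, abs_mul, abs_of_nonneg (Real.sqrt_nonneg _)]
    rcases Nat.eq_zero_or_pos m with h | h
    · subst h
      rw [bm_zero]
      simp
    · have hm : (1 : ℝ) ≤ m := by exact_mod_cast h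
      have h1 : |bm x m| * |ψ m| / √m ≤ |bm x m| * 1 / √m :=
        div_le_div_of_nonneg_right (mul_le_mul_of_nonneg_left (hψb m) (abs_nonneg _)) (Real.sqrt_nonneg _)
      refine h1.trans ?_
      rw [mul_one, div_eq_mul_inv, Real.sqrt_eq_rpow, ← Real.rpow_neg (by positivity)]
      exact mul_le_mul_of_nonneg_left (Real.rpow_le_rpow_of_exponent_le hm (by norm_num)) (abs_nonneg _)
  have hf0 : bm x 0 * ψ (0 : ℕ) / √((0 : ℕ) : ℝ) = 0 := by rw [bm_zero]; simp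
  have hf1 : bm x 1 * ψ (1 : ℕ) / √((1 : ℕ) : ℝ) = 1 := by rw [bm_one, hψ1]; simp
  have hmul : ∀ {m n : ℕ}, Nat.Coprime m n → bm x (m * n) * ψ (m * n) / √((m * n : ℕ) : ℝ) =
      bm x m * ψ m / √m * (bm x n * ψ n / √n) := by
    intro m n h
    rw [bm_mul x h, hψm, Nat.cast_mul, Real.sqrt_mul (by positivity)]
    rw [div_mul_div_comm]
    ring
  have hE := EulerProduct.eulerProduct_hasProd (f := fun m : ℕ => bm x m * ψ m / √m) hf1 hmul hsum hf0
  have hψpow : ∀ (n e : ℕ), ψ (n ^ e) = ψ n ^ e := by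
    intro n e
    induction e with
    | zero => rw [pow_zero, pow_zero, hψ1]
    | succ e ih => rw [pow_succ, pow_succ, hψm, ih]
  have hloc : ∀ p : Nat.Primes, ∑' e : ℕ, bm x ((p : ℕ) ^ e) * ψ ((p : ℕ) ^ e) / √(((p : ℕ) ^ e : ℕ) : ℝ) =
      Real.exp (x p * Yq p (ψ p)) := by
    intro p
    have hY := Yq_bd p (hψb p)
    have hp2 := two_le p
    have h1 : ∀ e : ℕ, bm x ((p : ℕ) ^ e) * ψ ((p : ℕ) ^ e) / √(((p : ℕ) ^ e : ℕ) : ℝ) =
        be (x p) e * (ψ p * (√((p : ℕ) : ℝ))⁻¹) ^ e := by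
      intro e
      rw [bm_pow x p.2, hψpow, mul_pow, inv_pow, ← mul_assoc, div_eq_mul_inv]
      congr 2
      push_cast
      rw [Real.sqrt_eq_rpow, Real.sqrt_eq_rpow, ← Real.rpow_natCast, ← Real.rpow_natCast, ← Real.rpow_mul (by positivity),
        ← Real.rpow_mul (by positivity), mul_comm]
    have h2 : |ψ p * (√((p : ℕ) : ℝ))⁻¹| < 1 := by
      rw [abs_mul, abs_inv, abs_of_nonneg (Real.sqrt_nonneg _)]
      have h3 : 1 < √((p : ℕ) : ℝ) := by
        rw [Real.lt_sqrt (by norm_num)]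
        linarith
      have h4 : (√((p : ℕ) : ℝ))⁻¹ < 1 := inv_lt_one_of_one_lt₀ h3
      have h5 : |ψ p| * (√((p : ℕ) : ℝ))⁻¹ ≤ 1 * (√((p : ℕ) : ℝ))⁻¹ :=
        mul_le_mul_of_nonneg_right (hψb p) (by positivity)
      linarith
    rw [tsum_congr h1, (be_sum (x p) h2).tsum_eq, Real.rpow_def_of_pos hY.1]
    congr 1
    unfold Yq
    ring
  have hE2 : HasProd (fun p : Nat.Primes => Real.exp (x p * Yq p (ψ p))) (∑' m : ℕ, bm x m * ψ m / √m) := by
    have h1 : (fun p : Nat.Primes => Real.exp (x p * Yq p (ψ p))) =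
        fun p : Nat.Primes => ∑' e : ℕ, bm x ((p : ℕ) ^ e) * ψ ((p : ℕ) ^ e) / √(((p : ℕ) ^ e : ℕ) : ℝ) :=
      funext fun p => (hloc p).symm
    rw [h1]
    exact hE
  have hsY : Summable fun p : Nat.Primes => x p * Yq p (ψ p) := by
    refine Summable.of_norm_bounded (g := fun p : Nat.Primes => 4 * (|x p| * ((p : ℕ) : ℝ) ^ (-(1 / 8) : ℝ)))
      (hx.mul_left 4) fun p => ?_
    rw [Real.norm_eq_abs, abs_mul]
    have hY := (Yq_bd p (hψb p)).2
    have hp2 := two_le p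
    have h1 : (√((p : ℕ) : ℝ))⁻¹ ≤ ((p : ℕ) : ℝ) ^ (-(1 / 8) : ℝ) := by
      rw [Real.sqrt_eq_rpow, ← Real.rpow_neg (by positivity)]
      exact Real.rpow_le_rpow_of_exponent_le (by linarith) (by norm_num)
    calc |x p| * |Yq p (ψ p)| ≤ |x p| * (4 * ((p : ℕ) : ℝ) ^ (-(1 / 8) : ℝ)) :=
          mul_le_mul_of_nonneg_left (by linarith) (abs_nonneg _)
      _ = _ := by ring
  have hE3 : HasProd (fun p : Nat.Primes => Real.exp (x p * Yq p (ψ p))) (Real.exp (∑' p : Nat.Primes, x p * Yq p (ψ p))) :=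
    hsY.hasSum.rexp
  have h := hE2.unique hE3
  rw [← h]
  exact hsum.of_norm.hasSum

end A1x

theorem a1 : StA1 := A1x.a1

end Pool.Agent.K4H95.LQ
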