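import Pool.Agent.K4H95.LQ.Spec

/-!
# Piece A2: the Euler product of the diagonal
-/

set_option autoImplicit false

namespace Pool.Agent.K4H95.LQ

open Filter Topology Pool.Agent.X278.AV

noncomputable section

namespace A2

theorem be_eq (x : ℝ) (j : ℕ) : (j.factorial : ℝ) * be x j = (ascPochhammer ℝ j).eval x := by
  unfold be
  rw [← Ring.multichoose_eq, ← nsmul_eq_mul, Ring.factorial_nsmul_multichoose_eq_ascPochhammer,
    Polynomial.ascPochhammer_smeval_cast, Polynomial.ascPochhammer_smeval_eq_eval]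

theorem be_zero (x : ℝ) : be x 0 = 1 := by
  have := be_eq x 0
  simpa using this

theorem be_succ (x : ℝ) (j : ℕ) : be x (j + 1) = be x j * ((x + j) / (j + 1)) := by
  have h1 := be_eq x j
  have h2 := be_eq x (j + 1)
  rw [ascPochhammer_succ_right, Polynomial.eval_mul, ← h1, Nat.factorial_succ] at h2
  simp only [Polynomial.eval_add, Polynomial.eval_X, Polynomial.eval_natCast] at h2
  have h3 : (j.factorial : ℝ) ≠ 0 := by exact_mod_cast j.factorial_ne_zero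
  have h4 : (j : ℝ) + 1 ≠ 0 := by positivity
  push_cast at h2
  field_simp
  have h5 : (j.factorial : ℝ) * ((j + 1) * be x (j + 1)) = (j.factorial : ℝ) * (be x j * (x + j)) := by
    linarith
  have := mul_left_cancel₀ h3 h5
  linarith

theorem be_nonneg {x : ℝ} (hx : 0 ≤ x) (j : ℕ) : 0 ≤ be x j := by
  induction j with
  | zero => rw [be_zero]; norm_num
  | succ j ih => rw [be_succ]; positivity

theorem be_abs (x : ℝ) (j : ℕ) : |be x j| ≤ be |x| j := by
  induction j with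
  | zero => rw [be_zero, be_zero]; simp
  | succ j ih =>
    rw [be_succ, be_succ, abs_mul, abs_div]
    have h1 : |x + j| ≤ |x| + j := by
      refine (abs_add_le _ _).trans ?_
      simp
    have h2 : |(j : ℝ) + 1| = j + 1 := abs_of_pos (by positivity)
    rw [h2]
    have h3 := be_nonneg (abs_nonneg x) j
    gcongr

theorem be_zero_succ (j : ℕ) : be 0 (j + 1) = 0 := by
  induction j with
  | zero => rw [be_succ]; simp
  | succ j ih => rw [be_succ, ih, zero_mul]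

theorem be_hasSum (x : ℝ) {u : ℝ} (hu : |u| < 1) : HasSum (fun j : ℕ => be x j * u ^ j) ((1 - u) ^ (-x)) := by
  have h := Real.one_div_one_sub_rpow_hasFPowerSeriesOnBall_zero x
  have h1 := h.hasSum (y := u) (by
    simp only [Metric.mem_eball, edist_zero_right]
    rw [enorm_eq_nnnorm]
    have : ‖u‖₊ < 1 := by
      rw [← NNReal.coe_lt_coe]
      simpa using hu
    exact_mod_cast this)
  simp only [zero_add, FormalMultilinearSeries.ofScalars_apply_eq, smul_eq_mul] at h1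
  have h2 : 1 / (1 - u) ^ x = (1 - u) ^ (-x) := by
    rw [Real.rpow_neg (by linarith [(abs_lt.1 hu).2]), one_div]
  rw [h2] at h1
  exact h1

theorem pow_half (t : ℝ) (j : ℕ) : (t ^ 2) ^ ((j + 1) / 2) = (1 + t) / 2 * t ^ j + (1 - t) / 2 * (-t) ^ j := by
  rw [← pow_mul]
  rcases Nat.even_or_odd j with h | h
  · have e : 2 * ((j + 1) / 2) = j := by
      obtain ⟨k, hk⟩ := h
      omega
    rw [e, h.neg_pow]
    ring
  · have e : 2 * ((j + 1) / 2) = j + 1 := by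
      obtain ⟨k, hk⟩ := h
      omega
    rw [e, h.neg_pow]
    ring

/-- the sum with `t ^ (2 ⌈j/2⌉)` -/
theorem be_hasSum2 (x : ℝ) {t : ℝ} (ht0 : 0 < t) (ht : t < 1) :
    HasSum (fun j : ℕ => be x j * (t ^ 2) ^ ((j + 1) / 2))
      (1 / 2 * (1 - t ^ 2) * ((1 - t) ^ (-(1 + x)) + (1 + t) ^ (-(1 + x)))) := by
  have h1 := (be_hasSum x (u := t) (by rwa [abs_of_pos ht0])).mul_left ((1 + t) / 2)
  have h2 := (be_hasSum x (u := -t) (by rwa [abs_neg, abs_of_pos ht0])).mul_left ((1 - t) / 2)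
  have h3 := h1.add h2
  have e1 : (1 + t) / 2 * (1 - t) ^ (-x) + (1 - t) / 2 * (1 - -t) ^ (-x) =
      1 / 2 * (1 - t ^ 2) * ((1 - t) ^ (-(1 + x)) + (1 + t) ^ (-(1 + x))) := by
    have a1 : 0 < 1 - t := by linarith
    have a2 : 0 < 1 + t := by linarith
    have b1 : (1 - t) ^ (-(1 + x)) = (1 - t) ^ (-x) / (1 - t) := by
      rw [← Real.rpow_sub_one a1.ne']
      congr 1
      ring
    have b2 : (1 + t) ^ (-(1 + x)) = (1 + t) ^ (-x) / (1 + t) := by
      rw [← Real.rpow_sub_one a2.ne']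
      congr 1
      ring
    rw [b1, b2, sub_neg_eq_add]
    field_simp
    ring
  rw [e1] at h3
  have e2 : (fun j : ℕ => be x j * (t ^ 2) ^ ((j + 1) / 2)) =
      fun j => (1 + t) / 2 * (be x j * t ^ j) + (1 - t) / 2 * (be x j * (-t) ^ j) := by
    funext j
    rw [pow_half]
    ring
  rw [e2]
  exact h3

/-- the ratio of the local factors -/
def rr (p : ℕ) : ℝ := ((p : ℝ) / (p + 1)) / (1 - 1 / ((p : ℝ) * (p + 1)))

theorem one_sub_pos {p : ℕ} (hp : 2 ≤ p) : (0 : ℝ) < 1 - 1 / ((p : ℝ) * (p + 1)) := by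
  have h2 : (2 : ℝ) ≤ p := by exact_mod_cast hp
  have : 1 / ((p : ℝ) * (p + 1)) < 1 := by
    rw [div_lt_one (by positivity)]
    nlinarith
  linarith

theorem rr_nonneg {p : ℕ} (hp : 2 ≤ p) : 0 ≤ rr p := by
  have h1 := one_sub_pos hp
  unfold rr
  positivity

theorem rr_le {p : ℕ} (hp : 2 ≤ p) : rr p ≤ 1 := by
  have h1 := one_sub_pos hp
  have h2 : (2 : ℝ) ≤ p := by exact_mod_cast hp
  unfold rr
  rw [div_le_one h1]
  have h3 : (p : ℝ) / (p + 1) = 1 - 1 / (p + 1) := by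
    field_simp
    ring
  rw [h3]
  have : 1 / ((p : ℝ) * (p + 1)) ≤ 1 / ((p : ℝ) + 1) := by
    apply one_div_le_one_div_of_le (by positivity)
    nlinarith
  linarith

/-- the values at prime powers -/
def fp (x : ℕ → ℝ) (p j : ℕ) : ℝ := be (x p) j / (p : ℝ) ^ ((j + 1) / 2) * rr p

/-- the multiplicative function -/
def ff (x : ℕ → ℝ) (m : ℕ) : ℝ := if m = 0 then 0 else ∏ p ∈ m.primeFactors, fp x p (m.factorization p)

theorem ff_zero (x : ℕ → ℝ) : ff x 0 = 0 := by simp [ff]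

theorem ff_one (x : ℕ → ℝ) : ff x 1 = 1 := by simp [ff]

theorem ff_mul (x : ℕ → ℝ) {m n : ℕ} (h : m.Coprime n) : ff x (m * n) = ff x m * ff x n := by
  rcases eq_or_ne m 0 with rfl | hm
  · rw [zero_mul, ff_zero, zero_mul]
  rcases eq_or_ne n 0 with rfl | hn
  · rw [mul_zero, ff_zero, mul_zero]
  unfold ff
  rw [if_neg (mul_ne_zero hm hn), if_neg hm, if_neg hn, h.primeFactors_mul, Finset.prod_union h.disjoint_primeFactors]
  congr 1
  · refine Finset.prod_congr rfl fun p hp => ?_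
    congr 1
    have h1 : ¬ p ∣ n := fun h2 => by
      have h3 := Nat.dvd_gcd (Nat.dvd_of_mem_primeFactors hp) h2
      rw [h] at h3
      exact (Nat.prime_of_mem_primeFactors hp).one_lt.ne' (Nat.dvd_one.1 h3)
    rw [Nat.factorization_mul hm hn, Finsupp.add_apply, Nat.factorization_eq_zero_of_not_dvd h1, add_zero]
  · refine Finset.prod_congr rfl fun p hp => ?_
    congr 1
    have h1 : ¬ p ∣ m := fun h2 => by
      have h3 := Nat.dvd_gcd h2 (Nat.dvd_of_mem_primeFactors hp)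
      rw [h] at h3
      exact (Nat.prime_of_mem_primeFactors hp).one_lt.ne' (Nat.dvd_one.1 h3)
    rw [Nat.factorization_mul hm hn, Finsupp.add_apply, Nat.factorization_eq_zero_of_not_dvd h1, zero_add]

theorem ff_pow (x : ℕ → ℝ) {p : ℕ} (hp : p.Prime) (e : ℕ) : ff x (p ^ (e + 1)) = fp x p (e + 1) := by
  unfold ff
  rw [if_neg (pow_ne_zero _ hp.ne_zero), Nat.primeFactors_prime_pow (by omega) hp, Finset.prod_singleton,
    hp.factorization_pow, Finsupp.single_eq_same]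

theorem ff_two {x : ℕ → ℝ} (hx : x 2 = 0) (e : ℕ) : ff x (2 ^ (e + 1)) = 0 := by
  rw [ff_pow x Nat.prime_two]
  unfold fp
  rw [hx, be_zero_succ, zero_div, zero_mul]

theorem tt_facts (p : Nat.Primes) : 0 < (√((p : ℕ) : ℝ))⁻¹ ∧ (√((p : ℕ) : ℝ))⁻¹ < 1 ∧
    ((√((p : ℕ) : ℝ))⁻¹) ^ 2 = ((p : ℕ) : ℝ)⁻¹ := by
  obtain ⟨h1, h2, h3⟩ := de_facts p
  exact ⟨h1, by linarith, by rw [h3, one_div]⟩

/-- the local sum at an odd prime -/
theorem local_sum (x : ℕ → ℝ) (p : Nat.Primes) : HasSum (fun e : ℕ => ff x ((p : ℕ) ^ e))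
    (rr p * (1 / 2 * (1 - 1 / ((p : ℕ) : ℝ)) * ((1 - (√((p : ℕ) : ℝ))⁻¹) ^ (-(1 + x p)) +
      (1 + (√((p : ℕ) : ℝ))⁻¹) ^ (-(1 + x p)))) + (1 - rr p)) := by
  obtain ⟨h1, h2, h3⟩ := tt_facts p
  have h4 := (be_hasSum2 (x p) h1 h2).mul_left (rr p)
  have h5 : HasSum (fun e : ℕ => if e = 0 then 1 - rr (p : ℕ) else 0) (1 - rr p) := hasSum_ite_eq 0 _
  have h6 := h4.add h5
  rw [h3, ← one_div] at h6
  have e2 : (fun e : ℕ => ff x ((p : ℕ) ^ e)) = fun e => rr (p : ℕ) * (be (x p) e * (1 / ((p : ℕ) : ℝ)) ^ ((e + 1) / 2)) +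
      (if e = 0 then 1 - rr (p : ℕ) else 0) := by
    funext e
    rcases Nat.eq_zero_or_pos e with rfl | he
    · rw [pow_zero, ff_one, if_pos rfl, be_zero]
      simp
    · obtain ⟨k, rfl⟩ : ∃ k, e = k + 1 := ⟨e - 1, by omega⟩
      rw [ff_pow x p.2, if_neg (by omega)]
      unfold fp
      rw [one_div, inv_pow]
      ring
  rw [e2]
  exact h6

theorem local_bd (x : ℕ → ℝ) (p : Nat.Primes) (e : ℕ) :
    ‖ff x ((p : ℕ) ^ e)‖ ≤ be |x p| e * ((√((p : ℕ) : ℝ))⁻¹) ^ e := by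
  obtain ⟨h1, h2, h3⟩ := tt_facts p
  rcases Nat.eq_zero_or_pos e with rfl | he
  · rw [pow_zero, ff_one, be_zero]
    simp
  · obtain ⟨k, rfl⟩ : ∃ k, e = k + 1 := ⟨e - 1, by omega⟩
    rw [ff_pow x p.2]
    unfold fp
    rw [Real.norm_eq_abs, abs_mul, abs_div, abs_of_nonneg (rr_nonneg p.2.two_le)]
    have h4 : |((p : ℕ) : ℝ) ^ ((k + 1 + 1) / 2)| = ((p : ℕ) : ℝ) ^ ((k + 1 + 1) / 2) := abs_of_nonneg (by positivity)
    rw [h4, div_eq_mul_inv, ← inv_pow, ← h3, ← pow_mul]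
    have h5 : (√((p : ℕ) : ℝ))⁻¹ ^ (2 * ((k + 1 + 1) / 2)) ≤ (√((p : ℕ) : ℝ))⁻¹ ^ (k + 1) :=
      pow_le_pow_of_le_one h1.le h2.le (by omega)
    have h6 := be_nonneg (abs_nonneg (x p)) (k + 1)
    calc |be (x p) (k + 1)| * (√((p : ℕ) : ℝ))⁻¹ ^ (2 * ((k + 1 + 1) / 2)) * rr p
        ≤ be |x p| (k + 1) * (√((p : ℕ) : ℝ))⁻¹ ^ (k + 1) * 1 := by
          have h7 := rr_nonneg p.2.two_le
          have h8 := rr_le p.2.two_le
          have h9 := be_abs (x p) (k + 1)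
          gcongr
      _ = _ := mul_one _

theorem local_abs (x : ℕ → ℝ) (p : Nat.Primes) : Summable (fun e : ℕ => ‖ff x ((p : ℕ) ^ e)‖) ∧
    ∑' e : ℕ, ‖ff x ((p : ℕ) ^ e)‖ ≤ Real.exp (4 * (|x p| * ((p : ℕ) : ℝ) ^ (-(1 / 8) : ℝ))) := by
  obtain ⟨h1, h2, h3⟩ := tt_facts p
  have h4 := be_hasSum |x p| (u := (√((p : ℕ) : ℝ))⁻¹) (by rwa [abs_of_pos h1])
  have h5 : Summable (fun e : ℕ => ‖ff x ((p : ℕ) ^ e)‖) :=
    Summable.of_nonneg_of_le (fun _ => norm_nonneg _) (local_bd x p) h4.summable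
  refine ⟨h5, (h5.tsum_le_tsum (local_bd x p) h4.summable).trans ?_⟩
  rw [h4.tsum_eq, Real.rpow_def_of_pos (by linarith)]
  apply Real.exp_le_exp.2
  have h6 := (Yq_bd p (η := 1) (by simp)).2
  unfold Yq at h6
  rw [one_mul] at h6
  have h7 := (le_abs_self _).trans h6
  have h8 : (√((p : ℕ) : ℝ))⁻¹ ≤ ((p : ℕ) : ℝ) ^ (-(1 / 8) : ℝ) := by
    rw [Real.sqrt_eq_rpow, ← Real.rpow_neg (by positivity)]
    apply Real.rpow_le_rpow_of_exponent_le
    · exact_mod_cast p.2.one_le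
    · norm_num
  have h9 := abs_nonneg (x p)
  calc Real.log (1 - (√((p : ℕ) : ℝ))⁻¹) * -|x p| = |x p| * -Real.log (1 - (√((p : ℕ) : ℝ))⁻¹) := by ring
    _ ≤ |x p| * (4 * ((p : ℕ) : ℝ) ^ (-(1 / 8) : ℝ)) := by
      apply mul_le_mul_of_nonneg_left _ h9
      linarith
    _ = _ := by ring

theorem summ (x : ℕ → ℝ) (hs : Summable fun p : Nat.Primes => |x p| * ((p : ℕ) : ℝ) ^ (-(1 / 8) : ℝ)) :
    Summable (fun m : ℕ => ‖ff x m‖) := by
  set W : Nat.Primes → ℝ := fun p => |x p| * ((p : ℕ) : ℝ) ^ (-(1 / 8) : ℝ) with hW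
  have hW0 : ∀ p, 0 ≤ W p := fun p => by positivity
  have key : ∀ N : ℕ, Summable (fun m : N.smoothNumbers => ‖ff x m‖) ∧
      ∑' m : N.smoothNumbers, ‖ff x m‖ ≤ Real.exp (4 * ∑' p, W p) := by
    intro N
    have h1 := EulerProduct.summable_and_hasSum_smoothNumbers_prod_primesBelow_tsum (f := fun m => ‖ff x m‖)
      (by simp only [ff_one]; simp) (by
        intro m n h
        simp only [ff_mul x h, norm_mul]) (by
        intro p hp
        simp only [norm_norm]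
        exact (local_abs x ⟨p, hp⟩).1) N
    simp only [norm_norm] at h1
    refine ⟨h1.1, ?_⟩
    rw [h1.2.tsum_eq]
    have h2 : ∏ p ∈ N.primesBelow, ∑' n : ℕ, ‖ff x (p ^ n)‖ ≤
        ∏ p ∈ N.primesBelow, Real.exp (4 * (|x p| * (p : ℝ) ^ (-(1 / 8) : ℝ))) := by
      refine Finset.prod_le_prod (fun p _ => tsum_nonneg fun _ => norm_nonneg _) fun p hp => ?_
      exact (local_abs x ⟨p, Nat.prime_of_mem_primesBelow hp⟩).2
    refine h2.trans ?_
    rw [← Real.exp_sum]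
    apply Real.exp_le_exp.2
    rw [← Finset.mul_sum]
    apply mul_le_mul_of_nonneg_left _ (by norm_num)
    have h3 : ∑ p ∈ N.primesBelow, |x p| * (p : ℝ) ^ (-(1 / 8) : ℝ) = ∑ p ∈ N.primesBelow.subtype Nat.Prime, W p := by
      rw [Finset.sum_subtype_eq_sum_filter (f := fun p : ℕ => |x p| * (p : ℝ) ^ (-(1 / 8) : ℝ)) (p := Nat.Prime)]
      refine (Finset.sum_congr ?_ fun _ _ => rfl)
      ext p
      simp only [Finset.mem_filter]
      exact ⟨fun h => ⟨h, Nat.prime_of_mem_primesBelow h⟩, fun h => h.1⟩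
    rw [h3]
    have h4 : HasSum W (∑' p, W p) := hs.hasSum
    have h5 : ∀ S : Finset Nat.Primes, ∑ p ∈ S, W p ≤ ∑' p, W p := fun S => sum_le_hasSum S (fun p _ => hW0 p) h4
    exact h5 _
  refine summable_of_sum_le (c := Real.exp (4 * ∑' p, W p)) (fun _ => norm_nonneg _) fun s => ?_
  obtain ⟨N, hN⟩ : ∃ N : ℕ, ∀ m ∈ s, m < N := ⟨s.sup id + 1, fun m hm => Nat.lt_succ_of_le (Finset.le_sup (f := id) hm)⟩
  obtain ⟨h1, h2⟩ := key N
  refine le_trans ?_ h2
  classical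
  have h3 : ∑ m ∈ s, ‖ff x m‖ = ∑ m ∈ s.subtype (· ∈ N.smoothNumbers), ‖ff x (m : ℕ)‖ := by
    rw [Finset.sum_subtype_eq_sum_filter (f := fun m : ℕ => ‖ff x m‖) (p := (· ∈ N.smoothNumbers))]
    symm
    apply Finset.sum_filter_of_ne
    intro m hm h4
    have h5 : m ≠ 0 := by
      rintro rfl
      rw [ff_zero, norm_zero] at h4
      exact h4 rfl
    exact Nat.mem_smoothNumbers_of_lt (Nat.pos_of_ne_zero h5) (hN m hm)
  rw [h3]
  exact h1.sum_le_tsum _ fun _ _ => norm_nonneg _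

/-- the local factors of `Gm 1` -/
def hh (p : Nat.Primes) : ℝ := if (p : ℕ) = 2 then (1 : ℝ) else 1 - 1 / (((p : ℕ) : ℝ) * (((p : ℕ) : ℝ) + 1))

theorem hh_mult : Multipliable hh := by
  have h1 : Summable fun n : ℕ => (1 : ℝ) / (n : ℝ) ^ 2 := Real.summable_one_div_nat_pow.2 (by norm_num)
  have h2 : Summable fun p : Nat.Primes => (1 : ℝ) / ((p : ℕ) : ℝ) ^ 2 :=
    h1.comp_injective (i := fun p : Nat.Primes => (p : ℕ)) Subtype.val_injective
  have h3 : Summable fun p : Nat.Primes => ‖hh p - 1‖ := by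
    refine Summable.of_nonneg_of_le (fun _ => norm_nonneg _) (fun p => ?_) h2
    have hp : (2 : ℝ) ≤ (p : ℕ) := by exact_mod_cast p.2.two_le
    unfold hh
    split_ifs with h
    · rw [sub_self, norm_zero]
      positivity
    · have e1 : 1 - 1 / (((p : ℕ) : ℝ) * (((p : ℕ) : ℝ) + 1)) - 1 = -(1 / (((p : ℕ) : ℝ) * (((p : ℕ) : ℝ) + 1))) := by ring
      rw [e1, norm_neg, Real.norm_of_nonneg (by positivity)]
      apply one_div_le_one_div_of_le (by positivity)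
      nlinarith
  have h4 := multipliable_one_add_of_summable h3
  simpa using h4

theorem Gm_hasProd {m : ℕ} (hm : Odd m) : HasProd (fun p : Nat.Primes => if (p : ℕ) = 2 then (1 : ℝ) else
    if (p : ℕ) ∣ m then ((p : ℕ) : ℝ) / (((p : ℕ) : ℝ) + 1) else 1 - 1 / (((p : ℕ) : ℝ) * (((p : ℕ) : ℝ) + 1)))
    ((∏' p, hh p) * ∏ p ∈ m.primeFactors, rr p) := by
  have hm0 : m ≠ 0 := by
    rintro rfl
    simp at hm
  have h1 : HasProd (fun p : Nat.Primes => if (p : ℕ) ∣ m then rr p else 1) (∏ p ∈ m.primeFactors, rr p) := by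
    have h2 : ∀ b ∉ m.primeFactors.subtype Nat.Prime, (if (b : ℕ) ∣ m then rr b else 1) = 1 := by
      intro b hb
      rw [if_neg]
      intro h3
      apply hb
      rw [Finset.mem_subtype, Nat.mem_primeFactors]
      exact ⟨b.2, h3, hm0⟩
    have h3 : HasProd (fun b : Nat.Primes => if (b : ℕ) ∣ m then rr b else 1)
        (∏ b ∈ m.primeFactors.subtype Nat.Prime, (if (b : ℕ) ∣ m then rr b else 1)) :=
      hasProd_prod_of_ne_finset_one h2
    have h4 : ∏ b ∈ m.primeFactors.subtype Nat.Prime, (if (b : ℕ) ∣ m then rr b else 1) = ∏ p ∈ m.primeFactors, rr p := by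
      rw [Finset.prod_subtype_eq_prod_filter (f := fun b : ℕ => if b ∣ m then rr b else 1) (p := Nat.Prime)]
      rw [Finset.filter_true_of_mem fun p hp => Nat.prime_of_mem_primeFactors hp]
      exact Finset.prod_congr rfl fun p hp => if_pos (Nat.dvd_of_mem_primeFactors hp)
    rw [h4] at h3
    exact h3
  have h5 := hh_mult.hasProd.mul h1
  convert h5 using 2 with p
  unfold hh
  by_cases h6 : (p : ℕ) = 2
  · have h7 : ¬ (p : ℕ) ∣ m := by
      rw [h6]
      exact hm.not_two_dvd_nat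
    rw [if_pos h6, if_pos h6, if_neg h7, mul_one]
  · rw [if_neg h6, if_neg h6]
    split_ifs with h7
    · unfold rr
      rw [mul_div_cancel₀ _ (one_sub_pos p.2.two_le).ne']
    · rw [mul_one]

theorem Gm_eq {m : ℕ} (hm : Odd m) : Gm m = Gm 1 * ∏ p ∈ m.primeFactors, rr p := by
  unfold Gm
  rw [(Gm_hasProd hm).tprod_eq, (Gm_hasProd odd_one).tprod_eq]
  simp
  ring

theorem term_eq {x : ℕ → ℝ} (hx : x 2 = 0) (m : ℕ) : bm x m / cs m * Gm m = Gm 1 * ff x m := by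
  rcases eq_or_ne m 0 with rfl | hm
  · rw [ff_zero]
    unfold bm
    rw [if_pos rfl]
    simp
  rcases Nat.even_or_odd m with h | h
  · have h1 : 2 ∈ m.primeFactors := Nat.mem_primeFactors.2 ⟨Nat.prime_two, h.two_dvd, hm⟩
    have h2 : m.factorization 2 ≠ 0 := (Nat.prime_two.factorization_pos_of_dvd hm h.two_dvd).ne'
    obtain ⟨k, hk⟩ := Nat.exists_eq_succ_of_ne_zero h2
    have h3 : be (x 2) (m.factorization 2) = 0 := by
      rw [hx, hk]
      exact be_zero_succ k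
    have h4 : bm x m = 0 := by
      unfold bm
      rw [if_neg hm]
      exact Finset.prod_eq_zero h1 h3
    have h5 : ff x m = 0 := by
      unfold ff
      rw [if_neg hm]
      refine Finset.prod_eq_zero h1 ?_
      unfold fp
      rw [h3, zero_div, zero_mul]
    rw [h4, h5]
    simp
  · rw [Gm_eq h]
    unfold bm cs ff fp
    rw [if_neg hm, if_neg hm, Finset.prod_mul_distrib, Finset.prod_div_distrib]
    ring

theorem local_eq {x : ℕ → ℝ} (hx : x 2 = 0) (p : Nat.Primes) :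
    hh p * ∑' e : ℕ, ff x ((p : ℕ) ^ e) = if (p : ℕ) = 2 then (1 : ℝ) else (1 - 1 / ((p : ℕ) : ℝ)) * phQ p (1 + x p) := by
  unfold hh
  by_cases h6 : (p : ℕ) = 2
  · rw [if_pos h6, if_pos h6, one_mul, h6]
    have h7 : ∀ e : ℕ, e ≠ 0 → ff x (2 ^ e) = 0 := by
      intro e he
      obtain ⟨k, rfl⟩ := Nat.exists_eq_succ_of_ne_zero he
      exact ff_two hx k
    rw [tsum_eq_single 0 h7, pow_zero, ff_one]
  · rw [if_neg h6, if_neg h6, (local_sum x p).tsum_eq]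
    have hp : (2 : ℝ) ≤ (p : ℕ) := by exact_mod_cast p.2.two_le
    have h1 := one_sub_pos p.2.two_le
    unfold phQ
    set A := (1 - (√((p : ℕ) : ℝ))⁻¹) ^ (-(1 + x p)) with hA
    set B := (1 + (√((p : ℕ) : ℝ))⁻¹) ^ (-(1 + x p)) with hB
    have h2 : (1 - 1 / (((p : ℕ) : ℝ) * (((p : ℕ) : ℝ) + 1))) * rr p = ((p : ℕ) : ℝ) / (((p : ℕ) : ℝ) + 1) := by
      unfold rr
      rw [mul_div_cancel₀ _ h1.ne']
    have e1 : (1 - 1 / (((p : ℕ) : ℝ) * (((p : ℕ) : ℝ) + 1))) * (rr p * (1 / 2 * (1 - 1 / ((p : ℕ) : ℝ)) * (A + B)) + (1 - rr p)) =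
        (1 - 1 / (((p : ℕ) : ℝ) * (((p : ℕ) : ℝ) + 1))) * rr p * (1 / 2 * (1 - 1 / ((p : ℕ) : ℝ)) * (A + B)) +
        ((1 - 1 / (((p : ℕ) : ℝ) * (((p : ℕ) : ℝ) + 1))) - (1 - 1 / (((p : ℕ) : ℝ) * (((p : ℕ) : ℝ) + 1))) * rr p) := by ring
    rw [e1, h2]
    have hp0 : ((p : ℕ) : ℝ) ≠ 0 := by linarith
    have hp1 : ((p : ℕ) : ℝ) + 1 ≠ 0 := by linarith
    field_simp
    ring

end A2

theorem a2 : StA2 := by
  intro x hx hs
  have h1 := A2.summ x hs
  have h2 := EulerProduct.eulerProduct_hasProd (f := A2.ff x) (A2.ff_one x) (fun {m n} h => A2.ff_mul x h) h1 (A2.ff_zero x)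
  have h3 := A2.hh_mult.hasProd.mul h2
  have h4 : (∏' p : Nat.Primes, if (p : ℕ) = 2 then (1 : ℝ) else (1 - 1 / ((p : ℕ) : ℝ)) * phQ p (1 + x p)) =
      (∏' p, A2.hh p) * ∑' n, A2.ff x n := by
    rw [← h3.tprod_eq]
    exact tprod_congr fun p => (A2.local_eq hx p).symm
  rw [h4]
  have h5 : (1 : ℝ) / 2 * ((∏' p, A2.hh p) * ∑' n, A2.ff x n) = Gm 1 * ∑' n, A2.ff x n := by
    unfold Gm
    rw [(A2.Gm_hasProd odd_one).tprod_eq]
    simp
    ring
  rw [h5]
  have h6 : (fun m : ℕ => bm x m / cs m * Gm m) = fun m => Gm 1 * A2.ff x m := funext fun m => A2.term_eq hx m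
  rw [h6]
  exact (h1.of_norm.hasSum).mul_left _

end

end Pool.Agent.K4H95.LQ
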