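import Pool.Agent.K4H95.LQ.Spec

/-!
# Piece A3: the weights are summable, and the asymptotics as `T → ∞`
-/

set_option autoImplicit false

namespace Pool.Agent.K4H95.LQ

open Filter Topology Pool.Agent.X278.AV Pool.Agent.W189.ML

/-- the weights are summable against `p^{-1/8}` -/
theorem wr_sum (γ k T : ℝ) (hT : 0 < T) : Summable fun p : Nat.Primes =>
    |k * wr γ (Real.log (p : ℕ) / T)| * ((p : ℕ) : ℝ) ^ (-(1 / 8) : ℝ) := by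
  have h1 : Summable fun p : Nat.Primes => ((p : ℕ) : ℝ) ^ (-(2 : ℝ)) :=
    Pool.Agent.X287.CR.on_sys.sum 2 (by norm_num)
  refine Summable.of_nonneg_of_le (fun p => by positivity) (fun p => ?_)
    (h1.mul_left (|k| * (Real.exp (Real.exp (2 * T)) + 1)))
  have hp0 : (0 : ℝ) < (p : ℕ) := by exact_mod_cast p.2.pos
  have hp1 : (1 : ℝ) ≤ (p : ℕ) := by exact_mod_cast p.2.one_le
  have hx : 0 ≤ Real.log (p : ℕ) / T := div_nonneg (Real.log_nonneg hp1) hT.le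
  have h2 := (wr_le γ hx).trans (om_le (a := 2 * T) (v := Real.log (p : ℕ) / T) (by linarith) hx)
  have h3 : 2 * T * (Real.log (p : ℕ) / T) = 2 * Real.log (p : ℕ) := by field_simp
  have h4 : Real.exp (-(2 * Real.log (p : ℕ))) = ((p : ℕ) : ℝ) ^ (-(2 : ℝ)) := by
    rw [Real.rpow_def_of_pos hp0]
    congr 1
    ring
  rw [h3, h4] at h2
  have h5 : ((p : ℕ) : ℝ) ^ (-(1 / 8) : ℝ) ≤ 1 := Real.rpow_le_one_of_one_le_of_nonpos hp1 (by norm_num)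
  have h6 : 0 ≤ ((p : ℕ) : ℝ) ^ (-(1 / 8) : ℝ) := by positivity
  rw [abs_mul]
  calc |k| * |wr γ (Real.log (p : ℕ) / T)| * ((p : ℕ) : ℝ) ^ (-(1 / 8) : ℝ)
      ≤ |k| * |wr γ (Real.log (p : ℕ) / T)| * 1 := by gcongr
    _ ≤ |k| * ((Real.exp (Real.exp (2 * T)) + 1) * ((p : ℕ) : ℝ) ^ (-(2 : ℝ))) * 1 := by gcongr
    _ = _ := by ring

theorem one_sub_pos (p : Nat.Primes) : 0 < 1 - (((p : ℕ) : ℝ))⁻¹ := by
  have := inv_half p
  linarith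

/-- the constant factor `(1 - 1/p) phQ p 1` -/
theorem cfac_sum : Summable fun p : Nat.Primes => Real.log ((1 - (((p : ℕ) : ℝ))⁻¹) * phQ (p : ℕ) 1) := by
  obtain ⟨C, hC⟩ := phQ_exp 1
  have h1 : Summable fun p : Nat.Primes => Real.log (phQ (p : ℕ) 1) - (((p : ℕ) : ℝ))⁻¹ := by
    refine Summable.of_norm_bounded (sum_32 (C := C)) fun p => ?_
    have h2 := hC p 1 (by norm_num)
    rw [Real.norm_eq_abs]
    have e : (1 / 2 * 1 + 1 / 2 * 1 ^ 2 : ℝ) / (p : ℕ) = (((p : ℕ) : ℝ))⁻¹ := by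
      rw [div_eq_mul_inv]
      ring
    rwa [e] at h2
  refine (log_inv_sum.add h1).congr fun p => ?_
  rw [Real.log_mul (one_sub_pos p).ne' (phQ_pos p 1).ne']
  ring

/-- **Piece A3.** -/
theorem a3 : StA3 := by
  intro γ
  refine ⟨fun k T hT => wr_sum γ k T hT, ?_⟩
  obtain ⟨κ₁, κ₂, hκ₁, hκ₂, hmain⟩ := prod_asymp γ (3 / 2) (1 / 2)
  refine ⟨κ₁, κ₂, hκ₁, hκ₂, fun k => ?_⟩
  have hpos : ∀ (p : Nat.Primes) (x : ℝ), 0 < phQ (p : ℕ) (1 + x) / phQ (p : ℕ) 1 := fun p x =>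
    div_pos (phQ_pos p _) (phQ_pos p _)
  have hcont : ∀ p : Nat.Primes, Continuous fun x : ℝ => phQ (p : ℕ) (1 + x) / phQ (p : ℕ) 1 := fun p =>
    ((phQ_cont p).comp (continuous_const.add continuous_id)).div_const _
  have hexp : ∀ K : ℝ, ∃ C : ℝ, ∀ (p : Nat.Primes) (x : ℝ), |x| ≤ K →
      |Real.log (phQ (p : ℕ) (1 + x) / phQ (p : ℕ) 1) - (3 / 2 * x + 1 / 2 * x ^ 2) / (p : ℕ)| ≤
        C / (√((p : ℕ) : ℝ) * (p : ℕ)) := by
    intro K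
    obtain ⟨C, hC⟩ := phQ_exp (1 + K)
    obtain ⟨C₁, hC₁⟩ := phQ_exp 1
    refine ⟨C + C₁, fun p x hx => ?_⟩
    have h1 := hC p (1 + x) ((abs_add_le _ _).trans (by rw [abs_one]; linarith))
    have h2 := hC₁ p 1 (by norm_num)
    rw [Real.log_div (phQ_pos p _).ne' (phQ_pos p _).ne']
    have e : Real.log (phQ (p : ℕ) (1 + x)) - Real.log (phQ (p : ℕ) 1) - (3 / 2 * x + 1 / 2 * x ^ 2) / (p : ℕ) =
        (Real.log (phQ (p : ℕ) (1 + x)) - (1 / 2 * (1 + x) + 1 / 2 * (1 + x) ^ 2) / (p : ℕ)) -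
        (Real.log (phQ (p : ℕ) 1) - (1 / 2 * 1 + 1 / 2 * 1 ^ 2) / (p : ℕ)) := by ring
    rw [e, add_div C C₁]
    exact (abs_sub _ _).trans (add_le_add h1 h2)
  obtain ⟨h1, h2, h3⟩ := hmain (fun p x => phQ (p : ℕ) (1 + x) / phQ (p : ℕ) 1) hpos hcont hexp k
  have hexpo : (3 / 2 * k + 1 / 2 * k ^ 2 : ℝ) = k * (k + 3) / 2 := by ring
  rw [hexpo] at h1 h3
  -- the identity of the factors
  have e1 : ∀ p : Nat.Primes, (1 - (((p : ℕ) : ℝ))⁻¹) ^ ((k + 1) * (k + 2) / 2) * phQ p (k + 1) =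
      ((1 - (((p : ℕ) : ℝ))⁻¹) * phQ (p : ℕ) 1) *
        ((1 - (((p : ℕ) : ℝ))⁻¹) ^ (k * (k + 3) / 2) * (phQ (p : ℕ) (1 + k) / phQ (p : ℕ) 1)) := by
    intro p
    have e2 : (k + 1) * (k + 2) / 2 = 1 + k * (k + 3) / 2 := by ring
    rw [e2, Real.rpow_add (one_sub_pos p), Real.rpow_one, add_comm k 1]
    have := (phQ_pos p 1).ne'
    field_simp
  have hC0 : ∀ p : Nat.Primes, 0 < (1 - (((p : ℕ) : ℝ))⁻¹) * phQ (p : ℕ) 1 := fun p =>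
    mul_pos (one_sub_pos p) (phQ_pos p 1)
  have hP0 : ∀ p : Nat.Primes, 0 < (1 - (((p : ℕ) : ℝ))⁻¹) ^ (k * (k + 3) / 2) *
      (phQ (p : ℕ) (1 + k) / phQ (p : ℕ) 1) := fun p =>
    mul_pos (Real.rpow_pos_of_pos (one_sub_pos p) _) (hpos p k)
  have hPs : Summable fun p : Nat.Primes => Real.log ((1 - (((p : ℕ) : ℝ))⁻¹) ^ (k * (k + 3) / 2) *
      (phQ (p : ℕ) (1 + k) / phQ (p : ℕ) 1)) := by
    refine h1.congr fun p => ?_
    rw [Real.log_mul (Real.rpow_pos_of_pos (one_sub_pos p) _).ne' (hpos p k).ne',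
      Real.log_rpow (one_sub_pos p)]
  have mC : Multipliable fun p : Nat.Primes => (1 - (((p : ℕ) : ℝ))⁻¹) * phQ (p : ℕ) 1 :=
    Real.multipliable_of_summable_log hC0 cfac_sum
  have mP : Multipliable fun p : Nat.Primes => (1 - (((p : ℕ) : ℝ))⁻¹) ^ (k * (k + 3) / 2) *
      (phQ (p : ℕ) (1 + k) / phQ (p : ℕ) 1) := Real.multipliable_of_summable_log hP0 hPs
  constructor
  · refine (cfac_sum.add hPs).congr fun p => ?_
    rw [e1 p, Real.log_mul (hC0 p).ne' (hP0 p).ne']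
  · have e3 : ∏' p : Nat.Primes, (1 - (((p : ℕ) : ℝ))⁻¹) ^ ((k + 1) * (k + 2) / 2) * phQ p (k + 1) =
        (∏' p : Nat.Primes, (1 - (((p : ℕ) : ℝ))⁻¹) * phQ (p : ℕ) 1) *
        ∏' p : Nat.Primes, (1 - (((p : ℕ) : ℝ))⁻¹) ^ (k * (k + 3) / 2) *
          (phQ (p : ℕ) (1 + k) / phQ (p : ℕ) 1) := by
      rw [tprod_congr e1, mC.tprod_mul mP]
    rw [e3]
    have h4 := h3.const_mul (1 / 2 * ∏' p : Nat.Primes, (1 - (((p : ℕ) : ℝ))⁻¹) * phQ (p : ℕ) 1)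
    have e4 : (1 / 2 * ∏' p : Nat.Primes, (1 - (((p : ℕ) : ℝ))⁻¹) * phQ (p : ℕ) 1) *
        ((∏' p : Nat.Primes, (1 - (((p : ℕ) : ℝ))⁻¹) ^ (k * (k + 3) / 2) *
          (phQ (p : ℕ) (1 + k) / phQ (p : ℕ) 1)) * κ₁ ^ k * κ₂ ^ (k ^ 2)) =
        1 / 2 * ((∏' p : Nat.Primes, (1 - (((p : ℕ) : ℝ))⁻¹) * phQ (p : ℕ) 1) *
        ∏' p : Nat.Primes, (1 - (((p : ℕ) : ℝ))⁻¹) ^ (k * (k + 3) / 2) *
          (phQ (p : ℕ) (1 + k) / phQ (p : ℕ) 1)) * κ₁ ^ k * κ₂ ^ (k ^ 2) := by ring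
    rw [e4] at h4
    refine h4.congr' ?_
    filter_upwards [eventually_gt_atTop (0 : ℝ)] with T hT
    have mT : Multipliable fun p : Nat.Primes =>
        phQ (p : ℕ) (1 + k * wr γ (Real.log (p : ℕ) / T)) / phQ (p : ℕ) 1 :=
      Real.multipliable_of_summable_log (fun p => hpos p _) (h2 T hT)
    have e5 : ∀ p : Nat.Primes, (1 - 1 / ((p : ℕ) : ℝ)) * phQ p (1 + k * wr γ (Real.log (p : ℕ) / T)) =
        ((1 - (((p : ℕ) : ℝ))⁻¹) * phQ (p : ℕ) 1) *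
          (phQ (p : ℕ) (1 + k * wr γ (Real.log (p : ℕ) / T)) / phQ (p : ℕ) 1) := by
      intro p
      have := (phQ_pos p 1).ne'
      rw [one_div]
      field_simp
    rw [tprod_congr e5, mC.tprod_mul mT]
    ring

end Pool.Agent.K4H95.LQ
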