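import Pool.Agent.K4H95.LQ.Fs
import Pool.Agent.K4H95.LQ.Psi

/-!
# Partial summation with a monotone weight
-/

set_option autoImplicit false

namespace Pool.Agent.K4H95.LQ

open Finset Filter Topology Pool.Agent.H306R2.RG Pool.Agent.H306R2.RZ

noncomputable section

lemma abel_aux {b W : ℕ → ℝ} {X : ℕ} {E : ℝ} (hB : ∀ x, 1 ≤ x → x ≤ X → |∑ d ∈ Icc 1 x, b d| ≤ E)
    (hW : ∀ d, 1 ≤ d → W d ≤ W (d + 1)) (x : ℕ) (hx : 1 ≤ x) : x ≤ X →
    |∑ d ∈ Icc 1 x, b d * W d - (∑ d ∈ Icc 1 x, b d) * W x| ≤ E * (W x - W 1) := by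
  induction x, hx using Nat.le_induction with
  | base => intro _; simp
  | succ x hx ih =>
    intro hx2
    have h1 := ih (by omega)
    have h2 := hB x hx (by omega)
    rw [Finset.sum_Icc_succ_top (by omega), Finset.sum_Icc_succ_top (by omega)]
    have h3 := hW x hx
    have e1 : ∑ d ∈ Icc 1 x, b d * W d + b (x + 1) * W (x + 1) - (∑ d ∈ Icc 1 x, b d + b (x + 1)) * W (x + 1) =
      (∑ d ∈ Icc 1 x, b d * W d - (∑ d ∈ Icc 1 x, b d) * W x) - (∑ d ∈ Icc 1 x, b d) * (W (x + 1) - W x) := by ring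
    rw [e1]
    refine (abs_sub _ _).trans ?_
    rw [abs_mul, abs_of_nonneg (sub_nonneg.2 h3)]
    have := mul_le_mul_of_nonneg_right h2 (sub_nonneg.2 h3)
    linarith

lemma abel_bd {b W : ℕ → ℝ} {X : ℕ} {E : ℝ} (hE : 0 ≤ E) (hB : ∀ x, 1 ≤ x → x ≤ X → |∑ d ∈ Icc 1 x, b d| ≤ E)
    (hW : ∀ d, 1 ≤ d → W d ≤ W (d + 1)) (hW0 : ∀ d, 0 ≤ W d) (hX : 1 ≤ X) :
    |∑ d ∈ Icc 1 X, b d * W d| ≤ 2 * E * W X := by
  have h1 := abel_aux hB hW X hX le_rfl
  have h2 := hB X hX le_rfl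
  have h3 : |(∑ d ∈ Icc 1 X, b d) * W X| ≤ E * W X := by
    rw [abs_mul, abs_of_nonneg (hW0 X)]
    exact mul_le_mul_of_nonneg_right h2 (hW0 X)
  have h4 : 0 ≤ E * W 1 := mul_nonneg hE (hW0 1)
  have e1 : ∑ d ∈ Icc 1 X, b d * W d = (∑ d ∈ Icc 1 X, b d * W d - (∑ d ∈ Icc 1 X, b d) * W X) +
      (∑ d ∈ Icc 1 X, b d) * W X := by ring
  rw [e1]
  refine (abs_add_le _ _).trans ?_
  linarith

variable (φ : FD)

/-- the weight of `n` in the `d`-th sum -/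
def WW (c : ℝ) (n d : ℕ) : ℝ := Psi φ (Real.log ((φ.r : ℝ) * d) / 2 - c - Real.log n)

lemma WW_nonneg (c : ℝ) (n d : ℕ) : 0 ≤ WW φ c n d := Psi_nonneg φ _

variable {φ}

lemma r_pos (hφ : Fam φ) : (0:ℝ) < φ.r := by
  have hr : 0 < φ.r := by
    obtain ⟨ε, hε, h | h | h | h⟩ := hφ <;> rw [h] <;> simp [F8, F4, F1]
  exact_mod_cast hr

lemma r_one (hφ : Fam φ) : (1:ℝ) ≤ φ.r := by
  have hr : 1 ≤ φ.r := by
    obtain ⟨ε, hε, h | h | h | h⟩ := hφ <;> rw [h] <;> simp [F8, F4, F1]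
  exact_mod_cast hr

lemma WW_mono (hφ : Fam φ) (c : ℝ) (n d : ℕ) (hd : 1 ≤ d) : WW φ c n d ≤ WW φ c n (d + 1) := by
  apply Psi_mono
  have hd' : (0:ℝ) < d := by exact_mod_cast hd
  have h1 : Real.log ((φ.r : ℝ) * d) ≤ Real.log ((φ.r : ℝ) * ((d + 1 : ℕ) : ℝ)) := by
    apply Real.log_le_log (mul_pos (r_pos hφ) hd')
    push_cast
    nlinarith [r_pos hφ]
  linarith

open Classical in
/-- the weighted sum of the characters at `n m` -/
def TT (φ : FD) (c : ℝ) (m n X : ℕ) : ℝ :=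
  ∑ d ∈ (Icc 1 X).filter (fun d => φ.A d ∧ Squarefree d), jo φ d (n * m) * WW φ c n d

/-- the density of the family, cut down to the integers prime to `N`, for an odd square `N` -/
def sqi (φ : FD) (N : ℕ) : ℝ := open Classical in if Odd N ∧ IsSquare N then φ.δ * (8 / Real.pi ^ 2) * gg N else 0

lemma psi_pow : ∃ C : ℝ, 0 < C ∧ ∀ z : ℝ, Psi φ z ≤ C * Real.exp (15 / 16 * z) := by
  obtain ⟨C, hC, h⟩ := Psi_decay φ
  refine ⟨max C 1, by positivity, fun z => ?_⟩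
  rcases le_total z 0 with hz | hz
  · refine (h z).trans ?_
    have h1 : Real.exp (2 * z) ≤ Real.exp (15 / 16 * z) := Real.exp_le_exp.2 (by linarith)
    have h2 : C ≤ max C 1 := le_max_left _ _
    calc _ ≤ max C 1 * Real.exp (2 * z) := by gcongr
      _ ≤ _ := by gcongr
  · refine (Psi_le φ z).trans ?_
    have h1 : (1:ℝ) ≤ Real.exp (15 / 16 * z) := Real.one_le_exp (by positivity)
    have h2 : (1:ℝ) ≤ max C 1 := le_max_right _ _
    nlinarith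

theorem T_bd (hP : StP) (hφ : Fam φ) : ∃ K : ℝ, 0 ≤ K ∧ ∀ (c : ℝ) (m n X : ℕ), 0 ≤ c → 1 ≤ m → 1 ≤ n → 1 ≤ X →
    |TT φ c m n X - sqi φ (n * m) * ∑ d ∈ Icc 1 X, WW φ c n d| ≤
      K * ((n * m : ℕ) : ℝ) ^ (3 / 8 : ℝ) * (√X * (1 + Real.log X)) * WW φ 0 n X := by
  classical
  obtain ⟨K, hK, h⟩ := fam_sum hP hφ
  refine ⟨2 * K, by positivity, fun c m n X hc hm hn hX => ?_⟩
  have hXr : (1:ℝ) ≤ X := by exact_mod_cast hX
  have hlX : 0 ≤ Real.log X := Real.log_nonneg hXr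
  by_cases ho : Odd (n * m)
  · set N := n * m with hN
    set μ : ℝ := sqi φ N with hμ
    have hμ' : μ = if IsSquare N then φ.δ * (8 / Real.pi ^ 2) * gg N else 0 := by
      rw [hμ]
      unfold sqi
      simp [ho]
    set b : ℕ → ℝ := fun d => (if φ.A d ∧ Squarefree d then jo φ d N else 0) - μ with hb
    set E : ℝ := K * (N : ℝ) ^ (3 / 8 : ℝ) * (√X * (1 + Real.log X)) with hE
    have hE0 : 0 ≤ E := by positivity
    have hB : ∀ x, 1 ≤ x → x ≤ X → |∑ d ∈ Icc 1 x, b d| ≤ E := by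
      intro x hx hxX
      have h1 := h N ho x hx
      have e1 : ∑ d ∈ Icc 1 x, b d = sN φ N x - (if IsSquare N then φ.δ * (8 / Real.pi ^ 2) * gg N else 0) * x := by
        rw [hb, sum_sub_distrib, sum_const, nsmul_eq_mul, Nat.card_Icc, Nat.add_sub_cancel, ← hμ']
        unfold sN
        rw [sum_filter]
        ring
      rw [e1]
      refine h1.trans ?_
      rw [hE]
      have hxr : (1:ℝ) ≤ x := by exact_mod_cast hx
      have hxX' : (x:ℝ) ≤ X := by exact_mod_cast hxX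
      have h2 : Real.log x ≤ Real.log X := Real.log_le_log (by linarith) hxX'
      have h3 : 0 ≤ Real.log x := Real.log_nonneg hxr
      gcongr
    have h1 := abel_bd hE0 hB (WW_mono hφ c n) (WW_nonneg φ c n) hX
    have e2 : TT φ c m n X - μ * ∑ d ∈ Icc 1 X, WW φ c n d = ∑ d ∈ Icc 1 X, b d * WW φ c n d := by
      unfold TT
      rw [sum_filter, mul_sum, ← sum_sub_distrib]
      refine sum_congr rfl fun d _ => ?_
      rw [hb]
      simp only
      split_ifs <;> ring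
    rw [e2]
    refine h1.trans ?_
    have h2 : WW φ c n X ≤ WW φ 0 n X := by
      apply Psi_mono
      linarith
    calc 2 * E * WW φ c n X ≤ 2 * E * WW φ 0 n X := by gcongr
      _ = _ := by rw [hE]; ring
  · have h1 : TT φ c m n X = 0 := by
      unfold TT
      refine sum_eq_zero fun d _ => ?_
      unfold jo
      rw [if_neg ho, zero_mul]
    have h2 : sqi φ (n * m) = 0 := by
      unfold sqi
      rw [if_neg (fun h => ho h.1)]
    rw [h1, h2, zero_mul, sub_zero, abs_zero]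
    have := WW_nonneg φ 0 n X
    positivity

/-- the power bound for the weight -/
lemma WW_pow (hφ : Fam φ) : ∃ C : ℝ, 0 < C ∧ ∀ (c : ℝ) (n d : ℕ), 0 ≤ c → 1 ≤ n → 1 ≤ d →
    WW φ c n d ≤ C * (d : ℝ) ^ (15 / 32 : ℝ) * (n : ℝ) ^ (-(15 / 16) : ℝ) := by
  obtain ⟨C, hC, h⟩ := psi_pow (φ := φ)
  have hr := r_pos hφ
  refine ⟨C * (φ.r : ℝ) ^ (15 / 32 : ℝ), by positivity, fun c n d hc hn hd => ?_⟩
  have hn' : (0:ℝ) < n := by exact_mod_cast hn
  have hd' : (0:ℝ) < d := by exact_mod_cast hd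
  refine (h _).trans ?_
  have e1 : Real.exp (15 / 16 * (Real.log ((φ.r : ℝ) * d) / 2 - c - Real.log n)) ≤
      (φ.r : ℝ) ^ (15 / 32 : ℝ) * (d : ℝ) ^ (15 / 32 : ℝ) * (n : ℝ) ^ (-(15 / 16) : ℝ) := by
    rw [Real.rpow_def_of_pos hr, Real.rpow_def_of_pos hd', Real.rpow_def_of_pos hn', ← Real.exp_add, ← Real.exp_add,
      Real.log_mul hr.ne' hd'.ne']
    apply Real.exp_le_exp.2
    linarith
  calc C * Real.exp (15 / 16 * (Real.log ((φ.r : ℝ) * d) / 2 - c - Real.log n)) ≤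
      C * ((φ.r : ℝ) ^ (15 / 32 : ℝ) * (d : ℝ) ^ (15 / 32 : ℝ) * (n : ℝ) ^ (-(15 / 16) : ℝ)) := by gcongr
    _ = _ := by ring

end

end Pool.Agent.K4H95.LQ
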