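import Pool.Agent.K4H95.LQ.Spec5

set_option autoImplicit false

/-!
B2: a uniform bound for `CS (Psi φ) S a`
-/

namespace Pool.Agent.K4H95.LQ

open Filter Topology MeasureTheory Pool.Agent.H306R2.RG Pool.Agent.H306R2.RZ

namespace PB2

lemma pim_abs (p : ℕ) (x : ℝ) : |pim p x| ≤ 1 := by
  have hp : (0 : ℝ) ≤ p := Nat.cast_nonneg p
  unfold pim
  split_ifs
  · rw [abs_of_nonneg (by positivity), div_le_one (by positivity)]
    linarith
  · rw [abs_of_nonneg (by positivity), div_le_one (by positivity)]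
    linarith

lemma rho_abs (S : Finset ℕ) {a : ℕ → ℝ} (ha : Pat a) (N : ℕ) : |rho S a N| ≤ 1 := by
  unfold rho
  split_ifs
  · rw [abs_mul, Finset.abs_prod, Finset.abs_prod]
    refine mul_le_one₀ (Finset.prod_le_one (fun p _ => abs_nonneg _) fun p _ => ?_)
      (Finset.prod_nonneg fun p _ => abs_nonneg _)
      (Finset.prod_le_one (fun p _ => abs_nonneg _) fun p _ => ?_)
    · rw [abs_mul, abs_pow]
      refine mul_le_one₀ (pim_abs _ _) (by positivity) (pow_le_one₀ (abs_nonneg _) ?_)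
      rcases ha p with h | h | h <;> rw [h] <;> simp
    · have hp : (0 : ℝ) ≤ p := Nat.cast_nonneg p
      rw [abs_of_nonneg (by positivity), div_le_one (by positivity)]
      linarith
  · simp

lemma sum_pow : Summable fun n : ℕ => 1 / (((n : ℝ) + 1) ^ (5 / 2 : ℝ)) := by
  have h := (Real.summable_one_div_nat_rpow (p := 5 / 2)).2 (by norm_num)
  have h2 := (summable_nat_add_iff 1).2 h
  refine h2.congr fun n => ?_
  push_cast
  rfl

end PB2

open PB2 in
/-- B2 -/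
theorem b2 : StB2 := by
  intro _ φ
  obtain ⟨C, hC, hdec⟩ := Psi_decay φ
  refine ⟨C * ∑' n : ℕ, 1 / (((n : ℝ) + 1) ^ (5 / 2 : ℝ)),
    mul_nonneg hC.le (tsum_nonneg fun n => by positivity), fun S a _ ha => ?_⟩
  have hb : ∀ (z : ℝ) (n : ℕ), ‖rho S a (n + 1) / √((n : ℝ) + 1) * Psi φ (z - Real.log ((n : ℝ) + 1))‖ ≤
      C * Real.exp (2 * z) * (1 / (((n : ℝ) + 1) ^ (5 / 2 : ℝ))) := by
    intro z n
    have hn : (0 : ℝ) < (n : ℝ) + 1 := by positivity
    rw [Real.norm_eq_abs, abs_mul, abs_div, abs_of_nonneg (Real.sqrt_nonneg _), abs_of_nonneg (Psi_nonneg φ _)]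
    have h1 : |rho S a (n + 1)| / √((n : ℝ) + 1) ≤ 1 / √((n : ℝ) + 1) :=
      div_le_div_of_nonneg_right (rho_abs S ha _) (Real.sqrt_nonneg _)
    have h2 := hdec (z - Real.log ((n : ℝ) + 1))
    have e : Real.exp (2 * (z - Real.log ((n : ℝ) + 1))) = Real.exp (2 * z) / ((n : ℝ) + 1) ^ (2 : ℝ) := by
      rw [mul_sub, Real.exp_sub, Real.rpow_def_of_pos hn, mul_comm (Real.log _) 2]
    rw [e] at h2
    refine (mul_le_mul h1 h2 (Psi_nonneg φ _) (by positivity)).trans_eq ?_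
    have e2 : ((n : ℝ) + 1) ^ (5 / 2 : ℝ) = √((n : ℝ) + 1) * ((n : ℝ) + 1) ^ (2 : ℝ) := by
      rw [Real.sqrt_eq_rpow, ← Real.rpow_add hn]
      norm_num
    rw [e2]
    have h3 : √((n : ℝ) + 1) ≠ 0 := (Real.sqrt_pos.2 hn).ne'
    have h4 : ((n : ℝ) + 1) ^ (2 : ℝ) ≠ 0 := (Real.rpow_pos_of_pos hn _).ne'
    field_simp
  have hsum : ∀ z : ℝ, Summable fun n : ℕ => C * Real.exp (2 * z) * (1 / (((n : ℝ) + 1) ^ (5 / 2 : ℝ))) :=
    fun z => sum_pow.mul_left _
  constructor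
  · have hlim : Tendsto (fun N : ℕ => fun z : ℝ => ∑ n ∈ Finset.range N,
        rho S a (n + 1) / √((n : ℝ) + 1) * Psi φ (z - Real.log ((n : ℝ) + 1))) atTop (𝓝 (CS (Psi φ) S a)) := by
      rw [tendsto_pi_nhds]
      intro z
      exact (Summable.of_norm_bounded (hsum z) (hb z)).hasSum.tendsto_sum_nat
    refine measurable_of_tendsto_metrizable (fun N => ?_) hlim
    refine Finset.measurable_fun_sum _ fun n _ => ?_
    exact ((Psi_mono φ).measurable.comp (measurable_id.sub_const _)).const_mul _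
  · intro z
    have h := tsum_of_norm_bounded (hsum z).hasSum (hb z)
    rw [tsum_mul_left] at h
    calc |CS (Psi φ) S a z| ≤ C * Real.exp (2 * z) * ∑' n : ℕ, 1 / (((n : ℝ) + 1) ^ (5 / 2 : ℝ)) := h
      _ = _ := by ring

end Pool.Agent.K4H95.LQ
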