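import Pool.Agent.K4H95.LQ.Spec
import Pool.Agent.H423R2.RGL.CC1
import Pool.Agent.H423R2.RGL.CLS
import Pool.Agent.H423R2.RGL.INJ

/-!
# The sum over the real primitive characters of given parity as a sum over four families
-/

set_option autoImplicit false

namespace Pool.Agent.K4H95.LQ

open Filter Topology Pool.Agent.X278.AV Pool.Agent.H306R2.RG

noncomputable section

/-- a character is determined by its values at the positive integers -/
theorem sigma_char_ext (p q : Σ N : ℕ, DirichletCharacter ℂ N) (h0 : p.1 ≠ 0) (h1 : p.1 = q.1)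
    (h2 : ∀ n : ℕ, n ≠ 0 → p.2 (n : ZMod p.1) = q.2 (n : ZMod q.1)) : p = q := by
  obtain ⟨N, χ⟩ := p
  obtain ⟨M, ψ⟩ := q
  simp only at h0 h1 h2
  subst h1
  have : NeZero N := ⟨h0⟩
  have h3 : χ = ψ := by
    apply MulChar.ext'
    intro a
    have h4 := h2 (a.val + N) (by omega)
    simpa using h4
  rw [h3]

open Classical in
theorem d : StD := by
  intro ε hε F G hFG X
  let fam : Fin 4 → FD := ![F8 ε, F4 ε, F1 ε 1, F1 ε 5]
  have hfam : ∀ i, Fam (fam i) := by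
    intro i
    fin_cases i
    · exact ⟨ε, hε, Or.inl rfl⟩
    · exact ⟨ε, hε, Or.inr (Or.inl rfl)⟩
    · exact ⟨ε, hε, Or.inr (Or.inr (Or.inl rfl))⟩
    · exact ⟨ε, hε, Or.inr (Or.inr (Or.inr rfl))⟩
  have hr0 : ∀ i, 0 < (fam i).r := by
    intro i
    fin_cases i <;> simp [fam, F8, F4, F1]
  have ha : ∀ i, (if (fam i).a = 0 then (1 : ℂ) else -1) = ((ε : ℤ) : ℂ) := by
    intro i
    rcases hε with rfl | rfl <;> fin_cases i <;> simp [fam, F8, F4, F1]
  have hinj : Function.Injective fam := by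
    intro i j hij
    have h1 : (fam i).r = (fam j).r := by rw [hij]
    have h2 : (fam i).η = (fam j).η := by rw [hij]
    fin_cases i <;> fin_cases j <;> simp [fam, F8, F4, F1] at h1 h2 ⊢ <;> norm_num at h2
  -- the characters
  have hP : ∀ x : (Σ _ : Fin 4, ℕ), ∃ p : (Σ N : ℕ, DirichletCharacter ℂ N),
      (fam x.1).A x.2 → Squarefree x.2 → 0 < x.2 ∧
        ∃ χ : DirichletCharacter ℂ ((fam x.1).r * x.2), p = ⟨(fam x.1).r * x.2, χ⟩ ∧
          χ.IsPrimitive ∧ χ ^ 2 = 1 ∧ χ ≠ 1 ∧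
          (∀ n : ℕ, n ≠ 0 → χ (n : ZMod ((fam x.1).r * x.2)) = ((cf (fam x.1) x.2 n : ℝ) : ℂ)) ∧
          χ (-1) = ((ε : ℤ) : ℂ) := by
    intro x
    by_cases h : (fam x.1).A x.2 ∧ Squarefree x.2
    · obtain ⟨h0, χ, h1, h2, h3, h4, h5⟩ := LnkC.CC1 (fam x.1) (hfam x.1) x.2 h.1 h.2
      exact ⟨⟨_, χ⟩, fun _ _ => ⟨h0, χ, rfl, h1, h2, h3, h4, by rw [h5, ha]⟩⟩
    · exact ⟨⟨0, 1⟩, fun h1 h2 => absurd ⟨h1, h2⟩ h⟩
  choose P hP using hP
  let T : Fin 4 → Finset ℕ := fun i =>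
    (Finset.Icc 1 (X / (fam i).r)).filter (fun d => (fam i).A d ∧ Squarefree d)
  let U : Finset (Σ _ : Fin 4, ℕ) := Finset.univ.sigma T
  have hU : ∀ x : (Σ _ : Fin 4, ℕ), x ∈ U ↔ (1 ≤ x.2 ∧ x.2 ≤ X / (fam x.1).r) ∧
      (fam x.1).A x.2 ∧ Squarefree x.2 := by
    intro x
    simp [U, T, Finset.mem_sigma]
  have hinjOn : Set.InjOn P (U : Set (Σ _ : Fin 4, ℕ)) := by
    intro x hx y hy hxy
    obtain ⟨-, hxA, hxs⟩ := (hU x).1 hx
    obtain ⟨-, hyA, hys⟩ := (hU y).1 hy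
    obtain ⟨-, χ, hχ, -, -, -, hχn, -⟩ := hP x hxA hxs
    obtain ⟨-, ψ, hψ, -, -, -, hψn, -⟩ := hP y hyA hys
    have h1 : (fam x.1).r * x.2 = (fam y.1).r * y.2 := by
      have h2 := congrArg Sigma.fst hxy
      rw [hχ, hψ] at h2
      exact h2
    have h2 : ∀ n : ℕ, n ≠ 0 → cf (fam x.1) x.2 n = cf (fam y.1) y.2 n := by
      intro n hn
      have hxy' := hxy
      rw [hχ, hψ] at hxy'
      have h3 : χ (n : ZMod ((fam x.1).r * x.2)) = ψ (n : ZMod ((fam y.1).r * y.2)) :=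
        congrArg (fun p : (Σ N : ℕ, DirichletCharacter ℂ N) => p.2 (n : ZMod p.1)) hxy'
      rw [hχn n hn, hψn n hn] at h3
      exact_mod_cast h3
    obtain ⟨h3, h4⟩ := LnkC.INJ (fam x.1) (fam y.1) (hfam _) (hfam _) x.2 y.2 hxA hxs hyA hys h1 h2
    have h5 := hinj h3
    obtain ⟨x1, x2⟩ := x
    obtain ⟨y1, y2⟩ := y
    simp only at h4 h5
    subst h4 h5
    rfl
  have himg : Chs ε X = P '' (U : Set (Σ _ : Fin 4, ℕ)) := by
    apply Set.Subset.antisymm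
    · rintro ⟨N, χ⟩ ⟨⟨h0, h1, h2, h3⟩, hNX, hpar⟩
      replace hpar : χ (-1) = ((ε : ℤ) : ℂ) := hpar
      replace hNX : N ≤ X := hNX
      obtain ⟨φ, d, hφ, hA, hs, hN, hval⟩ := LnkC.CLS N h0 χ h1 h2 h3
      obtain ⟨hd0, ψ, -, -, -, hψn, hψp⟩ := LnkC.CC1 φ hφ d hA hs
      have hsame : (⟨N, χ⟩ : Σ N : ℕ, DirichletCharacter ℂ N) = ⟨φ.r * d, ψ⟩ := by
        apply sigma_char_ext _ _ h0 hN
        intro n hn
        simp only
        rw [hval n hn, hψn n hn]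
      have hpar2 : (if φ.a = 0 then (1 : ℂ) else -1) = ((ε : ℤ) : ℂ) := by
        rw [← hψp, ← hpar]
        have h3 := congrArg (fun p : (Σ N : ℕ, DirichletCharacter ℂ N) => p.2 (-1 : ZMod p.1)) hsame
        exact h3.symm
      obtain ⟨ε', hε', hφ'⟩ := hφ
      have hεε : ε' = ε := by
        rcases hε' with rfl | rfl <;> rcases hε with rfl | rfl <;>
          rcases hφ' with rfl | rfl | rfl | rfl <;> first
          | rfl
          | (exfalso; simp [F8, F4, F1] at hpar2; norm_num at hpar2)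
      subst hεε
      have hi : ∃ i, fam i = φ := by
        rcases hφ' with h | h | h | h
        · exact ⟨0, h.symm⟩
        · exact ⟨1, h.symm⟩
        · exact ⟨2, h.symm⟩
        · exact ⟨3, h.symm⟩
      obtain ⟨i, rfl⟩ := hi
      refine ⟨⟨i, d⟩, ?_, ?_⟩
      · rw [Finset.mem_coe, hU]
        refine ⟨⟨hd0, ?_⟩, hA, hs⟩
        rw [Nat.le_div_iff_mul_le (hr0 i), mul_comm]
        simp only
        rw [← hN]
        exact hNX
      · obtain ⟨-, ψ', hψ', -, -, -, hψ'n, -⟩ := hP ⟨i, d⟩ hA hs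
        rw [hψ', hsame]
        have hne : (fam i).r * d ≠ 0 := hN ▸ h0
        refine (sigma_char_ext ⟨(fam i).r * d, ψ⟩ ⟨(fam i).r * d, ψ'⟩ hne rfl ?_).symm
        intro n hn
        exact (hψn n hn).trans (hψ'n n hn).symm
    · rintro _ ⟨x, hx, rfl⟩
      obtain ⟨⟨h1, h2⟩, hA, hs⟩ := (hU x).1 hx
      obtain ⟨h0, χ, hχ, hprim, hsq, hne, -, hpar⟩ := hP x hA hs
      rw [hχ]
      refine ⟨⟨?_, hprim, hsq, hne⟩, ?_, hpar⟩
      · exact Nat.mul_ne_zero (hr0 _).ne' (by omega)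
      · rw [Nat.le_div_iff_mul_le (hr0 _), mul_comm] at h2
        exact h2
  refine ⟨?_, ?_⟩
  · rw [himg]
    exact (Finset.finite_toSet U).image P
  · rw [himg, finsum_mem_image hinjOn, finsum_mem_coe_finset]
    have h1 : ∀ x ∈ U, F (P x) = G (fam x.1) x.2 := by
      intro x hx
      obtain ⟨-, hA, hs⟩ := (hU x).1 hx
      obtain ⟨h0, χ, hχ, hprim, hsq, hne, hval, hpar⟩ := hP x hA hs
      rw [hχ]
      exact hFG (fam x.1) x.2 χ (hfam _) hA hs hprim hsq hne hval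
    rw [Finset.sum_congr rfl h1]
    simp only [U]
    rw [Finset.sum_sigma, Fin.sum_univ_four]
    simp only [fsum, T]
    have e0 : (fam 0).r = 8 := rfl
    have e1 : (fam 1).r = 4 := rfl
    have e2 : (fam 2).r = 1 := rfl
    have e3 : (fam 3).r = 1 := rfl
    rw [e0, e1, e2, e3, Nat.div_one]
    rfl

end

end Pool.Agent.K4H95.LQ
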