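import Pool.Agent.K4H95.LQ.Spec

/-!
# Piece C
-/

set_option autoImplicit false

namespace Pool.Agent.K4H95.LQ

open Filter Topology

noncomputable section

namespace C

theorem sum_Icc (f : ℕ → ℝ) (X : ℕ) : ∑ d ∈ Finset.Icc 1 X, f d = ∑ i ∈ Finset.range X, f (i + 1) := by
  induction X with
  | zero => simp
  | succ n ih => rw [Finset.sum_Icc_succ_top (by omega), ih, Finset.sum_range_succ]

theorem sum_log (X : ℕ) : ∑ i ∈ Finset.range X, Real.log ((i + 1 : ℕ) : ℝ) = Real.log (X.factorial) := by
  induction X with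
  | zero => simp
  | succ n ih =>
    rw [Finset.sum_range_succ, ih, Nat.factorial_succ, Nat.cast_mul, Real.log_mul, add_comm]
    · positivity
    · positivity

theorem log_fact_le (X : ℕ) : Real.log (X.factorial) ≤ X * Real.log X := by
  rw [← sum_log]
  calc ∑ i ∈ Finset.range X, Real.log ((i + 1 : ℕ) : ℝ) ≤ ∑ i ∈ Finset.range X, Real.log X := by
        refine Finset.sum_le_sum fun i hi => ?_
        have := Finset.mem_range.1 hi
        exact Real.log_le_log (by positivity) (by exact_mod_cast this)
    _ = _ := by simp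

theorem le_log_fact (X : ℕ) (hX : 1 ≤ X) : X * Real.log X - X ≤ Real.log (X.factorial) := by
  have h := Real.pow_div_factorial_le_exp (X : ℝ) (by positivity) X
  have hX0 : (0 : ℝ) < X := by exact_mod_cast hX
  have h2 := Real.log_le_log (by positivity) h
  rw [Real.log_exp, Real.log_div (by positivity) (by positivity), Real.log_pow] at h2
  linarith

theorem tend_log_nat : Tendsto (fun X : ℕ => Real.log X) atTop atTop :=
  Real.tendsto_log_atTop.comp tendsto_natCast_atTop_atTop

theorem tend_fact : Tendsto (fun X : ℕ => Real.log (X.factorial) / (X * Real.log X)) atTop (𝓝 1) := by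
  have h1 : Tendsto (fun X : ℕ => 1 - 1 / Real.log X) atTop (𝓝 1) := by
    have := (tendsto_const_nhds (x := (1 : ℝ))).sub (tend_log_nat.const_div_atTop (1 : ℝ))
    simpa using this
  refine tendsto_of_tendsto_of_tendsto_of_le_of_le' h1 tendsto_const_nhds ?_ ?_
  · filter_upwards [eventually_ge_atTop 2] with X hX
    have hX0 : (0 : ℝ) < X := by positivity
    have hl : 0 < Real.log X := Real.log_pos (by exact_mod_cast hX)
    rw [le_div_iff₀ (by positivity)]
    have := le_log_fact X (by omega)
    have h2 : (1 - 1 / Real.log X) * (X * Real.log X) = X * Real.log X - X := by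
      field_simp
    rw [h2]
    exact this
  · filter_upwards [eventually_ge_atTop 2] with X hX
    have hX0 : (0 : ℝ) < X := by positivity
    have hl : 0 < Real.log X := Real.log_pos (by exact_mod_cast hX)
    rw [div_le_one (by positivity)]
    exact log_fact_le X

theorem mean (a : ℕ → ℝ) (l : ℝ) (h : Tendsto (fun d : ℕ => a d / Real.log d) atTop (𝓝 l)) :
    Tendsto (fun X : ℕ => (∑ d ∈ Finset.Icc 1 X, a d) / (X * Real.log X)) atTop (𝓝 l) := by
  have h1 : (fun i : ℕ => a (i + 1) - l * Real.log ((i + 1 : ℕ) : ℝ)) =o[atTop]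
      fun i : ℕ => Real.log ((i + 1 : ℕ) : ℝ) := by
    refine Asymptotics.isLittleO_of_tendsto' ?_ ?_
    · filter_upwards [eventually_ge_atTop 1] with i hi h0
      exfalso
      have : 0 < Real.log ((i + 1 : ℕ) : ℝ) := Real.log_pos (by exact_mod_cast (by omega : 1 < i + 1))
      exact this.ne' h0
    · have h2 := ((h.comp (tendsto_add_atTop_nat 1)).sub_const l)
      rw [sub_self] at h2
      refine h2.congr' ?_
      filter_upwards [eventually_ge_atTop 1] with i hi
      have : 0 < Real.log ((i + 1 : ℕ) : ℝ) := Real.log_pos (by exact_mod_cast (by omega : 1 < i + 1))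
      simp only [Function.comp]
      field_simp
  have h3 : Tendsto (fun X : ℕ => ∑ i ∈ Finset.range X, Real.log ((i + 1 : ℕ) : ℝ)) atTop atTop := by
    simp_rw [sum_log]
    refine tendsto_atTop_mono' atTop ?_ (tend_log_nat)
    filter_upwards [eventually_ge_atTop 1] with X hX
    exact Real.log_le_log (by positivity) (by exact_mod_cast Nat.self_le_factorial X)
  have h4 := h1.sum_range (fun i => Real.log_natCast_nonneg _) h3
  have h5 : (fun X : ℕ => ∑ i ∈ Finset.range X, Real.log ((i + 1 : ℕ) : ℝ)) =O[atTop]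
      fun X : ℕ => (X : ℝ) * Real.log X := by
    refine Asymptotics.IsBigO.of_bound 1 ?_
    filter_upwards [eventually_ge_atTop 2] with X hX
    rw [sum_log, Real.norm_of_nonneg (Real.log_natCast_nonneg _), one_mul,
      Real.norm_of_nonneg (mul_nonneg (by positivity) (Real.log_natCast_nonneg _))]
    exact log_fact_le X
  have h6 := (h4.trans_isBigO h5).tendsto_div_nhds_zero
  have h7 := h6.add (tend_fact.const_mul l)
  rw [zero_add, mul_one] at h7
  refine h7.congr fun X => ?_
  rw [sum_Icc, Finset.sum_sub_distrib, ← Finset.mul_sum, sum_log]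
  ring

end C

theorem c : StC := by
  intro r C₁ hr hC₁
  have hl2 : 0 < Real.log 2 := Real.log_pos (by norm_num)
  have hlr : 0 ≤ Real.log r := Real.log_nonneg hr
  have h2 : (1 : ℝ) < √2 := by
    rw [Real.lt_sqrt (by norm_num)]
    norm_num
  have hq1 : (1 : ℝ) / √2 < 1 := by rw [div_lt_one (by positivity)]; exact h2
  -- the bound with arbitrary shift
  have hbd : ∀ (H : ℝ → ℝ) (c B : ℝ), (∀ z, 0 ≤ H z ∧ H z ≤ C₁ * (1 + max z 0)) → -c ≤ B → 0 ≤ B →
      ∀ X : ℕ, 2 ≤ X → ∀ j : ℕ, 0 ≤ ∑ d ∈ Finset.Icc 1 X, H (Real.log (r * d) / 2 - c - j * Real.log 2) ∧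
      ∑ d ∈ Finset.Icc 1 X, H (Real.log (r * d) / 2 - c - j * Real.log 2) ≤
        C₁ * ((1 + Real.log r / 2 + B) / Real.log 2 + 1 / 2) * (X * Real.log X) := by
    intro H c B hH hcB hB X hX j
    refine ⟨Finset.sum_nonneg fun d _ => (hH _).1, ?_⟩
    have hX2 : (2 : ℝ) ≤ X := by exact_mod_cast hX
    have hlX : Real.log 2 ≤ Real.log X := Real.log_le_log (by norm_num) hX2
    have h3 : ∀ d ∈ Finset.Icc 1 X, H (Real.log (r * d) / 2 - c - j * Real.log 2) ≤
        C₁ * ((1 + Real.log r / 2 + B) / Real.log 2 + 1 / 2) * Real.log X := by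
      intro d hd
      rw [Finset.mem_Icc] at hd
      have hd0 : (0 : ℝ) < d := by exact_mod_cast hd.1
      have hdX : Real.log d ≤ Real.log X := Real.log_le_log hd0 (by exact_mod_cast hd.2)
      have hd1 : 0 ≤ Real.log d := Real.log_natCast_nonneg d
      refine (hH _).2.trans ?_
      rw [mul_assoc]
      refine mul_le_mul_of_nonneg_left ?_ hC₁
      have h4 : max (Real.log (r * d) / 2 - c - j * Real.log 2) 0 ≤
          Real.log r / 2 + B + Real.log X / 2 := by
        refine max_le ?_ (by positivity)
        rw [Real.log_mul (by positivity) (by positivity)]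
        have : 0 ≤ j * Real.log 2 := by positivity
        linarith
      have h5 : 1 + Real.log r / 2 + B ≤ (1 + Real.log r / 2 + B) / Real.log 2 * Real.log X := by
        rw [div_mul_eq_mul_div, le_div_iff₀ hl2]
        exact mul_le_mul_of_nonneg_left hlX (by positivity)
      calc 1 + max (Real.log (r * d) / 2 - c - j * Real.log 2) 0
          ≤ (1 + Real.log r / 2 + B) + Real.log X / 2 := by linarith
        _ ≤ _ := by rw [add_mul]; linarith
    refine (Finset.sum_le_sum h3).trans ?_
    rw [Finset.sum_const, Nat.card_Icc, nsmul_eq_mul]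
    apply le_of_eq
    simp
    ring
  set K := C₁ * ((1 + Real.log r / 2 + 0) / Real.log 2 + 1 / 2) with hK
  have hK0 : 0 ≤ K := by positivity
  refine ⟨K / (1 - 1 / √2), div_nonneg hK0 (by linarith), ?_⟩
  intro H η c hη hH
  have hq : |η / √2| ≤ 1 / √2 := by
    rw [abs_div, abs_of_pos (show (0 : ℝ) < √2 by positivity)]
    gcongr
  have hgeo : Summable fun j : ℕ => |η / √2| ^ j :=
    summable_geometric_of_lt_one (abs_nonneg _) (hq.trans_lt hq1)
  refine ⟨?_, ?_⟩
  · intro hc X hX
    have h1 := hbd H c 0 hH (by linarith) le_rfl X hX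
    have hXl : 0 ≤ (X : ℝ) * Real.log X := mul_nonneg (by positivity) (Real.log_natCast_nonneg _)
    have h3 : ∀ j : ℕ, ‖(η / √2) ^ j * ∑ d ∈ Finset.Icc 1 X,
        H (Real.log (r * d) / 2 - c - j * Real.log 2)‖ ≤ |η / √2| ^ j * (K * (X * Real.log X)) := by
      intro j
      rw [norm_mul, norm_pow, Real.norm_eq_abs, Real.norm_of_nonneg (h1 j).1]
      exact mul_le_mul_of_nonneg_left (h1 j).2 (by positivity)
    have h4 := tsum_of_norm_bounded ((hgeo.mul_right (K * (X * Real.log X))).hasSum) h3
    rw [Real.norm_eq_abs] at h4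
    refine h4.trans ?_
    rw [tsum_mul_right, tsum_geometric_of_lt_one (abs_nonneg _) (hq.trans_lt hq1)]
    have h6 : (1 - |η / √2|)⁻¹ ≤ (1 - 1 / √2)⁻¹ := inv_anti₀ (by linarith) (by linarith)
    calc (1 - |η / √2|)⁻¹ * (K * (X * Real.log X))
        ≤ (1 - 1 / √2)⁻¹ * (K * (X * Real.log X)) :=
          mul_le_mul_of_nonneg_right h6 (mul_nonneg hK0 hXl)
      _ = _ := by rw [div_eq_mul_inv]; ring
  · intro L hL
    set K' := C₁ * ((1 + Real.log r / 2 + |c|) / Real.log 2 + 1 / 2) with hK'
    have h1 := hbd H c |c| hH (neg_le_abs c) (abs_nonneg c)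
    have hq' : |η / √2| < 1 := hq.trans_lt hq1
    have hlim : ∑' j : ℕ, (η / √2) ^ j * (L / 2) = L / (2 * (1 - η / √2)) := by
      rw [tsum_mul_right, tsum_geometric_of_abs_lt_one hq']
      have : (1 - η / √2) ≠ 0 := by
        have := (abs_lt.1 hq').2
        linarith
      field_simp
    rw [← hlim]
    have h5 : ∀ X : ℕ, (∑' j : ℕ, (η / √2) ^ j * ∑ d ∈ Finset.Icc 1 X,
        H (Real.log (r * d) / 2 - c - j * Real.log 2)) / (X * Real.log X) =
        ∑' j : ℕ, (η / √2) ^ j * ((∑ d ∈ Finset.Icc 1 X,
          H (Real.log (r * d) / 2 - c - j * Real.log 2)) / (X * Real.log X)) := by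
      intro X
      rw [← tsum_div_const]
      refine tsum_congr fun j => ?_
      rw [mul_div_assoc]
    simp_rw [h5]
    refine tendsto_tsum_of_dominated_convergence (bound := fun j => |η / √2| ^ j * K')
      (hgeo.mul_right K') ?_ ?_
    · intro j
      refine Tendsto.const_mul _ ?_
      refine C.mean (fun d : ℕ => H (Real.log (r * d) / 2 - c - j * Real.log 2)) (L / 2) ?_
      -- the argument tends to infinity
      have hz : Tendsto (fun d : ℕ => Real.log (r * d) / 2 - c - j * Real.log 2) atTop atTop := by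
        have h6 : Tendsto (fun d : ℕ => r * (d : ℝ)) atTop atTop :=
          tendsto_natCast_atTop_atTop.const_mul_atTop (by linarith)
        have h7 := (Real.tendsto_log_atTop.comp h6).atTop_div_const (show (0 : ℝ) < 2 by norm_num)
        have h8 := tendsto_atTop_add_const_right atTop (-c - j * Real.log 2) h7
        refine h8.congr fun d => ?_
        simp only [Function.comp]
        ring
      have hzl : Tendsto (fun d : ℕ => (Real.log (r * d) / 2 - c - j * Real.log 2) / Real.log d)
          atTop (𝓝 (1 / 2)) := by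
        have h6 : Tendsto (fun d : ℕ => 1 / 2 + (Real.log r / 2 - c - j * Real.log 2) / Real.log d)
            atTop (𝓝 (1 / 2)) := by
          have := (tendsto_const_nhds (x := (1 / 2 : ℝ))).add
            (C.tend_log_nat.const_div_atTop (Real.log r / 2 - c - j * Real.log 2))
          simpa using this
        refine h6.congr' ?_
        filter_upwards [eventually_ge_atTop 2] with d hd
        have hd0 : (0 : ℝ) < d := by positivity
        have hl : 0 < Real.log d := Real.log_pos (by exact_mod_cast hd)
        rw [Real.log_mul (by positivity) (by positivity)]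
        field_simp
        ring
      have h9 := (hL.comp hz).mul hzl
      have h10 : L * (1 / 2) = L / 2 := by ring
      rw [h10] at h9
      refine h9.congr' ?_
      filter_upwards [hz.eventually_gt_atTop 0] with d hd
      simp only [Function.comp]
      exact div_mul_div_cancel₀ hd.ne'
    · filter_upwards [eventually_ge_atTop 2] with X hX j
      have hX2 : (2 : ℝ) ≤ X := by exact_mod_cast hX
      have hXl : 0 < (X : ℝ) * Real.log X :=
        mul_pos (by linarith) (Real.log_pos (by linarith))
      rw [norm_mul, norm_pow, Real.norm_eq_abs, Real.norm_of_nonneg (div_nonneg (h1 X hX j).1 hXl.le)]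
      refine mul_le_mul_of_nonneg_left ?_ (by positivity)
      rw [div_le_iff₀ hXl]
      exact (h1 X hX j).2

end

end Pool.Agent.K4H95.LQ
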