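import Pool.Agent.K4H95.LQ.Spec

/-!
# Piece P
-/

set_option autoImplicit false

namespace Pool.Agent.K4H95.LQ

open Filter Topology

noncomputable section

namespace P

theorem sum_mu (M : ℕ) (hM : M ≠ 0) :
    ∑ e ∈ M.divisors, ((ArithmeticFunction.moebius e : ℤ) : ℝ) / e =
      ∏ p ∈ M.primeFactors, (1 - 1 / (p : ℝ)) := by
  set R := ∏ p ∈ M.primeFactors, p with hR
  have hR0 : R ≠ 0 := Finset.prod_ne_zero_iff.2 fun p hp => (Nat.prime_of_mem_primeFactors hp).ne_zero
  have hRpf : R.primeFactors = M.primeFactors := Nat.primeFactors_prod fun p hp =>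
    Nat.prime_of_mem_primeFactors hp
  have hRsq : Squarefree R := by
    rw [hR]
    refine Finset.squarefree_prod_of_pairwise_isCoprime ?_ ?_
    · intro p hp q hq hpq
      have := (Nat.coprime_primes (Nat.prime_of_mem_primeFactors hp)
        (Nat.prime_of_mem_primeFactors hq)).2 hpq
      exact Nat.coprime_iff_isRelPrime.1 this
    · intro p hp
      exact (Nat.prime_of_mem_primeFactors hp).prime.squarefree
  have hRM : R ∣ M := Nat.prod_primeFactors_dvd M
  let f : ArithmeticFunction ℝ := ⟨fun n => 1 / (n : ℝ), by simp⟩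
  have hf : f.IsMultiplicative := by
    refine ⟨by simp [f], fun {m n} _ => ?_⟩
    simp only [f, ArithmeticFunction.coe_mk]
    push_cast
    rw [one_div_mul_one_div]
  have h1 := ArithmeticFunction.IsMultiplicative.prodPrimeFactors_one_sub_of_squarefree f hf hRsq
  rw [hRpf] at h1
  have h2 : ∑ e ∈ M.divisors, ((ArithmeticFunction.moebius e : ℤ) : ℝ) / e =
      ∑ e ∈ R.divisors, ((ArithmeticFunction.moebius e : ℤ) : ℝ) / e := by
    symm
    refine Finset.sum_subset (Nat.divisors_subset_of_dvd hM hRM) fun e he hne => ?_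
    by_cases hsq : Squarefree e
    · exfalso
      apply hne
      rw [Nat.mem_divisors]
      refine ⟨?_, hR0⟩
      rw [← Nat.prod_primeFactors_of_squarefree hsq]
      exact Finset.prod_dvd_prod_of_subset _ _ _
        (Nat.primeFactors_mono (Nat.dvd_of_mem_divisors he) hM)
    · rw [ArithmeticFunction.moebius_eq_zero_of_not_squarefree hsq]
      simp
  rw [h2]
  have h3 : ∀ e ∈ R.divisors, ((ArithmeticFunction.moebius e : ℤ) : ℝ) / e =
      ((ArithmeticFunction.moebius e : ℤ) : ℝ) * f e := fun e _ => by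
    simp [f]
    ring
  rw [Finset.sum_congr rfl h3, ← h1]
  rfl

theorem tsum_mu (N : ℕ) (hN : N ≠ 0) :
    (∑' a : ℕ, if a.Coprime N then ((ArithmeticFunction.moebius a : ℤ) : ℝ) / (a : ℝ) ^ 2 else 0) *
      (Real.pi ^ 2 / 6 * ∏ p ∈ N.primeFactors, (1 - 1 / (p : ℝ) ^ 2)) = 1 := by
  have : NeZero N := ⟨hN⟩
  have hs : (1 : ℝ) < (2 : ℂ).re := by norm_num
  have h1 := DirichletCharacter.LSeries.mul_mu_eq_one (1 : DirichletCharacter ℂ N) hs
  rw [← DirichletCharacter.LFunction_eq_LSeries _ hs] at h1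
  have h2 := DirichletCharacter.LFunctionTrivChar_eq_mul_riemannZeta (N := N) (s := 2) (by norm_num)
  rw [DirichletCharacter.LFunctionTrivChar] at h2
  rw [h2, riemannZeta_two] at h1
  have h3 : LSeries ((fun n : ℕ => (1 : DirichletCharacter ℂ N) n) *
      (fun n : ℕ => ((ArithmeticFunction.moebius n : ℤ) : ℂ))) 2 =
      ((∑' a : ℕ, if a.Coprime N then ((ArithmeticFunction.moebius a : ℤ) : ℝ) / (a : ℝ) ^ 2
        else 0 : ℝ) : ℂ) := by
    rw [LSeries, Complex.ofReal_tsum]
    refine tsum_congr fun a => ?_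
    rw [LSeries.term_def]
    split_ifs with ha hc hc
    · subst ha; simp
    · simp
    · simp only [Pi.mul_apply]
      have : (1 : DirichletCharacter ℂ N) (a : ZMod N) = 1 := by
        rw [MulChar.one_apply ((ZMod.isUnit_iff_coprime a N).2 hc)]
      rw [this, one_mul]
      push_cast
      congr 1
      norm_cast
    · simp only [Pi.mul_apply]
      have : (1 : DirichletCharacter ℂ N) (a : ZMod N) = 0 := by
        apply MulChar.map_nonunit
        rw [ZMod.isUnit_iff_coprime]
        exact hc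
      rw [this]
      simp
  rw [h3] at h1
  have h4 : ((∏ p ∈ N.primeFactors, (1 - (p : ℂ) ^ (-(2 : ℂ)))) * ((Real.pi : ℂ) ^ 2 / 6)) =
      ((Real.pi ^ 2 / 6 * ∏ p ∈ N.primeFactors, (1 - 1 / (p : ℝ) ^ 2) : ℝ) : ℂ) := by
    push_cast
    rw [mul_comm]
    congr 1
    refine Finset.prod_congr rfl fun p _ => ?_
    rw [Complex.cpow_neg, one_div]
    congr 2
    norm_cast
  rw [h4, mul_comm] at h1
  exact_mod_cast h1

end P

theorem p : StP := by
  intro M hM
  have hM0 : M ≠ 0 := by rintro rfl; simp at hM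
  have h1 := P.sum_mu M hM0
  have h2 := P.tsum_mu (2 * M) (by omega)
  have hpf : (2 * M).primeFactors = insert 2 M.primeFactors := by
    rw [Nat.primeFactors_mul (by norm_num) hM0, Nat.prime_two.primeFactors]
    rfl
  have h2M : 2 ∉ M.primeFactors := by
    intro h
    have := Nat.dvd_of_mem_primeFactors h
    rcases hM with ⟨c, hc⟩
    omega
  rw [hpf, Finset.prod_insert h2M] at h2
  have h3 : gg M * ∏ p ∈ M.primeFactors, (1 - 1 / (p : ℝ) ^ 2) =
      ∏ p ∈ M.primeFactors, (1 - 1 / (p : ℝ)) := by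
    rw [gg, ← Finset.prod_mul_distrib]
    refine Finset.prod_congr rfl fun p hp => ?_
    have hp0 : (p : ℝ) ≠ 0 := by exact_mod_cast (Nat.prime_of_mem_primeFactors hp).ne_zero
    have hp1 : (p : ℝ) + 1 ≠ 0 := by positivity
    field_simp
    ring
  have h4 : ∏ p ∈ M.primeFactors, (1 - 1 / (p : ℝ) ^ 2) ≠ 0 := by
    refine Finset.prod_ne_zero_iff.2 fun p hp => ?_
    have hp2 : (2 : ℝ) ≤ p := by exact_mod_cast (Nat.prime_of_mem_primeFactors hp).two_le
    have : 1 / (p : ℝ) ^ 2 ≤ 1 / 2 ^ 2 := by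
      apply one_div_le_one_div_of_le (by norm_num)
      gcongr
    have h5 : (0 : ℝ) < 1 - 1 / (p : ℝ) ^ 2 := by norm_num at this ⊢; linarith
    exact h5.ne'
  rw [h1, ← h3]
  set S := ∑' a : ℕ, if a.Coprime (2 * M) then ((ArithmeticFunction.moebius a : ℤ) : ℝ) / (a : ℝ) ^ 2
    else 0
  set Q := ∏ p ∈ M.primeFactors, (1 - 1 / (p : ℝ) ^ 2)
  have hpi : Real.pi ≠ 0 := Real.pi_ne_zero
  have h6 : S * Q = 8 / Real.pi ^ 2 := by
    field_simp
    field_simp at h2
    push_cast at h2
    nlinarith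
  calc gg M * Q * S = gg M * (S * Q) := by ring
    _ = _ := by rw [h6]; ring

end

end Pool.Agent.K4H95.LQ
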