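import Pool.Agent.K4H95.LQ.Tan
import Pool.Agent.K4H95.LQ.A1
import Pool.Agent.K4H95.LQ.A3
import Pool.Agent.K4H95.LQ.D
import Pool.Agent.K4H95.LQ.PieceC
import Pool.Agent.K4H95.LQ.PieceP
import Pool.Agent.H423R2.RGL.DEN

/-!
# The first moment times a power of the Euler product: all real primitive characters of a parity
-/

set_option autoImplicit false

namespace Pool.Agent.K4H95.LQ

open Finset Filter Topology Pool.Agent.H306R2.RG Pool.Agent.H306R2.RZ Pool.Agent.X278.AV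

noncomputable section

/-! ### divisions of the range -/

lemma div_ratio {r : ℕ} (hr : 1 ≤ r) : Tendsto (fun X : ℕ => ((X / r : ℕ) : ℝ) / X) atTop (𝓝 (1 / r)) := by
  have h1 := (tendsto_nat_floor_mul_div_atTop (R := ℝ) (a := 1 / r) (by positivity)).comp tendsto_natCast_atTop_atTop
  refine h1.congr fun X => ?_
  simp only [Function.comp_apply]
  congr 2
  rw [← Nat.floor_div_eq_div (K := ℝ)]
  congr 1
  ring

lemma div_log {r : ℕ} (hr : 1 ≤ r) : Tendsto (fun X : ℕ => (((X / r : ℕ) : ℝ) * Real.log ((X / r : ℕ) : ℝ)) / (X * Real.log X))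
    atTop (𝓝 (1 / r)) := by
  have hr0 : (0:ℝ) < r := by exact_mod_cast hr
  have h1 := div_ratio hr
  have h2 : Tendsto (fun X : ℕ => Real.log (((X / r : ℕ) : ℝ) / X)) atTop (𝓝 (Real.log (1 / r))) :=
    (Real.continuousAt_log (by positivity)).tendsto.comp h1
  have h3 : Tendsto (fun X : ℕ => (Real.log (X:ℝ))⁻¹) atTop (𝓝 0) :=
    tendsto_inv_atTop_zero.comp (Real.tendsto_log_atTop.comp tendsto_natCast_atTop_atTop)
  have h4 := (h2.mul h3).add_const 1
  rw [mul_zero, zero_add] at h4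
  have h5 := h1.mul h4
  rw [mul_one] at h5
  refine h5.congr' ?_
  filter_upwards [eventually_ge_atTop (2 * r)] with X hX
  have hX2 : 2 ≤ X := by nlinarith
  have hX0 : (0:ℝ) < X := by exact_mod_cast (by omega : 0 < X)
  have hl := (log_two_bd hX2).1
  have hY : 0 < X / r := Nat.div_pos (by nlinarith) (by omega)
  have hY0 : (0:ℝ) < ((X / r : ℕ) : ℝ) := by exact_mod_cast hY
  rw [Real.log_div hY0.ne' hX0.ne']
  field_simp
  ring

lemma div_tend {r : ℕ} (hr : 1 ≤ r) {f : ℕ → ℝ} {L : ℝ} (h : Tendsto (fun Y : ℕ => f Y / (Y * Real.log Y)) atTop (𝓝 L)) :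
    Tendsto (fun X : ℕ => f (X / r) / (X * Real.log X)) atTop (𝓝 (L / r)) := by
  have h1 : Tendsto (fun X : ℕ => X / r) atTop atTop := Nat.tendsto_div_const_atTop (by omega)
  have h2 := (h.comp h1).mul (div_log hr)
  rw [show L / r = L * (1 / r) by ring]
  refine h2.congr' ?_
  filter_upwards [h1.eventually_ge_atTop 2] with X hX
  have hY0 : (0:ℝ) < ((X / r : ℕ) : ℝ) := by exact_mod_cast (by omega : 0 < X / r)
  have hl := (log_two_bd hX).1
  simp only [Function.comp_apply]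
  field_simp

lemma div_tend1 {r : ℕ} (hr : 1 ≤ r) {f : ℕ → ℝ} {L : ℝ} (h : Tendsto (fun Y : ℕ => f Y / Y) atTop (𝓝 L)) :
    Tendsto (fun X : ℕ => f (X / r) / X) atTop (𝓝 (L / r)) := by
  have h1 : Tendsto (fun X : ℕ => X / r) atTop atTop := Nat.tendsto_div_const_atTop (by omega)
  have h2 := (h.comp h1).mul (div_ratio hr)
  rw [show L / r = L * (1 / r) by ring]
  refine h2.congr' ?_
  filter_upwards [h1.eventually_ge_atTop 1] with X hX
  have hY0 : (0:ℝ) < ((X / r : ℕ) : ℝ) := by exact_mod_cast (by omega : 0 < X / r)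
  simp only [Function.comp_apply]
  field_simp

/-! ### the exponents -/

/-- the exponents, away from `2` -/
def xw (w : ℕ → ℝ) (n : ℕ) : ℝ := if n = 2 then 0 else w n

/-- the condition on the exponents -/
def WS (w : ℕ → ℝ) : Prop := Summable fun p : Nat.Primes => |w p| * ((p : ℕ) : ℝ) ^ (-(1 / 8) : ℝ)

/-- the prime `2` -/
def p2' : Nat.Primes := ⟨2, Nat.prime_two⟩

lemma xw_sum {w : ℕ → ℝ} (hw : WS w) : WS (xw w) := by
  refine Summable.of_nonneg_of_le (fun p => by positivity) (fun p => ?_) hw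
  have : |xw w p| ≤ |w p| := by
    unfold xw
    split_ifs
    · rw [abs_zero]
      exact abs_nonneg _
    · exact le_rfl
  gcongr

lemma sq_le_eighth (p : Nat.Primes) : (√((p : ℕ) : ℝ))⁻¹ ≤ ((p : ℕ) : ℝ) ^ (-(1 / 8) : ℝ) := by
  have hp1 : (1:ℝ) ≤ (p : ℕ) := by exact_mod_cast p.2.one_le
  rw [Real.sqrt_eq_rpow, ← Real.rpow_neg (by linarith)]
  exact Real.rpow_le_rpow_of_exponent_le hp1 (by norm_num)

lemma w_sum {w : ℕ → ℝ} (hw : WS w) {c : Nat.Primes → ℝ} (hc : ∀ p, |c p| ≤ 1) :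
    Summable fun p : Nat.Primes => |w p * Yq p (c p)| := by
  refine Summable.of_nonneg_of_le (fun p => abs_nonneg _) (fun p => ?_) (Summable.mul_left 4 hw)
  rw [abs_mul]
  have h1 := (Yq_bd p (hc p)).2
  have h2 := sq_le_eighth p
  calc |w p| * |Yq p (c p)| ≤ |w p| * (4 * (√((p : ℕ) : ℝ))⁻¹) := by gcongr
    _ ≤ |w p| * (4 * ((p : ℕ) : ℝ) ^ (-(1 / 8) : ℝ)) := by gcongr
    _ = _ := by ring

lemma cf_two {φ : FD} (d : ℕ) : cf φ d 2 = φ.η := by
  unfold cf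
  rw [Nat.Prime.factorization_self Nat.prime_two]
  norm_num
  rw [jo_one, mul_one]

lemma cf_odd {φ : FD} (d : ℕ) {p : ℕ} (hp : p.Prime) (h : p ≠ 2) : cf φ d p = jo φ d p := by
  unfold cf
  have : p.factorization 2 = 0 := Nat.factorization_eq_zero_of_not_dvd (fun h2 => h ((Nat.prime_dvd_prime_iff_eq Nat.prime_two hp).1 h2).symm)
  rw [this]
  simp

lemma cf_abs {φ : FD} (hφ : Fam φ) (d : ℕ) (p : Nat.Primes) : |cf φ d p| ≤ 1 := by
  by_cases h : (p : ℕ) = 2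
  · rw [h, cf_two]
    exact eta_le hφ
  · rw [cf_odd d p.2 h]
    exact jo_abs _ _ _

lemma exp_split {w : ℕ → ℝ} (hw : WS w) {φ : FD} (hφ : Fam φ) (d : ℕ) :
    Real.exp (∑' p : Nat.Primes, w p * Yq p (cf φ d p)) =
      (1 - φ.η / √2) ^ (-w 2) * Real.exp (∑' p : Nat.Primes, xw w p * Yq p (jo φ d p)) := by
  have h1 : Summable fun p : Nat.Primes => w p * Yq p (cf φ d p) :=
    (w_sum hw (c := fun p => cf φ d p) (cf_abs hφ d)).of_abs
  rw [h1.tsum_eq_add_tsum_ite p2', Real.exp_add]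
  congr 1
  · have h2 : (1 - φ.η * (√((p2' : ℕ) : ℝ))⁻¹) = 1 - φ.η / √2 := by
      unfold p2'
      push_cast
      ring
    have h3 : 0 < 1 - φ.η / √2 := by
      have := (abs_le.1 (eta_q hφ)).2
      have := q_facts.2.1
      linarith
    have e1 : (p2' : ℕ) = 2 := rfl
    have e2 : cf φ d (p2' : ℕ) = φ.η := cf_two d
    rw [Real.rpow_def_of_pos h3, e2]
    unfold Yq
    rw [h2, e1]
    congr 1
    ring
  · congr 1
    refine tsum_congr fun p => ?_
    by_cases h : p = p2'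
    · rw [if_pos h, h]
      unfold xw p2'
      simp
    · have h2 : (p : ℕ) ≠ 2 := fun h3 => h (Subtype.ext h3)
      rw [if_neg h, cf_odd d p.2 h2]
      unfold xw
      rw [if_neg h2]

/-- the value attached to a member of a family -/
def GG (w : ℕ → ℝ) (φ : FD) (d : ℕ) : ℝ :=
  LLg φ d (1 / 2) * Real.exp (∑' p : Nat.Primes, w p * Yq p (cf φ d p))

/-- the product over the odd primes -/
def Podd (w : ℕ → ℝ) : ℝ := ∏' p : Nat.Primes, if (p : ℕ) = 2 then (1 : ℝ) else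
  (1 - 1 / ((p : ℕ) : ℝ)) * phQ p (1 + w p)

lemma fam_lim' (hB : StB) {w : ℕ → ℝ} (hw : WS w) {φ : FD} (hφ : Fam φ) :
    Tendsto (fun Y : ℕ => fsum (GG w) φ Y / (Y * Real.log Y)) atTop
      (𝓝 (φ.δ * (2 / Real.pi ^ 2) * (1 - φ.η / √2) ^ (-(1 + w 2)) * Podd w)) := by
  have h1 := (tan_lim a1 a2 p hB c hφ (x := xw w) (by unfold xw; simp) (xw_sum hw)).const_mul
    ((1 - φ.η / √2) ^ (-w 2))
  have h3 : 0 < 1 - φ.η / √2 := by
    have := (abs_le.1 (eta_q hφ)).2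
    have := q_facts.2.1
    linarith
  have e1 : (∏' p : Nat.Primes, if (p : ℕ) = 2 then (1 : ℝ) else (1 - 1 / ((p : ℕ) : ℝ)) * phQ p (1 + xw w p)) =
      Podd w := by
    unfold Podd
    refine tprod_congr fun p => ?_
    split_ifs with h
    · rfl
    · unfold xw
      rw [if_neg h]
  rw [e1] at h1
  have e2 : (1 - φ.η / √2) ^ (-w 2) *
      (φ.δ * (8 / Real.pi ^ 2) / (2 * (1 - φ.η / √2)) * (1 / 2 * Podd w)) =
      φ.δ * (2 / Real.pi ^ 2) * (1 - φ.η / √2) ^ (-(1 + w 2)) * Podd w := by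
    rw [neg_add, Real.rpow_add h3, Real.rpow_neg_one]
    field_simp
    ring
  rw [e2] at h1
  refine h1.congr fun Y => ?_
  rw [← mul_div_assoc, mul_sum]
  congr 1
  unfold fsum
  refine sum_congr rfl fun d _ => ?_
  unfold GG
  rw [exp_split hw hφ]
  ring

/-! ### the whole product -/

lemma phQ_shift (p : Nat.Primes) (w : ℝ) :
    |Real.log (phQ p (1 + w)) - Real.log (phQ p 1)| ≤ 4 * (|w| * (√((p : ℕ) : ℝ))⁻¹) := by
  obtain ⟨d0, d1, -⟩ := de_facts p
  set δ : ℝ := (√((p : ℕ) : ℝ))⁻¹ with hδ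
  set E : ℝ := 4 * (|w| * δ) with hE
  have hE0 : 0 ≤ E := by positivity
  have key : ∀ η : ℝ, |η| ≤ 1 → 0 < (1 - η * δ) ∧ (1 - η * δ) ^ (-(1 + w)) ≤ Real.exp E * (1 - η * δ) ^ (-(1:ℝ)) ∧
      Real.exp (-E) * (1 - η * δ) ^ (-(1:ℝ)) ≤ (1 - η * δ) ^ (-(1 + w)) := by
    intro η hη
    obtain ⟨h1, h2⟩ := Yq_bd p hη
    have h3 : |w * Yq p η| ≤ E := by
      rw [abs_mul, hE]
      calc |w| * |Yq p η| ≤ |w| * (4 * δ) := by gcongr
        _ = _ := by ring
    have h4 := abs_le.1 h3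
    have e1 : (1 - η * δ) ^ (-(1 + w)) = Real.exp (w * Yq p η) * (1 - η * δ) ^ (-(1:ℝ)) := by
      rw [neg_add, Real.rpow_add h1, mul_comm, Real.rpow_def_of_pos h1 (-w)]
      congr 2
      unfold Yq
      ring
    have h5 : 0 < (1 - η * δ) ^ (-(1:ℝ)) := Real.rpow_pos_of_pos h1 _
    rw [e1]
    refine ⟨h1, ?_, ?_⟩
    · exact mul_le_mul_of_nonneg_right (Real.exp_le_exp.2 h4.2) h5.le
    · exact mul_le_mul_of_nonneg_right (Real.exp_le_exp.2 h4.1) h5.le
  obtain ⟨a0, a1, a2⟩ := key 1 (by norm_num)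
  obtain ⟨b0, b1, b2⟩ := key (-1) (by norm_num)
  rw [one_mul] at a0 a1 a2
  rw [neg_one_mul, sub_neg_eq_add] at b0 b1 b2
  have hp0 : (0 : ℝ) < (p : ℕ) := by exact_mod_cast p.2.pos
  have hq := phQ_pos p 1
  have hq2 := phQ_pos p (1 + w)
  have hexp1 : (1:ℝ) ≤ Real.exp E := Real.one_le_exp hE0
  have hexp2 : Real.exp (-E) ≤ 1 := Real.exp_le_one_iff.2 (by linarith)
  have hip : (0:ℝ) < 1 / ((p : ℕ) : ℝ) := by positivity
  have u1 : phQ p (1 + w) ≤ Real.exp E * phQ p 1 := by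
    unfold phQ
    rw [← mul_div_assoc, ← hδ]
    gcongr
    nlinarith
  have u2 : Real.exp (-E) * phQ p 1 ≤ phQ p (1 + w) := by
    unfold phQ
    rw [← mul_div_assoc, ← hδ]
    gcongr
    nlinarith
  have v1 := Real.log_le_log hq2 u1
  have v2 := Real.log_le_log (mul_pos (Real.exp_pos _) hq) u2
  rw [Real.log_mul (Real.exp_pos _).ne' hq.ne', Real.log_exp] at v1 v2
  rw [abs_le]
  constructor <;> linarith

lemma all_sum {w : ℕ → ℝ} (hw : WS w) : Summable fun p : Nat.Primes =>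
    Real.log ((1 - 1 / ((p : ℕ) : ℝ)) * phQ p (1 + w p)) := by
  have h1 : Summable fun p : Nat.Primes => Real.log (phQ p (1 + w p)) - Real.log (phQ p 1) := by
    refine Summable.of_norm_bounded (Summable.mul_left 4 hw) fun p => ?_
    refine (phQ_shift p (w p)).trans ?_
    have := sq_le_eighth p
    gcongr
  refine (h1.add cfac_sum).congr fun p => ?_
  have h2 := phQ_pos p 1
  have h3 := phQ_pos p (1 + w p)
  have h4 := one_sub_pos p
  rw [one_div, Real.log_mul h4.ne' h2.ne', Real.log_mul h4.ne' h3.ne']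
  ring

lemma Pall_eq {w : ℕ → ℝ} (hw : WS w) :
    ∏' p : Nat.Primes, (1 - 1 / ((p : ℕ) : ℝ)) * phQ p (1 + w p) = 1 / 2 * phQ 2 (1 + w 2) * Podd w := by
  have hpos : ∀ p : Nat.Primes, 0 < (1 - 1 / ((p : ℕ) : ℝ)) * phQ p (1 + w p) := by
    intro p
    have h4 := one_sub_pos p
    rw [one_div]
    exact mul_pos h4 (phQ_pos p _)
  have h1 : Summable fun p : Nat.Primes => Real.log (Function.update (fun p : Nat.Primes =>
      (1 - 1 / ((p : ℕ) : ℝ)) * phQ p (1 + w p)) p2' 1 p) := by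
    refine Summable.of_norm_bounded (all_sum hw).abs fun p => ?_
    by_cases h : p = p2'
    · rw [h, Function.update_self]
      simp
    · rw [Function.update_of_ne h, Real.norm_eq_abs]
  have h2 : Multipliable (Function.update (fun p : Nat.Primes =>
      (1 - 1 / ((p : ℕ) : ℝ)) * phQ p (1 + w p)) p2' 1) := by
    refine Real.multipliable_of_summable_log (fun p => ?_) h1
    by_cases h : p = p2'
    · rw [h, Function.update_self]
      exact one_pos
    · rw [Function.update_of_ne h]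
      exact hpos p
  rw [h2.tprod_eq_mul_tprod_ite']
  congr 1
  · unfold p2'
    norm_num
  · unfold Podd
    refine tprod_congr fun p => ?_
    by_cases h : p = p2'
    · rw [if_pos h, if_pos (by rw [h]; rfl)]
    · have h4 : ¬ (p : ℕ) = 2 := fun h3 => h (Subtype.ext h3)
      rw [if_neg h, if_neg h4]

/-- the limit of the averages -/
def ck (w : ℕ → ℝ) : ℝ := 1 / 2 * ∏' p : Nat.Primes, (1 - 1 / ((p : ℕ) : ℝ)) * phQ p (1 + w p)

lemma ck_pos {w : ℕ → ℝ} (hw : WS w) : 0 < ck w := by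
  have h1 := Real.rexp_tsum_eq_tprod (f := fun p : Nat.Primes => (1 - 1 / ((p : ℕ) : ℝ)) * phQ p (1 + w p))
    (fun p => by
      have h4 := one_sub_pos p
      rw [one_div]
      exact mul_pos h4 (phQ_pos p _)) (all_sum hw)
  unfold ck
  rw [← h1]
  positivity

theorem total_lim (hB : StB) {w : ℕ → ℝ} (hw : WS w) {ε : ℤ} (hε : ε = 1 ∨ ε = -1) :
    Tendsto (fun X : ℕ => (fsum (GG w) (F8 ε) (X / 8) + fsum (GG w) (F4 ε) (X / 4) + fsum (GG w) (F1 ε 1) X +
      fsum (GG w) (F1 ε 5) X) / (X * Real.log X)) atTop (𝓝 (3 / Real.pi ^ 2 * ck w)) := by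
  have f8 : Fam (F8 ε) := ⟨ε, hε, Or.inl rfl⟩
  have f4 : Fam (F4 ε) := ⟨ε, hε, Or.inr (Or.inl rfl)⟩
  have f1 : Fam (F1 ε 1) := ⟨ε, hε, Or.inr (Or.inr (Or.inl rfl))⟩
  have f5 : Fam (F1 ε 5) := ⟨ε, hε, Or.inr (Or.inr (Or.inr rfl))⟩
  have h8 := div_tend (r := 8) (by norm_num) (fam_lim' hB hw f8)
  have h4 := div_tend (r := 4) (by norm_num) (fam_lim' hB hw f4)
  have h1 := fam_lim' hB hw f1
  have h5 := fam_lim' hB hw f5
  have h := ((h8.add h4).add h1).add h5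
  refine (h.congr fun X => ?_).trans (le_of_eq ?_)
  · ring
  · congr 1
    unfold ck
    rw [Pall_eq hw]
    have e8 : (F8 ε).η = 0 := rfl
    have e4 : (F4 ε).η = 0 := rfl
    have e1 : (F1 ε 1).η = 1 := by simp [F1]
    have e5 : (F1 ε 5).η = -1 := by simp [F1]
    have d8 : (F8 ε).δ = 1 / 2 := rfl
    have d4 : (F4 ε).δ = 1 / 4 := rfl
    have d1 : (F1 ε 1).δ = 1 / 8 := rfl
    have d5 : (F1 ε 5).δ = 1 / 8 := rfl
    rw [e8, e4, e1, e5, d8, d4, d1, d5]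
    unfold phQ
    have g1 : (1 - (0:ℝ) / √2) ^ (-(1 + w 2)) = 1 := by
      rw [zero_div, sub_zero, Real.one_rpow]
    have g2 : (1 - (-1 : ℝ) / √2) = 1 + (√((2 : ℕ) : ℝ))⁻¹ := by
      push_cast
      ring
    have g3 : (1 - (1 : ℝ) / √2) = 1 - (√((2 : ℕ) : ℝ))⁻¹ := by
      push_cast
      ring
    rw [g1, g2, g3]
    push_cast
    ring

/-- the number of characters -/
theorem count_lim {ε : ℤ} (hε : ε = 1 ∨ ε = -1) :
    Tendsto (fun X : ℕ => ((Chs ε X).ncard : ℝ) / X) atTop (𝓝 (3 / Real.pi ^ 2)) := by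
  classical
  have key : ∀ {φ : FD}, Fam φ → Tendsto (fun Y : ℕ => fsum (fun _ _ => 1) φ Y / Y) atTop (𝓝 (φ.δ * (8 / Real.pi ^ 2))) := by
    intro φ hφ
    refine (LnkC.DEN φ hφ).congr fun Y => ?_
    congr 1
    unfold fsum
    rw [sum_const, nsmul_eq_mul, mul_one, ← Set.ncard_coe_finset]
    congr 2
    ext d
    simp only [Set.mem_inter_iff, Set.mem_setOf_eq, coe_filter, mem_Icc, SFg]
    constructor
    · rintro ⟨⟨h1, h2⟩, h3⟩
      exact ⟨⟨Nat.pos_of_ne_zero h2.ne_zero, h3⟩, h1, h2⟩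
    · rintro ⟨⟨_, h3⟩, h1, h2⟩
      exact ⟨⟨h1, h2⟩, h3⟩
  have f8 : Fam (F8 ε) := ⟨ε, hε, Or.inl rfl⟩
  have f4 : Fam (F4 ε) := ⟨ε, hε, Or.inr (Or.inl rfl)⟩
  have f1 : Fam (F1 ε 1) := ⟨ε, hε, Or.inr (Or.inr (Or.inl rfl))⟩
  have f5 : Fam (F1 ε 5) := ⟨ε, hε, Or.inr (Or.inr (Or.inr rfl))⟩
  have h := (((div_tend1 (r := 8) (by norm_num) (key f8)).add (div_tend1 (r := 4) (by norm_num) (key f4))).add
    (key f1)).add (key f5)
  refine (h.congr fun X => ?_).trans (le_of_eq ?_)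
  · obtain ⟨hfin, h1⟩ := d ε hε (fun _ => 1) (fun _ _ => 1) (fun _ _ _ _ _ _ _ _ _ _ => rfl) X
    have h2 : ∑ᶠ p ∈ Chs ε X, (1:ℝ) = (Chs ε X).ncard := by
      rw [finsum_mem_eq_finite_toFinset_sum _ hfin, sum_const, nsmul_eq_mul, mul_one, Set.ncard_eq_toFinset_card _ hfin]
    rw [← h2, h1]
    ring
  · congr 1
    have d8 : (F8 ε).δ = 1 / 2 := rfl
    have d4 : (F4 ε).δ = 1 / 4 := rfl
    have d1 : (F1 ε 1).δ = 1 / 8 := rfl
    have d5 : (F1 ε 5).δ = 1 / 8 := rfl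
    rw [d8, d4, d1, d5]
    push_cast
    ring

end

end Pool.Agent.K4H95.LQ
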