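import Pool.Agent.K4H95.LQ.R3

/-!
# The asymptotics of the main term, uniformly in the pattern
-/

set_option autoImplicit false

namespace Pool.Agent.K4H95.LQ

open Finset Filter Topology Pool.Agent.H306R2.RG Pool.Agent.H306R2.RZ

noncomputable section

lemma pim_pos (p : ℕ) (hp : 1 ≤ p) (x : ℝ) : 0 < pim p x := by
  have : (0:ℝ) < p := by exact_mod_cast hp
  unfold pim
  split_ifs <;> positivity

lemma lam_pos {p : ℕ} (hp : p.Prime) {x : ℝ} (hx : x = 0 ∨ x = 1 ∨ x = -1) : 0 < lam p x := by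
  have h2 : (2:ℝ) ≤ p := by exact_mod_cast hp.two_le
  have h0 : (0:ℝ) < p := by linarith
  have h1 := pim_pos p hp.one_le x
  have h3 : 0 < 1 - 1 / (p : ℝ) := by
    rw [sub_pos, div_lt_one h0]
    linarith
  have h4 : 0 < 1 - 1 / ((p : ℝ) * ((p : ℝ) + 1)) := by
    rw [sub_pos, div_lt_one (by positivity)]
    nlinarith
  have h5 : 1 < √(p : ℝ) := by
    rw [Real.lt_sqrt zero_le_one]
    linarith
  have h6 : 0 < 1 - x / √(p : ℝ) := by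
    rw [sub_pos, div_lt_one (by linarith)]
    rcases hx with rfl | rfl | rfl <;> linarith
  unfold lam
  positivity

lemma OP_insert {p : ℕ} {S : Finset ℕ} (h : OP (insert p S)) : p.Prime ∧ p ≠ 2 ∧ OP S :=
  ⟨(h p (mem_insert_self _ _)).1, (h p (mem_insert_self _ _)).2, fun q hq => h q (mem_insert_of_mem hq)⟩

lemma UL_pos (hP2 : StP2) {S : Finset ℕ} {a : ℕ → ℝ} (hS : OP S) (ha : Pat a) : 0 < UL S a := by
  obtain ⟨c, hc, h⟩ := hP2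
  have h1 := (h 0 ∅ a (fun p hp => absurd hp (notMem_empty p)) ha (fun p hp => absurd hp (notMem_empty p))).1
  unfold UL at h1 ⊢
  rw [prod_empty, mul_one, pow_zero, mul_one] at h1
  have h2 : 0 < ∏ p ∈ S, lam p (a p) := prod_pos fun p hp => lam_pos (hS p hp).1 (ha p)
  have : 0 < Gm 1 := lt_of_lt_of_le hc h1
  positivity

lemma UL_insert {p : ℕ} {S : Finset ℕ} (hp : p ∉ S) (a : ℕ → ℝ) : UL (insert p S) a = lam p (a p) * UL S a := by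
  unfold UL
  rw [prod_insert hp]
  ring

/-- I5 -/
theorem i5 (h1 : StI1) (h2 : StI2) (h3 : StI3) (h4 : StI4) (hP2 : StP2) {Ψ : ℝ → ℝ} (hΨ : Cut Ψ)
    (ht : ∃ C : ℝ, ∀ z, 1 - Ψ z ≤ C * Real.exp (-z / 4)) : ∃ C : ℝ, 0 ≤ C ∧ ∀ (S : Finset ℕ) (a : ℕ → ℝ), OP S → Pat a →
    ∃ V : ℝ, |V| ≤ C * UL S a * (1 + ∑ p ∈ S, Real.log p / √(p : ℝ)) ∧
      ∀ z, |CS Ψ S a z - (UL S a * (z / 2) + V)| ≤ C * 2 ^ S.card * Real.exp (-z / 8) := by
  obtain ⟨V₀, E₀, hE₀, hb⟩ := h2 Ψ hΨ (h1 Ψ hΨ ht)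
  have hG : 0 < Gm 1 := by
    have h := UL_pos hP2 (S := ∅) (a := fun _ => 0) (fun p hp => absurd hp (notMem_empty p)) (fun _ => Or.inl rfl)
    unfold UL at h
    rwa [prod_empty, mul_one] at h
  set C : ℝ := |V₀| / Gm 1 + E₀ + 3 with hC
  have hC0 : 0 ≤ |V₀| / Gm 1 := by positivity
  have hCC : 0 ≤ C := by positivity
  refine ⟨C, hCC, fun S => ?_⟩
  classical
  induction S using Finset.induction_on with
  | empty =>
    intro a hS ha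
    refine ⟨V₀, ?_, fun z => ?_⟩
    · unfold UL
      rw [prod_empty, sum_empty, mul_one, add_zero, mul_one]
      have : |V₀| = |V₀| / Gm 1 * Gm 1 := by field_simp
      rw [this]
      apply mul_le_mul_of_nonneg_right _ hG.le
      linarith
    · unfold UL
      rw [(h3 Ψ hΨ ∅ a hS ha).2.2.1 z, prod_empty, mul_one, card_empty, pow_zero, mul_one]
      refine (hb z).trans ?_
      have : E₀ ≤ C := by linarith
      gcongr
  | insert p S hp ih =>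
    intro a hS ha
    obtain ⟨hpp, hp2, hS'⟩ := OP_insert hS
    obtain ⟨V, hV, hz⟩ := ih a hS' ha
    obtain ⟨B, hB⟩ := (h3 Ψ hΨ (insert p S) a hS ha).2.1
    have hU := UL_pos hP2 hS' ha
    have hl := lam_pos hpp (ha p)
    obtain ⟨V', hV', hz'⟩ := h4 p (a p) hpp hp2 (ha p) (CS Ψ (insert p S) a) (CS Ψ S a) (UL S a) V
      (C * 2 ^ S.card) B (by positivity) hB ((h3 Ψ hΨ S a hS' ha).2.2.2 p hpp hp2 hp) hz
    refine ⟨V', ?_, fun z => ?_⟩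
    · rw [UL_insert hp, sum_insert hp]
      have e1 : |V'| ≤ |V' - lam p (a p) * V| + |lam p (a p) * V| := by
        have := abs_add_le (V' - lam p (a p) * V) (lam p (a p) * V)
        rwa [sub_add_cancel] at this
      rw [abs_mul, abs_of_pos hl] at e1
      rw [abs_of_pos hU] at hV'
      have h5 : 0 ≤ Real.log p / √(p : ℝ) := by
        have : (1:ℝ) ≤ p := by exact_mod_cast hpp.one_le
        have := Real.log_nonneg this
        positivity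
      have h6 : lam p (a p) * |V| ≤ lam p (a p) * (C * UL S a * (1 + ∑ p ∈ S, Real.log p / √(p : ℝ))) :=
        mul_le_mul_of_nonneg_left hV hl.le
      have h7 : 3 * lam p (a p) * UL S a * (Real.log p / √(p : ℝ)) ≤ C * lam p (a p) * UL S a * (Real.log p / √(p : ℝ)) := by
        have : (3:ℝ) ≤ C := by linarith
        gcongr
      calc |V'| ≤ 3 * lam p (a p) * UL S a * (Real.log p / √(p : ℝ)) + lam p (a p) * |V| := by linarith
        _ ≤ C * lam p (a p) * UL S a * (Real.log p / √(p : ℝ)) +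
            lam p (a p) * (C * UL S a * (1 + ∑ p ∈ S, Real.log p / √(p : ℝ))) := by linarith
        _ = _ := by ring
    · rw [UL_insert hp, card_insert_of_notMem hp]
      refine (hz' z).trans (le_of_eq ?_)
      ring

/-! ### one family -/

/-- the odd primes up to `Y` -/
def oddP (Y : ℕ) : Finset ℕ := (Icc 1 Y).filter (fun p => p.Prime ∧ p ≠ 2)

lemma oddP_OP (Y : ℕ) : OP (oddP Y) := fun p hp => (mem_filter.1 hp).2

lemma oddP_le (Y : ℕ) : ∀ p ∈ oddP Y, p ≤ Y := fun p hp => (mem_Icc.1 (mem_filter.1 hp).1).2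

lemma ES_le (hP2 : StP2) (Y : ℕ) {a : ℕ → ℝ} (ha : Pat a) : ES (oddP Y) ≤ 8 ^ Y := by
  obtain ⟨c, hc, h⟩ := hP2
  obtain ⟨-, -, h3, h4⟩ := h Y (oddP Y) a (oddP_OP Y) ha (oddP_le Y)
  unfold ES
  have h5 : ((∏ p ∈ oddP Y, p ^ 2 : ℕ) : ℝ) ^ (3 / 8 : ℝ) ≤ ((16:ℝ) ^ Y) ^ (3 / 8 : ℝ) := by gcongr
  have h6 : ((16:ℝ) ^ Y) ^ (3 / 8 : ℝ) ≤ 4 ^ Y := by
    rw [← Real.rpow_natCast 16 Y, ← Real.rpow_mul (by norm_num), ← Real.rpow_natCast 4 Y,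
      show (16:ℝ) = 4 ^ (2:ℝ) by norm_num, ← Real.rpow_mul (by norm_num)]
    apply Real.rpow_le_rpow_of_exponent_le (by norm_num)
    have : (0:ℝ) ≤ Y := Nat.cast_nonneg _
    nlinarith
  calc (2:ℝ) ^ (oddP Y).card * ((∏ p ∈ oddP Y, p ^ 2 : ℕ) : ℝ) ^ (3 / 8 : ℝ) ≤ 2 ^ Y * 4 ^ Y := by
        gcongr
        exact h5.trans h6
    _ = 8 ^ Y := by rw [← mul_pow]; norm_num

/-- **one family** -/
theorem fam_uni (h1 : StI1) (h1b : StI1b) (h2 : StI2) (h3 : StI3) (h4 : StI4) (h6 : StI6) (hP1 : StP1) (hP2 : StP2)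
    (hR2 : StR2) {φ : FD} (hφ : Fam φ) : ∃ K : ℝ, 0 ≤ K ∧ ∀ (Y X : ℕ) (a : ℕ → ℝ), Pat a → 2 ≤ X →
    (256 : ℝ) ^ Y ≤ (X : ℝ) ^ (1 / 64 : ℝ) →
    |SI φ (oddP Y) a X - φ.δ * (8 / Real.pi ^ 2) * UL (oddP Y) a / (2 * (1 - φ.η / √2)) * (X * Real.log X)| ≤
      K * UL (oddP Y) a * (1 + √(Y : ℝ)) * X := by
  obtain ⟨K₁, hK₁, hS⟩ := SI_MI hR2 h3 hφ
  obtain ⟨C, hC, hCS⟩ := i5 h1 h2 h3 h4 hP2 (Psi_cut φ) (h1b φ)
  obtain ⟨K₆, hK₆, hI⟩ := h6 φ.r (r_one hφ)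
  obtain ⟨C₁, hC₁, hp1⟩ := hP1
  obtain ⟨c, hc, hp2⟩ := hP2
  set D : ℝ := φ.δ * (8 / Real.pi ^ 2) with hD
  have hD0 : 0 ≤ D := by have := delta_nonneg hφ; positivity
  refine ⟨2 * D * K₆ * (1 + C * (1 + C₁) + C / c) + K₁ * 65 / c, by positivity, fun Y X a ha hX hY => ?_⟩
  set S := oddP Y with hSd
  have hOP := oddP_OP Y
  have hUpos : 0 < UL S a := UL_pos ⟨c, hc, hp2⟩ hOP ha
  set U := UL S a with hU
  have hX1 : (1:ℝ) ≤ X := by exact_mod_cast (by omega : 1 ≤ X)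
  have hX0 : (0:ℝ) < X := by linarith
  obtain ⟨hl, -⟩ := log_two_bd hX
  obtain ⟨q1, q2, q3, q4⟩ := hp2 Y S a hOP ha (oddP_le Y)
  rw [← hU] at q1
  obtain ⟨V, hV, hz⟩ := hCS S a hOP ha
  rw [← hU] at hV hz
  have hsY : 0 ≤ √(Y : ℝ) := Real.sqrt_nonneg _
  have hsum := hp1 Y S (fun p hp => ⟨(hOP p hp).1, oddP_le Y p hp⟩)
  have hV2 : |V| ≤ C * (1 + C₁) * U * (1 + √(Y : ℝ)) := by
    refine hV.trans ?_
    calc C * U * (1 + ∑ p ∈ S, Real.log p / √(p : ℝ)) ≤ C * U * (1 + C₁ * √(Y : ℝ)) := by gcongr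
      _ ≤ C * U * ((1 + C₁) * (1 + √(Y : ℝ))) := by
        gcongr
        nlinarith
      _ = _ := by ring
  have b1 := (hI (CS (Psi φ) S a) U V (C * 2 ^ S.card) φ.η (eta_le hφ) (by positivity) hz X hX).2
  have b2 := hS S a hOP ha X (by omega)
  have hcU : c * 8 ^ Y ≤ (X : ℝ) ^ (1 / 64 : ℝ) * U := by
    have e1 : (1 / 32 : ℝ) ^ Y * 32 ^ Y = 1 := by rw [← mul_pow]; norm_num
    have e2 : (32:ℝ) ^ Y * 8 ^ Y = 256 ^ Y := by rw [← mul_pow]; norm_num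
    calc c * 8 ^ Y = c * (1 / 32) ^ Y * (32 ^ Y * 8 ^ Y) := by
          calc c * 8 ^ Y = c * ((1 / 32 : ℝ) ^ Y * 32 ^ Y) * 8 ^ Y := by rw [e1, mul_one]
            _ = _ := by ring
      _ ≤ U * 256 ^ Y := by rw [e2]; gcongr
      _ ≤ U * (X : ℝ) ^ (1 / 64 : ℝ) := by gcongr
      _ = _ := mul_comm _ _
  have g1 : (2:ℝ) ^ S.card * (X : ℝ) ^ (15 / 16 : ℝ) ≤ U * X / c := by
    rw [le_div_iff₀ hc]
    have t1 : (2:ℝ) ^ S.card ≤ 8 ^ Y := q3.trans (pow_le_pow_left₀ (by norm_num) (by norm_num) Y)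
    calc (2:ℝ) ^ S.card * (X : ℝ) ^ (15 / 16 : ℝ) * c ≤ 8 ^ Y * (X : ℝ) ^ (15 / 16 : ℝ) * c := by gcongr
      _ = (c * 8 ^ Y) * (X : ℝ) ^ (15 / 16 : ℝ) := by ring
      _ ≤ ((X : ℝ) ^ (1 / 64 : ℝ) * U) * (X : ℝ) ^ (15 / 16 : ℝ) := by gcongr
      _ = U * ((X : ℝ) ^ (1 / 64 : ℝ) * (X : ℝ) ^ (15 / 16 : ℝ)) := by ring
      _ ≤ U * X := by
        rw [← Real.rpow_add hX0]
        have := Real.rpow_le_rpow_of_exponent_le hX1 (show (1 / 64 + 15 / 16 : ℝ) ≤ 1 by norm_num)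
        rw [Real.rpow_one] at this
        gcongr
  have g2 : ES S * ((X : ℝ) ^ (31 / 32 : ℝ) * (1 + Real.log X)) ≤ 65 * (U * X / c) := by
    have t1 : ES S ≤ 8 ^ Y := ES_le ⟨c, hc, hp2⟩ Y ha
    have t2 : 1 + Real.log X ≤ 65 * (X : ℝ) ^ (1 / 64 : ℝ) := by
      have t3 := Real.log_le_rpow_div (x := X) hX0.le (ε := 1 / 64) (by norm_num)
      have t4 : (1:ℝ) ≤ (X : ℝ) ^ (1 / 64 : ℝ) := Real.one_le_rpow hX1 (by norm_num)
      have t5 : (X : ℝ) ^ (1 / 64 : ℝ) / (1 / 64) = 64 * (X : ℝ) ^ (1 / 64 : ℝ) := by ring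
      rw [t5] at t3
      linarith
    have hl0 : 0 ≤ 1 + Real.log X := by linarith
    rw [mul_div_assoc', le_div_iff₀ hc]
    calc ES S * ((X : ℝ) ^ (31 / 32 : ℝ) * (1 + Real.log X)) * c ≤
        8 ^ Y * ((X : ℝ) ^ (31 / 32 : ℝ) * (65 * (X : ℝ) ^ (1 / 64 : ℝ))) * c := by gcongr
      _ = 65 * (c * 8 ^ Y) * ((X : ℝ) ^ (31 / 32 : ℝ) * (X : ℝ) ^ (1 / 64 : ℝ)) := by ring
      _ ≤ 65 * ((X : ℝ) ^ (1 / 64 : ℝ) * U) * ((X : ℝ) ^ (31 / 32 : ℝ) * (X : ℝ) ^ (1 / 64 : ℝ)) := by gcongr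
      _ = 65 * (U * ((X : ℝ) ^ (1 / 64 : ℝ) * ((X : ℝ) ^ (31 / 32 : ℝ) * (X : ℝ) ^ (1 / 64 : ℝ)))) := by ring
      _ = 65 * (U * X) := by
        rw [← Real.rpow_add hX0, ← Real.rpow_add hX0]
        norm_num
  set Sg : ℝ := ∑' j : ℕ, (φ.η / √2) ^ j * ∑ d ∈ Icc 1 X, CS (Psi φ) S a (Real.log ((φ.r : ℝ) * d) / 2 - j * Real.log 2)
    with hSig
  have e1 : SI φ S a X - D * U / (2 * (1 - φ.η / √2)) * (X * Real.log X) =
      (SI φ S a X - 2 * D * Sg) + 2 * D * (Sg - U / (4 * (1 - φ.η / √2)) * (X * Real.log X)) := by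
    have h3 : 1 - φ.η / √2 ≠ 0 := by
      have := (abs_le.1 (eta_q hφ)).2
      have := q_facts.2.1
      have : 0 < 1 - φ.η / √2 := by linarith
      exact this.ne'
    field_simp
    ring
  rw [e1]
  refine (abs_add_le _ _).trans ?_
  rw [abs_mul, abs_of_nonneg (by positivity : 0 ≤ 2 * D)]
  rw [abs_of_pos hUpos] at b1
  have hUX : 0 ≤ U * X := by positivity
  have hUX2 : U * X ≤ U * (1 + √(Y : ℝ)) * X := by nlinarith
  have b3 : (X:ℝ) * (U + |V|) + C * 2 ^ S.card * (X : ℝ) ^ (15 / 16 : ℝ) ≤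
      (1 + C * (1 + C₁) + C / c) * (U * (1 + √(Y : ℝ)) * X) := by
    have s1 : (X:ℝ) * |V| ≤ C * (1 + C₁) * (U * (1 + √(Y : ℝ)) * X) := by
      calc (X:ℝ) * |V| ≤ X * (C * (1 + C₁) * U * (1 + √(Y : ℝ))) := by gcongr
        _ = _ := by ring
    have s2 : C * 2 ^ S.card * (X : ℝ) ^ (15 / 16 : ℝ) ≤ C / c * (U * (1 + √(Y : ℝ)) * X) := by
      calc C * 2 ^ S.card * (X : ℝ) ^ (15 / 16 : ℝ) = C * ((2:ℝ) ^ S.card * (X : ℝ) ^ (15 / 16 : ℝ)) := by ring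
        _ ≤ C * (U * X / c) := by gcongr
        _ = C / c * (U * X) := by ring
        _ ≤ _ := by gcongr
    have s3 : (X:ℝ) * U ≤ U * (1 + √(Y : ℝ)) * X := by linarith
    calc (X:ℝ) * (U + |V|) + C * 2 ^ S.card * (X : ℝ) ^ (15 / 16 : ℝ) =
        X * U + X * |V| + C * 2 ^ S.card * (X : ℝ) ^ (15 / 16 : ℝ) := by ring
      _ ≤ U * (1 + √(Y : ℝ)) * X + C * (1 + C₁) * (U * (1 + √(Y : ℝ)) * X) + C / c * (U * (1 + √(Y : ℝ)) * X) := by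
        linarith
      _ = _ := by ring
  have b4 : K₁ * ES S * ((X : ℝ) ^ (31 / 32 : ℝ) * (1 + Real.log X)) ≤ K₁ * 65 / c * (U * (1 + √(Y : ℝ)) * X) := by
    calc K₁ * ES S * ((X : ℝ) ^ (31 / 32 : ℝ) * (1 + Real.log X)) =
        K₁ * (ES S * ((X : ℝ) ^ (31 / 32 : ℝ) * (1 + Real.log X))) := by ring
      _ ≤ K₁ * (65 * (U * X / c)) := by gcongr
      _ = K₁ * 65 / c * (U * X) := by ring
      _ ≤ _ := by gcongr
  calc |SI φ S a X - 2 * D * Sg| + 2 * D * |Sg - U / (4 * (1 - φ.η / √2)) * (X * Real.log X)| ≤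
      K₁ * 65 / c * (U * (1 + √(Y : ℝ)) * X) +
        2 * D * (K₆ * ((1 + C * (1 + C₁) + C / c) * (U * (1 + √(Y : ℝ)) * X))) := by
        refine add_le_add (b2.trans b4) ?_
        apply mul_le_mul_of_nonneg_left _ (by positivity)
        refine b1.trans ?_
        gcongr
    _ = _ := by ring

end

end Pool.Agent.K4H95.LQ
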