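import Pool.Agent.K4H95.LQ.Spec5

/-!
# Piece I7 (helper15)
-/

set_option autoImplicit false

namespace Pool.Agent.K4H95.LQ

open Filter Topology MeasureTheory

noncomputable section

namespace I7x

theorem sum_Icc (f : ℕ → ℝ) (X : ℕ) : ∑ d ∈ Finset.Icc 1 X, f d = ∑ i ∈ Finset.range X, f (i + 1) := by
  induction X with
  | zero => simp
  | succ n ih => rw [Finset.sum_Icc_succ_top (by omega), ih, Finset.sum_range_succ]

theorem sum_log (X : ℕ) : ∑ i ∈ Finset.range X, Real.log ((i + 1 : ℕ) : ℝ) = Real.log (X.factorial) := by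
  induction X with
  | zero => simp
  | succ n ih =>
    rw [Finset.sum_range_succ, ih, Nat.factorial_succ, Nat.cast_mul, Real.log_mul, add_comm]
    · positivity
    · positivity

theorem le_log_fact (X : ℕ) (hX : 1 ≤ X) : X * Real.log X - X ≤ Real.log (X.factorial) := by
  have h := Real.pow_div_factorial_le_exp (X : ℝ) (by positivity) X
  have hX0 : (0 : ℝ) < X := by exact_mod_cast hX
  have h2 := Real.log_le_log (by positivity) h
  rw [Real.log_exp, Real.log_div (by positivity) (by positivity), Real.log_pow] at h2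
  linarith

theorem sum_logdiv (X : ℕ) (hX : 1 ≤ X) :
    ∑ d ∈ Finset.Icc 1 X, (Real.log X - Real.log d) ≤ X := by
  have h := le_log_fact X hX
  rw [Finset.sum_sub_distrib, sum_Icc (fun d : ℕ => Real.log (d : ℝ)), sum_log, Finset.sum_const,
    Nat.card_Icc, nsmul_eq_mul, Nat.add_sub_cancel]
  linarith

/-- `Σ_{d ≤ X} d^{-1/16} ≤ 2 X^{15/16}` -/
theorem sum_rpow (X : ℕ) (hX : 1 ≤ X) :
    ∑ d ∈ Finset.Icc 1 X, (d : ℝ) ^ (-(1 / 16) : ℝ) ≤ 2 * (X : ℝ) ^ (15 / 16 : ℝ) := by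
  induction X, hX using Nat.le_induction with
  | base => norm_num
  | succ n hn ih =>
    rw [Finset.sum_Icc_succ_top (by omega)]
    refine (add_le_add_left ih _).trans ?_
    have hn0 : (0 : ℝ) < n := by exact_mod_cast hn
    have h1 : (n : ℝ) ^ (15 / 16 : ℝ) = n * (n : ℝ) ^ (-(1 / 16) : ℝ) := by
      rw [← Real.rpow_one_add' hn0.le (by norm_num)]
      norm_num
    have h2 : ((n + 1 : ℕ) : ℝ) ^ (15 / 16 : ℝ) =
        ((n + 1 : ℕ) : ℝ) * ((n + 1 : ℕ) : ℝ) ^ (-(1 / 16) : ℝ) := by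
      rw [← Real.rpow_one_add' (by positivity) (by norm_num)]
      norm_num
    rw [h1, h2]
    have h3 : (n : ℝ) ^ (-(1 / 16) : ℝ) =
        (1 + 1 / (n : ℝ)) ^ (1 / 16 : ℝ) * ((n + 1 : ℕ) : ℝ) ^ (-(1 / 16) : ℝ) := by
      have h4 : ((n + 1 : ℕ) : ℝ) = (1 + 1 / (n : ℝ)) * n := by
        push_cast
        field_simp
      rw [h4, Real.mul_rpow (by positivity) hn0.le, ← mul_assoc, ← Real.rpow_add (by positivity)]
      norm_num
    have h5 : (1 + 1 / (n : ℝ)) ^ (1 / 16 : ℝ) ≤ 1 + 1 / 16 * (1 / (n : ℝ)) :=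
      _root_.rpow_one_add_le_one_add_mul_self (by
        have : 0 ≤ 1 / (n : ℝ) := by positivity
        linarith) (by norm_num) (by norm_num)
    rw [h3]
    have h6 : 0 ≤ ((n + 1 : ℕ) : ℝ) ^ (-(1 / 16) : ℝ) := by positivity
    have h7 : 2 * (n * (1 + 1 / (n : ℝ)) ^ (1 / 16 : ℝ)) + 1 ≤ 2 * ((n + 1 : ℕ) : ℝ) := by
      have : (n : ℝ) * (1 + 1 / (n : ℝ)) ^ (1 / 16 : ℝ) ≤ n * (1 + 1 / 16 * (1 / (n : ℝ))) :=
        mul_le_mul_of_nonneg_left h5 hn0.le
      have h8 : (n : ℝ) * (1 + 1 / 16 * (1 / (n : ℝ))) = n + 1 / 16 := by field_simp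
      push_cast
      linarith
    nlinarith

/-- one term -/
theorem term {r A₀ : ℝ} (hr : 1 ≤ r) (hA : 0 ≤ A₀) {J C C1 : ℝ → ℝ} {U V G W α : ℝ} (hG : 0 ≤ G)
    (hW : 0 ≤ W) (hC : Os α C C1) (hα : α ≤ 1 / 4) {X : ℕ} (hX : 2 ≤ X) (hL : α * Real.log X ≤ A₀)
    (H1 : ∀ z, 0 ≤ z → z ≤ Real.log (r * X) →
      |J z - (U * (∫ u in (0 : ℝ)..z, C u) + 2 * V * C z)| ≤ G * Real.exp (-z / 8) + W)
    (H2 : ∀ z, z ≤ 0 → |J z| ≤ G * Real.exp (-z / 8)) {d : ℕ} (hd1 : 1 ≤ d) (hdX : d ≤ X) (j : ℕ) :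
    |J (Real.log (r * d) / 2 - j * Real.log 2) - U * ∫ u in (0 : ℝ)..(Real.log X / 2), C u| ≤
      G * ((d : ℝ) ^ (-(1 / 16) : ℝ) * Real.exp (j * Real.log 2 / 8)) + W +
        2 * |V| * Real.cosh (A₀ + Real.log r) +
        |U| * Real.cosh (A₀ + Real.log r) * (Real.log r + (Real.log X - Real.log d) + j) := by
  have hr0 : 0 < r := by linarith
  have hX0 : (0 : ℝ) < X := by
    have : 0 < X := by omega
    exact_mod_cast this
  have hd0 : (0 : ℝ) < d := by exact_mod_cast hd1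
  have hd1' : (1 : ℝ) ≤ d := by exact_mod_cast hd1
  have hdX' : (d : ℝ) ≤ X := by exact_mod_cast hdX
  have eX : Real.log (r * X) = Real.log r + Real.log X := Real.log_mul hr0.ne' hX0.ne'
  have ed : Real.log (r * d) = Real.log r + Real.log d := Real.log_mul hr0.ne' hd0.ne'
  rw [eX] at H1
  rw [ed]
  have hLr : 0 ≤ Real.log r := Real.log_nonneg hr
  have hLd : 0 ≤ Real.log d := Real.log_nonneg hd1'
  have hLdX : Real.log d ≤ Real.log X := Real.log_le_log hd0 hdX'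
  have ht1 : Real.log 2 ≤ 1 := by
    have := Real.log_two_lt_d9
    linarith
  have ht0 : 0 < Real.log 2 := Real.log_pos (by norm_num)
  have hj : (0 : ℝ) ≤ j := Nat.cast_nonneg j
  have hexp : Real.exp (-((Real.log r + Real.log d) / 2 - j * Real.log 2) / 8) ≤
      (d : ℝ) ^ (-(1 / 16) : ℝ) * Real.exp (j * Real.log 2 / 8) := by
    rw [Real.rpow_def_of_pos hd0, ← Real.exp_add]
    refine Real.exp_le_exp.2 ?_
    linarith
  obtain ⟨LX, hLX⟩ : ∃ LX, LX = Real.log X := ⟨_, rfl⟩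
  obtain ⟨Ld, hLdd⟩ : ∃ Ld, Ld = Real.log d := ⟨_, rfl⟩
  obtain ⟨Lr, hLrr⟩ : ∃ Lr, Lr = Real.log r := ⟨_, rfl⟩
  obtain ⟨t, htt⟩ : ∃ t, t = Real.log 2 := ⟨_, rfl⟩
  rw [← hLX, ← hLdd] at hLdX
  rw [← hLX] at hL H1 ⊢
  rw [← hLdd] at hLd hexp ⊢
  rw [← hLrr] at hLr hexp H1 ⊢
  rw [← htt] at ht1 ht0 hexp ⊢
  obtain ⟨M, hM⟩ : ∃ M, M = Real.cosh (A₀ + Lr) := ⟨_, rfl⟩
  rw [← hM]
  have hM1 : 1 ≤ M := by rw [hM]; exact Real.one_le_cosh _
  have hα0 := hC.nonneg
  have hCM : ∀ u, |u| ≤ (Lr + LX) / 2 → |C u| ≤ M := by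
    intro u hu
    refine (hC.bd u).trans ?_
    rw [hM, Real.cosh_le_cosh, abs_mul, abs_of_nonneg hα0, abs_of_nonneg (by linarith : 0 ≤ A₀ + Lr)]
    have h1 : α * |u| ≤ α * ((Lr + LX) / 2) := mul_le_mul_of_nonneg_left hu hα0
    have h2 : α * Lr ≤ 1 / 4 * Lr := mul_le_mul_of_nonneg_right hα hLr
    nlinarith
  have hcont : Continuous C := continuous_iff_continuousAt.2 fun x => (hC.deriv x).continuousAt
  have hLX0 : 0 ≤ LX := hLd.trans hLdX
  have hjt : 0 ≤ j * t := mul_nonneg hj ht0.le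
  have hjt1 : j * t ≤ j := by nlinarith
  obtain ⟨z, hz⟩ : ∃ z, z = (Lr + Ld) / 2 - j * t := ⟨_, rfl⟩
  rw [← hz] at hexp ⊢
  have hGe := mul_le_mul_of_nonneg_left hexp hG
  have hU := abs_nonneg U
  have hV := abs_nonneg V
  have hUM : 0 ≤ |U| * M := mul_nonneg hU (by linarith)
  rcases le_total 0 z with hz0 | hz0
  · have h1 := H1 z hz0 (by rw [hz]; linarith)
    have h2 : |C z| ≤ M := hCM z (by rw [abs_of_nonneg hz0, hz]; linarith)
    have h3 : |(∫ u in (0 : ℝ)..z, C u) - ∫ u in (0 : ℝ)..(LX / 2), C u| ≤ M * |z - LX / 2| := by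
      rw [intervalIntegral.integral_interval_sub_left (hcont.intervalIntegrable _ _)
        (hcont.intervalIntegrable _ _)]
      have h4 := intervalIntegral.norm_integral_le_of_norm_le_const (f := C) (a := LX / 2) (b := z)
        (C := M) (fun x hx => by
          rw [Real.norm_eq_abs]
          refine hCM x ?_
          rw [Set.uIoc, Set.mem_Ioc] at hx
          have h5 : 0 ≤ min (LX / 2) z := le_min (by linarith) hz0
          have h6 : max (LX / 2) z ≤ (Lr + LX) / 2 := max_le (by linarith) (by rw [hz]; linarith)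
          rw [abs_of_nonneg (by linarith [hx.1])]
          linarith [hx.2])
      rwa [Real.norm_eq_abs] at h4
    have h4 : |z - LX / 2| ≤ Lr + (LX - Ld) + j := by
      rw [abs_le, hz]
      constructor <;> linarith
    have h5 : |U * (∫ u in (0 : ℝ)..z, C u) - U * ∫ u in (0 : ℝ)..(LX / 2), C u| ≤
        |U| * M * (Lr + (LX - Ld) + j) := by
      rw [← mul_sub, abs_mul, mul_assoc]
      refine mul_le_mul_of_nonneg_left (h3.trans ?_) hU
      exact mul_le_mul_of_nonneg_left h4 (by linarith)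
    have h6 : |2 * V * C z| ≤ 2 * |V| * M := by
      rw [abs_mul, abs_mul, abs_of_pos (by norm_num : (0 : ℝ) < 2)]
      exact mul_le_mul_of_nonneg_left h2 (by positivity)
    have e : J z - U * ∫ u in (0 : ℝ)..(LX / 2), C u =
        (J z - (U * (∫ u in (0 : ℝ)..z, C u) + 2 * V * C z)) +
        (U * (∫ u in (0 : ℝ)..z, C u) - U * ∫ u in (0 : ℝ)..(LX / 2), C u) + 2 * V * C z := by ring
    rw [e]
    refine (abs_add_three _ _ _).trans ?_
    linarith
  · have h1 := H2 z hz0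
    have h3 : |∫ u in (0 : ℝ)..(LX / 2), C u| ≤ M * (LX / 2) := by
      have h4 := intervalIntegral.norm_integral_le_of_norm_le_const (f := C) (a := 0) (b := LX / 2)
        (C := M) (fun x hx => by
          rw [Real.norm_eq_abs]
          refine hCM x ?_
          rw [Set.uIoc_of_le (by linarith), Set.mem_Ioc] at hx
          rw [abs_of_pos hx.1]
          linarith [hx.2])
      rwa [Real.norm_eq_abs, sub_zero, abs_of_nonneg (by linarith : 0 ≤ LX / 2)] at h4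
    have h5 : LX / 2 ≤ Lr + (LX - Ld) + j := by
      rw [hz] at hz0
      linarith
    have h6 : |U * ∫ u in (0 : ℝ)..(LX / 2), C u| ≤ |U| * M * (Lr + (LX - Ld) + j) := by
      rw [abs_mul, mul_assoc]
      refine mul_le_mul_of_nonneg_left (h3.trans ?_) hU
      exact mul_le_mul_of_nonneg_left h5 (by linarith)
    refine (abs_sub _ _).trans ?_
    have : 0 ≤ 2 * |V| * M := by positivity
    linarith

end I7x

theorem i7 : StI7 := by
  intro r A₀ hr hA
  obtain ⟨Lr, hLr⟩ : ∃ Lr, Lr = Real.log r := ⟨_, rfl⟩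
  obtain ⟨M, hM⟩ : ∃ M, M = Real.cosh (A₀ + Lr) := ⟨_, rfl⟩
  obtain ⟨t, ht⟩ : ∃ t, t = Real.log 2 := ⟨_, rfl⟩
  obtain ⟨x, hx⟩ : ∃ x, x = Real.exp (-(3 / 8) * t) := ⟨_, rfl⟩
  have hLr0 : 0 ≤ Lr := by rw [hLr]; exact Real.log_nonneg hr
  have hM1 : 1 ≤ M := by rw [hM]; exact Real.one_le_cosh _
  have ht0 : 0 < t := by rw [ht]; exact Real.log_pos (by norm_num)
  have hx0 : 0 < x := by rw [hx]; exact Real.exp_pos _
  have hx1 : x < 1 := by rw [hx, Real.exp_lt_one_iff]; linarith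
  have hs : Summable fun j : ℕ => (1 + (j : ℝ)) * x ^ j := by
    have h1 : Summable fun j : ℕ => x ^ j := summable_geometric_of_lt_one hx0.le hx1
    have h2 : Summable fun j : ℕ => (j : ℝ) ^ 1 * x ^ j :=
      summable_pow_mul_geometric_of_norm_lt_one 1 (by rwa [Real.norm_eq_abs, abs_of_pos hx0])
    refine (h1.add h2).congr fun j => ?_
    ring
  have hS0 : 0 ≤ ∑' j : ℕ, (1 + (j : ℝ)) * x ^ j := tsum_nonneg fun j => by positivity
  refine ⟨2 * M * (1 + Lr) * ∑' j : ℕ, (1 + (j : ℝ)) * x ^ j, by positivity, ?_⟩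
  intro J U V G W η α C C1 hη hG hW hC hα X hX hL H1 H2
  obtain ⟨I, hI⟩ : ∃ I, I = ∫ u in (0 : ℝ)..(Real.log X / 2), C u := ⟨_, rfl⟩
  obtain ⟨B, hB⟩ : ∃ B, B = (X * (|U| + |V| + W) + G * (X : ℝ) ^ (15 / 16 : ℝ)) := ⟨_, rfl⟩
  obtain ⟨q, hq⟩ : ∃ q, q = η / √2 := ⟨_, rfl⟩
  rw [← hI, ← hB, ← hq]
  have hU := abs_nonneg U
  have hV := abs_nonneg V
  have hX0 : (0 : ℝ) ≤ X := Nat.cast_nonneg X
  have hXp : 0 ≤ (X : ℝ) ^ (15 / 16 : ℝ) := by positivity
  have hB0 : 0 ≤ B := by rw [hB]; positivity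
  have hterm : ∀ j : ℕ, |(∑ d ∈ Finset.Icc 1 X, J (Real.log (r * d) / 2 - j * Real.log 2)) - X * (U * I)| ≤
      2 * M * (1 + Lr) * B * ((1 + (j : ℝ)) * Real.exp (j * t / 8)) := by
    intro j
    have hj : (0 : ℝ) ≤ j := Nat.cast_nonneg j
    have e1 : (∑ d ∈ Finset.Icc 1 X, J (Real.log (r * d) / 2 - j * Real.log 2)) - X * (U * I) =
        ∑ d ∈ Finset.Icc 1 X, (J (Real.log (r * d) / 2 - j * Real.log 2) - U * I) := by
      rw [Finset.sum_sub_distrib, Finset.sum_const, Nat.card_Icc, nsmul_eq_mul, Nat.add_sub_cancel]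
    rw [e1]
    refine (Finset.abs_sum_le_sum_abs _ _).trans ?_
    have h1 : ∀ d ∈ Finset.Icc 1 X, |J (Real.log (r * d) / 2 - j * Real.log 2) - U * I| ≤
        (G * Real.exp (j * t / 8)) * (d : ℝ) ^ (-(1 / 16) : ℝ) + (W + 2 * |V| * M + |U| * M * (Lr + j)) +
        |U| * M * (Real.log X - Real.log d) := by
      intro d hd
      rw [Finset.mem_Icc] at hd
      have := I7x.term hr hA hG hW hC hα hX hL H1 H2 hd.1 hd.2 j
      rw [← hI, ← hLr, ← hM, ← ht] at this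
      rw [← ht]
      linarith
    refine (Finset.sum_le_sum h1).trans ?_
    rw [Finset.sum_add_distrib, Finset.sum_add_distrib, ← Finset.mul_sum, ← Finset.mul_sum,
      Finset.sum_const, Nat.card_Icc, nsmul_eq_mul, Nat.add_sub_cancel]
    have h2 := I7x.sum_rpow X (by omega)
    have h3 := I7x.sum_logdiv X (by omega)
    obtain ⟨E, hE⟩ : ∃ E, E = Real.exp (j * t / 8) := ⟨_, rfl⟩
    rw [← hE]
    have hE1 : 1 ≤ E := by rw [hE]; exact Real.one_le_exp (by positivity)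
    have h4 : G * E * ∑ d ∈ Finset.Icc 1 X, (d : ℝ) ^ (-(1 / 16) : ℝ) ≤
        G * E * (2 * (X : ℝ) ^ (15 / 16 : ℝ)) := mul_le_mul_of_nonneg_left h2 (by positivity)
    have h5 : |U| * M * ∑ d ∈ Finset.Icc 1 X, (Real.log X - Real.log d) ≤ |U| * M * X :=
      mul_le_mul_of_nonneg_left h3 (by positivity)
    refine (add_le_add (add_le_add_left h4 _) h5).trans ?_
    -- collect
    have k0 : 1 ≤ M * (1 + Lr) := one_le_mul_of_one_le_of_one_le hM1 (by linarith)
    have k2 : E ≤ (1 + (j : ℝ)) * E := le_mul_of_one_le_left (by linarith) (by linarith)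
    have k1 : 1 ≤ (1 + (j : ℝ)) * E := hE1.trans k2
    have k3 : 1 + (j : ℝ) ≤ (1 + (j : ℝ)) * E := le_mul_of_one_le_right (by linarith) hE1
    obtain ⟨P, hP⟩ : ∃ P, P = M * (1 + Lr) := ⟨_, rfl⟩
    obtain ⟨Q, hQ⟩ : ∃ Q, Q = (1 + (j : ℝ)) * E := ⟨_, rfl⟩
    have hP0 : 0 ≤ P := by rw [hP]; positivity
    rw [← hP] at k0
    rw [← hQ] at k1 k2 k3
    have m1 : G * E * (2 * (X : ℝ) ^ (15 / 16 : ℝ)) ≤ 2 * P * (G * (X : ℝ) ^ (15 / 16 : ℝ)) * Q := by
      have h7 : 1 * E ≤ P * Q := mul_le_mul k0 k2 (by linarith) hP0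
      have h6 : 0 ≤ G * (X : ℝ) ^ (15 / 16 : ℝ) := by positivity
      have h := mul_le_mul_of_nonneg_left h7 h6
      have a1 : G * E * (2 * (X : ℝ) ^ (15 / 16 : ℝ)) = 2 * (G * (X : ℝ) ^ (15 / 16 : ℝ) * (1 * E)) := by ring
      have a2 : 2 * P * (G * (X : ℝ) ^ (15 / 16 : ℝ)) * Q = 2 * (G * (X : ℝ) ^ (15 / 16 : ℝ) * (P * Q)) := by ring
      rw [a1, a2]
      linarith
    have m2 : (X : ℝ) * W ≤ 2 * P * (X * W) * Q := by
      have h7 : 1 * 1 ≤ P * Q := mul_le_mul k0 k1 (by norm_num) hP0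
      have h6 : 0 ≤ (X : ℝ) * W := by positivity
      have h := mul_le_mul_of_nonneg_left h7 h6
      have a2 : 2 * P * (X * W) * Q = 2 * (X * W * (P * Q)) := by ring
      rw [a2]
      linarith
    have m3 : (X : ℝ) * (2 * |V| * M) ≤ 2 * P * (X * |V|) * Q := by
      have h8 : M ≤ P := by
        rw [hP]
        have : 0 ≤ M * Lr := mul_nonneg (by linarith) hLr0
        linarith
      have h7 : M * 1 ≤ P * Q := mul_le_mul h8 k1 (by norm_num) hP0
      have h6 : 0 ≤ (X : ℝ) * |V| := by positivity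
      have h := mul_le_mul_of_nonneg_left h7 h6
      have a1 : (X : ℝ) * (2 * |V| * M) = 2 * (X * |V| * (M * 1)) := by ring
      have a2 : 2 * P * (X * |V|) * Q = 2 * (X * |V| * (P * Q)) := by ring
      rw [a1, a2]
      linarith
    have m4 : (X : ℝ) * (|U| * M * (Lr + j)) + |U| * M * X ≤ 2 * P * (X * |U|) * Q := by
      have h8 : M * (Lr + j + 1) ≤ P * (1 + j) := by
        have a1 : P * (1 + j) = M * (Lr + j + 1) + M * (Lr * j) := by rw [hP]; ring
        have : 0 ≤ M * (Lr * j) := by positivity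
        linarith
      have h9 : P * (1 + j) ≤ P * Q := mul_le_mul_of_nonneg_left k3 hP0
      have h6 : 0 ≤ (X : ℝ) * |U| := by positivity
      have h10 : M * (Lr + j + 1) ≤ P * Q := h8.trans h9
      have h := mul_le_mul_of_nonneg_left h10 h6
      have h11 : 0 ≤ X * |U| * (M * (Lr + j + 1)) := by positivity
      have a1 : (X : ℝ) * (|U| * M * (Lr + j)) + |U| * M * X = X * |U| * (M * (Lr + j + 1)) := by ring
      have a2 : 2 * P * (X * |U|) * Q = 2 * (X * |U| * (P * Q)) := by ring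
      rw [a1, a2]
      linarith
    have e2 : 2 * M * (1 + Lr) * B * ((1 + (j : ℝ)) * E) = 2 * P * (G * (X : ℝ) ^ (15 / 16 : ℝ)) * Q +
        2 * P * (X * W) * Q + 2 * P * (X * |V|) * Q + 2 * P * (X * |U|) * Q := by
      rw [hB, hP, hQ]; ring
    rw [e2]
    have e3 : (X : ℝ) * (W + 2 * |V| * M + |U| * M * (Lr + j)) =
        X * W + X * (2 * |V| * M) + X * (|U| * M * (Lr + j)) := by ring
    rw [e3]
    linarith
  have hsq : √(2 : ℝ) = Real.exp (t / 2) := by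
    rw [ht, ← Real.log_sqrt (by norm_num), Real.exp_log (by positivity)]
  have hq1 : |q| ≤ Real.exp (-(t / 2)) := by
    rw [hq, abs_div, abs_of_nonneg (Real.sqrt_nonneg 2), hsq, Real.exp_neg, div_eq_mul_inv]
    exact mul_le_of_le_one_left (by positivity) hη
  have hqlt : ‖q‖ < 1 := by
    rw [Real.norm_eq_abs]
    refine hq1.trans_lt ?_
    rw [Real.exp_lt_one_iff]
    linarith
  have hb : ∀ j : ℕ, ‖q ^ j * ((∑ d ∈ Finset.Icc 1 X, J (Real.log (r * d) / 2 - j * Real.log 2)) -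
      X * (U * I))‖ ≤ 2 * M * (1 + Lr) * B * ((1 + (j : ℝ)) * x ^ j) := by
    intro j
    rw [norm_mul, norm_pow, Real.norm_eq_abs, Real.norm_eq_abs]
    refine (mul_le_mul (pow_le_pow_left₀ (abs_nonneg _) hq1 j) (hterm j) (abs_nonneg _)
      (by positivity)).trans (le_of_eq ?_)
    have : Real.exp (-(t / 2)) ^ j * Real.exp (j * t / 8) = x ^ j := by
      rw [hx, ← Real.exp_nat_mul, ← Real.exp_nat_mul, ← Real.exp_add]
      congr 1
      ring
    rw [← this]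
    ring
  have hs' := hs.mul_left (2 * M * (1 + Lr) * B)
  have hsum1 := Summable.of_norm_bounded hs' hb
  have hgeo := (hasSum_geometric_of_norm_lt_one hqlt).mul_right ((X : ℝ) * (U * I))
  have hsum := hsum1.hasSum.add hgeo
  have e4 : (fun j : ℕ => q ^ j * ((∑ d ∈ Finset.Icc 1 X, J (Real.log (r * d) / 2 - j * Real.log 2)) -
      X * (U * I)) + q ^ j * (X * (U * I))) =
      fun j : ℕ => q ^ j * ∑ d ∈ Finset.Icc 1 X, J (Real.log (r * d) / 2 - j * Real.log 2) := by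
    funext j
    ring
  rw [e4] at hsum
  rw [hsum.tsum_eq]
  have e5 : ∀ T : ℝ, T + (1 - q)⁻¹ * (X * (U * I)) - U / (1 - q) * (X * I) = T := by
    intro T
    rw [div_eq_mul_inv]
    ring
  rw [e5]
  have h9 := tsum_of_norm_bounded hs'.hasSum hb
  rw [Real.norm_eq_abs, tsum_mul_left] at h9
  refine h9.trans (le_of_eq ?_)
  ring

end

end Pool.Agent.K4H95.LQ
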