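import Pool.Agent.K4H95.LQ.Spec5

/-!
# The statement J of Spec5
-/

set_option autoImplicit false

namespace Pool.Agent.K4H95.LQ

open Filter Topology MeasureTheory

noncomputable section

theorem J_sinh_le_exp (x : ℝ) : Real.sinh x ≤ Real.exp x := by
  rw [Real.sinh_eq]
  have h1 := Real.exp_pos x
  have h2 := Real.exp_pos (-x)
  linarith

theorem J_os_bd {α : ℝ} {C C1 : ℝ → ℝ} (h : Os α C C1) {x : ℝ} (hx : 0 ≤ x) :
    |C1 x| ≤ α * Real.exp (α * x) :=
  (h.bd1 x hx).trans (mul_le_mul_of_nonneg_left (J_sinh_le_exp _) h.nonneg)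

theorem J_g_bd {F : ℝ → ℝ} {B α : ℝ} {C C1 : ℝ → ℝ} (hB : 0 ≤ B)
    (hF : ∀ z, |F z| ≤ B * Real.exp (2 * z)) (h : Os α C C1) (z : ℝ) {τ : ℝ} (hτ : 0 ≤ τ) :
    |F (z - τ) * C1 τ| ≤ B * Real.exp (2 * z) * α * Real.exp ((α - 2) * τ) := by
  rw [abs_mul]
  have h1 := hF (z - τ)
  have h2 := J_os_bd h hτ
  have h3 : B * Real.exp (2 * z) * α * Real.exp ((α - 2) * τ)
      = (B * Real.exp (2 * (z - τ))) * (α * Real.exp (α * τ)) := by
    have h4 : Real.exp ((α - 2) * τ) = Real.exp (-(2 * τ)) * Real.exp (α * τ) := by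
      rw [← Real.exp_add]; congr 1; ring
    have h5 : Real.exp (2 * (z - τ)) = Real.exp (2 * z) * Real.exp (-(2 * τ)) := by
      rw [← Real.exp_add]; congr 1; ring
    rw [h4, h5]; ring
  rw [h3]
  exact mul_le_mul h1 h2 (abs_nonneg _) (mul_nonneg hB (Real.exp_pos _).le)

theorem J_g_int {F : ℝ → ℝ} {B α : ℝ} {C C1 : ℝ → ℝ} (hFm : Measurable F) (hB : 0 ≤ B)
    (hF : ∀ z, |F z| ≤ B * Real.exp (2 * z)) (h : Os α C C1) (hα : α ≤ 1 / 4) (z : ℝ) {c : ℝ}
    (hc : 0 ≤ c) :
    IntegrableOn (fun τ => F (z - τ) * C1 τ) (Set.Ioi c) := by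
  have h0 : α - 2 < 0 := by linarith
  have h1 : IntegrableOn (fun τ => B * Real.exp (2 * z) * α * Real.exp ((α - 2) * τ)) (Set.Ioi c) :=
    (integrableOn_exp_mul_Ioi h0 c).const_mul _
  refine Integrable.mono' h1 ?_ ?_
  · exact ((hFm.comp (measurable_const.sub measurable_id)).mul h.cont.measurable).aestronglyMeasurable
  · refine (ae_restrict_iff' measurableSet_Ioi).2 (Eventually.of_forall fun τ hτ => ?_)
    rw [Real.norm_eq_abs]
    exact J_g_bd hB hF h z (hc.trans (le_of_lt hτ))

theorem J_g_tail {F : ℝ → ℝ} {B α : ℝ} {C C1 : ℝ → ℝ} (hB : 0 ≤ B)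
    (hF : ∀ z, |F z| ≤ B * Real.exp (2 * z)) (h : Os α C C1) (hα : α ≤ 1 / 4) (z : ℝ) {c : ℝ}
    (hc : 0 ≤ c) :
    |∫ τ in Set.Ioi c, F (z - τ) * C1 τ| ≤ B * Real.exp (2 * z) * α * Real.exp ((α - 2) * c) := by
  have h0 : α - 2 < 0 := by linarith
  have h1 : IntegrableOn (fun τ => B * Real.exp (2 * z) * α * Real.exp ((α - 2) * τ)) (Set.Ioi c) :=
    (integrableOn_exp_mul_Ioi h0 c).const_mul _
  have h2 : ‖∫ τ in Set.Ioi c, F (z - τ) * C1 τ‖ ≤
      ∫ τ in Set.Ioi c, B * Real.exp (2 * z) * α * Real.exp ((α - 2) * τ) := by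
    refine norm_integral_le_of_norm_le h1 ?_
    refine (ae_restrict_iff' measurableSet_Ioi).2 (Eventually.of_forall fun τ hτ => ?_)
    rw [Real.norm_eq_abs]
    exact J_g_bd hB hF h z (hc.trans (le_of_lt hτ))
  rw [Real.norm_eq_abs, integral_const_mul, integral_exp_mul_Ioi h0] at h2
  refine h2.trans ?_
  have h3 : 0 ≤ B * Real.exp (2 * z) * α := mul_nonneg (mul_nonneg hB (Real.exp_pos _).le) h.nonneg
  refine mul_le_mul_of_nonneg_left ?_ h3
  have h4 := Real.exp_pos ((α - 2) * c)
  rw [div_le_iff_of_neg h0]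
  nlinarith

theorem jj : StJ := by
  intro A₀ hA₀
  refine ⟨16 * Real.sinh A₀ + 2 * Real.exp A₀, ?_, ?_⟩
  · have := Real.sinh_nonneg_iff.2 hA₀
    positivity
  intro F U V E B α C C1 hFm hE hB hFE hFB h hα
  constructor
  · intro z hz hαz
    have hcC : Continuous C := continuous_iff_continuousAt.2 fun x => (h.deriv x).continuousAt
    have hsplit : ∫ τ in Set.Ioi (0 : ℝ), F (z - τ) * C1 τ =
        (∫ τ in (0 : ℝ)..z, F (z - τ) * C1 τ) + ∫ τ in Set.Ioi z, F (z - τ) * C1 τ := by
      rw [intervalIntegral.integral_of_le hz, ← setIntegral_union (Set.Ioc_disjoint_Ioi le_rfl)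
        measurableSet_Ioi ((J_g_int hFm hB hFB h hα z le_rfl).mono_set Set.Ioc_subset_Ioi_self)
        (J_g_int hFm hB hFB h hα z hz), Set.Ioc_union_Ioi_eq_Ioi hz]
    have hgi : IntervalIntegrable (fun τ => F (z - τ) * C1 τ) volume 0 z := by
      rw [intervalIntegrable_iff_integrableOn_Ioc_of_le hz]
      exact (J_g_int hFm hB hFB h hα z le_rfl).mono_set Set.Ioc_subset_Ioi_self
    have hmc : Continuous (fun τ : ℝ => (U * ((z - τ) / 2) + V) * C1 τ) := by
      have := h.cont
      fun_prop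
    have hmi : IntervalIntegrable (fun τ : ℝ => (U * ((z - τ) / 2) + V) * C1 τ) volume 0 z :=
      hmc.intervalIntegrable _ _
    -- main term by parts
    have hmain : ∫ τ in (0 : ℝ)..z, (U * ((z - τ) / 2) + V) * C1 τ =
        V * C z - (U * (z / 2) + V) + U / 2 * ∫ τ in (0 : ℝ)..z, C τ := by
      have hd : ∀ x ∈ Set.uIcc 0 z, HasDerivAt (fun τ => (U * ((z - τ) / 2) + V) * C τ)
          (-(U / 2) * C x + (U * ((z - x) / 2) + V) * C1 x) x := by
        intro x _
        have h1 : HasDerivAt (fun τ : ℝ => U * ((z - τ) / 2) + V) (-(U / 2)) x := by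
          have := ((((hasDerivAt_id' x).const_sub z).div_const 2).const_mul U).add_const V
          exact this.congr_deriv (by ring)
        exact h1.mul (h.deriv x)
      have hci : IntervalIntegrable (fun x => -(U / 2) * C x) volume 0 z :=
        (continuous_const.mul hcC).intervalIntegrable _ _
      have h2 := intervalIntegral.integral_eq_sub_of_hasDerivAt hd (hci.add hmi)
      rw [intervalIntegral.integral_add hci hmi, intervalIntegral.integral_const_mul] at h2
      have h3 := h.zero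
      simp only [sub_self, sub_zero, h3] at h2
      linarith
    -- the error on `[0, z]`
    have herr : |∫ τ in (0 : ℝ)..z, (F (z - τ) * C1 τ - (U * ((z - τ) / 2) + V) * C1 τ)| ≤
        8 * E * (α * Real.sinh A₀) := by
      have hei : IntervalIntegrable (fun τ => E * Real.exp (-(z - τ) / 8) * (α * Real.sinh A₀))
          volume 0 z := by
        apply Continuous.intervalIntegrable
        fun_prop
      have h1 := intervalIntegral.norm_integral_le_of_norm_le hz (f := fun τ =>
        (F (z - τ) * C1 τ - (U * ((z - τ) / 2) + V) * C1 τ)) (Eventually.of_forall fun τ hτ => by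
          rw [← sub_mul, norm_mul, Real.norm_eq_abs, Real.norm_eq_abs]
          have h2 := hFE (z - τ)
          have h3 := h.bd1 τ hτ.1.le
          have h4 : Real.sinh (α * τ) ≤ Real.sinh A₀ := by
            apply Real.sinh_le_sinh.2
            have := mul_le_mul_of_nonneg_left hτ.2 h.nonneg
            linarith
          have h5 : |C1 τ| ≤ α * Real.sinh A₀ := h3.trans (mul_le_mul_of_nonneg_left h4 h.nonneg)
          exact mul_le_mul h2 h5 (abs_nonneg _) (mul_nonneg hE (Real.exp_pos _).le)) hei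
      rw [Real.norm_eq_abs] at h1
      refine h1.trans ?_
      have h6 : ∫ τ in (0 : ℝ)..z, E * Real.exp (-(z - τ) / 8) * (α * Real.sinh A₀) =
          8 * E * (α * Real.sinh A₀) * 1 - 8 * E * (α * Real.sinh A₀) * Real.exp (-z / 8) := by
        have hd : ∀ x ∈ Set.uIcc 0 z, HasDerivAt
            (fun τ : ℝ => 8 * E * (α * Real.sinh A₀) * Real.exp (-(z - τ) / 8))
            (E * Real.exp (-(z - x) / 8) * (α * Real.sinh A₀)) x := by
          intro x _
          have h7 : HasDerivAt (fun τ : ℝ => -(z - τ) / 8) (1 / 8) x := by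
            have := (((hasDerivAt_id' x).const_sub z).neg).div_const 8
            exact this.congr_deriv (by ring)
          have h8 := (h7.exp).const_mul (8 * E * (α * Real.sinh A₀))
          exact h8.congr_deriv (by ring)
        rw [intervalIntegral.integral_eq_sub_of_hasDerivAt hd hei]
        simp
      rw [h6]
      have h9 : 0 ≤ 8 * E * (α * Real.sinh A₀) * Real.exp (-z / 8) := by
        have := Real.sinh_nonneg_iff.2 hA₀
        have := h.nonneg
        positivity
      linarith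
    have htail := J_g_tail hB hFB h hα z hz
    have htail' : |∫ τ in Set.Ioi z, F (z - τ) * C1 τ| ≤ α * B * Real.exp A₀ := by
      refine htail.trans ?_
      have h1 : B * Real.exp (2 * z) * α * Real.exp ((α - 2) * z) = α * B * Real.exp (α * z) := by
        have h2 : Real.exp (α * z) = Real.exp (2 * z) * Real.exp ((α - 2) * z) := by
          rw [← Real.exp_add]; congr 1; ring
        rw [h2]; ring
      rw [h1]
      exact mul_le_mul_of_nonneg_left (Real.exp_le_exp.2 hαz) (mul_nonneg h.nonneg hB)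
    have hz1 := hFE z
    have hdec : JJ F C1 z - (U * (∫ u in (0 : ℝ)..z, C u) + 2 * V * C z) =
        2 * (F z - (U * (z / 2) + V)) +
        2 * (∫ τ in (0 : ℝ)..z, (F (z - τ) * C1 τ - (U * ((z - τ) / 2) + V) * C1 τ)) +
        2 * ∫ τ in Set.Ioi z, F (z - τ) * C1 τ := by
      unfold JJ
      rw [hsplit, intervalIntegral.integral_sub hgi hmi, hmain]
      ring
    rw [hdec]
    have hs := Real.sinh_nonneg_iff.2 hA₀
    have he := Real.exp_pos A₀
    have hα0 := h.nonneg
    calc |2 * (F z - (U * (z / 2) + V)) +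
        2 * (∫ τ in (0 : ℝ)..z, (F (z - τ) * C1 τ - (U * ((z - τ) / 2) + V) * C1 τ)) +
        2 * ∫ τ in Set.Ioi z, F (z - τ) * C1 τ| ≤
        |2 * (F z - (U * (z / 2) + V))| +
        |2 * (∫ τ in (0 : ℝ)..z, (F (z - τ) * C1 τ - (U * ((z - τ) / 2) + V) * C1 τ))| +
        |2 * ∫ τ in Set.Ioi z, F (z - τ) * C1 τ| := abs_add_three _ _ _
      _ ≤ 2 * (E * Real.exp (-z / 8)) + 2 * (8 * E * (α * Real.sinh A₀)) +
          2 * (α * B * Real.exp A₀) := by
        rw [abs_mul, abs_mul, abs_mul, abs_two]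
        linarith
      _ ≤ _ := by
        have p1 : 0 ≤ α * E * Real.exp A₀ := by positivity
        have p2 : 0 ≤ α * B * Real.sinh A₀ := by positivity
        nlinarith
  · intro z hz
    have h1 := J_g_tail hB hFB h hα z le_rfl
    rw [mul_zero, Real.exp_zero, mul_one] at h1
    have h2 := hFB z
    unfold JJ
    have h3 := Real.exp_pos (2 * z)
    calc |2 * F z + 2 * ∫ τ in Set.Ioi (0 : ℝ), F (z - τ) * C1 τ| ≤
        |2 * F z| + |2 * ∫ τ in Set.Ioi (0 : ℝ), F (z - τ) * C1 τ| := abs_add_le _ _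
      _ ≤ 2 * (B * Real.exp (2 * z)) + 2 * (B * Real.exp (2 * z) * α) := by
        rw [abs_mul, abs_mul, abs_two]
        linarith
      _ ≤ _ := by
        have p1 : 0 ≤ B * Real.exp (2 * z) := by positivity
        nlinarith [h.nonneg]

end

end Pool.Agent.K4H95.LQ
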