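import Pool.Agent.K4H95.LQ.Spec5

/-!
# Piece K: the kernel of the smooth step (helper75)
-/

set_option autoImplicit false

namespace Pool.Agent.K4H95.LQ

open Filter Topology MeasureTheory

noncomputable section

namespace Kx

lemma ro_smooth_k9 : ContDiff ℝ ((⊤ : ℕ∞) : WithTop ℕ∞) ro := by
  have h : ContDiff ℝ ((⊤ : ℕ∞) : WithTop ℕ∞) (fun t : ℝ => (t + 1) / 2) := by fun_prop
  exact Real.smoothTransition.contDiff.comp h

lemma ro_deriv_k9 (x : ℝ) : HasDerivAt ro (deriv ro x) x :=
  (ro_smooth_k9.differentiable (by simp)).differentiableAt.hasDerivAt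

lemma w_cont_k9 : Continuous (deriv ro) := ro_smooth_k9.continuous_deriv (by simp)

lemma w_nonneg_k9 (x : ℝ) : 0 ≤ deriv ro x := ro_mono.deriv_nonneg

lemma ro_sym_k9 (x : ℝ) : ro x + ro (-x) = 1 := by
  unfold ro Real.smoothTransition
  have e1 : 1 - (x + 1) / 2 = (-x + 1) / 2 := by ring
  have e2 : 1 - (-x + 1) / 2 = (x + 1) / 2 := by ring
  rw [e1, e2]
  have h : 0 < expNegInvGlue ((x + 1) / 2) + expNegInvGlue ((-x + 1) / 2) := by
    rcases le_or_gt x 0 with h | h
    · exact add_pos_of_nonneg_of_pos (expNegInvGlue.nonneg _) (expNegInvGlue.pos_of_pos (by linarith))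
    · exact add_pos_of_pos_of_nonneg (expNegInvGlue.pos_of_pos (by linarith)) (expNegInvGlue.nonneg _)
  rw [add_comm (expNegInvGlue ((-x + 1) / 2)), ← add_div, div_self h.ne']

lemma w_even_k9 (x : ℝ) : deriv ro (-x) = deriv ro x := by
  have h1 : HasDerivAt (fun y : ℝ => 1 - ro (-y)) (deriv ro (-x)) x := by
    have h2 : HasDerivAt (fun y : ℝ => ro (-y)) (deriv ro (-x) * (-1)) x :=
      (ro_deriv_k9 (-x)).comp x (hasDerivAt_neg x)
    have h3 := h2.const_sub 1
    rwa [mul_neg_one, neg_neg] at h3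
  have h2 : (fun y : ℝ => 1 - ro (-y)) = ro := by
    funext y
    linarith [ro_sym_k9 y]
  rw [h2] at h1
  exact h1.unique (ro_deriv_k9 x)

lemma w_zero_left_k9 {x : ℝ} (h : x ≤ -1) : deriv ro x = 0 := by
  have h1 : IsLocalMin ro x := by
    apply Filter.Eventually.of_forall
    intro y
    rw [ro_zero h]
    exact ro_nonneg y
  exact h1.deriv_eq_zero

lemma w_zero_right_k9 {x : ℝ} (h : 1 ≤ x) : deriv ro x = 0 := by
  rw [← w_even_k9]
  exact w_zero_left_k9 (by linarith)

lemma int_w_k9 : ∫ u in (-1 : ℝ)..1, deriv ro u = 1 := by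
  rw [intervalIntegral.integral_eq_sub_of_hasDerivAt (fun x _ => ro_deriv_k9 x) (w_cont_k9.intervalIntegrable _ _),
    ro_one le_rfl, ro_zero le_rfl, sub_zero]

lemma C_cont_k9 {α : ℝ} {C C1 : ℝ → ℝ} (h : Os α C C1) : Continuous C :=
  continuous_iff_continuousAt.2 fun x => (h.deriv x).continuousAt

/-- the kernel by parts -/
lemma kk_eq_k9 {α : ℝ} {C C1 : ℝ → ℝ} (h : Os α C C1) (x T : ℝ) (hT0 : 0 ≤ T) (hT : x + 1 ≤ T) :
    kk C1 x = 2 * ∫ τ in (0 : ℝ)..T, deriv ro (x - τ) * C τ := by
  unfold kk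
  have h1 : ∫ τ in Set.Ioi (0 : ℝ), ro (x - τ) * C1 τ = ∫ τ in (0 : ℝ)..T, ro (x - τ) * C1 τ := by
    rw [intervalIntegral.integral_of_le hT0]
    apply MeasureTheory.setIntegral_eq_of_subset_of_forall_sdiff_eq_zero measurableSet_Ioi Set.Ioc_subset_Ioi_self
    intro τ hτ
    have h2 : T < τ := by
      by_contra h3
      exact hτ.2 ⟨hτ.1, not_lt.1 h3⟩
    rw [ro_zero (by linarith), zero_mul]
  have h2 : ∀ τ ∈ Set.uIcc (0 : ℝ) T, HasDerivAt (fun τ => ro (x - τ)) (-deriv ro (x - τ)) τ := by
    intro τ _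
    have h3 : HasDerivAt (fun τ : ℝ => x - τ) (-1) τ := by
      simpa using (hasDerivAt_id τ).const_sub x
    have h4 : HasDerivAt (fun τ => ro (x - τ)) (deriv ro (x - τ) * (-1)) τ := (ro_deriv_k9 (x - τ)).comp τ h3
    rwa [mul_neg_one] at h4
  have hc1 : Continuous fun τ : ℝ => -deriv ro (x - τ) := (w_cont_k9.comp (by fun_prop)).neg
  have h3 := intervalIntegral.integral_mul_deriv_eq_deriv_mul h2 (fun τ _ => h.deriv τ)
    (hc1.intervalIntegrable _ _) (h.cont.intervalIntegrable _ _)
  rw [h1, h3, sub_zero, ro_zero (by linarith : x - T ≤ -1), h.zero, zero_mul, mul_one]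
  have h4 : ∫ τ in (0 : ℝ)..T, -deriv ro (x - τ) * C τ = - ∫ τ in (0 : ℝ)..T, deriv ro (x - τ) * C τ := by
    rw [← intervalIntegral.integral_neg]
    congr 1
    funext τ
    ring
  rw [h4]
  ring

lemma C_near_k9 {α : ℝ} {C C1 : ℝ → ℝ} (h : Os α C C1) {u : ℝ} (hu : |u| ≤ 1) :
    |C u - 1| ≤ Real.cosh α - 1 := by
  have hmono1 : MonotoneOn (fun t => Real.cosh (α * t) - C t) (Set.Ici 0) := by
    apply monotoneOn_of_deriv_nonneg (convex_Ici 0)
    · exact ((Real.continuous_cosh.comp (by fun_prop)).sub (C_cont_k9 h)).continuousOn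
    · intro t _
      have h1 : HasDerivAt (fun t => Real.cosh (α * t)) (Real.sinh (α * t) * α) t := by
        have h2 : HasDerivAt (fun t : ℝ => α * t) α t := by simpa using (hasDerivAt_id t).const_mul α
        exact (Real.hasDerivAt_cosh (α * t)).comp t h2
      exact (h1.sub (h.deriv t)).differentiableAt.differentiableWithinAt
    · intro t ht
      rw [interior_Ici] at ht
      have h1 : HasDerivAt (fun t => Real.cosh (α * t)) (Real.sinh (α * t) * α) t := by
        have h2 : HasDerivAt (fun t : ℝ => α * t) α t := by simpa using (hasDerivAt_id t).const_mul α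
        exact (Real.hasDerivAt_cosh (α * t)).comp t h2
      have h4 : deriv (fun t => Real.cosh (α * t) - C t) t = Real.sinh (α * t) * α - C1 t :=
        (h1.sub (h.deriv t)).deriv
      rw [h4]
      have h3 := (abs_le.1 (h.bd1 t (le_of_lt ht))).2
      linarith
  have hmono2 : MonotoneOn (fun t => Real.cosh (α * t) + C t) (Set.Ici 0) := by
    apply monotoneOn_of_deriv_nonneg (convex_Ici 0)
    · exact ((Real.continuous_cosh.comp (by fun_prop)).add (C_cont_k9 h)).continuousOn
    · intro t _
      have h1 : HasDerivAt (fun t => Real.cosh (α * t)) (Real.sinh (α * t) * α) t := by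
        have h2 : HasDerivAt (fun t : ℝ => α * t) α t := by simpa using (hasDerivAt_id t).const_mul α
        exact (Real.hasDerivAt_cosh (α * t)).comp t h2
      exact (h1.add (h.deriv t)).differentiableAt.differentiableWithinAt
    · intro t ht
      rw [interior_Ici] at ht
      have h1 : HasDerivAt (fun t => Real.cosh (α * t)) (Real.sinh (α * t) * α) t := by
        have h2 : HasDerivAt (fun t : ℝ => α * t) α t := by simpa using (hasDerivAt_id t).const_mul α
        exact (Real.hasDerivAt_cosh (α * t)).comp t h2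
      have h4 : deriv (fun t => Real.cosh (α * t) + C t) t = Real.sinh (α * t) * α + C1 t :=
        (h1.add (h.deriv t)).deriv
      rw [h4]
      have h3 := (abs_le.1 (h.bd1 t (le_of_lt ht))).1
      linarith
  have habs : C u = C |u| := by
    rcases abs_choice u with h1 | h1
    · rw [h1]
    · rw [h1, h.even]
  have h1 := hmono1 (Set.mem_Ici.2 le_rfl) (Set.mem_Ici.2 (abs_nonneg u)) (abs_nonneg u)
  have h2 := hmono2 (Set.mem_Ici.2 le_rfl) (Set.mem_Ici.2 (abs_nonneg u)) (abs_nonneg u)
  simp only [mul_zero, Real.cosh_zero, h.zero] at h1 h2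
  have h3 : Real.cosh (α * |u|) ≤ Real.cosh α := by
    rw [Real.cosh_le_cosh, abs_mul, abs_abs, abs_of_nonneg h.nonneg]
    exact mul_le_of_le_one_right h.nonneg hu
  rw [habs, abs_le]
  constructor <;> linarith

lemma cosh_le_k9 {α : ℝ} (h0 : 0 ≤ α) (h1 : α ≤ 1) : Real.cosh α - 1 ≤ α := by
  have h2 := Real.cosh_le_exp_half_sq α
  have h3 : 0 < 1 - α ^ 2 / 2 := by nlinarith
  have h4 : 1 - α ^ 2 / 2 ≤ Real.exp (-(α ^ 2 / 2)) := Real.one_sub_le_exp_neg _
  have h5 : Real.exp (α ^ 2 / 2) ≤ 1 / (1 - α ^ 2 / 2) := by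
    rw [le_div_iff₀ h3]
    calc Real.exp (α ^ 2 / 2) * (1 - α ^ 2 / 2) ≤ Real.exp (α ^ 2 / 2) * Real.exp (-(α ^ 2 / 2)) :=
          mul_le_mul_of_nonneg_left h4 (Real.exp_pos _).le
      _ = 1 := by rw [← Real.exp_add]; simp
  have h6 : 1 / (1 - α ^ 2 / 2) ≤ 1 + α := by
    rw [div_le_iff₀ h3]
    nlinarith [mul_nonneg h0 (sub_nonneg.2 h1), mul_nonneg (mul_nonneg h0 h0) (sub_nonneg.2 h1)]
  linarith

end Kx

open Kx in
theorem k1 : StK := by
  intro α C C1 h hα
  have hC := C_cont_k9 h
  refine ⟨∫ u in (-1 : ℝ)..1, deriv ro u * C u, ?_, ?_⟩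
  · have h1 : (∫ u in (-1 : ℝ)..1, deriv ro u * C u) - 1 = ∫ u in (-1 : ℝ)..1, deriv ro u * (C u - 1) := by
      have h2 : ∫ u in (-1 : ℝ)..1, deriv ro u * (C u - 1) =
          (∫ u in (-1 : ℝ)..1, deriv ro u * C u) - ∫ u in (-1 : ℝ)..1, deriv ro u := by
        have hc : Continuous fun u => deriv ro u * C u := w_cont_k9.mul hC
        rw [← intervalIntegral.integral_sub (hc.intervalIntegrable _ _) (w_cont_k9.intervalIntegrable _ _)]
        congr 1
        funext u
        ring
      rw [h2, int_w_k9]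
    rw [h1]
    have h2 : |∫ u in (-1 : ℝ)..1, deriv ro u * (C u - 1)| ≤ ∫ u in (-1 : ℝ)..1, deriv ro u * (Real.cosh α - 1) := by
      refine (intervalIntegral.abs_integral_le_integral_abs (by norm_num)).trans ?_
      apply intervalIntegral.integral_mono_on (by norm_num)
      · exact ((w_cont_k9.mul (hC.sub continuous_const)).abs).intervalIntegrable _ _
      · exact (w_cont_k9.mul continuous_const).intervalIntegrable _ _
      · intro u hu
        rw [abs_mul, abs_of_nonneg (w_nonneg_k9 u)]
        exact mul_le_mul_of_nonneg_left (C_near_k9 h (abs_le.2 ⟨hu.1, hu.2⟩)) (w_nonneg_k9 u)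
    rw [intervalIntegral.integral_mul_const, int_w_k9, one_mul] at h2
    exact h2.trans (cosh_le_k9 h.nonneg hα)
  · intro x
    set f : ℝ → ℝ := fun u => deriv ro u * C (x - u) with hf
    have hfc : Continuous f := w_cont_k9.mul (hC.comp (by fun_prop))
    set T := |x| + 1 with hT
    have hx1 : x ≤ |x| := le_abs_self x
    have hx2 : -x ≤ |x| := neg_le_abs x
    have hT0 : 0 ≤ T := by positivity
    have h1 : kk C1 x = 2 * ∫ u in (x - T)..x, f u := by
      rw [kk_eq_k9 h x T hT0 (by linarith)]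
      congr 1
      have h2 := intervalIntegral.integral_comp_sub_left (a := 0) (b := T) f x
      rw [sub_zero] at h2
      rw [← h2]
      congr 1
      funext τ
      simp only [hf]
      rw [sub_sub_cancel]
    have h2 : kk C1 (-x) = 2 * ∫ u in x..(x + T), f u := by
      rw [kk_eq_k9 h (-x) T hT0 (by linarith)]
      congr 1
      have h2 := intervalIntegral.integral_comp_add_left (a := 0) (b := T) f x
      rw [add_zero] at h2
      rw [← h2]
      congr 1
      funext τ
      simp only [hf]
      have e1 : -x - τ = -(x + τ) := by ring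
      have e2 : x - (x + τ) = -τ := by ring
      rw [e1, w_even_k9, e2, h.even]
    have h3 : (∫ u in (x - T)..x, f u) + ∫ u in x..(x + T), f u = ∫ u in (-1 : ℝ)..1, f u := by
      rw [intervalIntegral.integral_add_adjacent_intervals (hfc.intervalIntegrable _ _) (hfc.intervalIntegrable _ _)]
      have hL : ∫ u in (x - T)..(-1), f u = 0 := by
        rw [← intervalIntegral.integral_zero (a := x - T) (b := -1) (μ := MeasureTheory.volume) (E := ℝ)]
        apply intervalIntegral.integral_congr
        intro u hu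
        rw [Set.uIcc_of_le (by linarith : x - T ≤ -1)] at hu
        simp only [hf]
        rw [w_zero_left_k9 hu.2, zero_mul]
      have hR : ∫ u in (1 : ℝ)..(x + T), f u = 0 := by
        rw [← intervalIntegral.integral_zero (a := 1) (b := x + T) (μ := MeasureTheory.volume) (E := ℝ)]
        apply intervalIntegral.integral_congr
        intro u hu
        rw [Set.uIcc_of_le (by linarith : (1 : ℝ) ≤ x + T)] at hu
        simp only [hf]
        rw [w_zero_right_k9 hu.1, zero_mul]
      rw [← intervalIntegral.integral_add_adjacent_intervals (a := x - T) (b := -1) (c := x + T)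
        (hfc.intervalIntegrable _ _) (hfc.intervalIntegrable _ _),
        ← intervalIntegral.integral_add_adjacent_intervals (a := -1) (b := 1) (c := x + T)
        (hfc.intervalIntegrable _ _) (hfc.intervalIntegrable _ _), hL, hR]
      ring
    have h4 : ∫ u in (-1 : ℝ)..1, f u = ∫ u in (-1 : ℝ)..1, deriv ro u * C (x + u) := by
      have h5 := intervalIntegral.integral_comp_neg (a := -1) (b := 1) f
      rw [neg_neg] at h5
      rw [← h5]
      congr 1
      funext u
      simp only [hf]
      rw [w_even_k9, sub_neg_eq_add]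
    have h5 : (∫ u in (-1 : ℝ)..1, f u) + ∫ u in (-1 : ℝ)..1, deriv ro u * C (x + u) =
        2 * C x * ∫ u in (-1 : ℝ)..1, deriv ro u * C u := by
      have hg : Continuous fun u => deriv ro u * C (x + u) := w_cont_k9.mul (hC.comp (by fun_prop))
      rw [← intervalIntegral.integral_add (hfc.intervalIntegrable _ _) (hg.intervalIntegrable _ _),
        ← intervalIntegral.integral_const_mul]
      congr 1
      funext u
      simp only [hf]
      rw [← mul_add, h.add x u]
      ring
    rw [h1, h2, ← mul_add, h3]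
    rw [← h4] at h5
    linarith

end

end Pool.Agent.K4H95.LQ
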