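import Pool.Agent.K4H95.LQ.Spec5
import Pool.Agent.H423R2.RGL.K.H408R2_RG_CC5

/-!
# The values `L(1/2 + u, χ)` through the theta function
-/

set_option autoImplicit false

namespace Pool.Agent.K4H95.LQ

open Filter Topology MeasureTheory Pool.Agent.H306R2.RG Pool.Agent.H306R2.RZ
  Pool.Agent.H408R2.RGCC5

noncomputable section

lemma lex_pos (φ : FD) : 0 < φ.ex + 1 := by
  unfold FD.ex
  have : (0 : ℝ) ≤ φ.a := Nat.cast_nonneg _
  linarith

lemma lg0_eq (φ : FD) : ((g0g φ : ℝ) : ℂ) = Complex.Gammaℝ (1 / 2 + φ.a) := by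
  have e0 : g0g φ = Real.pi ^ (-((1 / 2 + (φ.a : ℝ)) / 2)) * Real.Gamma ((1 / 2 + (φ.a : ℝ)) / 2) := by
    unfold g0g
    have e3 : ∫ v in Set.Ioi (0:ℝ), Real.exp (-(Real.pi * v)) * v ^ φ.ex =
        ∫ v in Set.Ioi (0:ℝ), v ^ ((φ.ex + 1) - 1) * Real.exp (-(Real.pi * v)) := by
      refine setIntegral_congr_fun measurableSet_Ioi fun v _ => ?_
      simp only [add_sub_cancel_right]
      ring
    rw [e3, Real.integral_rpow_mul_exp_neg_mul_Ioi (lex_pos φ) Real.pi_pos]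
    have e4 : φ.ex + 1 = (1 / 2 + (φ.a : ℝ)) / 2 := by
      unfold FD.ex
      ring
    rw [e4]
    have e6 : (1 / Real.pi) ^ ((1 / 2 + (φ.a : ℝ)) / 2) = Real.pi ^ (-((1 / 2 + (φ.a : ℝ)) / 2)) := by
      rw [one_div Real.pi, Real.inv_rpow Real.pi_pos.le, Real.rpow_neg Real.pi_pos.le]
    rw [e6]
  rw [e0, Complex.Gammaℝ_def, Complex.ofReal_mul, Complex.ofReal_cpow Real.pi_pos.le,
    ← Complex.Gamma_ofReal]
  push_cast
  congr 2
  ring

lemma lconv {φ : FD} (hφ : Fam φ) (d : ℕ) (hd : φ.A d) (hs : Squarefree d) (hd0 : d ≠ 0)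
    (s : ℂ) (h : 0 < s.re) : MellinConvergent (fun t => ((thg φ d t : ℝ) : ℂ)) s := by
  obtain ⟨c, hc, htop⟩ := th_top hφ d hd0
  refine mellinConvergent_of_isBigO_rpow_exp hc ?_ htop (th_bot hφ d hd hs hd0) h
  apply ContinuousOn.locallyIntegrableOn _ measurableSet_Ioi
  exact Complex.continuous_ofReal.comp_continuousOn (LnkC.CC4 φ hφ d hd0).1

/-- the functional equation -/
lemma lsymm {φ : FD} (hφ : Fam φ) (d : ℕ) (hd : φ.A d) (hs : Squarefree d) (w : ℂ) :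
    mellin (fun t => ((thg φ d t : ℝ) : ℂ)) ((φ.ex : ℂ) + 1 + w) =
      mellin (fun t => ((thg φ d t : ℝ) : ℂ)) ((φ.ex : ℂ) + 1 - w) := by
  have h1 := mellin_comp_inv (fun t => ((thg φ d t : ℝ) : ℂ)) (-((φ.ex : ℂ) + 1 - w))
  rw [neg_neg] at h1
  rw [← h1]
  have h2 : mellin (fun t : ℝ => ((thg φ d t⁻¹ : ℝ) : ℂ)) (-((φ.ex : ℂ) + 1 - w)) =
      mellin (fun t : ℝ => (t : ℂ) ^ ((1 : ℂ) / 2 + φ.a) • ((thg φ d t : ℝ) : ℂ))
        (-((φ.ex : ℂ) + 1 - w)) := by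
    unfold mellin
    refine setIntegral_congr_fun measurableSet_Ioi fun t ht => ?_
    have ht' : (0 : ℝ) < t := ht
    have h3 := LnkC.CC3 φ hφ d hd hs t ht'
    rw [one_div] at h3
    simp only
    rw [h3, Complex.ofReal_mul, Complex.ofReal_cpow ht'.le]
    push_cast
    simp only [smul_eq_mul]
  rw [h2, mellin_cpow_smul]
  congr 1
  have h4 : (φ.ex : ℂ) = (φ.a : ℂ) / 2 - 3 / 4 := by
    unfold FD.ex
    push_cast
    ring
  rw [h4]
  ring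

/-- the main computation -/
lemma lmain {φ : FD} (hφ : Fam φ) (d : ℕ) (h0 : NeZero (φ.r * d))
    (χ : DirichletCharacter ℂ (φ.r * d)) (hd : φ.A d) (hs : Squarefree d) (hχ1 : χ ≠ 1)
    (hχ : ∀ n : ℕ, n ≠ 0 → χ (n : ZMod (φ.r * d)) = ((cf φ d n : ℝ) : ℂ))
    (w : ℂ) (hw : |w.re| < 1 / 2) (C : ℝ → ℝ)
    (hC : ∀ y : ℝ, 0 < y → ((y : ℂ) ^ (w / 2) + (y : ℂ) ^ (-(w / 2))) = 2 * ((C (Real.log y / 2) : ℝ) : ℂ)) :
    (((φ.r * d : ℕ) : ℂ)) ^ (w / 2) * (Complex.Gammaℝ (1 / 2 + w + φ.a) / Complex.Gammaℝ (1 / 2 + φ.a)) *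
      χ.LFunction (1 / 2 + w) = ((Lc φ d C : ℝ) : ℂ) := by
  have hd0 : d ≠ 0 := by
    rintro rfl
    exact h0.out (by simp)
  have hN : (0 : ℝ) < (φ.r : ℝ) * d := by
    have := Nat.pos_of_ne_zero h0.out
    exact_mod_cast this
  have hw' := abs_lt.1 hw
  have hex : (φ.ex : ℂ) = (φ.a : ℂ) / 2 - 3 / 4 := by
    unfold FD.ex
    push_cast
    ring
  have ha : (0 : ℝ) ≤ φ.a := Nat.cast_nonneg _
  have hexr : φ.ex + 1 ≥ 1 / 4 := by
    unfold FD.ex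
    linarith
  have hre : (w / 2).re = w.re / 2 := by simp
  -- the Mellin transform
  have hs1 : 0 < ((1 : ℂ) / 2 + w).re := by
    have : ((1 : ℂ) / 2 + w).re = 1 / 2 + w.re := by
      simp
    rw [this]
    linarith
  have h1 := mellin_th_all hφ d hd hs χ hχ1 hχ (1 / 2 + w) hs1
  have h2 : ((1 : ℂ) / 2 + w + φ.a) / 2 = (φ.ex : ℂ) + 1 + w / 2 := by
    rw [hex]
    ring
  rw [h2] at h1
  have hp : 0 < ((φ.ex : ℂ) + 1 + w / 2).re := by
    have : ((φ.ex : ℂ) + 1 + w / 2).re = φ.ex + 1 + w.re / 2 := by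
      rw [Complex.add_re, hre]
      simp
    rw [this]
    linarith
  have hm : 0 < ((φ.ex : ℂ) + 1 - w / 2).re := by
    have : ((φ.ex : ℂ) + 1 - w / 2).re = φ.ex + 1 - w.re / 2 := by
      rw [Complex.sub_re, hre]
      simp
    rw [this]
    linarith
  have c1 := lconv hφ d hd hs hd0 _ hp
  have c2 := lconv hφ d hd hs hd0 _ hm
  set M := mellin (fun t => ((thg φ d t : ℝ) : ℂ)) ((φ.ex : ℂ) + 1 + w / 2) with hM
  have h3 : mellin (fun t => ((thg φ d t : ℝ) : ℂ)) ((φ.ex : ℂ) + 1 - w / 2) = M :=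
    (lsymm hφ d hd hs (w / 2)).symm
  have h4 : M + M = 2 * (((∫ y in Set.Ioi (0 : ℝ), thg φ d y * y ^ φ.ex * C (Real.log y / 2)) : ℝ) : ℂ) := by
    conv_lhs => rw [← h3]
    rw [h3]
    nth_rewrite 2 [← h3]
    rw [hM]
    unfold mellin
    rw [← integral_add c1 c2, ← integral_complex_ofReal, ← integral_const_mul]
    refine setIntegral_congr_fun measurableSet_Ioi fun t ht => ?_
    have ht' : (0 : ℝ) < t := ht
    have htc : (t : ℂ) ≠ 0 := by exact_mod_cast ht'.ne'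
    simp only [smul_eq_mul]
    have e1 : (t : ℂ) ^ ((φ.ex : ℂ) + 1 + w / 2 - 1) = (t : ℂ) ^ (φ.ex : ℂ) * (t : ℂ) ^ (w / 2) := by
      rw [← Complex.cpow_add _ _ htc]
      congr 1
      ring
    have e2 : (t : ℂ) ^ ((φ.ex : ℂ) + 1 - w / 2 - 1) = (t : ℂ) ^ (φ.ex : ℂ) * (t : ℂ) ^ (-(w / 2)) := by
      rw [← Complex.cpow_add _ _ htc]
      congr 1
      ring
    rw [e1, e2, Complex.ofReal_mul, Complex.ofReal_mul, Complex.ofReal_cpow ht'.le]
    have e3 := hC t ht'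
    linear_combination ((t : ℂ) ^ (φ.ex : ℂ) * ((thg φ d t : ℝ) : ℂ)) * e3
  have h5 : M = (((∫ y in Set.Ioi (0 : ℝ), thg φ d y * y ^ φ.ex * C (Real.log y / 2)) : ℝ) : ℂ) := by
    linear_combination h4 / 2
  -- the factors
  have hg : Complex.Gammaℝ (1 / 2 + φ.a) ≠ 0 := by
    apply Complex.Gammaℝ_ne_zero_of_re_pos
    have : ((1 : ℂ) / 2 + φ.a).re = 1 / 2 + φ.a := by simp
    rw [this]
    positivity
  have hNc : (((φ.r : ℝ) * d : ℝ) : ℂ) ≠ 0 := by exact_mod_cast hN.ne'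
  have h6 : ((Real.sqrt (φ.r * d) : ℝ) : ℂ) ^ ((1 : ℂ) / 2 + w + φ.a) =
      (((φ.r * d : ℕ) : ℂ)) ^ (w / 2) * (((((φ.r : ℝ) * d) ^ (φ.ex + 1)) : ℝ) : ℂ) := by
    have e1 : (((φ.r * d : ℕ) : ℂ)) = (((φ.r : ℝ) * d : ℝ) : ℂ) := by push_cast; rfl
    rw [e1, Complex.ofReal_cpow hN.le, ← Complex.cpow_add _ _ hNc, Real.sqrt_eq_rpow,
      Complex.ofReal_cpow hN.le, ← Complex.ofReal_cpow hN.le]
    rw [Complex.ofReal_cpow hN.le]
    rw [← Complex.cpow_mul]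
    · congr 1
      push_cast
      rw [hex]
      ring
    · rw [← Complex.ofReal_log hN.le]
      have : ((Real.log ((φ.r : ℝ) * d) : ℝ) : ℂ) * (((1 / 2 : ℝ)) : ℂ) =
          ((Real.log ((φ.r : ℝ) * d) * (1 / 2) : ℝ) : ℂ) := by push_cast; rfl
      rw [this, Complex.ofReal_im]
      linarith [Real.pi_pos]
    · rw [← Complex.ofReal_log hN.le]
      have : ((Real.log ((φ.r : ℝ) * d) : ℝ) : ℂ) * (((1 / 2 : ℝ)) : ℂ) =
          ((Real.log ((φ.r : ℝ) * d) * (1 / 2) : ℝ) : ℂ) := by push_cast; rfl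
      rw [this, Complex.ofReal_im]
      exact Real.pi_pos.le
  have h7 : (((((φ.r : ℝ) * d) ^ (φ.ex + 1)) : ℝ) : ℂ) ≠ 0 := by
    have : (0 : ℝ) < ((φ.r : ℝ) * d) ^ (φ.ex + 1) := Real.rpow_pos_of_pos hN _
    exact_mod_cast this.ne'
  unfold Lc
  rw [Complex.ofReal_div, Complex.ofReal_mul, lg0_eq, ← h5, h1, h6]
  field_simp

/-- piece L -/
theorem lcc : StL := by
  intro φ hφ d h0 χ hd hs hχ1 hχ
  constructor
  · intro u hu
    refine lmain hφ d h0 χ hd hs hχ1 hχ (u : ℂ) (by simpa using hu) _ fun y hy => ?_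
    have hyc : (y : ℂ) ≠ 0 := by exact_mod_cast hy.ne'
    rw [Complex.cpow_def_of_ne_zero hyc, Complex.cpow_def_of_ne_zero hyc, ← Complex.ofReal_log hy.le]
    rw [Real.cosh_eq]
    push_cast
    have e1 : (Real.log y : ℂ) * ((u : ℂ) / 2) = (u : ℂ) * ((Real.log y : ℂ) / 2) := by ring
    have e2 : (Real.log y : ℂ) * -((u : ℂ) / 2) = -((u : ℂ) * ((Real.log y : ℂ) / 2)) := by ring
    rw [e1, e2]
    ring
  · intro u
    refine lmain hφ d h0 χ hd hs hχ1 hχ ((u : ℂ) * Complex.I) (by simp) _ fun y hy => ?_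
    have hyc : (y : ℂ) ≠ 0 := by exact_mod_cast hy.ne'
    rw [Complex.cpow_def_of_ne_zero hyc, Complex.cpow_def_of_ne_zero hyc, ← Complex.ofReal_log hy.le]
    rw [Complex.ofReal_cos, Complex.cos]
    push_cast
    have e1 : (Real.log y : ℂ) * ((u : ℂ) * Complex.I / 2) = (u : ℂ) * ((Real.log y : ℂ) / 2) * Complex.I := by
      ring
    have e2 : (Real.log y : ℂ) * -((u : ℂ) * Complex.I / 2) =
        -((u : ℂ) * ((Real.log y : ℂ) / 2)) * Complex.I := by ring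
    rw [e1, e2]
    ring

end

end Pool.Agent.K4H95.LQ
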