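import Pool.Agent.K4H95.LQ.Spec4
import Pool.Agent.K4H95.LQ.Fin

/-!
# Piece Lim: the joint limit
-/

set_option autoImplicit false

namespace Pool.Agent.K4H95.LQ

open Filter Topology Pool.Agent.H306R2.RG Pool.Agent.H306R2.RZ Pool.Agent.X278.AV

namespace LimX

theorem lim : StLim := by
  intro hT hMom hId hS hMert k ε hε Yf hY hYX
  obtain ⟨K, hK0, hK⟩ := hMom hT k
  have hS1 := (hS k).comp hY
  set L : ℝ := 1 / 2 * ∏' p : Nat.Primes, (1 - (((p : ℕ) : ℝ))⁻¹) ^ ((k + 1) * (k + 2) / 2) * phQ p (k + 1) with hL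
  set Q : ℕ → ℝ := fun Y => MY Y * ∏ p ∈ prLE Y, phQ p (k + 1) with hQ
  set D : ℕ → ℝ := fun Y => (Real.exp Real.eulerMascheroniConstant * Real.log Y) ^ (k * (k + 3) / 2) with hD
  set A : ℕ → ℝ := fun X => ∑ᶠ χ ∈ Chs ε X, cen χ * PYc (Yf X) χ ^ k with hA
  set c : ℝ := 3 / Real.pi ^ 2 with hc
  have hc0 : 0 < c := by positivity
  have hq : Tendsto (fun X : ℕ => 1 / 2 * Q (Yf X) / D (Yf X)) atTop (𝓝 L) := by
    refine hS1.congr fun X => ?_
    simp only [Function.comp, hQ, hD]
    rw [hId k (Yf X)]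
  have hlogX : Tendsto (fun X : ℕ => Real.log X) atTop atTop :=
    Real.tendsto_log_atTop.comp tendsto_natCast_atTop_atTop
  -- `(1 + √Y) / log X → 0`
  have hsm : Tendsto (fun X : ℕ => (1 + √(Yf X : ℝ)) / Real.log X) atTop (𝓝 0) := by
    have h1 : Tendsto (fun X : ℕ => 2 * (√(Real.log X))⁻¹) atTop (𝓝 0) := by
      have h2 : Tendsto (fun X : ℕ => √(Real.log X)) atTop atTop := Real.tendsto_sqrt_atTop.comp hlogX
      simpa using (tendsto_inv_atTop_zero.comp h2).const_mul 2
    refine squeeze_zero' ?_ ?_ h1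
    · filter_upwards [hlogX.eventually_gt_atTop 0] with X hX
      positivity
    · filter_upwards [hYX, hlogX.eventually_ge_atTop 1] with X hX h1X
      have h3 : √(Yf X : ℝ) ≤ √(Real.log X) := Real.sqrt_le_sqrt (by linarith)
      have h4 : 1 ≤ √(Real.log X) := by
        rw [Real.one_le_sqrt]
        exact h1X
      have h5 : √(Real.log X) * √(Real.log X) = Real.log X := Real.mul_self_sqrt (by linarith)
      have h6 : 0 < √(Real.log X) := by linarith
      calc (1 + √(Yf X : ℝ)) / Real.log X ≤ (2 * √(Real.log X)) / Real.log X := by gcongr; linarith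
        _ = (2 * √(Real.log X)) / (√(Real.log X) * √(Real.log X)) := by rw [h5]
        _ = 2 * (√(Real.log X))⁻¹ := by field_simp
  have herr : Tendsto (fun X : ℕ => A X / (X * Real.log X * D (Yf X)) - c * (1 / 2 * Q (Yf X) / D (Yf X))) atTop (𝓝 0) := by
    have h1 : Tendsto (fun X : ℕ => 2 * K * (|1 / 2 * Q (Yf X) / D (Yf X)| * ((1 + √(Yf X : ℝ)) / Real.log X))) atTop (𝓝 0) := by
      have h2 := (hq.abs.mul hsm).const_mul (2 * K)
      simpa using h2
    refine squeeze_zero_norm' ?_ h1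
    filter_upwards [hYX, hlogX.eventually_gt_atTop 0, hY.eventually_ge_atTop 2, eventually_gt_atTop 0] with X hX h1X h2X h3X
    have h4 := hK ε X (Yf X) hε h2X hX
    have hX0 : (0 : ℝ) < X := by exact_mod_cast h3X
    have hly : 0 < Real.log (Yf X) := Real.log_pos (by exact_mod_cast (by omega : 1 < Yf X))
    have hD0 : 0 < D (Yf X) := Real.rpow_pos_of_pos (by positivity) _
    have hQ0 : 0 ≤ Q (Yf X) := by
      refine mul_nonneg (hMert.2 _).le (Finset.prod_nonneg fun p hp => ?_)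
      exact (phQ_pos ⟨p, (Finset.mem_filter.1 hp).2⟩ (k + 1)).le
    have e1 : A X / (X * Real.log X * D (Yf X)) - c * (1 / 2 * Q (Yf X) / D (Yf X)) =
        (A X - c * (1 / 2 * Q (Yf X)) * (X * Real.log X)) / (X * Real.log X * D (Yf X)) := by
      field_simp
    rw [e1, Real.norm_eq_abs, abs_div, abs_of_pos (by positivity : 0 < (X : ℝ) * Real.log X * D (Yf X)),
      div_le_iff₀ (by positivity), abs_of_nonneg (by positivity : 0 ≤ 1 / 2 * Q (Yf X) / D (Yf X))]
    refine h4.trans (le_of_eq ?_)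
    simp only [hQ]
    field_simp
  have hlim1 : Tendsto (fun X : ℕ => A X / (X * Real.log X * D (Yf X))) atTop (𝓝 (c * L)) := by
    have h1 := herr.add (hq.const_mul c)
    rw [zero_add] at h1
    refine h1.congr fun X => ?_
    ring
  have h2 := hlim1.div (count_lim hε) hc0.ne'
  have e3 : c * L / c = L := by
    field_simp
  rw [← hc] at h2
  rw [e3] at h2
  refine h2.congr' ?_
  filter_upwards [eventually_gt_atTop 0] with X hX
  have hX0 : (X : ℝ) ≠ 0 := by exact_mod_cast hX.ne'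
  simp only [Pi.div_apply]
  change A X / (X * Real.log X * D (Yf X)) / (((Chs ε X).ncard : ℝ) / X) =
    A X / ((Chs ε X).ncard : ℝ) / (Real.log X * D (Yf X))
  have e4 : (X : ℝ) * Real.log X * D (Yf X) * ((Chs ε X).ncard : ℝ) =
      ((Chs ε X).ncard : ℝ) * (Real.log X * D (Yf X)) * X := by ring
  rw [div_div_eq_mul_div, div_mul_eq_mul_div, div_div, e4, mul_div_mul_right _ _ hX0, div_div]

end LimX

/-- the joint limit -/
theorem lim : StLim := LimX.lim

end Pool.Agent.K4H95.LQ
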