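import Pool.Agent.K4H95.LQ.Spec4
import Pool.Agent.H305R2.MertensE

/-!
# Pieces Id and Mert: the truncated product
-/

set_option autoImplicit false

namespace Pool.Agent.K4H95.LQ

open Filter Topology Pool.Agent.H306R2.RG Pool.Agent.H306R2.RZ Pool.Agent.X278.AV

noncomputable section

namespace Mert

/-- the local factor at a prime -/
def cp (p : ℕ) : ℝ := 1 - 1 / ((p : ℝ) * ((p : ℝ) + 1))

/-- the factors of the tail -/
def gY (Y : ℕ) (p : Nat.Primes) : ℝ := if (p : ℕ) ≤ Y then (1 : ℝ) else cp p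

theorem cp_pos (p : Nat.Primes) : 0 < cp p := by
  have h2 : (2 : ℝ) ≤ ((p : ℕ) : ℝ) := by exact_mod_cast p.2.two_le
  unfold cp
  have h3 : 1 / (((p : ℕ) : ℝ) * (((p : ℕ) : ℝ) + 1)) < 1 := by
    rw [div_lt_one (by positivity)]
    nlinarith
  linarith

theorem gY_pos (Y : ℕ) (p : Nat.Primes) : 0 < gY Y p := by
  unfold gY
  split_ifs
  · exact one_pos
  · exact cp_pos p

theorem summable_b : Summable fun p : Nat.Primes => Real.log (cp p) := by
  have h1 : Summable fun p : Nat.Primes => -(1 / (((p : ℕ) : ℝ) * (((p : ℕ) : ℝ) + 1))) := by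
    apply Summable.neg
    have h2 : Summable fun n : ℕ => ((n : ℝ) ^ 2)⁻¹ := Real.summable_nat_pow_inv.2 (by norm_num)
    have h3 : Summable fun p : Nat.Primes => (((p : ℕ) : ℝ) ^ 2)⁻¹ :=
      h2.comp_injective (i := fun p : Nat.Primes => (p : ℕ)) Subtype.val_injective
    refine Summable.of_nonneg_of_le (fun p => by positivity) (fun p => ?_) h3
    have hp : (0 : ℝ) < ((p : ℕ) : ℝ) := by exact_mod_cast p.2.pos
    rw [one_div]
    apply inv_anti₀ (by positivity)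
    nlinarith
  have h4 := Real.summable_log_one_add_of_summable h1
  refine h4.congr fun p => ?_
  unfold cp
  rw [sub_eq_add_neg]

theorem summable_g (Y : ℕ) : Summable fun p : Nat.Primes => Real.log (gY Y p) := by
  refine Summable.of_norm_bounded summable_b.norm fun p => ?_
  unfold gY
  split_ifs
  · rw [Real.log_one, norm_zero]
    exact norm_nonneg _
  · exact le_rfl

theorem tprod_g (Y : ℕ) : ∏' p : Nat.Primes, gY Y p = Real.exp (∑' p, Real.log (gY Y p)) :=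
  (Real.rexp_tsum_eq_tprod (gY_pos Y) (summable_g Y)).symm

theorem tendsto_tail : Tendsto (fun Y : ℕ => ∏' p : Nat.Primes, gY Y p) atTop (𝓝 1) := by
  have h1 : Tendsto (fun Y : ℕ => ∑' p, Real.log (gY Y p)) atTop (𝓝 (∑' _p : Nat.Primes, 0)) := by
    refine tendsto_tsum_of_dominated_convergence (bound := fun p => ‖Real.log (cp p)‖)
      summable_b.norm (fun p => ?_) (Eventually.of_forall fun Y p => ?_)
    · refine tendsto_const_nhds.congr' ?_
      filter_upwards [eventually_ge_atTop (p : ℕ)] with Y hY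
      unfold gY
      rw [if_pos hY, Real.log_one]
    · unfold gY
      split_ifs
      · rw [Real.log_one, norm_zero]
        exact norm_nonneg _
      · exact le_rfl
  rw [tsum_zero] at h1
  have h2 := (Real.continuous_exp.tendsto 0).comp h1
  rw [Real.exp_zero] at h2
  refine h2.congr fun Y => ?_
  rw [tprod_g]
  rfl

theorem MY_eq (Y : ℕ) : MY Y = (∏ p ∈ prLE Y, (1 - 1 / (p : ℝ))) * ∏' p : Nat.Primes, gY Y p := rfl

theorem mem_prLE {Y p : ℕ} : p ∈ prLE Y ↔ p.Prime ∧ p ≤ Y := by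
  unfold prLE
  rw [Finset.mem_filter, Finset.mem_Icc]
  constructor
  · rintro ⟨⟨-, h1⟩, h2⟩
    exact ⟨h2, h1⟩
  · rintro ⟨h1, h2⟩
    exact ⟨⟨h1.one_le, h2⟩, h1⟩

theorem fac_pos {Y p : ℕ} (hp : p ∈ prLE Y) : 0 < 1 - 1 / (p : ℝ) := by
  have h2 : (2 : ℝ) ≤ (p : ℝ) := by exact_mod_cast (mem_prLE.1 hp).1.two_le
  have h3 : 1 / (p : ℝ) < 1 := by
    rw [div_lt_one (by linarith)]
    linarith
  linarith

theorem phQ_one (p : Nat.Primes) : (1 - 1 / ((p : ℕ) : ℝ)) * phQ p 1 = cp p := by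
  obtain ⟨h1, h2, h3⟩ := de_facts p
  have hp : (2 : ℝ) ≤ ((p : ℕ) : ℝ) := by exact_mod_cast p.2.two_le
  unfold phQ cp
  rw [Real.rpow_neg_one, Real.rpow_neg_one]
  have h4 : (1 - (√((p : ℕ) : ℝ))⁻¹)⁻¹ + (1 + (√((p : ℕ) : ℝ))⁻¹)⁻¹ =
      2 / (1 - 1 / ((p : ℕ) : ℝ)) := by
    rw [← h3]
    have h5 : 1 - (√((p : ℕ) : ℝ))⁻¹ ≠ 0 := by linarith
    have h6 : 1 + (√((p : ℕ) : ℝ))⁻¹ ≠ 0 := by linarith
    have h7 : 1 - ((√((p : ℕ) : ℝ))⁻¹) ^ 2 ≠ 0 := by
      have : 1 - ((√((p : ℕ) : ℝ))⁻¹) ^ 2 = (1 - (√((p : ℕ) : ℝ))⁻¹) * (1 + (√((p : ℕ) : ℝ))⁻¹) := by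
        ring
      rw [this]
      exact mul_ne_zero h5 h6
    generalize (√((p : ℕ) : ℝ))⁻¹ = s at *
    field_simp
    ring
  rw [h4]
  have h8 : ((p : ℕ) : ℝ) ≠ 0 := by linarith
  have h9 : ((p : ℕ) : ℝ) - 1 ≠ 0 := by linarith
  have h10 : ((p : ℕ) : ℝ) + 1 ≠ 0 := by linarith
  have h11 : 1 - 1 / ((p : ℕ) : ℝ) = (((p : ℕ) : ℝ) - 1) / ((p : ℕ) : ℝ) := by
    field_simp
  rw [h11]
  field_simp
  ring

end Mert

open Mert

theorem mert : StMert := by
  constructor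
  · have h1 := Pool.Agent.H305R2.mertens_three
    have h2 : Tendsto (fun N : ℕ => ((∏ p ∈ (Finset.Icc 1 N).filter Nat.Prime,
        (1 - (p : ℝ)⁻¹)⁻¹) / Real.log N)⁻¹) atTop (𝓝 (Real.exp Real.eulerMascheroniConstant)⁻¹) :=
      h1.inv₀ (Real.exp_pos _).ne'
    have h3 := (h2.mul tendsto_tail).mul_const (Real.exp Real.eulerMascheroniConstant)
    have e1 : (Real.exp Real.eulerMascheroniConstant)⁻¹ * 1 *
        Real.exp Real.eulerMascheroniConstant = 1 := by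
      rw [mul_one, inv_mul_cancel₀ (Real.exp_pos _).ne']
    rw [e1] at h3
    refine h3.congr fun Y => ?_
    rw [MY_eq]
    have h4 : ((∏ p ∈ (Finset.Icc 1 Y).filter Nat.Prime, (1 - (p : ℝ)⁻¹)⁻¹) / Real.log Y)⁻¹ =
        (∏ p ∈ prLE Y, (1 - 1 / (p : ℝ))) * Real.log Y := by
      rw [inv_div, Finset.prod_inv_distrib, div_inv_eq_mul, mul_comm]
      simp only [one_div]
      rfl
    rw [h4]
    ring
  · intro Y
    rw [MY_eq, tprod_g]
    exact mul_pos (Finset.prod_pos fun p hp => fac_pos hp) (Real.exp_pos _)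

theorem idt : StId := by
  intro k Y
  let h : Nat.Primes → ℝ := fun p =>
    if (p : ℕ) ≤ Y then (1 - 1 / ((p : ℕ) : ℝ)) * phQ p (k + 1) else 1
  have e1 : ∀ p : Nat.Primes, (1 - 1 / ((p : ℕ) : ℝ)) * phQ p (1 + wY k Y p) = gY Y p * h p := by
    intro p
    change _ = gY Y p * (if (p : ℕ) ≤ Y then (1 - 1 / ((p : ℕ) : ℝ)) * phQ p (k + 1) else 1)
    unfold gY wY
    by_cases hp : (p : ℕ) ≤ Y
    · rw [if_pos hp, if_pos hp, if_pos hp, one_mul, add_comm 1 k]
    · rw [if_neg hp, if_neg hp, if_neg hp, add_zero, mul_one, phQ_one]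
  have hg : Multipliable fun p : Nat.Primes => gY Y p :=
    Real.multipliable_of_summable_log (gY_pos Y) (summable_g Y)
  have hs : ∀ p ∉ (Finset.Icc 1 Y).subtype Nat.Prime, h p = 1 := by
    intro p hp
    change (if (p : ℕ) ≤ Y then (1 - 1 / ((p : ℕ) : ℝ)) * phQ p (k + 1) else 1) = 1
    rw [if_neg]
    intro h1
    apply hp
    rw [Finset.mem_subtype, Finset.mem_Icc]
    exact ⟨p.2.one_le, h1⟩
  have hh : Multipliable h := multipliable_of_finite_mulSupport (by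
    refine (Finset.finite_toSet ((Finset.Icc 1 Y).subtype Nat.Prime)).subset fun p hp => ?_
    by_contra h1
    exact hp (hs p h1))
  have e2 : ∏' p : Nat.Primes, h p = ∏ p ∈ prLE Y, ((1 - 1 / (p : ℝ)) * phQ p (k + 1)) := by
    refine (tprod_eq_prod (β := Nat.Primes) hs).trans ?_
    unfold prLE
    rw [← Finset.prod_subtype_eq_prod_filter]
    refine Finset.prod_congr rfl fun p hp => ?_
    have hp2 : (p : ℕ) ∈ Finset.Icc 1 Y := Finset.mem_subtype.1 hp
    rw [Finset.mem_Icc] at hp2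
    change (if (p : ℕ) ≤ Y then (1 - 1 / ((p : ℕ) : ℝ)) * phQ p (k + 1) else 1) = _
    rw [if_pos hp2.2]
  rw [tprod_congr e1, hg.tprod_mul hh, e2, MY_eq, Finset.prod_mul_distrib]
  ring

end

end Pool.Agent.K4H95.LQ
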