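import Pool.Agent.K4H95.LQ.Spec4
import Pool.Agent.K4H95.LQ.D

/-!
# Piece Mom: moments of the truncated product from the statement for all patterns (helper75)
-/

set_option autoImplicit false

namespace Pool.Agent.K4H95.LQ

open Filter Topology Pool.Agent.H306R2.RG Pool.Agent.H306R2.RZ Pool.Agent.X278.AV

theorem MomX.Chs_fin (ε : ℤ) (hε : ε = 1 ∨ ε = -1) (X : ℕ) : (Chs ε X).Finite :=
  (d ε hε (fun _ => 0) (fun _ _ => 0) (by intros; rfl) X).1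

namespace MomX

/-- the values -/
noncomputable def T : Finset ℝ := {0, 1, -1}

theorem T_sum (f : ℝ → ℝ) : ∑ x ∈ T, f x = f 0 + f 1 + f (-1) := by
  unfold T
  rw [Finset.sum_insert (by norm_num), Finset.sum_insert (by norm_num), Finset.sum_singleton, add_assoc]

theorem mem_T (x : ℝ) : x ∈ T ↔ x = 0 ∨ x = 1 ∨ x = -1 := by
  unfold T
  simp

theorem chi_val {N : ℕ} (χ : DirichletCharacter ℂ N) (h : χ ^ 2 = 1) (n : ℕ) :
    χ (n : ZMod N) = 0 ∨ χ (n : ZMod N) = 1 ∨ χ (n : ZMod N) = -1 := by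
  by_cases hu : IsUnit ((n : ℕ) : ZMod N)
  · right
    have h1 : (χ (n : ZMod N)) ^ 2 = 1 := by
      rw [← MulChar.pow_apply' χ two_ne_zero, h, MulChar.one_apply hu]
    have h2 : (χ (n : ZMod N) - 1) * (χ (n : ZMod N) + 1) = 0 := by linear_combination h1
    rcases mul_eq_zero.1 h2 with h3 | h3
    · left
      linear_combination h3
    · right
      linear_combination h3
  · left
    exact MulChar.map_nonunit χ hu

theorem prime_of_mem {Y p : ℕ} (hp : p ∈ prLE Y) : p.Prime := (Finset.mem_filter.1 hp).2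

/-- the local identity -/
theorem loc {p : ℕ} (hp : p.Prime) (k : ℝ) :
    ∑ x ∈ T, pim p x * ((1 - x / √(p : ℝ))⁻¹) ^ (k + 1) = phQ p (k + 1) := by
  have hp0 : (0 : ℝ) < p := by exact_mod_cast hp.pos
  have hp1 : (1 : ℝ) < p := by exact_mod_cast hp.one_lt
  have hs : 1 < √(p : ℝ) := by
    rw [Real.lt_sqrt (by norm_num)]
    linarith
  have hi : (√(p : ℝ))⁻¹ < 1 := inv_lt_one_of_one_lt₀ hs
  have hi0 : 0 < (√(p : ℝ))⁻¹ := by positivity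
  rw [T_sum]
  have e1 : ((1 - (1 : ℝ) / √(p : ℝ))⁻¹) ^ (k + 1) = (1 - (√(p : ℝ))⁻¹) ^ (-(k + 1)) := by
    rw [one_div, Real.inv_rpow (by linarith), Real.rpow_neg (by linarith)]
  have e2 : ((1 - (-1 : ℝ) / √(p : ℝ))⁻¹) ^ (k + 1) = (1 + (√(p : ℝ))⁻¹) ^ (-(k + 1)) := by
    rw [neg_div, one_div, sub_neg_eq_add, Real.inv_rpow (by linarith), Real.rpow_neg (by linarith)]
  rw [e1, e2]
  have e0 : ((1 - (0 : ℝ) / √(p : ℝ))⁻¹) ^ (k + 1) = 1 := by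
    rw [zero_div, sub_zero, inv_one, Real.one_rpow]
  rw [e0]
  unfold pim phQ
  rw [if_pos rfl, if_neg one_ne_zero, if_neg (by norm_num)]
  field_simp
  ring

theorem fac_pos {Y : ℕ} {a : ℕ → ℝ} (ha : Pat a) {p : ℕ} (hp : p ∈ prLE Y) : 0 < (1 - a p / √(p : ℝ))⁻¹ := by
  have hpp := prime_of_mem hp
  have hp1 : (1 : ℝ) < p := by exact_mod_cast hpp.one_lt
  have hs : 1 < √(p : ℝ) := by
    rw [Real.lt_sqrt (by norm_num)]
    linarith
  apply inv_pos.2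
  have h1 : a p ≤ 1 := by
    rcases ha p with h | h | h <;> rw [h] <;> norm_num
  have h2 : a p / √(p : ℝ) < 1 := by
    rw [div_lt_one (by linarith)]
    linarith
  linarith

theorem PYa_pos {Y : ℕ} {a : ℕ → ℝ} (ha : Pat a) : 0 < PYa Y a := by
  unfold PYa
  exact Finset.prod_pos fun p hp => fac_pos ha hp

/-- extension of a family by zero -/
noncomputable def ex (Y : ℕ) (g : ∀ p ∈ prLE Y, ℝ) (p : ℕ) : ℝ := open Classical in if h : p ∈ prLE Y then g p h else 0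

theorem ex_mem {Y : ℕ} (g : ∀ p ∈ prLE Y, ℝ) {p : ℕ} (h : p ∈ prLE Y) : ex Y g p = g p h := by
  unfold ex
  rw [dif_pos h]

theorem Pat_ex {Y : ℕ} {g : ∀ p ∈ prLE Y, ℝ} (hg : g ∈ (prLE Y).pi fun _ => T) : Pat (ex Y g) := by
  intro p
  unfold ex
  by_cases h : p ∈ prLE Y
  · rw [dif_pos h]
    exact (mem_T _).1 (Finset.mem_pi.1 hg p h)
  · rw [dif_neg h]
    exact Or.inl rfl

theorem sum_pat (Y : ℕ) (k : ℝ) :
    ∑ g ∈ (prLE Y).pi (fun _ => T), prY Y (ex Y g) * PYa Y (ex Y g) ^ (k + 1) = ∏ p ∈ prLE Y, phQ p (k + 1) := by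
  have h1 : ∏ p ∈ prLE Y, phQ p (k + 1) = ∏ p ∈ prLE Y, ∑ x ∈ T, pim p x * ((1 - x / √(p : ℝ))⁻¹) ^ (k + 1) :=
    Finset.prod_congr rfl fun p hp => (loc (prime_of_mem hp) k).symm
  rw [h1, Finset.prod_sum]
  apply Finset.sum_congr rfl
  intro g hg
  have h2 : ∏ x ∈ (prLE Y).attach, pim x.1 (g x.1 x.2) * ((1 - g x.1 x.2 / √(x.1 : ℝ))⁻¹) ^ (k + 1) =
      ∏ x ∈ (prLE Y).attach, (fun p : ℕ => pim p (ex Y g p) * ((1 - ex Y g p / √(p : ℝ))⁻¹) ^ (k + 1)) x.1 := by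
    apply Finset.prod_congr rfl
    intro x _
    dsimp only
    rw [ex_mem g x.2]
  rw [h2, Finset.prod_attach (prLE Y) (fun p : ℕ => pim p (ex Y g p) * ((1 - ex Y g p / √(p : ℝ))⁻¹) ^ (k + 1)),
    Finset.prod_mul_distrib, Real.finsetProd_rpow _ _ (fun p hp => (fac_pos (Pat_ex hg) hp).le)]
  rfl

theorem mom : StMom := by
  intro hT k
  obtain ⟨K, hK0, hK⟩ := hT
  refine ⟨K, hK0, ?_⟩
  intro ε X Y hε hY hYX
  classical
  have hfin := Chs_fin ε hε X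
  obtain ⟨C, hC⟩ : ∃ C : Finset (Σ N : ℕ, DirichletCharacter ℂ N), (C : Set _) = Chs ε X :=
    ⟨hfin.toFinset, hfin.coe_toFinset⟩
  have hCm : ∀ χ, χ ∈ C ↔ χ ∈ Chs ε X := fun χ => by rw [← hC]; rfl
  obtain ⟨G, hG⟩ : ∃ G : (Σ N : ℕ, DirichletCharacter ℂ N) → (∀ p ∈ prLE Y, ℝ),
      ∀ χ p hp, G χ p hp = (χ.2 ((p : ℕ) : ZMod χ.1)).re := ⟨fun χ p _ => (χ.2 ((p : ℕ) : ZMod χ.1)).re, fun _ _ _ => rfl⟩
  have hval : ∀ χ ∈ C, ∀ n : ℕ, χ.2 (n : ZMod χ.1) = 0 ∨ χ.2 (n : ZMod χ.1) = 1 ∨ χ.2 (n : ZMod χ.1) = -1 := by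
    intro χ hχ n
    exact chi_val χ.2 ((hCm χ).1 hχ).1.2.2.1 n
  have hre : ∀ χ ∈ C, ∀ n : ℕ, (((χ.2 (n : ZMod χ.1)).re : ℝ) : ℂ) = χ.2 (n : ZMod χ.1) := by
    intro χ hχ n
    rcases hval χ hχ n with h | h | h <;> rw [h] <;> simp
  have hGP : ∀ χ ∈ C, G χ ∈ (prLE Y).pi fun _ => T := by
    intro χ hχ
    rw [Finset.mem_pi]
    intro p hp
    rw [hG, mem_T]
    rcases hval χ hχ p with h | h | h <;> rw [h] <;> simp
  have hSub : ∀ g ∈ (prLE Y).pi fun _ => T, Sub ε X Y (ex Y g) = ((C.filter fun χ => G χ = g : Finset _) : Set _) := by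
    intro g _
    ext χ
    simp only [Sub, Set.mem_ofPred_eq, Finset.coe_filter, hCm]
    constructor
    · rintro ⟨h1, h2⟩
      refine ⟨h1, ?_⟩
      funext p hp
      rw [hG, h2 p hp, Complex.ofReal_re, ex_mem g hp]
    · rintro ⟨h1, h2⟩
      refine ⟨h1, fun p hp => ?_⟩
      rw [ex_mem g hp, ← h2, hG]
      exact (hre χ ((hCm χ).2 h1) p).symm
  have hPY : ∀ g ∈ (prLE Y).pi fun _ => T, ∀ χ ∈ C.filter (fun χ => G χ = g), PYc Y χ = PYa Y (ex Y g) := by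
    intro g _ χ hχ
    unfold PYc PYa
    apply Finset.prod_congr rfl
    intro p hp
    rw [ex_mem g hp, ← (Finset.mem_filter.1 hχ).2, hG]
  have hA : ∑ᶠ χ ∈ Chs ε X, cen χ * PYc Y χ ^ k =
      ∑ g ∈ (prLE Y).pi (fun _ => T), PYa Y (ex Y g) ^ k * ∑ᶠ χ ∈ Sub ε X Y (ex Y g), cen χ := by
    rw [← hC, finsum_mem_coe_finset, ← Finset.sum_fiberwise_of_maps_to hGP]
    apply Finset.sum_congr rfl
    intro g hg
    rw [hSub g hg, finsum_mem_coe_finset, Finset.mul_sum]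
    apply Finset.sum_congr rfl
    intro χ hχ
    rw [hPY g hg χ hχ, mul_comm]
  have hW : ∑ g ∈ (prLE Y).pi (fun _ => T), PYa Y (ex Y g) ^ k * (prY Y (ex Y g) * MY Y * PYa Y (ex Y g)) =
      MY Y * ∏ p ∈ prLE Y, phQ p (k + 1) := by
    rw [← sum_pat Y k, Finset.mul_sum]
    apply Finset.sum_congr rfl
    intro g hg
    rw [Real.rpow_add_one (PYa_pos (Pat_ex hg)).ne']
    ring
  rw [hA, ← hW]
  have hkey : ∑ g ∈ (prLE Y).pi (fun _ => T), PYa Y (ex Y g) ^ k * ∑ᶠ χ ∈ Sub ε X Y (ex Y g), cen χ -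
      3 / Real.pi ^ 2 * (1 / 2 * ∑ g ∈ (prLE Y).pi (fun _ => T), PYa Y (ex Y g) ^ k *
        (prY Y (ex Y g) * MY Y * PYa Y (ex Y g))) * (X * Real.log X) =
      ∑ g ∈ (prLE Y).pi (fun _ => T), PYa Y (ex Y g) ^ k * (∑ᶠ χ ∈ Sub ε X Y (ex Y g), cen χ -
        3 / Real.pi ^ 2 * (1 / 2 * (prY Y (ex Y g) * MY Y * PYa Y (ex Y g))) * (X * Real.log X)) := by
    simp only [mul_sub]
    rw [Finset.sum_sub_distrib]
    congr 1
    rw [Finset.mul_sum, Finset.mul_sum, Finset.sum_mul]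
    apply Finset.sum_congr rfl
    intro g _
    ring
  rw [hkey]
  refine (Finset.abs_sum_le_sum_abs _ _).trans ?_
  have hR : K * (∑ g ∈ (prLE Y).pi (fun _ => T), PYa Y (ex Y g) ^ k * (prY Y (ex Y g) * MY Y * PYa Y (ex Y g))) *
      (1 + √(Y : ℝ)) * X = ∑ g ∈ (prLE Y).pi (fun _ => T), PYa Y (ex Y g) ^ k *
        (K * (prY Y (ex Y g) * MY Y * PYa Y (ex Y g)) * (1 + √(Y : ℝ)) * X) := by
    rw [Finset.mul_sum, Finset.sum_mul, Finset.sum_mul]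
    apply Finset.sum_congr rfl
    intro g _
    ring
  rw [hR]
  apply Finset.sum_le_sum
  intro g hg
  have h0 : 0 ≤ PYa Y (ex Y g) ^ k := Real.rpow_nonneg (PYa_pos (Pat_ex hg)).le _
  rw [abs_mul, abs_of_nonneg h0]
  exact mul_le_mul_of_nonneg_left (hK ε X Y (ex Y g) hε (Pat_ex hg) hY hYX) h0

end MomX

theorem mom : StMom := MomX.mom

end Pool.Agent.K4H95.LQ
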