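import Pool.Agent.K4H95.LQ.Fin
import Pool.Agent.X278.AV.MomQ3

/-!
# One real primitive character
-/

set_option autoImplicit false

namespace Pool.Agent.K4H95.LQ

open Finset Filter Topology Pool.Agent.H306R2.RG Pool.Agent.H306R2.RZ Pool.Agent.X278.AV
open Pool.Agent.W187.UR (Lam)

noncomputable section

lemma fam_cases {φ : FD} (hφ : Fam φ) : (φ.η = 0) ∨ (φ.η = 1 ∧ ∀ d, φ.A d → Odd d) ∨ (φ.η = -1 ∧ ∀ d, φ.A d → Odd d) := by
  obtain ⟨ε, hε, h | h | h | h⟩ := hφ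
  · left; rw [h]; rfl
  · left; rw [h]; rfl
  · right; left
    subst h
    refine ⟨by simp [F1], fun d hd => ?_⟩
    have h1 : (ε * (d : ℤ)) % 8 = 1 := hd.1
    rw [Nat.odd_iff]
    rcases hε with rfl | rfl <;> omega
  · right; right
    subst h
    refine ⟨by simp [F1], fun d hd => ?_⟩
    have h1 : (ε * (d : ℤ)) % 8 = 5 := hd.1
    rw [Nat.odd_iff]
    rcases hε with rfl | rfl <;> omega

/-- the signs at the primes -/
def sgn (φ : FD) (p : Nat.Primes) : ℤ := open Classical in if (p : ℕ) = 2 then (if φ.η = -1 then -1 else 1) else jacobiSym φ.e p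

lemma sgn_pm {φ : FD} (hφ : Fam φ) (p : Nat.Primes) : sgn φ p = 1 ∨ sgn φ p = -1 := by
  unfold sgn
  split_ifs with h h2
  · exact Or.inr rfl
  · exact Or.inl rfl
  · have h3 : Odd (p : ℕ) := p.2.odd_of_ne_two h
    have : NeZero (p : ℕ) := ⟨p.2.ne_zero⟩
    apply jacobiSym.eq_one_or_neg_one
    have h2 : Nat.Coprime 2 p := Nat.coprime_two_left.2 h3
    rw [Int.gcd_def, Int.natAbs_natCast]
    rcases fam_e hφ with h | h | h | h <;> rw [h] <;> simp [h2]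

lemma jac_two {d : ℕ} (hd : Odd d) : jacobiSym (d : ℤ) 2 = 1 := by
  have h1 : ((d : ℤ) % 2) = ((1 : ℤ) % 2) := by
    have := Nat.odd_iff.1 hd
    omega
  have h2 := jacobiSym.mod_left' (b := 2) h1
  rw [h2]
  exact jacobiSym.one_left 2

lemma cf_bQ {φ : FD} (hφ : Fam φ) {d : ℕ} (hd : φ.A d) : ∃ N : ℕ, N ≠ 0 ∧ ∀ p : Nat.Primes,
    cf φ d p = ((bQ N (sgn φ) (d : ℤ) p : ℤ) : ℝ) := by
  classical
  have hodd : ∀ p : Nat.Primes, (p : ℕ) ≠ 2 → jo φ d p = ((sgn φ p * jacobiSym (d : ℤ) p : ℤ) : ℝ) := by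
    intro p hp
    have h3 : Odd (p : ℕ) := p.2.odd_of_ne_two hp
    rw [jo_odd φ d h3]
    unfold js jr sgn
    rw [if_neg hp]
    push_cast
    rfl
  rcases fam_cases hφ with h | ⟨h, h'⟩ | ⟨h, h'⟩
  · refine ⟨2, by norm_num, fun p => ?_⟩
    unfold bQ
    by_cases hp : (p : ℕ) = 2
    · rw [if_pos (by rw [hp]), hp, cf_two, h]
      simp
    · rw [if_neg (fun h2 => hp ((Nat.prime_dvd_prime_iff_eq p.2 Nat.prime_two).1 h2)), cf_odd d p.2 hp]
      exact hodd p hp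
  · refine ⟨1, by norm_num, fun p => ?_⟩
    unfold bQ
    rw [if_neg (fun h2 => p.2.one_lt.ne' (Nat.dvd_one.1 h2))]
    by_cases hp : (p : ℕ) = 2
    · have e1 : sgn φ p = 1 := by
        unfold sgn
        rw [if_pos hp, if_neg (by rw [h]; norm_num)]
      rw [e1, hp, cf_two, h, jac_two (h' d hd)]
      norm_num
    · rw [cf_odd d p.2 hp]
      exact hodd p hp
  · refine ⟨1, by norm_num, fun p => ?_⟩
    unfold bQ
    rw [if_neg (fun h2 => p.2.one_lt.ne' (Nat.dvd_one.1 h2))]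
    by_cases hp : (p : ℕ) = 2
    · have e1 : sgn φ p = -1 := by
        unfold sgn
        rw [if_pos hp, if_pos h]
      rw [e1, hp, cf_two, h, jac_two (h' d hd)]
      norm_num
    · rw [cf_odd d p.2 hp]
      exact hodd p hp

/-- **the limit for one real primitive character** -/
theorem one_real {N : ℕ} [NeZero N] (χ : DirichletCharacter ℂ N) (h1 : χ.IsPrimitive) (h2 : χ ^ 2 = 1) (h3 : χ ≠ 1)
    {γ : ℝ} (hγ : Real.pi / 2 < γ) :
    ∃ m : ℤ, meromorphicOrderAt χ.LFunction (1 / 2) = m ∧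
      Tendsto (fun T : ℝ => T ^ m * Real.exp (∑' p : Nat.Primes, wr γ (Real.log (p : ℕ) / T) *
        Yq p (χ ((p : ℕ) : ZMod N)).re)) atTop
        (𝓝 (√2 * Real.exp (m * (Lam γ).re) * ‖meromorphicTrailingCoeffAt χ.LFunction (1 / 2)‖)) := by
  obtain ⟨φ, d, hφ, hd, hs, hN, hχ⟩ := LnkC.CLS N (NeZero.ne N) χ h1 h2 h3
  obtain ⟨M, hM, hb⟩ := cf_bQ hφ hd
  have hval : ∀ p : Nat.Primes, χ ((p : ℕ) : ZMod N) = ((bQ M (sgn φ) (d : ℤ) p : ℤ) : ℂ) := by
    intro p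
    rw [hχ p p.2.ne_zero, hb p]
    push_cast
    rfl
  have hd0 : (d : ℤ) ≠ 0 := by exact_mod_cast hs.ne_zero
  obtain ⟨m, hm, hlim⟩ := one_char χ hM (sgn_pm hφ) hd0 hval hγ
  refine ⟨m, hm, hlim.congr fun T => ?_⟩
  congr 2
  refine tsum_congr fun p => ?_
  rw [hval p, Complex.intCast_re]

end

end Pool.Agent.K4H95.LQ
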