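import Pool.Agent.K4H95.LQ.Ab

/-!
# The twisted first moment over a family
-/

set_option autoImplicit false

namespace Pool.Agent.K4H95.LQ

open Finset Filter Topology Pool.Agent.H306R2.RG Pool.Agent.H306R2.RZ

noncomputable section

lemma jo_mul (φ : FD) (d a b : ℕ) : jo φ d (a * b) = jo φ d a * jo φ d b := by
  unfold jo js
  by_cases ha : Odd a
  · by_cases hb : Odd b
    · have : NeZero a := ⟨by rintro rfl; simp at ha⟩
      have : NeZero b := ⟨by rintro rfl; simp at hb⟩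
      rw [if_pos ha, if_pos hb, if_pos (ha.mul hb), jacobiSym.mul_right]
      push_cast
      rfl
    · rw [if_neg hb, if_neg (fun h => hb (Nat.odd_mul.1 h).2), mul_zero]
  · rw [if_neg ha, if_neg (fun h => ha (Nat.odd_mul.1 h).1), zero_mul]

lemma jo_abs (φ : FD) (d a : ℕ) : |jo φ d a| ≤ 1 := by
  unfold jo
  split_ifs
  · exact js_abs _ _
  · simp

lemma jo_one (φ : FD) (d : ℕ) : jo φ d 1 = 1 := by
  unfold jo js
  simp

open Classical in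
/-- the members of the family up to `X` -/
def FF (φ : FD) (X : ℕ) : Finset ℕ := (Icc 1 X).filter (fun d => φ.A d ∧ Squarefree d)

lemma mem_FF {φ : FD} {X d : ℕ} : d ∈ FF φ X ↔ (1 ≤ d ∧ d ≤ X) ∧ φ.A d ∧ Squarefree d := by
  classical
  unfold FF
  rw [mem_filter, mem_Icc]

lemma FF_sub (φ : FD) (X : ℕ) : FF φ X ⊆ Icc 1 X := by
  intro d hd
  exact mem_Icc.2 (mem_FF.1 hd).1

lemma TT_eq (φ : FD) (c : ℝ) (m n X : ℕ) : TT φ c m n X = ∑ d ∈ FF φ X, jo φ d (n * m) * WW φ c n d := rfl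

lemma gg_nonneg (N : ℕ) : 0 ≤ gg N := prod_nonneg fun p _ => by positivity

lemma gg_le (N : ℕ) : gg N ≤ 1 := by
  refine prod_le_one (fun p _ => by positivity) fun p _ => ?_
  rw [div_le_one (by positivity)]
  linarith

lemma sp {a : ℝ} (ha : a < -1) : Summable fun n : ℕ => ((n : ℝ) + 1) ^ a := by
  have h := (summable_nat_add_iff 1).2 (Real.summable_nat_rpow.2 ha)
  refine h.congr fun n => ?_
  push_cast
  rfl

lemma delta_nonneg {φ : FD} (hφ : Fam φ) : 0 ≤ φ.δ := by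
  obtain ⟨ε, hε, h | h | h | h⟩ := hφ <;> rw [h] <;> simp [F8, F4, F1]

lemma eta_le {φ : FD} (hφ : Fam φ) : |φ.η| ≤ 1 := by
  obtain ⟨ε, hε, h | h | h | h⟩ := hφ <;> rw [h] <;> simp [F8, F4, F1]

lemma sqi_bd {φ : FD} (hφ : Fam φ) (N : ℕ) : 0 ≤ sqi φ N ∧ sqi φ N ≤ φ.δ * (8 / Real.pi ^ 2) := by
  have h := delta_nonneg hφ
  have h2 := gg_nonneg N
  have h3 := gg_le N
  have h4 : 0 ≤ φ.δ * (8 / Real.pi ^ 2) := by positivity
  unfold sqi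
  split_ifs
  · exact ⟨by positivity, by nlinarith⟩
  · exact ⟨le_rfl, h4⟩

variable {φ : FD}

lemma W_sum (hφ : Fam φ) {c : ℝ} (hc : 0 ≤ c) {d : ℕ} (hd : 1 ≤ d) :
    Summable fun n : ℕ => WW φ c (n + 1) d / √((n : ℝ) + 1) := by
  obtain ⟨C, hC, h⟩ := WW_pow hφ
  refine Summable.of_nonneg_of_le (fun n => div_nonneg (WW_nonneg _ _ _ _) (Real.sqrt_nonneg _)) (fun n => ?_)
    ((sp (a := -(23 / 16)) (by norm_num)).mul_left (C * (d : ℝ) ^ (15 / 32 : ℝ)))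
  have h1 := h c (n + 1) d hc (by omega) hd
  have hn : (0:ℝ) < (n : ℝ) + 1 := by positivity
  rw [div_eq_mul_inv, Real.sqrt_eq_rpow, ← Real.rpow_neg hn.le]
  calc WW φ c (n + 1) d * ((n : ℝ) + 1) ^ (-(1 / 2) : ℝ) ≤
      (C * (d : ℝ) ^ (15 / 32 : ℝ) * ((n + 1 : ℕ) : ℝ) ^ (-(15 / 16) : ℝ)) * ((n : ℝ) + 1) ^ (-(1 / 2) : ℝ) := by gcongr
    _ = C * (d : ℝ) ^ (15 / 32 : ℝ) * (((n : ℝ) + 1) ^ (-(15 / 16) : ℝ) * ((n : ℝ) + 1) ^ (-(1 / 2) : ℝ)) := by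
        push_cast
        ring
    _ = _ := by
        rw [← Real.rpow_add hn]
        norm_num

/-- the sum over the family, one shift -/
def QQ (φ : FD) (c : ℝ) (m X : ℕ) : ℝ :=
  ∑ d ∈ FF φ X, ∑' n : ℕ, jo φ d ((n + 1) * m) / √((n : ℝ) + 1) * WW φ c (n + 1) d

/-- its main term -/
def MM (φ : FD) (c : ℝ) (m X : ℕ) : ℝ :=
  ∑' n : ℕ, sqi φ ((n + 1) * m) / √((n : ℝ) + 1) * ∑ d ∈ Icc 1 X, WW φ c (n + 1) d

lemma jW_sum (hφ : Fam φ) {c : ℝ} (hc : 0 ≤ c) {d : ℕ} (hd : 1 ≤ d) (m : ℕ) :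
    Summable fun n : ℕ => jo φ d ((n + 1) * m) / √((n : ℝ) + 1) * WW φ c (n + 1) d := by
  refine Summable.of_norm_bounded (W_sum hφ hc hd) fun n => ?_
  rw [Real.norm_eq_abs, abs_mul, abs_div, abs_of_nonneg (WW_nonneg φ c (n + 1) d), abs_of_nonneg (Real.sqrt_nonneg _)]
  have h1 := jo_abs φ d ((n + 1) * m)
  have h2 := WW_nonneg φ c (n + 1) d
  calc _ ≤ 1 / √((n : ℝ) + 1) * WW φ c (n + 1) d := by gcongr
    _ = _ := by ring

lemma QQ_eq (hφ : Fam φ) {c : ℝ} (hc : 0 ≤ c) (m X : ℕ) :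
    QQ φ c m X = ∑' n : ℕ, TT φ c m (n + 1) X / √((n : ℝ) + 1) := by
  unfold QQ
  rw [← Summable.tsum_finsetSum (fun d hd => jW_sum hφ hc (mem_FF.1 hd).1.1 m)]
  refine tsum_congr fun n => ?_
  rw [TT_eq, sum_div]
  exact sum_congr rfl fun d _ => by ring

lemma TT_sum (hφ : Fam φ) {c : ℝ} (hc : 0 ≤ c) (m X : ℕ) :
    Summable fun n : ℕ => TT φ c m (n + 1) X / √((n : ℝ) + 1) := by
  refine (summable_sum (s := FF φ X) fun d hd => jW_sum hφ hc (mem_FF.1 hd).1.1 m).congr fun n => ?_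
  rw [TT_eq, sum_div]
  exact sum_congr rfl fun d _ => by ring

lemma MM_sum (hφ : Fam φ) {c : ℝ} (hc : 0 ≤ c) (m X : ℕ) :
    Summable fun n : ℕ => sqi φ ((n + 1) * m) / √((n : ℝ) + 1) * ∑ d ∈ Icc 1 X, WW φ c (n + 1) d := by
  have h1 : Summable fun n : ℕ => ∑ d ∈ Icc 1 X, WW φ c (n + 1) d / √((n : ℝ) + 1) :=
    summable_sum (s := Icc 1 X) fun d hd => W_sum hφ hc (mem_Icc.1 hd).1
  refine Summable.of_norm_bounded (h1.mul_left (φ.δ * (8 / Real.pi ^ 2))) fun n => ?_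
  have h2 : 0 ≤ ∑ d ∈ Icc 1 X, WW φ c (n + 1) d := sum_nonneg fun d _ => WW_nonneg φ c (n + 1) d
  obtain ⟨h3, h4⟩ := sqi_bd hφ ((n + 1) * m)
  rw [Real.norm_eq_abs, abs_of_nonneg (by positivity), ← sum_div]
  calc _ ≤ φ.δ * (8 / Real.pi ^ 2) / √((n : ℝ) + 1) * ∑ d ∈ Icc 1 X, WW φ c (n + 1) d := by gcongr
    _ = _ := by ring

theorem Q_M (hP : StP) (hφ : Fam φ) : ∃ K : ℝ, 0 ≤ K ∧ ∀ (c : ℝ) (m X : ℕ), 0 ≤ c → 1 ≤ m → 1 ≤ X →
    |QQ φ c m X - MM φ c m X| ≤ K * (m : ℝ) ^ (3 / 8 : ℝ) * ((X : ℝ) ^ (31 / 32 : ℝ) * (1 + Real.log X)) := by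
  obtain ⟨K, hK, h⟩ := T_bd hP hφ
  obtain ⟨C, hC, hW⟩ := WW_pow hφ
  have hs := sp (a := -(17 / 16)) (by norm_num)
  set S : ℝ := ∑' n : ℕ, ((n : ℝ) + 1) ^ (-(17 / 16) : ℝ) with hS
  have hS0 : 0 ≤ S := tsum_nonneg fun n => by positivity
  refine ⟨K * C * S, by positivity, fun c m X hc hm hX => ?_⟩
  have hXr : (1:ℝ) ≤ X := by exact_mod_cast hX
  have hX0 : (0:ℝ) < X := by linarith
  have hlX : 0 ≤ Real.log X := Real.log_nonneg hXr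
  unfold MM
  rw [QQ_eq hφ hc, ← Summable.tsum_sub (TT_sum hφ hc m X) (MM_sum hφ hc m X), ← Real.norm_eq_abs]
  set D : ℝ := K * C * (m : ℝ) ^ (3 / 8 : ℝ) * ((X : ℝ) ^ (31 / 32 : ℝ) * (1 + Real.log X)) with hD
  have h1 : HasSum (fun n : ℕ => D * ((n : ℝ) + 1) ^ (-(17 / 16) : ℝ)) (D * S) := hs.hasSum.mul_left D
  have h2 : D * S = K * C * S * (m : ℝ) ^ (3 / 8 : ℝ) * ((X : ℝ) ^ (31 / 32 : ℝ) * (1 + Real.log X)) := by
    rw [hD]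
    ring
  rw [← h2]
  refine tsum_of_norm_bounded h1 fun n => ?_
  have hn : (0:ℝ) < (n : ℝ) + 1 := by positivity
  have h3 := h c m (n + 1) X hc hm (by omega) hX
  have h4 := hW 0 (n + 1) X le_rfl (by omega) hX
  have e1 : TT φ c m (n + 1) X / √((n : ℝ) + 1) - sqi φ ((n + 1) * m) / √((n : ℝ) + 1) * ∑ d ∈ Icc 1 X, WW φ c (n + 1) d =
      (TT φ c m (n + 1) X - sqi φ ((n + 1) * m) * ∑ d ∈ Icc 1 X, WW φ c (n + 1) d) / √((n : ℝ) + 1) := by ring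
  rw [e1, norm_div, Real.norm_eq_abs, Real.norm_eq_abs, abs_of_nonneg (Real.sqrt_nonneg _)]
  have h5 : |TT φ c m (n + 1) X - sqi φ ((n + 1) * m) * ∑ d ∈ Icc 1 X, WW φ c (n + 1) d| ≤
      K * (((n : ℝ) + 1) ^ (3 / 8 : ℝ) * (m : ℝ) ^ (3 / 8 : ℝ)) * (√X * (1 + Real.log X)) *
        (C * (X : ℝ) ^ (15 / 32 : ℝ) * ((n : ℝ) + 1) ^ (-(15 / 16) : ℝ)) := by
    refine h3.trans ?_
    have e2 : (((n + 1) * m : ℕ) : ℝ) ^ (3 / 8 : ℝ) = ((n : ℝ) + 1) ^ (3 / 8 : ℝ) * (m : ℝ) ^ (3 / 8 : ℝ) := by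
      push_cast
      rw [Real.mul_rpow hn.le (Nat.cast_nonneg _)]
    rw [e2]
    push_cast at h4
    gcongr
  rw [div_eq_mul_inv, Real.sqrt_eq_rpow ((n : ℝ) + 1), ← Real.rpow_neg hn.le]
  calc _ ≤ K * (((n : ℝ) + 1) ^ (3 / 8 : ℝ) * (m : ℝ) ^ (3 / 8 : ℝ)) * (√X * (1 + Real.log X)) *
        (C * (X : ℝ) ^ (15 / 32 : ℝ) * ((n : ℝ) + 1) ^ (-(15 / 16) : ℝ)) * ((n : ℝ) + 1) ^ (-(1 / 2) : ℝ) := by gcongr
    _ = K * C * (m : ℝ) ^ (3 / 8 : ℝ) * ((√X * (X : ℝ) ^ (15 / 32 : ℝ)) * (1 + Real.log X)) *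
        (((n : ℝ) + 1) ^ (3 / 8 : ℝ) * ((n : ℝ) + 1) ^ (-(15 / 16) : ℝ) * ((n : ℝ) + 1) ^ (-(1 / 2) : ℝ)) := by ring
    _ = _ := by
      rw [Real.sqrt_eq_rpow, ← Real.rpow_add hX0, ← Real.rpow_add hn, ← Real.rpow_add hn, hD]
      norm_num

/-! ### reindexing the squares -/

lemma sq_of_mul {a n : ℕ} (ha : Squarefree a) (h : IsSquare (a * n)) : ∃ k, n = a * k ^ 2 := by
  obtain ⟨t, ht⟩ := h
  have ha0 : a ≠ 0 := ha.ne_zero
  have h1 : a ∣ t ^ 2 := ⟨n, by rw [pow_two, ← ht]⟩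
  have h2 : a ∣ t := (ha.dvd_pow_iff_dvd (by norm_num)).1 h1
  obtain ⟨s, rfl⟩ := h2
  refine ⟨s, ?_⟩
  have h3 : a * n = a * (a * s ^ 2) := by rw [ht]; ring
  exact Nat.eq_of_mul_eq_mul_left (Nat.pos_of_ne_zero ha0) h3

lemma sq_cond {m₀ m₁ n : ℕ} (h0 : Squarefree m₀) (h1 : m₁ ≠ 0) (h : IsSquare (n * (m₀ * m₁ ^ 2))) :
    ∃ k, n = m₀ * k ^ 2 := by
  apply sq_of_mul h0
  obtain ⟨t, ht⟩ := h
  have h2 : m₁ ^ 2 ∣ t ^ 2 := ⟨n * m₀, by rw [pow_two t, ← ht]; ring⟩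
  have h3 : m₁ ∣ t := (Nat.pow_dvd_pow_iff (by norm_num)).1 h2
  obtain ⟨s, rfl⟩ := h3
  refine ⟨s, ?_⟩
  have h4 : m₁ ^ 2 * (m₀ * n) = m₁ ^ 2 * (s * s) := by
    calc m₁ ^ 2 * (m₀ * n) = n * (m₀ * m₁ ^ 2) := by ring
      _ = m₁ * s * (m₁ * s) := ht
      _ = _ := by ring
  exact Nat.eq_of_mul_eq_mul_left (by positivity) h4

lemma reidx {m₀ m₁ : ℕ} (h0 : Squarefree m₀) (hm : Odd (m₀ * m₁ ^ 2)) (f : ℕ → ℝ) :
    (∑' n : ℕ, open Classical in if Odd ((n + 1) * (m₀ * m₁ ^ 2)) ∧ IsSquare ((n + 1) * (m₀ * m₁ ^ 2)) then f (n + 1) else 0) =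
      ∑' i : ℕ, f (m₀ * (2 * i + 1) ^ 2) := by
  classical
  have hm0 : 0 < m₀ := Nat.pos_of_ne_zero h0.ne_zero
  have hodd := Nat.odd_mul.1 hm
  have h1 : m₁ ≠ 0 := by
    rintro rfl
    simp at hodd
  set g : ℕ → ℕ := fun i => m₀ * (2 * i + 1) ^ 2 - 1 with hg
  have hg1 : ∀ i, g i + 1 = m₀ * (2 * i + 1) ^ 2 := by
    intro i
    have : 0 < m₀ * (2 * i + 1) ^ 2 := by positivity
    rw [hg]
    simp only
    omega
  have hinj : Function.Injective g := by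
    intro i j hij
    have h2 : m₀ * (2 * i + 1) ^ 2 = m₀ * (2 * j + 1) ^ 2 := by rw [← hg1 i, ← hg1 j, hij]
    have h3 := Nat.eq_of_mul_eq_mul_left hm0 h2
    have h4 := Nat.pow_left_injective (n := 2) (by norm_num) h3
    omega
  rw [← hinj.tsum_eq]
  · refine tsum_congr fun i => ?_
    rw [hg1, if_pos]
    constructor
    · refine Nat.odd_mul.2 ⟨Nat.odd_mul.2 ⟨hodd.1, ?_⟩, hm⟩
      exact (Nat.odd_pow_iff (by norm_num)).2 ⟨i, rfl⟩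
    · exact ⟨m₀ * m₁ * (2 * i + 1), by ring⟩
  · intro n hn
    rw [Function.mem_support] at hn
    have hn2 : Odd ((n + 1) * (m₀ * m₁ ^ 2)) ∧ IsSquare ((n + 1) * (m₀ * m₁ ^ 2)) := by
      by_contra hcon
      rw [if_neg hcon] at hn
      exact hn rfl
    obtain ⟨k, hk⟩ := sq_cond h0 h1 hn2.2
    have h5 : Odd (n + 1) := (Nat.odd_mul.1 hn2.1).1
    have h6 : Odd k := by
      rw [hk] at h5
      exact (Nat.odd_pow_iff (by norm_num)).1 (Nat.odd_mul.1 h5).2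
    obtain ⟨i, hi⟩ := h6
    refine ⟨i, ?_⟩
    have := hg1 i
    rw [← hi, ← hk] at this
    omega

lemma Psi_cut (φ : FD) : Cut (Psi φ) where
  nonneg := Psi_nonneg φ
  le := Psi_le φ
  mono := Psi_mono φ
  decay := by
    obtain ⟨C, -, h⟩ := Psi_decay φ
    exact ⟨C, h⟩
  lim := Psi_lim φ

theorem MM_eq (hB : StB) {m₀ m₁ : ℕ} (h0 : Squarefree m₀) (hm : Odd (m₀ * m₁ ^ 2)) (c : ℝ) (X : ℕ) :
    MM φ c (m₀ * m₁ ^ 2) X = φ.δ * (8 / Real.pi ^ 2) / √(m₀ : ℝ) *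
      ∑ d ∈ Icc 1 X, Hm (Psi φ) (m₀ * m₁ ^ 2) (Real.log ((φ.r : ℝ) * d) / 2 - c - Real.log m₀) := by
  classical
  have hm0 : 0 < m₀ := Nat.pos_of_ne_zero h0.ne_zero
  have hm0' : (0:ℝ) < m₀ := by exact_mod_cast hm0
  have hodd := Nat.odd_mul.1 hm
  have h1 : m₁ ≠ 0 := by
    rintro rfl
    simp at hodd
  set m := m₀ * m₁ ^ 2 with hmdef
  set G : ℕ → ℝ := fun N : ℕ => φ.δ * (8 / Real.pi ^ 2) * gg (N * m) / √(N : ℝ) * ∑ d ∈ Icc 1 X, WW φ c N d with hG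
  have e1 : MM φ c m X = ∑' n : ℕ, if Odd ((n + 1) * (m₀ * m₁ ^ 2)) ∧ IsSquare ((n + 1) * (m₀ * m₁ ^ 2)) then
      G (n + 1) else 0 := by
    unfold MM
    refine tsum_congr fun n => ?_
    unfold sqi
    rw [← hmdef, hG]
    split_ifs
    · simp only
      push_cast
      rfl
    · ring
  rw [e1, reidx h0 hm G, mul_sum]
  obtain ⟨hs, -, -⟩ := hB (Psi φ) (Psi_cut φ)
  have e2 : ∀ i : ℕ, G (m₀ * (2 * i + 1) ^ 2) = ∑ d ∈ Icc 1 X, φ.δ * (8 / Real.pi ^ 2) / √(m₀ : ℝ) *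
        (gg (m * (2 * i + 1)) / (2 * i + 1 : ℝ) *
          Psi φ ((Real.log ((φ.r : ℝ) * d) / 2 - c - Real.log m₀) - 2 * Real.log (2 * i + 1 : ℝ))) := by
    intro i
    have hi : (0:ℝ) < 2 * (i:ℝ) + 1 := by positivity
    have g1 : gg (m₀ * (2 * i + 1) ^ 2 * m) = gg (m * (2 * i + 1)) := by
      have hk : (2 * i + 1) ≠ 0 := by omega
      have hm1 : m₁ ^ 2 ≠ 0 := pow_ne_zero 2 h1
      have hk2 : (2 * i + 1) ^ 2 ≠ 0 := pow_ne_zero 2 hk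
      have hmm : m ≠ 0 := Nat.mul_ne_zero hm0.ne' hm1
      have e3 : m.primeFactors = m₀.primeFactors ∪ m₁.primeFactors := by
        rw [hmdef, Nat.primeFactors_mul hm0.ne' hm1, Nat.primeFactors_pow _ (by norm_num)]
      unfold gg
      congr 1
      rw [Nat.primeFactors_mul (Nat.mul_ne_zero hm0.ne' hk2) hmm, Nat.primeFactors_mul hm0.ne' hk2,
        Nat.primeFactors_pow _ (by norm_num), Nat.primeFactors_mul hmm hk, e3]
      ext p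
      simp only [mem_union]
      tauto
    have g2 : √(((m₀ * (2 * i + 1) ^ 2 : ℕ) : ℝ)) = √(m₀ : ℝ) * (2 * i + 1) := by
      push_cast
      rw [Real.sqrt_mul hm0'.le, Real.sqrt_sq hi.le]
    have g3 : Real.log (((m₀ * (2 * i + 1) ^ 2 : ℕ) : ℝ)) = Real.log m₀ + 2 * Real.log (2 * i + 1) := by
      push_cast
      rw [Real.log_mul hm0'.ne' (by positivity), Real.log_pow]
      push_cast
      ring
    rw [hG]
    simp only
    rw [g1, g2, mul_sum]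
    refine sum_congr rfl fun d _ => ?_
    unfold WW
    rw [g3, show Real.log ((φ.r : ℝ) * d) / 2 - c - (Real.log m₀ + 2 * Real.log (2 * i + 1)) =
      (Real.log ((φ.r : ℝ) * d) / 2 - c - Real.log m₀) - 2 * Real.log (2 * i + 1) by ring]
    have := Real.sqrt_pos.2 hm0'
    field_simp
  rw [tsum_congr e2, Summable.tsum_finsetSum (fun d _ => (hs m _).mul_left _)]
  refine sum_congr rfl fun d _ => ?_
  rw [tsum_mul_left]
  rfl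

end

end Pool.Agent.K4H95.LQ
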