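import Pool.Agent.K4H95.LQ.Spec5

/-!
# The first moment near the centre: comparison with the main term
-/

set_option autoImplicit false

namespace Pool.Agent.K4H95.LQ

open Finset Filter Topology MeasureTheory Pool.Agent.H306R2.RG Pool.Agent.H306R2.RZ

noncomputable section

namespace R4p

lemma c1_bd {α : ℝ} {C C1 : ℝ → ℝ} (h : Os α C C1) (hα : α ≤ 1 / 4) {τ : ℝ} (hτ : 0 ≤ τ) :
    |C1 τ| ≤ Real.exp (τ / 4) := by
  have h1 := h.bd1 τ hτ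
  have h2 : Real.sinh (α * τ) ≤ Real.exp (α * τ) := by
    rw [Real.sinh_eq]
    have := Real.exp_pos (-(α * τ))
    have := Real.exp_pos (α * τ)
    linarith
  have h3 : Real.exp (α * τ) ≤ Real.exp (τ / 4) := Real.exp_le_exp.2 (by nlinarith)
  have h4 : 0 ≤ Real.sinh (α * τ) := Real.sinh_nonneg_iff.2 (mul_nonneg h.nonneg hτ)
  have h5 : α * Real.sinh (α * τ) ≤ 1 * Real.sinh (α * τ) := mul_le_mul_of_nonneg_right (by linarith) h4
  linarith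

lemma exI {b : ℝ} (hb : 0 < b) : IntegrableOn (fun τ : ℝ => Real.exp (-b * τ)) (Set.Ioi 0) ∧
    ∫ τ in Set.Ioi (0 : ℝ), Real.exp (-b * τ) = 1 / b := by
  refine ⟨integrableOn_exp_mul_Ioi (by linarith) 0, ?_⟩
  rw [integral_exp_mul_Ioi (by linarith) 0]
  simp [neg_div_neg_eq]

lemma core {α A₀ E H X : ℝ} {C C1 D : ℝ → ℝ} (h : Os α C C1) (hα : α ≤ 1 / 4) (hX : 1 ≤ X)
    (hA : α * Real.log X ≤ A₀) (hE : 0 ≤ E) (hH : 0 ≤ H) (h1 : ∀ τ, 0 ≤ τ → |D τ| ≤ E)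
    (h2 : ∀ τ, 0 ≤ τ → |D τ| ≤ H * X ^ 2 * Real.exp (-2 * τ)) :
    |∫ τ in Set.Ioi (0 : ℝ), D τ * C1 τ| ≤ 2 * A₀ * Real.sinh (2 * A₀) * E + 4 / 3 * H := by
  obtain ⟨T, hT⟩ : ∃ T, T = 2 * Real.log X := ⟨_, rfl⟩
  have hl : 0 ≤ Real.log X := Real.log_nonneg hX
  have hT0 : 0 ≤ T := by rw [hT]; positivity
  have hA0 : 0 ≤ A₀ := (mul_nonneg h.nonneg hl).trans hA
  have hs : 0 ≤ Real.sinh (2 * A₀) := Real.sinh_nonneg_iff.2 (by positivity)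
  obtain ⟨a, ha⟩ : ∃ a, a = E * (α * Real.sinh (2 * A₀)) := ⟨_, rfl⟩
  have ha0 : 0 ≤ a := by rw [ha]; have := h.nonneg; positivity
  have hex := exI (b := 3 / 4) (by norm_num)
  have hi1 : IntegrableOn (fun τ => (Set.Ioc (0 : ℝ) T).indicator (fun _ => a) τ) (Set.Ioi 0) := by
    refine Integrable.integrableOn ?_
    rw [integrable_indicator_iff measurableSet_Ioc]
    exact integrableOn_const (by simp)
  have hi2 : IntegrableOn (fun τ : ℝ => H * Real.exp (-(3 / 4) * τ)) (Set.Ioi 0) := hex.1.const_mul H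
  have hb : ∀ᵐ τ ∂(volume.restrict (Set.Ioi (0 : ℝ))), ‖D τ * C1 τ‖ ≤
      (Set.Ioc (0 : ℝ) T).indicator (fun _ => a) τ + H * Real.exp (-(3 / 4) * τ) := by
    filter_upwards [ae_restrict_mem measurableSet_Ioi] with τ hτ
    have hτ0 : (0 : ℝ) < τ := hτ
    rw [norm_mul, Real.norm_eq_abs, Real.norm_eq_abs]
    by_cases hτT : τ ≤ T
    · rw [Set.indicator_of_mem (show τ ∈ Set.Ioc 0 T from ⟨hτ0, hτT⟩)]
      have h3 := h.bd1 τ hτ0.le
      have h4 : Real.sinh (α * τ) ≤ Real.sinh (2 * A₀) := by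
        refine Real.sinh_le_sinh.2 ?_
        have : α * τ ≤ α * T := mul_le_mul_of_nonneg_left hτT h.nonneg
        rw [hT] at this
        linarith
      have h5 : |D τ| * |C1 τ| ≤ E * (α * Real.sinh (2 * A₀)) := by
        refine mul_le_mul (h1 τ hτ0.le) (h3.trans (mul_le_mul_of_nonneg_left h4 h.nonneg)) (abs_nonneg _) hE
      have h6 : 0 ≤ H * Real.exp (-(3 / 4) * τ) := by positivity
      rw [ha]
      linarith
    · rw [Set.indicator_of_notMem (fun hh => hτT hh.2), zero_add]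
      push Not at hτT
      have h3 := c1_bd h hα hτ0.le
      have h4 : X ^ 2 ≤ Real.exp τ := by
        have h5 : X ^ 2 = Real.exp (2 * Real.log X) := by
          rw [two_mul, Real.exp_add, Real.exp_log (by linarith), sq]
        rw [h5]
        exact Real.exp_le_exp.2 (by rw [← hT]; exact hτT.le)
      calc |D τ| * |C1 τ| ≤ (H * X ^ 2 * Real.exp (-2 * τ)) * Real.exp (τ / 4) :=
            mul_le_mul (h2 τ hτ0.le) h3 (abs_nonneg _) (by positivity)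
        _ ≤ (H * Real.exp τ * Real.exp (-2 * τ)) * Real.exp (τ / 4) := by gcongr
        _ = H * (Real.exp τ * Real.exp (-2 * τ) * Real.exp (τ / 4)) := by ring
        _ = _ := by
          rw [← Real.exp_add, ← Real.exp_add]
          congr 2
          ring
  rw [← Real.norm_eq_abs]
  refine (norm_integral_le_of_norm_le (hi1.add hi2) hb).trans ?_
  have e1 : ∫ τ in Set.Ioi (0 : ℝ), ((Set.Ioc (0 : ℝ) T).indicator (fun _ => a) τ + H * Real.exp (-(3 / 4) * τ)) =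
      T * a + H * (4 / 3) := by
    rw [integral_add hi1 hi2, integral_const_mul, hex.2, integral_indicator measurableSet_Ioc,
      Measure.restrict_restrict measurableSet_Ioc, setIntegral_const]
    have e2 : Set.Ioc (0 : ℝ) T ∩ Set.Ioi 0 = Set.Ioc 0 T := Set.inter_eq_left.2 fun x hx => hx.1
    rw [e2, Real.volume_real_Ioc_of_le hT0, smul_eq_mul]
    norm_num
  change ∫ τ in Set.Ioi (0 : ℝ), ((Set.Ioc (0 : ℝ) T).indicator (fun _ => a) τ + H * Real.exp (-(3 / 4) * τ)) ≤ _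
  rw [e1]
  have e3 : T * a ≤ 2 * A₀ * Real.sinh (2 * A₀) * E := by
    rw [hT, ha]
    have : α * Real.log X * (2 * Real.sinh (2 * A₀) * E) ≤ A₀ * (2 * Real.sinh (2 * A₀) * E) :=
      mul_le_mul_of_nonneg_right hA (by positivity)
    nlinarith
  linarith

lemma intg {α B : ℝ} {C C1 f : ℝ → ℝ} (h : Os α C C1) (hα : α ≤ 1 / 4) (hf : Measurable f)
    (hb : ∀ τ, 0 ≤ τ → |f τ| ≤ B * Real.exp (-2 * τ)) :
    IntegrableOn (fun τ => f τ * C1 τ) (Set.Ioi 0) ∧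
      ∫ τ in Set.Ioi (0 : ℝ), ‖f τ * C1 τ‖ ≤ B * (4 / 7) := by
  have hex := exI (b := 7 / 4) (by norm_num)
  have hm : AEStronglyMeasurable (fun τ => f τ * C1 τ) (volume.restrict (Set.Ioi 0)) :=
    (hf.mul h.cont.measurable).aestronglyMeasurable
  have hb' : ∀ τ : ℝ, 0 ≤ τ → ‖f τ * C1 τ‖ ≤ B * Real.exp (-(7 / 4) * τ) := by
    intro τ hτ
    rw [norm_mul, Real.norm_eq_abs, Real.norm_eq_abs]
    have h1 := hb τ hτ
    have h2 := c1_bd h hα hτ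
    calc |f τ| * |C1 τ| ≤ (B * Real.exp (-2 * τ)) * Real.exp (τ / 4) :=
          mul_le_mul h1 h2 (abs_nonneg _) ((abs_nonneg _).trans h1)
      _ = B * (Real.exp (-2 * τ) * Real.exp (τ / 4)) := by ring
      _ = _ := by
        rw [← Real.exp_add]
        congr 2
        ring
  have hi : IntegrableOn (fun τ => f τ * C1 τ) (Set.Ioi 0) := by
    refine Integrable.mono' (hex.1.const_mul B) hm ?_
    filter_upwards [ae_restrict_mem measurableSet_Ioi] with τ hτ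
    exact hb' τ (le_of_lt hτ)
  refine ⟨hi, ?_⟩
  calc ∫ τ in Set.Ioi (0 : ℝ), ‖f τ * C1 τ‖ ≤ ∫ τ in Set.Ioi (0 : ℝ), B * Real.exp (-(7 / 4) * τ) := by
        refine setIntegral_mono_on hi.norm (hex.1.const_mul B) measurableSet_Ioi fun τ hτ => hb' τ (le_of_lt hτ)
    _ = _ := by
      rw [integral_const_mul, hex.2]
      norm_num

lemma JJ_sum {α B : ℝ} {C C1 F : ℝ → ℝ} (h : Os α C C1) (hα : α ≤ 1 / 4) (hF : Measurable F)
    (hb : ∀ z, |F z| ≤ B * Real.exp (2 * z)) (s : Finset ℕ) (z : ℕ → ℝ) (c : ℝ) :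
    ∑ d ∈ s, JJ F C1 (z d - c) = 2 * ∑ d ∈ s, F (z d - c) +
      2 * ∫ τ in Set.Ioi (0 : ℝ), (∑ d ∈ s, F (z d - (τ + c))) * C1 τ := by
  unfold JJ
  rw [sum_add_distrib, ← mul_sum, ← mul_sum]
  congr 2
  have h1 : ∀ d, IntegrableOn (fun τ => F (z d - (τ + c)) * C1 τ) (Set.Ioi 0) := fun d => by
    refine (intg (B := B * Real.exp (2 * (z d - c))) h hα (hF.comp (by fun_prop)) fun τ _ => ?_).1
    refine (hb _).trans_eq ?_
    rw [mul_assoc, ← Real.exp_add]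
    congr 2
    ring
  have h2 : ∀ τ : ℝ, (∑ d ∈ s, F (z d - (τ + c))) * C1 τ = ∑ d ∈ s, F (z d - (τ + c)) * C1 τ := fun τ => sum_mul _ _ _
  simp_rw [h2]
  rw [integral_finsetSum _ fun d _ => h1 d]
  refine sum_congr rfl fun d _ => ?_
  refine setIntegral_congr_fun measurableSet_Ioi fun τ _ => ?_
  have e : z d - (τ + c) = z d - c - τ := by ring
  simp only [e]

lemma exch {α B q ℓ : ℝ} {C C1 G : ℝ → ℝ} (h : Os α C C1) (hα : α ≤ 1 / 4) (hG : Measurable G) (hB : 0 ≤ B)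
    (hb : ∀ c, |G c| ≤ B * Real.exp (-2 * c)) (hq : |q| ≤ 3 / 4) (hℓ : 0 ≤ ℓ) :
    (∀ τ, Summable fun j : ℕ => q ^ j * G (τ + j * ℓ)) ∧
    (∀ τ, |∑' j : ℕ, q ^ j * G (τ + j * ℓ)| ≤ 4 * B * Real.exp (-2 * τ)) ∧
    IntegrableOn (fun τ => (∑' j : ℕ, q ^ j * G (τ + j * ℓ)) * C1 τ) (Set.Ioi 0) ∧
    HasSum (fun j : ℕ => q ^ j * ∫ τ in Set.Ioi (0 : ℝ), G (τ + j * ℓ) * C1 τ)
      (∫ τ in Set.Ioi (0 : ℝ), (∑' j : ℕ, q ^ j * G (τ + j * ℓ)) * C1 τ) := by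
  have hgeo : HasSum (fun j : ℕ => (3 / 4 : ℝ) ^ j) 4 := by
    have := hasSum_geometric_of_lt_one (r := (3 / 4 : ℝ)) (by norm_num) (by norm_num)
    norm_num at this
    exact this
  have hp : ∀ (τ : ℝ) (j : ℕ), ‖q ^ j * G (τ + j * ℓ)‖ ≤ (B * Real.exp (-2 * τ)) * (3 / 4) ^ j := by
    intro τ j
    rw [norm_mul, norm_pow, Real.norm_eq_abs, Real.norm_eq_abs, mul_comm]
    have h1 : |G (τ + j * ℓ)| ≤ B * Real.exp (-2 * τ) := by
      refine (hb _).trans (mul_le_mul_of_nonneg_left (Real.exp_le_exp.2 ?_) hB)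
      have : 0 ≤ (j : ℝ) * ℓ := by positivity
      linarith
    exact mul_le_mul h1 (pow_le_pow_left₀ (abs_nonneg _) hq j) (by positivity) ((abs_nonneg _).trans h1)
  have hs : ∀ τ, Summable fun j : ℕ => q ^ j * G (τ + j * ℓ) := fun τ =>
    Summable.of_norm_bounded (hgeo.summable.mul_left _) (hp τ)
  have hbd : ∀ τ, |∑' j : ℕ, q ^ j * G (τ + j * ℓ)| ≤ 4 * B * Real.exp (-2 * τ) := by
    intro τ
    have := tsum_of_norm_bounded (hgeo.mul_left (B * Real.exp (-2 * τ))) (hp τ)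
    rw [Real.norm_eq_abs] at this
    linarith
  have hmj : ∀ j : ℕ, Measurable fun τ : ℝ => q ^ j * G (τ + j * ℓ) := fun j =>
    (hG.comp (by fun_prop)).const_mul _
  have hm : Measurable fun τ : ℝ => ∑' j : ℕ, q ^ j * G (τ + j * ℓ) := by
    refine measurable_of_tendsto_metrizable (f := fun (n : ℕ) (τ : ℝ) => ∑ j ∈ range n, q ^ j * G (τ + j * ℓ))
      (fun n => Finset.measurable_sum _ fun j _ => hmj j) ?_
    rw [tendsto_pi_nhds]
    intro τ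
    exact (hs τ).hasSum.tendsto_sum_nat
  refine ⟨hs, hbd, (intg h hα hm fun τ _ => hbd τ).1, ?_⟩
  have hij : ∀ j : ℕ, IntegrableOn (fun τ => q ^ j * G (τ + j * ℓ) * C1 τ) (Set.Ioi 0) ∧
      ∫ τ in Set.Ioi (0 : ℝ), ‖q ^ j * G (τ + j * ℓ) * C1 τ‖ ≤ (B * (3 / 4) ^ j) * (4 / 7) := fun j =>
    intg h hα (hmj j) fun τ _ => by
      have := hp τ j
      rw [Real.norm_eq_abs] at this
      linarith
  have h1 := hasSum_integral_of_summable_integral_norm (fun j => (hij j).1)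
    (Summable.of_nonneg_of_le (fun j => integral_nonneg fun τ => norm_nonneg _) (fun j => (hij j).2)
      ((hgeo.summable.mul_left B).mul_right (4 / 7)))
  have e1 : ∀ j : ℕ, ∫ τ in Set.Ioi (0 : ℝ), q ^ j * G (τ + j * ℓ) * C1 τ =
      q ^ j * ∫ τ in Set.Ioi (0 : ℝ), G (τ + j * ℓ) * C1 τ := fun j => by
    rw [← integral_const_mul]
    congr 1
    funext τ
    ring
  simp_rw [e1, tsum_mul_right] at h1
  exact h1


variable {φ : FD}

lemma exp_eq (hφ : Fam φ) {d : ℕ} (hd : 1 ≤ d) (c : ℝ) :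
    Real.exp (2 * (Real.log ((φ.r : ℝ) * d) / 2 - c)) = (φ.r : ℝ) * d * Real.exp (-2 * c) := by
  have hr := r_pos hφ
  have hd0 : (0 : ℝ) < d := by exact_mod_cast hd
  have e : 2 * (Real.log ((φ.r : ℝ) * d) / 2 - c) = Real.log ((φ.r : ℝ) * d) + -2 * c := by ring
  rw [e, Real.exp_add, Real.exp_log (mul_pos hr hd0)]

lemma inner_bd (hφ : Fam φ) : ∃ K : ℝ, 0 ≤ K ∧ ∀ d : ℕ, 1 ≤ d → ∀ c : ℝ,
    |∑' n : ℕ, jo φ d (n + 1) / √((n : ℝ) + 1) * WW φ c (n + 1) d| ≤ K * d * Real.exp (-2 * c) := by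
  obtain ⟨C, hC, hP⟩ := Psi_decay φ
  have hs := sp (a := -(5 / 2)) (by norm_num)
  have hr := r_pos hφ
  have hT0 : 0 ≤ ∑' n : ℕ, ((n : ℝ) + 1) ^ (-(5 / 2) : ℝ) := tsum_nonneg fun n => by positivity
  refine ⟨C * φ.r * ∑' n : ℕ, ((n : ℝ) + 1) ^ (-(5 / 2) : ℝ), by positivity, fun d hd c => ?_⟩
  have hd0 : (0 : ℝ) < d := by exact_mod_cast hd
  have h1 : HasSum (fun n : ℕ => C * φ.r * d * Real.exp (-2 * c) * ((n : ℝ) + 1) ^ (-(5 / 2) : ℝ))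
      (C * φ.r * d * Real.exp (-2 * c) * ∑' n : ℕ, ((n : ℝ) + 1) ^ (-(5 / 2) : ℝ)) := hs.hasSum.mul_left _
  have e1 : C * φ.r * (∑' n : ℕ, ((n : ℝ) + 1) ^ (-(5 / 2) : ℝ)) * d * Real.exp (-2 * c) =
      C * φ.r * d * Real.exp (-2 * c) * ∑' n : ℕ, ((n : ℝ) + 1) ^ (-(5 / 2) : ℝ) := by ring
  rw [e1, ← Real.norm_eq_abs]
  refine tsum_of_norm_bounded h1 fun n => ?_
  have hn : (0 : ℝ) < (n : ℝ) + 1 := by positivity
  have h2 := WW_nonneg φ c (n + 1) d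
  have h3 := jo_abs φ d (n + 1)
  have h4 : WW φ c (n + 1) d ≤ C * (φ.r * d * Real.exp (-2 * c) * ((n : ℝ) + 1) ^ (-2 : ℝ)) := by
    rw [CW]
    refine (hP _).trans (mul_le_mul_of_nonneg_left (le_of_eq ?_) hC.le)
    have e2 : 2 * (Real.log ((φ.r : ℝ) * d) / 2 - c - Real.log ((n : ℝ) + 1)) =
        2 * (Real.log ((φ.r : ℝ) * d) / 2 - c) + Real.log ((n : ℝ) + 1) * (-2) := by ring
    rw [e2, Real.exp_add, exp_eq hφ hd, Real.rpow_def_of_pos hn]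
  rw [Real.norm_eq_abs, abs_mul, abs_div, abs_of_nonneg h2, abs_of_nonneg (Real.sqrt_nonneg _)]
  calc |jo φ d (n + 1)| / √((n : ℝ) + 1) * WW φ c (n + 1) d ≤
        1 / √((n : ℝ) + 1) * (C * (φ.r * d * Real.exp (-2 * c) * ((n : ℝ) + 1) ^ (-2 : ℝ))) := by gcongr
    _ = C * φ.r * d * Real.exp (-2 * c) * (((n : ℝ) + 1) ^ (-2 : ℝ) * ((n : ℝ) + 1) ^ (-(1 / 2) : ℝ)) := by
        rw [one_div, Real.sqrt_eq_rpow, ← Real.rpow_neg hn.le]
        ring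
    _ = _ := by
        rw [← Real.rpow_add hn]
        norm_num

lemma term_bd (hφ : Fam φ) {K : ℝ} (hK : 0 ≤ K) (h : ∀ d : ℕ, 1 ≤ d → ∀ c : ℝ,
    |∑' n : ℕ, jo φ d (n + 1) / √((n : ℝ) + 1) * WW φ c (n + 1) d| ≤ K * d * Real.exp (-2 * c)) {d : ℕ} (hd : 1 ≤ d)
    (τ : ℝ) (j : ℕ) : ‖(φ.η / √2) ^ j * ∑' n : ℕ, jo φ d (n + 1) / √((n : ℝ) + 1) *
      WW φ (τ + j * Real.log 2) (n + 1) d‖ ≤ (K * d * Real.exp (-2 * τ)) * (1 / √(2:ℝ)) ^ j := by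
  rw [norm_mul, Real.norm_eq_abs, Real.norm_eq_abs, mul_comm]
  have h1 : |∑' n : ℕ, jo φ d (n + 1) / √((n : ℝ) + 1) * WW φ (τ + j * Real.log 2) (n + 1) d| ≤
      K * d * Real.exp (-2 * τ) := by
    refine (h d hd _).trans (mul_le_mul_of_nonneg_left (Real.exp_le_exp.2 ?_) (by positivity))
    have : 0 ≤ (j : ℝ) * Real.log 2 := by positivity
    linarith
  exact mul_le_mul h1 (eta_pow hφ j) (abs_nonneg _) (by positivity)

/-- the sum over the family, as a function of the cut-off -/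
def Qs (φ : FD) (S : Finset ℕ) (a : ℕ → ℝ) (X : ℕ) (τ : ℝ) : ℝ := ∑ d ∈ FF φ X, ind φ S a d * Sd φ d τ

lemma Sd_sum (hφ : Fam φ) {d : ℕ} (hd : 1 ≤ d) (τ : ℝ) : Summable fun j : ℕ => (φ.η / √2) ^ j *
    ∑' n : ℕ, jo φ d (n + 1) / √((n : ℝ) + 1) * WW φ (τ + j * Real.log 2) (n + 1) d := by
  obtain ⟨K, hK, h⟩ := inner_bd hφ
  exact Summable.of_norm_bounded (geo.summable.mul_left _) (term_bd hφ hK h hd τ)

lemma Sd_bd (hφ : Fam φ) {K : ℝ} (hK : 0 ≤ K) (h : ∀ d : ℕ, 1 ≤ d → ∀ c : ℝ,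
    |∑' n : ℕ, jo φ d (n + 1) / √((n : ℝ) + 1) * WW φ c (n + 1) d| ≤ K * d * Real.exp (-2 * c)) {d : ℕ} (hd : 1 ≤ d)
    (τ : ℝ) : |Sd φ d τ| ≤ 4 * K * d * Real.exp (-2 * τ) := by
  have h1 := tsum_of_norm_bounded (geo.mul_left _) (term_bd hφ hK h hd τ)
  rw [Real.norm_eq_abs] at h1
  have h2 := mul_le_mul_of_nonneg_left q_facts.2.2 (show 0 ≤ K * d * Real.exp (-2 * τ) by positivity)
  unfold Sd
  linarith

lemma Qs_bd (hφ : Fam φ) {K : ℝ} (hK : 0 ≤ K) (h : ∀ d : ℕ, 1 ≤ d → ∀ c : ℝ,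
    |∑' n : ℕ, jo φ d (n + 1) / √((n : ℝ) + 1) * WW φ c (n + 1) d| ≤ K * d * Real.exp (-2 * c))
    (S : Finset ℕ) (a : ℕ → ℝ) (X : ℕ) (τ : ℝ) : |Qs φ S a X τ| ≤ 4 * K * (X : ℝ) ^ 2 * Real.exp (-2 * τ) := by
  unfold Qs
  refine (abs_sum_le_sum_abs _ _).trans ?_
  have h1 : ∀ d ∈ FF φ X, |ind φ S a d * Sd φ d τ| ≤ 4 * K * X * Real.exp (-2 * τ) := by
    intro d hd
    obtain ⟨⟨h2, h3⟩, -⟩ := mem_FF.1 hd
    rw [abs_mul]
    have h4 := Sd_bd hφ hK h h2 τ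
    have h5 := ind_abs φ S a d
    have h6 : (d : ℝ) ≤ X := by exact_mod_cast h3
    calc |ind φ S a d| * |Sd φ d τ| ≤ 1 * (4 * K * d * Real.exp (-2 * τ)) :=
          mul_le_mul h5 h4 (abs_nonneg _) zero_le_one
      _ ≤ 1 * (4 * K * X * Real.exp (-2 * τ)) := by gcongr
      _ = _ := one_mul _
  refine (sum_le_sum h1).trans ?_
  rw [sum_const, nsmul_eq_mul]
  have h2 : ((FF φ X).card : ℝ) ≤ X := by
    have := card_le_card (FF_sub φ X)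
    rw [Nat.card_Icc, Nat.add_sub_cancel] at this
    exact_mod_cast this
  calc ((FF φ X).card : ℝ) * (4 * K * X * Real.exp (-2 * τ)) ≤ X * (4 * K * X * Real.exp (-2 * τ)) := by gcongr
    _ = _ := by ring

lemma Qs_eq (hφ : Fam φ) (S : Finset ℕ) (a : ℕ → ℝ) (X : ℕ) (τ : ℝ) :
    HasSum (fun j : ℕ => (φ.η / √2) ^ j * QI φ S a (τ + j * Real.log 2) X) (Qs φ S a X τ) := by
  have h1 : ∀ j : ℕ, (φ.η / √2) ^ j * QI φ S a (τ + j * Real.log 2) X = ∑ d ∈ FF φ X, ind φ S a d *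
      ((φ.η / √2) ^ j * ∑' n : ℕ, jo φ d (n + 1) / √((n : ℝ) + 1) * WW φ (τ + j * Real.log 2) (n + 1) d) := fun j => by
    unfold QI
    rw [mul_sum]
    exact sum_congr rfl fun d _ => by ring
  simp_rw [h1]
  unfold Qs
  refine hasSum_sum fun d hd => ?_
  have h2 := (Sd_sum hφ (mem_FF.1 hd).1.1 τ).hasSum.mul_left (ind φ S a d)
  unfold Sd
  exact h2

end R4p

open R4p

theorem r4 : StR4 := by
  intro h2 h3 hb2 hz1 hz2 φ hφ A₀ hA₀
  obtain ⟨K₁, hK₁, hQM⟩ := QI_MI h2 h3 hφ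
  obtain ⟨B, hB, hF⟩ := hb2 h3 φ
  obtain ⟨K₂, hK₂, hin⟩ := inner_bd hφ
  obtain ⟨D₀, hD₀⟩ : ∃ D₀, D₀ = φ.δ * (8 / Real.pi ^ 2) := ⟨_, rfl⟩
  have hD0 : 0 ≤ D₀ := by rw [hD₀]; have := delta_nonneg hφ; positivity
  have hr := r_pos hφ
  have hsh : 0 ≤ Real.sinh (2 * A₀) := Real.sinh_nonneg_iff.2 (by positivity)
  obtain ⟨H, hH⟩ : ∃ H, H = 4 * K₂ + D₀ * (4 * (B * φ.r)) := ⟨_, rfl⟩
  have hH0 : 0 ≤ H := by rw [hH]; positivity
  refine ⟨8 * K₁ + 16 * A₀ * Real.sinh (2 * A₀) * K₁ + 8 / 3 * H, by positivity, ?_⟩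
  intro S a hS ha X α A C C1 hX hO hα hA hk
  obtain ⟨hFm, hFb⟩ := hF S a hS ha
  have hX1 : (1 : ℝ) ≤ X := by exact_mod_cast (by omega : 1 ≤ X)
  have hlX : 0 ≤ Real.log X := Real.log_nonneg hX1
  have hES : 1 ≤ ES S := by
    unfold ES
    have h4 : (1 : ℝ) ≤ 2 ^ S.card := one_le_pow₀ (by norm_num)
    have h5 : (1 : ℝ) ≤ ((∏ p ∈ S, p ^ 2 : ℕ) : ℝ) := by
      have : 0 < ∏ p ∈ S, p ^ 2 := prod_pos fun p hp => pow_pos (hS p hp).1.pos 2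
      exact_mod_cast this
    have h6 : (1 : ℝ) ≤ ((∏ p ∈ S, p ^ 2 : ℕ) : ℝ) ^ (3 / 8 : ℝ) := Real.one_le_rpow h5 (by norm_num)
    exact one_le_mul_of_one_le_of_one_le h4 h6
  have hq : |φ.η / √2| ≤ 3 / 4 := by
    refine (eta_q hφ).trans ?_
    have h4 : (4 / 3 : ℝ) ≤ √2 := by
      apply Real.le_sqrt_of_sq_le
      norm_num
    rw [div_le_div_iff₀ (by positivity) (by norm_num)]
    linarith
  have hl2 : 0 ≤ Real.log 2 := Real.log_nonneg (by norm_num)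
  -- the function of the main term
  obtain ⟨F, hFd⟩ : ∃ F : ℝ → ℝ, F = CS (Psi φ) S a := ⟨_, rfl⟩
  rw [← hFd] at hFm hFb
  obtain ⟨G, hG⟩ : ∃ G : ℝ → ℝ, G = fun c => ∑ d ∈ Icc 1 X, F (Real.log ((φ.r : ℝ) * d) / 2 - c) := ⟨_, rfl⟩
  have hGm : Measurable G := by
    rw [hG]
    exact Finset.measurable_sum _ fun d _ => hFm.comp (by fun_prop)
  have hGb : ∀ c, |G c| ≤ (B * φ.r * (X : ℝ) ^ 2) * Real.exp (-2 * c) := by
    intro c
    rw [hG]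
    refine (abs_sum_le_sum_abs _ _).trans ?_
    have h4 : ∀ d ∈ Icc 1 X, |F (Real.log ((φ.r : ℝ) * d) / 2 - c)| ≤ B * (φ.r * X * Real.exp (-2 * c)) := by
      intro d hd
      obtain ⟨h5, h6⟩ := mem_Icc.1 hd
      refine (hFb _).trans ?_
      rw [exp_eq hφ h5]
      have h7 : (d : ℝ) ≤ X := by exact_mod_cast h6
      gcongr
    refine (sum_le_sum h4).trans_eq ?_
    rw [sum_const, Nat.card_Icc, Nat.add_sub_cancel, nsmul_eq_mul]
    ring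
  have hMI : ∀ c, MI φ S a c X = D₀ * G c := fun c => by
    rw [hD₀, hG, hFd]
    rfl
  obtain ⟨hs1, hs2, hs3, hs4⟩ := exch hO hα hGm (by positivity) hGb hq hl2
  -- the main term
  have e1 : ∑' j : ℕ, (φ.η / √2) ^ j * ∑ d ∈ Icc 1 X, JJ F C1 (Real.log ((φ.r : ℝ) * d) / 2 - j * Real.log 2) =
      2 * (∑' j : ℕ, (φ.η / √2) ^ j * G (0 + j * Real.log 2)) +
      2 * ∫ τ in Set.Ioi (0 : ℝ), (∑' j : ℕ, (φ.η / √2) ^ j * G (τ + j * Real.log 2)) * C1 τ := by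
    have h4 : ∀ j : ℕ, (φ.η / √2) ^ j * ∑ d ∈ Icc 1 X, JJ F C1 (Real.log ((φ.r : ℝ) * d) / 2 - j * Real.log 2) =
        2 * ((φ.η / √2) ^ j * G (0 + j * Real.log 2)) +
        2 * ((φ.η / √2) ^ j * ∫ τ in Set.Ioi (0 : ℝ), G (τ + j * Real.log 2) * C1 τ) := by
      intro j
      rw [JJ_sum hO hα hFm hFb (Icc 1 X) (fun d => Real.log ((φ.r : ℝ) * d) / 2) (j * Real.log 2), hG]
      simp only [zero_add]
      ring
    rw [tsum_congr h4]
    exact (((hs1 0).hasSum.mul_left 2).add (hs4.mul_left 2)).tsum_eq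
  -- the sum over the family
  have hSi : ∀ d ∈ FF φ X, IntegrableOn (fun τ : ℝ => Sd φ d τ * C1 τ) (Set.Ioi 0) ∧
      A * Lc φ d C = 2 * Sd φ d 0 + 2 * ∫ τ in Set.Ioi (0 : ℝ), Sd φ d τ * C1 τ := by
    intro d hd
    obtain ⟨-, h4, h5⟩ := mem_FF.1 hd
    exact hz2 hz1 φ hφ d h4 h5 α A C C1 hO hα hk
  have e3 : ∀ τ, Qs φ S a X τ * C1 τ = ∑ d ∈ FF φ X, ind φ S a d * (Sd φ d τ * C1 τ) := fun τ => by
    unfold Qs
    rw [sum_mul]
    exact sum_congr rfl fun d _ => by ring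
  have hQi : IntegrableOn (fun τ => Qs φ S a X τ * C1 τ) (Set.Ioi 0) := by
    simp_rw [e3]
    exact integrable_finsetSum _ fun d hd => (hSi d hd).1.const_mul _
  have e2 : A * SC φ S a C X = 2 * Qs φ S a X 0 + 2 * ∫ τ in Set.Ioi (0 : ℝ), Qs φ S a X τ * C1 τ := by
    simp_rw [e3]
    rw [integral_finsetSum _ fun d hd => (hSi d hd).1.const_mul _]
    unfold SC Qs
    rw [mul_sum, mul_sum, mul_sum, ← sum_add_distrib]
    refine sum_congr rfl fun d hd => ?_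
    rw [integral_const_mul]
    have h4 := (hSi d hd).2
    calc A * (ind φ S a d * Lc φ d C) = ind φ S a d * (A * Lc φ d C) := by ring
      _ = _ := by rw [h4]; ring
  -- the difference
  obtain ⟨D, hD⟩ : ∃ D : ℝ → ℝ, D = fun τ => Qs φ S a X τ - D₀ * ∑' j : ℕ, (φ.η / √2) ^ j * G (τ + j * Real.log 2) :=
    ⟨_, rfl⟩
  obtain ⟨W, hW⟩ : ∃ W, W = ES S * ((X : ℝ) ^ (31 / 32 : ℝ) * (1 + Real.log X)) := ⟨_, rfl⟩
  have hW1 : 1 ≤ W := by
    rw [hW]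
    have h4 : (1 : ℝ) ≤ (X : ℝ) ^ (31 / 32 : ℝ) := Real.one_le_rpow hX1 (by norm_num)
    exact one_le_mul_of_one_le_of_one_le hES (one_le_mul_of_one_le_of_one_le h4 (by linarith))
  have hDE : ∀ τ, 0 ≤ τ → |D τ| ≤ 4 * (K₁ * W) := by
    intro τ hτ
    have h4 : HasSum (fun j : ℕ => (φ.η / √2) ^ j * (QI φ S a (τ + j * Real.log 2) X - MI φ S a (τ + j * Real.log 2) X))
        (D τ) := by
      have h5 := (Qs_eq hφ S a X τ).sub ((hs1 τ).hasSum.mul_left D₀)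
      have h6 : (fun j : ℕ => (φ.η / √2) ^ j *
          (QI φ S a (τ + j * Real.log 2) X - MI φ S a (τ + j * Real.log 2) X)) =
          fun j : ℕ => (φ.η / √2) ^ j * QI φ S a (τ + j * Real.log 2) X -
            D₀ * ((φ.η / √2) ^ j * G (τ + j * Real.log 2)) := by
        funext j
        rw [hMI]
        ring
      rw [h6, hD]
      exact h5
    have h5 : ∀ j : ℕ, ‖(φ.η / √2) ^ j * (QI φ S a (τ + j * Real.log 2) X - MI φ S a (τ + j * Real.log 2) X)‖ ≤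
        K₁ * W * (1 / √(2:ℝ)) ^ j := by
      intro j
      rw [Real.norm_eq_abs, abs_mul, mul_comm (K₁ * W)]
      have h6 := hQM S a hS ha (τ + j * Real.log 2) X (by positivity) (by omega)
      have h7 : K₁ * ES S * ((X : ℝ) ^ (31 / 32 : ℝ) * (1 + Real.log X)) = K₁ * W := by rw [hW]; ring
      rw [h7] at h6
      exact mul_le_mul (eta_pow hφ j) h6 (abs_nonneg _) (by positivity)
    have h6 := tsum_of_norm_bounded (geo.mul_left (K₁ * W)) h5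
    rw [h4.tsum_eq, Real.norm_eq_abs] at h6
    have h7 := mul_le_mul_of_nonneg_left q_facts.2.2 (show 0 ≤ K₁ * W by positivity)
    linarith
  have hDH : ∀ τ, 0 ≤ τ → |D τ| ≤ H * (X : ℝ) ^ 2 * Real.exp (-2 * τ) := by
    intro τ _
    have h4 := Qs_bd hφ hK₂ hin S a X τ
    have h5 := hs2 τ
    have h6 := mul_le_mul_of_nonneg_left h5 hD0
    have h7 := norm_sub_le (Qs φ S a X τ) (D₀ * ∑' j : ℕ, (φ.η / √2) ^ j * G (τ + j * Real.log 2))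
    rw [norm_mul, Real.norm_eq_abs, Real.norm_eq_abs, Real.norm_eq_abs, Real.norm_eq_abs, abs_of_nonneg hD0] at h7
    have h8 : D τ = Qs φ S a X τ - D₀ * ∑' j : ℕ, (φ.η / √2) ^ j * G (τ + j * Real.log 2) := by rw [hD]
    rw [h8]
    refine h7.trans ((add_le_add h4 h6).trans_eq ?_)
    rw [hH]
    ring
  have h4 := core hO hα hX1 hA (show 0 ≤ 4 * (K₁ * W) by positivity) hH0 hDE hDH
  have e4 : A * SC φ S a C X - φ.δ * (8 / Real.pi ^ 2) * ∑' j : ℕ, (φ.η / √2) ^ j *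
      ∑ d ∈ Finset.Icc 1 X, JJ (CS (Psi φ) S a) C1 (Real.log ((φ.r : ℝ) * d) / 2 - j * Real.log 2) =
      2 * D 0 + 2 * ∫ τ in Set.Ioi (0 : ℝ), D τ * C1 τ := by
    have h5 : ∫ τ in Set.Ioi (0 : ℝ), D τ * C1 τ = (∫ τ in Set.Ioi (0 : ℝ), Qs φ S a X τ * C1 τ) -
        D₀ * ∫ τ in Set.Ioi (0 : ℝ), (∑' j : ℕ, (φ.η / √2) ^ j * G (τ + j * Real.log 2)) * C1 τ := by
      rw [← integral_const_mul, ← integral_sub hQi (hs3.const_mul D₀)]
      congr 1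
      funext τ
      rw [hD]
      ring
    rw [← hFd, e1, e2, h5, ← hD₀, hD]
    ring
  rw [e4]
  have h5 := hDE 0 le_rfl
  have h6 : |2 * D 0 + 2 * ∫ τ in Set.Ioi (0 : ℝ), D τ * C1 τ| ≤ 2 * |D 0| + 2 * |∫ τ in Set.Ioi (0 : ℝ), D τ * C1 τ| := by
    refine (abs_add_le _ _).trans ?_
    rw [abs_mul, abs_mul, abs_two]
  have h7 : H ≤ H * W := le_mul_of_one_le_right hH0 hW1
  have h8 : (8 * K₁ + 16 * A₀ * Real.sinh (2 * A₀) * K₁ + 8 / 3 * H) * ES S *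
      ((X : ℝ) ^ (31 / 32 : ℝ) * (1 + Real.log X)) =
      8 * (K₁ * W) + 16 * A₀ * Real.sinh (2 * A₀) * (K₁ * W) + 8 / 3 * (H * W) := by
    rw [hW]; ring
  rw [h8]
  nlinarith

end

end Pool.Agent.K4H95.LQ
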