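import Pool.Agent.K4H95.LQ.Spec2
import Pool.Agent.K4H95.LQ.A3

/-!
# Piece S: sharp cut-offs
-/

set_option autoImplicit false

namespace Pool.Agent.K4H95.LQ

open Filter Topology Pool.Agent.X278.AV Pool.Agent.W189.ML
open Pool.Agent.K4H95.ZP (Qn Pn mem_Qn Qn_tendsto prod_Qn)

namespace S1

theorem pos (p : Nat.Primes) (x : ℝ) : 0 < phQ (p : ℕ) (1 + x) / phQ (p : ℕ) 1 :=
  div_pos (phQ_pos p _) (phQ_pos p _)

theorem facs (k : ℝ) : Summable fun p : Nat.Primes => Real.log ((1 - (((p : ℕ) : ℝ))⁻¹) ^ (k * (k + 3) / 2) *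
      (phQ (p : ℕ) (1 + k) / phQ (p : ℕ) 1)) := by
  obtain ⟨-, κ₁, κ₂, -, -, hk⟩ := a3 0
  have h1 := (hk k).1.sub cfac_sum
  refine h1.congr fun p => ?_
  have hb := one_sub_pos p
  rw [Real.log_mul (Real.rpow_pos_of_pos hb _).ne' (phQ_pos p _).ne', Real.log_mul hb.ne' (phQ_pos p _).ne',
    Real.log_mul (Real.rpow_pos_of_pos hb _).ne' (pos p k).ne', Real.log_div (phQ_pos p _).ne' (phQ_pos p _).ne',
    Real.log_rpow hb, Real.log_rpow hb, add_comm 1 k]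
  ring

end S1

/-- **Piece S.** -/
theorem s : StS := by
  intro k
  have hb : ∀ p : Nat.Primes, 0 < 1 - (((p : ℕ) : ℝ))⁻¹ := one_sub_pos
  have hC0 : ∀ p : Nat.Primes, 0 < (1 - (((p : ℕ) : ℝ))⁻¹) * phQ (p : ℕ) 1 := fun p => mul_pos (hb p) (phQ_pos p 1)
  have hP0 : ∀ p : Nat.Primes, 0 < (1 - (((p : ℕ) : ℝ))⁻¹) ^ (k * (k + 3) / 2) *
      (phQ (p : ℕ) (1 + k) / phQ (p : ℕ) 1) := fun p => mul_pos (Real.rpow_pos_of_pos (hb p) _) (S1.pos p k)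
  have mC : Multipliable fun p : Nat.Primes => (1 - (((p : ℕ) : ℝ))⁻¹) * phQ (p : ℕ) 1 :=
    Real.multipliable_of_summable_log hC0 cfac_sum
  have mP : Multipliable fun p : Nat.Primes => (1 - (((p : ℕ) : ℝ))⁻¹) ^ (k * (k + 3) / 2) *
      (phQ (p : ℕ) (1 + k) / phQ (p : ℕ) 1) := Real.multipliable_of_summable_log hP0 (S1.facs k)
  set cC : ℝ := ∏' p : Nat.Primes, (1 - (((p : ℕ) : ℝ))⁻¹) * phQ (p : ℕ) 1 with hcC
  set cP : ℝ := ∏' p : Nat.Primes, (1 - (((p : ℕ) : ℝ))⁻¹) ^ (k * (k + 3) / 2) *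
      (phQ (p : ℕ) (1 + k) / phQ (p : ℕ) 1) with hcP
  have e1 : ∏' p : Nat.Primes, (1 - (((p : ℕ) : ℝ))⁻¹) ^ ((k + 1) * (k + 2) / 2) * phQ p (k + 1) = cC * cP := by
    rw [hcC, hcP, ← mC.tprod_mul mP]
    refine tprod_congr fun p => ?_
    have e2 : (k + 1) * (k + 2) / 2 = 1 + k * (k + 3) / 2 := by ring
    rw [e2, Real.rpow_add (hb p), Real.rpow_one, add_comm k 1]
    have := (phQ_pos p 1).ne'
    field_simp
  have e3 : ∀ Y : ℕ, ∏' p : Nat.Primes, (1 - 1 / ((p : ℕ) : ℝ)) * phQ p (1 + wY k Y p) =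
      cC * ∏ p ∈ Qn (Y + 1), (phQ (p : ℕ) (1 + k) / phQ (p : ℕ) 1) := by
    intro Y
    have h0 : ∀ b ∉ Qn (Y + 1), (if (b : ℕ) ≤ Y then phQ (b : ℕ) (1 + k) / phQ (b : ℕ) 1 else 1) = 1 := by
      intro p hp
      rw [mem_Qn] at hp
      rw [if_neg (by omega)]
    have h1 : HasProd (fun p : Nat.Primes => if (p : ℕ) ≤ Y then phQ (p : ℕ) (1 + k) / phQ (p : ℕ) 1 else 1)
        (∏ p ∈ Qn (Y + 1), if (p : ℕ) ≤ Y then phQ (p : ℕ) (1 + k) / phQ (p : ℕ) 1 else 1) :=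
      hasProd_prod_of_ne_finset_one h0
    have h2 : ∏ p ∈ Qn (Y + 1), (if (p : ℕ) ≤ Y then phQ (p : ℕ) (1 + k) / phQ (p : ℕ) 1 else 1) =
        ∏ p ∈ Qn (Y + 1), (phQ (p : ℕ) (1 + k) / phQ (p : ℕ) 1) := by
      refine Finset.prod_congr rfl fun p hp => ?_
      rw [mem_Qn] at hp
      rw [if_pos (by omega)]
    rw [h2] at h1
    have h3 := mC.hasProd.mul h1
    rw [← h3.tprod_eq]
    refine tprod_congr fun p => ?_
    unfold wY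
    rw [one_div]
    split_ifs with h4
    · have := (phQ_pos p 1).ne'
      field_simp
    · rw [add_zero, mul_one]
  have hQ : Tendsto (fun Y : ℕ => Qn (Y + 1)) atTop atTop := Qn_tendsto.comp (tendsto_add_atTop_nat 1)
  have l1 : Tendsto (fun Y : ℕ => ∏ p ∈ Qn (Y + 1), (1 - (((p : ℕ) : ℝ))⁻¹) ^ (k * (k + 3) / 2) *
      (phQ (p : ℕ) (1 + k) / phQ (p : ℕ) 1)) atTop (𝓝 cP) := mP.hasProd.comp hQ
  have hM := Pool.Agent.H305R2.mertens_three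
  have l4 : Tendsto (fun N : ℕ => ((∏ p ∈ (Finset.Icc 1 N).filter Nat.Prime, (1 - (p : ℝ)⁻¹)⁻¹) /
      (Real.exp Real.eulerMascheroniConstant * Real.log N)) ^ (k * (k + 3) / 2)) atTop (𝓝 1) := by
    have h1 := hM.div_const (Real.exp Real.eulerMascheroniConstant)
    rw [div_self (Real.exp_pos _).ne'] at h1
    have h2 := h1.rpow_const (p := k * (k + 3) / 2) (Or.inl one_ne_zero)
    rw [Real.one_rpow] at h2
    refine h2.congr fun N => ?_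
    rw [div_div, mul_comm (Real.log (N : ℝ))]
  have h5 := (l1.mul l4).const_mul (1 / 2 * cC)
  rw [e1]
  have e0 : 1 / 2 * cC * (cP * 1) = 1 / 2 * (cC * cP) := by ring
  rw [e0] at h5
  refine h5.congr' ?_
  filter_upwards [eventually_gt_atTop 1] with Y hY
  have hlog : 0 < Real.log (Y : ℝ) := Real.log_pos (by exact_mod_cast hY)
  have hE : 0 < Real.exp Real.eulerMascheroniConstant * Real.log (Y : ℝ) := mul_pos (Real.exp_pos _) hlog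
  have e4 : (Finset.Icc 1 Y).filter Nat.Prime = Pn (Y + 1) := by
    unfold Pn
    ext p
    simp only [Finset.mem_filter, Finset.mem_Icc, Finset.mem_range]
    constructor
    · rintro ⟨⟨h1, h2⟩, h3⟩
      exact ⟨by omega, h3⟩
    · rintro ⟨h1, h2⟩
      exact ⟨⟨h2.one_lt.le, by omega⟩, h2⟩
  have e2 : ∏ p ∈ (Finset.Icc 1 Y).filter Nat.Prime, (1 - (p : ℝ)⁻¹)⁻¹ =
      ∏ p ∈ Qn (Y + 1), (1 - (((p : ℕ) : ℝ))⁻¹)⁻¹ := by
    rw [e4, ← prod_Qn (Y + 1) fun p : ℕ => (1 - (p : ℝ)⁻¹)⁻¹]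
  have hnn : ∀ p : Nat.Primes, 0 ≤ (1 - (((p : ℕ) : ℝ))⁻¹)⁻¹ := fun p => by
    have := hb p
    positivity
  have e5 : ∏ p ∈ Qn (Y + 1), (phQ (p : ℕ) (1 + k) / phQ (p : ℕ) 1) =
      (∏ p ∈ Qn (Y + 1), (1 - (((p : ℕ) : ℝ))⁻¹) ^ (k * (k + 3) / 2) * (phQ (p : ℕ) (1 + k) / phQ (p : ℕ) 1)) *
        (∏ p ∈ Qn (Y + 1), (1 - (((p : ℕ) : ℝ))⁻¹)⁻¹) ^ (k * (k + 3) / 2) := by
    rw [← Real.finsetProd_rpow _ _ (fun p _ => hnn p), ← Finset.prod_mul_distrib]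
    refine Finset.prod_congr rfl fun p _ => ?_
    rw [Real.inv_rpow (hb p).le]
    have := (Real.rpow_pos_of_pos (hb p) (k * (k + 3) / 2)).ne'
    rw [mul_comm ((1 - (((p : ℕ) : ℝ))⁻¹) ^ (k * (k + 3) / 2)), mul_assoc, mul_inv_cancel₀ this, mul_one]
  rw [e2, e3, Real.div_rpow (Finset.prod_nonneg fun p _ => hnn p) hE.le, e5]
  ring

end Pool.Agent.K4H95.LQ
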