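import Pool.Agent.X278.AV.MomQ2
import Pool.Agent.H423R2.RGL.DefsL

/-!
# Definitions and statements: the first moment of `L(1/2, χ)` times powers of smooth Euler products
-/

set_option autoImplicit false

namespace Pool.Agent.K4H95.LQ

open Filter Topology Pool.Agent.X278.AV Pool.Agent.H306R2.RG

noncomputable section

/-- the coefficient of `u^j` in `(1 - u)^{-x}` -/
def be (x : ℝ) (j : ℕ) : ℝ := Ring.choose (x + j - 1) j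

/-- the multiplicative function with `bm x (p^j) = be (x p) j` -/
def bm (x : ℕ → ℝ) (m : ℕ) : ℝ := if m = 0 then 0 else ∏ p ∈ m.primeFactors, be (x p) (m.factorization p)

/-- `√(m m₀)`, where `m = m₀ m₁²` with `m₀` squarefree -/
def cs (m : ℕ) : ℝ := ∏ p ∈ m.primeFactors, (p : ℝ) ^ ((m.factorization p + 1) / 2)

/-- `∏_{p ∣ N} p / (p + 1)` -/
def gg (N : ℕ) : ℝ := ∏ p ∈ N.primeFactors, (p : ℝ) / ((p : ℝ) + 1)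

/-- the logarithmic mean value of `k ↦ gg (m k)` over odd `k` -/
def Gm (m : ℕ) : ℝ := 1 / 2 * ∏' p : Nat.Primes, if (p : ℕ) = 2 then (1 : ℝ) else
  if (p : ℕ) ∣ m then ((p : ℕ) : ℝ) / (((p : ℕ) : ℝ) + 1) else 1 - 1 / (((p : ℕ) : ℝ) * (((p : ℕ) : ℝ) + 1))

/-- A1. Proof: `EulerProduct.eulerProduct_hasProd` / `EulerProduct.summable_and_hasSum_smoothNumbers_prod_primesBelow_tsum`,
`Real.one_div_one_sub_rpow_hasFPowerSeriesOnBall_zero` (or `Real.one_add_rpow...`), `|be x j| ≤ be |x| j`,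
`Σ_j be |x| j p^{-j/8} = (1 - p^{-1/8})^{-|x|} ≤ exp (C |x| p^{-1/8})`; `Yq p η = -log (1 - η p^{-1/2})`. -/
def StA1 : Prop := ∀ x : ℕ → ℝ, (Summable fun p : Nat.Primes => |x p| * ((p : ℕ) : ℝ) ^ (-(1 / 8) : ℝ)) →
  (Summable fun m : ℕ => |bm x m| * (m : ℝ) ^ (-(1 / 8) : ℝ)) ∧
  ∀ ψ : ℕ → ℝ, ψ 1 = 1 → (∀ a b, ψ (a * b) = ψ a * ψ b) → (∀ n, |ψ n| ≤ 1) →
    HasSum (fun m : ℕ => bm x m * ψ m / √m) (Real.exp (∑' p : Nat.Primes, x p * Yq p (ψ p)))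

/-- A2. Proof: `Gm m = Gm 1 * ∏_{p ∣ m} (p/(p+1))/(1 - 1/(p(p+1)))` for odd `m` (`bm x m = 0` for even `m` since `x 2 = 0`),
Euler product; local factor at odd `p`, `t = p^{-1/2}`: with `E`, `O` the even and odd parts of `Σ_j be x j t^j = (1-t)^{-x}`,
`E - O = (1+t)^{-x}`, `Σ_j be x j t^{2⌈j/2⌉} = E + t O` and
`(1 - 1/(p(p+1))) + p/(p+1) (E + t O - 1) = (1 - 1/p) phQ p (1 + x)`. -/
def StA2 : Prop := ∀ x : ℕ → ℝ, x 2 = 0 →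
  (Summable fun p : Nat.Primes => |x p| * ((p : ℕ) : ℝ) ^ (-(1 / 8) : ℝ)) →
  HasSum (fun m : ℕ => bm x m / cs m * Gm m)
    (1 / 2 * ∏' p : Nat.Primes, if (p : ℕ) = 2 then (1 : ℝ) else (1 - 1 / ((p : ℕ) : ℝ)) * phQ p (1 + x p))

/-- A3. Proof: the first part as `Pool.Agent.X278.AV.wt_sum` (Gen.lean; `|wr γ u| ≤ om u ≤ A exp (-a u)` with `a = 2 T`),
the second part is `Pool.Agent.X278.AV.prod_asymp γ (3/2) (1/2)` for `φ p x = phQ p (1 + x) / phQ p 1` (`phQ_pos`,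
`phQ_cont`, `phQ_exp`), multiplied by `∏ (1 - 1/p) phQ p 1`; see `Results/MP_ea46f5_nt/MomentsOfProducts.lean`
(outputs/live) for the use of `prod_asymp`. -/
def StA3 : Prop := ∀ γ : ℝ,
  (∀ k T : ℝ, 0 < T → Summable fun p : Nat.Primes =>
    |k * wr γ (Real.log (p : ℕ) / T)| * ((p : ℕ) : ℝ) ^ (-(1 / 8) : ℝ)) ∧
  ∃ κ₁ κ₂ : ℝ, 0 < κ₁ ∧ 0 < κ₂ ∧ ∀ k : ℝ,
    (Summable fun p : Nat.Primes =>
      Real.log ((1 - (((p : ℕ) : ℝ))⁻¹) ^ ((k + 1) * (k + 2) / 2) * phQ p (k + 1))) ∧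
    Tendsto (fun T : ℝ => (1 / 2 * ∏' p : Nat.Primes, (1 - 1 / ((p : ℕ) : ℝ)) *
        phQ p (1 + k * wr γ (Real.log (p : ℕ) / T))) / T ^ (k * (k + 3) / 2)) atTop
      (𝓝 (1 / 2 * (∏' p : Nat.Primes, (1 - (((p : ℕ) : ℝ))⁻¹) ^ ((k + 1) * (k + 2) / 2) * phQ p (k + 1)) *
        κ₁ ^ k * κ₂ ^ (k ^ 2)))

/-- a smooth cut-off -/
structure Cut (Ψ : ℝ → ℝ) : Prop where
  nonneg : ∀ z, 0 ≤ Ψ z
  le : ∀ z, Ψ z ≤ 1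
  mono : Monotone Ψ
  decay : ∃ C : ℝ, ∀ z, Ψ z ≤ C * Real.exp (2 * z)
  lim : Tendsto Ψ atTop (𝓝 1)

/-- `Σ_{k odd} gg (m k) / k Ψ (z - 2 log k)` -/
def Hm (Ψ : ℝ → ℝ) (m : ℕ) (z : ℝ) : ℝ :=
  ∑' k : ℕ, gg (m * (2 * k + 1)) / (2 * k + 1 : ℝ) * Ψ (z - 2 * Real.log (2 * k + 1 : ℝ))

/-- B. Proof: `0 ≤ gg ≤ 1`, so everything is `≤ Σ_{k ≤ e^{z/2}} 1/k + Σ_{k > e^{z/2}} C e^{2z} / k^5`. Limit:
`gg (m k) 1_{k odd} = gg m Σ_{a ∣ k} h a` with `h` multiplicative, supported on squarefree `a`, `h 2 = -1`, `h p = 0` for odd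
`p ∣ m`, `h p = -1/(p+1)` for `p ∤ 2 m`; `Σ |h a| / a < ∞`; hence `Hm z = gg m Σ_a h a / a * Λ (z - 2 log a)`,
`Λ z = Σ_k Ψ (z - 2 log k) / k`, `Λ z / z → 1/2`, `0 ≤ Λ z ≤ C (1 + max z 0)`; `tendsto_tsum_of_dominated_convergence`;
`Σ_a h a / a = ∏ (1 + h p / p)`. -/
def StB : Prop := ∀ Ψ : ℝ → ℝ, Cut Ψ →
  (∀ m z, Summable fun k : ℕ => gg (m * (2 * k + 1)) / (2 * k + 1 : ℝ) * Ψ (z - 2 * Real.log (2 * k + 1 : ℝ))) ∧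
  (∃ C : ℝ, 0 ≤ C ∧ ∀ m z, 0 ≤ Hm Ψ m z ∧ Hm Ψ m z ≤ C * (1 + max z 0)) ∧
  ∀ m, Odd m → Tendsto (fun z : ℝ => Hm Ψ m z / z) atTop (𝓝 (Gm m / 2))

/-- C. Elementary: `Σ_{d ≤ X} log d ~ X log X` and dominated convergence in `j`. -/
def StC : Prop := ∀ r C₁ : ℝ, 1 ≤ r → 0 ≤ C₁ → ∃ C₂ : ℝ, 0 ≤ C₂ ∧ ∀ (H : ℝ → ℝ) (η c : ℝ), |η| ≤ 1 →
  (∀ z, 0 ≤ H z ∧ H z ≤ C₁ * (1 + max z 0)) →
  (0 ≤ c → ∀ X : ℕ, 2 ≤ X → |∑' j : ℕ, (η / √2) ^ j * ∑ d ∈ Finset.Icc 1 X,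
    H (Real.log (r * d) / 2 - c - j * Real.log 2)| ≤ C₂ * (X * Real.log X)) ∧
  ∀ L : ℝ, Tendsto (fun z => H z / z) atTop (𝓝 L) →
    Tendsto (fun X : ℕ => (∑' j : ℕ, (η / √2) ^ j * ∑ d ∈ Finset.Icc 1 X,
      H (Real.log (r * d) / 2 - c - j * Real.log 2)) / (X * Real.log X)) atTop (𝓝 (L / (2 * (1 - η / √2))))

/-- P. Proof: `Σ_{e ∣ M} μ(e)/e = ∏_{p ∣ M} (1 - 1/p)`, `Σ_{(a, 2M) = 1} μ(a)/a² = ∏_{p ∤ 2M} (1 - 1/p²) =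
(6/π²) ∏_{p ∣ 2M} (1 - 1/p²)^{-1}`. -/
def StP : Prop := ∀ M : ℕ, Odd M →
  (∑ e ∈ M.divisors, ((ArithmeticFunction.moebius e : ℤ) : ℝ) / e) *
    (∑' a : ℕ, if a.Coprime (2 * M) then ((ArithmeticFunction.moebius a : ℤ) : ℝ) / (a : ℝ) ^ 2 else 0) =
  8 / Real.pi ^ 2 * gg M

/-- the real primitive characters `≠ 1` of parity `ε` and conductor `≤ X` -/
def Chs (ε : ℤ) (X : ℕ) : Set (Σ N : ℕ, DirichletCharacter ℂ N) := {p | p ∈ LnkC.RPC ∧ p.1 ≤ X ∧ p.2 (-1) = (ε : ℂ)}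

open Classical in
/-- the sum over a family -/
def fsum (G : FD → ℕ → ℝ) (φ : FD) (Y : ℕ) : ℝ :=
  ∑ d ∈ (Finset.Icc 1 Y).filter (fun d => φ.A d ∧ Squarefree d), G φ d

/-- D. Proof: `Pool.Agent.H306R2.RG.LnkC.CC1` (parity included), `CLS`, `INJ` (Pool/Agent/H423R2/RGL/{CC1,CLS,INJ}.lean). -/
def StD : Prop := ∀ ε : ℤ, (ε = 1 ∨ ε = -1) → ∀ (F : (Σ N : ℕ, DirichletCharacter ℂ N) → ℝ) (G : FD → ℕ → ℝ),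
  (∀ (φ : FD) (d : ℕ) (χ : DirichletCharacter ℂ (φ.r * d)), Fam φ → φ.A d → Squarefree d → χ.IsPrimitive →
    χ ^ 2 = 1 → χ ≠ 1 → (∀ n : ℕ, n ≠ 0 → χ (n : ZMod (φ.r * d)) = ((cf φ d n : ℝ) : ℂ)) → F ⟨φ.r * d, χ⟩ = G φ d) →
  ∀ X : ℕ, (Chs ε X).Finite ∧
    ∑ᶠ p ∈ Chs ε X, F p =
      fsum G (F8 ε) (X / 8) + fsum G (F4 ε) (X / 4) + fsum G (F1 ε 1) X + fsum G (F1 ε 5) X

end

end Pool.Agent.K4H95.LQ
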