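import Pool.Agent.K4H95.LQ.Spec
import Pool.Agent.K4H95.ZP.Shp

/-!
# Sharp cut-offs: the statement
-/

set_option autoImplicit false

namespace Pool.Agent.K4H95.LQ

open Filter Topology Pool.Agent.X278.AV

noncomputable section

/-- the sharp cut-off -/
def wY (k : ℝ) (Y p : ℕ) : ℝ := if p ≤ Y then k else 0

/-- S. Proof: as `Pool.Agent.K4H95.ZP.cw_sharp` (ZP/Shp.lean; Mertens: `Pool.Agent.H305R2.mertens_three`, `Qn`, `Qn_tendsto`,
`prod_Qn`), with `(1 - 1/p) phQ p 1` summable logarithms (`cfac_sum` in A3.lean) and the first part of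
`prod_asymp γ (3/2) (1/2)` or `a3` (convergence of the arithmetic factor). -/
def StS : Prop := ∀ k : ℝ,
  Tendsto (fun Y : ℕ => (1 / 2 * ∏' p : Nat.Primes, (1 - 1 / ((p : ℕ) : ℝ)) * phQ p (1 + wY k Y p)) /
      (Real.exp Real.eulerMascheroniConstant * Real.log Y) ^ (k * (k + 3) / 2)) atTop
    (𝓝 (1 / 2 * ∏' p : Nat.Primes, (1 - (((p : ℕ) : ℝ))⁻¹) ^ ((k + 1) * (k + 2) / 2) * phQ p (k + 1)))

end

end Pool.Agent.K4H95.LQ
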