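import Pool.Agent.K4H95.LQ.Spec3
import Pool.Agent.K4H95.LQ.Spec2

/-!
# Definitions and statements: the characters with prescribed values, joint limits
-/

set_option autoImplicit false

namespace Pool.Agent.K4H95.LQ

open Filter Topology Pool.Agent.H306R2.RG Pool.Agent.H306R2.RZ Pool.Agent.X278.AV

noncomputable section

/-- the primes up to `Y` -/
def prLE (Y : ℕ) : Finset ℕ := (Finset.Icc 1 Y).filter Nat.Prime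

/-- `∏_{p ≤ Y} (1 - 1/p) ∏_{p > Y} (1 - 1/(p(p+1)))` -/
def MY (Y : ℕ) : ℝ := (∏ p ∈ prLE Y, (1 - 1 / (p : ℝ))) *
  ∏' p : Nat.Primes, if (p : ℕ) ≤ Y then (1 : ℝ) else 1 - 1 / (((p : ℕ) : ℝ) * (((p : ℕ) : ℝ) + 1))

/-- the density of the pattern -/
def prY (Y : ℕ) (a : ℕ → ℝ) : ℝ := ∏ p ∈ prLE Y, pim p (a p)

/-- the truncated product of the pattern -/
def PYa (Y : ℕ) (a : ℕ → ℝ) : ℝ := ∏ p ∈ prLE Y, (1 - a p / √(p : ℝ))⁻¹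

/-- the truncated product of a character -/
def PYc (Y : ℕ) (χ : Σ N : ℕ, DirichletCharacter ℂ N) : ℝ :=
  ∏ p ∈ prLE Y, (1 - (χ.2 ((p : ℕ) : ZMod χ.1)).re / √(p : ℝ))⁻¹

/-- the central value (its real part) -/
def cen (χ : Σ N : ℕ, DirichletCharacter ℂ N) : ℝ :=
  if h : χ.1 = 0 then 0 else (haveI : NeZero χ.1 := ⟨h⟩; (χ.2.LFunction (1 / 2)).re)

/-- the characters with the pattern `a` at the primes up to `Y` -/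
def Sub (ε : ℤ) (X Y : ℕ) (a : ℕ → ℝ) : Set (Σ N : ℕ, DirichletCharacter ℂ N) :=
  {χ | χ ∈ Chs ε X ∧ ∀ p ∈ prLE Y, χ.2 ((p : ℕ) : ZMod χ.1) = (a p : ℂ)}

/-- the first moment with prescribed values -/
def StT : Prop := ∃ K : ℝ, 0 ≤ K ∧ ∀ (ε : ℤ) (X Y : ℕ) (a : ℕ → ℝ), (ε = 1 ∨ ε = -1) → Pat a → 2 ≤ Y →
  (Y : ℝ) ≤ Real.log X / 1000 →
  |∑ᶠ χ ∈ Sub ε X Y a, cen χ - 3 / Real.pi ^ 2 * (1 / 2 * (prY Y a * MY Y * PYa Y a)) * (X * Real.log X)| ≤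
    K * (prY Y a * MY Y * PYa Y a) * (1 + √(Y : ℝ)) * X

/-- the number of the characters with prescribed values -/
def StN : Prop := ∃ K : ℝ, 0 ≤ K ∧ ∀ (ε : ℤ) (X Y : ℕ) (a : ℕ → ℝ), (ε = 1 ∨ ε = -1) → Pat a → 2 ≤ Y →
  (Y : ℝ) ≤ Real.log X / 1000 →
  |((Sub ε X Y a).ncard : ℝ) - 3 / Real.pi ^ 2 * prY Y a * X| ≤ K * prY Y a * (X : ℝ) ^ (3 / 4 : ℝ)

/-- Mom. Sum `StT` over all patterns `prLE Y → {0, 1, -1}` (finitely many; `χ² = 1` gives `χ(p) ∈ {0, 1, -1}`; `Chs ε X` is finite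
by `d` (D.lean)), with `Σ_{x ∈ {0,1,-1}} pim p x ((1 - x/√p)⁻¹)^(k+1) = phQ p (k + 1)` and `Finset.prod_sum`. -/
def StMom : Prop := StT → ∀ k : ℝ, ∃ K : ℝ, 0 ≤ K ∧ ∀ (ε : ℤ) (X Y : ℕ), (ε = 1 ∨ ε = -1) → 2 ≤ Y →
  (Y : ℝ) ≤ Real.log X / 1000 →
  |∑ᶠ χ ∈ Chs ε X, cen χ * PYc Y χ ^ k -
      3 / Real.pi ^ 2 * (1 / 2 * (MY Y * ∏ p ∈ prLE Y, phQ p (k + 1))) * (X * Real.log X)| ≤
    K * (MY Y * ∏ p ∈ prLE Y, phQ p (k + 1)) * (1 + √(Y : ℝ)) * X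

/-- Id. `(1 - 1/p) phQ p 1 = 1 - 1/(p(p+1))`; splitting of the product at `Y`. -/
def StId : Prop := ∀ (k : ℝ) (Y : ℕ), MY Y * ∏ p ∈ prLE Y, phQ p (k + 1) =
  ∏' p : Nat.Primes, (1 - 1 / ((p : ℕ) : ℝ)) * phQ p (1 + wY k Y p)

/-- Mert. `Pool.Agent.H305R2.mertens_three`; the tail product tends to `1`. -/
def StMert : Prop := Tendsto (fun Y : ℕ => MY Y * (Real.exp Real.eulerMascheroniConstant * Real.log Y)) atTop (𝓝 1) ∧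
  ∀ Y, 0 < MY Y

/-- Lim. From `StMom`, `StId`, `StS` and `count_lim` (Fin.lean): `√Y / log X → 0`. -/
def StLim : Prop := StT → StMom → StId → StS → StMert → ∀ (k : ℝ) (ε : ℤ), (ε = 1 ∨ ε = -1) → ∀ Yf : ℕ → ℕ,
  Tendsto Yf atTop atTop → (∀ᶠ X : ℕ in atTop, (Yf X : ℝ) ≤ Real.log X / 1000) →
  Tendsto (fun X : ℕ => (∑ᶠ χ ∈ Chs ε X, cen χ * PYc (Yf X) χ ^ k) / (Chs ε X).ncard /
      (Real.log X * (Real.exp Real.eulerMascheroniConstant * Real.log (Yf X)) ^ (k * (k + 3) / 2))) atTop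
    (𝓝 (1 / 2 * ∏' p : Nat.Primes, (1 - (((p : ℕ) : ℝ))⁻¹) ^ ((k + 1) * (k + 2) / 2) * phQ p (k + 1)))

end

end Pool.Agent.K4H95.LQ
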