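import Pool.Agent.K4H95.LQ.R3
import Pool.Agent.K4H95.LQ.I5
import Pool.Agent.K4H95.LQ.Spec4

/-!
# Definitions and statements: the first moment near the centre with prescribed values
-/

set_option autoImplicit false

namespace Pool.Agent.K4H95.LQ

open Filter Topology MeasureTheory Pool.Agent.H306R2.RG Pool.Agent.H306R2.RZ

noncomputable section

/-- `C = cosh (α ·)` or `C = cos (α ·)`, `C1` is its derivative -/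
structure Os (α : ℝ) (C C1 : ℝ → ℝ) : Prop where
  nonneg : 0 ≤ α
  deriv : ∀ x, HasDerivAt C (C1 x) x
  cont : Continuous C1
  zero : C 0 = 1
  even : ∀ x, C (-x) = C x
  add : ∀ x u, C (x - u) + C (x + u) = 2 * C x * C u
  bd : ∀ x, |C x| ≤ Real.cosh (α * x)
  bd1 : ∀ x, 0 ≤ x → |C1 x| ≤ α * Real.sinh (α * x)

/-- the kernel; `ro` is the smooth step of Psi.lean (`ro_mono`, `ro_zero`, `ro_one`, `ro_RH`: `ro x + ro (-x) = 1`) -/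
def kk (C1 : ℝ → ℝ) (x : ℝ) : ℝ := 2 * ro x + 2 * ∫ τ in Set.Ioi (0 : ℝ), ro (x - τ) * C1 τ

/-- K. Proof: `kk C1 x = 2 ∫_{-1}^{min x 1} ρ'(u) C(x - u) du` (integration by parts, `C 0 = 1`), the same at `-x` with
`u → -u`; sum `= 2 ∫_{-1}^1 ρ'(u) C(x - u) du = ∫ ρ'(u) (C(x-u) + C(x+u)) du = 2 C(x) ∫ ρ' C`, so `A = ∫ ρ' C`;
`∫ ρ' = 1`, `|C u - 1| ≤ cosh α - 1 ≤ α` for `|u| ≤ 1`. (Another way: `A = kk C1 0`.) -/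
def StK : Prop := ∀ (α : ℝ) (C C1 : ℝ → ℝ), Os α C C1 → α ≤ 1 →
  ∃ A : ℝ, |A - 1| ≤ α ∧ ∀ x, kk C1 x + kk C1 (-x) = 2 * A * C x

/-- the sum with the cut-off `c` -/
def Sd (φ : FD) (d : ℕ) (c : ℝ) : ℝ := ∑' j : ℕ, (φ.η / √2) ^ j *
  ∑' n : ℕ, jo φ d (n + 1) / √((n : ℝ) + 1) * WW φ (c + j * Real.log 2) (n + 1) d

/-- `L(1/2 + u, χ)`, completed and divided by the factor at `1/2` (`C x = cosh (u x)`, or `cos (t x)` for `u = i t`) -/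
def Lc (φ : FD) (d : ℕ) (C : ℝ → ℝ) : ℝ :=
  (∫ y in Set.Ioi (0 : ℝ), thg φ d y * y ^ φ.ex * C (Real.log y / 2)) / (((φ.r : ℝ) * d) ^ (φ.ex + 1) * g0g φ)

/-- Z1. Proof: `cf φ d (2^j n) = η^j jo φ d n` (as in `afe0`, Psi.lean; `CC7` in Pool/Agent/H234R3/RG_CC7.lean with
`Φ = ro`, `L = 1`: `KWg`, `TV` as in the proof of `afe0`), then `v = n² y / (r d)` in `Psi`, and exchange of sum and integral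
(compare the proof of `afe` in Pool/Agent/H553R2/RG_CC8a.lean). -/
def StZ1 : Prop := ∀ φ : FD, Fam φ → ∀ d : ℕ, φ.A d → Squarefree d → ∀ c : ℝ, 0 ≤ c →
  Sd φ d c = (∫ y in Set.Ioi (0 : ℝ), thg φ d y * y ^ φ.ex * ro (Real.log y / 2 - c)) /
    (((φ.r : ℝ) * d) ^ (φ.ex + 1) * g0g φ)

/-- Z2. Proof: `∫_0^∞ Sd φ d τ C1(τ) dτ` by Fubini (`ro (log y / 2 - τ) = 0` for `y ≤ e^{2τ-2}`, `|C1 τ| ≤ α e^{ατ}`, `α ≤ 1/4`, decay of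
`thg`: `LnkC.CC4`), so the right side is `∫ thg y^ex kk(log y / 2)`; `y → 1/y` with the functional equation `LnkC.CC3`
(`φ.ex = a/2 - 3/4`) turns it into half of `∫ thg y^ex (kk(log y/2) + kk(-log y/2))`. -/
def StZ2 : Prop := StZ1 → ∀ φ : FD, Fam φ → ∀ d : ℕ, φ.A d → Squarefree d → ∀ (α A : ℝ) (C C1 : ℝ → ℝ), Os α C C1 → α ≤ 1 / 4 →
  (∀ x, kk C1 x + kk C1 (-x) = 2 * A * C x) →
  IntegrableOn (fun τ : ℝ => Sd φ d τ * C1 τ) (Set.Ioi 0) ∧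
  A * Lc φ d C = 2 * Sd φ d 0 + 2 * ∫ τ in Set.Ioi (0 : ℝ), Sd φ d τ * C1 τ

/-- L. Proof: `mellin_th_all` (Pool/Agent/H423R2/RGL/K/H408R2_RG_CC5.lean), `(s + a)/2 - 1 = ex + u/2` for `s = 1/2 + u`,
`g0g φ = Gammaℝ (1/2 + a)` (see `afe0`), and the symmetry `y → 1/y` (`LnkC.CC3`) to replace `y^{u/2}` by `cosh (u (log y)/2)`. -/
def StL : Prop := ∀ φ : FD, Fam φ → ∀ (d : ℕ) (_ : NeZero (φ.r * d)) (χ : DirichletCharacter ℂ (φ.r * d)), φ.A d →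
  Squarefree d → χ ≠ 1 → (∀ n : ℕ, n ≠ 0 → χ (n : ZMod (φ.r * d)) = ((cf φ d n : ℝ) : ℂ)) →
  (∀ u : ℝ, |u| < 1 / 2 → (((φ.r * d : ℕ) : ℂ)) ^ ((u : ℂ) / 2) * (Complex.Gammaℝ (1 / 2 + u + φ.a) / Complex.Gammaℝ (1 / 2 + φ.a)) *
    χ.LFunction (1 / 2 + u) = ((Lc φ d (fun x => Real.cosh (u * x)) : ℝ) : ℂ)) ∧
  ∀ u : ℝ, (((φ.r * d : ℕ) : ℂ)) ^ ((u * Complex.I : ℂ) / 2) *
    (Complex.Gammaℝ (1 / 2 + u * Complex.I + φ.a) / Complex.Gammaℝ (1 / 2 + φ.a)) *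
    χ.LFunction (1 / 2 + u * Complex.I) = ((Lc φ d (fun x => Real.cos (u * x)) : ℝ) : ℂ)

/-- B2. Proof: `|rho S a n| ≤ 1`, `Psi φ z ≤ C e^{2z}` (`Psi_decay`), `Σ n^{-5/2} < ∞`; measurable as a limit of finite sums of
measurable (monotone) functions (summable by `StI3`). -/
def StB2 : Prop := StI3 → ∀ φ : FD, ∃ B : ℝ, 0 ≤ B ∧ ∀ (S : Finset ℕ) (a : ℕ → ℝ), OP S → Pat a →
  Measurable (CS (Psi φ) S a) ∧ ∀ z, |CS (Psi φ) S a z| ≤ B * Real.exp (2 * z)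

/-- the sum over the family with the pattern -/
def SC (φ : FD) (S : Finset ℕ) (a : ℕ → ℝ) (C : ℝ → ℝ) (X : ℕ) : ℝ := ∑ d ∈ FF φ X, ind φ S a d * Lc φ d C

/-- the transform of the mean value -/
def JJ (F C1 : ℝ → ℝ) (z : ℝ) : ℝ := 2 * F z + 2 * ∫ τ in Set.Ioi (0 : ℝ), F (z - τ) * C1 τ

/-- R4. Proof: with `Q(τ) = Σ_j (η/√2)^j QI φ S a (τ + j log 2) X = Σ_d ind * Sd φ d τ` and
`M(τ) = Σ_j (η/√2)^j MI φ S a (τ + j log 2) X`: `A SC = 2 Q(0) + 2 ∫ Q C1` (`StZ2`), the other side is `2 M(0) + 2 ∫ M C1`,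
`|Q(τ) - M(τ)| ≤ 4 K ES X^{31/32} (1 + log X)` for all `τ ≥ 0` (`QI_MI`, as in `SI_MI` in R3.lean), used for `τ ≤ 2 log X`
(`∫_0^T |C1| ≤ cosh (α T) - 1`), and `|Q(τ)|, |M(τ)| ≤ C X² e^{-2τ}` (`Psi_decay`; `StB2`) for `τ ≥ 2 log X`; `ES S ≥ 1`. -/
def StR4 : Prop := StR2 → StI3 → StB2 → StZ1 → StZ2 → ∀ φ : FD, Fam φ → ∀ A₀ : ℝ, 0 ≤ A₀ → ∃ K : ℝ, 0 ≤ K ∧
  ∀ (S : Finset ℕ) (a : ℕ → ℝ), OP S → Pat a → ∀ (X : ℕ) (α A : ℝ) (C C1 : ℝ → ℝ), 2 ≤ X → Os α C C1 → α ≤ 1 / 4 →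
  α * Real.log X ≤ A₀ → (∀ x, kk C1 x + kk C1 (-x) = 2 * A * C x) →
  |A * SC φ S a C X - φ.δ * (8 / Real.pi ^ 2) * ∑' j : ℕ, (φ.η / √2) ^ j *
      ∑ d ∈ Finset.Icc 1 X, JJ (CS (Psi φ) S a) C1 (Real.log ((φ.r : ℝ) * d) / 2 - j * Real.log 2)| ≤
    K * ES S * ((X : ℝ) ^ (31 / 32 : ℝ) * (1 + Real.log X))

/-- J. Proof: for `z ≥ 0` split the integral at `τ = z`; `2 (U z/2 + V) + 2 ∫_0^z (U (z-τ)/2 + V) C1 τ dτ = U ∫_0^z C + 2 V C z`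
by parts; `2 ∫_0^z E e^{-(z-τ)/8} α sinh (ατ) ≤ 16 α E sinh A₀`; `2 ∫_z^∞ B e^{2(z-τ)} α e^{ατ} dτ ≤ 2 α B e^{A₀}`.
For `z ≤ 0`: `2 B e^{2z} (1 + ∫ e^{-2τ} α e^{ατ}) ≤ 4 B e^{2z}`. -/
def StJ : Prop := ∀ A₀ : ℝ, 0 ≤ A₀ → ∃ K : ℝ, 0 ≤ K ∧ ∀ (F : ℝ → ℝ) (U V E B α : ℝ) (C C1 : ℝ → ℝ), Measurable F → 0 ≤ E → 0 ≤ B →
  (∀ z, |F z - (U * (z / 2) + V)| ≤ E * Real.exp (-z / 8)) → (∀ z, |F z| ≤ B * Real.exp (2 * z)) →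
  Os α C C1 → α ≤ 1 / 4 →
  (∀ z, 0 ≤ z → α * z ≤ A₀ → |JJ F C1 z - (U * (∫ u in (0 : ℝ)..z, C u) + 2 * V * C z)| ≤
    2 * E * Real.exp (-z / 8) + K * α * (E + B)) ∧
  ∀ z, z ≤ 0 → |JJ F C1 z| ≤ 4 * B * Real.exp (2 * z)

/-- I7. Proof: `z = log (r d) / 2 - j log 2`. For `z ≥ 0`: `|∫_0^z C - ∫_0^{log X/2} C| ≤ |z - log X/2| cosh (A₀ + log r)`,
`Σ_{d ≤ X} log (X/d) ≤ X`; for `z < 0`: `log X / 2 ≤ log (X/d) / 2 + j log 2`; sums over `j` converge like `2^{-j/2} (1 + j)` and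
`2^{-j/2} 2^{j/8}`; `Σ_{d ≤ X} d^{-1/16} ≤ 2 X^{15/16}` (compare PieceI6.lean). -/
def StI7 : Prop := ∀ r A₀ : ℝ, 1 ≤ r → 0 ≤ A₀ → ∃ K : ℝ, 0 ≤ K ∧ ∀ (J : ℝ → ℝ) (U V G W η α : ℝ) (C C1 : ℝ → ℝ), |η| ≤ 1 →
  0 ≤ G → 0 ≤ W → Os α C C1 → α ≤ 1 / 4 → ∀ X : ℕ, 2 ≤ X → α * Real.log X ≤ A₀ →
  (∀ z, 0 ≤ z → z ≤ Real.log (r * X) → |J z - (U * (∫ u in (0 : ℝ)..z, C u) + 2 * V * C z)| ≤ G * Real.exp (-z / 8) + W) →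
  (∀ z, z ≤ 0 → |J z| ≤ G * Real.exp (-z / 8)) →
  |∑' j : ℕ, (η / √2) ^ j * ∑ d ∈ Finset.Icc 1 X, J (Real.log (r * d) / 2 - j * Real.log 2) -
      U / (1 - η / √2) * (X * ∫ u in (0 : ℝ)..(Real.log X / 2), C u)| ≤
    K * (X * (|U| + |V| + W) + G * (X : ℝ) ^ (15 / 16 : ℝ))

end

end Pool.Agent.K4H95.LQ
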