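import Pool.Agent.H568.SP.Moment
import Pool.Agent.W406.TW.Jac
import Pool.Agent.H382R2.SqFree

/-!
# Sums of Jacobi symbols over the squarefree numbers of a class modulo 8
-/

set_option autoImplicit false

namespace Pool.Agent.K4H95.LQ

open Finset

noncomputable section

/-- the Jacobi symbol `(b / N)` -/
def jr (b N : ℕ) : ℝ := ((jacobiSym (b : ℤ) N : ℤ) : ℝ)

lemma jr_abs (b N : ℕ) : |jr b N| ≤ 1 := Pool.Agent.H568.SP.jac_abs_le _ _

lemma jr_mul (a b N : ℕ) : jr (a * b) N = jr a N * jr b N := by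
  unfold jr
  push_cast
  rw [jacobiSym.mul_left]
  push_cast
  rfl

lemma jr_sq (a N : ℕ) (hN : N ≠ 0) : jr (a ^ 2) N = if a.Coprime N then 1 else 0 := by
  have : NeZero N := ⟨hN⟩
  unfold jr
  split_ifs with h
  · have h1 : (a : ℤ).gcd N = 1 := by rwa [Int.gcd_natCast_natCast]
    have h2 := jacobiSym.sq_one' h1
    push_cast
    rw [h2]
    norm_num
  · have h1 : jacobiSym (a : ℤ) N = 0 := by
      rw [jacobiSym.eq_zero_iff_not_coprime, Int.gcd_natCast_natCast]
      exact h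
    push_cast
    rw [pow_two, jacobiSym.mul_left, h1]
    norm_num

/-- the sum over a class -/
def US (c N y : ℕ) : ℝ := ∑ b ∈ (Icc 1 y).filter (fun b => b % 8 = c), jr b N

/-- the sum over the squarefree numbers of a class -/
def SS (c N x : ℕ) : ℝ := ∑ d ∈ (Icc 1 x).filter (fun d => d % 8 = c ∧ Squarefree d), jr d N

lemma US_range {c : ℕ} (hc : 1 ≤ c) (hc8 : c < 8) (N y : ℕ) :
    US c N y = ∑ l ∈ range ((y + 8 - c) / 8), jr (c + 8 * l) N := by
  unfold US
  symm
  refine Finset.sum_bij (fun l _ => c + 8 * l) (fun l hl => ?_) (fun l _ l' _ h => by omega) (fun b hb => ?_)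
    (fun l _ => rfl)
  · rw [mem_range] at hl
    rw [mem_filter, mem_Icc]
    omega
  · rw [mem_filter, mem_Icc] at hb
    refine ⟨b / 8, ?_, ?_⟩
    · rw [mem_range]
      omega
    · omega

lemma sum_shift (f : ℕ → ℝ) (m L : ℕ) : ∑ l ∈ range L, f (l + (m + 1)) =
    ∑ n ∈ Icc 1 (m + L), f n - ∑ n ∈ Icc 1 m, f n := by
  induction L with
  | zero => simp
  | succ L ih =>
    rw [sum_range_succ, ih, show m + (L + 1) = m + L + 1 by ring, Finset.sum_Icc_succ_top (by omega),
      show L + (m + 1) = m + L + 1 by ring]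
    ring

/-- Polya-Vinogradov for a class modulo 8 -/
lemma US_nonsq {c : ℕ} (hc : 1 ≤ c) (hc8 : c < 8) {N : ℕ} (hN : Odd N) (hsq : ¬ IsSquare N) (y : ℕ) :
    |US c N y| ≤ 8 * Real.sqrt N * (1 + Real.log N) := by
  have hN2 : 2 ≤ N := by
    rcases Nat.lt_or_ge N 2 with h | h
    · interval_cases N
      · exact absurd ⟨0, rfl⟩ hsq
      · exact absurd ⟨1, rfl⟩ hsq
    · exact h
  have hne : ∃ a : ℕ, jacobiSym (a : ℤ) N = -1 := by
    obtain ⟨a, ha⟩ := Pool.Agent.W406.TW.exists_neg hN hsq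
    refine ⟨(a % N).toNat, ?_⟩
    rw [Int.toNat_of_nonneg (Int.emod_nonneg _ (by omega)), ← jacobiSym.mod_left]
    exact ha
  have hcop : Nat.Coprime 8 N := by
    have : Nat.Coprime 2 N := (Nat.coprime_two_left).2 hN
    exact Nat.Coprime.pow_left 3 this
  obtain ⟨i, -, hi⟩ := Nat.exists_mul_mod_eq_one_of_coprime hcop (by omega)
  have hi0 : i ≠ 0 := by
    rintro rfl
    simp at hi
  have hci : c * i ≠ 0 := Nat.mul_ne_zero (by omega) hi0
  obtain ⟨m, hm⟩ : ∃ m, c * i = m + 1 := ⟨c * i - 1, by omega⟩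
  have key : ∀ l : ℕ, jr (c + 8 * l) N = jr 8 N * jr (l + (m + 1)) N := by
    intro l
    rw [← jr_mul, ← hm]
    unfold jr
    congr 1
    apply jacobiSym.mod_left'
    have h1 : 8 * (l + c * i) = 8 * l + c * (8 * i) := by ring
    have h2 : (c + 8 * l) % N = (8 * (l + c * i)) % N := by
      rw [h1, Nat.add_mod (8 * l), Nat.mul_mod c, hi, mul_one, Nat.mod_mod, ← Nat.add_mod, add_comm]
    exact_mod_cast h2
  rw [US_range hc hc8]
  simp only [key]
  rw [← mul_sum, abs_mul, sum_shift (fun n => jr n N)]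
  have h3 := Pool.Agent.H568.SP.jac_sum_le N hN2 hne (m + (y + 8 - c) / 8)
  have h4 := Pool.Agent.H568.SP.jac_sum_le N hN2 hne m
  have h5 := jr_abs 8 N
  have h6 : |∑ n ∈ Icc 1 (m + (y + 8 - c) / 8), jr n N - ∑ n ∈ Icc 1 m, jr n N| ≤
      4 * Real.sqrt N * (1 + Real.log N) + 4 * Real.sqrt N * (1 + Real.log N) :=
    (abs_sub _ _).trans (add_le_add h3 h4)
  calc |jr 8 N| * |∑ n ∈ Icc 1 (m + (y + 8 - c) / 8), jr n N - ∑ n ∈ Icc 1 m, jr n N| ≤
      1 * (4 * Real.sqrt N * (1 + Real.log N) + 4 * Real.sqrt N * (1 + Real.log N)) :=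
        mul_le_mul h5 h6 (abs_nonneg _) zero_le_one
    _ = _ := by ring

lemma US_triv (c N y : ℕ) : |US c N y| ≤ y := by
  unfold US
  refine (abs_sum_le_sum_abs _ _).trans ?_
  refine (sum_le_sum fun b _ => jr_abs b N).trans ?_
  rw [sum_const, nsmul_eq_mul, mul_one]
  have : ((Icc 1 y).filter (fun b => b % 8 = c)).card ≤ y := by
    refine (card_filter_le _ _).trans ?_
    simp
  exact_mod_cast this

/-- the sieve identity -/
lemma SS_eq {c : ℕ} (hc : c % 2 = 1) (N x : ℕ) :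
    SS c N x = ∑ a ∈ Icc 1 x, (if a % 2 = 1 then ((ArithmeticFunction.moebius a : ℤ) : ℝ) * jr (a ^ 2) N *
      US c N (x / a ^ 2) else 0) := by
  have h1 : SS c N x = ∑ d ∈ (Icc 1 x).filter (fun d => d % 8 = c),
      ∑ a ∈ Icc 1 x, (if a ^ 2 ∣ d then ((ArithmeticFunction.moebius a : ℤ) : ℝ) * jr d N else 0) := by
    unfold SS
    rw [← Finset.filter_filter, Finset.sum_filter]
    refine sum_congr rfl fun d hd => ?_
    rw [mem_filter, mem_Icc] at hd
    have h2 := SG.moebius_sq_eq d (by omega)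
    have h3 : ((ArithmeticFunction.moebius d : ℤ) : ℝ) ^ 2 = if Squarefree d then 1 else 0 := by
      have := congrArg (fun z : ℤ => (z : ℝ)) (ArithmeticFunction.moebius_sq (n := d))
      push_cast at this
      exact this
    rw [h3] at h2
    have h4 : (∑ a ∈ Icc 1 x, (if a ^ 2 ∣ d then ((ArithmeticFunction.moebius a : ℤ) : ℝ) * jr d N else 0)) =
        (∑ a ∈ Icc 1 d, (if a ^ 2 ∣ d then ((ArithmeticFunction.moebius a : ℤ) : ℝ) else 0)) * jr d N := by
      rw [sum_mul]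
      symm
      have h5 : ∀ a ∈ Icc 1 d, (if a ^ 2 ∣ d then ((ArithmeticFunction.moebius a : ℤ) : ℝ) else 0) * jr d N =
          if a ^ 2 ∣ d then ((ArithmeticFunction.moebius a : ℤ) : ℝ) * jr d N else 0 := by
        intro a _
        split_ifs <;> simp
      rw [sum_congr rfl h5]
      refine sum_subset (Icc_subset_Icc_right hd.1.2) fun a ha ha' => ?_
      rw [if_neg]
      intro h
      apply ha'
      rw [mem_Icc] at ha ⊢
      refine ⟨ha.1, ?_⟩
      have h6 : a ^ 2 ≤ d := Nat.le_of_dvd (by omega) h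
      nlinarith [ha.1]
    rw [h4, ← h2]
    split_ifs <;> simp
  rw [h1, sum_comm]
  refine sum_congr rfl fun a ha => ?_
  rw [mem_Icc] at ha
  have ha0 : 0 < a ^ 2 := Nat.pow_pos (by omega)
  split_ifs with hodd
  · have h8 : a ^ 2 % 8 = 1 := by
      have : a % 8 = 1 ∨ a % 8 = 3 ∨ a % 8 = 5 ∨ a % 8 = 7 := by omega
      rcases this with h | h | h | h <;> simp [Nat.pow_mod, h]
    rw [← sum_filter]
    have h2 : ∑ d ∈ ((Icc 1 x).filter (fun d => d % 8 = c)).filter (fun d => a ^ 2 ∣ d),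
        ((ArithmeticFunction.moebius a : ℤ) : ℝ) * jr d N =
        ∑ b ∈ (Icc 1 (x / a ^ 2)).filter (fun b => b % 8 = c),
          ((ArithmeticFunction.moebius a : ℤ) : ℝ) * jr (a ^ 2 * b) N := by
      symm
      refine Finset.sum_bij (fun b _ => a ^ 2 * b) (fun b hb => ?_) (fun b _ b' _ h => ?_) (fun d hd => ?_)
        (fun b _ => rfl)
      · rw [mem_filter, mem_Icc] at hb
        rw [mem_filter, mem_filter, mem_Icc]
        refine ⟨⟨⟨Nat.mul_pos ha0 (by omega), ?_⟩, ?_⟩, dvd_mul_right _ _⟩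
        · have := (Nat.le_div_iff_mul_le ha0).1 hb.1.2
          rwa [mul_comm] at this
        · rw [Nat.mul_mod, h8, one_mul, Nat.mod_mod]
          exact hb.2
      · exact Nat.eq_of_mul_eq_mul_left ha0 h
      · rw [mem_filter, mem_filter, mem_Icc] at hd
        obtain ⟨⟨⟨h3, h4⟩, h5⟩, b, hb⟩ := hd
        refine ⟨b, ?_, hb.symm⟩
        rw [mem_filter, mem_Icc]
        refine ⟨⟨?_, ?_⟩, ?_⟩
        · rcases Nat.eq_zero_or_pos b with h | h
          · subst h
            omega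
          · exact h
        · rw [Nat.le_div_iff_mul_le ha0, mul_comm, ← hb]
          exact h4
        · rw [hb, Nat.mul_mod, h8, one_mul, Nat.mod_mod] at h5
          exact h5
    rw [h2]
    unfold US
    rw [mul_sum]
    refine sum_congr rfl fun b _ => ?_
    rw [jr_mul]
    ring
  · refine sum_eq_zero fun d hd => ?_
    rw [mem_filter] at hd
    rw [if_neg]
    intro h
    have h2 : 2 ∣ a := by omega
    have h4 : 2 ∣ d := (h2.trans (dvd_pow_self a two_ne_zero)).trans h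
    omega

lemma mu_abs (a : ℕ) : |((ArithmeticFunction.moebius a : ℤ) : ℝ)| ≤ 1 := SG.abs_moebius_real_le a

lemma harm_le (x : ℕ) (hx : 1 ≤ x) : ∑ a ∈ Icc 1 x, (1 : ℝ) / a ≤ 1 + Real.log x := by
  have h1 : (1:ℝ) ≤ (x:ℝ) := by exact_mod_cast hx
  have := SG.H0_le (x : ℝ) h1
  unfold SG.H0 at this
  rwa [Nat.floor_natCast] at this

/-- **non-squares** -/
theorem SS_nonsq {c : ℕ} (hc : c % 2 = 1) (hc8 : c < 8) {N : ℕ} (hN : Odd N) (hsq : ¬ IsSquare N) {x : ℕ} (hx : 1 ≤ x) :
    |SS c N x| ≤ Real.sqrt (8 * Real.sqrt N * (1 + Real.log N)) * Real.sqrt x * (1 + Real.log x) := by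
  have hN1 : (1:ℝ) ≤ N := by
    have : 1 ≤ N := hN.pos
    exact_mod_cast this
  set K : ℝ := 8 * Real.sqrt N * (1 + Real.log N) with hK
  have hK0 : 0 ≤ K := by
    have := Real.log_nonneg hN1
    positivity
  rw [SS_eq hc]
  refine (abs_sum_le_sum_abs _ _).trans ?_
  have h1 : ∀ a ∈ Icc 1 x, |(if a % 2 = 1 then ((ArithmeticFunction.moebius a : ℤ) : ℝ) * jr (a ^ 2) N *
      US c N (x / a ^ 2) else 0)| ≤ Real.sqrt K * Real.sqrt x * (1 / a) := by
    intro a ha
    rw [mem_Icc] at ha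
    have ha0 : (0:ℝ) < a := by exact_mod_cast ha.1
    split_ifs
    · rw [abs_mul, abs_mul]
      have h2 := US_nonsq (c := c) (by omega) hc8 hN hsq (x / a ^ 2)
      have h3 := US_triv c N (x / a ^ 2)
      have h4 : ((x / a ^ 2 : ℕ) : ℝ) ≤ x / a ^ 2 := by
        have := @Nat.cast_div_le ℝ _ _ _ x (a ^ 2)
        push_cast at this
        exact this
      have h5 : |US c N (x / a ^ 2)| ≤ Real.sqrt (K * (x / a ^ 2)) := by
        rw [← Real.sqrt_sq (abs_nonneg (US c N (x / a ^ 2)))]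
        apply Real.sqrt_le_sqrt
        rw [sq]
        exact mul_le_mul h2 (h3.trans h4) (abs_nonneg _) hK0
      have h6 : Real.sqrt (K * (x / a ^ 2)) = Real.sqrt K * Real.sqrt x * (1 / a) := by
        rw [Real.sqrt_mul hK0, Real.sqrt_div (by positivity), Real.sqrt_sq ha0.le]
        ring
      rw [← h6]
      calc |((ArithmeticFunction.moebius a : ℤ) : ℝ)| * |jr (a ^ 2) N| * |US c N (x / a ^ 2)| ≤
          1 * 1 * Real.sqrt (K * (x / a ^ 2)) := by
            gcongr
            · exact mu_abs a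
            · exact jr_abs _ _
        _ = _ := by ring
    · rw [abs_zero]
      positivity
  refine (sum_le_sum h1).trans ?_
  rw [← mul_sum]
  exact mul_le_mul_of_nonneg_left (harm_le x hx) (by positivity)

end

end Pool.Agent.K4H95.LQ
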