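import Pool.Agent.K4H95.LQ.Spec4
import Pool.Agent.K4H95.LQ.I5
import Pool.Agent.K4H95.LQ.Fin

/-!
# All real primitive characters of a parity with prescribed values
-/

set_option autoImplicit false

namespace Pool.Agent.K4H95.LQ

open Finset Filter Topology Pool.Agent.H306R2.RG Pool.Agent.H306R2.RZ Pool.Agent.X278.AV

noncomputable section

/-! ### the constants -/

lemma prLE_eq {Y : ℕ} (hY : 2 ≤ Y) : prLE Y = insert 2 (oddP Y) := by
  ext p
  unfold prLE oddP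
  simp only [mem_filter, mem_insert, mem_Icc]
  constructor
  · rintro ⟨h1, h2⟩
    by_cases h : p = 2
    · exact Or.inl h
    · exact Or.inr ⟨h1, h2, h⟩
  · rintro (rfl | ⟨h1, h2, -⟩)
    · exact ⟨⟨by norm_num, hY⟩, Nat.prime_two⟩
    · exact ⟨h1, h2⟩

lemma two_notMem (Y : ℕ) : 2 ∉ oddP Y := fun h => (oddP_OP Y 2 h).2 rfl

/-- the tail factors -/
def tl (Y : ℕ) (p : Nat.Primes) : ℝ := if (p : ℕ) ≤ Y then (1 : ℝ) else 1 - 1 / (((p : ℕ) : ℝ) * (((p : ℕ) : ℝ) + 1))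

theorem tl_mult (Y : ℕ) : Multipliable (tl Y) := by
  have h1 : Summable fun n : ℕ => (1 : ℝ) / (n : ℝ) ^ 2 := Real.summable_one_div_nat_pow.2 (by norm_num)
  have h2 : Summable fun p : Nat.Primes => (1 : ℝ) / ((p : ℕ) : ℝ) ^ 2 :=
    h1.comp_injective (i := fun p : Nat.Primes => (p : ℕ)) Subtype.val_injective
  have h3 : Summable fun p : Nat.Primes => ‖tl Y p - 1‖ := by
    refine Summable.of_nonneg_of_le (fun _ => norm_nonneg _) (fun p => ?_) h2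
    have hp : (2 : ℝ) ≤ (p : ℕ) := by exact_mod_cast p.2.two_le
    unfold tl
    split_ifs with h
    · rw [sub_self, norm_zero]
      positivity
    · have e1 : 1 - 1 / (((p : ℕ) : ℝ) * (((p : ℕ) : ℝ) + 1)) - 1 = -(1 / (((p : ℕ) : ℝ) * (((p : ℕ) : ℝ) + 1))) := by ring
      rw [e1, norm_neg, Real.norm_of_nonneg (by positivity)]
      apply one_div_le_one_div_of_le (by positivity)
      nlinarith
  have h4 := multipliable_one_add_of_summable h3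
  simpa using h4

theorem Gm_split {Y : ℕ} (hY : 2 ≤ Y) : Gm 1 = 1 / 2 * ((∏ p ∈ oddP Y, (1 - 1 / ((p : ℝ) * ((p : ℝ) + 1)))) * ∏' p, tl Y p) := by
  set g : Nat.Primes → ℝ := fun p => if (p : ℕ) ≤ Y then A2.hh p else 1 with hg
  have h1 : ∀ b ∉ (prLE Y).subtype Nat.Prime, g b = 1 := by
    intro b hb
    rw [hg]
    simp only
    rw [if_neg]
    intro h3
    apply hb
    rw [Finset.mem_subtype]
    unfold prLE
    rw [mem_filter, mem_Icc]
    exact ⟨⟨b.2.one_le, h3⟩, b.2⟩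
  have h2 : HasProd g (∏ b ∈ (prLE Y).subtype Nat.Prime, g b) := hasProd_prod_of_ne_finset_one h1
  have h3 : ∏ b ∈ (prLE Y).subtype Nat.Prime, g b = ∏ p ∈ oddP Y, (1 - 1 / ((p : ℝ) * ((p : ℝ) + 1))) := by
    have e0 : ∏ b ∈ (prLE Y).subtype Nat.Prime, (fun n : ℕ => if n ≤ Y then (if n = 2 then (1:ℝ) else
        1 - 1 / ((n : ℝ) * ((n : ℝ) + 1))) else 1) (b : ℕ) = ∏ p ∈ oddP Y, (1 - 1 / ((p : ℝ) * ((p : ℝ) + 1))) := by
      rw [Finset.prod_subtype_eq_prod_filter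
        (f := fun n : ℕ => if n ≤ Y then (if n = 2 then (1:ℝ) else 1 - 1 / ((n : ℝ) * ((n : ℝ) + 1))) else 1) (p := Nat.Prime)]
      have e5 : (prLE Y).filter Nat.Prime = prLE Y := by
        refine Finset.filter_true_of_mem fun p hp => ?_
        unfold prLE at hp
        exact (mem_filter.1 hp).2
      rw [e5, prLE_eq hY, prod_insert (two_notMem Y)]
      rw [if_pos hY, if_pos rfl, one_mul]
      refine prod_congr rfl fun p hp => ?_
      rw [if_pos (oddP_le Y p hp), if_neg (oddP_OP Y p hp).2]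
    exact e0
  rw [h3] at h2
  have h4 := h2.mul (tl_mult Y).hasProd
  have h5 : ∏' p : Nat.Primes, A2.hh p = (∏ p ∈ oddP Y, (1 - 1 / ((p : ℝ) * ((p : ℝ) + 1)))) * ∏' p, tl Y p := by
    rw [← h4.tprod_eq]
    refine tprod_congr fun p => ?_
    rw [hg]
    simp only
    unfold tl
    by_cases h : (p : ℕ) ≤ Y
    · rw [if_pos h, if_pos h, mul_one]
    · rw [if_neg h, if_neg h, one_mul]
      unfold A2.hh
      rw [if_neg (by omega)]
  unfold Gm
  rw [← h5]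
  congr 1
  refine tprod_congr fun p => ?_
  unfold A2.hh
  split_ifs with h6 h7
  · rfl
  · exact absurd (Nat.dvd_one.1 h7) p.2.one_lt.ne'
  · rfl

theorem UM {Y : ℕ} (hY : 2 ≤ Y) {a : ℕ → ℝ} (ha : Pat a) :
    UL (oddP Y) a / (1 - a 2 / √2) = 3 * (prY Y a * MY Y * PYa Y a) := by
  have e2 : pim 2 (a 2) = 1 / 3 := by
    unfold pim
    split_ifs <;> norm_num
  have hne : ∀ p ∈ oddP Y, (1 - 1 / ((p : ℝ) * ((p : ℝ) + 1))) ≠ 0 := by
    intro p hp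
    have h2 : (2:ℝ) ≤ p := by exact_mod_cast (oddP_OP Y p hp).1.two_le
    have : 0 < 1 - 1 / ((p : ℝ) * ((p : ℝ) + 1)) := by
      rw [sub_pos, div_lt_one (by positivity)]
      nlinarith
    exact this.ne'
  have h1 : ∏ p ∈ oddP Y, lam p (a p) = (∏ p ∈ oddP Y, pim p (a p)) * (∏ p ∈ oddP Y, (1 - 1 / (p : ℝ))) *
      (∏ p ∈ oddP Y, (1 - a p / √(p : ℝ))⁻¹) * (∏ p ∈ oddP Y, (1 - 1 / ((p : ℝ) * ((p : ℝ) + 1))))⁻¹ := by
    rw [← prod_inv_distrib, ← prod_mul_distrib, ← prod_mul_distrib, ← prod_mul_distrib]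
    refine prod_congr rfl fun p _ => ?_
    unfold lam
    rw [div_eq_mul_inv, div_eq_mul_inv]
  have hP : ∏ p ∈ oddP Y, (1 - 1 / ((p : ℝ) * ((p : ℝ) + 1))) ≠ 0 := prod_ne_zero_iff.2 hne
  unfold UL prY MY PYa
  rw [h1, Gm_split hY, prLE_eq hY, prod_insert (two_notMem Y), prod_insert (two_notMem Y), prod_insert (two_notMem Y), e2]
  have e3 : (∏' p : Nat.Primes, if (p : ℕ) ≤ Y then (1 : ℝ) else 1 - 1 / (((p : ℕ) : ℝ) * (((p : ℕ) : ℝ) + 1))) =
    ∏' p, tl Y p := rfl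
  rw [e3, div_eq_mul_inv]
  generalize (∏ p ∈ oddP Y, (1 - 1 / ((p : ℝ) * ((p : ℝ) + 1)))) = A at *
  generalize (∏ p ∈ oddP Y, pim p (a p)) = B at *
  generalize (∏ p ∈ oddP Y, (1 - 1 / (p : ℝ))) = C at *
  generalize (∏ p ∈ oddP Y, (1 - a p / √(p : ℝ))⁻¹) = D at *
  generalize (∏' p, tl Y p) = E at *
  push_cast
  calc 1 / 2 * (A * E) * (B * C * D * A⁻¹) * (1 - a 2 / √2)⁻¹ =
      (A * A⁻¹) * (1 / 2 * (E * (B * C * D) * (1 - a 2 / √2)⁻¹)) := by ring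
    _ = 1 / 2 * (E * (B * C * D) * (1 - a 2 / √2)⁻¹) := by rw [mul_inv_cancel₀ hP, one_mul]
    _ = _ := by ring

/-! ### the range -/

lemma range_facts {X Y : ℕ} (hY : 2 ≤ Y) (h : (Y : ℝ) ≤ Real.log X / 1000) : (1:ℝ) ≤ X ∧ 2000 ≤ Real.log X ∧ 1000 ≤ X := by
  have h1 : (2:ℝ) ≤ Y := by exact_mod_cast hY
  have h2 : 2000 ≤ Real.log X := by linarith
  have h3 : (0:ℝ) < X := by
    by_contra hcon
    have h4 : (X:ℝ) = 0 := le_antisymm (not_lt.1 hcon) (Nat.cast_nonneg _)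
    rw [h4, Real.log_zero] at h2
    linarith
  have h5 : Real.log X ≤ X - 1 := Real.log_le_sub_one_of_pos h3
  have h6 : (1000:ℝ) ≤ X := by linarith
  exact ⟨by linarith, h2, by exact_mod_cast h6⟩

/-- one member of the division of the range -/
lemma div_facts {X r : ℕ} (hr : 1 ≤ r) (hr8 : r ≤ 8) (hX : 1000 ≤ X) :
    2 ≤ X / r ∧ |((X / r : ℕ) : ℝ) - X / r| ≤ 1 ∧ ((X / r : ℕ) : ℝ) ≤ X ∧ (X:ℝ) / 16 ≤ ((X / r : ℕ) : ℝ) := by
  have hr0 : (0:ℝ) < r := by exact_mod_cast hr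
  have hX0 : (0:ℝ) < X := by exact_mod_cast (by omega : 0 < X)
  have h1 : ((X / r : ℕ) : ℝ) ≤ (X:ℝ) / r := Nat.cast_div_le
  have h2 : (X:ℝ) / r < ((X / r : ℕ) : ℝ) + 1 := by
    rw [div_lt_iff₀ hr0]
    have := Nat.lt_div_mul_add (a := X) (b := r) (by omega)
    have h9 : (X:ℝ) < ((X / r : ℕ) : ℝ) * r + r := by exact_mod_cast this
    linarith
  have h3 : (X:ℝ) / r ≤ X := div_le_self hX0.le (by exact_mod_cast hr)
  have h4 : (X:ℝ) / 8 ≤ (X:ℝ) / r := by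
    apply div_le_div_of_nonneg_left hX0.le hr0
    exact_mod_cast hr8
  have hXr : (1000:ℝ) ≤ X := by exact_mod_cast hX
  refine ⟨?_, ?_, h1.trans h3, by linarith⟩
  · have : 1000 / 8 ≤ X / r := Nat.div_le_div hX hr8 (by omega)
    omega
  · rw [abs_le]
    constructor <;> linarith

lemma pow_facts {X Y r : ℕ} (hY : 2 ≤ Y) (h : (Y : ℝ) ≤ Real.log X / 1000) (hr : 1 ≤ r) (hr8 : r ≤ 8) :
    (256 : ℝ) ^ Y ≤ ((X / r : ℕ) : ℝ) ^ (1 / 64 : ℝ) := by
  obtain ⟨hX1, hX2, hX3⟩ := range_facts hY h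
  obtain ⟨d1, d2, d3, d4⟩ := div_facts hr hr8 hX3
  have hX0 : (0:ℝ) < X := by linarith
  have hZ : (0:ℝ) < ((X / r : ℕ) : ℝ) := by exact_mod_cast (by omega : 0 < X / r)
  have h1 : Real.log X - Real.log 16 ≤ Real.log ((X / r : ℕ) : ℝ) := by
    rw [← Real.log_div hX0.ne' (by norm_num)]
    exact Real.log_le_log (by positivity) d4
  have h2 := Real.log_two_lt_d9
  have h3 : Real.log 256 = 8 * Real.log 2 := by
    rw [show (256:ℝ) = 2 ^ 8 by norm_num, Real.log_pow]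
    norm_num
  have h4 : Real.log 16 = 4 * Real.log 2 := by
    rw [show (16:ℝ) = 2 ^ 4 by norm_num, Real.log_pow]
    norm_num
  rw [← Real.rpow_natCast, Real.rpow_def_of_pos (by norm_num), Real.rpow_def_of_pos hZ]
  apply Real.exp_le_exp.2
  have h5 : Real.log 256 * (Y:ℝ) ≤ 6 * (Real.log X / 1000) := by
    rw [h3]
    have : 8 * Real.log 2 ≤ 6 := by linarith
    have h6 : (0:ℝ) ≤ Y := Nat.cast_nonneg _
    nlinarith [Real.log_two_gt_d9]
  linarith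

lemma xlog_facts {X r : ℕ} (hr : 1 ≤ r) (hr8 : r ≤ 8) (hX : 1000 ≤ X) :
    |((X / r : ℕ) : ℝ) * Real.log ((X / r : ℕ) : ℝ) - (X:ℝ) / r * Real.log X| ≤ 4 * X := by
  obtain ⟨d1, d2, d3, d4⟩ := div_facts hr hr8 hX
  have hX0 : (0:ℝ) < X := by exact_mod_cast (by omega : 0 < X)
  have hXr : (1000:ℝ) ≤ X := by exact_mod_cast hX
  have hZ : (0:ℝ) < ((X / r : ℕ) : ℝ) := by exact_mod_cast (by omega : 0 < X / r)
  have hl : 0 ≤ Real.log X := Real.log_nonneg (by linarith)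
  have hl2 : Real.log X ≤ X - 1 := Real.log_le_sub_one_of_pos hX0
  have h1 : Real.log X - Real.log 16 ≤ Real.log ((X / r : ℕ) : ℝ) := by
    rw [← Real.log_div hX0.ne' (by norm_num)]
    exact Real.log_le_log (by positivity) d4
  have h2 : Real.log ((X / r : ℕ) : ℝ) ≤ Real.log X := Real.log_le_log hZ d3
  have h4 : Real.log 16 ≤ 3 := by
    have : Real.log 16 = 4 * Real.log 2 := by
      rw [show (16:ℝ) = 2 ^ 4 by norm_num, Real.log_pow]
      norm_num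
    have := Real.log_two_lt_d9
    linarith
  have e1 : ((X / r : ℕ) : ℝ) * Real.log ((X / r : ℕ) : ℝ) - (X:ℝ) / r * Real.log X =
      (((X / r : ℕ) : ℝ) - X / r) * Real.log X + ((X / r : ℕ) : ℝ) * (Real.log ((X / r : ℕ) : ℝ) - Real.log X) := by ring
  rw [e1]
  refine (abs_add_le _ _).trans ?_
  rw [abs_mul, abs_mul, abs_of_nonneg hl, abs_of_pos hZ]
  have h5 : |Real.log ((X / r : ℕ) : ℝ) - Real.log X| ≤ 3 := by
    rw [abs_le]
    constructor <;> linarith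
  calc _ ≤ 1 * Real.log X + X * 3 := by gcongr
    _ ≤ _ := by linarith

/-! ### the families -/

/-- the value of a member -/
def Gv (Y : ℕ) (a : ℕ → ℝ) (f : FD → ℕ → ℝ) (φ : FD) (d : ℕ) : ℝ :=
  open Classical in if ∀ p ∈ prLE Y, cf φ d p = a p then f φ d else 0

lemma cf_two' {φ : FD} (d : ℕ) : cf φ d 2 = φ.η := cf_two d

open Classical in
lemma fsum_Gv {Y : ℕ} (hY : 2 ≤ Y) (a : ℕ → ℝ) (f : FD → ℕ → ℝ) (φ : FD) (Z : ℕ) :
    fsum (Gv Y a f) φ Z = if φ.η = a 2 then ∑ d ∈ FF φ Z, ind φ (oddP Y) a d * f φ d else 0 := by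
  have key : ∀ d, (∀ p ∈ prLE Y, cf φ d p = a p) ↔ (φ.η = a 2 ∧ ∀ p ∈ oddP Y, jo φ d p = a p) := by
    intro d
    rw [prLE_eq hY]
    simp only [mem_insert, forall_eq_or_imp]
    rw [cf_two]
    refine and_congr_right fun _ => ?_
    refine forall₂_congr fun p hp => ?_
    rw [cf_odd d (oddP_OP Y p hp).1 (oddP_OP Y p hp).2]
  have e1 : fsum (Gv Y a f) φ Z = ∑ d ∈ FF φ Z, Gv Y a f φ d := rfl
  rw [e1]
  split_ifs with h
  · refine sum_congr rfl fun d _ => ?_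
    unfold Gv ind
    simp only [key d, h, true_and]
    split_ifs <;> ring
  · refine sum_eq_zero fun d _ => ?_
    unfold Gv
    rw [if_neg (fun h2 => h ((key d).1 h2).1)]

/-- the sum over the characters with the pattern, in terms of the families -/
theorem sub_sum {Y : ℕ} (hY : 2 ≤ Y) (a : ℕ → ℝ) {ε : ℤ} (hε : ε = 1 ∨ ε = -1) (X : ℕ)
    (F : (Σ N : ℕ, DirichletCharacter ℂ N) → ℝ) (f : FD → ℕ → ℝ)
    (hF : ∀ (φ : FD) (d : ℕ) (χ : DirichletCharacter ℂ (φ.r * d)), Fam φ → φ.A d → Squarefree d → χ.IsPrimitive →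
      χ ^ 2 = 1 → χ ≠ 1 → (∀ n : ℕ, n ≠ 0 → χ (n : ZMod (φ.r * d)) = ((cf φ d n : ℝ) : ℂ)) → F ⟨φ.r * d, χ⟩ = f φ d) :
    ∑ᶠ χ ∈ Sub ε X Y a, F χ = fsum (Gv Y a f) (F8 ε) (X / 8) + fsum (Gv Y a f) (F4 ε) (X / 4) +
      fsum (Gv Y a f) (F1 ε 1) X + fsum (Gv Y a f) (F1 ε 5) X := by
  classical
  have h1 := d ε hε (fun χ => if ∀ p ∈ prLE Y, χ.2 ((p : ℕ) : ZMod χ.1) = (a p : ℂ) then F χ else 0) (Gv Y a f)
    (fun φ n χ hφ hA hn hp h2 h3 hv => by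
      unfold Gv
      have e1 : (∀ p ∈ prLE Y, χ ((p : ℕ) : ZMod (φ.r * n)) = (a p : ℂ)) ↔ (∀ p ∈ prLE Y, cf φ n p = a p) := by
        refine forall₂_congr fun p hp => ?_
        have hp0 : p ≠ 0 := by
          unfold prLE at hp
          exact (mem_filter.1 hp).2.ne_zero
        rw [hv p hp0]
        exact Complex.ofReal_inj
      simp only [e1]
      rw [hF φ n χ hφ hA hn hp h2 h3 hv]) X
  rw [← h1.2, finsum_mem_def, finsum_mem_def]
  refine finsum_congr fun χ => ?_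
  by_cases h2 : χ ∈ Chs ε X
  · by_cases h3 : ∀ p ∈ prLE Y, χ.2 ((p : ℕ) : ZMod χ.1) = (a p : ℂ)
    · rw [Set.indicator_of_mem (show χ ∈ Sub ε X Y a from ⟨h2, h3⟩), Set.indicator_of_mem h2, if_pos h3]
    · rw [Set.indicator_of_notMem (fun h4 : χ ∈ Sub ε X Y a => h3 h4.2), Set.indicator_of_mem h2, if_neg h3]
  · rw [Set.indicator_of_notMem (fun h4 : χ ∈ Sub ε X Y a => h2 h4.1), Set.indicator_of_notMem h2]

end

end Pool.Agent.K4H95.LQ
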