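import Pool.Agent.K4H95.LQ.T

/-!
# All real primitive characters of a parity with prescribed values: sum and number
-/

set_option autoImplicit false

namespace Pool.Agent.K4H95.LQ

open Finset Filter Topology Pool.Agent.H306R2.RG Pool.Agent.H306R2.RZ Pool.Agent.X278.AV

noncomputable section

lemma r_eight {φ : FD} (hφ : Fam φ) : 1 ≤ φ.r ∧ φ.r ≤ 8 := by
  obtain ⟨ε, hε, h | h | h | h⟩ := hφ <;> rw [h] <;> simp [F8, F4, F1]

lemma eta_pos {φ : FD} (hφ : Fam φ) : 0 < 1 - φ.η / √2 ∧ 1 / 4 ≤ 1 - φ.η / √2 := by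
  have h1 := (abs_le.1 (eta_q hφ)).2
  have h2 := q_facts.2.2
  have h3 := q_facts.2.1
  have h4 : (1:ℝ) / 4 ≤ 1 - 1 / √2 := by
    have h5 : 0 < 1 - 1 / √(2:ℝ) := by linarith
    rw [inv_le_comm₀ h5 (by norm_num)] at h2
    linarith
  constructor <;> linarith

/-- one family, with the range divided -/
theorem fam_T (h1 : StI1) (h1b : StI1b) (h2 : StI2) (h3 : StI3) (h4 : StI4) (h6 : StI6) (hP1 : StP1) (hP2 : StP2)
    (hR2 : StR2) {φ : FD} (hφ : Fam φ) : ∃ K : ℝ, 0 ≤ K ∧ ∀ (X Y : ℕ) (a : ℕ → ℝ), Pat a → 2 ≤ Y →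
    (Y : ℝ) ≤ Real.log X / 1000 →
    |SI φ (oddP Y) a (X / φ.r) - φ.δ / φ.r * (8 / Real.pi ^ 2) * (UL (oddP Y) a / (2 * (1 - φ.η / √2))) *
      (X * Real.log X)| ≤ K * UL (oddP Y) a * (1 + √(Y : ℝ)) * X := by
  obtain ⟨K, hK, h⟩ := fam_uni h1 h1b h2 h3 h4 h6 hP1 hP2 hR2 hφ
  obtain ⟨hr, hr8⟩ := r_eight hφ
  obtain ⟨he, he4⟩ := eta_pos hφ
  set D : ℝ := φ.δ * (8 / Real.pi ^ 2) with hD
  have hD0 : 0 ≤ D := by have := delta_nonneg hφ; positivity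
  refine ⟨K + 8 * D, by positivity, fun X Y a ha hY hXY => ?_⟩
  obtain ⟨hX1, hX2, hX3⟩ := range_facts hY hXY
  obtain ⟨d1, d2, d3, d4⟩ := div_facts hr hr8 hX3
  have b1 := h Y (X / φ.r) a ha d1 (pow_facts hY hXY hr hr8)
  have b2 := xlog_facts hr hr8 hX3
  have hU := UL_pos hP2 (oddP_OP Y) ha
  set U := UL (oddP Y) a with hUd
  have hr0 : (0:ℝ) < φ.r := by exact_mod_cast hr
  set Z : ℝ := ((X / φ.r : ℕ) : ℝ) with hZ
  have hsY : 0 ≤ √(Y : ℝ) := Real.sqrt_nonneg _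
  have e1 : SI φ (oddP Y) a (X / φ.r) - φ.δ / φ.r * (8 / Real.pi ^ 2) * (U / (2 * (1 - φ.η / √2))) * (X * Real.log X) =
      (SI φ (oddP Y) a (X / φ.r) - D * U / (2 * (1 - φ.η / √2)) * (Z * Real.log Z)) +
      D * U / (2 * (1 - φ.η / √2)) * (Z * Real.log Z - (X:ℝ) / φ.r * Real.log X) := by
    rw [hD]
    field_simp
    ring
  rw [e1]
  refine (abs_add_le _ _).trans ?_
  rw [abs_mul]
  have h5 : |D * U / (2 * (1 - φ.η / √2))| ≤ 2 * D * U := by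
    rw [abs_of_nonneg (by positivity), div_le_iff₀ (by positivity)]
    have : 0 ≤ D * U := by positivity
    nlinarith
  have h6 : K * U * (1 + √(Y : ℝ)) * Z ≤ K * U * (1 + √(Y : ℝ)) * X := by gcongr
  have h7 : |D * U / (2 * (1 - φ.η / √2))| * |Z * Real.log Z - (X:ℝ) / φ.r * Real.log X| ≤ 2 * D * U * (4 * X) :=
    mul_le_mul h5 b2 (abs_nonneg _) (by positivity)
  have h8 : 2 * D * U * (4 * X) ≤ 8 * D * U * (1 + √(Y : ℝ)) * X := by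
    have : 0 ≤ D * U * X := by positivity
    nlinarith
  calc _ ≤ K * U * (1 + √(Y : ℝ)) * X + 8 * D * U * (1 + √(Y : ℝ)) * X := by linarith
    _ = _ := by ring

lemma rho_one {S : Finset ℕ} (a : ℕ → ℝ) : rho S a 1 = ∏ p ∈ S, pim p (a p) := by
  classical
  unfold rho
  rw [if_pos]
  · simp
  · exact ⟨odd_one, fun p _ _ => by simp⟩

theorem fam_N (hP2 : StP2) (hR2 : StR2) {φ : FD} (hφ : Fam φ) : ∃ K : ℝ, 0 ≤ K ∧ ∀ (X Y : ℕ) (a : ℕ → ℝ), Pat a → 2 ≤ Y →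
    (Y : ℝ) ≤ Real.log X / 1000 →
    |∑ d ∈ FF φ (X / φ.r), ind φ (oddP Y) a d - φ.δ / φ.r * (8 / Real.pi ^ 2) * (∏ p ∈ oddP Y, pim p (a p)) * X| ≤
      K * (∏ p ∈ oddP Y, pim p (a p)) * (X : ℝ) ^ (3 / 4 : ℝ) := by
  obtain ⟨K, hK, h⟩ := hR2 φ hφ
  obtain ⟨hr, hr8⟩ := r_eight hφ
  set D : ℝ := φ.δ * (8 / Real.pi ^ 2) with hD
  have hD0 : 0 ≤ D := by have := delta_nonneg hφ; positivity
  refine ⟨9 * K + D, by positivity, fun X Y a ha hY hXY => ?_⟩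
  obtain ⟨hX1, hX2, hX3⟩ := range_facts hY hXY
  obtain ⟨d1, d2, d3, d4⟩ := div_facts hr hr8 hX3
  have hr0 : (0:ℝ) < φ.r := by exact_mod_cast hr
  have hX0 : (0:ℝ) < X := by linarith
  have b1 := h (oddP Y) a (oddP_OP Y) ha 1 (X / φ.r) le_rfl (by omega)
  rw [rho_one, one_mul] at b1
  have e0 : (2:ℝ) ^ (oddP Y).card * ((∏ p ∈ oddP Y, p ^ 2 : ℕ) : ℝ) ^ (3 / 8 : ℝ) = ES (oddP Y) := rfl
  rw [e0] at b1
  set Pi : ℝ := ∏ p ∈ oddP Y, pim p (a p) with hPi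
  set Z : ℝ := ((X / φ.r : ℕ) : ℝ) with hZ
  have hZ2 : (1:ℝ) ≤ Z := by rw [hZ]; exact_mod_cast (by omega : 1 ≤ X / φ.r)
  have hZ0 : (0:ℝ) < Z := by linarith
  have hPos : 0 < Pi := prod_pos fun p hp => pim_pos p (oddP_OP Y p hp).1.one_le _
  have hp := pow_facts hY hXY hr hr8
  rw [← hZ] at hp
  obtain ⟨c, hc, hp2⟩ := id hP2
  obtain ⟨-, q2, -, -⟩ := hp2 Y (oddP Y) a (oddP_OP Y) ha (oddP_le Y)
  have hES := ES_le hP2 Y ha
  have h8 : (8:ℝ) ^ Y ≤ Z ^ (1 / 64 : ℝ) * Pi := by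
    have e1 : (1 / 32 : ℝ) ^ Y * 256 ^ Y = 8 ^ Y := by rw [← mul_pow]; norm_num
    calc (8:ℝ) ^ Y = (1 / 32) ^ Y * 256 ^ Y := e1.symm
      _ ≤ Pi * Z ^ (1 / 64 : ℝ) := by gcongr
      _ = _ := mul_comm _ _
  have hlog : 1 + Real.log Z ≤ 9 * Z ^ (1 / 8 : ℝ) := by
    rw [hZ]
    exact one_log_le (by omega)
  have hl0 : 0 ≤ Real.log Z := Real.log_nonneg hZ2
  have h9 : K * ES (oddP Y) * (√Z * (1 + Real.log Z)) ≤ 9 * K * Pi * (X : ℝ) ^ (3 / 4 : ℝ) := by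
    calc K * ES (oddP Y) * (√Z * (1 + Real.log Z)) ≤ K * (Z ^ (1 / 64 : ℝ) * Pi) * (√Z * (9 * Z ^ (1 / 8 : ℝ))) := by
          gcongr
          exact hES.trans h8
      _ = 9 * K * Pi * (Z ^ (1 / 64 : ℝ) * (Z ^ (1 / 2 : ℝ) * Z ^ (1 / 8 : ℝ))) := by
          rw [Real.sqrt_eq_rpow]
          ring
      _ = 9 * K * Pi * Z ^ (1 / 64 + (1 / 2 + 1 / 8) : ℝ) := by
          rw [← Real.rpow_add hZ0, ← Real.rpow_add hZ0]
      _ ≤ 9 * K * Pi * Z ^ (3 / 4 : ℝ) := by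
          have := Real.rpow_le_rpow_of_exponent_le hZ2 (show (1 / 64 + (1 / 2 + 1 / 8) : ℝ) ≤ 3 / 4 by norm_num)
          gcongr
      _ ≤ _ := by gcongr
  have e1 : ∑ d ∈ FF φ (X / φ.r), ind φ (oddP Y) a d - φ.δ / φ.r * (8 / Real.pi ^ 2) * Pi * X =
      (∑ d ∈ FF φ (X / φ.r), ind φ (oddP Y) a d - D * Pi * Z) + D * Pi * (Z - X / φ.r) := by
    rw [hD]
    field_simp
    ring
  have e2 : ∑ d ∈ FF φ (X / φ.r), ind φ (oddP Y) a d * jo φ d 1 = ∑ d ∈ FF φ (X / φ.r), ind φ (oddP Y) a d :=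
    sum_congr rfl fun d _ => by rw [jo_one, mul_one]
  rw [e2] at b1
  rw [e1]
  refine (abs_add_le _ _).trans ?_
  rw [abs_mul, abs_of_nonneg (by positivity : 0 ≤ D * Pi)]
  have h10 : D * Pi * |Z - X / φ.r| ≤ D * Pi * (X : ℝ) ^ (3 / 4 : ℝ) := by
    have : (1:ℝ) ≤ (X : ℝ) ^ (3 / 4 : ℝ) := Real.one_le_rpow hX1 (by norm_num)
    have := d2.trans this
    gcongr
  calc _ ≤ 9 * K * Pi * (X : ℝ) ^ (3 / 4 : ℝ) + D * Pi * (X : ℝ) ^ (3 / 4 : ℝ) := add_le_add (b1.trans h9) h10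
    _ = _ := by ring

lemma cen_val {φ : FD} {d : ℕ} {χ : DirichletCharacter ℂ (φ.r * d)} (hφ : Fam φ) (hA : φ.A d) (hs : Squarefree d)
    (h3 : χ ≠ 1) (hv : ∀ n : ℕ, n ≠ 0 → χ (n : ZMod (φ.r * d)) = ((cf φ d n : ℝ) : ℂ)) :
    cen ⟨φ.r * d, χ⟩ = LLg φ d (1 / 2) := by
  have hn0 : φ.r * d ≠ 0 := by
    have h4 := (LnkC.CC1 φ hφ d hA hs).1
    have h5 := r_pos hφ
    have h6 : 0 < φ.r := by exact_mod_cast h5
    positivity
  unfold cen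
  rw [dif_neg hn0]
  have h7 := LnkC.CC5 φ hφ d hA hs ⟨hn0⟩ χ h3 hv (1 / 2) (by norm_num)
  have e2 : (((1 / 2 : ℝ)) : ℂ) = 1 / 2 := by push_cast; rfl
  rw [e2] at h7
  rw [h7, Complex.ofReal_re]

section

variable {ε : ℤ}

lemma fams (hε : ε = 1 ∨ ε = -1) : Fam (F8 ε) ∧ Fam (F4 ε) ∧ Fam (F1 ε 1) ∧ Fam (F1 ε 5) :=
  ⟨⟨ε, hε, Or.inl rfl⟩, ⟨ε, hε, Or.inr (Or.inl rfl)⟩, ⟨ε, hε, Or.inr (Or.inr (Or.inl rfl))⟩,
    ⟨ε, hε, Or.inr (Or.inr (Or.inr rfl))⟩⟩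

/-- combination of the four families -/
lemma comb (hε : ε = 1 ∨ ε = -1) {Y X : ℕ} (hY : 2 ≤ Y) {a : ℕ → ℝ} (ha : Pat a) (f : FD → ℕ → ℝ) (M E : ℝ) (hE : 0 ≤ E)
    (h : ∀ φ, (φ = F8 ε ∨ φ = F4 ε ∨ φ = F1 ε 1 ∨ φ = F1 ε 5) → φ.η = a 2 →
      |∑ d ∈ FF φ (X / φ.r), ind φ (oddP Y) a d * f φ d - 8 * (φ.δ / φ.r) * M| ≤ E) :
    |fsum (Gv Y a f) (F8 ε) (X / 8) + fsum (Gv Y a f) (F4 ε) (X / 4) + fsum (Gv Y a f) (F1 ε 1) X +
      fsum (Gv Y a f) (F1 ε 5) X - M| ≤ 2 * E := by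
  classical
  have e8 : (F8 ε).η = 0 := rfl
  have e4 : (F4 ε).η = 0 := rfl
  have e1 : (F1 ε 1).η = 1 := by simp [F1]
  have e5 : (F1 ε 5).η = -1 := by simp [F1]
  have r8 : (F8 ε).r = 8 := rfl
  have r4 : (F4 ε).r = 4 := rfl
  have r1 : (F1 ε 1).r = 1 := rfl
  have r5 : (F1 ε 5).r = 1 := rfl
  have d8 : (F8 ε).δ = 1 / 2 := rfl
  have d4 : (F4 ε).δ = 1 / 4 := rfl
  have d1 : (F1 ε 1).δ = 1 / 8 := rfl
  have d5 : (F1 ε 5).δ = 1 / 8 := rfl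
  rw [fsum_Gv hY, fsum_Gv hY, fsum_Gv hY, fsum_Gv hY, e8, e4, e1, e5]
  rcases ha 2 with h2 | h2 | h2
  · rw [h2, if_pos rfl, if_pos rfl, if_neg (by norm_num), if_neg (by norm_num), add_zero, add_zero]
    have b8 := h (F8 ε) (Or.inl rfl) (by rw [h2]; rfl)
    have b4 := h (F4 ε) (Or.inr (Or.inl rfl)) (by rw [h2]; rfl)
    rw [r8, d8] at b8
    rw [r4, d4] at b4
    push_cast at b8 b4
    have e0 : ∀ A B : ℝ, A + B - M = (A - 8 * (1 / 2 / 8) * M) + (B - 8 * (1 / 4 / 4) * M) := fun A B => by ring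
    rw [e0]
    exact (abs_add_le _ _).trans (by linarith)
  · rw [h2, if_neg (by norm_num), if_neg (by norm_num), if_pos rfl, if_neg (by norm_num), add_zero, add_zero, zero_add]
    have b1 := h (F1 ε 1) (Or.inr (Or.inr (Or.inl rfl))) (by rw [h2, e1])
    rw [r1, d1, Nat.div_one] at b1
    push_cast at b1
    have e0 : 8 * (1 / 8 / 1) * M = M := by ring
    rw [e0] at b1
    linarith
  · rw [h2, if_neg (by norm_num), if_neg (by norm_num), if_neg (by norm_num), if_pos rfl, add_zero, zero_add, zero_add]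
    have b5 := h (F1 ε 5) (Or.inr (Or.inr (Or.inr rfl))) (by rw [h2, e5])
    rw [r5, d5, Nat.div_one] at b5
    push_cast at b5
    have e0 : 8 * (1 / 8 / 1) * M = M := by ring
    rw [e0] at b5
    linarith

end

/-- **the first moment with prescribed values** -/
theorem tT (h1 : StI1) (h1b : StI1b) (h2 : StI2) (h3 : StI3) (h4 : StI4) (h6 : StI6) (hP1 : StP1) (hP2 : StP2)
    (hR2 : StR2) : StT := by
  have hall : ∀ φ : FD, ∃ K : ℝ, 0 ≤ K ∧ (Fam φ → ∀ (X Y : ℕ) (a : ℕ → ℝ), Pat a → 2 ≤ Y →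
    (Y : ℝ) ≤ Real.log X / 1000 →
    |SI φ (oddP Y) a (X / φ.r) - φ.δ / φ.r * (8 / Real.pi ^ 2) * (UL (oddP Y) a / (2 * (1 - φ.η / √2))) *
      (X * Real.log X)| ≤ K * UL (oddP Y) a * (1 + √(Y : ℝ)) * X) := by
    intro φ
    by_cases hφ : Fam φ
    · obtain ⟨K, hK, h⟩ := fam_T h1 h1b h2 h3 h4 h6 hP1 hP2 hR2 hφ
      exact ⟨K, hK, fun _ => h⟩
    · exact ⟨0, le_rfl, fun h => absurd h hφ⟩
  choose K hK h using hall
  set K₀ : ℝ := ∑ ε ∈ ({1, -1} : Finset ℤ), (K (F8 ε) + K (F4 ε) + K (F1 ε 1) + K (F1 ε 5)) with hK₀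
  have hK0 : 0 ≤ K₀ := sum_nonneg fun ε _ => by
    have := hK (F8 ε)
    have := hK (F4 ε)
    have := hK (F1 ε 1)
    have := hK (F1 ε 5)
    positivity
  refine ⟨12 * K₀, by positivity, fun ε X Y a hε ha hY hXY => ?_⟩
  obtain ⟨f8, f4, f1, f5⟩ := fams hε
  have hle : ∀ φ, (φ = F8 ε ∨ φ = F4 ε ∨ φ = F1 ε 1 ∨ φ = F1 ε 5) → K φ ≤ K₀ := by
    intro φ hφ
    have g0 : K (F8 ε) + K (F4 ε) + K (F1 ε 1) + K (F1 ε 5) ≤ K₀ := by
      rw [hK₀]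
      refine single_le_sum (f := fun ε : ℤ => K (F8 ε) + K (F4 ε) + K (F1 ε 1) + K (F1 ε 5)) (fun ε _ => ?_) ?_
      · have := hK (F8 ε)
        have := hK (F4 ε)
        have := hK (F1 ε 1)
        have := hK (F1 ε 5)
        positivity
      · rcases hε with rfl | rfl <;> simp
    have g8 := hK (F8 ε)
    have g4 := hK (F4 ε)
    have g1 := hK (F1 ε 1)
    have g5 := hK (F1 ε 5)
    rcases hφ with rfl | rfl | rfl | rfl <;> linarith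
  have hfam : ∀ φ, (φ = F8 ε ∨ φ = F4 ε ∨ φ = F1 ε 1 ∨ φ = F1 ε 5) → Fam φ := by
    rintro φ (rfl | rfl | rfl | rfl) <;> assumption
  have hU := UL_pos hP2 (oddP_OP Y) ha
  have hUM := UM hY ha
  set U := UL (oddP Y) a with hUd
  set W : ℝ := prY Y a * MY Y * PYa Y a with hW
  have hX0 : (0:ℝ) ≤ X := Nat.cast_nonneg _
  have hsY : 0 ≤ √(Y : ℝ) := Real.sqrt_nonneg _
  -- `1 - a₂ / √2`
  have hq := q_facts
  have ha2 : 0 < 1 - a 2 / √2 ∧ 1 - a 2 / √2 ≤ 2 := by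
    have : |a 2 / √2| ≤ 1 / √2 := by
      rw [abs_div, abs_of_nonneg (Real.sqrt_nonneg _)]
      have : |a 2| ≤ 1 := by rcases ha 2 with h | h | h <;> rw [h] <;> norm_num
      gcongr
    have := abs_le.1 this
    constructor <;> linarith
  have hUW : U = 3 * W * (1 - a 2 / √2) := by
    rw [← hUM, div_mul_cancel₀ _ ha2.1.ne']
  have hW0 : 0 < W := by
    by_contra hcon
    have : U ≤ 0 := by
      rw [hUW]
      apply mul_nonpos_of_nonpos_of_nonneg _ ha2.1.le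
      linarith [not_lt.1 hcon]
    linarith
  rw [sub_sum hY a hε X cen (fun φ d => LLg φ d (1 / 2))
    (fun φ d χ hφ hA hs _ _ h3 hv => cen_val hφ hA hs h3 hv)]
  have hmain := comb hε hY ha (X := X) (fun φ d => LLg φ d (1 / 2))
    (3 / Real.pi ^ 2 * (1 / 2 * W) * (X * Real.log X)) (K₀ * U * (1 + √(Y : ℝ)) * X) (by positivity) (fun φ hφ hη => by
      have b := h φ (hfam φ hφ) X Y a ha hY hXY
      have e1 : φ.δ / φ.r * (8 / Real.pi ^ 2) * (U / (2 * (1 - φ.η / √2))) * (X * Real.log X) =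
          8 * (φ.δ / φ.r) * (3 / Real.pi ^ 2 * (1 / 2 * W) * (X * Real.log X)) := by
        rw [hη]
        have e2 : U / (2 * (1 - a 2 / √2)) = 3 / 2 * W := by
          rw [mul_comm 2, ← div_div, hUM]
          ring
        rw [e2]
        ring
      rw [← e1]
      refine b.trans ?_
      have := hle φ hφ
      gcongr)
  refine hmain.trans ?_
  have hU6 : U ≤ 6 * W := by
    rw [hUW]
    have := ha2.2
    nlinarith
  calc 2 * (K₀ * U * (1 + √(Y : ℝ)) * X) ≤ 2 * (K₀ * (6 * W) * (1 + √(Y : ℝ)) * X) := by gcongr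
    _ = _ := by ring

/-- **the number of the characters with prescribed values** -/
theorem tN (hP2 : StP2) (hR2 : StR2) : StN := by
  have hall : ∀ φ : FD, ∃ K : ℝ, 0 ≤ K ∧ (Fam φ → ∀ (X Y : ℕ) (a : ℕ → ℝ), Pat a → 2 ≤ Y →
    (Y : ℝ) ≤ Real.log X / 1000 →
    |∑ d ∈ FF φ (X / φ.r), ind φ (oddP Y) a d - φ.δ / φ.r * (8 / Real.pi ^ 2) * (∏ p ∈ oddP Y, pim p (a p)) * X| ≤
      K * (∏ p ∈ oddP Y, pim p (a p)) * (X : ℝ) ^ (3 / 4 : ℝ)) := by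
    intro φ
    by_cases hφ : Fam φ
    · obtain ⟨K, hK, h⟩ := fam_N hP2 hR2 hφ
      exact ⟨K, hK, fun _ => h⟩
    · exact ⟨0, le_rfl, fun h => absurd h hφ⟩
  choose K hK h using hall
  set K₀ : ℝ := ∑ ε ∈ ({1, -1} : Finset ℤ), (K (F8 ε) + K (F4 ε) + K (F1 ε 1) + K (F1 ε 5)) with hK₀
  have hK0 : 0 ≤ K₀ := sum_nonneg fun ε _ => by
    have := hK (F8 ε)
    have := hK (F4 ε)
    have := hK (F1 ε 1)
    have := hK (F1 ε 5)
    positivity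
  refine ⟨6 * K₀, by positivity, fun ε X Y a hε ha hY hXY => ?_⟩
  obtain ⟨f8, f4, f1, f5⟩ := fams hε
  have hle : ∀ φ, (φ = F8 ε ∨ φ = F4 ε ∨ φ = F1 ε 1 ∨ φ = F1 ε 5) → K φ ≤ K₀ := by
    intro φ hφ
    have g0 : K (F8 ε) + K (F4 ε) + K (F1 ε 1) + K (F1 ε 5) ≤ K₀ := by
      rw [hK₀]
      refine single_le_sum (f := fun ε : ℤ => K (F8 ε) + K (F4 ε) + K (F1 ε 1) + K (F1 ε 5)) (fun ε _ => ?_) ?_
      · have := hK (F8 ε)
        have := hK (F4 ε)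
        have := hK (F1 ε 1)
        have := hK (F1 ε 5)
        positivity
      · rcases hε with rfl | rfl <;> simp
    have g8 := hK (F8 ε)
    have g4 := hK (F4 ε)
    have g1 := hK (F1 ε 1)
    have g5 := hK (F1 ε 5)
    rcases hφ with rfl | rfl | rfl | rfl <;> linarith
  have hfam : ∀ φ, (φ = F8 ε ∨ φ = F4 ε ∨ φ = F1 ε 1 ∨ φ = F1 ε 5) → Fam φ := by
    rintro φ (rfl | rfl | rfl | rfl) <;> assumption
  have hfin : (Sub ε X Y a).Finite := (d ε hε (fun _ => 0) (fun _ _ => 0) (fun _ _ _ _ _ _ _ _ _ _ => rfl) X).1.subset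
    fun χ hχ => hχ.1
  have hcard : ((Sub ε X Y a).ncard : ℝ) = ∑ᶠ χ ∈ Sub ε X Y a, (1:ℝ) := by
    rw [finsum_mem_eq_finite_toFinset_sum _ hfin, sum_const, nsmul_eq_mul, mul_one, Set.ncard_eq_toFinset_card _ hfin]
  set Pi : ℝ := ∏ p ∈ oddP Y, pim p (a p) with hPi
  have hPos : 0 < Pi := prod_pos fun p hp => pim_pos p (oddP_OP Y p hp).1.one_le _
  have hpr : prY Y a = 1 / 3 * Pi := by
    unfold prY
    rw [prLE_eq hY, prod_insert (two_notMem Y)]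
    congr 1
    unfold pim
    split_ifs <;> norm_num
  rw [hcard, sub_sum hY a hε X (fun _ => 1) (fun _ _ => 1) (fun _ _ _ _ _ _ _ _ _ _ => rfl)]
  have hmain := comb hε hY ha (X := X) (fun _ _ => 1)
    (3 / Real.pi ^ 2 * prY Y a * X) (K₀ * Pi * (X : ℝ) ^ (3 / 4 : ℝ)) (by positivity) (fun φ hφ hη => by
      have b := h φ (hfam φ hφ) X Y a ha hY hXY
      have e1 : φ.δ / φ.r * (8 / Real.pi ^ 2) * Pi * X = 8 * (φ.δ / φ.r) * (3 / Real.pi ^ 2 * prY Y a * X) := by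
        rw [hpr]
        ring
      rw [← e1]
      simp only [mul_one]
      refine b.trans ?_
      have := hle φ hφ
      gcongr)
  refine hmain.trans (le_of_eq ?_)
  rw [hpr]
  ring

end

end Pool.Agent.K4H95.LQ
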