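import Pool.Agent.K4H95.LQ.Spec5
import Pool.Agent.K4H95.LQ.TN

/-!
# The first moment near the centre: assembly
-/

set_option autoImplicit false

namespace Pool.Agent.K4H95.LQ

open Finset Filter Topology MeasureTheory Pool.Agent.H306R2.RG Pool.Agent.H306R2.RZ Pool.Agent.X278.AV

noncomputable section

/-! ### the two functions -/

theorem os_cosh {α : ℝ} (hα : 0 ≤ α) : Os α (fun x => Real.cosh (α * x)) (fun x => α * Real.sinh (α * x)) where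
  nonneg := hα
  deriv := fun x => by
    have h := ((hasDerivAt_id x).const_mul α).cosh
    simp only [id, mul_one] at h
    rw [mul_comm] at h
    exact h
  cont := by fun_prop
  zero := by simp
  even := fun x => by rw [mul_neg, Real.cosh_neg]
  add := fun x u => by
    rw [mul_sub, mul_add, Real.cosh_sub, Real.cosh_add]
    ring
  bd := fun x => by rw [abs_of_pos (Real.cosh_pos _)]
  bd1 := fun x hx => by
    rw [abs_of_nonneg]
    exact mul_nonneg hα (Real.sinh_nonneg_iff.2 (mul_nonneg hα hx))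

theorem os_cos {α : ℝ} (hα : 0 ≤ α) : Os α (fun x => Real.cos (α * x)) (fun x => -(α * Real.sin (α * x))) where
  nonneg := hα
  deriv := fun x => by
    have h := ((hasDerivAt_id x).const_mul α).cos
    simp only [id, mul_one] at h
    convert h using 1
    ring
  cont := by fun_prop
  zero := by simp
  even := fun x => by rw [mul_neg, Real.cos_neg]
  add := fun x u => by
    rw [mul_sub, mul_add, Real.cos_sub, Real.cos_add]
    ring
  bd := fun x => (Real.abs_cos_le_one _).trans (Real.one_le_cosh _)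
  bd1 := fun x hx => by
    have h0 : 0 ≤ α * x := mul_nonneg hα hx
    rw [abs_neg, abs_mul, abs_of_nonneg hα]
    refine mul_le_mul_of_nonneg_left ?_ hα
    have h1 : |Real.sin (α * x)| ≤ |α * x| := Real.abs_sin_le_abs
    rw [abs_of_nonneg h0] at h1
    exact h1.trans (Real.self_le_sinh_iff.2 h0)

/-- `∫_0^{log X / 2} C` -/
def IC (C : ℝ → ℝ) (x : ℝ) : ℝ := ∫ u in (0 : ℝ)..(Real.log x / 2), C u

lemma os_int {α : ℝ} {C C1 : ℝ → ℝ} (h : Os α C C1) (a b : ℝ) : IntervalIntegrable C volume a b := by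
  apply Continuous.intervalIntegrable
  exact continuous_iff_continuousAt.2 fun x => (h.deriv x).continuousAt

lemma os_bd {α : ℝ} {C C1 : ℝ → ℝ} (h : Os α C C1) {x A₀ : ℝ} (hx : 0 ≤ x) (hA : α * x ≤ A₀) : |C x| ≤ Real.cosh A₀ := by
  refine (h.bd x).trans ?_
  rw [Real.cosh_le_cosh, abs_of_nonneg (mul_nonneg h.nonneg hx)]
  exact hA.trans (le_abs_self _)

lemma ic_diff {α : ℝ} {C C1 : ℝ → ℝ} (h : Os α C C1) {x y A₀ : ℝ} (hx : 0 ≤ x) (hxy : x ≤ y) (hA : α * y ≤ A₀) :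
    |∫ u in x..y, C u| ≤ (y - x) * Real.cosh A₀ := by
  have h1 := intervalIntegral.norm_integral_le_of_norm_le_const (a := x) (b := y) (f := C) (C := Real.cosh A₀) (fun u hu => by
    rw [Set.uIoc_of_le hxy] at hu
    rw [Real.norm_eq_abs]
    apply os_bd h (hx.trans hu.1.le)
    exact (mul_le_mul_of_nonneg_left hu.2 h.nonneg).trans hA)
  rw [Real.norm_eq_abs, abs_of_nonneg (by linarith : 0 ≤ y - x)] at h1
  linarith

/-- one family -/
theorem fam_C (h1 : StI1) (h1b : StI1b) (h2 : StI2) (h3 : StI3) (h4 : StI4) (hP1 : StP1) (hP2 : StP2)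
    (hR2 : StR2) (hK : StK) (hZ1 : StZ1) (hZ2 : StZ2) (hB2 : StB2) (hR4 : StR4) (hJ : StJ) (h7 : StI7)
    {φ : FD} (hφ : Fam φ) {A₀ : ℝ} (hA₀ : 0 ≤ A₀) : ∃ K : ℝ, 0 ≤ K ∧ ∀ (Y X : ℕ) (a : ℕ → ℝ) (α : ℝ) (C C1 : ℝ → ℝ), Pat a →
    2 ≤ X → (256 : ℝ) ^ Y ≤ (X : ℝ) ^ (1 / 64 : ℝ) → Os α C C1 → α ≤ 1 / 4 → α * Real.log X ≤ A₀ → α * 64 ^ Y ≤ A₀ →
    |SC φ (oddP Y) a C X - φ.δ * (8 / Real.pi ^ 2) * UL (oddP Y) a / (1 - φ.η / √2) * (X * IC C X)| ≤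
      K * UL (oddP Y) a * (1 + √(Y : ℝ)) * X := by
  obtain ⟨K₁, hK₁, hS⟩ := hR4 hR2 h3 hB2 hZ1 hZ2 φ hφ A₀ hA₀
  obtain ⟨Q, hQ, hCS⟩ := i5 h1 h2 h3 h4 hP2 (Psi_cut φ) (h1b φ)
  have hr1 : (1:ℝ) ≤ φ.r := r_one hφ
  have hlr : 0 ≤ Real.log φ.r := Real.log_nonneg hr1
  obtain ⟨KJ, hKJ, hJ'⟩ := hJ (A₀ + Real.log φ.r) (by positivity)
  obtain ⟨K₇, hK₇, hI⟩ := h7 φ.r A₀ hr1 hA₀
  obtain ⟨C₁, hC₁, hp1⟩ := hP1
  obtain ⟨c, hc, hp2⟩ := hP2
  obtain ⟨B, hB, hBF⟩ := hB2 h3 φ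
  obtain ⟨he, he4⟩ := eta_pos hφ
  set D : ℝ := φ.δ * (8 / Real.pi ^ 2) with hD
  have hD0 : 0 ≤ D := by have := delta_nonneg hφ; positivity
  set KA : ℝ := K₁ * 65 / c + D * K₇ * (1 + Q * (1 + C₁) + KJ * (Q + B) * A₀ / c + (2 * Q + 4 * B) / c) with hKA
  have hKA0 : 0 ≤ KA := by positivity
  refine ⟨4 / 3 * (KA + 2 * D * A₀ * Real.cosh A₀), by have := Real.cosh_pos A₀; positivity,
    fun Y X a α C C1 ha hX hY hOs hα hαX hαY => ?_⟩
  set S := oddP Y with hSd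
  have hOP := oddP_OP Y
  have hUpos : 0 < UL S a := UL_pos ⟨c, hc, hp2⟩ hOP ha
  set U := UL S a with hU
  have hα0 := hOs.nonneg
  have hX1 : (1:ℝ) ≤ X := by exact_mod_cast (by omega : 1 ≤ X)
  have hX0 : (0:ℝ) < X := by linarith
  obtain ⟨hl, -⟩ := log_two_bd hX
  have hlX0 : 0 ≤ Real.log X := Real.log_nonneg hX1
  obtain ⟨q1, q2, q3, q4⟩ := hp2 Y S a hOP ha (oddP_le Y)
  rw [← hU] at q1
  obtain ⟨V, hV, hz⟩ := hCS S a hOP ha
  rw [← hU] at hV hz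
  obtain ⟨hmeas, hBz⟩ := hBF S a hOP ha
  have hsY : 0 ≤ √(Y : ℝ) := Real.sqrt_nonneg _
  have hsum := hp1 Y S (fun p hp => ⟨(hOP p hp).1, oddP_le Y p hp⟩)
  have hV2 : |V| ≤ Q * (1 + C₁) * U * (1 + √(Y : ℝ)) := by
    refine hV.trans ?_
    calc Q * U * (1 + ∑ p ∈ S, Real.log p / √(p : ℝ)) ≤ Q * U * (1 + C₁ * √(Y : ℝ)) := by gcongr
      _ ≤ Q * U * ((1 + C₁) * (1 + √(Y : ℝ))) := by
        gcongr
        nlinarith
      _ = _ := by ring
  obtain ⟨A, hA1, hA⟩ := hK α C C1 hOs (by linarith)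
  have hA34 : 3 / 4 ≤ A := by
    have := (abs_le.1 hA1).1
    linarith
  have b2 := hS S a hOP ha X α A C C1 hX hOs hα hαX hA
  set E : ℝ := Q * 2 ^ S.card with hE
  have hE0 : 0 ≤ E := by positivity
  obtain ⟨j1, j2⟩ := hJ' (CS (Psi φ) S a) U V E B α C C1 hmeas hE0 hB hz hBz hOs hα
  set W : ℝ := KJ * α * (E + B) with hW
  have hW0 : 0 ≤ W := by positivity
  have b1 := hI (JJ (CS (Psi φ) S a) C1) U V (2 * E + 4 * B) W φ.η α C C1 (eta_le hφ) (by positivity) hW0 hOs hα X hX hαX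
    (fun z hz0 hz1 => by
      have t1 : α * z ≤ A₀ + Real.log φ.r := by
        have t2 : Real.log (φ.r * X) = Real.log φ.r + Real.log X :=
          Real.log_mul (by linarith) hX0.ne'
        calc α * z ≤ α * Real.log (φ.r * X) := by gcongr
          _ = α * Real.log X + α * Real.log φ.r := by rw [t2]; ring
          _ ≤ A₀ + 1 * Real.log φ.r := by
            gcongr
            linarith
          _ = _ := by ring
      refine (j1 z hz0 t1).trans ?_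
      have t3 : 0 ≤ 4 * B * Real.exp (-z / 8) := by positivity
      linarith)
    (fun z hz0 => by
      refine (j2 z hz0).trans ?_
      have t4 : Real.exp (2 * z) ≤ Real.exp (-z / 8) := Real.exp_le_exp.2 (by linarith)
      have t5 : 0 ≤ 2 * E * Real.exp (-z / 8) := by positivity
      have t6 : 4 * B * Real.exp (2 * z) ≤ 4 * B * Real.exp (-z / 8) := by gcongr
      linarith)
  have hcU : c * 8 ^ Y ≤ (X : ℝ) ^ (1 / 64 : ℝ) * U := by
    have e1 : (1 / 32 : ℝ) ^ Y * 32 ^ Y = 1 := by rw [← mul_pow]; norm_num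
    have e2 : (32:ℝ) ^ Y * 8 ^ Y = 256 ^ Y := by rw [← mul_pow]; norm_num
    calc c * 8 ^ Y = c * (1 / 32) ^ Y * (32 ^ Y * 8 ^ Y) := by
          calc c * 8 ^ Y = c * ((1 / 32 : ℝ) ^ Y * 32 ^ Y) * 8 ^ Y := by rw [e1, mul_one]
            _ = _ := by ring
      _ ≤ U * 256 ^ Y := by rw [e2]; gcongr
      _ ≤ U * (X : ℝ) ^ (1 / 64 : ℝ) := by gcongr
      _ = _ := mul_comm _ _
  have hone : (1:ℝ) ≤ 8 ^ Y := one_le_pow₀ (by norm_num)
  have g0 : (8:ℝ) ^ Y * (X : ℝ) ^ (15 / 16 : ℝ) ≤ U * X / c := by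
    rw [le_div_iff₀ hc]
    calc (8:ℝ) ^ Y * (X : ℝ) ^ (15 / 16 : ℝ) * c = (c * 8 ^ Y) * (X : ℝ) ^ (15 / 16 : ℝ) := by ring
      _ ≤ ((X : ℝ) ^ (1 / 64 : ℝ) * U) * (X : ℝ) ^ (15 / 16 : ℝ) := by gcongr
      _ = U * ((X : ℝ) ^ (1 / 64 : ℝ) * (X : ℝ) ^ (15 / 16 : ℝ)) := by ring
      _ ≤ U * X := by
        rw [← Real.rpow_add hX0]
        have := Real.rpow_le_rpow_of_exponent_le hX1 (show (1 / 64 + 15 / 16 : ℝ) ≤ 1 by norm_num)
        rw [Real.rpow_one] at this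
        gcongr
  have t1 : (2:ℝ) ^ S.card ≤ 8 ^ Y := q3.trans (pow_le_pow_left₀ (by norm_num) (by norm_num) Y)
  have hG : 2 * E + 4 * B ≤ (2 * Q + 4 * B) * 8 ^ Y := by
    have : E ≤ Q * 8 ^ Y := by rw [hE]; gcongr
    have : B ≤ B * 8 ^ Y := le_mul_of_one_le_right hB hone
    linarith
  have g2 : ES S * ((X : ℝ) ^ (31 / 32 : ℝ) * (1 + Real.log X)) ≤ 65 * (U * X / c) := by
    have t1 : ES S ≤ 8 ^ Y := ES_le ⟨c, hc, hp2⟩ Y ha
    have t2 : 1 + Real.log X ≤ 65 * (X : ℝ) ^ (1 / 64 : ℝ) := by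
      have t3 := Real.log_le_rpow_div (x := X) hX0.le (ε := 1 / 64) (by norm_num)
      have t4 : (1:ℝ) ≤ (X : ℝ) ^ (1 / 64 : ℝ) := Real.one_le_rpow hX1 (by norm_num)
      have t5 : (X : ℝ) ^ (1 / 64 : ℝ) / (1 / 64) = 64 * (X : ℝ) ^ (1 / 64 : ℝ) := by ring
      rw [t5] at t3
      linarith
    have hl0 : 0 ≤ 1 + Real.log X := by linarith
    rw [mul_div_assoc', le_div_iff₀ hc]
    calc ES S * ((X : ℝ) ^ (31 / 32 : ℝ) * (1 + Real.log X)) * c ≤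
        8 ^ Y * ((X : ℝ) ^ (31 / 32 : ℝ) * (65 * (X : ℝ) ^ (1 / 64 : ℝ))) * c := by gcongr
      _ = 65 * (c * 8 ^ Y) * ((X : ℝ) ^ (31 / 32 : ℝ) * (X : ℝ) ^ (1 / 64 : ℝ)) := by ring
      _ ≤ 65 * ((X : ℝ) ^ (1 / 64 : ℝ) * U) * ((X : ℝ) ^ (31 / 32 : ℝ) * (X : ℝ) ^ (1 / 64 : ℝ)) := by gcongr
      _ = 65 * (U * ((X : ℝ) ^ (1 / 64 : ℝ) * ((X : ℝ) ^ (31 / 32 : ℝ) * (X : ℝ) ^ (1 / 64 : ℝ)))) := by ring
      _ = 65 * (U * X) := by
        rw [← Real.rpow_add hX0, ← Real.rpow_add hX0]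
        norm_num
  have gW : W ≤ KJ * (Q + B) * A₀ / c * U := by
    have e1 : (1 / 32 : ℝ) ^ Y * 64 ^ Y = 2 ^ Y := by rw [← mul_pow]; norm_num
    have s1 : E + B ≤ (Q + B) * 2 ^ Y := by
      have : E ≤ Q * 2 ^ Y := by rw [hE]; gcongr
      have : B ≤ B * 2 ^ Y := le_mul_of_one_le_right hB (one_le_pow₀ (by norm_num))
      linarith
    have s2 : α * 2 ^ Y ≤ A₀ / c * U := by
      rw [div_mul_eq_mul_div, le_div_iff₀ hc]
      calc α * 2 ^ Y * c = (α * 64 ^ Y) * (c * (1 / 32) ^ Y) := by rw [← e1]; ring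
        _ ≤ A₀ * U := by gcongr
    calc W = KJ * (α * (E + B)) := by rw [hW]; ring
      _ ≤ KJ * (α * ((Q + B) * 2 ^ Y)) := by gcongr
      _ = KJ * (Q + B) * (α * 2 ^ Y) := by ring
      _ ≤ KJ * (Q + B) * (A₀ / c * U) := by gcongr
      _ = _ := by ring
  set Sg : ℝ := ∑' j : ℕ, (φ.η / √2) ^ j * ∑ d ∈ Icc 1 X, JJ (CS (Psi φ) S a) C1 (Real.log ((φ.r : ℝ) * d) / 2 - j * Real.log 2)
    with hSig
  have hUX : 0 ≤ U * X := by positivity
  have hUX2 : U * X ≤ U * (1 + √(Y : ℝ)) * X := by nlinarith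
  rw [abs_of_pos hUpos] at b1
  have b3 : (X:ℝ) * (U + |V| + W) + (2 * E + 4 * B) * (X : ℝ) ^ (15 / 16 : ℝ) ≤
      (1 + Q * (1 + C₁) + KJ * (Q + B) * A₀ / c + (2 * Q + 4 * B) / c) * (U * (1 + √(Y : ℝ)) * X) := by
    have s1 : (X:ℝ) * |V| ≤ Q * (1 + C₁) * (U * (1 + √(Y : ℝ)) * X) := by
      calc (X:ℝ) * |V| ≤ X * (Q * (1 + C₁) * U * (1 + √(Y : ℝ))) := by gcongr
        _ = _ := by ring
    have s2 : (2 * E + 4 * B) * (X : ℝ) ^ (15 / 16 : ℝ) ≤ (2 * Q + 4 * B) / c * (U * (1 + √(Y : ℝ)) * X) := by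
      calc (2 * E + 4 * B) * (X : ℝ) ^ (15 / 16 : ℝ) ≤ (2 * Q + 4 * B) * 8 ^ Y * (X : ℝ) ^ (15 / 16 : ℝ) := by gcongr
        _ = (2 * Q + 4 * B) * ((8:ℝ) ^ Y * (X : ℝ) ^ (15 / 16 : ℝ)) := by ring
        _ ≤ (2 * Q + 4 * B) * (U * X / c) := by gcongr
        _ = (2 * Q + 4 * B) / c * (U * X) := by ring
        _ ≤ _ := by gcongr
    have s3 : (X:ℝ) * U ≤ U * (1 + √(Y : ℝ)) * X := by linarith
    have s4 : (X:ℝ) * W ≤ KJ * (Q + B) * A₀ / c * (U * (1 + √(Y : ℝ)) * X) := by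
      calc (X:ℝ) * W ≤ X * (KJ * (Q + B) * A₀ / c * U) := by gcongr
        _ = KJ * (Q + B) * A₀ / c * (U * X) := by ring
        _ ≤ _ := by gcongr
    calc (X:ℝ) * (U + |V| + W) + (2 * E + 4 * B) * (X : ℝ) ^ (15 / 16 : ℝ) =
        X * U + X * |V| + X * W + (2 * E + 4 * B) * (X : ℝ) ^ (15 / 16 : ℝ) := by ring
      _ ≤ U * (1 + √(Y : ℝ)) * X + Q * (1 + C₁) * (U * (1 + √(Y : ℝ)) * X) +
          KJ * (Q + B) * A₀ / c * (U * (1 + √(Y : ℝ)) * X) + (2 * Q + 4 * B) / c * (U * (1 + √(Y : ℝ)) * X) := by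
        linarith
      _ = _ := by ring
  have b4 : K₁ * ES S * ((X : ℝ) ^ (31 / 32 : ℝ) * (1 + Real.log X)) ≤ K₁ * 65 / c * (U * (1 + √(Y : ℝ)) * X) := by
    calc K₁ * ES S * ((X : ℝ) ^ (31 / 32 : ℝ) * (1 + Real.log X)) =
        K₁ * (ES S * ((X : ℝ) ^ (31 / 32 : ℝ) * (1 + Real.log X))) := by ring
      _ ≤ K₁ * (65 * (U * X / c)) := by gcongr
      _ = K₁ * 65 / c * (U * X) := by ring
      _ ≤ _ := by gcongr
  -- the main term
  set Mn : ℝ := D * U / (1 - φ.η / √2) * (X * IC C X) with hMn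
  have b5 : |A * SC φ S a C X - Mn| ≤ KA * (U * (1 + √(Y : ℝ)) * X) := by
    have e1 : A * SC φ S a C X - Mn = (A * SC φ S a C X - D * Sg) +
        D * (Sg - U / (1 - φ.η / √2) * (X * IC C X)) := by
      rw [hMn]
      ring
    rw [e1]
    refine (abs_add_le _ _).trans ?_
    rw [abs_mul, abs_of_nonneg hD0]
    calc |A * SC φ S a C X - D * Sg| + D * |Sg - U / (1 - φ.η / √2) * (X * IC C X)| ≤
        K₁ * 65 / c * (U * (1 + √(Y : ℝ)) * X) +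
          D * (K₇ * ((1 + Q * (1 + C₁) + KJ * (Q + B) * A₀ / c + (2 * Q + 4 * B) / c) * (U * (1 + √(Y : ℝ)) * X))) := by
          refine add_le_add (b2.trans b4) ?_
          apply mul_le_mul_of_nonneg_left _ hD0
          refine b1.trans ?_
          gcongr
      _ = _ := by rw [hKA]; ring
  have hIC : |IC C X| ≤ Real.log X / 2 * Real.cosh A₀ := by
    have := ic_diff hOs (x := 0) (y := Real.log X / 2) (A₀ := A₀) le_rfl (by positivity) (by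
      have : α * (Real.log X / 2) ≤ α * Real.log X := by
        gcongr
        linarith
      linarith)
    rwa [sub_zero] at this
  have b6 : α * |Mn| ≤ 2 * D * A₀ * Real.cosh A₀ * (U * (1 + √(Y : ℝ)) * X) := by
    have e1 : |Mn| ≤ 4 * D * U * (X * (Real.log X / 2 * Real.cosh A₀)) := by
      rw [hMn, abs_mul, abs_mul, abs_of_pos hX0, abs_of_nonneg (by positivity : 0 ≤ D * U / (1 - φ.η / √2))]
      have e2 : D * U / (1 - φ.η / √2) ≤ 4 * D * U := by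
        rw [div_le_iff₀ he]
        have : 0 ≤ D * U := by positivity
        nlinarith
      have hch := Real.cosh_pos A₀
      gcongr
    have hch := Real.cosh_pos A₀
    calc α * |Mn| ≤ α * (4 * D * U * (X * (Real.log X / 2 * Real.cosh A₀))) := by gcongr
      _ = 2 * D * (α * Real.log X) * Real.cosh A₀ * (U * X) := by ring
      _ ≤ 2 * D * A₀ * Real.cosh A₀ * (U * X) := by gcongr
      _ ≤ _ := by gcongr
  have b7 : |SC φ S a C X - Mn| ≤ 4 / 3 * (|A * SC φ S a C X - Mn| + α * |Mn|) := by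
    have e1 : A * (SC φ S a C X - Mn) = (A * SC φ S a C X - Mn) - (A - 1) * Mn := by ring
    have e2 : A * |SC φ S a C X - Mn| ≤ |A * SC φ S a C X - Mn| + α * |Mn| := by
      calc A * |SC φ S a C X - Mn| = |A * (SC φ S a C X - Mn)| := by
            rw [abs_mul, abs_of_nonneg (by linarith : 0 ≤ A)]
        _ = |(A * SC φ S a C X - Mn) - (A - 1) * Mn| := by rw [e1]
        _ ≤ |A * SC φ S a C X - Mn| + |(A - 1) * Mn| := abs_sub _ _
        _ ≤ _ := by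
          rw [abs_mul]
          gcongr
    have e3 : 3 / 4 * |SC φ S a C X - Mn| ≤ A * |SC φ S a C X - Mn| := by gcongr
    linarith
  calc |SC φ S a C X - Mn| ≤ 4 / 3 * (|A * SC φ S a C X - Mn| + α * |Mn|) := b7
    _ ≤ 4 / 3 * (KA * (U * (1 + √(Y : ℝ)) * X) + 2 * D * A₀ * Real.cosh A₀ * (U * (1 + √(Y : ℝ)) * X)) := by gcongr
    _ = _ := by ring

end

end Pool.Agent.K4H95.LQ
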