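import Pool.Agent.K4H95.LQ.T5

/-!
# The first moment near the centre: all real primitive characters of a parity with prescribed values
-/

set_option autoImplicit false

namespace Pool.Agent.K4H95.LQ

open Finset Filter Topology MeasureTheory Pool.Agent.H306R2.RG Pool.Agent.H306R2.RZ Pool.Agent.X278.AV

noncomputable section

lemma ll_facts {X Y : ℕ} (hY : 2 ≤ Y) (h : (Y : ℝ) ≤ Real.log (Real.log X) / 5) :
    (Y : ℝ) ≤ Real.log X / 1000 ∧ (64:ℝ) ^ Y ≤ Real.log X := by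
  have h1 : (2:ℝ) ≤ Y := by exact_mod_cast hY
  set L := Real.log X with hL
  have h2 : 10 ≤ Real.log L := by linarith
  have hX0 : 0 ≤ L := by
    rcases Nat.eq_zero_or_pos X with h0 | h0
    · rw [hL, h0]
      simp
    · exact Real.log_nonneg (by exact_mod_cast h0)
  have hL0 : 0 < L := by
    rcases hX0.eq_or_lt with h0 | h0
    · rw [← h0, Real.log_zero] at h2
      linarith
    · exact h0
  have h3 : Real.exp (Real.log L) = L := Real.exp_log hL0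
  constructor
  · have h4 : Real.log L / 5 ≤ L / 1000 := by
      have h5 : Real.exp (Real.log L) = Real.exp 10 * Real.exp (Real.log L - 10) := by
        rw [← Real.exp_add]
        ring_nf
      have h6 : Real.log L - 10 + 1 ≤ Real.exp (Real.log L - 10) := Real.add_one_le_exp _
      have h9 : (20000:ℝ) ≤ Real.exp 10 := by
        have e1 := Real.exp_one_gt_d9
        have e2 : Real.exp 10 = Real.exp 1 ^ 10 := by
          rw [← Real.exp_nat_mul]
          norm_num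
        rw [e2]
        calc (20000:ℝ) ≤ 2.7 ^ 10 := by norm_num
          _ ≤ Real.exp 1 ^ 10 := by gcongr; linarith
      have h10 : 20000 * (Real.log L - 9) ≤ Real.exp (Real.log L) := by
        rw [h5]
        have : 0 ≤ Real.log L - 9 := by linarith
        calc 20000 * (Real.log L - 9) ≤ Real.exp 10 * (Real.log L - 9) := by gcongr
          _ ≤ _ := by
            gcongr
            linarith
      rw [h3] at h10
      linarith
    linarith
  · have h4 : (64:ℝ) ^ Y = Real.exp (Real.log 64 * Y) := by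
      rw [← Real.rpow_natCast, Real.rpow_def_of_pos (by norm_num)]
    rw [h4, ← h3]
    apply Real.exp_le_exp.2
    have h5 : Real.log 64 = 6 * Real.log 2 := by
      rw [show (64:ℝ) = 2 ^ 6 by norm_num, Real.log_pow]
      norm_num
    have h6 := Real.log_two_lt_d9
    have h7 : Real.log 64 ≤ 5 := by rw [h5]; linarith
    have h8 : Real.log 64 * Y ≤ 5 * Y := by gcongr
    linarith

/-- one family, with the range divided -/
theorem fam_CT (h1 : StI1) (h1b : StI1b) (h2 : StI2) (h3 : StI3) (h4 : StI4) (hP1 : StP1) (hP2 : StP2)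
    (hR2 : StR2) (hK : StK) (hZ1 : StZ1) (hZ2 : StZ2) (hB2 : StB2) (hR4 : StR4) (hJ : StJ) (h7 : StI7)
    {φ : FD} (hφ : Fam φ) {A₀ : ℝ} (hA₀ : 0 ≤ A₀) : ∃ K : ℝ, 0 ≤ K ∧ ∀ (X Y : ℕ) (a : ℕ → ℝ) (α : ℝ) (C C1 : ℝ → ℝ), Pat a →
    2 ≤ Y → (Y : ℝ) ≤ Real.log (Real.log X) / 5 → Os α C C1 → α ≤ 1 / 4 → α * Real.log X ≤ A₀ →
    |SC φ (oddP Y) a C (X / φ.r) - φ.δ / φ.r * (8 / Real.pi ^ 2) * (UL (oddP Y) a / (1 - φ.η / √2)) * (X * IC C X)| ≤
      K * UL (oddP Y) a * (1 + √(Y : ℝ)) * X := by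
  obtain ⟨K, hK', h⟩ := fam_C h1 h1b h2 h3 h4 hP1 hP2 hR2 hK hZ1 hZ2 hB2 hR4 hJ h7 hφ hA₀
  obtain ⟨hr, hr8⟩ := r_eight hφ
  obtain ⟨he, he4⟩ := eta_pos hφ
  set D : ℝ := φ.δ * (8 / Real.pi ^ 2) with hD
  have hD0 : 0 ≤ D := by have := delta_nonneg hφ; positivity
  have hch := Real.cosh_pos A₀
  refine ⟨K + 4 * D * (3 * Real.cosh A₀), by positivity, fun X Y a α C C1 ha hY hll hOs hα hαX => ?_⟩
  obtain ⟨hXY, h64⟩ := ll_facts hY hll
  obtain ⟨hX1, hX2, hX3⟩ := range_facts hY hXY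
  obtain ⟨d1, d2, d3, d4⟩ := div_facts hr hr8 hX3
  have hα0 := hOs.nonneg
  have hX0 : (0:ℝ) < X := by linarith
  have hU := UL_pos hP2 (oddP_OP Y) ha
  set U := UL (oddP Y) a with hUd
  have hr0 : (0:ℝ) < φ.r := by exact_mod_cast hr
  set Z : ℝ := ((X / φ.r : ℕ) : ℝ) with hZ
  have hZ0 : (0:ℝ) < Z := by rw [hZ]; exact_mod_cast (by omega : 0 < X / φ.r)
  have hZ1 : (1:ℝ) ≤ Z := by rw [hZ]; exact_mod_cast (by omega : 1 ≤ X / φ.r)
  have hlZ : Real.log Z ≤ Real.log X := Real.log_le_log hZ0 d3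
  have hlZ0 : 0 ≤ Real.log Z := Real.log_nonneg hZ1
  have hl0 : 0 ≤ Real.log X := by linarith
  have b1 := h Y (X / φ.r) a α C C1 ha d1 (pow_facts hY hXY hr hr8) hOs hα
    ((mul_le_mul_of_nonneg_left hlZ hα0).trans hαX) ((mul_le_mul_of_nonneg_left h64 hα0).trans hαX)
  rw [← hZ] at b1
  have hsY : 0 ≤ √(Y : ℝ) := Real.sqrt_nonneg _
  have hα2 : α * (Real.log X / 2) ≤ A₀ := by
    have : α * (Real.log X / 2) ≤ α * Real.log X := by
      gcongr
      linarith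
    linarith
  have i1' : |IC C X| ≤ Real.log X / 2 * Real.cosh A₀ := by
    have := ic_diff hOs (x := 0) (y := Real.log X / 2) (A₀ := A₀) le_rfl (by positivity) hα2
    rwa [sub_zero] at this
  have i2' : |IC C Z - IC C X| ≤ (Real.log X / 2 - Real.log Z / 2) * Real.cosh A₀ := by
    have e1 : IC C X - IC C Z = ∫ u in (Real.log Z / 2)..(Real.log X / 2), C u := by
      unfold IC
      rw [intervalIntegral.integral_interval_sub_left (os_int hOs _ _) (os_int hOs _ _)]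
    rw [abs_sub_comm, e1]
    exact ic_diff hOs (by positivity) (by linarith) hα2
  have b2 : |Z * IC C Z - (X:ℝ) / φ.r * IC C X| ≤ 3 * Real.cosh A₀ * X := by
    have e1 : Z * IC C Z - (X:ℝ) / φ.r * IC C X = (Z - X / φ.r) * IC C X + Z * (IC C Z - IC C X) := by ring
    rw [e1]
    refine (abs_add_le _ _).trans ?_
    rw [abs_mul, abs_mul, abs_of_pos hZ0]
    have hl2 : Real.log X ≤ X - 1 := Real.log_le_sub_one_of_pos hX0
    have g1 : Real.log X - Real.log 16 ≤ Real.log Z := by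
      rw [← Real.log_div hX0.ne' (by norm_num)]
      exact Real.log_le_log (by positivity) d4
    have g4 : Real.log 16 ≤ 3 := by
      have : Real.log 16 = 4 * Real.log 2 := by
        rw [show (16:ℝ) = 2 ^ 4 by norm_num, Real.log_pow]
        norm_num
      have := Real.log_two_lt_d9
      linarith
    calc |Z - (X:ℝ) / φ.r| * |IC C X| + Z * |IC C Z - IC C X| ≤
        1 * (Real.log X / 2 * Real.cosh A₀) + X * ((Real.log X / 2 - Real.log Z / 2) * Real.cosh A₀) := by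
          gcongr
      _ ≤ 1 * (X / 2 * Real.cosh A₀) + X * (3 / 2 * Real.cosh A₀) := by
          gcongr
          · linarith
          · linarith
      _ = 2 * Real.cosh A₀ * X := by ring
      _ ≤ 3 * Real.cosh A₀ * X := by
          have : 0 ≤ Real.cosh A₀ * X := by positivity
          linarith
  have e1 : SC φ (oddP Y) a C (X / φ.r) - φ.δ / φ.r * (8 / Real.pi ^ 2) * (U / (1 - φ.η / √2)) * (X * IC C X) =
      (SC φ (oddP Y) a C (X / φ.r) - D * U / (1 - φ.η / √2) * (Z * IC C Z)) +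
      D * U / (1 - φ.η / √2) * (Z * IC C Z - (X:ℝ) / φ.r * IC C X) := by
    rw [hD]
    field_simp
    ring
  rw [e1]
  refine (abs_add_le _ _).trans ?_
  rw [abs_mul]
  have h5 : |D * U / (1 - φ.η / √2)| ≤ 4 * D * U := by
    rw [abs_of_nonneg (by positivity), div_le_iff₀ (by positivity)]
    have : 0 ≤ D * U := by positivity
    nlinarith
  have h6 : K * U * (1 + √(Y : ℝ)) * Z ≤ K * U * (1 + √(Y : ℝ)) * X := by gcongr
  have h7' : |D * U / (1 - φ.η / √2)| * |Z * IC C Z - (X:ℝ) / φ.r * IC C X| ≤ 4 * D * U * (3 * Real.cosh A₀ * X) :=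
    mul_le_mul h5 b2 (abs_nonneg _) (by positivity)
  have h8 : 4 * D * U * (3 * Real.cosh A₀ * X) ≤ 4 * D * (3 * Real.cosh A₀) * U * (1 + √(Y : ℝ)) * X := by
    have e2 : 4 * D * U * (3 * Real.cosh A₀ * X) = 4 * D * (3 * Real.cosh A₀) * U * 1 * X := by ring
    rw [e2]
    gcongr
    linarith
  calc _ ≤ K * U * (1 + √(Y : ℝ)) * X + 4 * D * (3 * Real.cosh A₀) * U * (1 + √(Y : ℝ)) * X :=
        add_le_add (b1.trans h6) (h7'.trans h8)
    _ = _ := by ring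

/-- **near the centre, with prescribed values** -/
theorem tTC (h1 : StI1) (h1b : StI1b) (h2 : StI2) (h3 : StI3) (h4 : StI4) (hP1 : StP1) (hP2 : StP2)
    (hR2 : StR2) (hK : StK) (hZ1 : StZ1) (hZ2 : StZ2) (hB2 : StB2) (hR4 : StR4) (hJ : StJ) (h7 : StI7)
    {A₀ : ℝ} (hA₀ : 0 ≤ A₀) : ∃ K : ℝ, 0 ≤ K ∧ ∀ (ε : ℤ) (X Y : ℕ) (a : ℕ → ℝ) (α : ℝ) (C C1 : ℝ → ℝ)
    (F : (Σ N : ℕ, DirichletCharacter ℂ N) → ℝ), (ε = 1 ∨ ε = -1) → Pat a →
    2 ≤ Y → (Y : ℝ) ≤ Real.log (Real.log X) / 5 → Os α C C1 → α ≤ 1 / 4 → α * Real.log X ≤ A₀ →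
    (∀ (φ : FD) (d : ℕ) (χ : DirichletCharacter ℂ (φ.r * d)), Fam φ → φ.A d → Squarefree d → χ.IsPrimitive →
      χ ^ 2 = 1 → χ ≠ 1 → (∀ n : ℕ, n ≠ 0 → χ (n : ZMod (φ.r * d)) = ((cf φ d n : ℝ) : ℂ)) → F ⟨φ.r * d, χ⟩ = Lc φ d C) →
    |∑ᶠ χ ∈ Sub ε X Y a, F χ - 3 / Real.pi ^ 2 * (prY Y a * MY Y * PYa Y a) * (X * IC C X)| ≤
      K * (prY Y a * MY Y * PYa Y a) * (1 + √(Y : ℝ)) * X := by
  have hall : ∀ φ : FD, ∃ K : ℝ, 0 ≤ K ∧ (Fam φ → ∀ (X Y : ℕ) (a : ℕ → ℝ) (α : ℝ) (C C1 : ℝ → ℝ), Pat a →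
    2 ≤ Y → (Y : ℝ) ≤ Real.log (Real.log X) / 5 → Os α C C1 → α ≤ 1 / 4 → α * Real.log X ≤ A₀ →
    |SC φ (oddP Y) a C (X / φ.r) - φ.δ / φ.r * (8 / Real.pi ^ 2) * (UL (oddP Y) a / (1 - φ.η / √2)) * (X * IC C X)| ≤
      K * UL (oddP Y) a * (1 + √(Y : ℝ)) * X) := by
    intro φ
    by_cases hφ : Fam φ
    · obtain ⟨K, hK', h⟩ := fam_CT h1 h1b h2 h3 h4 hP1 hP2 hR2 hK hZ1 hZ2 hB2 hR4 hJ h7 hφ hA₀
      exact ⟨K, hK', fun _ => h⟩
    · exact ⟨0, le_rfl, fun h => absurd h hφ⟩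
  choose K hK' h using hall
  set K₀ : ℝ := ∑ ε ∈ ({1, -1} : Finset ℤ), (K (F8 ε) + K (F4 ε) + K (F1 ε 1) + K (F1 ε 5)) with hK₀
  have hK0 : 0 ≤ K₀ := sum_nonneg fun ε _ => by
    have := hK' (F8 ε)
    have := hK' (F4 ε)
    have := hK' (F1 ε 1)
    have := hK' (F1 ε 5)
    positivity
  refine ⟨12 * K₀, by positivity, fun ε X Y a α C C1 F hε ha hY hXY hOs hα hαX hF => ?_⟩
  obtain ⟨f8, f4, f1, f5⟩ := fams hε
  have hle : ∀ φ, (φ = F8 ε ∨ φ = F4 ε ∨ φ = F1 ε 1 ∨ φ = F1 ε 5) → K φ ≤ K₀ := by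
    intro φ hφ
    have g0 : K (F8 ε) + K (F4 ε) + K (F1 ε 1) + K (F1 ε 5) ≤ K₀ := by
      rw [hK₀]
      refine single_le_sum (f := fun ε : ℤ => K (F8 ε) + K (F4 ε) + K (F1 ε 1) + K (F1 ε 5)) (fun ε _ => ?_) ?_
      · have := hK' (F8 ε)
        have := hK' (F4 ε)
        have := hK' (F1 ε 1)
        have := hK' (F1 ε 5)
        positivity
      · rcases hε with rfl | rfl <;> simp
    have g8 := hK' (F8 ε)
    have g4 := hK' (F4 ε)
    have g1 := hK' (F1 ε 1)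
    have g5 := hK' (F1 ε 5)
    rcases hφ with rfl | rfl | rfl | rfl <;> linarith
  have hfam : ∀ φ, (φ = F8 ε ∨ φ = F4 ε ∨ φ = F1 ε 1 ∨ φ = F1 ε 5) → Fam φ := by
    rintro φ (rfl | rfl | rfl | rfl) <;> assumption
  have hU := UL_pos hP2 (oddP_OP Y) ha
  have hUM := UM hY ha
  set U := UL (oddP Y) a with hUd
  set W : ℝ := prY Y a * MY Y * PYa Y a with hW
  have hX0 : (0:ℝ) ≤ X := Nat.cast_nonneg _
  have hsY : 0 ≤ √(Y : ℝ) := Real.sqrt_nonneg _
  -- `1 - a₂ / √2`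
  have hq := q_facts
  have ha2 : 0 < 1 - a 2 / √2 ∧ 1 - a 2 / √2 ≤ 2 := by
    have : |a 2 / √2| ≤ 1 / √2 := by
      rw [abs_div, abs_of_nonneg (Real.sqrt_nonneg _)]
      have : |a 2| ≤ 1 := by rcases ha 2 with h | h | h <;> rw [h] <;> norm_num
      gcongr
    have := abs_le.1 this
    constructor <;> linarith
  have hUW : U = 3 * W * (1 - a 2 / √2) := by
    rw [← hUM, div_mul_cancel₀ _ ha2.1.ne']
  have hW0 : 0 < W := by
    by_contra hcon
    have : U ≤ 0 := by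
      rw [hUW]
      apply mul_nonpos_of_nonpos_of_nonneg _ ha2.1.le
      linarith [not_lt.1 hcon]
    linarith
  rw [sub_sum hY a hε X F (fun φ d => Lc φ d C) hF]
  have hmain := comb hε hY ha (X := X) (fun φ d => Lc φ d C)
    (3 / Real.pi ^ 2 * W * (X * IC C X)) (K₀ * U * (1 + √(Y : ℝ)) * X) (by positivity) (fun φ hφ hη => by
      have b := h φ (hfam φ hφ) X Y a α C C1 ha hY hXY hOs hα hαX
      have e1 : φ.δ / φ.r * (8 / Real.pi ^ 2) * (U / (1 - φ.η / √2)) * (X * IC C X) =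
          8 * (φ.δ / φ.r) * (3 / Real.pi ^ 2 * W * (X * IC C X)) := by
        rw [hη]
        have e2 : U / (1 - a 2 / √2) = 3 * W := by
          rw [hUM]
        rw [e2]
        ring
      rw [← e1]
      refine b.trans ?_
      have := hle φ hφ
      gcongr)
  refine hmain.trans ?_
  have hU6 : U ≤ 6 * W := by
    rw [hUW]
    have := ha2.2
    nlinarith
  calc 2 * (K₀ * U * (1 + √(Y : ℝ)) * X) ≤ 2 * (K₀ * (6 * W) * (1 + √(Y : ℝ)) * X) := by gcongr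
    _ = _ := by ring

end

end Pool.Agent.K4H95.LQ
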