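import Pool.Agent.K4H95.LQ.T6
import Pool.Agent.K4H95.LQ.Mom

/-!
# General forms: averages, moments of the truncated product, joint limits
-/

set_option autoImplicit false

namespace Pool.Agent.K4H95.LQ

open Filter Topology Pool.Agent.H306R2.RG Pool.Agent.H306R2.RZ Pool.Agent.X278.AV

noncomputable section

/-- from sums to averages -/
theorem avg_gen {K₁ K₂ H : ℝ} (hK₁ : 0 ≤ K₁) (hK₂ : 0 ≤ K₂) (hH : 0 ≤ H) {c : ℝ} (hc0 : 0 < c) {D MP I n S : ℝ} {X Y : ℕ}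
    (hD : 0 < D) (hMP0 : 0 < MP) (hX1 : (2 * K₂ / c) ^ 4 ≤ X) (hX0 : (0:ℝ) < X) (hY : 2 ≤ Y)
    (h1 : |n - c * D * X| ≤ K₂ * D * (X : ℝ) ^ (3 / 4 : ℝ))
    (h2 : |S - c * (D * MP) * (X * I)| ≤ K₁ * (D * MP) * (1 + √(Y : ℝ)) * X) (hI : |I| ≤ H * Real.log X) :
    |S / n - MP * I| ≤ 4 / c * (K₁ + 4 * H * K₂) * MP * √(Y : ℝ) := by
  have hY2 : (2 : ℝ) ≤ Y := by exact_mod_cast hY
  have hq : (X : ℝ) ^ (3 / 4 : ℝ) * (X : ℝ) ^ (1 / 4 : ℝ) = X := by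
    rw [← Real.rpow_add hX0]
    norm_num
  have hx34 : 0 < (X : ℝ) ^ (3 / 4 : ℝ) := Real.rpow_pos_of_pos hX0 _
  have hx14 : 2 * K₂ / c ≤ (X : ℝ) ^ (1 / 4 : ℝ) := by
    have h3 : ((2 * K₂ / c) ^ 4) ^ (1 / 4 : ℝ) ≤ (X : ℝ) ^ (1 / 4 : ℝ) :=
      Real.rpow_le_rpow (by positivity) hX1 (by norm_num)
    have h4 : ((2 * K₂ / c) ^ 4) ^ (1 / 4 : ℝ) = 2 * K₂ / c := by
      rw [show (1 / 4 : ℝ) = ((4 : ℕ) : ℝ)⁻¹ by norm_num]
      exact Real.pow_rpow_inv_natCast (by positivity) (by norm_num)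
    rwa [h4] at h3
  have hK34 : K₂ * (X : ℝ) ^ (3 / 4 : ℝ) ≤ c / 2 * X := by
    rw [div_le_iff₀ hc0] at hx14
    calc K₂ * (X : ℝ) ^ (3 / 4 : ℝ) = 1 / 2 * ((X : ℝ) ^ (3 / 4 : ℝ) * (2 * K₂)) := by ring
      _ ≤ 1 / 2 * ((X : ℝ) ^ (3 / 4 : ℝ) * ((X : ℝ) ^ (1 / 4 : ℝ) * c)) := by gcongr
      _ = c / 2 * ((X : ℝ) ^ (3 / 4 : ℝ) * (X : ℝ) ^ (1 / 4 : ℝ)) := by ring
      _ = c / 2 * X := by rw [hq]
  have hlogX : Real.log X ≤ 4 * (X : ℝ) ^ (1 / 4 : ℝ) := by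
    have h5 := Real.log_le_rpow_div hX0.le (ε := 1 / 4) (by norm_num)
    linarith
  have hn0 : c / 2 * D * X ≤ n := by
    have h6 := (abs_le.1 h1).1
    have h7 : K₂ * D * (X : ℝ) ^ (3 / 4 : ℝ) ≤ D * (c / 2 * X) := by
      calc K₂ * D * (X : ℝ) ^ (3 / 4 : ℝ) = D * (K₂ * (X : ℝ) ^ (3 / 4 : ℝ)) := by ring
        _ ≤ _ := by gcongr
    nlinarith
  have hnpos : 0 < n := lt_of_lt_of_le (by positivity) hn0
  have e2 : S / n - MP * I = (S - MP * I * n) / n := by field_simp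
  rw [e2, abs_div, abs_of_pos hnpos, div_le_iff₀ hnpos]
  have h8 : |S - MP * I * n| ≤ D * MP * X * ((1 + √(Y : ℝ)) * (K₁ + 4 * H * K₂)) := by
    have e3 : S - MP * I * n = (S - c * (D * MP) * (X * I)) - MP * I * (n - c * D * X) := by ring
    rw [e3]
    refine (abs_sub _ _).trans ?_
    have h10 : |MP * I * (n - c * D * X)| ≤ D * MP * X * (4 * H * K₂) := by
      rw [abs_mul, abs_mul, abs_of_pos hMP0]
      calc MP * |I| * |n - c * D * X| ≤ MP * (H * (4 * (X : ℝ) ^ (1 / 4 : ℝ))) * (K₂ * D * (X : ℝ) ^ (3 / 4 : ℝ)) := by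
            gcongr
            exact hI.trans (by gcongr)
        _ = 4 * H * MP * K₂ * D * ((X : ℝ) ^ (3 / 4 : ℝ) * (X : ℝ) ^ (1 / 4 : ℝ)) := by ring
        _ = D * MP * X * (4 * H * K₂) := by rw [hq]; ring
    have h11 : D * MP * X * (4 * H * K₂) ≤ D * MP * X * ((1 + √(Y : ℝ)) * (4 * H * K₂)) := by
      have : 4 * H * K₂ ≤ (1 + √(Y : ℝ)) * (4 * H * K₂) := by
        have h12 := Real.sqrt_nonneg (Y : ℝ)
        have h13 : 0 ≤ 4 * H * K₂ := by positivity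
        nlinarith [mul_nonneg h12 h13]
      gcongr
    have h12 : K₁ * (D * MP) * (1 + √(Y : ℝ)) * X = D * MP * X * ((1 + √(Y : ℝ)) * K₁) := by ring
    rw [h12] at h2
    calc _ ≤ D * MP * X * ((1 + √(Y : ℝ)) * K₁) + D * MP * X * ((1 + √(Y : ℝ)) * (4 * H * K₂)) := by linarith
      _ = _ := by ring
  have h13 : 1 + √(Y : ℝ) ≤ 2 * √(Y : ℝ) := by
    have : (1 : ℝ) ≤ √(Y : ℝ) := by
      rw [Real.one_le_sqrt]
      linarith
    linarith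
  calc |S - MP * I * n| ≤ D * MP * X * ((1 + √(Y : ℝ)) * (K₁ + 4 * H * K₂)) := h8
    _ ≤ D * MP * X * (2 * √(Y : ℝ) * (K₁ + 4 * H * K₂)) := by gcongr
    _ = 4 / c * (K₁ + 4 * H * K₂) * MP * √(Y : ℝ) * (c / 2 * D * X) := by
      field_simp
      ring
    _ ≤ 4 / c * (K₁ + 4 * H * K₂) * MP * √(Y : ℝ) * n := by gcongr

namespace MomX

/-- from all patterns to the moments of the truncated product -/
theorem mom_gen (F : (Σ N : ℕ, DirichletCharacter ℂ N) → ℝ) {ε : ℤ} (hε : ε = 1 ∨ ε = -1) {X Y : ℕ} {m B : ℝ}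
    (hb : ∀ a : ℕ → ℝ, Pat a → |∑ᶠ χ ∈ Sub ε X Y a, F χ - m * (prY Y a * MY Y * PYa Y a)| ≤
      B * (prY Y a * MY Y * PYa Y a)) (k : ℝ) :
    |∑ᶠ χ ∈ Chs ε X, F χ * PYc Y χ ^ k - m * (MY Y * ∏ p ∈ prLE Y, phQ p (k + 1))| ≤
      B * (MY Y * ∏ p ∈ prLE Y, phQ p (k + 1)) := by
  classical
  have hfin := Chs_fin ε hε X
  obtain ⟨C, hC⟩ : ∃ C : Finset (Σ N : ℕ, DirichletCharacter ℂ N), (C : Set _) = Chs ε X :=
    ⟨hfin.toFinset, hfin.coe_toFinset⟩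
  have hCm : ∀ χ, χ ∈ C ↔ χ ∈ Chs ε X := fun χ => by rw [← hC]; rfl
  obtain ⟨G, hG⟩ : ∃ G : (Σ N : ℕ, DirichletCharacter ℂ N) → (∀ p ∈ prLE Y, ℝ),
      ∀ χ p hp, G χ p hp = (χ.2 ((p : ℕ) : ZMod χ.1)).re := ⟨fun χ p _ => (χ.2 ((p : ℕ) : ZMod χ.1)).re, fun _ _ _ => rfl⟩
  have hval : ∀ χ ∈ C, ∀ n : ℕ, χ.2 (n : ZMod χ.1) = 0 ∨ χ.2 (n : ZMod χ.1) = 1 ∨ χ.2 (n : ZMod χ.1) = -1 := by
    intro χ hχ n
    exact chi_val χ.2 ((hCm χ).1 hχ).1.2.2.1 n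
  have hre : ∀ χ ∈ C, ∀ n : ℕ, (((χ.2 (n : ZMod χ.1)).re : ℝ) : ℂ) = χ.2 (n : ZMod χ.1) := by
    intro χ hχ n
    rcases hval χ hχ n with h | h | h <;> rw [h] <;> simp
  have hGP : ∀ χ ∈ C, G χ ∈ (prLE Y).pi fun _ => T := by
    intro χ hχ
    rw [Finset.mem_pi]
    intro p hp
    rw [hG, mem_T]
    rcases hval χ hχ p with h | h | h <;> rw [h] <;> simp
  have hSub : ∀ g ∈ (prLE Y).pi fun _ => T, Sub ε X Y (ex Y g) = ((C.filter fun χ => G χ = g : Finset _) : Set _) := by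
    intro g _
    ext χ
    simp only [Sub, Set.mem_ofPred_eq, Finset.coe_filter, hCm]
    constructor
    · rintro ⟨h1, h2⟩
      refine ⟨h1, ?_⟩
      funext p hp
      rw [hG, h2 p hp, Complex.ofReal_re, ex_mem g hp]
    · rintro ⟨h1, h2⟩
      refine ⟨h1, fun p hp => ?_⟩
      rw [ex_mem g hp, ← h2, hG]
      exact (hre χ ((hCm χ).2 h1) p).symm
  have hPY : ∀ g ∈ (prLE Y).pi fun _ => T, ∀ χ ∈ C.filter (fun χ => G χ = g), PYc Y χ = PYa Y (ex Y g) := by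
    intro g _ χ hχ
    unfold PYc PYa
    apply Finset.prod_congr rfl
    intro p hp
    rw [ex_mem g hp, ← (Finset.mem_filter.1 hχ).2, hG]
  have hA : ∑ᶠ χ ∈ Chs ε X, F χ * PYc Y χ ^ k =
      ∑ g ∈ (prLE Y).pi (fun _ => T), PYa Y (ex Y g) ^ k * ∑ᶠ χ ∈ Sub ε X Y (ex Y g), F χ := by
    rw [← hC, finsum_mem_coe_finset, ← Finset.sum_fiberwise_of_maps_to hGP]
    apply Finset.sum_congr rfl
    intro g hg
    rw [hSub g hg, finsum_mem_coe_finset, Finset.mul_sum]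
    apply Finset.sum_congr rfl
    intro χ hχ
    rw [hPY g hg χ hχ, mul_comm]
  have hW : ∑ g ∈ (prLE Y).pi (fun _ => T), PYa Y (ex Y g) ^ k * (prY Y (ex Y g) * MY Y * PYa Y (ex Y g)) =
      MY Y * ∏ p ∈ prLE Y, phQ p (k + 1) := by
    rw [← sum_pat Y k, Finset.mul_sum]
    apply Finset.sum_congr rfl
    intro g hg
    rw [Real.rpow_add_one (PYa_pos (Pat_ex hg)).ne']
    ring
  rw [hA, ← hW, Finset.mul_sum, Finset.mul_sum, ← Finset.sum_sub_distrib]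
  refine (Finset.abs_sum_le_sum_abs _ _).trans (Finset.sum_le_sum fun g hg => ?_)
  have h0 : 0 ≤ PYa Y (ex Y g) ^ k := Real.rpow_nonneg (PYa_pos (Pat_ex hg)).le _
  have e1 : PYa Y (ex Y g) ^ k * ∑ᶠ χ ∈ Sub ε X Y (ex Y g), F χ -
      m * (PYa Y (ex Y g) ^ k * (prY Y (ex Y g) * MY Y * PYa Y (ex Y g))) =
      PYa Y (ex Y g) ^ k * (∑ᶠ χ ∈ Sub ε X Y (ex Y g), F χ - m * (prY Y (ex Y g) * MY Y * PYa Y (ex Y g))) := by ring
  rw [e1, abs_mul, abs_of_nonneg h0]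
  calc PYa Y (ex Y g) ^ k * |∑ᶠ χ ∈ Sub ε X Y (ex Y g), F χ - m * (prY Y (ex Y g) * MY Y * PYa Y (ex Y g))| ≤
      PYa Y (ex Y g) ^ k * (B * (prY Y (ex Y g) * MY Y * PYa Y (ex Y g))) :=
        mul_le_mul_of_nonneg_left (hb (ex Y g) (Pat_ex hg)) h0
    _ = _ := by ring

end MomX

/-- the joint limit -/
theorem lim_gen (hId : StId) (hS : StS) (hMert : StMert) (k : ℝ) {ε : ℤ} (hε : ε = 1 ∨ ε = -1) {Yf : ℕ → ℕ}
    (hY : Tendsto Yf atTop atTop) (hYX : ∀ᶠ X : ℕ in atTop, (Yf X : ℝ) ≤ Real.log X / 1000) {K κ : ℝ} (hK0 : 0 ≤ K)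
    (F : ℕ → (Σ N : ℕ, DirichletCharacter ℂ N) → ℝ)
    (hb : ∀ᶠ X : ℕ in atTop, |∑ᶠ χ ∈ Chs ε X, F X χ * PYc (Yf X) χ ^ k -
      3 / Real.pi ^ 2 * (X * (κ * Real.log X)) * (MY (Yf X) * ∏ p ∈ prLE (Yf X), phQ p (k + 1))| ≤
      K * (1 + √(Yf X : ℝ)) * X * (MY (Yf X) * ∏ p ∈ prLE (Yf X), phQ p (k + 1))) :
    Tendsto (fun X : ℕ => (∑ᶠ χ ∈ Chs ε X, F X χ * PYc (Yf X) χ ^ k) / (Chs ε X).ncard /
      (Real.log X * (Real.exp Real.eulerMascheroniConstant * Real.log (Yf X)) ^ (k * (k + 3) / 2))) atTop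
    (𝓝 (2 * κ * (1 / 2 * ∏' p : Nat.Primes, (1 - (((p : ℕ) : ℝ))⁻¹) ^ ((k + 1) * (k + 2) / 2) * phQ p (k + 1)))) := by
  have hS1 := (hS k).comp hY
  set L : ℝ := 1 / 2 * ∏' p : Nat.Primes, (1 - (((p : ℕ) : ℝ))⁻¹) ^ ((k + 1) * (k + 2) / 2) * phQ p (k + 1) with hL
  set Q : ℕ → ℝ := fun Y => MY Y * ∏ p ∈ prLE Y, phQ p (k + 1) with hQ
  set D : ℕ → ℝ := fun Y => (Real.exp Real.eulerMascheroniConstant * Real.log Y) ^ (k * (k + 3) / 2) with hD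
  set A : ℕ → ℝ := fun X => ∑ᶠ χ ∈ Chs ε X, F X χ * PYc (Yf X) χ ^ k with hA
  set c : ℝ := 3 / Real.pi ^ 2 with hc
  have hc0 : 0 < c := by positivity
  have hq : Tendsto (fun X : ℕ => 1 / 2 * Q (Yf X) / D (Yf X)) atTop (𝓝 L) := by
    refine hS1.congr fun X => ?_
    simp only [Function.comp, hQ, hD]
    rw [hId k (Yf X)]
  have hlogX : Tendsto (fun X : ℕ => Real.log X) atTop atTop :=
    Real.tendsto_log_atTop.comp tendsto_natCast_atTop_atTop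
  have hsm : Tendsto (fun X : ℕ => (1 + √(Yf X : ℝ)) / Real.log X) atTop (𝓝 0) := by
    have h1 : Tendsto (fun X : ℕ => 2 * (√(Real.log X))⁻¹) atTop (𝓝 0) := by
      have h2 : Tendsto (fun X : ℕ => √(Real.log X)) atTop atTop := Real.tendsto_sqrt_atTop.comp hlogX
      simpa using (tendsto_inv_atTop_zero.comp h2).const_mul 2
    refine squeeze_zero' ?_ ?_ h1
    · filter_upwards [hlogX.eventually_gt_atTop 0] with X hX
      positivity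
    · filter_upwards [hYX, hlogX.eventually_ge_atTop 1] with X hX h1X
      have h3 : √(Yf X : ℝ) ≤ √(Real.log X) := Real.sqrt_le_sqrt (by linarith)
      have h4 : 1 ≤ √(Real.log X) := by
        rw [Real.one_le_sqrt]
        exact h1X
      have h5 : √(Real.log X) * √(Real.log X) = Real.log X := Real.mul_self_sqrt (by linarith)
      have h6 : 0 < √(Real.log X) := by linarith
      calc (1 + √(Yf X : ℝ)) / Real.log X ≤ (2 * √(Real.log X)) / Real.log X := by gcongr; linarith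
        _ = (2 * √(Real.log X)) / (√(Real.log X) * √(Real.log X)) := by rw [h5]
        _ = 2 * (√(Real.log X))⁻¹ := by field_simp
  have herr : Tendsto (fun X : ℕ => A X / (X * Real.log X * D (Yf X)) - c * (2 * κ * (1 / 2 * Q (Yf X) / D (Yf X)))) atTop
      (𝓝 0) := by
    have h1 : Tendsto (fun X : ℕ => 2 * K * (|1 / 2 * Q (Yf X) / D (Yf X)| * ((1 + √(Yf X : ℝ)) / Real.log X))) atTop (𝓝 0) := by
      have h2 := (hq.abs.mul hsm).const_mul (2 * K)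
      simpa using h2
    refine squeeze_zero_norm' ?_ h1
    filter_upwards [hb, hlogX.eventually_gt_atTop 0, hY.eventually_ge_atTop 2, eventually_gt_atTop 0] with X h4 h1X h2X h3X
    have hX0 : (0 : ℝ) < X := by exact_mod_cast h3X
    have hly : 0 < Real.log (Yf X) := Real.log_pos (by exact_mod_cast (by omega : 1 < Yf X))
    have hD0 : 0 < D (Yf X) := Real.rpow_pos_of_pos (by positivity) _
    have hQ0 : 0 ≤ Q (Yf X) := by
      refine mul_nonneg (hMert.2 _).le (Finset.prod_nonneg fun p hp => ?_)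
      exact (phQ_pos ⟨p, (Finset.mem_filter.1 hp).2⟩ (k + 1)).le
    have e1 : A X / (X * Real.log X * D (Yf X)) - c * (2 * κ * (1 / 2 * Q (Yf X) / D (Yf X))) =
        (A X - c * (X * (κ * Real.log X)) * Q (Yf X)) / (X * Real.log X * D (Yf X)) := by
      field_simp
    rw [e1, Real.norm_eq_abs, abs_div, abs_of_pos (by positivity : 0 < (X : ℝ) * Real.log X * D (Yf X)),
      div_le_iff₀ (by positivity), abs_of_nonneg (by positivity : 0 ≤ 1 / 2 * Q (Yf X) / D (Yf X))]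
    refine h4.trans (le_of_eq ?_)
    simp only [hQ]
    field_simp
  have hlim1 : Tendsto (fun X : ℕ => A X / (X * Real.log X * D (Yf X))) atTop (𝓝 (c * (2 * κ * L))) := by
    have h1 := herr.add ((hq.const_mul (2 * κ)).const_mul c)
    rw [zero_add] at h1
    refine h1.congr fun X => ?_
    ring
  have h2 := hlim1.div (count_lim hε) hc0.ne'
  have e3 : c * (2 * κ * L) / c = 2 * κ * L := by
    field_simp
  rw [← hc] at h2
  rw [e3] at h2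
  refine h2.congr' ?_
  filter_upwards [eventually_gt_atTop 0] with X hX
  have hX0 : (X : ℝ) ≠ 0 := by exact_mod_cast hX.ne'
  simp only [Pi.div_apply]
  change A X / (X * Real.log X * D (Yf X)) / (((Chs ε X).ncard : ℝ) / X) =
    A X / ((Chs ε X).ncard : ℝ) / (Real.log X * D (Yf X))
  have e4 : (X : ℝ) * Real.log X * D (Yf X) * ((Chs ε X).ncard : ℝ) =
      ((Chs ε X).ncard : ℝ) * (Real.log X * D (Yf X)) * X := by ring
  rw [div_div_eq_mul_div, div_mul_eq_mul_div, div_div, e4, mul_div_mul_right _ _ hX0, div_div]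

end

end Pool.Agent.K4H95.LQ
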