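import Pool.Agent.K4H95.LQ.TN
import Pool.Agent.K4H95.LQ.T7

/-!
# The characters of conductor divisible by `8`
-/

set_option autoImplicit false

namespace Pool.Agent.K4H95.LQ

open Filter Topology Finset Pool.Agent.H306R2.RG Pool.Agent.H306R2.RZ Pool.Agent.X278.AV

noncomputable section

/-- the characters of conductor divisible by `8` -/
def Ch8 (ε : ℤ) (X : ℕ) : Set (Σ N : ℕ, DirichletCharacter ℂ N) := {χ | χ ∈ Chs ε X ∧ 8 ∣ χ.1}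

/-- the same with the pattern `a` -/
def Sub8 (ε : ℤ) (X Y : ℕ) (a : ℕ → ℝ) : Set (Σ N : ℕ, DirichletCharacter ℂ N) :=
  {χ | χ ∈ Ch8 ε X ∧ ∀ p ∈ prLE Y, χ.2 ((p : ℕ) : ZMod χ.1) = (a p : ℂ)}

theorem sub8_sum {Y : ℕ} (hY : 2 ≤ Y) {a : ℕ → ℝ} (ha2 : a 2 = 0) {ε : ℤ} (hε : ε = 1 ∨ ε = -1) (X : ℕ)
    (F : (Σ N : ℕ, DirichletCharacter ℂ N) → ℝ) (f : FD → ℕ → ℝ)
    (hF : ∀ (φ : FD) (d : ℕ) (χ : DirichletCharacter ℂ (φ.r * d)), Fam φ → φ.A d → Squarefree d → χ.IsPrimitive →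
      χ ^ 2 = 1 → χ ≠ 1 → (∀ n : ℕ, n ≠ 0 → χ (n : ZMod (φ.r * d)) = ((cf φ d n : ℝ) : ℂ)) → F ⟨φ.r * d, χ⟩ = f φ d) :
    ∑ᶠ χ ∈ Sub8 ε X Y a, F χ = ∑ d ∈ FF (F8 ε) (X / 8), ind (F8 ε) (oddP Y) a d * f (F8 ε) d := by
  classical
  have h1 := sub_sum hY a hε X (fun χ => if 8 ∣ χ.1 then F χ else 0) (fun φ d => if 8 ∣ φ.r * d then f φ d else 0)
    (fun φ d χ hφ hA hs hp h2 h3 hv => by
      change (if 8 ∣ φ.r * d then F ⟨φ.r * d, χ⟩ else 0) = _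
      rw [hF φ d χ hφ hA hs hp h2 h3 hv])
  have h2 : ∑ᶠ χ ∈ Sub8 ε X Y a, F χ = ∑ᶠ χ ∈ Sub ε X Y a, (if 8 ∣ χ.1 then F χ else 0) := by
    rw [finsum_mem_def, finsum_mem_def]
    refine finsum_congr fun χ => ?_
    by_cases g1 : χ ∈ Sub ε X Y a
    · by_cases g2 : 8 ∣ χ.1
      · rw [Set.indicator_of_mem (show χ ∈ Sub8 ε X Y a from ⟨⟨g1.1, g2⟩, g1.2⟩), Set.indicator_of_mem g1, if_pos g2]
      · rw [Set.indicator_of_notMem (fun g3 : χ ∈ Sub8 ε X Y a => g2 g3.1.2), Set.indicator_of_mem g1, if_neg g2]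
    · rw [Set.indicator_of_notMem (fun g3 : χ ∈ Sub8 ε X Y a => g1 ⟨g3.1.1, g3.2⟩), Set.indicator_of_notMem g1]
  have e8 : (F8 ε).η = 0 := rfl
  have e4 : (F4 ε).η = 0 := rfl
  have e1 : (F1 ε 1).η = 1 := by simp [F1]
  have e5 : (F1 ε 5).η = -1 := by simp [F1]
  rw [h2, h1, fsum_Gv hY, fsum_Gv hY, fsum_Gv hY, fsum_Gv hY, e8, e4, e1, e5, ha2, if_pos rfl, if_pos rfl,
    if_neg (by norm_num), if_neg (by norm_num), add_zero, add_zero]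
  have h3 : ∑ d ∈ FF (F4 ε) (X / 4), ind (F4 ε) (oddP Y) a d * (if 8 ∣ (F4 ε).r * d then f (F4 ε) d else 0) = 0 := by
    refine sum_eq_zero fun d hd => ?_
    have hA : (ε * (d : ℤ)) % 4 = 3 := (mem_FF.1 hd).2.1
    have : ¬ 8 ∣ (F4 ε).r * d := by
      have hr : (F4 ε).r = 4 := rfl
      rw [hr]
      rcases hε with rfl | rfl <;> omega
    rw [if_neg this, mul_zero]
  rw [h3, add_zero]
  refine sum_congr rfl fun d _ => ?_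
  have : 8 ∣ (F8 ε).r * d := Dvd.intro d rfl
  rw [if_pos this]

/-- the first moment -/
theorem fam8_T (h1 : StI1) (h1b : StI1b) (h2 : StI2) (h3 : StI3) (h4 : StI4) (h6 : StI6) (hP1 : StP1) (hP2 : StP2)
    (hR2 : StR2) : ∃ K : ℝ, 0 ≤ K ∧ ∀ (ε : ℤ) (X Y : ℕ) (a : ℕ → ℝ), (ε = 1 ∨ ε = -1) → Pat a → a 2 = 0 → 2 ≤ Y →
    (Y : ℝ) ≤ Real.log X / 1000 →
    |∑ᶠ χ ∈ Sub8 ε X Y a, cen χ - 3 / (2 * Real.pi ^ 2) * (prY Y a * MY Y * PYa Y a) * (X * (1 / 2 * Real.log X))| ≤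
      K * (prY Y a * MY Y * PYa Y a) * (1 + √(Y : ℝ)) * X := by
  obtain ⟨K₁, hK₁, g1⟩ := fam_T h1 h1b h2 h3 h4 h6 hP1 hP2 hR2 (fams (Or.inl rfl : (1 : ℤ) = 1 ∨ (1 : ℤ) = -1)).1
  obtain ⟨K₂, hK₂, g2⟩ := fam_T h1 h1b h2 h3 h4 h6 hP1 hP2 hR2 (fams (Or.inr rfl : (-1 : ℤ) = 1 ∨ (-1 : ℤ) = -1)).1
  refine ⟨3 * (K₁ + K₂), by positivity, fun ε X Y a hε ha ha2 hY hXY => ?_⟩
  have hU : UL (oddP Y) a = 3 * (prY Y a * MY Y * PYa Y a) := by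
    have := UM hY ha
    rw [ha2, zero_div, sub_zero, div_one] at this
    exact this
  have hU0 := UL_pos hP2 (oddP_OP Y) ha
  rw [sub8_sum hY ha2 hε X cen (fun φ d => LLg φ d (1 / 2))
    (fun φ d χ hφ hA hs _ _ h3 hv => cen_val hφ hA hs h3 hv)]
  set W : ℝ := prY Y a * MY Y * PYa Y a with hW
  have hW0 : 0 < W := by linarith
  have hX0 : (0:ℝ) ≤ X := Nat.cast_nonneg _
  have key : ∀ K : ℝ, |SI (F8 ε) (oddP Y) a (X / 8) - 1 / 2 / 8 * (8 / Real.pi ^ 2) *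
      (UL (oddP Y) a / (2 * (1 - 0 / √2))) * (X * Real.log X)| ≤ K * UL (oddP Y) a * (1 + √(Y : ℝ)) * X →
      K ≤ K₁ + K₂ → |∑ d ∈ FF (F8 ε) (X / 8), ind (F8 ε) (oddP Y) a d * LLg (F8 ε) d (1 / 2) -
        3 / (2 * Real.pi ^ 2) * W * (X * (1 / 2 * Real.log X))| ≤ 3 * (K₁ + K₂) * W * (1 + √(Y : ℝ)) * X := by
    intro K h hK
    have e1 : 1 / 2 / 8 * (8 / Real.pi ^ 2) * (UL (oddP Y) a / (2 * (1 - 0 / √2))) * (X * Real.log X) =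
        3 / (2 * Real.pi ^ 2) * W * (X * (1 / 2 * Real.log X)) := by
      rw [hU, zero_div, sub_zero]
      field_simp
    rw [e1, hU] at h
    have e2 : SI (F8 ε) (oddP Y) a (X / 8) = ∑ d ∈ FF (F8 ε) (X / 8), ind (F8 ε) (oddP Y) a d * LLg (F8 ε) d (1 / 2) := rfl
    rw [e2] at h
    refine h.trans ?_
    calc K * (3 * W) * (1 + √(Y : ℝ)) * X ≤ (K₁ + K₂) * (3 * W) * (1 + √(Y : ℝ)) * X := by gcongr
      _ = _ := by ring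
  rcases hε with rfl | rfl
  · refine key K₁ ?_ (by linarith)
    have := g1 X Y a ha hY hXY
    have r8 : (F8 1).r = 8 := rfl
    have d8 : (F8 1).δ = 1 / 2 := rfl
    have n8 : (F8 1).η = 0 := rfl
    rw [r8, d8, n8] at this
    exact_mod_cast this
  · refine key K₂ ?_ (by linarith)
    have := g2 X Y a ha hY hXY
    have r8 : (F8 (-1)).r = 8 := rfl
    have d8 : (F8 (-1)).δ = 1 / 2 := rfl
    have n8 : (F8 (-1)).η = 0 := rfl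
    rw [r8, d8, n8] at this
    exact_mod_cast this

/-- the number -/
theorem fam8_N (hP2 : StP2) (hR2 : StR2) : ∃ K : ℝ, 0 ≤ K ∧ ∀ (ε : ℤ) (X Y : ℕ) (a : ℕ → ℝ), (ε = 1 ∨ ε = -1) → Pat a →
    a 2 = 0 → 2 ≤ Y → (Y : ℝ) ≤ Real.log X / 1000 →
    |((Sub8 ε X Y a).ncard : ℝ) - 3 / (2 * Real.pi ^ 2) * prY Y a * X| ≤ K * prY Y a * (X : ℝ) ^ (3 / 4 : ℝ) := by
  obtain ⟨K₁, hK₁, g1⟩ := fam_N hP2 hR2 (fams (Or.inl rfl : (1 : ℤ) = 1 ∨ (1 : ℤ) = -1)).1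
  obtain ⟨K₂, hK₂, g2⟩ := fam_N hP2 hR2 (fams (Or.inr rfl : (-1 : ℤ) = 1 ∨ (-1 : ℤ) = -1)).1
  refine ⟨3 * (K₁ + K₂), by positivity, fun ε X Y a hε ha ha2 hY hXY => ?_⟩
  have hD : prY Y a = 1 / 3 * ∏ p ∈ oddP Y, pim p (a p) := by
    unfold prY
    rw [prLE_eq hY, prod_insert (two_notMem Y), ha2]
    unfold pim
    rw [if_pos rfl]
    norm_num
  have hD0 : 0 ≤ ∏ p ∈ oddP Y, pim p (a p) := prod_nonneg fun p _ => by
    unfold pim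
    split_ifs <;> positivity
  have hfin : (Sub8 ε X Y a).Finite := (MomX.Chs_fin ε hε X).subset fun χ h => h.1.1
  have hcard : ((Sub8 ε X Y a).ncard : ℝ) = ∑ᶠ χ ∈ Sub8 ε X Y a, (1 : ℝ) := by
    rw [finsum_mem_eq_finite_toFinset_sum _ hfin, Set.ncard_eq_toFinset_card _ hfin]
    simp
  rw [hcard, sub8_sum hY ha2 hε X (fun _ => (1 : ℝ)) (fun _ _ => 1) (fun _ _ _ _ _ _ _ _ _ _ => rfl)]
  set D : ℝ := ∏ p ∈ oddP Y, pim p (a p) with hDd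
  have key : ∀ K : ℝ, |∑ d ∈ FF (F8 ε) (X / 8), ind (F8 ε) (oddP Y) a d - 1 / 2 / 8 * (8 / Real.pi ^ 2) * D * X| ≤
      K * D * (X : ℝ) ^ (3 / 4 : ℝ) → K ≤ K₁ + K₂ → |∑ d ∈ FF (F8 ε) (X / 8), ind (F8 ε) (oddP Y) a d * 1 -
        3 / (2 * Real.pi ^ 2) * prY Y a * X| ≤ 3 * (K₁ + K₂) * prY Y a * (X : ℝ) ^ (3 / 4 : ℝ) := by
    intro K h hK
    simp only [mul_one]
    have e1 : 1 / 2 / 8 * (8 / Real.pi ^ 2) * D * X = 3 / (2 * Real.pi ^ 2) * prY Y a * X := by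
      rw [hD]
      field_simp
    rw [e1] at h
    refine h.trans ?_
    rw [hD]
    calc K * D * (X : ℝ) ^ (3 / 4 : ℝ) ≤ (K₁ + K₂) * D * (X : ℝ) ^ (3 / 4 : ℝ) := by gcongr
      _ = _ := by ring
  rcases hε with rfl | rfl
  · refine key K₁ ?_ (by linarith)
    have := g1 X Y a ha hY hXY
    have r8 : (F8 1).r = 8 := rfl
    have d8 : (F8 1).δ = 1 / 2 := rfl
    rw [r8, d8] at this
    exact_mod_cast this
  · refine key K₂ ?_ (by linarith)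
    have := g2 X Y a ha hY hXY
    have r8 : (F8 (-1)).r = 8 := rfl
    have d8 : (F8 (-1)).δ = 1 / 2 := rfl
    rw [r8, d8] at this
    exact_mod_cast this

/-! ### moments of the truncated product -/

namespace Mom8

open MomX

/-- the local values -/
def T8 (p : ℕ) : Finset ℝ := if p = 2 then {0} else T

theorem T8_sub (p : ℕ) : T8 p ⊆ T := by
  unfold T8
  split_ifs
  · intro x hx
    rw [mem_singleton] at hx
    rw [mem_T]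
    exact Or.inl hx
  · exact subset_rfl

/-- the local factor -/
def ph8 (p : ℕ) (x : ℝ) : ℝ := if p = 2 then 1 / 3 else phQ p x

theorem pi_sub {Y : ℕ} {g : ∀ p ∈ prLE Y, ℝ} (hg : g ∈ (prLE Y).pi fun p => T8 p) : g ∈ (prLE Y).pi fun _ => T := by
  rw [Finset.mem_pi] at hg ⊢
  exact fun p hp => T8_sub p (hg p hp)

theorem ex_two {Y : ℕ} (hY : 2 ≤ Y) {g : ∀ p ∈ prLE Y, ℝ} (hg : g ∈ (prLE Y).pi fun p => T8 p) : ex Y g 2 = 0 := by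
  have h2 : 2 ∈ prLE Y := by
    rw [prLE_eq hY]
    exact mem_insert_self _ _
  rw [ex_mem g h2]
  have := Finset.mem_pi.1 hg 2 h2
  unfold T8 at this
  rw [if_pos rfl, mem_singleton] at this
  exact this

theorem sum_pat8 (Y : ℕ) (k : ℝ) :
    ∑ g ∈ (prLE Y).pi (fun p => T8 p), prY Y (ex Y g) * PYa Y (ex Y g) ^ (k + 1) = ∏ p ∈ prLE Y, ph8 p (k + 1) := by
  have h1 : ∏ p ∈ prLE Y, ph8 p (k + 1) = ∏ p ∈ prLE Y, ∑ x ∈ T8 p, pim p x * ((1 - x / √(p : ℝ))⁻¹) ^ (k + 1) := by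
    refine Finset.prod_congr rfl fun p hp => ?_
    unfold ph8 T8
    split_ifs with h
    · subst h
      rw [sum_singleton]
      unfold pim
      rw [if_pos rfl]
      norm_num
    · exact (loc (prime_of_mem hp) k).symm
  rw [h1, Finset.prod_sum]
  apply Finset.sum_congr rfl
  intro g hg
  have h2 : ∏ x ∈ (prLE Y).attach, pim x.1 (g x.1 x.2) * ((1 - g x.1 x.2 / √(x.1 : ℝ))⁻¹) ^ (k + 1) =
      ∏ x ∈ (prLE Y).attach, (fun p : ℕ => pim p (ex Y g p) * ((1 - ex Y g p / √(p : ℝ))⁻¹) ^ (k + 1)) x.1 := by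
    apply Finset.prod_congr rfl
    intro x _
    dsimp only
    rw [ex_mem g x.2]
  rw [h2, Finset.prod_attach (prLE Y) (fun p : ℕ => pim p (ex Y g p) * ((1 - ex Y g p / √(p : ℝ))⁻¹) ^ (k + 1)),
    Finset.prod_mul_distrib, Real.finsetProd_rpow _ _ (fun p hp => (fac_pos (Pat_ex (pi_sub hg)) hp).le)]
  rfl

theorem mom8 (F : (Σ N : ℕ, DirichletCharacter ℂ N) → ℝ) {ε : ℤ} (hε : ε = 1 ∨ ε = -1) {X Y : ℕ} (hY : 2 ≤ Y) {m B : ℝ}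
    (hb : ∀ a : ℕ → ℝ, Pat a → a 2 = 0 → |∑ᶠ χ ∈ Sub8 ε X Y a, F χ - m * (prY Y a * MY Y * PYa Y a)| ≤
      B * (prY Y a * MY Y * PYa Y a)) (k : ℝ) :
    |∑ᶠ χ ∈ Ch8 ε X, F χ * PYc Y χ ^ k - m * (MY Y * ∏ p ∈ prLE Y, ph8 p (k + 1))| ≤
      B * (MY Y * ∏ p ∈ prLE Y, ph8 p (k + 1)) := by
  classical
  have hfin : (Ch8 ε X).Finite := (Chs_fin ε hε X).subset fun χ h => h.1
  obtain ⟨C, hC⟩ : ∃ C : Finset (Σ N : ℕ, DirichletCharacter ℂ N), (C : Set _) = Ch8 ε X :=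
    ⟨hfin.toFinset, hfin.coe_toFinset⟩
  have hCm : ∀ χ, χ ∈ C ↔ χ ∈ Ch8 ε X := fun χ => by rw [← hC]; rfl
  obtain ⟨G, hG⟩ : ∃ G : (Σ N : ℕ, DirichletCharacter ℂ N) → (∀ p ∈ prLE Y, ℝ),
      ∀ χ p hp, G χ p hp = (χ.2 ((p : ℕ) : ZMod χ.1)).re := ⟨fun χ p _ => (χ.2 ((p : ℕ) : ZMod χ.1)).re, fun _ _ _ => rfl⟩
  have hval : ∀ χ ∈ C, ∀ n : ℕ, χ.2 (n : ZMod χ.1) = 0 ∨ χ.2 (n : ZMod χ.1) = 1 ∨ χ.2 (n : ZMod χ.1) = -1 := by
    intro χ hχ n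
    exact chi_val χ.2 ((hCm χ).1 hχ).1.1.2.2.1 n
  have hre : ∀ χ ∈ C, ∀ n : ℕ, (((χ.2 (n : ZMod χ.1)).re : ℝ) : ℂ) = χ.2 (n : ZMod χ.1) := by
    intro χ hχ n
    rcases hval χ hχ n with h | h | h <;> rw [h] <;> simp
  have h28 : ∀ χ ∈ C, χ.2 ((2 : ℕ) : ZMod χ.1) = 0 := by
    intro χ hχ
    refine χ.2.map_nonunit ?_
    rw [ZMod.isUnit_iff_coprime]
    intro hcop
    have h8 : 8 ∣ χ.1 := ((hCm χ).1 hχ).2
    have h3 : 2 ∣ Nat.gcd 2 χ.1 := Nat.dvd_gcd (dvd_refl 2) (dvd_trans (by norm_num) h8)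
    rw [hcop] at h3
    omega
  have hGP : ∀ χ ∈ C, G χ ∈ (prLE Y).pi fun p => T8 p := by
    intro χ hχ
    rw [Finset.mem_pi]
    intro p hp
    rw [hG]
    unfold T8
    split_ifs with h
    · subst h
      rw [mem_singleton, h28 χ hχ]
      rfl
    · rw [mem_T]
      rcases hval χ hχ p with h | h | h <;> rw [h] <;> simp
  have hSub : ∀ g ∈ (prLE Y).pi fun p => T8 p, Sub8 ε X Y (ex Y g) = ((C.filter fun χ => G χ = g : Finset _) : Set _) := by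
    intro g _
    ext χ
    simp only [Sub8, Set.mem_ofPred_eq, Finset.coe_filter, hCm]
    constructor
    · rintro ⟨h1, h2⟩
      refine ⟨h1, ?_⟩
      funext p hp
      rw [hG, h2 p hp, Complex.ofReal_re, ex_mem g hp]
    · rintro ⟨h1, h2⟩
      refine ⟨h1, fun p hp => ?_⟩
      rw [ex_mem g hp, ← h2, hG]
      exact (hre χ ((hCm χ).2 h1) p).symm
  have hPY : ∀ g ∈ (prLE Y).pi fun p => T8 p, ∀ χ ∈ C.filter (fun χ => G χ = g), PYc Y χ = PYa Y (ex Y g) := by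
    intro g _ χ hχ
    unfold PYc PYa
    apply Finset.prod_congr rfl
    intro p hp
    rw [ex_mem g hp, ← (Finset.mem_filter.1 hχ).2, hG]
  have hA : ∑ᶠ χ ∈ Ch8 ε X, F χ * PYc Y χ ^ k =
      ∑ g ∈ (prLE Y).pi (fun p => T8 p), PYa Y (ex Y g) ^ k * ∑ᶠ χ ∈ Sub8 ε X Y (ex Y g), F χ := by
    rw [← hC, finsum_mem_coe_finset, ← Finset.sum_fiberwise_of_maps_to hGP]
    apply Finset.sum_congr rfl
    intro g hg
    rw [hSub g hg, finsum_mem_coe_finset, Finset.mul_sum]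
    apply Finset.sum_congr rfl
    intro χ hχ
    rw [hPY g hg χ hχ, mul_comm]
  have hW : ∑ g ∈ (prLE Y).pi (fun p => T8 p), PYa Y (ex Y g) ^ k * (prY Y (ex Y g) * MY Y * PYa Y (ex Y g)) =
      MY Y * ∏ p ∈ prLE Y, ph8 p (k + 1) := by
    rw [← sum_pat8 Y k, Finset.mul_sum]
    apply Finset.sum_congr rfl
    intro g hg
    rw [Real.rpow_add_one (PYa_pos (Pat_ex (pi_sub hg))).ne']
    ring
  rw [hA, ← hW, Finset.mul_sum, Finset.mul_sum, ← Finset.sum_sub_distrib]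
  refine (Finset.abs_sum_le_sum_abs _ _).trans (Finset.sum_le_sum fun g hg => ?_)
  have h0 : 0 ≤ PYa Y (ex Y g) ^ k := Real.rpow_nonneg (PYa_pos (Pat_ex (pi_sub hg))).le _
  have e1 : PYa Y (ex Y g) ^ k * ∑ᶠ χ ∈ Sub8 ε X Y (ex Y g), F χ -
      m * (PYa Y (ex Y g) ^ k * (prY Y (ex Y g) * MY Y * PYa Y (ex Y g))) =
      PYa Y (ex Y g) ^ k * (∑ᶠ χ ∈ Sub8 ε X Y (ex Y g), F χ - m * (prY Y (ex Y g) * MY Y * PYa Y (ex Y g))) := by ring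
  rw [e1, abs_mul, abs_of_nonneg h0]
  calc PYa Y (ex Y g) ^ k * |∑ᶠ χ ∈ Sub8 ε X Y (ex Y g), F χ - m * (prY Y (ex Y g) * MY Y * PYa Y (ex Y g))| ≤
      PYa Y (ex Y g) ^ k * (B * (prY Y (ex Y g) * MY Y * PYa Y (ex Y g))) :=
        mul_le_mul_of_nonneg_left (hb (ex Y g) (Pat_ex (pi_sub hg)) (ex_two hY hg)) h0
    _ = _ := by ring

end Mom8

end

end Pool.Agent.K4H95.LQ
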