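import Pool.Agent.K4H95.LQ.Sx
import Pool.Agent.K4H95.LQ.A2

/-!
# The first moment over a family times a power of the Euler product
-/

set_option autoImplicit false

namespace Pool.Agent.K4H95.LQ

open Finset Filter Topology Pool.Agent.H306R2.RG Pool.Agent.H306R2.RZ Pool.Agent.X278.AV

noncomputable section

lemma be_zero_pos {j : ℕ} (hj : j ≠ 0) : be 0 j = 0 := by
  obtain ⟨i, rfl⟩ := Nat.exists_eq_succ_of_ne_zero hj
  exact A2.be_zero_succ i

lemma bm_even {x : ℕ → ℝ} (hx : x 2 = 0) {m : ℕ} (hm : ¬ Odd m) : bm x m = 0 := by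
  unfold bm
  split_ifs with h
  · rfl
  · have h2 : 2 ∣ m := even_iff_two_dvd.1 (Nat.not_odd_iff_even.1 hm)
    have h3 : 2 ∈ m.primeFactors := Nat.mem_primeFactors.2 ⟨Nat.prime_two, h2, h⟩
    refine prod_eq_zero h3 ?_
    rw [hx]
    apply be_zero_pos
    have := Nat.prime_two.factorization_pos_of_dvd h h2
    omega

theorem tan_lim (hA1 : StA1) (hA2 : StA2) (hP : StP) (hB : StB) (hC : StC) {φ : FD} (hφ : Fam φ) {x : ℕ → ℝ}
    (hx2 : x 2 = 0) (hx : Summable fun p : Nat.Primes => |x p| * ((p : ℕ) : ℝ) ^ (-(1 / 8) : ℝ)) :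
    Tendsto (fun X : ℕ => (∑ d ∈ FF φ X, LLg φ d (1 / 2) * Real.exp (∑' p : Nat.Primes, x p * Yq p (jo φ d p))) /
      (X * Real.log X)) atTop
      (𝓝 (φ.δ * (8 / Real.pi ^ 2) / (2 * (1 - φ.η / √2)) *
        (1 / 2 * ∏' p : Nat.Primes, if (p : ℕ) = 2 then (1 : ℝ) else (1 - 1 / ((p : ℕ) : ℝ)) * phQ p (1 + x p)))) := by
  obtain ⟨hs, hpsi⟩ := hA1 x hx
  have h2 := hA2 x hx2 hx
  obtain ⟨K, hK, hbd⟩ := SX_bd hP hB hC hφ
  set D : ℝ := φ.δ * (8 / Real.pi ^ 2) / (2 * (1 - φ.η / √2)) with hD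
  have key : ∀ X : ℕ, (∑ d ∈ FF φ X, LLg φ d (1 / 2) * Real.exp (∑' p : Nat.Primes, x p * Yq p (jo φ d p))) /
      (X * Real.log X) = ∑' m : ℕ, bm x m / √(m : ℝ) * (SX φ m X / (X * Real.log X)) := by
    intro X
    have h3 : ∀ d ∈ FF φ X, HasSum (fun m : ℕ => bm x m / √(m : ℝ) * (LLg φ d (1 / 2) * jo φ d m / (X * Real.log X)))
        (LLg φ d (1 / 2) * Real.exp (∑' p : Nat.Primes, x p * Yq p (jo φ d p)) / (X * Real.log X)) := by
      intro d _
      have h4 := ((hpsi (jo φ d) (jo_one φ d) (jo_mul φ d) (jo_abs φ d)).mul_left (LLg φ d (1 / 2))).div_const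
        (X * Real.log X)
      refine h4.congr_fun fun m => ?_
      ring
    have h4 := (hasSum_sum h3).tsum_eq
    rw [sum_div, ← h4]
    refine tsum_congr fun m => ?_
    rw [← mul_sum, ← sum_div]
    rfl
  have h3 := tendsto_tsum_of_dominated_convergence (𝓕 := atTop)
    (f := fun (X : ℕ) (m : ℕ) => bm x m / √(m : ℝ) * (SX φ m X / (X * Real.log X)))
    (g := fun m : ℕ => D * (bm x m / cs m * Gm m))
    (bound := fun m : ℕ => K * (|bm x m| * (m : ℝ) ^ (-(1 / 8) : ℝ))) (hs.mul_left K) (fun m => ?_) ?_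
  · rw [tsum_mul_left, h2.tsum_eq] at h3
    exact h3.congr fun X => (key X).symm
  · by_cases hm : Odd m
    · have h4 := (SX_lim hP hB hC hφ hm).const_mul (bm x m / √(m : ℝ))
      have h5 : bm x m / √(m : ℝ) * (φ.δ * (8 / Real.pi ^ 2) / (2 * (1 - φ.η / √2)) * (√(m : ℝ) / cs m * Gm m)) =
          D * (bm x m / cs m * Gm m) := by
        have : 0 < √(m : ℝ) := Real.sqrt_pos.2 (by exact_mod_cast hm.pos)
        rw [hD]
        field_simp
      rw [h5] at h4
      exact h4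
    · simp only [bm_even hx2 hm, zero_div, zero_mul, mul_zero]
      exact tendsto_const_nhds
  · filter_upwards [eventually_ge_atTop 2] with X hX m
    by_cases hm : Odd m
    · have hX1 : (0:ℝ) < X := by exact_mod_cast (by omega : 0 < X)
      obtain ⟨hl, -⟩ := log_two_bd hX
      have hm0 : (0:ℝ) < m := by exact_mod_cast hm.pos
      have h4 := hbd m X hm hX
      rw [norm_mul, norm_div, norm_div, Real.norm_eq_abs, Real.norm_eq_abs, Real.norm_eq_abs, Real.norm_eq_abs,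
        abs_of_nonneg (Real.sqrt_nonneg _), abs_of_pos (by positivity : 0 < (X:ℝ) * Real.log X)]
      have h5 : |SX φ m X| / (X * Real.log X) ≤ K * (m : ℝ) ^ (3 / 8 : ℝ) := by
        rw [div_le_iff₀ (by positivity)]
        exact h4
      calc |bm x m| / √(m : ℝ) * (|SX φ m X| / (X * Real.log X)) ≤
          |bm x m| / √(m : ℝ) * (K * (m : ℝ) ^ (3 / 8 : ℝ)) := by gcongr
        _ = K * (|bm x m| * ((m : ℝ) ^ (-(1 / 2) : ℝ) * (m : ℝ) ^ (3 / 8 : ℝ))) := by
          rw [Real.sqrt_eq_rpow, Real.rpow_neg hm0.le]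
          ring
        _ = _ := by
          rw [← Real.rpow_add hm0]
          norm_num
    · simp only [bm_even hx2 hm, zero_div, zero_mul, mul_zero, norm_zero, abs_zero, le_refl]

end

end Pool.Agent.K4H95.LQ
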