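import Pool.Agent.K4H95.LQ.Psi
import Pool.Agent.H234R3.RG_CC7
import Pool.Agent.H553R2.RG_CC8a

/-!
# The sum with a cut-off is an integral of the theta function (piece Z1, by helper41)
-/

set_option autoImplicit false

namespace Pool.Agent.K4H95.LQ

open Filter Topology MeasureTheory Pool.Agent.H306R2.RG Pool.Agent.H306R2.RZ

noncomputable section

namespace Z1x

/-- the shifted step -/
def Fi (c τ : ℝ) : ℝ := ro (τ - c)

lemma Fi_meas (c : ℝ) : Measurable (Fi c) := by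
  unfold Fi
  exact ro_cont.measurable.comp (measurable_id.sub_const c)

lemma Fi_zero {c : ℝ} (hc : 0 ≤ c) {τ : ℝ} (h : τ ≤ -1) : Fi c τ = 0 := ro_zero (by linarith)

/-- the kernel is `Psi` -/
lemma kw_psi (φ : FD) {d : ℕ} (hr : (0 : ℝ) < φ.r) (hd : (0 : ℝ) < d) (c y : ℝ) :
    KWg φ 1 (beg φ 1 d) (Fi c) y = Psi φ (Real.log ((φ.r : ℝ) * d) / 2 - c - y) := by
  unfold KWg Psi
  congr 1
  refine setIntegral_congr_fun measurableSet_Ioi fun v hv => ?_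
  have hv0 : (0 : ℝ) < v := hv
  have e8 : TV 1 (beg φ 1 d) v - y - c =
      Real.log ((φ.r : ℝ) * d) / 2 - c - y + Real.log v / 2 := by
    unfold TV beg
    rw [Real.log_mul (by norm_num) hv0.ne', Real.log_div (mul_pos hr hd).ne' (by norm_num)]
    ring
  simp only [Fi]
  rw [e8]

/-- both orders of the double sum -/
lemma dbl (φ : FD) (hφ : Fam φ) (d : ℕ) (β c : ℝ) (hc : 0 ≤ c) :
    (∑' j : ℕ, (φ.η / Real.sqrt 2) ^ j * ∑' n : ℕ, jo φ d (n + 1) / Real.sqrt ((n : ℝ) + 1) *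
      KWg φ 1 β (Fi c) (Real.log ((n : ℝ) + 1) + j * Real.log 2)) =
    ∑' n : ℕ, cf φ d (n + 1) / Real.sqrt ((n : ℝ) + 1) *
        KWg φ 1 β (Fi c) (Real.log ((n : ℝ) + 1) / 1) := by
  obtain ⟨C, hC, hbd⟩ := H234R3.RG.cc7_bd φ hφ 1 one_pos β 0 1 (Fi c) 1
    (fun τ h => Fi_zero hc h) (fun τ => by
      rw [zero_mul, Real.exp_zero, mul_one]
      unfold Fi
      rw [abs_of_nonneg (ro_nonneg _)]
      exact ro_le _)
  set f : ℕ → ℝ := fun n => cf φ d (n + 1) / Real.sqrt ((n : ℝ) + 1) *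
        KWg φ 1 β (Fi c) (Real.log ((n : ℝ) + 1) / 1) with hf
  set g : ℕ × ℕ → ℝ := fun p => jo φ d (p.1 + 1) / Real.sqrt ((p.1 : ℝ) + 1) *
    ((φ.η / Real.sqrt 2) ^ p.2 * KWg φ 1 β (Fi c) (Real.log ((p.1 : ℝ) + 1) / 1 +
      p.2 * (Real.log 2 / 1))) with hg
  have hfg : ∀ n, g (H234R3.RG.cc7i n) = f n := by
    intro n
    have hs := H234R3.RG.cc7i_spec n
    have hs' : (2 : ℝ) ^ (H234R3.RG.cc7i n).2 * (((H234R3.RG.cc7i n).1 : ℝ) + 1) = (n : ℝ) + 1 := by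
      exact_mod_cast hs
    have hpos : (0 : ℝ) < ((H234R3.RG.cc7i n).1 : ℝ) + 1 := by positivity
    have e1 : cf φ d (n + 1) = φ.η ^ (H234R3.RG.cc7i n).2 * jo φ d ((H234R3.RG.cc7i n).1 + 1) := by
      unfold cf H234R3.RG.cc7i
      dsimp only
      rw [Nat.sub_add_cancel (H234R3.RG.cc7_dec n).1]
    have e2 : Real.sqrt ((n : ℝ) + 1) =
        Real.sqrt 2 ^ (H234R3.RG.cc7i n).2 * Real.sqrt (((H234R3.RG.cc7i n).1 : ℝ) + 1) := by
      rw [← hs', Real.sqrt_mul (by positivity)]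
      congr 1
      rw [Real.sqrt_eq_iff_mul_self_eq_of_pos (by positivity), ← mul_pow,
        Real.mul_self_sqrt (by norm_num)]
    have e3 : Real.log ((n : ℝ) + 1) / 1 = Real.log (((H234R3.RG.cc7i n).1 : ℝ) + 1) / 1 +
        (H234R3.RG.cc7i n).2 * (Real.log 2 / 1) := by
      rw [← hs', Real.log_mul (by positivity) (by positivity), Real.log_pow]; ring
    simp only [hf, hg]
    rw [e1, e2, e3, div_pow]
    have h2 : Real.sqrt 2 ^ (H234R3.RG.cc7i n).2 ≠ 0 := by positivity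
    have h3 : Real.sqrt (((H234R3.RG.cc7i n).1 : ℝ) + 1) ≠ 0 := by positivity
    field_simp
  have hgs : ∀ p, p ∉ Set.range H234R3.RG.cc7i → g p = 0 := by
    intro p hp
    have : ¬ Odd (p.1 + 1) := fun h => hp (H234R3.RG.cc7i_range p h)
    simp only [hg, jo, if_neg this, zero_div, zero_mul]
  have hsf : Summable f := by
    have hs1 : Summable fun n : ℕ => C * (1 / (((n + 1 : ℕ) : ℝ)) ^ 2) :=
      ((summable_nat_add_iff 1).2 (Real.summable_one_div_nat_pow.2 one_lt_two)).mul_left C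
    refine Summable.of_norm_bounded hs1 fun n => ?_
    have hN : (1 : ℝ) ≤ (n : ℝ) + 1 := by
      have : (0 : ℝ) ≤ n := Nat.cast_nonneg n
      linarith
    have h1 := hbd _ hN
    have h2 : |cf φ d (n + 1) / Real.sqrt ((n : ℝ) + 1)| ≤ 1 := by
      rw [abs_div, abs_of_nonneg (Real.sqrt_nonneg _)]
      refine div_le_one_of_le₀ ((H234R3.RG.cc7_cf φ hφ d (n + 1)).trans ?_) (Real.sqrt_nonneg _)
      calc (1 : ℝ) = Real.sqrt 1 := Real.sqrt_one.symm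
        _ ≤ _ := Real.sqrt_le_sqrt hN
    rw [Real.norm_eq_abs, hf, abs_mul]
    calc _ ≤ 1 * (C / ((n : ℝ) + 1) ^ 2) := mul_le_mul h2 h1 (abs_nonneg _) zero_le_one
      _ = _ := by push_cast; ring
  have hsg : Summable g := by
    rw [← Function.Injective.summable_iff H234R3.RG.cc7i_inj hgs]
    exact hsf.congr fun n => (hfg n).symm
  have hfs : ∑' n, f n = ∑' p, g p := by
    rw [← Function.Injective.tsum_eq H234R3.RG.cc7i_inj (f := g) ?_]
    · exact tsum_congr fun n => (hfg n).symm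
    · intro p hp
      by_contra hcon
      exact hp (hgs p hcon)
  rw [hfs]
  have hsw : Summable (fun p : ℕ × ℕ => g p.swap) :=
    (Equiv.prodComm ℕ ℕ).summable_iff.2 hsg
  have h3 : ∑' p, g p = ∑' p : ℕ × ℕ, g p.swap := ((Equiv.prodComm ℕ ℕ).tsum_eq g).symm
  rw [h3, hsw.tsum_prod]
  refine tsum_congr fun j => ?_
  rw [← tsum_mul_left]
  refine tsum_congr fun n => ?_
  simp only [hg, Prod.swap, div_one]
  ring

/-- exchange of sum and integral -/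
lemma core (φ : FD) (hφ : Fam φ) (d : ℕ) (hd : 0 < d) (c : ℝ) (hc : 0 ≤ c) :
    (∑' j : ℕ, (φ.η / Real.sqrt 2) ^ j * ∑' n : ℕ, jo φ d (n + 1) / Real.sqrt ((n : ℝ) + 1) *
      Psi φ (Real.log ((φ.r : ℝ) * d) / 2 - (c + j * Real.log 2) - Real.log ((n + 1 : ℕ) : ℝ))) =
    (∫ y in Set.Ioi (0 : ℝ), thg φ d y * y ^ φ.ex * ro (Real.log y / 2 - c)) /
    (((φ.r : ℝ) * d) ^ (φ.ex + 1) * g0g φ) := by
  have hr : 0 < φ.r := H553R2.RGCC8a.fam_r φ hφ
  have hη : |φ.η| ≤ 1 := H553R2.RGCC8a.fam_eta φ hφ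
  have hd' : (0 : ℝ) < d := by exact_mod_cast hd
  have hr' : (0 : ℝ) < φ.r := by exact_mod_cast hr
  have h8 : (0 : ℝ) < (φ.r : ℝ) * (d : ℝ) := by positivity
  have hg := (g0_pos φ).ne'
  have h1 : (∑' j : ℕ, (φ.η / Real.sqrt 2) ^ j * ∑' n : ℕ, jo φ d (n + 1) /
      Real.sqrt ((n : ℝ) + 1) * Psi φ (Real.log ((φ.r : ℝ) * d) / 2 - (c + j * Real.log 2) -
        Real.log ((n + 1 : ℕ) : ℝ))) =
      ∑' j : ℕ, (φ.η / Real.sqrt 2) ^ j * ∑' n : ℕ, jo φ d (n + 1) / Real.sqrt ((n : ℝ) + 1) *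
      KWg φ 1 (beg φ 1 d) (Fi c) (Real.log ((n : ℝ) + 1) + j * Real.log 2) := by
    refine tsum_congr fun j => ?_
    congr 1
    refine tsum_congr fun n => ?_
    rw [kw_psi φ hr' hd']
    push_cast
    congr 2
    ring
  rw [h1, dbl φ hφ d (beg φ 1 d) c hc]
  -- the swap
  have hbase : ∀ c' : ℝ, 0 < c' → IntegrableOn
      (fun y : ℝ => Real.exp (-(c' * y)) * (y ^ φ.ex * Fi c (Real.log y / (2 * 1)))) (Set.Ioi 0) := by
    intro c' hc'
    refine Integrable.mono (H553R2.RGCC8a.intg 1 ro ro_RH 1 one_pos c' φ.ex hc') ?_ ?_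
    · apply Measurable.aestronglyMeasurable
      refine Measurable.mul (by fun_prop) (Measurable.mul (by fun_prop) ?_)
      exact (Fi_meas c).comp ((Real.measurable_log).div_const _)
    · refine (ae_restrict_mem measurableSet_Ioi).mono (fun y hy => ?_)
      have hy : 0 < y := hy
      rw [norm_mul, norm_mul, norm_mul, norm_mul]
      refine mul_le_mul_of_nonneg_left (mul_le_mul_of_nonneg_left ?_ (norm_nonneg _)) (norm_nonneg _)
      rw [Real.norm_of_nonneg (ro_nonneg (Real.log y / (2 * 1))),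
        Real.norm_of_nonneg (show 0 ≤ Fi c (Real.log y / (2 * 1)) from ro_nonneg _)]
      show ro (Real.log y / (2 * 1) - c) ≤ ro (Real.log y / (2 * 1))
      exact ro_mono (by linarith)
  obtain ⟨_, s1⟩ := H553R2.RGCC8a.swap0 φ hη hr d hd (Real.exp (-(2 * 1 * 1))) (Real.exp_pos _)
    (fun y => y ^ φ.ex * Fi c (Real.log y / (2 * 1)))
    (fun y h1 h2 => by
      have h3 := Real.log_le_log h1 h2
      rw [Real.log_exp] at h3
      rw [Fi_zero hc (by linarith), mul_zero]) hbase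
  have h2 : (∑' n : ℕ, cf φ d (n + 1) / Real.sqrt ((n : ℝ) + 1) *
        KWg φ 1 (beg φ 1 d) (Fi c) (Real.log ((n : ℝ) + 1) / 1)) =
      ((φ.r : ℝ) * (d : ℝ)) ^ (-(φ.ex + 1)) / g0g φ *
        ∫ y in Set.Ioi (0 : ℝ), thg φ d y * (y ^ φ.ex * Fi c (Real.log y / (2 * 1))) := by
    rw [← s1.tsum_eq, ← tsum_mul_left]
    refine tsum_congr (fun n => ?_)
    have hn : (0 : ℝ) < (n : ℝ) + 1 := by positivity
    rw [H553R2.RGCC8a.kw_eq φ hr d hd 1 one_pos (Fi c) ((n : ℝ) + 1) hn]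
    have hsq : Real.sqrt ((n : ℝ) + 1) ≠ 0 := (Real.sqrt_pos.2 hn).ne'
    generalize (∫ y in Set.Ioi (0 : ℝ),
      Real.exp (-(Real.pi * ((n : ℝ) + 1) ^ 2 * y / (φ.r * d))) *
        (y ^ φ.ex * Fi c (Real.log y / (2 * 1)))) = I1
    generalize cf φ d (n + 1) = j
    generalize ((φ.r : ℝ) * (d : ℝ)) ^ (-(φ.ex + 1)) = b
    generalize ((n : ℝ) + 1) ^ φ.a = e
    field_simp
  rw [h2]
  have h3 : (∫ y in Set.Ioi (0 : ℝ), thg φ d y * (y ^ φ.ex * Fi c (Real.log y / (2 * 1)))) =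
      ∫ y in Set.Ioi (0 : ℝ), thg φ d y * y ^ φ.ex * ro (Real.log y / 2 - c) := by
    refine integral_congr_ae (Eventually.of_forall fun y => ?_)
    simp only [Fi, mul_one]
    ring
  rw [h3, Real.rpow_neg h8.le]
  have h4 : ((φ.r : ℝ) * (d : ℝ)) ^ (φ.ex + 1) ≠ 0 := (Real.rpow_pos_of_pos h8 _).ne'
  field_simp

end Z1x

/-- `StZ1` with `Sd` and `WW` unfolded -/
theorem z1a (φ : FD) (hφ : Fam φ) (d : ℕ) (hd : φ.A d) (_ : Squarefree d) (c : ℝ) (hc : 0 ≤ c) :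
    (∑' j : ℕ, (φ.η / Real.sqrt 2) ^ j * ∑' n : ℕ, jo φ d (n + 1) / Real.sqrt ((n : ℝ) + 1) *
      Psi φ (Real.log ((φ.r : ℝ) * d) / 2 - (c + j * Real.log 2) - Real.log ((n + 1 : ℕ) : ℝ))) =
    (∫ y in Set.Ioi (0 : ℝ), thg φ d y * y ^ φ.ex * ro (Real.log y / 2 - c)) /
    (((φ.r : ℝ) * d) ^ (φ.ex + 1) * g0g φ) :=
  Z1x.core φ hφ d ((LnkC.CGF φ hφ).dpos d hd) c hc

end

end Pool.Agent.K4H95.LQ
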