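import Pool.Agent.K4H95.LQ.Spec5
import Pool.Agent.K4H95.LQ.Z1a

/-! Piece Z1 (by helper41). -/

set_option autoImplicit false

namespace Pool.Agent.K4H95.LQ

open Pool.Agent.H306R2.RG Pool.Agent.H306R2.RZ

theorem z1 : StZ1 := by
  intro φ hφ d hd hs c hc
  unfold Sd WW
  exact z1a φ hφ d hd hs c hc

end Pool.Agent.K4H95.LQ
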