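import Pool.Agent.K4H95.LQ.Spec5
import Pool.Agent.H423R2.RGL.CC3
import Pool.Agent.H423R2.RGL.CC4

/-! Piece Z2. -/

set_option autoImplicit false

namespace Pool.Agent.K4H95.LQ.Z2

open Filter Topology MeasureTheory Pool.Agent.H306R2.RG Pool.Agent.H306R2.RZ

noncomputable section

lemma int_ea {b : ℝ} (hb : 0 < b) : Integrable (fun x : ℝ => Real.exp (-(b * |x|))) := by
  have h1 : IntegrableOn (fun x : ℝ => Real.exp (-(b * |x|))) (Set.Ioi 0) := by
    have h := integrableOn_exp_mul_Ioi (a := -b) (by linarith) 0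
    refine h.congr_fun (fun x hx => ?_) measurableSet_Ioi
    have hx0 : (0:ℝ) < x := hx
    simp only
    rw [abs_of_pos hx0, neg_mul]
  have h2 : IntegrableOn (fun x : ℝ => Real.exp (-(b * |x|))) (Set.Iic 0) := by
    have h := integrableOn_exp_mul_Iic (a := b) hb 0
    refine h.congr_fun (fun x hx => ?_) measurableSet_Iic
    have hx0 : x ≤ (0:ℝ) := hx
    simp only
    rw [abs_of_nonpos hx0]
    ring_nf
  have h3 := h2.union h1
  rwa [Set.Iic_union_Ioi, integrableOn_univ] at h3

theorem core (W ro C C1 : ℝ → ℝ) (hWc : Continuous W) (hWe : ∀ x, W (-x) = W x) (K : ℝ)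
    (hWb : ∀ x, |W x| ≤ K * Real.exp (-(2 * |x|))) (hroc : Continuous ro)
    (hro0 : ∀ x, 0 ≤ ro x) (hro1 : ∀ x, ro x ≤ 1) (hroz : ∀ x, x ≤ -1 → ro x = 0) (α : ℝ)
    (hα0 : 0 ≤ α) (hα : α ≤ 1 / 4)
    (hC1c : Continuous C1) (hC1b : ∀ x, 0 ≤ x → |C1 x| ≤ α * Real.sinh (α * x)) (A : ℝ)
    (hA : ∀ x, (2 * ro x + 2 * ∫ τ in Set.Ioi (0 : ℝ), ro (x - τ) * C1 τ) +
      (2 * ro (-x) + 2 * ∫ τ in Set.Ioi (0 : ℝ), ro (-x - τ) * C1 τ) = 2 * A * C x) :
    IntegrableOn (fun τ : ℝ => (∫ x, W x * ro (x - τ)) * C1 τ) (Set.Ioi 0) ∧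
    A * (∫ x, W x * C x) = 2 * (∫ x, W x * ro (x - 0)) +
      2 * ∫ τ in Set.Ioi (0 : ℝ), (∫ x, W x * ro (x - τ)) * C1 τ := by
  have hK : 0 ≤ K := by
    have := (abs_nonneg _).trans (hWb 0)
    simpa using this
  -- the product
  have hG : Integrable (fun z : ℝ × ℝ => (K * Real.exp (1 / 2) * Real.exp (-((3 / 2) * |z.1|))) *
      Real.exp (-(1 / 4) * z.2)) (volume.prod (volume.restrict (Set.Ioi (0:ℝ)))) := by
    have g1 : Integrable (fun x : ℝ => K * Real.exp (1 / 2) * Real.exp (-((3 / 2) * |x|))) :=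
      (int_ea (by norm_num)).const_mul _
    have g2 : Integrable (fun τ : ℝ => Real.exp (-(1 / 4) * τ)) (volume.restrict (Set.Ioi (0:ℝ))) :=
      integrableOn_exp_mul_Ioi (by norm_num) 0
    exact g1.mul_prod g2
  have hH : Integrable (fun z : ℝ × ℝ => W z.1 * ro (z.1 - z.2) * C1 z.2)
      (volume.prod (volume.restrict (Set.Ioi (0:ℝ)))) := by
    refine hG.mono' ?_ ?_
    · have : Continuous (fun z : ℝ × ℝ => W z.1 * ro (z.1 - z.2) * C1 z.2) := by fun_prop
      exact this.aestronglyMeasurable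
    · have hae : ∀ᵐ z : ℝ × ℝ ∂(volume.prod (volume.restrict (Set.Ioi (0:ℝ)))), 0 < z.2 := by
        have e1 : (volume : Measure ℝ).prod (volume.restrict (Set.Ioi (0:ℝ))) =
            ((volume : Measure ℝ).prod volume).restrict (Set.univ ×ˢ Set.Ioi (0:ℝ)) := by
          rw [← Measure.prod_restrict, Measure.restrict_univ]
        rw [e1]
        filter_upwards [ae_restrict_mem (MeasurableSet.univ.prod measurableSet_Ioi)] with z hz
        exact hz.2
      filter_upwards [hae] with z hz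
      obtain ⟨x, τ⟩ := z
      simp only at hz ⊢
      rw [Real.norm_eq_abs, abs_mul, abs_mul]
      have b1 : |W x| ≤ K * Real.exp (-(2 * |x|)) := hWb x
      have b2 : |ro (x - τ)| ≤ Real.exp ((|x| + 1 - τ) / 2) := by
        rw [abs_of_nonneg (hro0 _)]
        by_cases h : x - τ ≤ -1
        · rw [hroz _ h]
          positivity
        · push Not at h
          refine (hro1 _).trans (Real.one_le_exp ?_)
          have := le_abs_self x
          linarith
      have b3 : |C1 τ| ≤ Real.exp (τ / 4) := by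
        refine (hC1b τ hz.le).trans ?_
        have e1 : Real.sinh (α * τ) ≤ Real.exp (α * τ) := by
          rw [Real.sinh_eq]
          have := Real.exp_pos (α * τ)
          have := Real.exp_pos (-(α * τ))
          linarith
        have e2 : Real.exp (α * τ) ≤ Real.exp (τ / 4) := Real.exp_le_exp.2 (by nlinarith)
        have e3 := Real.exp_pos (τ / 4)
        calc α * Real.sinh (α * τ) ≤ α * Real.exp (τ / 4) :=
              mul_le_mul_of_nonneg_left (e1.trans e2) hα0
          _ ≤ 1 * Real.exp (τ / 4) := mul_le_mul_of_nonneg_right (by linarith) e3.le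
          _ = _ := one_mul _
      calc |W x| * |ro (x - τ)| * |C1 τ|
          ≤ (K * Real.exp (-(2 * |x|))) * Real.exp ((|x| + 1 - τ) / 2) * Real.exp (τ / 4) := by
            gcongr
        _ = (K * Real.exp (1 / 2) * Real.exp (-((3 / 2) * |x|))) * Real.exp (-(1 / 4) * τ) := by
            have e : Real.exp (-(2 * |x|)) * Real.exp ((|x| + 1 - τ) / 2) * Real.exp (τ / 4) =
                Real.exp (1 / 2) * Real.exp (-((3 / 2) * |x|)) * Real.exp (-(1 / 4) * τ) := by
              rw [← Real.exp_add, ← Real.exp_add, ← Real.exp_add, ← Real.exp_add]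
              congr 1
              ring
            linear_combination K * e
  have eR : ∀ τ, (∫ x, W x * ro (x - τ) * C1 τ) = (∫ x, W x * ro (x - τ)) * C1 τ := fun τ =>
    integral_mul_const _ _
  have eL : ∀ x, (∫ τ in Set.Ioi (0:ℝ), W x * ro (x - τ) * C1 τ) =
      W x * ∫ τ in Set.Ioi (0:ℝ), ro (x - τ) * C1 τ := fun x => by
    rw [← integral_const_mul]
    refine integral_congr_ae (Eventually.of_forall fun τ => ?_)
    simp only
    ring
  have hI : IntegrableOn (fun τ : ℝ => (∫ x, W x * ro (x - τ)) * C1 τ) (Set.Ioi 0) := by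
    have h := hH.integral_prod_right
    simp only [eR] at h
    exact h
  have hJ : Integrable (fun x : ℝ => W x * ∫ τ in Set.Ioi (0:ℝ), ro (x - τ) * C1 τ) := by
    have h := hH.integral_prod_left
    simp only [eL] at h
    exact h
  have hsw : (∫ x, W x * ∫ τ in Set.Ioi (0:ℝ), ro (x - τ) * C1 τ) =
      ∫ τ in Set.Ioi (0:ℝ), (∫ x, W x * ro (x - τ)) * C1 τ := by
    have h := integral_integral_swap (f := fun x τ => W x * ro (x - τ) * C1 τ) hH
    simp only [eR, eL] at h
    exact h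
  have hWi : Integrable (fun x => K * Real.exp (-(2 * |x|))) := (int_ea (by norm_num)).const_mul _
  have hro : Integrable (fun x => W x * ro x) := by
    refine hWi.mono' (hWc.mul hroc).aestronglyMeasurable (Eventually.of_forall fun x => ?_)
    rw [Real.norm_eq_abs, abs_mul, abs_of_nonneg (hro0 x)]
    exact (mul_le_of_le_one_right (abs_nonneg _) (hro1 x)).trans (hWb x)
  refine ⟨hI, ?_⟩
  set kk : ℝ → ℝ := fun x => 2 * ro x + 2 * ∫ τ in Set.Ioi (0 : ℝ), ro (x - τ) * C1 τ with hkk
  have hk : Integrable (fun x => W x * kk x) := by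
    have h := (hro.const_mul 2).add (hJ.const_mul 2)
    refine h.congr (Eventually.of_forall fun x => ?_)
    simp only [Pi.add_apply, hkk]
    ring
  have e1 : ∫ x, W x * kk x = 2 * (∫ x, W x * ro (x - 0)) +
      2 * ∫ τ in Set.Ioi (0 : ℝ), (∫ x, W x * ro (x - τ)) * C1 τ := by
    rw [← hsw, ← integral_const_mul, ← integral_const_mul]
    simp only [sub_zero]
    rw [← integral_add (hro.const_mul 2) (hJ.const_mul 2)]
    refine integral_congr_ae (Eventually.of_forall fun x => ?_)
    simp only [hkk]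
    ring
  have hk' : Integrable (fun x => W x * kk (-x)) := by
    have h := hk.comp_neg
    refine h.congr (Eventually.of_forall fun x => ?_)
    simp only [hWe]
  have e2 : ∫ x, W x * kk (-x) = ∫ x, W x * kk x := by
    rw [← integral_neg_eq_self (fun x => W x * kk x)]
    refine integral_congr_ae (Eventually.of_forall fun x => ?_)
    simp only [hWe]
  have e3 : (∫ x, W x * kk x) + ∫ x, W x * kk (-x) = 2 * A * ∫ x, W x * C x := by
    rw [← integral_add hk hk', ← integral_const_mul]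
    refine integral_congr_ae (Eventually.of_forall fun x => ?_)
    have := hA x
    simp only [hkk]
    linear_combination W x * this
  rw [← e1]
  linarith

/-- the weight in the variable `x = log y / 2` -/
def Wf (φ : FD) (d : ℕ) (x : ℝ) : ℝ :=
  2 * Real.exp (2 * x) * (thg φ d (Real.exp (2 * x)) * Real.exp (2 * x * φ.ex))

lemma cv (φ : FD) (d : ℕ) (F : ℝ → ℝ) :
    ∫ y in Set.Ioi (0:ℝ), thg φ d y * y ^ φ.ex * F (Real.log y / 2) = ∫ x, Wf φ d x * F x := by
  have hd : ∀ x ∈ (Set.univ : Set ℝ), HasDerivWithinAt (fun x : ℝ => Real.exp (2 * x))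
      (2 * Real.exp (2 * x)) Set.univ x := by
    intro x _
    have h1 : HasDerivAt (fun x : ℝ => 2 * x) 2 x := by
      simpa using (hasDerivAt_id x).const_mul 2
    have h2 := h1.exp
    rw [mul_comm (2:ℝ) (Real.exp (2 * x))]
    exact h2.hasDerivWithinAt
  have hi : Set.InjOn (fun x : ℝ => Real.exp (2 * x)) Set.univ := by
    intro x _ y _ h
    have := Real.exp_injective h
    linarith
  have h := integral_image_eq_integral_abs_deriv_smul MeasurableSet.univ hd hi
    (fun y => thg φ d y * y ^ φ.ex * F (Real.log y / 2))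
  have him : (fun x : ℝ => Real.exp (2 * x)) '' Set.univ = Set.Ioi 0 := by
    ext y
    simp only [Set.image_univ, Set.mem_range, Set.mem_Ioi]
    constructor
    · rintro ⟨x, rfl⟩
      exact Real.exp_pos _
    · intro hy
      refine ⟨Real.log y / 2, ?_⟩
      rw [show 2 * (Real.log y / 2) = Real.log y by ring, Real.exp_log hy]
  rw [him, setIntegral_univ] at h
  rw [h]
  refine integral_congr_ae (Eventually.of_forall fun x => ?_)
  simp only [smul_eq_mul, Wf]
  have e1 : Real.log (Real.exp (2 * x)) / 2 = x := by rw [Real.log_exp]; ring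
  rw [e1, abs_of_pos (by positivity), Real.exp_mul (2 * x) φ.ex]
  ring

lemma Wf_cont (φ : FD) (hφ : Fam φ) (d : ℕ) (hd : d ≠ 0) : Continuous (Wf φ d) := by
  have h1 : Continuous (fun x : ℝ => thg φ d (Real.exp (2 * x))) :=
    (LnkC.CC4 φ hφ d hd).1.comp_continuous (by fun_prop) fun x => Real.exp_pos _
  unfold Wf
  fun_prop

lemma Wf_even (φ : FD) (hφ : Fam φ) (d : ℕ) (hd : φ.A d) (hs : Squarefree d) (x : ℝ) :
    Wf φ d (-x) = Wf φ d x := by
  have h1 := LnkC.CC3 φ hφ d hd hs (Real.exp (2 * x)) (Real.exp_pos _)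
  have e1 : Real.exp (2 * -x) = 1 / Real.exp (2 * x) := by
    rw [one_div, ← Real.exp_neg]
    congr 1
    ring
  unfold Wf
  rw [← e1, ← Real.exp_mul] at h1
  rw [h1]
  have e2 : Real.exp (2 * -x) * Real.exp (2 * x * (1 / 2 + φ.a)) * Real.exp (2 * -x * φ.ex) =
      Real.exp (2 * x) * Real.exp (2 * x * φ.ex) := by
    rw [← Real.exp_add, ← Real.exp_add, ← Real.exp_add]
    congr 1
    unfold FD.ex
    ring
  linear_combination 2 * thg φ d (Real.exp (2 * x)) * e2

lemma Wf_bd (φ : FD) (hφ : Fam φ) (d : ℕ) (hd : φ.A d) (hs : Squarefree d) (hd0 : d ≠ 0) :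
    ∃ K : ℝ, ∀ x, |Wf φ d x| ≤ K * Real.exp (-(2 * |x|)) := by
  obtain ⟨C, c, hC, hc, h⟩ := (LnkC.CC4 φ hφ d hd0).2
  set n : ℕ := φ.a + 2 with hn
  have key : ∀ x : ℝ, 0 ≤ x → |Wf φ d x| ≤ (2 * C * (n.factorial / c ^ n)) * Real.exp (-(2 * x)) := by
    intro x hx
    set y := Real.exp (2 * x) with hy
    have hy1 : 1 ≤ y := Real.one_le_exp (by linarith)
    have hy0 : 0 < y := Real.exp_pos _
    have h1 := h y hy1
    have h2 : (c * y) ^ n / n.factorial ≤ Real.exp (c * y) :=
      Real.pow_div_factorial_le_exp (c * y) (by positivity) n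
    have h3 : y ^ n ≤ n.factorial / c ^ n * Real.exp (c * y) := by
      have hf : (0:ℝ) < n.factorial := by exact_mod_cast n.factorial_pos
      rw [div_le_iff₀ hf, mul_pow] at h2
      rw [div_mul_eq_mul_div, le_div_iff₀ (by positivity)]
      nlinarith
    have h4 : Real.exp (2 * x) * Real.exp (2 * x * φ.ex) * Real.exp (2 * x) ≤ y ^ n := by
      rw [hy, ← Real.exp_nat_mul, ← Real.exp_add, ← Real.exp_add]
      refine Real.exp_le_exp.2 ?_
      rw [hn]
      push_cast
      have hex : φ.ex ≤ (φ.a : ℝ) := by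
        unfold FD.ex
        have : (0:ℝ) ≤ φ.a := Nat.cast_nonneg _
        linarith
      nlinarith
    have h5 : |Wf φ d x| ≤ 2 * y * (C * Real.exp (-(c * y)) * Real.exp (2 * x * φ.ex)) := by
      unfold Wf
      rw [abs_mul, abs_of_pos (show (0:ℝ) < 2 * Real.exp (2 * x) by positivity), abs_mul,
        abs_of_pos (Real.exp_pos (2 * x * φ.ex))]
      gcongr
    refine h5.trans ?_
    have e1 : Real.exp (-(2 * x)) * Real.exp (2 * x) = 1 := by
      rw [← Real.exp_add]
      simp
    have e2 : Real.exp (-(c * y)) * Real.exp (c * y) = 1 := by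
      rw [← Real.exp_add]
      simp
    calc 2 * y * (C * Real.exp (-(c * y)) * Real.exp (2 * x * φ.ex))
        = 2 * C * (Real.exp (2 * x) * Real.exp (2 * x * φ.ex) * Real.exp (2 * x)) *
            Real.exp (-(c * y)) * Real.exp (-(2 * x)) := by
          rw [hy]
          linear_combination -(2 * C * Real.exp (2 * x) * Real.exp (2 * x * φ.ex) * Real.exp (-(c * Real.exp (2 * x)))) * e1
      _ ≤ 2 * C * (n.factorial / c ^ n * Real.exp (c * y)) * Real.exp (-(c * y)) * Real.exp (-(2 * x)) := by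
          have := h4.trans h3
          gcongr
      _ = _ := by
          linear_combination (2 * C * (n.factorial / c ^ n) * Real.exp (-(2 * x))) * e2
  refine ⟨2 * C * (n.factorial / c ^ n), fun x => ?_⟩
  by_cases hx : 0 ≤ x
  · rw [abs_of_nonneg hx]
    exact key x hx
  · push Not at hx
    rw [← Wf_even φ hφ d hd hs x, abs_of_neg hx]
    exact key (-x) (by linarith)

end

end Pool.Agent.K4H95.LQ.Z2

namespace Pool.Agent.K4H95.LQ

open Filter Topology MeasureTheory Pool.Agent.H306R2.RG Pool.Agent.H306R2.RZ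

theorem z2 : StZ2 := by
  intro hZ1 φ hφ d hd hs α A C C1 hO hα hk
  have hC := LnkC.CGF φ hφ
  have hd0 : 0 < d := hC.dpos d hd
  obtain ⟨K, hK⟩ := Z2.Wf_bd φ hφ d hd hs hd0.ne'
  have h := Z2.core (Z2.Wf φ d) ro C C1 (Z2.Wf_cont φ hφ d hd0.ne') (Z2.Wf_even φ hφ d hd hs) K hK
    ro_cont ro_nonneg ro_le (fun x hx => ro_zero hx) α hO.nonneg hα hO.cont hO.bd1 A
    (fun x => by simpa only [kk] using hk x)
  set N : ℝ := ((φ.r : ℝ) * d) ^ (φ.ex + 1) * g0g φ with hN
  have eS : ∀ c : ℝ, 0 ≤ c → Sd φ d c = (∫ x, Z2.Wf φ d x * ro (x - c)) / N := by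
    intro c hc
    rw [hZ1 φ hφ d hd hs c hc, ← Z2.cv φ d (fun x => ro (x - c))]
  have eL : Lc φ d C = (∫ x, Z2.Wf φ d x * C x) / N := by
    unfold Lc
    rw [← Z2.cv φ d C]
  have eI : ∀ τ ∈ Set.Ioi (0:ℝ), (∫ x, Z2.Wf φ d x * ro (x - τ)) * C1 τ / N = Sd φ d τ * C1 τ := by
    intro τ hτ
    rw [eS τ (le_of_lt hτ)]
    ring
  constructor
  · have hh : IntegrableOn (fun τ : ℝ => (∫ x, Z2.Wf φ d x * ro (x - τ)) * C1 τ / N) (Set.Ioi 0) :=
      h.1.div_const N
    exact hh.congr_fun (fun τ hτ => eI τ hτ) measurableSet_Ioi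
  · have e1 : ∫ τ in Set.Ioi (0 : ℝ), Sd φ d τ * C1 τ =
        (∫ τ in Set.Ioi (0 : ℝ), (∫ x, Z2.Wf φ d x * ro (x - τ)) * C1 τ) / N := by
      rw [← integral_div]
      exact setIntegral_congr_fun measurableSet_Ioi fun τ hτ => (eI τ hτ).symm
    rw [e1, eL, eS 0 le_rfl, mul_div_assoc', h.2]
    ring

end Pool.Agent.K4H95.LQ
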